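import Pool.Agent.W_7d29a1_F.Bridge1

/-!
The bridge: mean values. TASK Bridge2.
-/

namespace Pool.Agent.W_7d29a1_F

open MeasureTheory ProbabilityTheory Filter Topology

variable {μ : Measure ℝ} [IsProbabilityMeasure μ]

private lemma Bridge2_int {F : Pool.Agent.W_7d29a1_h47.Env → ℝ} (hF : Measurable F) :
    ∫ η, F (toH η) ∂(law μ) = ∫ g, F g ∂(Pool.Agent.W_7d29a1_h47.law μ) := by
  have h := mp_toH (μ := μ)
  rw [← h.map_eq]
  exact (integral_map h.measurable.aemeasurable hF.aestronglyMeasurable).symm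

private lemma Bridge2_integrable {F : Pool.Agent.W_7d29a1_h47.Env → ℝ}
    (hF : Integrable F (Pool.Agent.W_7d29a1_h47.law μ)) :
    Integrable (fun η => F (toH η)) (law μ) :=
  ((mp_toH (μ := μ)).integrable_comp hF.aestronglyMeasurable).2 hF

private lemma Bridge2_reach {n : ℕ} {y : ℤ} (h0 : 0 ≤ y) (h1 : y ≤ n) :
    Pool.Agent.W_7d29a1_h47.Reach 0 n (2 * y - n) := by
  rw [Pool.Agent.W_7d29a1_h47.Reach_iff]
  constructor
  · rw [abs_le]
    constructor <;> omega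
  · omega

theorem integral_logZr (n : ℕ) (y : ℤ) :
    ∫ η, Real.log (Zr Set.univ η 0 n y) ∂(law μ) = Pool.Agent.W_7d29a1_h47.ap μ n (2 * y - n) := by
  simp only [Zr_eq_Zp]
  rw [Bridge2_int (F := fun g => Real.log (Pool.Agent.W_7d29a1_h47.Zp g 0 0 n (2 * y - n)))
    (by fun_prop)]
  rfl

theorem e_eq (hμ : Pool.Agent.W_7d29a1_h47.EM μ) (s : ℝ) {n : ℕ} {y : ℤ} (h0 : 0 ≤ y)
    (h1 : y ≤ n) :
    e μ s n y = n * lam μ s - s * y - Pool.Agent.W_7d29a1_h47.ap μ n (2 * y - n) := by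
  have hi : Integrable (fun η => Real.log (Zr Set.univ η 0 n y)) (law μ) := by
    simp only [Zr_eq_Zp]
    exact Bridge2_integrable
      (F := fun g => Real.log (Pool.Agent.W_7d29a1_h47.Zp g 0 0 n (2 * y - n)))
      (Pool.Agent.W_7d29a1_h47.EMom_logZp hμ (Bridge2_reach h0 h1) 0).integrable
  have hX : ∀ η : Env, X μ s η 0 n y =
      (n * lam μ s - s * y) - Real.log (Zr Set.univ η 0 n y) := by
    intro η
    unfold X W WR
    rw [Real.log_mul (Real.exp_pos _).ne' (Zr_pos η 0 h0 h1).ne', Real.log_exp]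
    ring
  unfold e
  simp only [hX]
  rw [integral_sub (integrable_const _) hi, integral_logZr]
  simp

theorem integral_V_eq (hμ : Pool.Agent.W_7d29a1_h47.EM μ) (s : ℝ) (n : ℕ) :
    ∫ η, V μ s η 0 n ∂(law μ) =
      Pool.Agent.W_7d29a1_h47.a μ (s / 2) n - n * Pool.Agent.W_7d29a1_h47.Lam μ (s / 2) := by
  have hV : ∀ η : Env, V μ s η 0 n =
      Real.log (Pool.Agent.W_7d29a1_h47.Z (toH η) (s / 2) 0 0 n) -
        n * Pool.Agent.W_7d29a1_h47.Lam μ (s / 2) := by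
    intro η
    have h1 : WS μ s η 0 n (Finset.Icc (0 : ℤ) n) =
        Real.exp (-(n * lam μ s)) * (Real.exp (s / 2 * n) *
          Pool.Agent.W_7d29a1_h47.Z (toH η) (s / 2) 0 0 n) := by
      rw [← sum_Zr_eq_Z, Finset.mul_sum]
      unfold WS W WR
      refine Finset.sum_congr rfl fun y _ => ?_
      rw [← mul_assoc, ← Real.exp_add]
      congr 2
      ring
    unfold V
    rw [h1, Real.log_mul (Real.exp_pos _).ne'
      (mul_pos (Real.exp_pos _) (Pool.Agent.W_7d29a1_h47.Z_pos _ _ _ _ _)).ne',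
      Real.log_mul (Real.exp_pos _).ne' (Pool.Agent.W_7d29a1_h47.Z_pos _ _ _ _ _).ne',
      Real.log_exp, Real.log_exp]
    unfold lam
    ring
  simp only [hV]
  have hi : Integrable (fun η =>
      Real.log (Pool.Agent.W_7d29a1_h47.Z (toH η) (s / 2) 0 0 n)) (law μ) :=
    Bridge2_integrable (F := fun g => Real.log (Pool.Agent.W_7d29a1_h47.Z g (s / 2) 0 0 n))
      (Pool.Agent.W_7d29a1_h47.EMom_logZ hμ (s / 2) 0 0 n).integrable
  rw [integral_sub hi (integrable_const _),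
    Bridge2_int (F := fun g => Real.log (Pool.Agent.W_7d29a1_h47.Z g (s / 2) 0 0 n))
      (by fun_prop)]
  simp [Pool.Agent.W_7d29a1_h47.a]

theorem integral_V_nonpos (hμ : Pool.Agent.W_7d29a1_h47.EM μ) (s : ℝ) (n : ℕ) :
    ∫ η, V μ s η 0 n ∂(law μ) ≤ 0 := by
  rw [integral_V_eq hμ]
  have := Pool.Agent.W_7d29a1_h47.a_le_Lam hμ (s / 2) n
  linarith

theorem e_nonneg (hμ : Pool.Agent.W_7d29a1_h47.EM μ) (s : ℝ) {n : ℕ} {y : ℤ} (h0 : 0 ≤ y)
    (h1 : y ≤ n) : 0 ≤ e μ s n y := by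
  rw [e_eq hμ s h0 h1]
  have h2 := Pool.Agent.W_7d29a1_h47.ap_le hμ (Bridge2_reach h0 h1) (s / 2)
  push_cast at h2
  unfold lam
  nlinarith

end Pool.Agent.W_7d29a1_F
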