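import Pool.Agent.W_7d29a1_F.CoreD2

/-!
Mean costs. TASK CoreD3.
-/

namespace Pool.Agent.W_7d29a1_F

open MeasureTheory ProbabilityTheory Filter Topology

variable {μ : Measure ℝ} {s : ℝ} [IsProbabilityMeasure μ]

private theorem CoreD3_int_sh (a : Pt) {f : Env → ℝ} (hf : Measurable f) :
    ∫ η, f (sh a η) ∂(law μ) = ∫ η, f η ∂(law μ) := by
  have h := mp_sh (μ := μ) a
  rw [← integral_map h.measurable.aemeasurable hf.aestronglyMeasurable, h.map_eq]

private theorem CoreD3_meas_X (n : ℕ) (y : ℤ) : Measurable fun η : Env => X μ s η 0 n y :=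
  (Real.measurable_log.comp (measurable_W (μ := μ) (s := s) 0 n y)).neg

private theorem CoreD3_meas_V (n : ℕ) : Measurable fun η : Env => V μ s η 0 n :=
  Real.measurable_log.comp (measurable_WS (μ := μ) (s := s) 0 n _)

theorem integral_X (a : Pt) (n : ℕ) (y : ℤ) : ∫ η, X μ s η a n y ∂(law μ) = e μ s n y := by
  have h := CoreD3_int_sh (μ := μ) a (CoreD3_meas_X (μ := μ) (s := s) n y)
  have h2 : (fun η : Env => X μ s (sh a η) 0 n y) = fun η : Env => X μ s η a n y := by
    funext η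
    rw [X_sh, zero_add]
  rw [h2] at h
  exact h

theorem integral_V (a : Pt) (n : ℕ) :
    ∫ η, V μ s η a n ∂(law μ) = ∫ η, V μ s η 0 n ∂(law μ) := by
  have h := CoreD3_int_sh (μ := μ) a (CoreD3_meas_V (μ := μ) (s := s) n)
  have h2 : (fun η : Env => V μ s (sh a η) 0 n) = fun η : Env => V μ s η a n := by
    funext η
    rw [V_sh, zero_add]
  rw [h2] at h
  exact h

theorem e_zero : e μ s 0 0 = 0 := by
  have h : ∀ η : Env, X μ s η 0 0 0 = 0 := by
    intro η
    unfold X W WR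
    simp [Zr]
  unfold e
  simp only [h, integral_zero]

private theorem CoreD3_int_X (hμ : Pool.Agent.W_7d29a1_h47.EM μ) (a : Pt) {n : ℕ} {y : ℤ}
    (h0 : 0 ≤ y) (h1 : y ≤ n) : Integrable (fun η => X μ s η a n y) (law μ) :=
  Sub.integrable hμ (Sub_X a h0 h1)

theorem e_add_le (hμ : Pool.Agent.W_7d29a1_h47.EM μ) {m n : ℕ} {k y : ℤ} (h0 : 0 ≤ k) (h1 : k ≤ m)
    (h2 : 0 ≤ y) (h3 : y ≤ n) : e μ s (m + n) (k + y) ≤ e μ s m k + e μ s n y := by
  have e1 := integral_X (μ := μ) (s := s) 0 m k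
  have e2 := integral_X (μ := μ) (s := s) ((0 : Pt).1 + m, (0 : Pt).2 + k) n y
  have e3 := integral_X (μ := μ) (s := s) 0 (m + n) (k + y)
  have i1 := CoreD3_int_X (s := s) hμ 0 h0 h1
  have i2 := CoreD3_int_X (s := s) hμ ((0 : Pt).1 + m, (0 : Pt).2 + k) h2 h3
  have i3 := CoreD3_int_X (s := s) hμ 0 (n := m + n) (y := k + y) (by omega) (by push_cast; omega)
  rw [← e1, ← e2, ← e3, ← integral_add i1 i2]
  exact integral_mono i3 (i1.add i2) fun η => X_add_le η 0 h0 h1 h2 h3

/-- Convexity (`W_tp2` with `x = 0`, `x' = 1`, end positions `y`, `y + 1`; compare `X`). -/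
theorem e_convex (hμ : Pool.Agent.W_7d29a1_h47.EM μ) {n : ℕ} {y : ℤ} (h0 : 1 ≤ y) (h1 : y + 1 ≤ n) :
    2 * e μ s n y ≤ e μ s n (y - 1) + e μ s n (y + 1) := by
  have key : ∀ η : Env, X μ s η (0, 0) n y + X μ s η (0, 1) n y ≤
      X μ s η (0, 1) n (y - 1) + X μ s η (0, 0) n (y + 1) := by
    intro η
    have h := W_tp2 (μ := μ) (s := s) η 0 0 1 n y (y + 1) (by norm_num) (by omega)
    rw [sub_zero, sub_zero, add_sub_cancel_right] at h
    have p1 : 0 < W μ s η (0, 0) n (y + 1) := W_pos η _ (by omega) h1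
    have p2 : 0 < W μ s η (0, 1) n (y - 1) := W_pos η _ (by omega) (by omega)
    have p3 : 0 < W μ s η (0, 0) n y := W_pos η _ (by omega) (by omega)
    have p4 : 0 < W μ s η (0, 1) n y := W_pos η _ (by omega) (by omega)
    have h2 := Real.log_le_log (mul_pos p1 p2) h
    rw [Real.log_mul p1.ne' p2.ne', Real.log_mul p3.ne' p4.ne'] at h2
    unfold X
    linarith
  have i1 := CoreD3_int_X (s := s) hμ (0, 0) (n := n) (y := y) (by omega) (by omega)
  have i2 := CoreD3_int_X (s := s) hμ (0, 1) (n := n) (y := y) (by omega) (by omega)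
  have i3 := CoreD3_int_X (s := s) hμ (0, 1) (n := n) (y := y - 1) (by omega) (by omega)
  have i4 := CoreD3_int_X (s := s) hμ (0, 0) (n := n) (y := y + 1) (by omega) (by omega)
  have h := integral_mono (i1.add i2) (i3.add i4) key
  have h5 : ∫ η, (X μ s η (0, 0) n y + X μ s η (0, 1) n y) ∂(law μ) = e μ s n y + e μ s n y := by
    rw [integral_add i1 i2, integral_X, integral_X]
  have h6 : ∫ η, (X μ s η (0, 1) n (y - 1) + X μ s η (0, 0) n (y + 1)) ∂(law μ) =
      e μ s n (y - 1) + e μ s n (y + 1) := by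
    rw [integral_add i3 i4, integral_X, integral_X]
  have h7 : e μ s n y + e μ s n y ≤ e μ s n (y - 1) + e μ s n (y + 1) := by
    rw [← h5, ← h6]
    exact h
  linarith

private theorem CoreD3_step {f : ℤ → ℝ} {y1 : ℤ} {N : ℕ}
    (hf : ∀ z, y1 < z → z < y1 + N → 2 * f z ≤ f (z - 1) + f (z + 1)) (j : ℕ) (hj : j < N) :
    f (y1 + j) - f y1 ≤ j * (f (y1 + j + 1) - f (y1 + j)) := by
  induction j with
  | zero => simp
  | succ j ih =>
    have h1 := ih (by omega)
    have h2 := hf (y1 + j + 1) (by omega) (by omega)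
    rw [add_sub_cancel_right] at h2
    push_cast
    have e1 : y1 + ((j : ℤ) + 1) = y1 + j + 1 := by ring
    rw [e1]
    have h3 : f (y1 + j + 1) - f (y1 + j) ≤ f (y1 + j + 1 + 1) - f (y1 + j + 1) := by linarith
    have h4 : (0 : ℝ) ≤ (j : ℝ) + 1 := by positivity
    have h5 := mul_le_mul_of_nonneg_left h3 h4
    linarith

private theorem CoreD3_max {f : ℤ → ℝ} {y1 : ℤ} {N : ℕ}
    (hf : ∀ z, y1 < z → z < y1 + N → 2 * f z ≤ f (z - 1) + f (z + 1)) {j : ℕ} (hj : j ≤ N) :
    f (y1 + j) ≤ max (f y1) (f (y1 + N)) := by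
  by_cases h : f (y1 + j) ≤ f y1
  · exact le_trans h (le_max_left _ _)
  · rw [not_le] at h
    have hk : ∀ k : ℕ, j + k ≤ N → f (y1 + j) ≤ f (y1 + (j + k : ℕ)) := by
      intro k
      induction k with
      | zero => intro _; simp
      | succ k ih =>
        intro hk
        have h1 := ih (by omega)
        have h2 := CoreD3_step hf (j + k) (by omega)
        have h3 : 0 < f (y1 + (j + k : ℕ)) - f y1 := by linarith
        have h4 : 0 < f (y1 + (j + k : ℕ) + 1) - f (y1 + (j + k : ℕ)) := by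
          by_contra h5
          rw [not_lt] at h5
          have h6 := mul_nonpos_of_nonneg_of_nonpos (Nat.cast_nonneg (α := ℝ) (j + k)) h5
          linarith
        have e1 : y1 + ((j + (k + 1) : ℕ) : ℤ) = y1 + ((j + k : ℕ) : ℤ) + 1 := by
          push_cast
          ring
        rw [e1]
        linarith
    have h1 := hk (N - j) (by omega)
    rw [Nat.add_sub_cancel' hj] at h1
    exact le_trans h1 (le_max_right _ _)

/-- Consequence: the maximum over an interval is attained at an end point. -/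
theorem e_le_max (hμ : Pool.Agent.W_7d29a1_h47.EM μ) {n : ℕ} {y1 y y2 : ℤ} (h0 : 0 ≤ y1)
    (h1 : y1 ≤ y) (h2 : y ≤ y2) (h3 : y2 ≤ n) : e μ s n y ≤ max (e μ s n y1) (e μ s n y2) := by
  obtain ⟨j, hj⟩ : ∃ j : ℕ, y = y1 + j := ⟨(y - y1).toNat, by omega⟩
  obtain ⟨N, hN⟩ : ∃ N : ℕ, y2 = y1 + N := ⟨(y2 - y1).toNat, by omega⟩
  subst hj hN
  refine CoreD3_max (f := fun z => e μ s n z) ?_ (by omega)
  intro z hz1 hz2
  exact e_convex hμ (by omega) (by omega)

end Pool.Agent.W_7d29a1_F
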