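import Pool.Agent.W_7d29a1_F.CoreC

/-!
The normalised weights. TASK CoreD1.
-/

namespace Pool.Agent.W_7d29a1_F

open MeasureTheory ProbabilityTheory Filter Topology

variable {μ : Measure ℝ} {s : ℝ}

private theorem CoreD1_def (R : Set Pt) (η : Env) (a : Pt) (n : ℕ) (y : ℤ) :
    WR μ s R η a n y = Real.exp (s * y - n * lam μ s) * Zr R η a n y := rfl

private theorem CoreD1_exp (m n : ℕ) (k y : ℤ) :
    Real.exp (s * ((k + y : ℤ) : ℝ) - ((m + n : ℕ) : ℝ) * lam μ s) =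
      Real.exp (s * (k : ℝ) - m * lam μ s) * Real.exp (s * (y : ℝ) - n * lam μ s) := by
  rw [← Real.exp_add]
  congr 1
  push_cast
  ring

theorem WR_nonneg (R : Set Pt) (η : Env) (a : Pt) (n : ℕ) (y : ℤ) : 0 ≤ WR μ s R η a n y := by
  rw [CoreD1_def]
  exact mul_nonneg (Real.exp_pos _).le (Zr_nonneg R η a n y)

theorem WR_le_W (R : Set Pt) (η : Env) (a : Pt) (n : ℕ) (y : ℤ) :
    WR μ s R η a n y ≤ W μ s η a n y := by
  unfold W
  rw [CoreD1_def, CoreD1_def]
  exact mul_le_mul_of_nonneg_left (Zr_mono (Set.subset_univ R) η a n y) (Real.exp_pos _).le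

theorem W_nonneg (η : Env) (a : Pt) (n : ℕ) (y : ℤ) : 0 ≤ W μ s η a n y :=
  WR_nonneg Set.univ η a n y

theorem W_pos (η : Env) (a : Pt) {n : ℕ} {y : ℤ} (h0 : 0 ≤ y) (h1 : y ≤ n) :
    0 < W μ s η a n y := by
  unfold W
  rw [CoreD1_def]
  exact mul_pos (Real.exp_pos _) (Zr_pos η a h0 h1)

theorem W_eq_zero (η : Env) (a : Pt) {n : ℕ} {y : ℤ} (h : ¬ (0 ≤ y ∧ y ≤ n)) :
    W μ s η a n y = 0 := by
  unfold W
  rw [CoreD1_def, Zr_eq_zero Set.univ η a h, mul_zero]

theorem WR_add (R : Set Pt) (η : Env) (a : Pt) (m n : ℕ) (y : ℤ) :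
    WR μ s R η a (m + n) y =
      ∑ k ∈ Finset.Icc (0 : ℤ) m, WR μ s R η a m k * WR μ s R η (a.1 + m, a.2 + k) n (y - k) := by
  rw [CoreD1_def, Zr_add, Finset.mul_sum]
  refine Finset.sum_congr rfl fun k _ => ?_
  have h := CoreD1_exp (μ := μ) (s := s) m n k (y - k)
  rw [show k + (y - k) = y from by ring] at h
  rw [h, CoreD1_def, CoreD1_def]
  ring

theorem W_add (η : Env) (a : Pt) (m n : ℕ) (y : ℤ) :
    W μ s η a (m + n) y =
      ∑ k ∈ Finset.Icc (0 : ℤ) m, W μ s η a m k * W μ s η (a.1 + m, a.2 + k) n (y - k) :=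
  WR_add Set.univ η a m n y

theorem W_mul_le (η : Env) (a : Pt) (m n : ℕ) (k y : ℤ) :
    W μ s η a m k * W μ s η (a.1 + m, a.2 + k) n y ≤ W μ s η a (m + n) (k + y) := by
  by_cases hk : 0 ≤ k ∧ k ≤ m
  · rw [W_add η a m n (k + y)]
    have h := Finset.single_le_sum (f := fun k' : ℤ => W μ s η a m k' *
      W μ s η (a.1 + m, a.2 + k') n (k + y - k')) (s := Finset.Icc (0 : ℤ) m)
      (fun i _ => mul_nonneg (W_nonneg η a m i) (W_nonneg η _ n _))
      (Finset.mem_Icc.mpr hk)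
    simp only [add_sub_cancel_left] at h
    exact h
  · rw [W_eq_zero η a hk, zero_mul]
    exact W_nonneg η a _ _

theorem WR_sh (R : Set Pt) (η : Env) (a c : Pt) (n : ℕ) (y : ℤ) :
    WR μ s {p | p + c ∈ R} (sh c η) a n y = WR μ s R η (a + c) n y := by
  rw [CoreD1_def, CoreD1_def, Zr_sh]

theorem W_sh (η : Env) (a c : Pt) (n : ℕ) (y : ℤ) :
    W μ s (sh c η) a n y = W μ s η (a + c) n y := by
  unfold W
  rw [CoreD1_def, CoreD1_def, Zr_sh_univ]

theorem W_tp2 (η : Env) (t x x' : ℤ) (n : ℕ) (y y' : ℤ) (hx : x ≤ x') (hy : y ≤ y') :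
    W μ s η (t, x) n (y' - x) * W μ s η (t, x') n (y - x') ≤
      W μ s η (t, x) n (y - x) * W μ s η (t, x') n (y' - x') := by
  have h := Zr_tp2 Set.univ η t x x' n y y' hx hy
  have e1 : ∀ u v : ℤ, Real.exp (s * ((u : ℤ) : ℝ) - n * lam μ s) *
      Real.exp (s * ((v : ℤ) : ℝ) - n * lam μ s) =
        Real.exp (s * ((u + v : ℤ) : ℝ) - 2 * n * lam μ s) := by
    intro u v
    rw [← Real.exp_add]
    congr 1
    push_cast
    ring
  unfold W
  rw [CoreD1_def, CoreD1_def, CoreD1_def, CoreD1_def]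
  have hL : Real.exp (s * ((y' - x : ℤ) : ℝ) - n * lam μ s) * Zr Set.univ η (t, x) n (y' - x) *
      (Real.exp (s * ((y - x' : ℤ) : ℝ) - n * lam μ s) * Zr Set.univ η (t, x') n (y - x')) =
      Real.exp (s * ((y' - x + (y - x') : ℤ) : ℝ) - 2 * n * lam μ s) *
        (Zr Set.univ η (t, x) n (y' - x) * Zr Set.univ η (t, x') n (y - x')) := by
    rw [← e1 (y' - x) (y - x')]
    ring
  have hR : Real.exp (s * ((y - x : ℤ) : ℝ) - n * lam μ s) * Zr Set.univ η (t, x) n (y - x) *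
      (Real.exp (s * ((y' - x' : ℤ) : ℝ) - n * lam μ s) * Zr Set.univ η (t, x') n (y' - x')) =
      Real.exp (s * ((y' - x + (y - x') : ℤ) : ℝ) - 2 * n * lam μ s) *
        (Zr Set.univ η (t, x) n (y - x) * Zr Set.univ η (t, x') n (y' - x')) := by
    rw [show y' - x + (y - x') = (y - x) + (y' - x') from by ring, ← e1 (y - x) (y' - x')]
    ring
  rw [hL, hR]
  exact mul_le_mul_of_nonneg_left h (Real.exp_pos _).le

theorem WR_dep (R : Set Pt) (a : Pt) (n : ℕ) (y : ℤ) :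
    DependsOn (fun η : Env => WR μ s R η a n y) (cone a n y ∩ R) := by
  intro η η' h
  have h1 := Zr_dep R a n y h
  simp only [CoreD1_def]
  rw [show Zr R η a n y = Zr R η' a n y from h1]

theorem W_dep (a : Pt) (n : ℕ) (y : ℤ) : DependsOn (fun η : Env => W μ s η a n y) (cone a n y) := by
  have h := WR_dep (μ := μ) (s := s) Set.univ a n y
  rw [Set.inter_univ] at h
  exact h

theorem measurable_WR (R : Set Pt) (a : Pt) (n : ℕ) (y : ℤ) :
    Measurable fun η : Env => WR μ s R η a n y := by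
  simp only [CoreD1_def]
  exact (measurable_Zr R a n y).const_mul _

theorem measurable_W (a : Pt) (n : ℕ) (y : ℤ) : Measurable fun η : Env => W μ s η a n y :=
  measurable_WR Set.univ a n y

theorem measurable_WS (a : Pt) (n : ℕ) (A : Finset ℤ) :
    Measurable fun η : Env => WS μ s η a n A := by
  unfold WS
  exact Finset.measurable_sum _ fun y _ => measurable_W a n y

end Pool.Agent.W_7d29a1_F
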