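import Pool.Agent.W_7d29a1_F.CoreA1

/-!
Partition functions `Zr`: reflection, crude bounds. TASK CoreA4.
-/

namespace Pool.Agent.W_7d29a1_F

open MeasureTheory ProbabilityTheory Filter Topology

/-- Reflection `(t, x) ↦ (t, t - x)`. -/
theorem Zr_mirror (η : Env) (n : ℕ) (y : ℤ) (t x : ℤ) :
    Zr Set.univ (fun p => η (p.1, p.1 - p.2)) (t, t - x) n (n - y) =
      Zr Set.univ η (t, x) n y := by
  induction n generalizing y with
  | zero =>
    have h1 : (((0 : ℕ) : ℤ) - y = 0) ↔ y = 0 := by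
      constructor <;> intro h <;> omega
    simp only [Zr]
    simp only [h1]
  | succ n ih =>
    have h1 : (((n + 1 : ℕ) : ℤ) - y) = (n : ℤ) - (y - 1) := by
      push_cast
      ring
    have h2 : (((n + 1 : ℕ) : ℤ) - y) - 1 = (n : ℤ) - y := by
      push_cast
      ring
    have h3 := ih (y - 1)
    have h4 := ih y
    simp only [Zr]
    rw [h2, h4]
    rw [h1, h3]
    simp only [Set.indicator_univ]
    have h5 : t + ((n : ℤ) + 1) - (t - x + ((n : ℤ) - (y - 1))) = x + y := by ring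
    rw [h5]
    ring

private theorem CoreA4_sum (η : Env) (a : Pt) (n : ℕ) {y : ℤ} (h0 : 0 ≤ y) (h1 : y ≤ (n : ℤ) + 1) :
    (∑ p ∈ Finset.Icc a.1 (a.1 + n) ×ˢ Finset.Icc a.2 (a.2 + n), |η p|) +
      |η (a.1 + ((n : ℤ) + 1), a.2 + y)| ≤
      ∑ p ∈ Finset.Icc a.1 (a.1 + (n + 1 : ℕ)) ×ˢ Finset.Icc a.2 (a.2 + (n + 1 : ℕ)), |η p| := by
  have hnm : ((a.1 + ((n : ℤ) + 1), a.2 + y) : Pt) ∉
      Finset.Icc a.1 (a.1 + n) ×ˢ Finset.Icc a.2 (a.2 + n) := by
    rw [Finset.mem_product, Finset.mem_Icc]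
    rintro ⟨⟨-, h2⟩, -⟩
    simp only at h2
    omega
  rw [add_comm, ← Finset.sum_insert (f := fun p : Pt => |η p|) hnm]
  refine Finset.sum_le_sum_of_subset_of_nonneg ?_ fun _ _ _ => abs_nonneg _
  intro p hp
  rw [Finset.mem_insert, Finset.mem_product, Finset.mem_Icc, Finset.mem_Icc] at hp
  rw [Finset.mem_product, Finset.mem_Icc, Finset.mem_Icc]
  push_cast
  rcases hp with hp | hp
  · subst hp
    simp only
    omega
  · omega

/-- Upper and lower bounds: `exp (- S) ≤ Zr` and `Zr ≤ 2 ^ n exp S`, `S` the sum of `|η|` over the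
square `[a.1, a.1 + n] × [a.2, a.2 + n]`. -/
theorem Zr_le (R : Set Pt) (η : Env) (a : Pt) (n : ℕ) (y : ℤ) :
    Zr R η a n y ≤ 2 ^ n * Real.exp (∑ p ∈ Finset.Icc a.1 (a.1 + n) ×ˢ Finset.Icc a.2 (a.2 + n),
      |η p|) := by
  induction n generalizing y with
  | zero =>
    have h1 : (0 : ℝ) ≤ ∑ p ∈ Finset.Icc a.1 (a.1 + (0 : ℕ)) ×ˢ Finset.Icc a.2 (a.2 + (0 : ℕ)), |η p| :=
      Finset.sum_nonneg fun _ _ => abs_nonneg _
    have h2 := Real.one_le_exp h1
    simp only [Zr]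
    split_ifs
    · rw [pow_zero, one_mul]
      exact h2
    · positivity
  | succ n ih =>
    by_cases hy : 0 ≤ y ∧ y ≤ (n + 1 : ℕ)
    · obtain ⟨h0, h1⟩ := hy
      have h1' : y ≤ (n : ℤ) + 1 := by
        push_cast at h1
        exact h1
      have hs := CoreA4_sum η a n h0 h1'
      obtain ⟨S, hS⟩ : ∃ S : ℝ, S = ∑ p ∈ Finset.Icc a.1 (a.1 + n) ×ˢ Finset.Icc a.2 (a.2 + n), |η p| :=
        ⟨_, rfl⟩
      rw [← hS] at hs
      have i1 := ih y
      have i2 := ih (y - 1)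
      rw [← hS] at i1 i2
      have n1 := Zr_nonneg R η a n y
      have n2 := Zr_nonneg R η a n (y - 1)
      obtain ⟨p, hp⟩ : ∃ p : Pt, p = (a.1 + ((n : ℤ) + 1), a.2 + y) := ⟨_, rfl⟩
      rw [← hp] at hs
      simp only [Zr]
      rw [← hp]
      have h3 : R.indicator (fun p => Real.exp (η p)) p ≤ Real.exp |η p| := by
        by_cases hR : p ∈ R
        · rw [Set.indicator_of_mem hR]
          exact Real.exp_le_exp.2 (le_abs_self _)
        · rw [Set.indicator_of_notMem hR]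
          positivity
      have h4 : Zr R η a n y + Zr R η a n (y - 1) ≤ 2 ^ (n + 1) * Real.exp S := by
        rw [pow_succ]
        linarith
      calc R.indicator (fun p => Real.exp (η p)) p * (Zr R η a n y + Zr R η a n (y - 1))
          ≤ Real.exp |η p| * (2 ^ (n + 1) * Real.exp S) :=
            mul_le_mul h3 h4 (add_nonneg n1 n2) (Real.exp_pos _).le
        _ = 2 ^ (n + 1) * Real.exp (S + |η p|) := by
            rw [Real.exp_add]
            ring
        _ ≤ _ := mul_le_mul_of_nonneg_left (Real.exp_le_exp.2 hs) (by positivity)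
    · rw [Zr_eq_zero R η a hy]
      positivity

theorem Zr_ge (η : Env) (a : Pt) {n : ℕ} {y : ℤ} (h0 : 0 ≤ y) (h1 : y ≤ n) :
    Real.exp (-∑ p ∈ Finset.Icc a.1 (a.1 + n) ×ˢ Finset.Icc a.2 (a.2 + n), |η p|) ≤
      Zr Set.univ η a n y := by
  induction n generalizing y with
  | zero =>
    have hy : y = 0 := by
      have h2 : y ≤ 0 := by simpa using h1
      omega
    have h2 : (0 : ℝ) ≤ ∑ p ∈ Finset.Icc a.1 (a.1 + (0 : ℕ)) ×ˢ Finset.Icc a.2 (a.2 + (0 : ℕ)), |η p| :=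
      Finset.sum_nonneg fun _ _ => abs_nonneg _
    simp only [Zr]
    rw [if_pos hy]
    exact Real.exp_le_one_iff.2 (neg_nonpos.2 h2)
  | succ n ih =>
    have h1' : y ≤ (n : ℤ) + 1 := by
      push_cast at h1
      exact h1
    have hs := CoreA4_sum η a n h0 h1'
    obtain ⟨S, hS⟩ : ∃ S : ℝ, S = ∑ p ∈ Finset.Icc a.1 (a.1 + n) ×ˢ Finset.Icc a.2 (a.2 + n), |η p| :=
      ⟨_, rfl⟩
    rw [← hS] at hs
    obtain ⟨p, hp⟩ : ∃ p : Pt, p = (a.1 + ((n : ℤ) + 1), a.2 + y) := ⟨_, rfl⟩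
    rw [← hp] at hs
    simp only [Zr]
    rw [← hp, Set.indicator_univ]
    have n1 := Zr_nonneg Set.univ η a n y
    have n2 := Zr_nonneg Set.univ η a n (y - 1)
    have h4 : Real.exp (-S) ≤ Zr Set.univ η a n y + Zr Set.univ η a n (y - 1) := by
      by_cases hy : y ≤ n
      · have h5 := ih h0 hy
        rw [← hS] at h5
        linarith
      · have h5 := ih (y := y - 1) (by omega) (by omega)
        rw [← hS] at h5
        linarith
    have h6 : Real.exp (-|η p|) ≤ Real.exp (η p) := Real.exp_le_exp.2 (neg_abs_le _)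
    calc Real.exp (-∑ p ∈ Finset.Icc a.1 (a.1 + (n + 1 : ℕ)) ×ˢ Finset.Icc a.2 (a.2 + (n + 1 : ℕ)), |η p|)
        ≤ Real.exp (-|η p| + -S) := Real.exp_le_exp.2 (by linarith)
      _ = Real.exp (-|η p|) * Real.exp (-S) := Real.exp_add _ _
      _ ≤ _ := mul_le_mul h6 h4 (Real.exp_pos _).le (Real.exp_pos _).le

end Pool.Agent.W_7d29a1_F
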