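import Pool.Agent.W_7d29a1_F.CoreA
import Pool.Agent.W_7d29a1_f21.Ind

/-!
The law of the environment: independence. TASK CoreB2 (compare `W_7d29a1_h3/Ind.lean`, and
`integral_indep` in `W_7d29a1_h46u`).
-/

namespace Pool.Agent.W_7d29a1_F

open MeasureTheory ProbabilityTheory Filter Topology

variable {μ : Measure ℝ} [IsProbabilityMeasure μ]

/-- Independence of functions of disjoint sets of sites (no integrability needed: both sides are `0`
otherwise; compare `integral_indep` in `W_7d29a1_h46u`). -/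
theorem integral_indep {f g : Env → ℝ} {A B : Set Pt} (hf : Measurable f) (hg : Measurable g)
    (hfA : DependsOn f A) (hgB : DependsOn g B) (h : Disjoint A B) :
    ∫ η, f η * g η ∂(law μ) = (∫ η, f η ∂(law μ)) * ∫ η, g η ∂(law μ) := by
  have hgA : DependsOn g Aᶜ := fun η η' hh =>
    hgB fun p hp => hh p fun hpA => (Set.disjoint_left.mp h) hpA hp
  exact Pool.Agent.W_7d29a1_f21.integral_mul_indep (μ := μ) A hf hg hfA hgA

theorem indep_prod {ι : Type*} (I : Finset ι) (F : ι → Env → ℝ) (A : ι → Set Pt)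
    (hm : ∀ i ∈ I, Measurable (F i)) (hdep : ∀ i ∈ I, DependsOn (F i) (A i))
    (hdisj : ∀ i ∈ I, ∀ j ∈ I, i ≠ j → Disjoint (A i) (A j)) :
    ∫ η, ∏ i ∈ I, F i η ∂(law μ) = ∏ i ∈ I, ∫ η, F i η ∂(law μ) := by
  classical
  induction I using Finset.induction_on with
  | empty => simp
  | @insert a I ha ih =>
    rw [Finset.prod_insert ha]
    have h1 : ∀ η, ∏ i ∈ insert a I, F i η = F a η * ∏ i ∈ I, F i η := fun η =>
      Finset.prod_insert ha
    simp_rw [h1]
    rw [integral_indep (A := A a) (B := ⋃ i ∈ I, A i) (hm a (Finset.mem_insert_self a I)) ?_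
      (hdep a (Finset.mem_insert_self a I)) ?_ ?_]
    · rw [ih (fun i hi => hm i (Finset.mem_insert_of_mem hi))
        (fun i hi => hdep i (Finset.mem_insert_of_mem hi))
        (fun i hi j hj hij => hdisj i (Finset.mem_insert_of_mem hi) j (Finset.mem_insert_of_mem hj) hij)]
    · exact Finset.measurable_prod I fun i hi => hm i (Finset.mem_insert_of_mem hi)
    · intro η η' hh
      apply Finset.prod_congr rfl
      intro i hi
      exact hdep i (Finset.mem_insert_of_mem hi) fun p hp => hh p (Set.mem_biUnion hi hp)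
    · rw [Set.disjoint_iUnion₂_right]
      intro i hi
      refine hdisj a (Finset.mem_insert_self a I) i (Finset.mem_insert_of_mem hi) ?_
      rintro rfl
      exact ha hi

/-- Events of disjoint sets of sites. -/
theorem indep_events {ι : Type*} (I : Finset ι) (E : ι → Set Env) (A : ι → Set Pt)
    (hm : ∀ i ∈ I, MeasurableSet (E i))
    (hdep : ∀ i ∈ I, ∀ η η' : Env, (∀ p ∈ A i, η p = η' p) → (η ∈ E i ↔ η' ∈ E i))
    (hdisj : ∀ i ∈ I, ∀ j ∈ I, i ≠ j → Disjoint (A i) (A j)) :
    (law μ).real {η | ∀ i ∈ I, η ∈ E i} = ∏ i ∈ I, (law μ).real (E i) := by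
  classical
  have h := indep_prod (μ := μ) I (fun i => (E i).indicator (fun _ => (1 : ℝ))) A
    (fun i hi => measurable_const.indicator (hm i hi))
    (fun i hi η η' hh => by
      have := hdep i hi η η' hh
      by_cases h1 : η ∈ E i
      · simp only [Set.indicator_of_mem h1, Set.indicator_of_mem (this.mp h1)]
      · have h2 : η' ∉ E i := fun h3 => h1 (this.mpr h3)
        simp only [Set.indicator_of_notMem h1, Set.indicator_of_notMem h2]) hdisj
  have h1 : ∀ i ∈ I, ∫ η, (E i).indicator (fun _ => (1 : ℝ)) η ∂(law μ) = (law μ).real (E i) := by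
    intro i hi
    rw [integral_indicator_const _ (hm i hi)]
    simp
  rw [Finset.prod_congr rfl h1] at h
  rw [← h]
  have hms : MeasurableSet {η : Env | ∀ i ∈ I, η ∈ E i} := by
    have : {η : Env | ∀ i ∈ I, η ∈ E i} = ⋂ i ∈ I, E i := by
      ext η; simp
    rw [this]
    exact Finset.measurableSet_biInter I hm
  have h2 : ∀ η : Env, ∏ i ∈ I, (E i).indicator (fun _ => (1 : ℝ)) η =
      {η : Env | ∀ i ∈ I, η ∈ E i}.indicator (fun _ => (1 : ℝ)) η := by
    intro η
    by_cases hη : ∀ i ∈ I, η ∈ E i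
    · rw [Set.indicator_of_mem (show η ∈ {η : Env | ∀ i ∈ I, η ∈ E i} from hη)]
      exact Finset.prod_eq_one fun i hi => by rw [Set.indicator_of_mem (hη i hi)]
    · rw [Set.indicator_of_notMem (show η ∉ {η : Env | ∀ i ∈ I, η ∈ E i} from hη)]
      push Not at hη
      obtain ⟨i, hi, hiη⟩ := hη
      exact Finset.prod_eq_zero hi (by rw [Set.indicator_of_notMem hiη])
  simp_rw [h2]
  rw [integral_indicator_const _ hms]
  simp

end Pool.Agent.W_7d29a1_F
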