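import Pool.Agent.W_7d29a1_F.CoreD
import Pool.Agent.W_7d29a1_F.Cone

/-!
Section 2 (exponential moments of the luck): indicators, the first index of a finite family, crude facts. (helper18)
-/

namespace Pool.Agent.W_7d29a1_F

open MeasureTheory ProbabilityTheory Filter Topology

noncomputable section

/-- The indicator of a proposition. -/
def io (p : Prop) : ℝ := @ite ℝ p (Classical.propDecidable p) 1 0

theorem io_of {p : Prop} (h : p) : io p = 1 := if_pos h

theorem io_not {p : Prop} (h : ¬ p) : io p = 0 := if_neg h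

theorem io_nonneg (p : Prop) : 0 ≤ io p := by
  unfold io
  split_ifs <;> norm_num

theorem io_le_one (p : Prop) : io p ≤ 1 := by
  unfold io
  split_ifs <;> norm_num

theorem measurable_io {p : Env → Prop} (h : MeasurableSet {η | p η}) : Measurable fun η => io (p η) := by
  classical
  have e : (fun η => io (p η)) = fun η => if η ∈ {η | p η} then (1 : ℝ) else 0 := by
    funext η
    by_cases h1 : p η
    · rw [io_of h1, if_pos (show η ∈ {η | p η} from h1)]
    · rw [io_not h1, if_neg (show ¬ η ∈ {η | p η} from h1)]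
  rw [e]
  exact Measurable.ite h measurable_const measurable_const

/-- `i` is the first index of `I` with the property `p` (in the order given by `r`). -/
def Fi {ι α : Type*} [LinearOrder α] (I : Finset ι) (r : ι → α) (p : ι → Prop) (i : ι) : Prop :=
  p i ∧ ∀ j ∈ I, r j < r i → ¬ p j

theorem sum_Fi {ι α : Type*} [LinearOrder α] (I : Finset ι) {r : ι → α} (hr : Function.Injective r) (p : ι → Prop) :
    ∑ i ∈ I, io (Fi I r p i) = io (∃ i ∈ I, p i) := by
  classical
  by_cases h : ∃ i ∈ I, p i
  · obtain ⟨i, hi, hmin⟩ := Finset.exists_min_image (I.filter p) r (by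
      obtain ⟨i, h1, h2⟩ := h
      exact ⟨i, Finset.mem_filter.2 ⟨h1, h2⟩⟩)
    rw [Finset.mem_filter] at hi
    have h1 : Fi I r p i := ⟨hi.2, fun j hj hji hpj => absurd (hmin j (Finset.mem_filter.2 ⟨hj, hpj⟩)) (not_le.2 hji)⟩
    rw [io_of h, Finset.sum_eq_single_of_mem i hi.1, io_of h1]
    intro j hj hij
    refine io_not fun h2 => hij ?_
    rcases lt_trichotomy (r j) (r i) with h3 | h3 | h3
    · exact absurd h2.1 (h1.2 j hj h3)
    · exact hr h3
    · exact absurd hi.2 (h2.2 i hi.1 h3)
  · rw [io_not h]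
    refine Finset.sum_eq_zero fun i hi => io_not fun h1 => h ⟨i, hi, h1.1⟩

theorem meas_Fi {ι α : Type*} [LinearOrder α] (I : Finset ι) (r : ι → α) {p : ι → Env → Prop}
    (hp : ∀ i ∈ I, MeasurableSet {η | p i η}) {i : ι} (hi : i ∈ I) : MeasurableSet {η | Fi I r (fun j => p j η) i} := by
  have e : {η | Fi I r (fun j => p j η) i} = {η | p i η} ∩ ⋂ j ∈ I, {η | r j < r i → ¬ p j η} := by
    ext η
    simp only [Fi, Set.mem_ofPred_eq, Set.mem_inter_iff, Set.mem_iInter]
  rw [e]
  refine (hp i hi).inter (Finset.measurableSet_biInter I fun j hj => ?_)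
  by_cases h : r j < r i
  · have e2 : {η | r j < r i → ¬ p j η} = {η | p j η}ᶜ := by
      ext η
      simp [h]
    rw [e2]
    exact (hp j hj).compl
  · have e2 : {η | r j < r i → ¬ p j η} = Set.univ := by
      ext η
      simp [h]
    rw [e2]
    exact MeasurableSet.univ

theorem dep_Fi {ι α : Type*} [LinearOrder α] (I : Finset ι) (r : ι → α) {p : ι → Env → Prop} {i : ι} (hi : i ∈ I)
    {A : Set Pt} (h : ∀ j ∈ I, r j ≤ r i → ∀ η η' : Env, (∀ x ∈ A, η x = η' x) → (p j η ↔ p j η')) :
    DependsOn (fun η => io (Fi I r (fun j => p j η) i)) A := by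
  intro η η' hη
  have e : Fi I r (fun j => p j η) i ↔ Fi I r (fun j => p j η') i := by
    unfold Fi
    refine and_congr (h i hi le_rfl η η' hη) (forall_congr' fun j => forall_congr' fun hj => forall_congr' fun hji => ?_)
    exact not_congr (h j hj hji.le η η' hη)
  show io _ = io _
  rw [propext e]

variable {μ : Measure ℝ} {s v1 v2 : ℝ}

/-- A bound of the continuation gives a bound of the luck. -/
theorem V_add_le (η : Env) (a : Pt) (m n : ℕ) {c : ℝ} (h : ∀ k : ℤ, 0 ≤ k → k ≤ m → V μ s η (a.1 + m, a.2 + k) n ≤ c) :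
    V μ s η a (m + n) ≤ V μ s η a m + c := by
  have h1 : Real.exp (V μ s η a (m + n)) ≤ Real.exp (V μ s η a m + c) := by
    rw [exp_V_add, Real.exp_add, exp_V]
    unfold WS
    rw [Finset.sum_mul]
    refine Finset.sum_le_sum fun k hk => ?_
    rw [Finset.mem_Icc] at hk
    exact mul_le_mul_of_nonneg_left (Real.exp_le_exp.2 (h k hk.1 hk.2)) (W_nonneg _ _ _ _)
  exact Real.exp_le_exp.1 h1

theorem measurable_V (a : Pt) (n : ℕ) : Measurable fun η : Env => V μ s η a n := (Sub_V a n).1

theorem measurable_X (a : Pt) (n : ℕ) (y : ℤ) : Measurable fun η : Env => X μ s η a n y := by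
  unfold X
  exact (Real.measurable_log.comp (measurable_W a n y)).neg

/-- The luck depends on the rows after its start, up to its end. -/
theorem V_dep_rows (a : Pt) (n : ℕ) : DependsOn (fun η : Env => V μ s η a n) (rows a.1 (a.1 + n)) := by
  intro η η' h
  exact V_dep (μ := μ) (s := s) a n fun p hp => h p ⟨hp.1, hp.2.1⟩

theorem X_dep_rows (a : Pt) (n : ℕ) (y : ℤ) : DependsOn (fun η : Env => X μ s η a n y) (rows a.1 (a.1 + n)) := by
  intro η η' h
  exact X_dep (μ := μ) (s := s) a n y fun p hp => h p ⟨hp.1, hp.2.1⟩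

theorem W_dep_rows (a : Pt) (n : ℕ) (y : ℤ) : DependsOn (fun η : Env => W μ s η a n y) (rows a.1 (a.1 + n)) := by
  intro η η' h
  exact W_dep (μ := μ) (s := s) a n y fun p hp => h p ⟨hp.1, hp.2.1⟩

theorem rows_disj {a b c d : ℤ} (h : b ≤ c) : Disjoint (rows a b) (rows c d) := by
  rw [Set.disjoint_left]
  intro p hp hp'
  have h1 := hp.2
  have h2 := hp'.1
  omega

theorem rows_mono {a b c d : ℤ} (h1 : c ≤ a) (h2 : b ≤ d) : rows a b ⊆ rows c d := fun _ hp =>
  ⟨by have := hp.1; omega, by have := hp.2; omega⟩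

variable [IsProbabilityMeasure μ]

/-- The law of the luck does not depend on the start. -/
theorem integral_V_fun {f : ℝ → ℝ} (hf : Measurable f) (a : Pt) (n : ℕ) :
    ∫ η, f (V μ s η a n) ∂(law μ) = ∫ η, f (V μ s η 0 n) ∂(law μ) := by
  have h := (mp_sh (μ := μ) a).map_eq
  have hm : Measurable fun η : Env => f (V μ s η 0 n) := hf.comp (measurable_V 0 n)
  conv_rhs => rw [← h]
  rw [integral_map (mp_sh (μ := μ) a).measurable.aemeasurable hm.aestronglyMeasurable]
  refine integral_congr_ae (Filter.Eventually.of_forall fun η => ?_)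
  show f (V μ s η a n) = f (V μ s (sh a η) 0 n)
  rw [V_sh, zero_add]

/-- The law of the largest luck does not depend on the position of the box. -/
theorem integral_exp_Mx_sh (θ : ℝ) (a : Pt) (H : ℕ) :
    ∫ η, Real.exp (θ * Mx μ s (sh a η) H) ∂(law μ) = ∫ η, Real.exp (θ * Mx μ s η H) ∂(law μ) := by
  have h := (mp_sh (μ := μ) a).map_eq
  have hm : Measurable fun η : Env => Real.exp (θ * Mx μ s η H) :=
    Real.measurable_exp.comp ((Sub_Mx H).1.const_mul θ)
  conv_rhs => rw [← h]
  rw [integral_map (mp_sh (μ := μ) a).measurable.aemeasurable hm.aestronglyMeasurable]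

end

end Pool.Agent.W_7d29a1_F
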