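import Pool.Agent.W_7d29a1_F.VlE

/-!
Corollary of Theorem F, for the objects of the problem: the law of large numbers for the whole path.
-/

namespace Pool.Agent.W_7d29a1_F

open MeasureTheory ProbabilityTheory Finset Filter Topology
open Pool.Agent.W_7d29a1_h47

noncomputable section

lemma forceP_eq_Av (β h : ℝ) (ω : ℕ × ℤ → ℝ) (n : ℕ) (A : Set (Fin n → Bool))
    (B : (ℕ → Bool) → Prop) (hAB : ∀ s : Fin n → Bool, s ∈ A ↔ B (ext s)) :
    forceP β h ω n A = Av (toEnv β ω) h 0 0 n (fun s => ind (B s)) := by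
  classical
  unfold forceP Av
  rw [endMGF_eq]
  unfold polE
  rw [den_eq, div_div_div_cancel_right₀ (Z_pos _ _ _ _ _).ne']
  congr 1
  rw [sum_T_eq]
  refine Finset.sum_congr rfl fun s _ => ?_
  rw [← weight_eq]
  beta_reduce
  by_cases hs : s ∈ A
  · rw [if_pos hs, ind_true ((hAB s).1 hs), mul_one]
  · rw [if_neg hs, ind_false fun h' => hs ((hAB s).2 h'), zero_mul, mul_zero]

/-- The law of large numbers for the whole path, from the differentiability of the free energy. -/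
theorem path_lln {Ω : Type*} [MeasurableSpace Ω] (P : Measure Ω) [IsProbabilityMeasure P]
    (ω : ℕ × ℤ → Ω → ℝ) (hmeas : ∀ p, Measurable (ω p)) (hindep : iIndepFun ω P)
    (hident : ∀ p q, IdentDistrib (ω p) (ω q) P P)
    (hexp : ∀ b : ℝ, Integrable (fun x => Real.exp (b * ω (0, 0) x)) P) {β h : ℝ}
    (hd : DifferentiableAt ℝ (Lam (P.map fun x => β * ω (0, 0) x)) h) {ε : ℝ} (hε : 0 < ε) :
    ∃ c : ℝ, 0 < c ∧ ∀ᵐ x ∂P, ∀ᶠ n : ℕ in atTop, 1 - Real.exp (-(c * n)) ≤
      forceP β h (fun p => ω p x) n {s | ∀ i ≤ n, |(walk s i : ℝ) -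
        deriv (Lam (P.map fun x => β * ω (0, 0) x)) h * i| ≤ ε * n} := by
  obtain ⟨μ, hμdef⟩ : ∃ μ : Measure ℝ, μ = P.map fun x => β * ω (0, 0) x := ⟨_, rfl⟩
  have hm0 : Measurable fun x => β * ω (0, 0) x := (hmeas _).const_mul β
  have hprob : IsProbabilityMeasure μ := by
    rw [hμdef]
    exact Measure.isProbabilityMeasure_map hm0.aemeasurable
  have hμ : EM μ := by
    rw [hμdef]
    exact EM_of (hmeas _) hexp β
  have hmp := map_toEnv hmeas hindep hident β
  rw [← hμdef] at hmp hd ⊢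
  have hs := SubG_of_deriv hμ hd.hasDerivAt
  obtain ⟨c, hc, hae⟩ := VlE_lln hμ (abs_deriv_lt_one hμ hs) hd.hasDerivAt hs hε
  refine ⟨c, hc, ?_⟩
  filter_upwards [hmp.quasiMeasurePreserving.ae hae] with x hx
  filter_upwards [hx] with n hn
  rw [forceP_eq_Av β h _ n _ (VlNear (deriv (Lam μ) h) ε n)]
  · exact hn
  · intro s
    simp only [Set.mem_ofPred_eq, VlNear]
    refine forall_congr' fun i => ?_
    refine imp_congr_right fun hi => ?_
    rw [walk_eq s hi]

end

end Pool.Agent.W_7d29a1_F
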