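import Pool.Agent.W_7d29a1_F.Main
import Pool.Agent.W_7d29a1_F.VlF

/-!
THEOREM F for the objects of the problem, with the law of large numbers for the whole path and the
lower bound for the variance of the free energy.
-/

namespace Pool.Agent.W_7d29a1_F

open MeasureTheory ProbabilityTheory Filter Topology
open Pool.Agent.W_7d29a1_h47 (LamN EM_of Nondeg_of map_toEnv tendsto_logZ log_endMGF endMGF forceP
  walk endP Lam)

/-- The main theorem. -/
theorem main_FV {Ω : Type*} [MeasurableSpace Ω] (P : Measure Ω) [IsProbabilityMeasure P]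
    (ω : ℕ × ℤ → Ω → ℝ) (hmeas : ∀ p, Measurable (ω p)) (hindep : iIndepFun ω P)
    (hident : ∀ p q, IdentDistrib (ω p) (ω q) P P) (hnc : ¬ ∃ c : ℝ, ∀ᵐ x ∂P, ω (0, 0) x = c)
    (hexp : ∀ b : ℝ, Integrable (fun x => Real.exp (b * ω (0, 0) x)) P) {β : ℝ} (hβ : 0 < β) :
    (∃ lam J : ℝ → ℝ, StrictConvexOn ℝ Set.univ lam ∧ Differentiable ℝ lam ∧
      (∀ h, lam (-h) = lam h) ∧ (∀ h, h ≠ 0 → 0 < lam h) ∧
      (∀ H : ℝ, ∃ c : ℝ, 0 < c ∧ ∀ h, |h| ≤ H → ∀ u : ℝ, 0 < u → u ≤ 1 →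
        c * u ^ 100 ≤ lam (h + u) + lam (h - u) - 2 * lam h) ∧
      (∀ h, ∀ᵐ x ∂P, Tendsto (fun n : ℕ => Real.log (endMGF β h (fun p => ω p x) n) / n) atTop
        (𝓝 (lam h))) ∧
      (∀ h, ∀ ε : ℝ, 0 < ε → ∃ c : ℝ, 0 < c ∧ ∀ᵐ x ∂P, ∀ᶠ n : ℕ in atTop,
        1 - Real.exp (-(c * n)) ≤ forceP β h (fun p => ω p x) n
          {s | ∀ i ≤ n, |(walk s i : ℝ) - deriv lam h * i| ≤ ε * n}) ∧
      (∀ v, |v| < 1 → IsLUB (Set.range fun h => h * v - lam h) (J v)) ∧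
      (∀ v, |v| < 1 → ∀ y : ℕ → ℤ, (∀ n, (y n - n) % 2 = 0) →
        Tendsto (fun n : ℕ => (y n : ℝ) / n) atTop (𝓝 v) →
        ∀ᵐ x ∂P, Tendsto (fun n : ℕ => -Real.log (endP β (fun p => ω p x) n (y n)) / n) atTop
          (𝓝 (J v))) ∧
      StrictConvexOn ℝ (Set.Ioo (-1) 1) J ∧
      (∀ v, |v| < 1 → DifferentiableAt ℝ J v) ∧
      ∀ a : ℝ, a < 1 → ∃ C : ℝ, ∀ v w : ℝ, |v| ≤ a → |w| ≤ a →
        |deriv J v - deriv J w| ≤ C * |v - w| ^ (1 / 99 : ℝ)) ∧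
    ∀ h : ℝ, Tendsto (fun n : ℕ =>
      Var[fun x => Real.log (parZ β h (fun p => ω p x) n); P] / Real.log n) atTop atTop := by
  refine ⟨?_, fun h => main_VL P ω hmeas hindep hident hnc hexp hβ
    (fun μ _ hμ hnd h => differentiable_Lam hμ hnd h) h⟩
  obtain ⟨lam, J, h1, hd, h2, h3, hpow, h4, -, h6, h7, hJ, h8, h9⟩ :=
    main_F P ω hmeas hindep hident hnc hexp hβ
  obtain ⟨μ, hμdef⟩ : ∃ μ : Measure ℝ, μ = P.map fun x => β * ω (0, 0) x := ⟨_, rfl⟩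
  have hm0 : Measurable fun x => β * ω (0, 0) x := (hmeas _).const_mul β
  have hprob : IsProbabilityMeasure μ := by
    rw [hμdef]
    exact Measure.isProbabilityMeasure_map hm0.aemeasurable
  have hμ : Pool.Agent.W_7d29a1_h47.EM μ := by
    rw [hμdef]
    exact EM_of (hmeas _) hexp β
  have hnd : Pool.Agent.W_7d29a1_h47.Nondeg μ := by
    rw [hμdef]
    exact Nondeg_of (hmeas _) hnc hβ
  have hmp := map_toEnv hmeas hindep hident β
  rw [← hμdef] at hmp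
  have hid : lam = LamN μ := by
    funext h
    have g1 := hmp.quasiMeasurePreserving.ae (tendsto_logZ hμ h)
    have g2 := hmp.quasiMeasurePreserving.ae (tendsto_logZ hμ 0)
    obtain ⟨x, hx1, hx2, hx3⟩ := (g1.and (g2.and (h4 h))).exists
    refine tendsto_nhds_unique hx3 ((hx1.sub hx2).congr fun n => ?_)
    rw [log_endMGF, sub_div]
  refine ⟨lam, J, h1, hd, h2, h3, hpow, h4, fun h ε hε => ?_, h6, h7, hJ, h8, h9⟩
  have hder : deriv lam h = deriv (Lam μ) h := by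
    rw [hid]
    have : LamN μ = fun x => Lam μ x - Lam μ 0 := rfl
    rw [this, deriv_sub_const]
  have hdL : DifferentiableAt ℝ (Lam μ) h := differentiable_Lam hμ hnd h
  rw [hder]
  rw [hμdef] at hdL ⊢
  exact path_lln P ω hmeas hindep hident hexp hdL hε

end Pool.Agent.W_7d29a1_F
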