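import Pool.Agent.W_7d29a1_F.CoreA

/-!
The law of the environment: shifts, reflections. TASK CoreB1 (compare `LawU_reindex` in
`W_7d29a1_h46u/LawU.lean`).
-/

namespace Pool.Agent.W_7d29a1_F

open MeasureTheory ProbabilityTheory Filter Topology

variable {μ : Measure ℝ} [IsProbabilityMeasure μ]

/-- Reindexing by an injective map preserves the product measure (any index types). -/
theorem mp_reindex {ι κ : Type*} (f : ι → κ) (hf : Function.Injective f) :
    MeasurePreserving (fun (η : κ → ℝ) (i : ι) => η (f i)) (Measure.infinitePi fun _ : κ => μ)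
      (Measure.infinitePi fun _ : ι => μ) :=
  ⟨measurable_pi_iff.2 fun p => measurable_pi_apply (f p),
    Measure.map_infinitePi_infinitePi_of_inj (P := fun _ : κ => μ) hf⟩

theorem mp_sh (a : Pt) : MeasurePreserving (sh a) (law μ) (law μ) :=
  mp_reindex (μ := μ) (fun p : Pt => p + a) (fun p q h => add_right_cancel h)

theorem mp_mirror : MeasurePreserving (fun (η : Env) p => η (p.1, p.1 - p.2)) (law μ) (law μ) := by
  refine mp_reindex (μ := μ) (fun p : Pt => ((p.1, p.1 - p.2) : Pt)) ?_
  rintro ⟨i, y⟩ ⟨j, z⟩ h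
  simp only [Prod.mk.injEq] at h
  obtain ⟨h1, h2⟩ := h
  subst h1
  exact Prod.ext rfl (by simpa using h2)

theorem mp_neg (c : Pt) : MeasurePreserving (fun (η : Env) p => η (c - p)) (law μ) (law μ) :=
  mp_reindex (μ := μ) (fun p : Pt => c - p) (fun p q h => by simpa using h)

theorem real_sh (a : Pt) {E : Set Env} (hE : MeasurableSet E) :
    (law μ).real {η | sh a η ∈ E} = (law μ).real E := by
  have h := (mp_sh (μ := μ) a).measureReal_preimage hE.nullMeasurableSet
  exact h

end Pool.Agent.W_7d29a1_F
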