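import Pool.Agent.W_7d29a1_F.FinalB

/-! THEOREM F for the normalised model. -/

namespace Pool.Agent.W_7d29a1_F

open MeasureTheory ProbabilityTheory Filter Topology

variable {μ : Measure ℝ} [IsProbabilityMeasure μ]

theorem differentiable_lam (hμ : Pool.Agent.W_7d29a1_h47.EM μ)
    (hnd : Pool.Agent.W_7d29a1_h47.Nondeg μ) (s : ℝ) : DifferentiableAt ℝ (lam μ) s := by
  by_contra h
  obtain ⟨v1, v2, S⟩ := setup_of_not_diff hμ hnd h
  exact no_setup S

/-- The free energy of `W_7d29a1_h47` is differentiable. -/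
theorem differentiable_Lam (hμ : Pool.Agent.W_7d29a1_h47.EM μ)
    (hnd : Pool.Agent.W_7d29a1_h47.Nondeg μ) (h : ℝ) :
    DifferentiableAt ℝ (Pool.Agent.W_7d29a1_h47.Lam μ) h := by
  have h1 := differentiable_lam hμ hnd (2 * h)
  have h2 : Pool.Agent.W_7d29a1_h47.Lam μ = fun x => lam μ (2 * x) - x := by
    funext x
    unfold lam
    rw [mul_div_cancel_left₀ _ (two_ne_zero' ℝ)]
    ring
  rw [h2]
  exact (h1.comp h (differentiableAt_id.const_mul 2)).sub differentiableAt_id

end Pool.Agent.W_7d29a1_F
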