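import Pool.Agent.W_7d29a1_F.CoreA

/-!
The law of the environment: gluing. TASK CoreB3.
-/

namespace Pool.Agent.W_7d29a1_F

open MeasureTheory ProbabilityTheory Filter Topology

variable {μ : Measure ℝ} [IsProbabilityMeasure μ]

/-- The glued environment is a measurable function of the pair. -/
theorem CoreB3_meas (A : Set Pt) [DecidablePred (· ∈ A)] :
    Measurable (fun (q : Env × Env) (p : Pt) => if p ∈ A then q.1 p else q.2 p) := by
  refine measurable_pi_lambda _ fun p => ?_
  by_cases hp : p ∈ A
  · simp only [hp, if_true]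
    exact (measurable_pi_apply p).comp measurable_fst
  · simp only [hp, if_false]
    exact (measurable_pi_apply p).comp measurable_snd

/-- Gluing two independent environments. -/
theorem mp_glue (A : Set Pt) [DecidablePred (· ∈ A)] :
    MeasurePreserving (fun (q : Env × Env) p => if p ∈ A then q.1 p else q.2 p)
      ((law μ).prod (law μ)) (law μ) := by
  refine ⟨CoreB3_meas A, ?_⟩
  haveI : IsProbabilityMeasure (law μ) := by unfold law; infer_instance
  unfold law
  refine Measure.eq_infinitePi (μ := fun _ : Pt => μ) ?_
  intro s t ht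
  have hm : MeasurableSet (Set.pi (s : Set Pt) t) :=
    MeasurableSet.pi s.countable_toSet fun i _ => ht i
  rw [Measure.map_apply (CoreB3_meas A) hm]
  have hpre : (fun (q : Env × Env) (p : Pt) => if p ∈ A then q.1 p else q.2 p) ⁻¹'
      (Set.pi (s : Set Pt) t) =
      (Set.pi ((s.filter (· ∈ A) : Finset Pt) : Set Pt) t) ×ˢ
        (Set.pi ((s.filter (fun p => ¬ p ∈ A) : Finset Pt) : Set Pt) t) := by
    ext q
    simp only [Set.mem_preimage, Set.mem_pi, Set.mem_prod, Finset.coe_filter, Set.mem_setOf_eq,
      Finset.mem_coe]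
    constructor
    · intro h
      refine ⟨fun i hi => ?_, fun i hi => ?_⟩
      · have := h i hi.1
        rwa [if_pos hi.2] at this
      · have := h i hi.1
        rwa [if_neg hi.2] at this
    · rintro ⟨h1, h2⟩ i hi
      by_cases hA : i ∈ A
      · rw [if_pos hA]
        exact h1 i ⟨hi, hA⟩
      · rw [if_neg hA]
        exact h2 i ⟨hi, hA⟩
  rw [hpre, Measure.prod_prod, Measure.infinitePi_pi _ (fun i _ => ht i),
    Measure.infinitePi_pi _ (fun i _ => ht i), Finset.prod_filter_mul_prod_filter_not]

/-- Integration over the sites of `A` and of its complement separately. -/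
theorem integral_glue (A : Set Pt) [DecidablePred (· ∈ A)] {f : Env → ℝ} (hf : Measurable f)
    (hi : Integrable f (law μ)) :
    ∫ η, f η ∂(law μ) = ∫ η, ∫ η', f (fun p => if p ∈ A then η p else η' p) ∂(law μ) ∂(law μ) ∧
      Integrable (fun η => ∫ η', f (fun p => if p ∈ A then η p else η' p) ∂(law μ)) (law μ) ∧
      ∀ᵐ η ∂(law μ), Integrable (fun η' => f (fun p => if p ∈ A then η p else η' p)) (law μ) := by
  haveI : IsProbabilityMeasure (law μ) := by unfold law; infer_instance
  have hmp := mp_glue (μ := μ) A
  have hint : Integrable (fun q : Env × Env => f (fun p => if p ∈ A then q.1 p else q.2 p))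
      ((law μ).prod (law μ)) := (hmp.integrable_comp hf.aestronglyMeasurable).2 hi
  have hmap : ∫ η, f η ∂(law μ) =
      ∫ q : Env × Env, f (fun p => if p ∈ A then q.1 p else q.2 p) ∂((law μ).prod (law μ)) := by
    have h := integral_map (μ := (law μ).prod (law μ))
      (φ := fun (q : Env × Env) (p : Pt) => if p ∈ A then q.1 p else q.2 p)
      hmp.measurable.aemeasurable (f := f) hf.aestronglyMeasurable
    rw [hmp.map_eq] at h
    exact h
  refine ⟨?_, hint.integral_prod_left, hint.prod_right_ae⟩
  rw [hmap, integral_prod _ hint]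

end Pool.Agent.W_7d29a1_F
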