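import Pool.Agent.W_7d29a1_F.VlC
import Pool.Agent.W_7d29a1_h47.Main

/-!
Corollary (VL) of Theorem F, for the objects of the problem: where the free energy is differentiable,
`Var (log Z_n(h)) / log n → ∞`.
-/

namespace Pool.Agent.W_7d29a1_F

open MeasureTheory ProbabilityTheory Finset Filter Topology
open Pool.Agent.W_7d29a1_h47

noncomputable section

/-- The partition function `Z_n^{β,ω}(h) = E exp (h S_n + β ∑_{i=1}^n ω(i, S_i))`; for `h = 0` it is the
partition function `Z_n^{β,ω}` of the problem. -/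
def parZ (β h : ℝ) (ω : ℕ × ℤ → ℝ) (n : ℕ) : ℝ :=
  (∑ s : Fin n → Bool, Real.exp (h * (walk s n : ℝ) + β * energy ω s)) / 2 ^ n

lemma log_parZ (β h : ℝ) (ω : ℕ × ℤ → ℝ) (n : ℕ) :
    Real.log (parZ β h ω n) = Real.log (Z (toEnv β ω) h 0 0 n) - n * Real.log 2 := by
  have h1 : ∑ s : Fin n → Bool, Real.exp (h * (walk s n : ℝ) + β * energy ω s) =
      Z (toEnv β ω) h 0 0 n := by
    unfold Z
    rw [sum_T_eq]
    refine Finset.sum_congr rfl fun s _ => ?_
    rw [Real.exp_add, weight_eq]
  unfold parZ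
  rw [h1, Real.log_div (Z_pos _ _ _ _ _).ne' (by positivity), Real.log_pow]

variable {μ : Measure ℝ} [IsProbabilityMeasure μ]

lemma SubG_of_deriv (hμ : EM μ) {h v : ℝ} (hd : HasDerivAt (Lam μ) v h) : SubG μ h v := by
  intro h'
  rcases lt_trichotomy h h' with h1 | h1 | h1
  · have h2 := (Lam_convex hμ).le_slope_of_hasDerivAt (Set.mem_univ h) (Set.mem_univ h') h1 hd
    rw [slope_def_field, le_div_iff₀ (by linarith)] at h2
    linarith
  · rw [h1]
    simp
  · have h2 := (Lam_convex hμ).slope_le_of_hasDerivAt (Set.mem_univ h') (Set.mem_univ h) h1 hd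
    rw [slope_def_field, div_le_iff₀ (by linarith)] at h2
    linarith

lemma abs_deriv_lt_one (hμ : EM μ) {h v : ℝ} (hs : SubG μ h v) : |v| < 1 := by
  rw [abs_lt]
  constructor
  · have h1 := hs (h - 1)
    have h2 := slope_lt_one hμ (b := -h) (c := -(h - 1)) (by linarith)
    rw [Lam_even, Lam_even] at h2
    linarith
  · have h1 := hs (h + 1)
    have h2 := slope_lt_one hμ (b := h) (c := h + 1) (by linarith)
    linarith

/-- Corollary (VL) for the normalised model. -/
theorem var_log (hμ : EM μ) (hnd : Nondeg μ) {h : ℝ} (hd : DifferentiableAt ℝ (Lam μ) h) (K : ℝ) :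
    ∀ᶠ n : ℕ in atTop, K * Real.log n ≤ VlVar μ h n := by
  have hs := SubG_of_deriv hμ hd.hasDerivAt
  exact VlC_var hμ hnd (abs_deriv_lt_one hμ hs) hd.hasDerivAt hs K

/-- Corollary (VL) for the objects of the problem. -/
theorem main_VL {Ω : Type*} [MeasurableSpace Ω] (P : Measure Ω) [IsProbabilityMeasure P]
    (ω : ℕ × ℤ → Ω → ℝ) (hmeas : ∀ p, Measurable (ω p)) (hindep : iIndepFun ω P)
    (hident : ∀ p q, IdentDistrib (ω p) (ω q) P P) (hnc : ¬ ∃ c : ℝ, ∀ᵐ x ∂P, ω (0, 0) x = c)
    (hexp : ∀ b : ℝ, Integrable (fun x => Real.exp (b * ω (0, 0) x)) P) {β : ℝ} (hβ : 0 < β)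
    (hdiff : ∀ (μ : Measure ℝ) [IsProbabilityMeasure μ], EM μ → Nondeg μ →
      ∀ h, DifferentiableAt ℝ (Lam μ) h) (h : ℝ) :
    Tendsto (fun n : ℕ => Var[fun x => Real.log (parZ β h (fun p => ω p x) n); P] / Real.log n)
      atTop atTop := by
  obtain ⟨μ, hμdef⟩ : ∃ μ : Measure ℝ, μ = P.map fun x => β * ω (0, 0) x := ⟨_, rfl⟩
  have hm0 : Measurable fun x => β * ω (0, 0) x := (hmeas _).const_mul β
  have hprob : IsProbabilityMeasure μ := by
    rw [hμdef]
    exact Measure.isProbabilityMeasure_map hm0.aemeasurable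
  have hμ : EM μ := by
    rw [hμdef]
    exact EM_of (hmeas _) hexp β
  have hnd : Nondeg μ := by
    rw [hμdef]
    exact Nondeg_of (hmeas _) hnc hβ
  have hmp := map_toEnv hmeas hindep hident β
  rw [← hμdef] at hmp
  have hvar : ∀ n : ℕ, Var[fun x => Real.log (parZ β h (fun p => ω p x) n); P] = VlVar μ h n := by
    intro n
    have h1 : (fun x => Real.log (parZ β h (fun p => ω p x) n)) =
        fun x => Real.log (Z (toEnv β fun p => ω p x) h 0 0 n) - n * Real.log 2 := by
      funext x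
      exact log_parZ β h _ n
    have hE := EMom_logZ hμ h 0 0 n
    have hmeasF : Measurable fun g : Env => Real.log (Z g h 0 0 n) := by fun_prop
    have hcomp : AEMeasurable (fun x => Real.log (Z (toEnv β fun p => ω p x) h 0 0 n)) P :=
      (hmeasF.comp hmp.measurable).aemeasurable
    have hmean : ∫ x, Real.log (Z (toEnv β fun p => ω p x) h 0 0 n) ∂P = a μ h n :=
      mp_integral hmp (F := fun g => Real.log (Z g h 0 0 n)) hmeasF.aestronglyMeasurable
    rw [h1]
    have h2 : (fun x => Real.log (Z (toEnv β fun p => ω p x) h 0 0 n) - n * Real.log 2) =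
        fun x => Real.log (Z (toEnv β fun p => ω p x) h 0 0 n) + (-(n * Real.log 2)) := by
      funext x
      ring
    rw [h2, variance_add_const hcomp.aestronglyMeasurable, variance_eq_integral hcomp, hmean]
    unfold VlVar
    exact mp_integral hmp (F := fun g => (Real.log (Z g h 0 0 n) - a μ h n) ^ 2)
      ((hmeasF.sub measurable_const).pow_const 2).aestronglyMeasurable
  simp only [hvar]
  rw [tendsto_atTop]
  intro K
  filter_upwards [var_log hμ hnd (hdiff μ hμ hnd h) K, eventually_ge_atTop 2] with n hn hn2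
  have hn2' : (2 : ℝ) ≤ n := by exact_mod_cast hn2
  rw [le_div_iff₀ (Real.log_pos (by linarith))]
  exact hn

end

end Pool.Agent.W_7d29a1_F
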