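import Pool.Agent.W_7d29a1_F.Bridge2

/-!
The bridge: concentration. TASK Bridge5.
-/

namespace Pool.Agent.W_7d29a1_F

open MeasureTheory ProbabilityTheory Filter Topology

variable {μ : Measure ℝ} [IsProbabilityMeasure μ]

/-- The end weights in the coordinates of `W_7d29a1_h47`. -/
private noncomputable def Bridge5_v (n : ℕ) (c : ℤ → ℝ) (z : ℤ) : ℝ :=
  ∑ y ∈ Finset.Icc (0 : ℤ) n, if z = 2 * y - n then c y else 0

private lemma Bridge5_sum (η : Env) (n : ℕ) (c : ℤ → ℝ) :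
    ∑ y ∈ Finset.Icc (0 : ℤ) n, c y * Zr Set.univ η 0 n y =
      Pool.Agent.W_7d29a1_h47.Zv (toH η) (Bridge5_v n c) 0 0 n := by
  unfold Pool.Agent.W_7d29a1_h47.Zv
  simp only [Zr_eq_Zp, Pool.Agent.W_7d29a1_h47.Zp, Bridge5_v, Finset.mul_sum]
  rw [Finset.sum_comm]
  refine Finset.sum_congr rfl fun s _ => Finset.sum_congr rfl fun y _ => ?_
  split_ifs <;> ring

private lemma Bridge5_adm {n : ℕ} {c : ℤ → ℝ} (hc : ∀ y, 0 ≤ c y)
    (h : ∃ y : ℤ, 0 ≤ y ∧ y ≤ n ∧ 0 < c y) :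
    Pool.Agent.W_7d29a1_h47.Adm (Bridge5_v n c) 0 n := by
  obtain ⟨y, h0, h1, h2⟩ := h
  refine ⟨fun z => Finset.sum_nonneg fun y _ => ?_, ?_⟩
  · split_ifs
    · exact hc y
    · exact le_rfl
  · have hr : Pool.Agent.W_7d29a1_h47.Reach 0 n (2 * y - n) := by
      rw [Pool.Agent.W_7d29a1_h47.Reach_iff]
      refine ⟨?_, by omega⟩
      rw [abs_le]
      constructor <;> omega
    obtain ⟨s, hs, hs'⟩ := hr
    refine ⟨s, hs, ?_⟩
    rw [hs']
    unfold Bridge5_v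
    refine lt_of_lt_of_le h2 ?_
    have h3 := Finset.single_le_sum (f := fun y' : ℤ => if 2 * y - (n : ℤ) = 2 * y' - n then c y'
      else 0) (s := Finset.Icc (0 : ℤ) n) (fun i _ => by
        split_ifs
        · exact hc i
        · exact le_rfl) (Finset.mem_Icc.2 ⟨h0, h1⟩)
    simpa using h3

/-- Concentration (`conc` of `W_7d29a1_h47/Conc.lean`), end weights `c y`, `0 ≤ y ≤ n`, not all `0`. -/
theorem conc_logsum (hμ : Pool.Agent.W_7d29a1_h47.EM μ) (n : ℕ) {c : ℤ → ℝ} (hc : ∀ y, 0 ≤ c y)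
    (h : ∃ y : ℤ, 0 ≤ y ∧ y ≤ n ∧ 0 < c y) {θ : ℝ} (hθ : |θ| ≤ 1) :
    ∫ η, Real.exp (θ * (Real.log (∑ y ∈ Finset.Icc (0 : ℤ) n, c y * Zr Set.univ η 0 n y) -
      ∫ η', Real.log (∑ y ∈ Finset.Icc (0 : ℤ) n, c y * Zr Set.univ η' 0 n y) ∂(law μ)))
        ∂(law μ) ≤ Real.exp (Pool.Agent.W_7d29a1_h47.Cc μ * θ ^ 2 * n) := by
  have hv := Bridge5_adm hc h
  have hE := Pool.Agent.W_7d29a1_h47.EMom_logZv hμ hv 0
  have hm := hE.1
  simp only [Bridge5_sum]
  have h2 : ∫ η', Real.log (Pool.Agent.W_7d29a1_h47.Zv (toH η') (Bridge5_v n c) 0 0 n) ∂(law μ) =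
      ∫ g, Real.log (Pool.Agent.W_7d29a1_h47.Zv g (Bridge5_v n c) 0 0 n)
        ∂(Pool.Agent.W_7d29a1_h47.law μ) :=
    Pool.Agent.W_7d29a1_h47.mp_integral (mp_toH (μ := μ))
      (F := fun g => Real.log (Pool.Agent.W_7d29a1_h47.Zv g (Bridge5_v n c) 0 0 n))
      hm.aestronglyMeasurable
  rw [h2]
  set m : ℝ := ∫ g, Real.log (Pool.Agent.W_7d29a1_h47.Zv g (Bridge5_v n c) 0 0 n)
        ∂(Pool.Agent.W_7d29a1_h47.law μ) with hmdef
  have h3 : ∫ η, Real.exp (θ * (Real.log (Pool.Agent.W_7d29a1_h47.Zv (toH η) (Bridge5_v n c) 0 0 n)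
      - m)) ∂(law μ) = ∫ g, Real.exp (θ * (Real.log (Pool.Agent.W_7d29a1_h47.Zv g (Bridge5_v n c) 0 0
        n) - m)) ∂(Pool.Agent.W_7d29a1_h47.law μ) :=
    Pool.Agent.W_7d29a1_h47.mp_integral (mp_toH (μ := μ))
      (F := fun g => Real.exp (θ * (Real.log (Pool.Agent.W_7d29a1_h47.Zv g (Bridge5_v n c) 0 0 n)
        - m))) (((hm.sub_const m).const_mul θ).exp).aestronglyMeasurable
  rw [h3]
  exact Pool.Agent.W_7d29a1_h47.conc hμ n hv 0 hθ

private lemma Bridge5_point (η : Env) {n : ℕ} {y : ℤ} (h0 : 0 ≤ y) (h1 : y ≤ n) :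
    ∑ z ∈ Finset.Icc (0 : ℤ) n, (if z = y then (1 : ℝ) else 0) * Zr Set.univ η 0 n z =
      Zr Set.univ η 0 n y := by
  rw [Finset.sum_eq_single y]
  · simp
  · intro z _ hz
    simp [hz]
  · intro h
    exact absurd (Finset.mem_Icc.2 ⟨h0, h1⟩) h

private lemma Bridge5_EMom (hμ : Pool.Agent.W_7d29a1_h47.EM μ) {n : ℕ} {y : ℤ} (h0 : 0 ≤ y)
    (h1 : y ≤ n) :
    Pool.Agent.W_7d29a1_h47.EMom (law μ) (fun η : Env => Real.log (Zr Set.univ η 0 n y)) := by
  have hr : Pool.Agent.W_7d29a1_h47.Reach 0 n (2 * y - n) := by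
    rw [Pool.Agent.W_7d29a1_h47.Reach_iff]
    refine ⟨?_, by omega⟩
    rw [abs_le]
    constructor <;> omega
  have h2 := (Pool.Agent.W_7d29a1_h47.EMom_logZp hμ hr 0).comp (mp_toH (μ := μ))
  simpa only [Zr_eq_Zp] using h2

private lemma Bridge5_sq (x : ℝ) : x ^ 2 / 2 ≤ Real.exp x + Real.exp (-x) := by
  have h1 := Real.quadratic_le_exp_of_nonneg (abs_nonneg x)
  have h2 : Real.exp |x| ≤ Real.exp x + Real.exp (-x) := by
    rcases abs_cases x with ⟨h, _⟩ | ⟨h, _⟩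
    · rw [h]; linarith [Real.exp_pos (-x)]
    · rw [h]; linarith [Real.exp_pos x]
  have h3 := abs_nonneg x
  have h4 := sq_abs x
  nlinarith

/-- Variance bound. From `conc_logsum` with `θ = ± n ^ (- 1 / 2)`: `x ^ 2 / 2 ≤ cosh x - 1`. -/
theorem var_X (hμ : Pool.Agent.W_7d29a1_h47.EM μ) (s : ℝ) : ∃ C : ℝ, ∀ (n : ℕ) (y : ℤ), 0 ≤ y →
    y ≤ n → ∫ η, (X μ s η 0 n y - e μ s n y) ^ 2 ∂(law μ) ≤ C * n := by
  refine ⟨4 * Real.exp (Pool.Agent.W_7d29a1_h47.Cc μ), fun n y h0 h1 => ?_⟩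
  have hE := Bridge5_EMom hμ h0 h1
  set L : Env → ℝ := fun η => Real.log (Zr Set.univ η 0 n y) with hL
  set m : ℝ := ∫ η, L η ∂(law μ) with hm
  have hX : ∀ η, X μ s η 0 n y = (n * lam μ s - s * y) - L η := by
    intro η
    unfold X W WR
    rw [Real.log_mul (Real.exp_pos _).ne' (Zr_pos η 0 h0 h1).ne', Real.log_exp]
    ring
  have he : e μ s n y = (n * lam μ s - s * y) - m := by
    unfold e
    rw [integral_congr_ae (Filter.Eventually.of_forall hX),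
      integral_sub (integrable_const _) hE.integrable]
    simp [hm]
  have hd : ∀ η, (X μ s η 0 n y - e μ s n y) ^ 2 = (L η - m) ^ 2 := by
    intro η
    rw [hX, he]
    ring
  rw [integral_congr_ae (Filter.Eventually.of_forall hd)]
  rcases Nat.eq_zero_or_pos n with rfl | hn
  · have hy : y = 0 := by
      have : y ≤ 0 := by exact_mod_cast h1
      omega
    have hL0 : ∀ η, L η = 0 := by
      intro η
      simp [hL, hy, Zr]
    have hm0 : m = 0 := by simp [hm, hL0]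
    simp [hL0, hm0]
  · have hn' : (0 : ℝ) < n := by exact_mod_cast hn
    have hn1 : (1 : ℝ) ≤ n := by exact_mod_cast hn
    have hs : 0 < Real.sqrt n := Real.sqrt_pos.2 hn'
    have hs1 : 1 ≤ Real.sqrt n := by
      rw [show (1 : ℝ) = Real.sqrt 1 by simp]
      exact Real.sqrt_le_sqrt hn1
    have hsq : Real.sqrt n * Real.sqrt n = n := Real.mul_self_sqrt hn'.le
    set θ : ℝ := (Real.sqrt n)⁻¹ with hθdef
    have hθ : 0 < θ := inv_pos.2 hs
    have hθ1 : |θ| ≤ 1 := by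
      rw [abs_of_pos hθ]
      exact inv_le_one_of_one_le₀ hs1
    have hθn : (n : ℝ) * θ ^ 2 = 1 := by
      rw [hθdef, inv_pow, sq, hsq]
      exact mul_inv_cancel₀ hn'.ne'
    have hcn : ∀ z : ℤ, (0 : ℝ) ≤ (if z = y then (1 : ℝ) else 0) := by
      intro z
      split_ifs <;> norm_num
    have hex : ∃ z : ℤ, 0 ≤ z ∧ z ≤ n ∧ (0 : ℝ) < (if z = y then (1 : ℝ) else 0) :=
      ⟨y, h0, h1, by simp⟩
    have key : ∀ θ' : ℝ, |θ'| ≤ 1 → ∫ η, Real.exp (θ' * (L η - m)) ∂(law μ) ≤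
        Real.exp (Pool.Agent.W_7d29a1_h47.Cc μ * θ' ^ 2 * n) := by
      intro θ' hθ'
      have h3 := conc_logsum hμ n hcn hex hθ'
      simp only [Bridge5_point _ h0 h1] at h3
      exact h3
    have k1 := key θ hθ1
    have k2 := key (-θ) (by rw [abs_neg]; exact hθ1)
    have hc1 : Pool.Agent.W_7d29a1_h47.Cc μ * θ ^ 2 * n = Pool.Agent.W_7d29a1_h47.Cc μ := by
      rw [mul_assoc, mul_comm (θ ^ 2), hθn, mul_one]
    rw [hc1] at k1
    rw [neg_sq, hc1] at k2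
    have i1 : Integrable (fun η => Real.exp (θ * (L η - m))) (law μ) :=
      (hE.sub (Pool.Agent.W_7d29a1_h47.EMom.const m)).integrable_exp θ
    have i2 : Integrable (fun η => Real.exp (-θ * (L η - m))) (law μ) :=
      (hE.sub (Pool.Agent.W_7d29a1_h47.EMom.const m)).integrable_exp (-θ)
    calc ∫ η, (L η - m) ^ 2 ∂(law μ)
        ≤ ∫ η, 2 * n * (Real.exp (θ * (L η - m)) + Real.exp (-θ * (L η - m))) ∂(law μ) := by
          refine integral_mono_of_nonneg (Filter.Eventually.of_forall fun η => sq_nonneg _)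
            ((i1.add i2).const_mul _) (Filter.Eventually.of_forall fun η => ?_)
          have h4 := Bridge5_sq (θ * (L η - m))
          have h5 : (L η - m) ^ 2 = 2 * n * ((θ * (L η - m)) ^ 2 / 2) := by
            have : 2 * (n : ℝ) * ((θ * (L η - m)) ^ 2 / 2) = (n * θ ^ 2) * (L η - m) ^ 2 := by ring
            rw [this, hθn, one_mul]
          simp only
          rw [h5]
          refine mul_le_mul_of_nonneg_left ?_ (by positivity)
          rw [neg_mul]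
          exact h4
      _ = 2 * n * (∫ η, Real.exp (θ * (L η - m)) ∂(law μ) +
            ∫ η, Real.exp (-θ * (L η - m)) ∂(law μ)) := by
          rw [integral_const_mul, integral_add i1 i2]
      _ ≤ 2 * n * (Real.exp (Pool.Agent.W_7d29a1_h47.Cc μ) +
            Real.exp (Pool.Agent.W_7d29a1_h47.Cc μ)) :=
          mul_le_mul_of_nonneg_left (add_le_add k1 k2) (by positivity)
      _ = 4 * Real.exp (Pool.Agent.W_7d29a1_h47.Cc μ) * n := by ring

end Pool.Agent.W_7d29a1_F
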