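import Pool.Agent.W_7d29a1_F.CoreC2

/-!
`Sub` for the costs and the lucks. TASK CoreC3 (use `Zr_le`, `Zr_ge`).
-/

namespace Pool.Agent.W_7d29a1_F

open MeasureTheory ProbabilityTheory Filter Topology

variable {μ : Measure ℝ} {s : ℝ}

/-- `log ∑_(y ∈ A) c_y W(a, (n, y))` for positive `c`, if `A` contains an admissible point. -/
theorem Sub_logsum (a : Pt) {n : ℕ} {A : Finset ℤ} (c : ℤ → ℝ) (hc : ∀ y, 0 < c y)
    (hA : ∃ y ∈ A, 0 ≤ y ∧ y ≤ n) : Sub fun η => Real.log (∑ y ∈ A, c y * W μ s η a n y) := by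
  obtain ⟨y0, hy0, h0, h1⟩ := hA
  set Q : Finset Pt := Finset.Icc a.1 (a.1 + n) ×ˢ Finset.Icc a.2 (a.2 + n) with hQ
  obtain ⟨k, hk⟩ : ∃ k : ℤ → ℝ, ∀ y, k y = Real.exp (s * y - n * lam μ s) := ⟨_, fun _ => rfl⟩
  have hk0 : ∀ y, 0 < k y := fun y => by
    rw [hk]
    exact Real.exp_pos _
  have hW : ∀ (η : Env) (y : ℤ), W μ s η a n y = k y * Zr Set.univ η a n y := fun η y => by
    rw [hk]
    rfl
  have hS : Sub fun η : Env => ∑ p ∈ Q, |η p| :=
    Sub.sum Q fun p _ => (Sub.coord p).abs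
  have hterm : ∀ (η : Env) (y : ℤ), 0 ≤ c y * W μ s η a n y := fun η y => by
    rw [hW]
    exact mul_nonneg (hc y).le (mul_nonneg (hk0 y).le (Zr_nonneg _ _ _ _ _))
  have hlow : ∀ η : Env, c y0 * k y0 * Real.exp (-∑ p ∈ Q, |η p|) ≤
      ∑ y ∈ A, c y * W μ s η a n y := fun η => by
    refine le_trans ?_ (Finset.single_le_sum (fun y _ => hterm η y) hy0)
    rw [hW, mul_assoc]
    exact mul_le_mul_of_nonneg_left (mul_le_mul_of_nonneg_left (Zr_ge η a h0 h1) (hk0 y0).le)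
      (hc y0).le
  have hpos : ∀ η : Env, 0 < ∑ y ∈ A, c y * W μ s η a n y := fun η =>
    lt_of_lt_of_le (mul_pos (mul_pos (hc y0) (hk0 y0)) (Real.exp_pos _)) (hlow η)
  have hK : 0 < (∑ y ∈ A, c y * k y) * 2 ^ n := by
    refine mul_pos ?_ (by positivity)
    exact Finset.sum_pos (fun y _ => mul_pos (hc y) (hk0 y)) ⟨y0, hy0⟩
  have hup : ∀ η : Env, ∑ y ∈ A, c y * W μ s η a n y ≤
      (∑ y ∈ A, c y * k y) * 2 ^ n * Real.exp (∑ p ∈ Q, |η p|) := fun η => by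
    rw [mul_assoc, Finset.sum_mul]
    refine Finset.sum_le_sum fun y _ => ?_
    rw [hW, mul_assoc]
    exact mul_le_mul_of_nonneg_left (mul_le_mul_of_nonneg_left (Zr_le Set.univ η a n y)
      (hk0 y).le) (hc y).le
  refine Sub.of_le ?_ ((Sub.const (Real.log (c y0 * k y0))).sub hS)
    ((Sub.const (Real.log ((∑ y ∈ A, c y * k y) * 2 ^ n))).add hS) (fun η => ?_) (fun η => ?_)
  · refine Real.measurable_log.comp (Finset.measurable_sum _ fun y _ => ?_)
    simp only [hW]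
    exact ((measurable_Zr Set.univ a n y).const_mul (k y)).const_mul (c y)
  · have h2 := Real.log_le_log (mul_pos (mul_pos (hc y0) (hk0 y0)) (Real.exp_pos _)) (hlow η)
    rw [Real.log_mul (mul_pos (hc y0) (hk0 y0)).ne' (Real.exp_pos _).ne', Real.log_exp] at h2
    simpa [sub_eq_add_neg] using h2
  · have h2 := Real.log_le_log (hpos η) (hup η)
    rw [Real.log_mul hK.ne' (Real.exp_pos _).ne', Real.log_exp] at h2
    exact h2

theorem Sub_X (a : Pt) {n : ℕ} {y : ℤ} (h0 : 0 ≤ y) (h1 : y ≤ n) : Sub fun η => X μ s η a n y := by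
  have h := (Sub_logsum (μ := μ) (s := s) a (n := n) (A := {y}) (fun _ => 1)
    (fun _ => one_pos) ⟨y, Finset.mem_singleton_self y, h0, h1⟩).neg
  simpa [X] using h

theorem Sub_V (a : Pt) (n : ℕ) : Sub fun η => V μ s η a n := by
  have h := Sub_logsum (μ := μ) (s := s) a (n := n) (A := Finset.Icc (0 : ℤ) n) (fun _ => 1)
    (fun _ => one_pos) ⟨0, by simp, le_rfl, by positivity⟩
  simpa [V, WS] using h

theorem Sub_Mx (H : ℕ) : Sub fun η => Mx μ s η H := by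
  unfold Mx
  exact Sub.sup' (Box H) (Box_nonempty H) fun q _ => Sub_V _ _

end Pool.Agent.W_7d29a1_F
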