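import Pool.Agent.W_7d29a1_F.CoreD1

/-!
Costs and lucks. TASK CoreD2.
-/

namespace Pool.Agent.W_7d29a1_F

open MeasureTheory ProbabilityTheory Filter Topology

variable {μ : Measure ℝ} {s : ℝ}

theorem WS_nonneg (η : Env) (a : Pt) (n : ℕ) (A : Finset ℤ) : 0 ≤ WS μ s η a n A :=
  Finset.sum_nonneg fun y _ => W_nonneg η a n y

theorem WS_mono (η : Env) (a : Pt) (n : ℕ) {A B : Finset ℤ} (h : A ⊆ B) :
    WS μ s η a n A ≤ WS μ s η a n B :=
  Finset.sum_le_sum_of_subset_of_nonneg h fun y _ _ => W_nonneg η a n y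

private theorem CoreD2_pos (η : Env) (a : Pt) (n : ℕ) :
    0 < WS μ s η a n (Finset.Icc (0 : ℤ) n) := by
  have h1 : W μ s η a n 0 ≤ WS μ s η a n (Finset.Icc (0 : ℤ) n) :=
    Finset.single_le_sum (f := fun y => W μ s η a n y) (fun y _ => W_nonneg η a n y)
      (Finset.mem_Icc.2 ⟨le_rfl, Int.natCast_nonneg n⟩)
  exact lt_of_lt_of_le (W_pos η a le_rfl (Int.natCast_nonneg n)) h1

private theorem CoreD2_exp_V (η : Env) (a : Pt) (n : ℕ) :
    Real.exp (V μ s η a n) = WS μ s η a n (Finset.Icc (0 : ℤ) n) :=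
  Real.exp_log (CoreD2_pos η a n)

/-- All sets of displacements (`W = 0` outside of `[0, n]`). -/
theorem WS_le_exp_V (η : Env) (a : Pt) (n : ℕ) (A : Finset ℤ) :
    WS μ s η a n A ≤ Real.exp (V μ s η a n) := by
  classical
  rw [CoreD2_exp_V]
  have h1 : WS μ s η a n (Finset.Icc (0 : ℤ) n) = WS μ s η a n (A ∪ Finset.Icc (0 : ℤ) n) := by
    unfold WS
    refine Finset.sum_subset Finset.subset_union_right fun y _ hy => W_eq_zero η a ?_
    rintro ⟨h2, h3⟩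
    exact hy (Finset.mem_Icc.2 ⟨h2, h3⟩)
  rw [h1]
  exact WS_mono η a n Finset.subset_union_left

theorem exp_V (η : Env) (a : Pt) (n : ℕ) :
    Real.exp (V μ s η a n) = WS μ s η a n (Finset.Icc (0 : ℤ) n) :=
  CoreD2_exp_V η a n

theorem V_zero (η : Env) (a : Pt) : V μ s η a 0 = 0 := by
  unfold V WS W WR
  simp [Zr]

theorem V_sh (η : Env) (a c : Pt) (n : ℕ) : V μ s (sh c η) a n = V μ s η (a + c) n := by
  unfold V WS
  simp only [W_sh]

theorem X_sh (η : Env) (a c : Pt) (n : ℕ) (y : ℤ) : X μ s (sh c η) a n y = X μ s η (a + c) n y := by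
  unfold X
  rw [W_sh]

theorem neg_X_le_V (η : Env) (a : Pt) {n : ℕ} {y : ℤ} (h0 : 0 ≤ y) (h1 : y ≤ n) :
    -X μ s η a n y ≤ V μ s η a n := by
  unfold X V
  rw [neg_neg]
  exact Real.log_le_log (W_pos η a h0 h1) (Finset.single_le_sum (f := fun y => W μ s η a n y)
    (fun y _ => W_nonneg η a n y) (Finset.mem_Icc.2 ⟨h0, h1⟩))

theorem X_add_le (η : Env) (a : Pt) {m n : ℕ} {k y : ℤ} (h0 : 0 ≤ k) (h1 : k ≤ m) (h2 : 0 ≤ y)
    (h3 : y ≤ n) : X μ s η a (m + n) (k + y) ≤ X μ s η a m k + X μ s η (a.1 + m, a.2 + k) n y := by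
  unfold X
  have p1 : 0 < W μ s η a m k := W_pos η a h0 h1
  have p2 : 0 < W μ s η (a.1 + m, a.2 + k) n y := W_pos η _ h2 h3
  have h := Real.log_le_log (mul_pos p1 p2) (W_mul_le η a m n k y)
  rw [Real.log_mul p1.ne' p2.ne'] at h
  linarith

private theorem CoreD2_sum (η : Env) (b : Pt) (m n : ℕ) {k : ℤ} (h0 : 0 ≤ k) (h1 : k ≤ m) :
    ∑ Y ∈ Finset.Icc (0 : ℤ) ((m + n : ℕ) : ℤ), W μ s η b n (Y - k) =
      WS μ s η b n (Finset.Icc (0 : ℤ) n) := by
  unfold WS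
  have h2 : ∑ y ∈ Finset.Icc (0 : ℤ) n, W μ s η b n y =
      ∑ Y ∈ Finset.Icc k (k + n), W μ s η b n (Y - k) := by
    refine Finset.sum_nbij' (fun y => y + k) (fun Y => Y - k) ?_ ?_ ?_ ?_ ?_
    · intro y hy
      rw [Finset.mem_Icc] at hy ⊢
      omega
    · intro Y hY
      rw [Finset.mem_Icc] at hY ⊢
      omega
    · intro y _
      show y + k - k = y
      omega
    · intro Y _
      show Y - k + k = Y
      omega
    · intro y _
      show W μ s η b n y = W μ s η b n (y + k - k)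
      rw [add_sub_cancel_right]
  rw [h2]
  symm
  refine Finset.sum_subset ?_ ?_
  · intro Y hY
    rw [Finset.mem_Icc] at hY ⊢
    push_cast
    omega
  · intro Y _ hY
    refine W_eq_zero η b ?_
    rintro ⟨h3, h4⟩
    apply hY
    rw [Finset.mem_Icc]
    omega

private theorem CoreD2_add (η : Env) (a : Pt) (m n : ℕ) :
    Real.exp (V μ s η a (m + n)) = ∑ k ∈ Finset.Icc (0 : ℤ) m,
      W μ s η a m k * Real.exp (V μ s η (a.1 + m, a.2 + k) n) := by
  rw [CoreD2_exp_V]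
  have h1 : WS μ s η a (m + n) (Finset.Icc (0 : ℤ) ((m + n : ℕ) : ℤ)) =
      ∑ Y ∈ Finset.Icc (0 : ℤ) ((m + n : ℕ) : ℤ), ∑ k ∈ Finset.Icc (0 : ℤ) m,
        W μ s η a m k * W μ s η (a.1 + m, a.2 + k) n (Y - k) := by
    unfold WS
    exact Finset.sum_congr rfl fun Y _ => W_add η a m n Y
  rw [h1, Finset.sum_comm]
  refine Finset.sum_congr rfl fun k hk => ?_
  rw [Finset.mem_Icc] at hk
  rw [← Finset.mul_sum, CoreD2_sum η _ m n hk.1 hk.2, CoreD2_exp_V]

/-- One point, then a line. -/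
theorem V_add_ge (η : Env) (a : Pt) (m n : ℕ) {k : ℤ} (h0 : 0 ≤ k) (h1 : k ≤ m) :
    -X μ s η a m k + V μ s η (a.1 + m, a.2 + k) n ≤ V μ s η a (m + n) := by
  have h2 : W μ s η a m k * Real.exp (V μ s η (a.1 + m, a.2 + k) n) ≤
      Real.exp (V μ s η a (m + n)) := by
    rw [CoreD2_add]
    exact Finset.single_le_sum
      (f := fun k => W μ s η a m k * Real.exp (V μ s η (a.1 + m, a.2 + k) n))
      (fun j _ => mul_nonneg (W_nonneg η a m j) (Real.exp_nonneg _)) (Finset.mem_Icc.2 ⟨h0, h1⟩)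
  have p1 : 0 < W μ s η a m k := W_pos η a h0 h1
  have h3 := Real.log_le_log (mul_pos p1 (Real.exp_pos _)) h2
  rw [Real.log_mul p1.ne' (Real.exp_pos _).ne', Real.log_exp, Real.log_exp] at h3
  unfold X
  rw [neg_neg]
  exact h3

theorem exp_V_add (η : Env) (a : Pt) (m n : ℕ) :
    Real.exp (V μ s η a (m + n)) = ∑ k ∈ Finset.Icc (0 : ℤ) m,
      W μ s η a m k * Real.exp (V μ s η (a.1 + m, a.2 + k) n) :=
  CoreD2_add η a m n

/-- Jensen: with the weights `W(a, (m, k)) / ∑ W`. -/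
theorem V_add_jensen (η : Env) (a : Pt) (m n : ℕ) :
    V μ s η a m + (∑ k ∈ Finset.Icc (0 : ℤ) m, W μ s η a m k * V μ s η (a.1 + m, a.2 + k) n) /
      Real.exp (V μ s η a m) ≤ V μ s η a (m + n) := by
  obtain ⟨x, hx⟩ : ∃ x : ℤ → ℝ, x = fun k => V μ s η (a.1 + m, a.2 + k) n := ⟨_, rfl⟩
  obtain ⟨S, hS⟩ : ∃ S : ℝ, S = Real.exp (V μ s η a m) := ⟨_, rfl⟩
  obtain ⟨M, hM⟩ : ∃ M : ℝ, M = (∑ k ∈ Finset.Icc (0 : ℤ) m, W μ s η a m k * x k) / S := ⟨_, rfl⟩
  have hS0 : 0 < S := hS ▸ Real.exp_pos _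
  have hSs : S = ∑ k ∈ Finset.Icc (0 : ℤ) m, W μ s η a m k := by
    rw [hS, CoreD2_exp_V]
    rfl
  have hMS : ∑ k ∈ Finset.Icc (0 : ℤ) m, W μ s η a m k * x k = M * S := by
    rw [hM, div_mul_cancel₀ _ hS0.ne']
  have hadd := CoreD2_add (μ := μ) (s := s) η a m n
  have key : Real.exp M * S ≤ Real.exp (V μ s η a (m + n)) := by
    rw [hadd]
    have h1 : ∀ k ∈ Finset.Icc (0 : ℤ) m, Real.exp M * (W μ s η a m k * (1 + x k - M)) ≤
        W μ s η a m k * Real.exp (V μ s η (a.1 + m, a.2 + k) n) := by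
      intro k _
      have h2 : 1 + x k - M ≤ Real.exp (x k - M) := by
        linarith [Real.add_one_le_exp (x k - M)]
      have h3 : Real.exp (V μ s η (a.1 + m, a.2 + k) n) = Real.exp M * Real.exp (x k - M) := by
        rw [← Real.exp_add, hx]
        congr 1
        ring
      rw [h3]
      have h4 := mul_le_mul_of_nonneg_left (mul_le_mul_of_nonneg_left h2
        (W_nonneg (μ := μ) (s := s) η a m k)) (Real.exp_nonneg M)
      linarith
    refine le_trans (le_of_eq ?_) (Finset.sum_le_sum h1)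
    rw [← Finset.mul_sum]
    have h5 : ∑ k ∈ Finset.Icc (0 : ℤ) m, W μ s η a m k * (1 + x k - M) =
        (1 - M) * ∑ k ∈ Finset.Icc (0 : ℤ) m, W μ s η a m k +
          ∑ k ∈ Finset.Icc (0 : ℤ) m, W μ s η a m k * x k := by
      rw [Finset.mul_sum, ← Finset.sum_add_distrib]
      exact Finset.sum_congr rfl fun k _ => by ring
    rw [h5, hMS, ← hSs]
    ring
  have h6 := Real.log_le_log (mul_pos (Real.exp_pos M) hS0) key
  rw [Real.log_mul (Real.exp_pos M).ne' hS0.ne', Real.log_exp, Real.log_exp, hS, Real.log_exp] at h6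
  rw [hM, hS, hx] at h6
  linarith

/-- The sites of the rows `a < t ≤ b`. -/
def rows (a b : ℤ) : Set Pt := {p | a < p.1 ∧ p.1 ≤ b}

theorem V_dep (a : Pt) (n : ℕ) : DependsOn (fun η : Env => V μ s η a n)
    {p | a.1 < p.1 ∧ p.1 ≤ a.1 + n ∧ a.2 ≤ p.2 ∧ p.2 - a.2 ≤ p.1 - a.1} := by
  intro η η' h
  show V μ s η a n = V μ s η' a n
  unfold V WS
  congr 1
  refine Finset.sum_congr rfl fun y _ => ?_
  refine W_dep (μ := μ) (s := s) a n y fun p hp => h p ?_
  obtain ⟨h1, h2, h3, h4, -, -⟩ := hp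
  exact ⟨h1, h2, h3, h4⟩

theorem X_dep (a : Pt) (n : ℕ) (y : ℤ) :
    DependsOn (fun η : Env => X μ s η a n y) (cone a n y) := by
  intro η η' h
  show X μ s η a n y = X μ s η' a n y
  have h1 : W μ s η a n y = W μ s η' a n y := W_dep (μ := μ) (s := s) a n y h
  unfold X
  rw [h1]

end Pool.Agent.W_7d29a1_F
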