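import Pool.Agent.W_7d29a1_F.CoreD2

/-!
Mirror. TASK CoreD5.
-/

namespace Pool.Agent.W_7d29a1_F

open MeasureTheory ProbabilityTheory Filter Topology

variable {μ : Measure ℝ} {s : ℝ} [IsProbabilityMeasure μ]

private lemma CoreD5_Zr (η : Env) (n : ℕ) (y : ℤ) :
    Zr Set.univ (fun p => η (p.1, p.1 - p.2)) 0 n (n - y) = Zr Set.univ η 0 n y := by
  induction n generalizing y with
  | zero =>
    simp only [Zr, Nat.cast_zero, zero_sub, neg_eq_zero]
  | succ n ih =>
    have h1 := ih y
    have h2 := ih (y - 1)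
    have e1 : ((n : ℤ) - (y - 1)) = ((n + 1 : ℕ) : ℤ) - y := by push_cast; ring
    have e2 : ((n + 1 : ℕ) : ℤ) - y - 1 = (n : ℤ) - y := by push_cast; ring
    rw [e1] at h2
    simp only [Zr]
    rw [e2, h1, h2]
    simp only [Set.indicator_univ, Prod.fst_zero, Prod.snd_zero, zero_add]
    have e3 : ((n : ℤ) + 1 - (((n + 1 : ℕ) : ℤ) - y)) = y := by push_cast; ring
    rw [e3]
    ring

/-- Mirror: `(t, x) ↦ (t, t - x)`, if `lam (- s) = lam s - s`. -/
theorem e_mirror (hl : lam μ (-s) = lam μ s - s) (n : ℕ) (y : ℤ) :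
    e μ (-s) n (n - y) = e μ s n y := by
  have hX : ∀ η : Env, X μ (-s) (fun p => η (p.1, p.1 - p.2)) 0 n (n - y) = X μ s η 0 n y := by
    intro η
    unfold X W WR
    rw [CoreD5_Zr, hl]
    congr 4
    push_cast
    ring
  have hm : Measurable fun η : Env => X μ (-s) η 0 n (n - y) := by
    unfold X
    exact (Real.measurable_log.comp (measurable_W 0 n (n - y))).neg
  unfold e
  have h := (mp_mirror (μ := μ)).map_eq
  conv_lhs => rw [← h]
  rw [integral_map (mp_mirror (μ := μ)).measurable.aemeasurable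
    hm.aestronglyMeasurable]
  exact integral_congr_ae (Filter.Eventually.of_forall fun η => hX η)

end Pool.Agent.W_7d29a1_F
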