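import Pool.Agent.W_7d29a1_F.Bridge4
import Pool.Agent.W_7d29a1_F.Bridge5
import Pool.Agent.W_7d29a1_h85.Apri

/-!
A priori bounds. TASK Bridge7.
-/

namespace Pool.Agent.W_7d29a1_F

open MeasureTheory ProbabilityTheory Filter Topology

variable {μ : Measure ℝ} [IsProbabilityMeasure μ]

private lemma Bridge7_left {s v1 v2 : ℝ} (S : Setup μ s v1 v2) {r : ℝ} (hr : 0 ≤ r) :
    Pool.Agent.W_7d29a1_h47.Lam μ (s / 2) - r * (2 * v1 - 1) ≤
      Pool.Agent.W_7d29a1_h47.Lam μ (s / 2 - r) := by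
  rcases hr.eq_or_lt with h | h
  · rw [← h]
    simp
  have hc := lam_convex (μ := μ) S.em
  have h1 := hc.slope_le_of_hasDerivWithinAt_Iio (Set.mem_univ (s - 2 * r)) (Set.mem_univ s)
    (by linarith) (S.hl.mono Set.Iio_subset_Iic_self)
  rw [slope_def_field, div_le_iff₀ (by linarith)] at h1
  unfold lam at h1
  have e1 : (s - 2 * r) / 2 = s / 2 - r := by ring
  rw [e1] at h1
  linarith

private lemma Bridge7_right {s v1 v2 : ℝ} (S : Setup μ s v1 v2) {r : ℝ} (hr : 0 ≤ r) :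
    Pool.Agent.W_7d29a1_h47.Lam μ (s / 2) + r * (2 * v2 - 1) ≤
      Pool.Agent.W_7d29a1_h47.Lam μ (s / 2 + r) := by
  rcases hr.eq_or_lt with h | h
  · rw [← h]
    simp
  have hc := lam_convex (μ := μ) S.em
  have h1 := hc.le_slope_of_hasDerivWithinAt_Ioi (Set.mem_univ s) (Set.mem_univ (s + 2 * r))
    (by linarith) (S.hr.mono Set.Ioi_subset_Ici_self)
  rw [slope_def_field, le_div_iff₀ (by linarith)] at h1
  unfold lam at h1
  have e1 : (s + 2 * r) / 2 = s / 2 + r := by ring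
  rw [e1] at h1
  linarith

omit [IsProbabilityMeasure μ] in
private lemma Bridge7_eps (n : ℕ) (hn : 1 ≤ n) :
    Pool.Agent.W_7d29a1_h47.eps μ n ≤
      (10 + Pool.Agent.W_7d29a1_h47.Cc μ) * (n : ℝ) ^ (4 / 5 : ℝ) := by
  have hn1 : (1 : ℝ) ≤ n := by exact_mod_cast hn
  have hn0 : (0 : ℝ) < n := by linarith
  have hC : 0 ≤ Pool.Agent.W_7d29a1_h47.Cc μ := by
    unfold Pool.Agent.W_7d29a1_h47.Cc
    positivity
  unfold Pool.Agent.W_7d29a1_h47.eps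
  have h1 : Real.log (2 * (n : ℝ) + 1) ≤ 10 * (n : ℝ) ^ (3 / 10 : ℝ) := by
    have h2 := Real.log_le_rpow_div (x := 2 * (n : ℝ) + 1) (ε := 3 / 10) (by linarith) (by norm_num)
    have h3 : (2 * (n : ℝ) + 1) ^ (3 / 10 : ℝ) ≤ (3 * (n : ℝ)) ^ (3 / 10 : ℝ) :=
      Real.rpow_le_rpow (by linarith) (by linarith) (by norm_num)
    have h4 : (3 * (n : ℝ)) ^ (3 / 10 : ℝ) = (3 : ℝ) ^ (3 / 10 : ℝ) * (n : ℝ) ^ (3 / 10 : ℝ) :=
      Real.mul_rpow (by norm_num) hn0.le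
    have h5 : (3 : ℝ) ^ (3 / 10 : ℝ) ≤ 3 := by
      have := Real.rpow_le_rpow_of_exponent_le (x := 3) (by norm_num)
        (by norm_num : (3 / 10 : ℝ) ≤ 1)
      simpa using this
    have h6 : 0 ≤ (n : ℝ) ^ (3 / 10 : ℝ) := by positivity
    have h7 := mul_le_mul_of_nonneg_right h5 h6
    have h8 : (2 * (n : ℝ) + 1) ^ (3 / 10 : ℝ) / (3 / 10) ≤ (3 * (n : ℝ) ^ (3 / 10 : ℝ)) / (3 / 10) :=
      div_le_div_of_nonneg_right (by linarith) (by norm_num)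
    have h9 : (3 * (n : ℝ) ^ (3 / 10 : ℝ)) / (3 / 10) = 10 * (n : ℝ) ^ (3 / 10 : ℝ) := by ring
    linarith
  have h2 : Real.sqrt (n : ℝ) * (n : ℝ) ^ (3 / 10 : ℝ) = (n : ℝ) ^ (4 / 5 : ℝ) := by
    rw [Real.sqrt_eq_rpow, ← Real.rpow_add hn0]
    norm_num
  have h3 : Real.sqrt (n : ℝ) ≤ (n : ℝ) ^ (4 / 5 : ℝ) := by
    rw [Real.sqrt_eq_rpow]
    exact Real.rpow_le_rpow_of_exponent_le hn1 (by norm_num)
  have h4 : 0 ≤ Real.sqrt (n : ℝ) := Real.sqrt_nonneg _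
  calc Real.sqrt (n : ℝ) * (Real.log (2 * (n : ℝ) + 1) + Pool.Agent.W_7d29a1_h47.Cc μ)
      ≤ Real.sqrt (n : ℝ) * (10 * (n : ℝ) ^ (3 / 10 : ℝ) + Pool.Agent.W_7d29a1_h47.Cc μ) :=
        mul_le_mul_of_nonneg_left (by linarith) h4
    _ = 10 * (Real.sqrt (n : ℝ) * (n : ℝ) ^ (3 / 10 : ℝ)) +
        Pool.Agent.W_7d29a1_h47.Cc μ * Real.sqrt (n : ℝ) := by ring
    _ ≤ 10 * (n : ℝ) ^ (4 / 5 : ℝ) + Pool.Agent.W_7d29a1_h47.Cc μ * (n : ℝ) ^ (4 / 5 : ℝ) := by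
        rw [h2]
        have := mul_le_mul_of_nonneg_left h3 hC
        linarith
    _ = (10 + Pool.Agent.W_7d29a1_h47.Cc μ) * (n : ℝ) ^ (4 / 5 : ℝ) := by ring

/-- A priori bound. `exists_ap` (`W_7d29a1_h47q/LdA.lean`) with the tilts `s ± n ^ (- 1 / 4)` gives
`y+ ≥ n v2 - C n ^ (3 / 4) log n` and `y- ≤ n v1 + C n ^ (3 / 4) log n` with
`e μ s n y± ≤ C n ^ (3 / 4) log n`; `e_le_max` gives the points in between. -/
theorem apriori {s v1 v2 : ℝ} (S : Setup μ s v1 v2) {w1 w2 : ℝ} (h1 : v1 < w1) (h2 : w2 < v2) :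
    ∃ C : ℝ, ∀ (n : ℕ) (y : ℤ), w1 * n ≤ y → y ≤ w2 * n → e μ s n y ≤ C * (n : ℝ) ^ (4 / 5 : ℝ) := by
  obtain ⟨η, hη0, hη1, hη2, hη3⟩ : ∃ η : ℝ, 0 < η ∧ η ≤ w1 - v1 ∧ η ≤ v2 - w2 ∧ η ≤ v2 - v1 := by
    refine ⟨min (w1 - v1) (min (v2 - w2) (v2 - v1)), ?_, min_le_left _ _,
      (min_le_right _ _).trans (min_le_left _ _), (min_le_right _ _).trans (min_le_right _ _)⟩
    have := S.v12
    exact lt_min (by linarith) (lt_min (by linarith) (by linarith))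
  refine ⟨(4 / η + 2) * (10 + Pool.Agent.W_7d29a1_h47.Cc μ), fun n y hy1 hy2 => ?_⟩
  rcases Nat.eq_zero_or_pos n with hn | hn
  · subst hn
    have e1 : y = 0 := by
      have a1 : (0 : ℝ) ≤ y := by simpa using hy1
      have a2 : (y : ℝ) ≤ 0 := by simpa using hy2
      have a3 : (y : ℝ) = 0 := le_antisymm a2 a1
      exact_mod_cast a3
    subst e1
    rw [e_zero]
    simp
  have hn0 : (0 : ℝ) < n := by exact_mod_cast hn
  have v1p := S.v1pos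
  have v2l := S.v2lt
  have hy3 : 0 ≤ y := by
    have a1 : (0 : ℝ) ≤ w1 * n := by
      have : 0 < w1 := by linarith
      positivity
    have a2 : (0 : ℝ) ≤ y := a1.trans hy1
    exact_mod_cast a2
  have hy4 : y ≤ n := by
    have a1 : w2 * n ≤ 1 * n := mul_le_mul_of_nonneg_right (by linarith) hn0.le
    have a2 : (y : ℝ) ≤ n := by linarith
    exact_mod_cast a2
  have hR : Pool.Agent.W_7d29a1_h47.Reach 0 n (2 * y - n) := by
    rw [Pool.Agent.W_7d29a1_h47.Reach_iff]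
    refine ⟨abs_le.2 ⟨by omega, by omega⟩, by omega⟩
  have key := Pool.Agent.W_7d29a1_h85.apri (μ := μ) S.em (h := s / 2) (v₁ := 2 * v1 - 1)
    (v₂ := 2 * v2 - 1) (η := η) hη0 (by linarith) (by linarith) (by linarith)
    (fun r hr => Bridge7_left S hr) (fun r hr => Bridge7_right S hr) hn hR
    (by
      push_cast
      have a1 : (2 * v1 - 1 + η) * n ≤ (2 * w1 - 1) * n :=
        mul_le_mul_of_nonneg_right (by linarith) hn0.le
      nlinarith)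
    (by
      push_cast
      have a1 : (2 * w2 - 1) * n ≤ (2 * v2 - 1 - η) * n :=
        mul_le_mul_of_nonneg_right (by linarith) hn0.le
      nlinarith)
  rw [e_eq S.em s hy3 hy4]
  have he := Bridge7_eps (μ := μ) n hn
  have hη4 : 0 ≤ 4 / η + 2 := by positivity
  have h5 := mul_le_mul_of_nonneg_left he hη4
  unfold lam
  push_cast at key
  have h6 : (4 / η + 2) * ((10 + Pool.Agent.W_7d29a1_h47.Cc μ) * (n : ℝ) ^ (4 / 5 : ℝ)) =
      (4 / η + 2) * (10 + Pool.Agent.W_7d29a1_h47.Cc μ) * (n : ℝ) ^ (4 / 5 : ℝ) := by ring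
  rw [← h6]
  linarith

/-- Crude bound. -/
theorem e_le_linear (hμ : Pool.Agent.W_7d29a1_h47.EM μ) (s : ℝ) : ∃ C : ℝ, 0 < C ∧
    ∀ (n : ℕ) (y : ℤ), 0 ≤ y → y ≤ n → e μ s n y ≤ C * n := by
  refine ⟨|lam μ s| + |s| + |Pool.Agent.W_7d29a1_h47.m0 μ| + 1, by positivity, fun n y h0 h1 => ?_⟩
  rw [e_eq hμ s h0 h1]
  have hR : Pool.Agent.W_7d29a1_h47.Reach 0 n (2 * y - n) := by
    rw [Pool.Agent.W_7d29a1_h47.Reach_iff]
    refine ⟨abs_le.2 ⟨by omega, by omega⟩, by omega⟩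
  have k1 := Pool.Agent.W_7d29a1_h47.le_ap hμ hR
  have hn : (0 : ℝ) ≤ n := Nat.cast_nonneg n
  have h0' : (0 : ℝ) ≤ y := by exact_mod_cast h0
  have h1' : (y : ℝ) ≤ n := by exact_mod_cast h1
  have k2 : n * lam μ s ≤ |lam μ s| * n := by
    rw [mul_comm]
    exact mul_le_mul_of_nonneg_right (le_abs_self _) hn
  have k3 : -(s * y) ≤ |s| * n := by
    have a1 : -(s * y) ≤ |s| * y := by
      have := mul_le_mul_of_nonneg_right (neg_le_abs s) h0'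
      linarith
    exact a1.trans (mul_le_mul_of_nonneg_left h1' (abs_nonneg s))
  have k4 : -(n * Pool.Agent.W_7d29a1_h47.m0 μ) ≤ |Pool.Agent.W_7d29a1_h47.m0 μ| * n := by
    have := mul_le_mul_of_nonneg_right (neg_le_abs (Pool.Agent.W_7d29a1_h47.m0 μ)) hn
    linarith
  linarith

end Pool.Agent.W_7d29a1_F
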