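import Mathlib

/-!
Theorem F (MP_7d29a1_pr), section 10: the bootstrap, as an abstract statement on sequences
(version with the unit `Bs`, no growth regularity assumed).
-/

namespace Pool.Agent.W_7d29a1_F

open Finset Filter Topology

/-- `Bs g E y = sup_j 2^(-g j) E(y + j)`. -/
noncomputable def Bs (g : ℝ) (E : ℕ → ℝ) (y : ℕ) : ℝ :=
  sSup (Set.range fun j : ℕ => (2 : ℝ) ^ (-(g * (j : ℝ))) * E (y + j))

theorem Bs_bdd {g : ℝ} {E : ℕ → ℝ}
    (hb : BddAbove (Set.range fun x : ℕ => (2 : ℝ) ^ (-(g * (x : ℝ))) * E x)) (y : ℕ) :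
    BddAbove (Set.range fun j : ℕ => (2 : ℝ) ^ (-(g * (j : ℝ))) * E (y + j)) := by
  obtain ⟨M, hM⟩ := hb
  refine ⟨(2 : ℝ) ^ (g * (y : ℝ)) * M, ?_⟩
  rintro _ ⟨j, rfl⟩
  have h1 : (2 : ℝ) ^ (-(g * ((y + j : ℕ) : ℝ))) * E (y + j) ≤ M := hM ⟨y + j, rfl⟩
  have h2 : (2 : ℝ) ^ (-(g * (j : ℝ))) = (2 : ℝ) ^ (g * (y : ℝ)) * (2 : ℝ) ^ (-(g * ((y + j : ℕ) : ℝ))) := by
    rw [← Real.rpow_add two_pos]
    congr 1
    push_cast
    ring
  show (2 : ℝ) ^ (-(g * (j : ℝ))) * E (y + j) ≤ (2 : ℝ) ^ (g * (y : ℝ)) * M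
  rw [h2, mul_assoc]
  exact mul_le_mul_of_nonneg_left h1 (Real.rpow_pos_of_pos two_pos _).le

theorem le_Bs {g : ℝ} {E : ℕ → ℝ}
    (hb : BddAbove (Set.range fun x : ℕ => (2 : ℝ) ^ (-(g * (x : ℝ))) * E x)) (y j : ℕ) :
    E (y + j) ≤ (2 : ℝ) ^ (g * (j : ℝ)) * Bs g E y := by
  have h1 : (2 : ℝ) ^ (-(g * (j : ℝ))) * E (y + j) ≤ Bs g E y :=
    le_csSup (Bs_bdd hb y) ⟨j, rfl⟩
  have h2 : E (y + j) = (2 : ℝ) ^ (g * (j : ℝ)) * ((2 : ℝ) ^ (-(g * (j : ℝ))) * E (y + j)) := by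
    rw [← mul_assoc, ← Real.rpow_add two_pos]
    simp
  rw [h2]
  exact mul_le_mul_of_nonneg_left h1 (Real.rpow_pos_of_pos two_pos _).le

theorem Bs_le {g : ℝ} {E : ℕ → ℝ} {y : ℕ} {M : ℝ}
    (h : ∀ j : ℕ, (2 : ℝ) ^ (-(g * (j : ℝ))) * E (y + j) ≤ M) : Bs g E y ≤ M := by
  apply csSup_le (Set.range_nonempty _)
  rintro _ ⟨j, rfl⟩
  exact h j

theorem self_le_Bs {g : ℝ} {E : ℕ → ℝ}
    (hb : BddAbove (Set.range fun x : ℕ => (2 : ℝ) ^ (-(g * (x : ℝ))) * E x)) (y : ℕ) :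
    E y ≤ Bs g E y := by
  have := le_Bs hb y 0
  simpa using this

theorem Bs_add_le {g : ℝ} {E : ℕ → ℝ}
    (hb : BddAbove (Set.range fun x : ℕ => (2 : ℝ) ^ (-(g * (x : ℝ))) * E x)) (y k : ℕ) :
    Bs g E (y + k) ≤ (2 : ℝ) ^ (g * (k : ℝ)) * Bs g E y := by
  apply Bs_le
  intro j
  have h1 := le_Bs hb y (k + j)
  rw [← add_assoc] at h1
  have h2 : (2 : ℝ) ^ (g * (k : ℝ)) * Bs g E y =
      (2 : ℝ) ^ (-(g * (j : ℝ))) * ((2 : ℝ) ^ (g * ((k + j : ℕ) : ℝ)) * Bs g E y) := by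
    rw [← mul_assoc, ← Real.rpow_add two_pos]
    congr 2
    push_cast
    ring
  rw [h2]
  exact mul_le_mul_of_nonneg_left h1 (Real.rpow_pos_of_pos two_pos _).le

theorem Bs_mono {g : ℝ} {E : ℕ → ℝ} (hE : Monotone E)
    (hb : BddAbove (Set.range fun x : ℕ => (2 : ℝ) ^ (-(g * (x : ℝ))) * E x)) :
    Monotone (Bs g E) := by
  apply monotone_nat_of_le_succ
  intro y
  apply Bs_le
  intro j
  have h1 : (2 : ℝ) ^ (-(g * (j : ℝ))) * E (y + 1 + j) ≤ Bs g E (y + 1) :=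
    le_csSup (Bs_bdd hb (y + 1)) ⟨j, rfl⟩
  refine le_trans ?_ h1
  apply mul_le_mul_of_nonneg_left _ (Real.rpow_pos_of_pos two_pos _).le
  exact hE (by omega)

/-- The block lemma. -/
theorem block {E nu de : ℕ → ℝ} {l : ℕ → ℕ} {g C : ℝ} (hg : 0 < g) (hg1 : g < 1)
    (hE : Monotone E) (h0 : 0 < E 0)
    (hb : BddAbove (Set.range fun x : ℕ => (2 : ℝ) ^ (-(g * (x : ℝ))) * E x))
    (hnu : ∀ x, 0 ≤ nu x) (hde : ∀ x, 0 ≤ de x) (hl : ∀ x, nu x * 2 ^ (l x) ≤ C)
    (hC : 0 ≤ C) {x0 : ℕ}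
    (hrec : ∀ x, x0 ≤ x → E (x + 1) ≤ E x + C * nu (x + 1) * Bs g E (x + 1 + l (x + 1)) +
      de (x + 1) * E (x + 1))
    {η ρ : ℝ} {a : ℕ} (ha : x0 ≤ a)
    (hsm1 : (C + 1) * η ≤ 1 / 4)
    (hsm2 : (C * C ^ g * ρ ^ (1 - g) + ρ) * (1 / (1 - (2 : ℝ) ^ (-g))) ≤ 1 / 8)
    (hρ0 : 0 ≤ ρ) (hρ : ∀ x, a < x → nu x ≤ ρ ∧ de x ≤ ρ)
    {I : ℕ} (hI : a ≤ I) (hS : ∑ x ∈ Finset.Ioc a I, (nu x + de x) ≤ η) :
    Bs g E I ≤ 2 * E a := by
  have hEpos : ∀ x, 0 < E x := fun x => lt_of_lt_of_le h0 (hE (Nat.zero_le x))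
  have hBpos : 0 < Bs g E I := lt_of_lt_of_le (hEpos I) (self_le_Bs hb I)
  have hBm := Bs_mono hE hb
  set β : ℝ := Bs g E I with hβ
  set G : ℝ := 1 / (1 - (2 : ℝ) ^ (-g)) with hG
  have h2g : (2 : ℝ) ^ (-g) < 1 := Real.rpow_lt_one_of_one_lt_of_neg (by norm_num) (by linarith)
  have h2g0 : 0 < (2 : ℝ) ^ (-g) := Real.rpow_pos_of_pos two_pos _
  have hG0 : 0 < G := by
    rw [hG]
    apply one_div_pos.2
    linarith
  -- the recursion summed
  have hsumrec : ∀ n : ℕ, E (a + n) ≤ E a + ∑ k ∈ Finset.range n,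
      (C * nu (a + k + 1) * Bs g E (a + k + 1 + l (a + k + 1)) + de (a + k + 1) * E (a + k + 1)) := by
    intro n
    induction n with
    | zero => simp
    | succ n ih =>
      rw [Finset.sum_range_succ]
      have h1 := hrec (a + n) (by omega)
      have e : a + (n + 1) = a + n + 1 := by omega
      rw [e]
      linarith
  -- nu x ^ (1 - g)
  have hnug : ∀ x, a < x → nu x * (2 : ℝ) ^ (g * (l x : ℝ)) ≤ C ^ g * ρ ^ (1 - g) := by
    intro x hx
    rcases (hnu x).eq_or_lt with h | h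
    · rw [← h, zero_mul]
      positivity
    · have h1 : (2 : ℝ) ^ (l x) ≤ C / nu x := by
        rw [le_div_iff₀ h, mul_comm]
        exact hl x
      have h2 : (2 : ℝ) ^ (g * (l x : ℝ)) ≤ (C / nu x) ^ g := by
        rw [mul_comm, Real.rpow_mul two_pos.le, Real.rpow_natCast]
        exact Real.rpow_le_rpow (by positivity) h1 hg.le
      have h3 : (C / nu x) ^ g = C ^ g * (nu x) ^ (-g) := by
        rw [Real.div_rpow hC h.le, Real.rpow_neg h.le]
        field_simp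
      have h4 : nu x * (C ^ g * (nu x) ^ (-g)) = C ^ g * (nu x) ^ (1 - g) := by
        rw [sub_eq_add_neg, Real.rpow_add h, Real.rpow_one]
        ring
      calc nu x * (2 : ℝ) ^ (g * (l x : ℝ)) ≤ nu x * (C ^ g * (nu x) ^ (-g)) := by
            rw [← h3]
            exact mul_le_mul_of_nonneg_left h2 h.le
        _ = C ^ g * (nu x) ^ (1 - g) := h4
        _ ≤ C ^ g * ρ ^ (1 - g) := by
            apply mul_le_mul_of_nonneg_left _ (by positivity)
            exact Real.rpow_le_rpow h.le (hρ x hx).1 (by linarith)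
  set R : ℝ := C * C ^ g * ρ ^ (1 - g) + ρ with hR
  have hR0 : 0 ≤ R := by positivity
  -- bound of one term, x > a
  -- for x <= I
  have hterm1 : ∀ x, a < x → x ≤ I →
      C * nu x * Bs g E (x + l x) + de x * E x ≤
        (C + 1) * (nu x + de x) * β + R * (2 : ℝ) ^ (-(g * ((I - x : ℕ) : ℝ))) * β := by
    intro x hax hxI
    have hd : de x * E x ≤ de x * β := by
      apply mul_le_mul_of_nonneg_left _ (hde x)
      exact (hE hxI).trans (self_le_Bs hb I)
    have hpos1 : 0 ≤ R * (2 : ℝ) ^ (-(g * ((I - x : ℕ) : ℝ))) * β := by positivity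
    have hpos2 : 0 ≤ C * de x * β := mul_nonneg (mul_nonneg hC (hde x)) hBpos.le
    have hpos3 : 0 ≤ (nu x) * β := mul_nonneg (hnu x) hBpos.le
    by_cases hc : x + l x ≤ I
    · have h1 : C * nu x * Bs g E (x + l x) ≤ C * nu x * β :=
        mul_le_mul_of_nonneg_left (hBm hc) (mul_nonneg hC (hnu x))
      nlinarith
    · obtain ⟨m, hm⟩ : ∃ m, x + l x = I + m := ⟨x + l x - I, by omega⟩
      have h1 : Bs g E (x + l x) ≤ (2 : ℝ) ^ (g * (m : ℝ)) * β := by
        rw [hm]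
        exact Bs_add_le hb I m
      have h2 : (2 : ℝ) ^ (g * (m : ℝ)) =
          (2 : ℝ) ^ (g * (l x : ℝ)) * (2 : ℝ) ^ (-(g * ((I - x : ℕ) : ℝ))) := by
        rw [← Real.rpow_add two_pos]
        congr 1
        have h3 : (m : ℝ) = (l x : ℝ) - ((I - x : ℕ) : ℝ) := by
          have h4 : m + (I - x) = l x := by omega
          rw [← h4]
          push_cast
          ring
        rw [h3]
        ring
      have h5 : C * nu x * Bs g E (x + l x) ≤
          C * C ^ g * ρ ^ (1 - g) * (2 : ℝ) ^ (-(g * ((I - x : ℕ) : ℝ))) * β := by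
        calc C * nu x * Bs g E (x + l x)
            ≤ C * nu x * ((2 : ℝ) ^ (g * (l x : ℝ)) * (2 : ℝ) ^ (-(g * ((I - x : ℕ) : ℝ))) * β) := by
              rw [← h2]
              exact mul_le_mul_of_nonneg_left h1 (mul_nonneg hC (hnu x))
          _ = C * (nu x * (2 : ℝ) ^ (g * (l x : ℝ))) * ((2 : ℝ) ^ (-(g * ((I - x : ℕ) : ℝ))) * β) := by
              ring
          _ ≤ C * (C ^ g * ρ ^ (1 - g)) * ((2 : ℝ) ^ (-(g * ((I - x : ℕ) : ℝ))) * β) := by
              apply mul_le_mul_of_nonneg_right _ (by positivity)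
              exact mul_le_mul_of_nonneg_left (hnug x hax) hC
          _ = _ := by ring
      have h6 : C * C ^ g * ρ ^ (1 - g) * (2 : ℝ) ^ (-(g * ((I - x : ℕ) : ℝ))) * β ≤
          R * (2 : ℝ) ^ (-(g * ((I - x : ℕ) : ℝ))) * β := by
        apply mul_le_mul_of_nonneg_right _ hBpos.le
        apply mul_le_mul_of_nonneg_right _ (by positivity)
        rw [hR]
        linarith
      have h7 : 0 ≤ C * nu x * β := mul_nonneg (mul_nonneg hC (hnu x)) hBpos.le
      nlinarith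
  -- for x > I
  have hterm2 : ∀ x, a < x → I ≤ x →
      C * nu x * Bs g E (x + l x) + de x * E x ≤ R * (2 : ℝ) ^ (g * ((x - I : ℕ) : ℝ)) * β := by
    intro x hax hxI
    obtain ⟨m, rfl⟩ : ∃ m, x = I + m := ⟨x - I, by omega⟩
    have e1 : I + m - I = m := by omega
    rw [e1]
    have h1 : Bs g E (I + m + l (I + m)) ≤
        (2 : ℝ) ^ (g * (l (I + m) : ℝ)) * ((2 : ℝ) ^ (g * (m : ℝ)) * β) := by
      refine (Bs_add_le hb (I + m) (l (I + m))).trans ?_
      apply mul_le_mul_of_nonneg_left _ (by positivity)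
      exact Bs_add_le hb I m
    have h2 : E (I + m) ≤ (2 : ℝ) ^ (g * (m : ℝ)) * β := le_Bs hb I m
    calc C * nu (I + m) * Bs g E (I + m + l (I + m)) + de (I + m) * E (I + m)
        ≤ C * nu (I + m) * ((2 : ℝ) ^ (g * (l (I + m) : ℝ)) * ((2 : ℝ) ^ (g * (m : ℝ)) * β)) +
            ρ * ((2 : ℝ) ^ (g * (m : ℝ)) * β) := by
          apply add_le_add
          · exact mul_le_mul_of_nonneg_left h1 (mul_nonneg hC (hnu _))
          · exact mul_le_mul (hρ _ hax).2 h2 (hEpos _).le hρ0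
      _ = (C * (nu (I + m) * (2 : ℝ) ^ (g * (l (I + m) : ℝ))) + ρ) *
            ((2 : ℝ) ^ (g * (m : ℝ)) * β) := by ring
      _ ≤ (C * (C ^ g * ρ ^ (1 - g)) + ρ) * ((2 : ℝ) ^ (g * (m : ℝ)) * β) := by
          apply mul_le_mul_of_nonneg_right _ (by positivity)
          have := mul_le_mul_of_nonneg_left (hnug _ hax) hC
          linarith
      _ = R * (2 : ℝ) ^ (g * (m : ℝ)) * β := by
          rw [hR]
          ring
  -- geometric sums
  have hgeo : ∀ n : ℕ, ∑ k ∈ Finset.range n, (2 : ℝ) ^ (-(g * (k : ℝ))) ≤ G := by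
    intro n
    have hs := (summable_geometric_of_lt_one h2g0.le h2g).sum_le_tsum
      (Finset.range n) (fun q _ => by positivity)
    rw [tsum_geometric_of_lt_one h2g0.le h2g] at hs
    rw [hG, one_div]
    refine le_trans (le_of_eq ?_) hs
    apply Finset.sum_congr rfl
    intro k _
    rw [← Real.rpow_natCast, ← Real.rpow_mul two_pos.le]
    congr 1
    ring
  -- the sum over a < x <= I
  obtain ⟨n, hn⟩ : ∃ n, I = a + n := ⟨I - a, by omega⟩
  have hfirst : ∑ k ∈ Finset.range n,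
      (C * nu (a + k + 1) * Bs g E (a + k + 1 + l (a + k + 1)) + de (a + k + 1) * E (a + k + 1)) ≤
      1 / 4 * β + R * G * β := by
    have h1 : ∀ k ∈ Finset.range n,
        (C * nu (a + k + 1) * Bs g E (a + k + 1 + l (a + k + 1)) + de (a + k + 1) * E (a + k + 1)) ≤
        (C + 1) * (nu (a + k + 1) + de (a + k + 1)) * β +
          R * (2 : ℝ) ^ (-(g * ((n - 1 - k : ℕ) : ℝ))) * β := by
      intro k hk
      have hk' : k < n := Finset.mem_range.1 hk
      have h2 := hterm1 (a + k + 1) (by omega) (by omega)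
      have e : I - (a + k + 1) = n - 1 - k := by omega
      rw [e] at h2
      exact h2
    refine (Finset.sum_le_sum h1).trans ?_
    rw [Finset.sum_add_distrib]
    apply add_le_add
    · rw [← Finset.sum_mul, ← Finset.mul_sum]
      apply mul_le_mul_of_nonneg_right _ hBpos.le
      have h3 : ∑ k ∈ Finset.range n, (nu (a + k + 1) + de (a + k + 1)) =
          ∑ x ∈ Finset.Ioc a I, (nu x + de x) := by
        rw [hn]
        clear_value β
        clear hn h1
        induction n with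
        | zero => simp
        | succ m ihm =>
          rw [Finset.sum_range_succ, ihm]
          have e2 : Finset.Ioc a (a + (m + 1)) = insert (a + m + 1) (Finset.Ioc a (a + m)) := by
            ext z
            simp only [Finset.mem_Ioc, Finset.mem_insert]
            omega
          rw [e2, Finset.sum_insert (by simp), add_comm]
      rw [h3]
      calc (C + 1) * ∑ x ∈ Finset.Ioc a I, (nu x + de x) ≤ (C + 1) * η :=
            mul_le_mul_of_nonneg_left hS (by linarith)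
        _ ≤ 1 / 4 := hsm1
    · rw [← Finset.sum_mul, ← Finset.mul_sum]
      apply mul_le_mul_of_nonneg_right _ hBpos.le
      apply mul_le_mul_of_nonneg_left _ hR0
      have h4 : ∑ k ∈ Finset.range n, (2 : ℝ) ^ (-(g * ((n - 1 - k : ℕ) : ℝ))) =
          ∑ k ∈ Finset.range n, (2 : ℝ) ^ (-(g * (k : ℝ))) :=
        Finset.sum_range_reflect (fun k => (2 : ℝ) ^ (-(g * ((k : ℕ) : ℝ)))) n
      rw [h4]
      exact hgeo n
  -- conclusion
  have hfin : β ≤ E a + 1 / 2 * β := by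
    apply Bs_le
    intro j
    have h1 := hsumrec (n + j)
    have e1 : a + (n + j) = I + j := by omega
    rw [e1, Finset.sum_range_add] at h1
    have hsecond : ∑ k ∈ Finset.range j,
        (C * nu (a + (n + k) + 1) * Bs g E (a + (n + k) + 1 + l (a + (n + k) + 1)) +
          de (a + (n + k) + 1) * E (a + (n + k) + 1)) ≤
        R * (2 : ℝ) ^ (g * (j : ℝ)) * G * β := by
      have h2 : ∀ k ∈ Finset.range j,
          (C * nu (a + (n + k) + 1) * Bs g E (a + (n + k) + 1 + l (a + (n + k) + 1)) +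
          de (a + (n + k) + 1) * E (a + (n + k) + 1)) ≤
          R * (2 : ℝ) ^ (g * (j : ℝ)) * β * (2 : ℝ) ^ (-(g * ((j - 1 - k : ℕ) : ℝ))) := by
        intro k hk
        have hk' : k < j := Finset.mem_range.1 hk
        have h3 := hterm2 (a + (n + k) + 1) (by omega) (by omega)
        have e2 : a + (n + k) + 1 - I = k + 1 := by omega
        rw [e2] at h3
        refine h3.trans (le_of_eq ?_)
        have h4 : (2 : ℝ) ^ (g * ((k + 1 : ℕ) : ℝ)) =
            (2 : ℝ) ^ (g * (j : ℝ)) * (2 : ℝ) ^ (-(g * ((j - 1 - k : ℕ) : ℝ))) := by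
          rw [← Real.rpow_add two_pos]
          congr 1
          have h5 : (j : ℝ) = ((k + 1 : ℕ) : ℝ) + ((j - 1 - k : ℕ) : ℝ) := by
            have : j = (k + 1) + (j - 1 - k) := by omega
            exact_mod_cast this
          rw [h5]
          ring
        rw [h4]
        ring
      refine (Finset.sum_le_sum h2).trans ?_
      rw [← Finset.mul_sum]
      have h6 : ∑ k ∈ Finset.range j, (2 : ℝ) ^ (-(g * ((j - 1 - k : ℕ) : ℝ))) =
          ∑ k ∈ Finset.range j, (2 : ℝ) ^ (-(g * (k : ℝ))) :=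
        Finset.sum_range_reflect (fun k => (2 : ℝ) ^ (-(g * ((k : ℕ) : ℝ)))) j
      rw [h6]
      calc R * (2 : ℝ) ^ (g * (j : ℝ)) * β * ∑ k ∈ Finset.range j, (2 : ℝ) ^ (-(g * (k : ℝ)))
          ≤ R * (2 : ℝ) ^ (g * (j : ℝ)) * β * G :=
            mul_le_mul_of_nonneg_left (hgeo j) (by positivity)
        _ = _ := by ring
    have h7 : E (I + j) ≤ E a + (1 / 4 * β + R * G * β) + R * (2 : ℝ) ^ (g * (j : ℝ)) * G * β := by
      linarith
    have hpow1 : (2 : ℝ) ^ (-(g * (j : ℝ))) ≤ 1 := by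
      apply Real.rpow_le_one_of_one_le_of_nonpos (by norm_num)
      have : 0 ≤ g * (j : ℝ) := by positivity
      linarith
    have hpow2 : (2 : ℝ) ^ (-(g * (j : ℝ))) * (2 : ℝ) ^ (g * (j : ℝ)) = 1 := by
      rw [← Real.rpow_add two_pos]
      simp
    have hpow0 : 0 < (2 : ℝ) ^ (-(g * (j : ℝ))) := Real.rpow_pos_of_pos two_pos _
    have hRG : R * G ≤ 1 / 8 := hsm2
    have hRG0 : 0 ≤ R * G := by positivity
    calc (2 : ℝ) ^ (-(g * (j : ℝ))) * E (I + j)
        ≤ (2 : ℝ) ^ (-(g * (j : ℝ))) *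
            (E a + (1 / 4 * β + R * G * β) + R * (2 : ℝ) ^ (g * (j : ℝ)) * G * β) :=
          mul_le_mul_of_nonneg_left h7 hpow0.le
      _ = (2 : ℝ) ^ (-(g * (j : ℝ))) * (E a + (1 / 4 * β + R * G * β)) +
            ((2 : ℝ) ^ (-(g * (j : ℝ))) * (2 : ℝ) ^ (g * (j : ℝ))) * (R * G * β) := by ring
      _ ≤ 1 * (E a + (1 / 4 * β + R * G * β)) + 1 * (R * G * β) := by
          rw [hpow2]
          have h8 : 0 ≤ E a + (1 / 4 * β + R * G * β) := by
            have := hEpos a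
            positivity
          have := mul_le_mul_of_nonneg_right hpow1 h8
          linarith
      _ = E a + 1 / 4 * β + 2 * (R * G) * β := by ring
      _ ≤ E a + 1 / 2 * β := by
          have : 2 * (R * G) * β ≤ 2 * (1 / 8) * β := by
            apply mul_le_mul_of_nonneg_right _ hBpos.le
            linarith
          nlinarith
  linarith

/-- From the block lemma to the growth bound. -/
theorem blocks {E s : ℕ → ℝ} {η : ℝ} (hη : 0 < η) {x1 : ℕ} (hE : ∀ x, 0 < E x)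
    (hs0 : ∀ x, 0 ≤ s x) (hs : ∀ x, x1 ≤ x → s x ≤ η)
    (hb : ∀ a b, x1 ≤ a → a ≤ b → ∑ x ∈ Finset.Ioc a b, s x ≤ 2 * η → E b ≤ 2 * E a) :
    ∀ n a b : ℕ, b ≤ a + n → x1 ≤ a → a ≤ b →
      E b ≤ (2 : ℝ) ^ (1 + (∑ x ∈ Finset.Ioc a b, s x) / η) * E a := by
  intro n
  induction n with
  | zero =>
    intro a b hbn ha hab
    have : a = b := by omega
    subst this
    have h1 : (1 : ℝ) ≤ (2 : ℝ) ^ (1 + (∑ x ∈ Finset.Ioc a a, s x) / η) := by
      simp
    nlinarith [hE a]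
  | succ n ih =>
    intro a b hbn ha hab
    have hSnn : ∀ c d : ℕ, 0 ≤ ∑ x ∈ Finset.Ioc c d, s x := fun c d =>
      Finset.sum_nonneg (fun x _ => hs0 x)
    by_cases hsm : ∑ x ∈ Finset.Ioc a b, s x ≤ 2 * η
    · have h1 := hb a b ha hab hsm
      refine h1.trans ?_
      apply mul_le_mul_of_nonneg_right _ (hE a).le
      calc (2 : ℝ) = (2 : ℝ) ^ (1 : ℝ) := by simp
        _ ≤ (2 : ℝ) ^ (1 + (∑ x ∈ Finset.Ioc a b, s x) / η) := by
          apply Real.rpow_le_rpow_of_exponent_le (by norm_num)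
          have : 0 ≤ (∑ x ∈ Finset.Ioc a b, s x) / η := div_nonneg (hSnn a b) hη.le
          linarith
    · -- the first index at which the partial sum exceeds η
      have hex : ∃ c, η < ∑ x ∈ Finset.Ioc a c, s x := ⟨b, by linarith⟩
      classical
      set c := Nat.find hex with hc
      have hc1 : η < ∑ x ∈ Finset.Ioc a c, s x := Nat.find_spec hex
      have hac : a < c := by
        by_contra hcon
        have : Finset.Ioc a c = ∅ := Finset.Ioc_eq_empty (by omega)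
        rw [this] at hc1
        simp at hc1
        linarith
      have hcb : c ≤ b := by
        apply Nat.find_min' hex
        linarith
      obtain ⟨q, hq⟩ : ∃ q, c = q + 1 := ⟨c - 1, by omega⟩
      have hmin : ∑ x ∈ Finset.Ioc a q, s x ≤ η := by
        have := Nat.find_min hex (m := q) (by omega)
        linarith
      have hsplit : ∑ x ∈ Finset.Ioc a c, s x = ∑ x ∈ Finset.Ioc a q, s x + s c := by
        rw [hq]
        have e2 : Finset.Ioc a (q + 1) = insert (q + 1) (Finset.Ioc a q) := by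
          ext z
          simp only [Finset.mem_Ioc, Finset.mem_insert]
          omega
        rw [e2, Finset.sum_insert (by simp), add_comm]
      have hsc : s c ≤ η := hs c (by omega)
      have h1 := hb a c ha hac.le (by linarith)
      have h2 := ih c b (by omega) (by omega) hcb
      have hdec : ∑ x ∈ Finset.Ioc a b, s x =
          ∑ x ∈ Finset.Ioc a c, s x + ∑ x ∈ Finset.Ioc c b, s x := by
        rw [← Finset.sum_Ioc_consecutive _ hac.le hcb]
      calc E b ≤ (2 : ℝ) ^ (1 + (∑ x ∈ Finset.Ioc c b, s x) / η) * E c := h2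
        _ ≤ (2 : ℝ) ^ (1 + (∑ x ∈ Finset.Ioc c b, s x) / η) * (2 * E a) :=
          mul_le_mul_of_nonneg_left h1 (Real.rpow_pos_of_pos two_pos _).le
        _ = (2 : ℝ) ^ (1 + (∑ x ∈ Finset.Ioc c b, s x) / η + 1) * E a := by
          rw [Real.rpow_add two_pos (1 + (∑ x ∈ Finset.Ioc c b, s x) / η) 1, Real.rpow_one]
          ring
        _ ≤ (2 : ℝ) ^ (1 + (∑ x ∈ Finset.Ioc a b, s x) / η) * E a := by
          apply mul_le_mul_of_nonneg_right _ (hE a).le
          apply Real.rpow_le_rpow_of_exponent_le (by norm_num)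
          rw [hdec, add_div]
          have : 1 ≤ (∑ x ∈ Finset.Ioc a c, s x) / η := by
            rw [one_le_div hη]
            exact hc1.le
          linarith

/-- **Section 10 of Theorem F.** -/
theorem boot (E nu de : ℕ → ℝ) (l : ℕ → ℕ) (g C c : ℝ) (hg : 0 < g) (hg1 : g < 1)
    (hE : Monotone E) (h0 : 0 < E 0)
    (hb : BddAbove (Set.range fun x : ℕ => (2 : ℝ) ^ (-(g * (x : ℝ))) * E x))
    (hnu : ∀ x, 0 ≤ nu x) (hde : ∀ x, 0 ≤ de x)
    (hnu0 : Tendsto nu atTop (𝓝 0)) (hde0 : Tendsto de atTop (𝓝 0))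
    (hl : ∀ x, nu x * 2 ^ (l x) ≤ C)
    (hsum : ∀ ε : ℝ, 0 < ε → ∃ Ce : ℝ, ∀ X : ℕ, 1 ≤ X →
      ∑ x ∈ Finset.range (X + 1), (nu x + de x) ≤ ε * Real.log X + Ce)
    (hrec : ∃ x0 : ℕ, ∀ x, x0 ≤ x → E (x + 1) ≤ E x + C * nu (x + 1) *
      Bs g E (x + 1 + l (x + 1)) + de (x + 1) * E (x + 1)) :
    ¬ (0 < c ∧ ∀ x : ℕ, c * x ≤ E x) := by
  rintro ⟨hc, hlow⟩
  obtain ⟨x0, hrec⟩ := hrec
  have hC : 0 ≤ C := le_trans (mul_nonneg (hnu 0) (by positivity)) (hl 0)
  have hEpos : ∀ x, 0 < E x := fun x => lt_of_lt_of_le h0 (hE (Nat.zero_le x))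
  -- the small parameters
  set η : ℝ := 1 / (8 * (C + 1)) with hη
  have hη0 : 0 < η := by positivity
  have hη1 : (C + 1) * (2 * η) ≤ 1 / 4 := by
    rw [hη]
    apply le_of_eq
    field_simp
    norm_num
  have hlim : Tendsto (fun ρ : ℝ => (C * C ^ g * ρ ^ (1 - g) + ρ) * (1 / (1 - (2 : ℝ) ^ (-g))))
      (𝓝 0) (𝓝 0) := by
    have h1 : Tendsto (fun ρ : ℝ => ρ ^ (1 - g)) (𝓝 0) (𝓝 0) := by
      have h2 : ContinuousAt (fun ρ : ℝ => ρ ^ (1 - g)) 0 :=
        Real.continuousAt_rpow_const _ _ (Or.inr (by linarith))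
      have h3 := h2.tendsto
      rwa [Real.zero_rpow (by linarith)] at h3
    have h4 : Tendsto (fun ρ : ℝ => (C * C ^ g * ρ ^ (1 - g) + ρ) * (1 / (1 - (2 : ℝ) ^ (-g))))
        (𝓝 0) (𝓝 ((C * C ^ g * 0 + 0) * (1 / (1 - (2 : ℝ) ^ (-g))))) :=
      ((h1.const_mul _).add tendsto_id).mul_const _
    simpa using h4
  obtain ⟨ρ, hρ0, hρ1⟩ : ∃ ρ : ℝ, 0 < ρ ∧
      (C * C ^ g * ρ ^ (1 - g) + ρ) * (1 / (1 - (2 : ℝ) ^ (-g))) ≤ 1 / 8 := by
    have h1 : ∀ᶠ ρ : ℝ in 𝓝 0, (C * C ^ g * ρ ^ (1 - g) + ρ) * (1 / (1 - (2 : ℝ) ^ (-g))) < 1 / 8 :=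
      hlim.eventually (gt_mem_nhds (by norm_num))
    have h2 : ∀ᶠ ρ : ℝ in 𝓝[>] 0,
        (C * C ^ g * ρ ^ (1 - g) + ρ) * (1 / (1 - (2 : ℝ) ^ (-g))) < 1 / 8 :=
      nhdsWithin_le_nhds h1
    have h3 : ∀ᶠ ρ : ℝ in 𝓝[>] 0, 0 < ρ := self_mem_nhdsWithin
    obtain ⟨ρ, h4, h5⟩ := (h3.and h2).exists
    exact ⟨ρ, h4, h5.le⟩
  -- the starting index
  obtain ⟨x1, hx1⟩ : ∃ x1 : ℕ, ∀ x, x1 ≤ x → (nu x ≤ ρ ∧ de x ≤ ρ) ∧ nu x + de x ≤ η ∧ x0 ≤ x := by
    have h1 : ∀ᶠ x in atTop, nu x < min ρ (η / 2) :=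
      hnu0.eventually (gt_mem_nhds (by positivity))
    have h2 : ∀ᶠ x in atTop, de x < min ρ (η / 2) :=
      hde0.eventually (gt_mem_nhds (by positivity))
    have h3 := (h1.and h2).and (eventually_ge_atTop x0)
    obtain ⟨x1, hx1⟩ := eventually_atTop.1 h3
    refine ⟨x1, fun x hx => ?_⟩
    obtain ⟨⟨h4, h5⟩, h6⟩ := hx1 x hx
    have h7 := lt_min_iff.1 h4
    have h8 := lt_min_iff.1 h5
    exact ⟨⟨h7.1.le, h8.1.le⟩, by linarith, h6⟩
  have hblocks := blocks (E := E) (s := fun x => nu x + de x) hη0 (x1 := x1) hEpos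
    (fun x => add_nonneg (hnu x) (hde x)) (fun x hx => (hx1 x hx).2.1) (by
      intro a b ha hab hS
      have h1 := block hg hg1 hE h0 hb hnu hde hl hC (x0 := x0)
        hrec (η := 2 * η) (ρ := ρ) (a := a) (hx1 a ha).2.2 hη1 hρ1 hρ0.le
        (fun x hx => (hx1 x (by omega)).1) hab hS
      exact (self_le_Bs hb b).trans h1)
  -- choice of ε
  set ε : ℝ := η / (2 * Real.log 2) with hε
  have hl2 : 0 < Real.log 2 := Real.log_pos (by norm_num)
  have hε0 : 0 < ε := by positivity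
  obtain ⟨Ce, hCe⟩ := hsum ε hε0
  have hup : ∀ X : ℕ, max x1 1 ≤ X → E X ≤ ((2 : ℝ) ^ (1 + Ce / η) * E x1) * Real.sqrt X := by
    intro X hX
    have hXx1 : x1 ≤ X := (le_max_left _ _).trans hX
    have hX1 : 1 ≤ X := (le_max_right _ _).trans hX
    have h1 := hblocks (X - x1) x1 X (by omega) le_rfl hXx1
    have h2 : ∑ x ∈ Finset.Ioc x1 X, (nu x + de x) ≤ ε * Real.log X + Ce := by
      refine le_trans ?_ (hCe X hX1)
      apply Finset.sum_le_sum_of_subset_of_nonneg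
      · intro x hx
        have := (Finset.mem_Ioc.1 hx).2
        exact Finset.mem_range.2 (by omega)
      · intro x _ _
        exact add_nonneg (hnu x) (hde x)
    have hXr : (0 : ℝ) < X := by exact_mod_cast hX1
    refine h1.trans ?_
    have h3 : (2 : ℝ) ^ (1 + (∑ x ∈ Finset.Ioc x1 X, (nu x + de x)) / η) ≤
        (2 : ℝ) ^ (1 + Ce / η) * Real.sqrt X := by
      have h4 : Real.sqrt X = (2 : ℝ) ^ (ε * Real.log X / η) := by
        rw [Real.sqrt_eq_rpow, Real.rpow_def_of_pos hXr, Real.rpow_def_of_pos two_pos]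
        congr 1
        rw [hε]
        field_simp
      rw [h4, ← Real.rpow_add two_pos]
      apply Real.rpow_le_rpow_of_exponent_le (by norm_num)
      have h5 : (∑ x ∈ Finset.Ioc x1 X, (nu x + de x)) / η ≤ (ε * Real.log X + Ce) / η :=
        div_le_div_of_nonneg_right h2 hη0.le
      rw [add_div] at h5
      linarith
    calc (2 : ℝ) ^ (1 + (∑ x ∈ Finset.Ioc x1 X, (nu x + de x)) / η) * E x1
        ≤ ((2 : ℝ) ^ (1 + Ce / η) * Real.sqrt X) * E x1 :=
          mul_le_mul_of_nonneg_right h3 (hEpos x1).le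
      _ = _ := by ring
  -- contradiction
  set M : ℝ := (2 : ℝ) ^ (1 + Ce / η) * E x1 with hM
  have hM0 : 0 < M := by
    have := hEpos x1
    positivity
  obtain ⟨X, hX⟩ := exists_nat_gt (max ((max x1 1 : ℕ) : ℝ) ((M / c) ^ 2))
  have hXa : max x1 1 ≤ X := by
    have := (le_max_left _ _).trans_lt hX
    exact_mod_cast this.le
  have hXb : (M / c) ^ 2 < X := (le_max_right _ _).trans_lt hX
  have hXr : (0 : ℝ) < X := lt_of_le_of_lt (by positivity) hXb
  have h1 := hup X hXa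
  have h2 := hlow X
  have h3 : M / c < Real.sqrt X := by
    rw [show M / c = Real.sqrt ((M / c) ^ 2) from (Real.sqrt_sq (by positivity)).symm]
    exact Real.sqrt_lt_sqrt (by positivity) hXb
  have h4 : M < c * Real.sqrt X := by
    rw [div_lt_iff₀ hc] at h3
    linarith
  have h5 : Real.sqrt X * Real.sqrt X = X := Real.mul_self_sqrt hXr.le
  have h6 : 0 < Real.sqrt X := Real.sqrt_pos.2 hXr
  have h7 : M * Real.sqrt X < c * X := by
    calc M * Real.sqrt X < (c * Real.sqrt X) * Real.sqrt X := mul_lt_mul_of_pos_right h4 h6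
      _ = c * X := by rw [mul_assoc, h5]
  linarith

end Pool.Agent.W_7d29a1_F
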