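import Pool.Agent.W_7d29a1_F.CoreD
import Pool.Agent.W_7d29a1_h47q.LdC

/-!
The bridge to the model of `W_7d29a1_h47` (walks with steps `± 1`). TASK Bridge1.
-/

namespace Pool.Agent.W_7d29a1_F

open MeasureTheory ProbabilityTheory Filter Topology

variable {μ : Measure ℝ} [IsProbabilityMeasure μ]

/-- The environment of `W_7d29a1_h47`: the energy of the walk at time `i + 1` in the site `y` is the
energy of the site `(i + 1, (y + i + 1) / 2)`; the sites of the wrong parity are not used and are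
mapped to negative times. -/
def toH (η : Env) : Pool.Agent.W_7d29a1_h47.Env := fun p =>
  if (p.2 + p.1 + 1) % 2 = 0 then η (p.1 + 1, (p.2 + p.1 + 1) / 2)
    else η (-(p.1 + 1), (p.2 + p.1) / 2)

/-- The index map. -/
private def Bridge1_f (p : ℕ × ℤ) : Pt :=
  if (p.2 + p.1 + 1) % 2 = 0 then ((p.1 : ℤ) + 1, (p.2 + p.1 + 1) / 2)
    else (-((p.1 : ℤ) + 1), (p.2 + p.1) / 2)

private theorem Bridge1_inj : Function.Injective Bridge1_f := by
  rintro ⟨i, y⟩ ⟨j, z⟩ h
  unfold Bridge1_f at h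
  simp only at h
  have key : i = j ∧ y = z := by
    split_ifs at h with h1 h2 h2
    · simp only [Prod.mk.injEq] at h
      obtain ⟨h3, h4⟩ := h
      constructor <;> omega
    · simp only [Prod.mk.injEq] at h
      obtain ⟨h3, h4⟩ := h
      omega
    · simp only [Prod.mk.injEq] at h
      obtain ⟨h3, h4⟩ := h
      omega
    · simp only [Prod.mk.injEq] at h
      obtain ⟨h3, h4⟩ := h
      constructor <;> omega
  exact Prod.ext key.1 key.2

private theorem Bridge1_eq : toH = fun (η : Env) (p : ℕ × ℤ) => η (Bridge1_f p) := by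
  funext η p
  unfold toH Bridge1_f
  split_ifs <;> rfl

/-- The index map is injective, `mp_reindex`. -/
theorem mp_toH : MeasurePreserving toH (law μ) (Pool.Agent.W_7d29a1_h47.law μ) := by
  rw [Bridge1_eq]
  exact mp_reindex (μ := μ) Bridge1_f Bridge1_inj

/-- The two walks with one step. -/
private theorem Bridge1_T1 (F : (ℕ → Bool) → ℝ) :
    ∑ r ∈ Pool.Agent.W_7d29a1_h47.T 1, F r = F (fun _ => false) + F (fun i => decide (i = 0)) := by
  classical
  have h1 : Pool.Agent.W_7d29a1_h47.T 1 =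
      {(fun _ => false : ℕ → Bool), (fun i => decide (i = 0) : ℕ → Bool)} := by
    ext s
    rw [Pool.Agent.W_7d29a1_h47.mem_T, Finset.mem_insert, Finset.mem_singleton]
    constructor
    · intro h
      cases h0 : s 0
      · left
        funext i
        rcases Nat.eq_zero_or_pos i with hi | hi
        · rw [hi, h0]
        · exact h i hi
      · right
        funext i
        rcases Nat.eq_zero_or_pos i with hi | hi
        · rw [hi, h0]
          simp
        · rw [h i hi]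
          simp [hi.ne']
    · rintro (h | h) i hi
      · rw [h]
      · rw [h]
        simp only [decide_eq_false_iff_not]
        omega
  have h2 : (fun _ => false : ℕ → Bool) ≠ fun i => decide (i = 0) := by
    intro h
    have := congrFun h 0
    simp at this
  rw [h1, Finset.sum_pair h2]

private theorem Bridge1_rec (g : Pool.Agent.W_7d29a1_h47.Env) (n : ℕ) (z : ℤ) :
    Pool.Agent.W_7d29a1_h47.Zp g 0 0 (n + 1) z = Real.exp (g (n, z)) *
      (Pool.Agent.W_7d29a1_h47.Zp g 0 0 n (z + 1) + Pool.Agent.W_7d29a1_h47.Zp g 0 0 n (z - 1)) := by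
  classical
  have key : ∀ s : ℕ → Bool, (∑ r ∈ Pool.Agent.W_7d29a1_h47.T 1,
      if (0 : ℤ) + Pool.Agent.W_7d29a1_h47.pos (Pool.Agent.W_7d29a1_h47.glue n s r) (n + 1) = z then
        Real.exp (Pool.Agent.W_7d29a1_h47.En g 0 0 (n + 1) (Pool.Agent.W_7d29a1_h47.glue n s r)) else 0) =
      Real.exp (g (n, z)) *
        ((if (0 : ℤ) + Pool.Agent.W_7d29a1_h47.pos s n = z + 1 then
          Real.exp (Pool.Agent.W_7d29a1_h47.En g 0 0 n s) else 0) +
        (if (0 : ℤ) + Pool.Agent.W_7d29a1_h47.pos s n = z - 1 then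
          Real.exp (Pool.Agent.W_7d29a1_h47.En g 0 0 n s) else 0)) := by
    intro s
    rw [Bridge1_T1]
    have hp : ∀ r : ℕ → Bool, Pool.Agent.W_7d29a1_h47.pos (Pool.Agent.W_7d29a1_h47.glue n s r) (n + 1) =
        Pool.Agent.W_7d29a1_h47.pos s n + Pool.Agent.W_7d29a1_h47.stp (r 0) := by
      intro r
      rw [Pool.Agent.W_7d29a1_h47.pos_glue_add]
      congr 1
      simp [Pool.Agent.W_7d29a1_h47.pos]
    have hE : ∀ r : ℕ → Bool,
        Pool.Agent.W_7d29a1_h47.En g 0 0 (n + 1) (Pool.Agent.W_7d29a1_h47.glue n s r) =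
        Pool.Agent.W_7d29a1_h47.En g 0 0 n s +
          g (n, Pool.Agent.W_7d29a1_h47.pos s n + Pool.Agent.W_7d29a1_h47.stp (r 0)) := by
      intro r
      rw [Pool.Agent.W_7d29a1_h47.En_glue]
      congr 1
      simp [Pool.Agent.W_7d29a1_h47.En, Pool.Agent.W_7d29a1_h47.pos]
    rw [hp, hp, hE, hE]
    have s1 : Pool.Agent.W_7d29a1_h47.stp false = -1 := rfl
    have s2 : Pool.Agent.W_7d29a1_h47.stp true = 1 := rfl
    simp only [s1, decide_true, s2]
    obtain ⟨P, hP⟩ : ∃ P : ℤ, P = Pool.Agent.W_7d29a1_h47.pos s n := ⟨_, rfl⟩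
    obtain ⟨A, hA⟩ : ∃ A : ℝ, A = Pool.Agent.W_7d29a1_h47.En g 0 0 n s := ⟨_, rfl⟩
    rw [← hP, ← hA, mul_add]
    congr 1
    · by_cases h : (0 : ℤ) + P = z + 1
      · have h1 : (0 : ℤ) + (P + -1) = z := by omega
        have h2 : P + -1 = z := by omega
        rw [if_pos h, if_pos h1, h2, Real.exp_add, mul_comm]
      · have h1 : ¬ (0 : ℤ) + (P + -1) = z := by omega
        rw [if_neg h, if_neg h1, mul_zero]
    · by_cases h : (0 : ℤ) + P = z - 1
      · have h1 : (0 : ℤ) + (P + 1) = z := by omega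
        have h2 : P + 1 = z := by omega
        rw [if_pos h, if_pos h1, h2, Real.exp_add, mul_comm]
      · have h1 : ¬ (0 : ℤ) + (P + 1) = z := by omega
        rw [if_neg h, if_neg h1, mul_zero]
  unfold Pool.Agent.W_7d29a1_h47.Zp
  rw [Pool.Agent.W_7d29a1_h47.sum_split, Finset.sum_congr rfl fun s _ => key s, ← Finset.mul_sum,
    Finset.sum_add_distrib]

theorem Zr_eq_Zp (η : Env) (n : ℕ) (y : ℤ) :
    Zr Set.univ η 0 n y = Pool.Agent.W_7d29a1_h47.Zp (toH η) 0 0 n (2 * y - n) := by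
  classical
  induction n generalizing y with
  | zero =>
    unfold Pool.Agent.W_7d29a1_h47.Zp
    rw [Pool.Agent.W_7d29a1_h47.T_zero, Finset.sum_singleton]
    by_cases hy : y = 0
    · rw [if_pos (by rw [hy]; simp)]
      show (if y = 0 then (1 : ℝ) else 0) = _
      rw [if_pos hy]
      simp [Pool.Agent.W_7d29a1_h47.En]
    · rw [if_neg (by rw [Pool.Agent.W_7d29a1_h47.pos_zero]; push_cast; omega)]
      show (if y = 0 then (1 : ℝ) else 0) = _
      rw [if_neg hy]
  | succ n ih =>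
    rw [Bridge1_rec]
    have e1 : 2 * y - ((n + 1 : ℕ) : ℤ) + 1 = 2 * y - n := by push_cast; ring
    have e2 : 2 * y - ((n + 1 : ℕ) : ℤ) - 1 = 2 * (y - 1) - n := by push_cast; ring
    rw [e1, e2, ← ih y, ← ih (y - 1)]
    have e3 : toH η (n, 2 * y - ((n + 1 : ℕ) : ℤ)) = η ((n : ℤ) + 1, y) := by
      unfold toH
      have h1 : (2 * y - ((n + 1 : ℕ) : ℤ) + (n : ℤ) + 1) = 2 * y := by push_cast; ring
      simp only [h1]
      rw [if_pos (by omega)]
      have h2 : 2 * y / 2 = y := by omega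
      rw [h2]
    rw [e3]
    show Set.univ.indicator (fun p => Real.exp (η p)) ((0 : Pt).1 + ((n : ℤ) + 1), (0 : Pt).2 + y) *
      (Zr Set.univ η 0 n y + Zr Set.univ η 0 n (y - 1)) = _
    rw [Set.indicator_univ]
    have e4 : (((0 : Pt).1 + ((n : ℤ) + 1), (0 : Pt).2 + y) : Pt) = ((n : ℤ) + 1, y) := by
      refine Prod.ext ?_ ?_
      · simp
      · simp
    rw [e4]

/-- `∑_y e^{s y} Z(0, (n, y)) = e^{s n / 2} Z_n(s / 2)`. -/
theorem sum_Zr_eq_Z (η : Env) (s : ℝ) (n : ℕ) :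
    ∑ y ∈ Finset.Icc (0 : ℤ) n, Real.exp (s * y) * Zr Set.univ η 0 n y =
      Real.exp (s / 2 * n) * Pool.Agent.W_7d29a1_h47.Z (toH η) (s / 2) 0 0 n := by
  classical
  rw [Pool.Agent.W_7d29a1_h47.Z_eq_sum_Zp]
  have hsub : (Finset.Icc (0 : ℤ) n).image (fun y => 2 * y - (n : ℤ)) ⊆
      Finset.Icc ((0 : ℤ) - n) (0 + n) := by
    intro z hz
    obtain ⟨y, hy, rfl⟩ := Finset.mem_image.1 hz
    rw [Finset.mem_Icc] at hy ⊢
    omega
  have hz : ∀ z ∈ Finset.Icc ((0 : ℤ) - n) (0 + n),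
      z ∉ (Finset.Icc (0 : ℤ) n).image (fun y => 2 * y - (n : ℤ)) →
      Real.exp (s / 2 * ((z : ℝ) - (0 : ℤ))) * Pool.Agent.W_7d29a1_h47.Zp (toH η) 0 0 n z = 0 := by
    intro z hz1 hz2
    have h0 : Pool.Agent.W_7d29a1_h47.Zp (toH η) 0 0 n z = 0 := by
      unfold Pool.Agent.W_7d29a1_h47.Zp
      refine Finset.sum_eq_zero fun r _ => if_neg fun h => hz2 ?_
      have h1 := Pool.Agent.W_7d29a1_h47.pos_parity r n
      rw [Finset.mem_Icc] at hz1
      refine Finset.mem_image.2 ⟨(z + n) / 2, ?_, ?_⟩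
      · rw [Finset.mem_Icc]
        omega
      · show 2 * ((z + n) / 2) - (n : ℤ) = z
        omega
    rw [h0, mul_zero]
  rw [← Finset.sum_subset hsub hz, Finset.sum_image (fun a _ b _ h => by
    have h' : 2 * a - (n : ℤ) = 2 * b - (n : ℤ) := h
    omega), Finset.mul_sum]
  refine Finset.sum_congr rfl fun y _ => ?_
  rw [Zr_eq_Zp, ← mul_assoc, ← Real.exp_add]
  congr 2
  push_cast
  ring

end Pool.Agent.W_7d29a1_F
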