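import Pool.Agent.W_7d29a1_F.Bridge1
import Pool.Agent.W_7d29a1_v.Slope
import Pool.Agent.W_7d29a1_h47.Main

/-!
The bridge: the free energy. TASK Bridge3.
-/

namespace Pool.Agent.W_7d29a1_F

open MeasureTheory ProbabilityTheory Filter Topology

variable {μ : Measure ℝ} [IsProbabilityMeasure μ]

/-! ### The models `W_7d29a1_h46u` (dimension `1`, `β = 1`) and `W_7d29a1_h47` -/

/-- The vector of `ℝ^1`. -/
private noncomputable def Bridge3_vec (x : ℝ) : Pool.Agent.W_7d29a1_h46.Vec 1 :=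
  WithLp.toLp 2 fun _ => x

private theorem Bridge3_eta (h : Pool.Agent.W_7d29a1_h46.Vec 1) : h = Bridge3_vec (h 0) := by
  ext j
  have : j = 0 := Subsingleton.elim _ _
  rw [this]
  rfl

private theorem Bridge3_inner (a b : Pool.Agent.W_7d29a1_h46.Vec 1) : inner ℝ a b = a 0 * b 0 := by
  simp [PiLp.inner_apply, mul_comm]

omit [IsProbabilityMeasure μ] in
private theorem Bridge3_EM (hμ : Pool.Agent.W_7d29a1_h47.EM μ) : Pool.Agent.W_7d29a1_h46u.EM μ := by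
  intro b
  refine (hμ |b|).mono' (by fun_prop) (Filter.Eventually.of_forall fun t => ?_)
  rw [Real.norm_eq_abs, abs_of_pos (Real.exp_pos _)]
  refine Real.exp_le_exp.2 ?_
  rw [← abs_mul]
  exact le_abs_self _

/-- Step sequences. -/
private def Bridge3_e (n : ℕ) : (Fin n → Pool.Agent.W_MP_7d29a1_pr.Step 1) ≃ (Fin n → Bool) where
  toFun s i := (s i).2
  invFun r i := (0, r i)
  left_inv s := by
    funext i
    exact Prod.ext (Subsingleton.elim _ _) rfl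
  right_inv r := rfl

/-- The environment on `ℕ × ℤ`. -/
private def Bridge3_om (η : Pool.Agent.W_7d29a1_h46u.Env 1) : ℕ × ℤ → ℝ :=
  fun p => η (p.1, fun _ => p.2)

private theorem Bridge3_pos {n : ℕ} (s : Fin n → Pool.Agent.W_MP_7d29a1_pr.Step 1) (i : ℕ) :
    Pool.Agent.W_MP_7d29a1_pr.pos s i =
      fun _ => Pool.Agent.W_7d29a1_h47.walk (Bridge3_e n s) i := by
  funext j
  have hj : j = 0 := Subsingleton.elim _ _
  rw [hj]
  unfold Pool.Agent.W_MP_7d29a1_pr.pos Pool.Agent.W_7d29a1_h47.walk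
  rw [Finset.sum_apply]
  refine Finset.sum_congr rfl fun k _ => ?_
  by_cases hk : (k : ℕ) < i
  · rw [if_pos hk, if_pos hk]
    unfold Pool.Agent.W_MP_7d29a1_pr.vec
    have h0 : (s k).1 = 0 := Subsingleton.elim _ _
    rw [h0, Pi.single_eq_same]
    rfl
  · rw [if_neg hk, if_neg hk]
    rfl

private theorem Bridge3_energy {n : ℕ} (η : Pool.Agent.W_7d29a1_h46u.Env 1)
    (s : Fin n → Pool.Agent.W_MP_7d29a1_pr.Step 1) :
    Pool.Agent.W_MP_7d29a1_pr.energy η s =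
      Pool.Agent.W_7d29a1_h47.energy (Bridge3_om η) (Bridge3_e n s) := by
  unfold Pool.Agent.W_MP_7d29a1_pr.energy Pool.Agent.W_7d29a1_h47.energy Bridge3_om
  refine Finset.sum_congr rfl fun i _ => ?_
  rw [Bridge3_pos]

private theorem Bridge3_wgt {n : ℕ} (x : ℝ) (η : Pool.Agent.W_7d29a1_h46u.Env 1)
    (s : Fin n → Pool.Agent.W_MP_7d29a1_pr.Step 1) :
    Pool.Agent.W_7d29a1_h46.wgt 1 (Bridge3_vec x) η s =
      Pool.Agent.W_7d29a1_h47.wt (Pool.Agent.W_7d29a1_h47.toEnv 1 (Bridge3_om η)) x 0 0 n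
        (Pool.Agent.W_7d29a1_h47.ext (Bridge3_e n s)) := by
  rw [← Pool.Agent.W_7d29a1_h47.weight_eq, ← Real.exp_add]
  unfold Pool.Agent.W_7d29a1_h46.wgt
  rw [Bridge3_energy, Bridge3_inner, Bridge3_pos]
  rfl

private theorem Bridge3_Z (n : ℕ) (x : ℝ) (η : Pool.Agent.W_7d29a1_h46u.Env 1) :
    Pool.Agent.W_7d29a1_h46u.Z 1 (Bridge3_vec x) η n =
      Pool.Agent.W_7d29a1_h47.Z (Pool.Agent.W_7d29a1_h47.toEnv 1 (Bridge3_om η)) x 0 0 n := by
  unfold Pool.Agent.W_7d29a1_h46u.Z Pool.Agent.W_7d29a1_h46.ZT Pool.Agent.W_7d29a1_h47.Z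
  rw [Pool.Agent.W_7d29a1_h47.sum_T_eq]
  simp only [Set.mem_univ, if_true]
  rw [← Equiv.sum_comp (Bridge3_e n)]
  exact Finset.sum_congr rfl fun s _ => Bridge3_wgt x η s

private theorem Bridge3_mp : MeasurePreserving
    (fun η : Pool.Agent.W_7d29a1_h46u.Env 1 => Pool.Agent.W_7d29a1_h47.toEnv 1 (Bridge3_om η))
    (Pool.Agent.W_7d29a1_h46u.law 1 μ) (Pool.Agent.W_7d29a1_h47.law μ) := by
  have e1 : (fun η : Pool.Agent.W_7d29a1_h46u.Env 1 =>
      Pool.Agent.W_7d29a1_h47.toEnv 1 (Bridge3_om η)) = fun η p =>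
        η ((fun q : ℕ × ℤ => ((q.1 + 1, fun _ => q.2) : ℕ × Pool.Agent.W_MP_7d29a1_pr.Site 1)) p) := by
    funext η p
    unfold Pool.Agent.W_7d29a1_h47.toEnv Bridge3_om
    rw [one_mul]
  rw [e1]
  have hf : Function.Injective
      (fun q : ℕ × ℤ => ((q.1 + 1, fun _ => q.2) : ℕ × Pool.Agent.W_MP_7d29a1_pr.Site 1)) := by
    intro p q hpq
    have h1 := congrArg Prod.fst hpq
    have h2 := congrFun (congrArg Prod.snd hpq) 0
    simp only [Nat.add_right_cancel_iff] at h1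
    exact Prod.ext h1 h2
  unfold Pool.Agent.W_7d29a1_h46u.law
  exact ⟨by fun_prop, Measure.map_infinitePi_infinitePi_of_inj (P := fun _ => μ) hf⟩

private theorem Bridge3_A (n : ℕ) (x : ℝ) :
    Pool.Agent.W_7d29a1_h46u.A μ 1 (Bridge3_vec x) n = Pool.Agent.W_7d29a1_h47.a μ x n := by
  unfold Pool.Agent.W_7d29a1_h46u.A Pool.Agent.W_7d29a1_h46u.X Pool.Agent.W_7d29a1_h47.a
  simp only [Bridge3_Z]
  exact Pool.Agent.W_7d29a1_h47.mp_integral (Bridge3_mp (μ := μ))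
    (F := fun g => Real.log (Pool.Agent.W_7d29a1_h47.Z g x 0 0 n))
    (Measurable.aestronglyMeasurable (by fun_prop))

private theorem Bridge3_lam (x : ℝ) :
    Pool.Agent.W_7d29a1_h46u.lam μ 1 (Bridge3_vec x) = Pool.Agent.W_7d29a1_h47.Lam μ x := by
  unfold Pool.Agent.W_7d29a1_h46u.lam Pool.Agent.W_7d29a1_h47.Lam
  simp only [Bridge3_A]

theorem lam_convex (hμ : Pool.Agent.W_7d29a1_h47.EM μ) : ConvexOn ℝ Set.univ (lam μ) := by
  have h1 := Pool.Agent.W_7d29a1_h47.Lam_convex hμ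
  refine ⟨convex_univ, fun x _ y _ a b ha hb hab => ?_⟩
  have h2 := h1.2 (Set.mem_univ (x / 2)) (Set.mem_univ (y / 2)) ha hb hab
  simp only [smul_eq_mul] at h2 ⊢
  have e1 : (a * x + b * y) / 2 = a * (x / 2) + b * (y / 2) := by ring
  unfold lam
  rw [e1]
  linarith

/-- `Lam μ` is even. -/
theorem lam_neg (hμ : Pool.Agent.W_7d29a1_h47.EM μ) (s : ℝ) : lam μ (-s) = lam μ s - s := by
  unfold lam
  rw [neg_div, Pool.Agent.W_7d29a1_h47.Lam_even]
  ring

/-- From `slope_lt` (`W_7d29a1_v/Slope.lean`, dimension `1`) or directly: slopes of subgradients of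
`lam` are in `(0, 1)`. -/
theorem slope_mem (hμ : Pool.Agent.W_7d29a1_h47.EM μ) {s v : ℝ}
    (hv : ∀ r : ℝ, lam μ s + v * (r - s) ≤ lam μ r) : 0 < v ∧ v < 1 := by
  have hE : Pool.Agent.W_7d29a1_h46u.EM μ := Bridge3_EM hμ
  have key := Pool.Agent.W_7d29a1_v.slope_lt (d := 1) one_pos hE 1
    (θ := Bridge3_vec (s / 2)) (v := Bridge3_vec (2 * v - 1)) (fun h => by
      obtain ⟨x, rfl⟩ : ∃ x, h = Bridge3_vec x := ⟨h 0, Bridge3_eta h⟩
      have h1 := hv (2 * x)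
      rw [Bridge3_lam, Bridge3_lam, Bridge3_inner]
      unfold lam at h1
      have e3 : 2 * x / 2 = x := by ring
      rw [e3] at h1
      have e4 : (Bridge3_vec x - Bridge3_vec (s / 2)) 0 = x - s / 2 := rfl
      have e5 : Bridge3_vec (2 * v - 1) 0 = 2 * v - 1 := rfl
      rw [e4, e5]
      linarith)
  rw [Fin.sum_univ_one] at key
  have e5 : Bridge3_vec (2 * v - 1) 0 = 2 * v - 1 := rfl
  rw [e5, abs_lt] at key
  constructor <;> linarith [key.1, key.2]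

end Pool.Agent.W_7d29a1_F
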