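import Pool.Agent.W_7d29a1_F.Bridge3

/-!
The setup. TASK Bridge4.
-/

namespace Pool.Agent.W_7d29a1_F

open MeasureTheory ProbabilityTheory Filter Topology

variable {μ : Measure ℝ} [IsProbabilityMeasure μ]

private lemma Bridge4_slope_left {f : ℝ → ℝ} (hf : ConvexOn ℝ Set.univ f) {r s : ℝ} (h : r < s) :
    f s + derivWithin f (Set.Iio s) s * (r - s) ≤ f r := by
  have h1 : slope f r s ≤ derivWithin f (Set.Iio s) s :=
    hf.slope_le_leftDeriv_of_mem_interior (Set.mem_univ _) (by simp) h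
  rw [slope_def_field, div_le_iff₀ (by linarith)] at h1
  linarith

private lemma Bridge4_slope_right {f : ℝ → ℝ} (hf : ConvexOn ℝ Set.univ f) {r s : ℝ} (h : s < r) :
    f s + derivWithin f (Set.Ioi s) s * (r - s) ≤ f r := by
  have h1 : derivWithin f (Set.Ioi s) s ≤ slope f s r :=
    hf.rightDeriv_le_slope_of_mem_interior (by simp) (Set.mem_univ _) h
  rw [slope_def_field, le_div_iff₀ (by linarith)] at h1
  linarith

private lemma Bridge4_le {f : ℝ → ℝ} (hf : ConvexOn ℝ Set.univ f) (s : ℝ) :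
    derivWithin f (Set.Iio s) s ≤ derivWithin f (Set.Ioi s) s :=
  hf.leftDeriv_le_rightDeriv_of_mem_interior (by simp)

private lemma Bridge4_sub_left {f : ℝ → ℝ} (hf : ConvexOn ℝ Set.univ f) (r s : ℝ) :
    f s + derivWithin f (Set.Iio s) s * (r - s) ≤ f r := by
  rcases lt_trichotomy r s with h | h | h
  · exact Bridge4_slope_left hf h
  · subst h; simp
  · have h1 := Bridge4_slope_right hf h
    have h2 := Bridge4_le hf s
    nlinarith

private lemma Bridge4_sub_right {f : ℝ → ℝ} (hf : ConvexOn ℝ Set.univ f) (r s : ℝ) :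
    f s + derivWithin f (Set.Ioi s) s * (r - s) ≤ f r := by
  rcases lt_trichotomy r s with h | h | h
  · have h1 := Bridge4_slope_left hf h
    have h2 := Bridge4_le hf s
    nlinarith
  · subst h; simp
  · exact Bridge4_slope_right hf h

/-- If `lam μ` is not differentiable at `s`, there is a `Setup`. -/
theorem setup_of_not_diff (hμ : Pool.Agent.W_7d29a1_h47.EM μ)
    (hnd : Pool.Agent.W_7d29a1_h47.Nondeg μ) {s : ℝ} (h : ¬ DifferentiableAt ℝ (lam μ) s) :
    ∃ v1 v2 : ℝ, Setup μ s v1 v2 := by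
  have hf := lam_convex hμ
  have hl : HasDerivWithinAt (lam μ) (derivWithin (lam μ) (Set.Iio s) s) (Set.Iio s) s :=
    hf.hasDerivWithinAt_leftDeriv_of_mem_interior (by simp)
  have hr : HasDerivWithinAt (lam μ) (derivWithin (lam μ) (Set.Ioi s) s) (Set.Ioi s) s :=
    hf.hasDerivWithinAt_rightDeriv_of_mem_interior (by simp)
  refine ⟨_, _, hμ, hnd, (slope_mem hμ fun r => Bridge4_sub_left hf r s).1, ?_,
    (slope_mem hμ fun r => Bridge4_sub_right hf r s).2, hl.Iic_of_Iio, hr.Ici_of_Ioi⟩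
  refine lt_of_le_of_ne (Bridge4_le hf s) fun he => h ?_
  rw [he] at hl
  have h2 := hl.Iic_of_Iio.union hr.Ici_of_Ioi
  rw [Set.Iic_union_Ici] at h2
  exact (h2.hasDerivAt univ_mem).differentiableAt

/-- The mirror image of a setup. -/
theorem Setup.mirror {s v1 v2 : ℝ} (S : Setup μ s v1 v2) : Setup μ (-s) (1 - v2) (1 - v1) := by
  have key : ∀ r : ℝ, lam μ r = lam μ (-r) + r := by
    intro r
    have := lam_neg S.em r
    linarith
  have hfun : lam μ = fun r => lam μ (-r) + r := funext key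
  refine ⟨S.em, S.nd, by linarith [S.v2lt], by linarith [S.v12], by linarith [S.v1pos], ?_, ?_⟩
  · have h1 : HasDerivWithinAt (fun r : ℝ => -r) (-1) (Set.Iic (-s)) (-s) :=
      (hasDerivWithinAt_id _ _).neg
    have h2 : HasDerivWithinAt (lam μ) v2 (Set.Ici s) (- -s) := by
      rw [neg_neg]; exact S.hr
    have h3 : Set.MapsTo (fun r : ℝ => -r) (Set.Iic (-s)) (Set.Ici s) := by
      intro r hr
      simp only [Set.mem_Iic, Set.mem_Ici] at hr ⊢
      linarith
    have h4 := (h2.comp (-s) h1 h3).add (hasDerivWithinAt_id (-s) (Set.Iic (-s)))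
    rw [hfun]
    exact h4.congr_deriv (by ring)
  · have h1 : HasDerivWithinAt (fun r : ℝ => -r) (-1) (Set.Ici (-s)) (-s) :=
      (hasDerivWithinAt_id _ _).neg
    have h2 : HasDerivWithinAt (lam μ) v1 (Set.Iic s) (- -s) := by
      rw [neg_neg]; exact S.hl
    have h3 : Set.MapsTo (fun r : ℝ => -r) (Set.Ici (-s)) (Set.Iic s) := by
      intro r hr
      simp only [Set.mem_Iic, Set.mem_Ici] at hr ⊢
      linarith
    have h4 := (h2.comp (-s) h1 h3).add (hasDerivWithinAt_id (-s) (Set.Ici (-s)))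
    rw [hfun]
    exact h4.congr_deriv (by ring)

end Pool.Agent.W_7d29a1_F
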