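import Pool.Agent.W_7d29a1_F.Bridge4
import Pool.Agent.W_7d29a1_F.Bridge5

/-!
Far displacements. TASK Bridge6.
-/

namespace Pool.Agent.W_7d29a1_F

open MeasureTheory ProbabilityTheory Filter Topology

variable {μ : Measure ℝ} [IsProbabilityMeasure μ]

private theorem Bridge6_tilt {s v1 v2 : ℝ} (S : Setup μ s v1 v2) {σ : ℝ} (hσ : 0 < σ) :
    ∃ u : ℝ, 0 < u ∧ lam μ (s + u) ≤ lam μ s + u * v2 + u * σ / 2 := by
  have h1 : Tendsto (slope (lam μ) s) (𝓝[Set.Ioi s] s) (𝓝 v2) := by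
    have h2 := S.hr.mono Set.Ioi_subset_Ici_self
    rwa [hasDerivWithinAt_iff_tendsto_slope' (by simp)] at h2
  have h2 : ∀ᶠ x in 𝓝[Set.Ioi s] s, slope (lam μ) s x < v2 + σ / 2 :=
    h1.eventually (gt_mem_nhds (by linarith))
  obtain ⟨x, hx, hxs⟩ := (h2.and self_mem_nhdsWithin).exists
  have hxs' : 0 < x - s := sub_pos.2 hxs
  refine ⟨x - s, hxs', ?_⟩
  rw [slope_def_field, div_lt_iff₀ hxs'] at hx
  have h4 : s + (x - s) = x := by ring
  rw [h4]
  nlinarith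

private theorem Bridge6_le (s u v : ℝ) (hu : 0 ≤ u) (η : Env) (n : ℕ) :
    Fv μ s η 0 n v ≤ Real.exp (n * lam μ (s + u) - n * lam μ s - u * v * n) *
      Real.exp (V μ (s + u) η 0 n) := by
  rw [exp_V]
  unfold Fv WS
  rw [Finset.mul_sum]
  calc ∑ y ∈ (Finset.Icc (0 : ℤ) n).filter (fun y : ℤ => v * n ≤ y), W μ s η 0 n y
      ≤ ∑ y ∈ (Finset.Icc (0 : ℤ) n).filter (fun y : ℤ => v * n ≤ y),
          Real.exp (n * lam μ (s + u) - n * lam μ s - u * v * n) * W μ (s + u) η 0 n y := by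
        refine Finset.sum_le_sum fun y hy => ?_
        have hv := (Finset.mem_filter.1 hy).2
        unfold W WR
        rw [← mul_assoc, ← Real.exp_add]
        refine mul_le_mul_of_nonneg_right (Real.exp_le_exp.2 ?_) (Zr_nonneg _ _ _ _ _)
        nlinarith [mul_le_mul_of_nonneg_left hv hu]
    _ ≤ _ := Finset.sum_le_sum_of_subset_of_nonneg (Finset.filter_subset _ _)
        fun y _ _ => mul_nonneg (Real.exp_pos _).le (W_nonneg _ _ _ _)

private theorem Bridge6_V (r : ℝ) (η : Env) (n : ℕ) :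
    Real.log (∑ y ∈ Finset.Icc (0 : ℤ) n, Real.exp (r * y) * Zr Set.univ η 0 n y) =
      V μ r η 0 n + n * lam μ r := by
  have h1 : ∑ y ∈ Finset.Icc (0 : ℤ) n, Real.exp (r * y) * Zr Set.univ η 0 n y =
      Real.exp (V μ r η 0 n + n * lam μ r) := by
    rw [Real.exp_add, exp_V, mul_comm]
    unfold WS
    rw [Finset.mul_sum]
    refine Finset.sum_congr rfl fun y _ => ?_
    unfold W WR
    rw [← mul_assoc, ← Real.exp_add]
    congr 2
    ring
  rw [h1, Real.log_exp]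

private theorem Bridge6_mom (hμ : Pool.Agent.W_7d29a1_h47.EM μ) (r : ℝ) (n : ℕ) {θ : ℝ}
    (hθ : 0 < θ) (hθ1 : θ ≤ 1) :
    ∫ η, Real.exp (θ * V μ r η 0 n) ∂(law μ) ≤
      Real.exp (Pool.Agent.W_7d29a1_h47.Cc μ * θ ^ 2 * n) := by
  have h1 := conc_logsum hμ n (c := fun y => Real.exp (r * y)) (fun y => (Real.exp_pos _).le)
    ⟨0, le_rfl, by positivity, Real.exp_pos _⟩ (θ := θ) (by rw [abs_of_pos hθ]; exact hθ1)
  have hSub := Sub_V (μ := μ) (s := r) 0 n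
  have hint : Integrable (fun η => V μ r η 0 n) (law μ) := hSub.integrable hμ
  have hmean : ∫ η, (V μ r η 0 n + n * lam μ r) ∂(law μ) =
      ∫ η, V μ r η 0 n ∂(law μ) + n * lam μ r := by
    rw [integral_add hint (integrable_const _)]
    simp
  beta_reduce at h1
  simp only [Bridge6_V (μ := μ)] at h1
  rw [hmean] at h1
  have h2 := integral_V_nonpos hμ r n
  refine le_trans (integral_mono ?_ ?_ fun η => ?_) h1
  · exact (hSub.const_mul θ).exp_int hμ
  · have h3 : Sub fun η => θ * (V μ r η 0 n + n * lam μ r -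
        (∫ η, V μ r η 0 n ∂(law μ) + n * lam μ r)) :=
      ((hSub.add (Sub.const _)).sub (Sub.const _)).const_mul θ
    exact h3.exp_int hμ
  · refine Real.exp_le_exp.2 ?_
    nlinarith

/-- Far displacements are exponentially expensive: the tilt `s + u` with small `u > 0`
(`lam (s + u) ≤ lam s + u v2 + u σ / 2`), `conc_logsum`. -/
theorem far {s v1 v2 : ℝ} (S : Setup μ s v1 v2) {σ : ℝ} (hσ : 0 < σ) :
    ∃ c C : ℝ, 0 < c ∧ ∀ (n : ℕ) (θ : ℝ), 0 < θ → θ ≤ 1 →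
      ∫ η, Fv μ s η 0 n (v2 + σ) ^ θ ∂(law μ) ≤ Real.exp (-c * θ * n + C * θ ^ 2 * n) := by
  obtain ⟨u, hu, hlam⟩ := Bridge6_tilt S hσ
  refine ⟨u * σ / 2, Pool.Agent.W_7d29a1_h47.Cc μ, by positivity, fun n θ hθ hθ1 => ?_⟩
  have hSub := Sub_V (μ := μ) (s := s + u) 0 n
  have hn : (0 : ℝ) ≤ n := Nat.cast_nonneg n
  have hpt : ∀ η, Fv μ s η 0 n (v2 + σ) ^ θ ≤
      Real.exp (-(u * σ / 2) * θ * n) * Real.exp (θ * V μ (s + u) η 0 n) := by
    intro η
    have h0 : 0 ≤ Fv μ s η 0 n (v2 + σ) := WS_nonneg _ _ _ _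
    refine (Real.rpow_le_rpow h0 (Bridge6_le s u (v2 + σ) hu.le η n) hθ.le).trans ?_
    rw [← Real.exp_add, ← Real.exp_mul, ← Real.exp_add]
    refine Real.exp_le_exp.2 ?_
    have h1 : n * lam μ (s + u) - n * lam μ s - u * (v2 + σ) * n ≤ -(u * σ / 2) * n := by
      nlinarith [mul_le_mul_of_nonneg_left hlam hn]
    nlinarith [mul_le_mul_of_nonneg_right h1 hθ.le]
  have hint : Integrable (fun η => Real.exp (-(u * σ / 2) * θ * n) *
      Real.exp (θ * V μ (s + u) η 0 n)) (law μ) :=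
    ((hSub.const_mul θ).exp_int S.em).const_mul _
  calc ∫ η, Fv μ s η 0 n (v2 + σ) ^ θ ∂(law μ)
      ≤ ∫ η, Real.exp (-(u * σ / 2) * θ * n) * Real.exp (θ * V μ (s + u) η 0 n) ∂(law μ) :=
        integral_mono_of_nonneg (ae_of_all _ fun η => Real.rpow_nonneg (WS_nonneg _ _ _ _) _) hint
          (ae_of_all _ hpt)
    _ = Real.exp (-(u * σ / 2) * θ * n) * ∫ η, Real.exp (θ * V μ (s + u) η 0 n) ∂(law μ) :=
        integral_const_mul _ _
    _ ≤ Real.exp (-(u * σ / 2) * θ * n) *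
        Real.exp (Pool.Agent.W_7d29a1_h47.Cc μ * θ ^ 2 * n) :=
        mul_le_mul_of_nonneg_left (Bridge6_mom S.em (s + u) n hθ hθ1) (Real.exp_pos _).le
    _ = Real.exp (-(u * σ / 2) * θ * n + Pool.Agent.W_7d29a1_h47.Cc μ * θ ^ 2 * n) := by
        rw [Real.exp_add]

end Pool.Agent.W_7d29a1_F
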