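import Pool.Agent.W_7d29a1_F.Bridge

/-!
The cone `K0`. TASK Cone1.
-/

namespace Pool.Agent.W_7d29a1_F

open MeasureTheory ProbabilityTheory Filter Topology

variable {μ : Measure ℝ} [IsProbabilityMeasure μ] {s v1 v2 : ℝ}

theorem Setup.dpos (S : Setup μ s v1 v2) : 0 < dd v1 v2 := by
  have := S.v12
  unfold dd
  linarith

theorem K0_zero : K0 v1 v2 0 0 := by
  refine ⟨le_rfl, le_rfl, ?_⟩
  norm_num

theorem K0_mirror {n : ℕ} {y : ℤ} : K0 (1 - v2) (1 - v1) n (n - y) ↔ K0 v1 v2 n y := by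
  have h1 : vc (1 - v2) (1 - v1) = 1 - vc v1 v2 := by unfold vc; ring
  have h2 : dd (1 - v2) (1 - v1) = dd v1 v2 := by unfold dd; ring
  have h3 : |(((n : ℤ) - y : ℤ) : ℝ) - (1 - vc v1 v2) * n| = |(y : ℝ) - vc v1 v2 * n| := by
    rw [← abs_neg]
    congr 1
    push_cast
    ring
  unfold K0
  rw [h1, h2, h3]
  constructor
  · rintro ⟨h4, h5, h6⟩
    exact ⟨by omega, by omega, h6⟩
  · rintro ⟨h4, h5, h6⟩
    exact ⟨by omega, by omega, h6⟩

/-- A displacement of the cone is cut at the times `τ 0 = 0 < τ 1 < ... < τ k = n` along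
`t ↦ ⌊y t / n⌋`, if all pieces have time at most `3 n / 4`. -/
theorem K0_cut {n : ℕ} {y : ℤ} (h : K0 v1 v2 n y) (S : Setup μ s v1 v2) : ∃ x : ℕ → ℤ, x 0 = 0 ∧
    x n = y ∧ (∀ i j : ℕ, i ≤ j → j ≤ n → 0 ≤ x j - x i ∧ x j - x i ≤ j - i) ∧
    ∀ i j : ℕ, i ≤ j → j ≤ n → 4 * (j - i) ≤ 3 * n → K0 v1 v2 (j - i) (x j - x i) := by
  have hd := S.dpos
  obtain ⟨hy0, hyn, hy⟩ := h
  rcases Nat.eq_zero_or_pos n with hn | hn
  · subst hn
    have hy' : y = 0 := le_antisymm (by simpa using hyn) hy0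
    subst hy'
    refine ⟨fun _ => 0, rfl, rfl, fun i j hij hj => ?_, fun i j hij hj _ => ?_⟩
    · have : i = j := by omega
      subst this
      simp
    · have hi : i = 0 := by omega
      have hj' : j = 0 := by omega
      subst hi hj'
      exact K0_zero
  have hnZ : (0 : ℤ) < n := by exact_mod_cast hn
  have hnR : (0 : ℝ) < n := by exact_mod_cast hn
  have hstep : ∀ i j : ℕ, i ≤ j → j ≤ n → 0 ≤ (y * j) / (n : ℤ) - (y * i) / (n : ℤ) ∧
      (y * j) / (n : ℤ) - (y * i) / (n : ℤ) ≤ j - i := by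
    intro i j hij _
    have hijZ : (i : ℤ) ≤ j := by exact_mod_cast hij
    constructor
    · have h1 : (y * i) / (n : ℤ) ≤ (y * j) / (n : ℤ) :=
        Int.ediv_le_ediv hnZ (mul_le_mul_of_nonneg_left hijZ hy0)
      linarith
    · have h1 : y * j ≤ y * i + (j - i) * n := by nlinarith
      have h2 : (y * j) / (n : ℤ) ≤ (y * i + (j - i) * n) / (n : ℤ) := Int.ediv_le_ediv hnZ h1
      rw [Int.add_mul_ediv_right _ _ hnZ.ne'] at h2
      linarith
  refine ⟨fun i => (y * i) / (n : ℤ), by simp, ?_, hstep, fun i j hij hj h4 => ?_⟩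
  · show (y * (n : ℤ)) / (n : ℤ) = y
    exact Int.mul_ediv_cancel y hnZ.ne'
  · obtain ⟨h1, h2⟩ := hstep i j hij hj
    have hfl : ∀ k : ℕ, ((y * k / (n : ℤ) : ℤ) : ℝ) ≤ y * k / n ∧
        (y * k / n : ℝ) < ((y * k / (n : ℤ) : ℤ) : ℝ) + 1 := by
      intro k
      constructor
      · rw [le_div_iff₀ hnR]
        have := Int.ediv_mul_le (y * k) hnZ.ne'
        exact_mod_cast this
      · rw [div_lt_iff₀ hnR]
        have := Int.lt_ediv_add_one_mul_self (y * k) hnZ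
        exact_mod_cast this
    obtain ⟨a1, a2⟩ := hfl i
    obtain ⟨b1, b2⟩ := hfl j
    refine ⟨h1, by push_cast [Nat.cast_sub hij]; exact h2, ?_⟩
    push_cast [Nat.cast_sub hij]
    obtain ⟨c1, c2⟩ := abs_le.1 hy
    obtain ⟨l, hl⟩ : ∃ l : ℝ, l = (j : ℝ) - i := ⟨_, rfl⟩
    have hl0 : 0 ≤ l := by
      have : (i : ℝ) ≤ j := by exact_mod_cast hij
      rw [hl]
      linarith
    have hl4 : 4 * l ≤ 3 * n := by
      have h5 : ((4 * (j - i) : ℕ) : ℝ) ≤ ((3 * n : ℕ) : ℝ) := by exact_mod_cast h4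
      push_cast [Nat.cast_sub hij] at h5
      rw [hl]
      linarith
    have hr : (y : ℝ) * j / n - (y : ℝ) * i / n = y * (l / n) := by
      rw [hl]
      ring
    have hln : l / n ≤ 3 / 4 := by
      rw [div_le_iff₀ hnR]
      linarith
    have hln0 : 0 ≤ l / n := by positivity
    have hl1 : l = n * (l / n) := by field_simp
    obtain ⟨q, hq⟩ : ∃ q : ℝ, q = l / n := ⟨_, rfl⟩
    rw [← hq] at hr hln hln0 hl1
    have e1 := mul_le_mul_of_nonneg_right c1 hln0
    have e2 := mul_le_mul_of_nonneg_right c2 hln0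
    rw [← hl, abs_le]
    have e3 : vc v1 v2 * n * q = vc v1 v2 * l := by rw [hl1]; ring
    have e4 : 17 * dd v1 v2 * n * q = 17 * dd v1 v2 * l := by rw [hl1]; ring
    constructor <;> nlinarith

/-- `K0` contains the points at distance at most `17 d n` from the centre. -/
theorem K0_of_abs (S : Setup μ s v1 v2) {n : ℕ} {y : ℤ}
    (h : |(y : ℝ) - vc v1 v2 * n| ≤ 17 * dd v1 v2 * n) : K0 v1 v2 n y := by
  have hd := S.dpos
  have h1 := S.v1pos
  have h2 := S.v2lt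
  obtain ⟨c1, c2⟩ := abs_le.1 h
  have hn : (0 : ℝ) ≤ n := Nat.cast_nonneg n
  have e1 : vc v1 v2 = v1 + 20 * dd v1 v2 := by unfold vc dd; ring
  have e2 : vc v1 v2 = v2 - 20 * dd v1 v2 := by unfold vc dd; ring
  have hdn : 0 ≤ dd v1 v2 * n := by positivity
  refine ⟨?_, ?_, by linarith⟩
  · have : (0 : ℝ) ≤ y := by
      rw [e1] at c1
      have : 0 ≤ v1 * n := by positivity
      nlinarith
    exact_mod_cast this
  · have : (y : ℝ) ≤ n := by
      rw [e2] at c2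
      have : v2 * n ≤ 1 * n := mul_le_mul_of_nonneg_right h2.le hn
      nlinarith
    exact_mod_cast this

end Pool.Agent.W_7d29a1_F
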