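import Pool.Agent.W_7d29a1_F.Cone1

/-!
The maximal cost `E`. TASK Cone2.
-/

namespace Pool.Agent.W_7d29a1_F

open MeasureTheory ProbabilityTheory Filter Topology

variable {μ : Measure ℝ} [IsProbabilityMeasure μ] {s v1 v2 : ℝ}

theorem e_le_E (S : Setup μ s v1 v2) {n t : ℕ} {y : ℤ} (h : K0 v1 v2 t y) (ht : t ≤ n) :
    e μ s t y ≤ E μ s v1 v2 n - 1 := by
  have hb : BddAbove {r | ∃ (t : ℕ) (y : ℤ), t ≤ n ∧ K0 v1 v2 t y ∧ r = e μ s t y} := by
    obtain ⟨C, hC, h1⟩ := e_le_linear S.em s
    refine ⟨C * n, ?_⟩
    rintro r ⟨t, y, ht, hK, rfl⟩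
    refine (h1 t y hK.1 hK.2.1).trans ?_
    have : (t : ℝ) ≤ n := by exact_mod_cast ht
    exact mul_le_mul_of_nonneg_left this hC.le
  have h2 := le_csSup hb ⟨t, y, ht, h, rfl⟩
  unfold E
  linarith

theorem E_le {n : ℕ} {c : ℝ} (h : ∀ (t : ℕ) (y : ℤ), t ≤ n → K0 v1 v2 t y → e μ s t y ≤ c) :
    E μ s v1 v2 n ≤ 1 + c := by
  unfold E
  have h1 : sSup {r | ∃ (t : ℕ) (y : ℤ), t ≤ n ∧ K0 v1 v2 t y ∧ r = e μ s t y} ≤ c := by
    apply csSup_le
    · exact ⟨_, 0, 0, Nat.zero_le n, K0_zero, rfl⟩
    · rintro r ⟨t, y, ht, hK, rfl⟩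
      exact h t y ht hK
  linarith

theorem one_le_E (S : Setup μ s v1 v2) (n : ℕ) : 1 ≤ E μ s v1 v2 n := by
  have h := e_le_E S (K0_zero (v1 := v1) (v2 := v2)) (Nat.zero_le n)
  rw [e_zero] at h
  linarith

theorem E_mono (S : Setup μ s v1 v2) : Monotone (E μ s v1 v2) := by
  intro m n hmn
  have h := E_le (μ := μ) (s := s) (v1 := v1) (v2 := v2) (n := m) (c := E μ s v1 v2 n - 1)
    (fun t y ht hK => e_le_E S hK (ht.trans hmn))
  linarith

/-- `E (k n) ≤ k E n`. -/
theorem E_mul (S : Setup μ s v1 v2) (k n : ℕ) (hk : 1 ≤ k) :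
    E μ s v1 v2 (k * n) ≤ k * E μ s v1 v2 n := by
  have hE := one_le_E S n
  have hk1 : (1 : ℝ) ≤ k := by exact_mod_cast hk
  have key : ∀ (t : ℕ) (y : ℤ), t ≤ k * n → K0 v1 v2 t y →
      e μ s t y ≤ k * E μ s v1 v2 n - 1 := by
    intro t y ht hK
    rcases Nat.lt_or_ge n t with hnt | hnt
    · -- `n < t`: cut into `k` pieces
      have hk2 : 2 ≤ k := by
        by_contra hcon
        have : k = 1 := by omega
        subst this
        omega
      have hn1 : 1 ≤ n := by
        by_contra hcon
        have : n = 0 := by omega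
        subst this
        omega
      have ht2 : 2 ≤ t := by omega
      obtain ⟨x, hx0, hxn, hx1, hx2⟩ := K0_cut hK S
      have hτ0 : ∀ j, j * t / k ≤ (j + 1) * t / k := fun j =>
        Nat.div_le_div_right (Nat.mul_le_mul_right t (Nat.le_succ j))
      have hkpos : 0 < k := by omega
      have hτt : ∀ j, j ≤ k → j * t / k ≤ t := by
        intro j hj
        calc j * t / k ≤ k * t / k := Nat.div_le_div_right (Nat.mul_le_mul_right t hj)
          _ = t := Nat.mul_div_cancel_left t hkpos
      have hlen : ∀ j q : ℕ, t ≤ k * q → (j + 1) * t / k - j * t / k ≤ q := by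
        intro j q hq
        have h1 : j * t < k * (j * t / k + 1) := by
          have := Nat.lt_mul_div_succ (j * t) hkpos
          exact this
        have h2 : (j + 1) * t < k * (j * t / k + q + 1) := by
          calc (j + 1) * t = j * t + t := by ring
            _ < k * (j * t / k + 1) + k * q := by omega
            _ = k * (j * t / k + q + 1) := by ring
        have h3 : (j + 1) * t / k < j * t / k + q + 1 := by
          rw [Nat.div_lt_iff_lt_mul hkpos]
          calc (j + 1) * t < k * (j * t / k + q + 1) := h2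
            _ = (j * t / k + q + 1) * k := by ring
        omega
      have hstep : ∀ j, j ≤ k → e μ s (j * t / k) (x (j * t / k)) ≤
          j * (E μ s v1 v2 n - 1) := by
        intro j
        induction j with
        | zero =>
          intro _
          simp only [Nat.zero_div, hx0, e_zero, Nat.cast_zero, zero_mul, le_refl]
        | succ j ih =>
          intro hj
          have h1 := ih (by omega)
          have hjt := hτ0 j
          have hjt' := hτt (j + 1) hj
          have hjt0 := hτt j (by omega)
          have hA := hx1 0 (j * t / k) (Nat.zero_le _) hjt0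
          have hB := hx1 (j * t / k) ((j + 1) * t / k) hjt hjt'
          rw [hx0] at hA
          have hl1 := hlen j n ht
          have hl2 := hlen j ((t + 1) / 2) (by
            calc t ≤ 2 * ((t + 1) / 2) := by omega
              _ ≤ k * ((t + 1) / 2) := Nat.mul_le_mul_right _ hk2)
          have hK2 := hx2 (j * t / k) ((j + 1) * t / k) hjt hjt' (by omega)
          have h2 := e_le_E S hK2 hl1
          have h3 := e_add_le (μ := μ) (s := s) S.em (m := j * t / k)
            (n := (j + 1) * t / k - j * t / k) (k := x (j * t / k))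
            (y := x ((j + 1) * t / k) - x (j * t / k)) (by
              have := hA.1
              omega) (by
              have := hA.2
              push_cast at this ⊢
              omega) (by
              have := hB.1
              omega) (by
              have := hB.2
              rw [Nat.cast_sub hjt]
              exact this)
          rw [Nat.add_sub_cancel' hjt, add_sub_cancel] at h3
          push_cast
          linarith
      have h4 := hstep k le_rfl
      rw [Nat.mul_div_cancel_left t hkpos, hxn] at h4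
      nlinarith
    · have h1 := e_le_E S hK hnt
      nlinarith
  have h := E_le (μ := μ) (s := s) (v1 := v1) (v2 := v2) (n := k * n) key
  linarith

theorem E_two_mul (S : Setup μ s v1 v2) (n : ℕ) : E μ s v1 v2 (2 * n) ≤ 2 * E μ s v1 v2 n := by
  have h := E_mul S 2 n (by norm_num)
  exact_mod_cast h

theorem E_mirror (S : Setup μ s v1 v2) (n : ℕ) :
    E μ (-s) (1 - v2) (1 - v1) n = E μ s v1 v2 n := by
  have hl := lam_neg S.em s
  unfold E
  congr 2
  ext r
  constructor
  · rintro ⟨t, y, ht, hK, rfl⟩
    refine ⟨t, t - y, ht, ?_, ?_⟩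
    · rw [← K0_mirror, sub_sub_cancel]
      exact hK
    · rw [← e_mirror hl, sub_sub_cancel]
  · rintro ⟨t, y, ht, hK, rfl⟩
    exact ⟨t, t - y, ht, K0_mirror.2 hK, (e_mirror hl t y).symm⟩

end Pool.Agent.W_7d29a1_F
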