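import Pool.Agent.W_7d29a1_F.Cone2

/-!
The maximal cost `E`, continued. TASK Cone3.
-/

namespace Pool.Agent.W_7d29a1_F

open MeasureTheory ProbabilityTheory Filter Topology

variable {μ : Measure ℝ} [IsProbabilityMeasure μ] {s v1 v2 : ℝ}

theorem E_upper (S : Setup μ s v1 v2) : ∃ C : ℝ, ∀ n : ℕ, 1 ≤ n →
    E μ s v1 v2 n ≤ C * (n : ℝ) ^ (4 / 5 : ℝ) := by
  have hd := S.dpos
  have e1 : vc v1 v2 = v1 + 20 * dd v1 v2 := by unfold vc dd; ring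
  have e2 : vc v1 v2 = v2 - 20 * dd v1 v2 := by unfold vc dd; ring
  obtain ⟨C1, hC1⟩ := apriori S (w1 := vc v1 v2 - 18 * dd v1 v2) (w2 := vc v1 v2 + 18 * dd v1 v2)
    (by linarith) (by linarith)
  obtain ⟨C2, hC2, h2⟩ := e_le_linear S.em s
  obtain ⟨D, hD⟩ : ∃ D : ℝ, D = 4 / dd v1 v2 := ⟨_, rfl⟩
  have hD0 : 0 < D := by rw [hD]; positivity
  refine ⟨1 + (|C1| + C2 * D), fun n hn => ?_⟩
  have hn1 : (1 : ℝ) ≤ n := by exact_mod_cast hn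
  have hp : (1 : ℝ) ≤ (n : ℝ) ^ (4 / 5 : ℝ) := Real.one_le_rpow hn1 (by norm_num)
  have key : ∀ (t : ℕ) (y : ℤ), t ≤ n → K0 v1 v2 t y →
      e μ s t y ≤ (|C1| + C2 * D) * (n : ℝ) ^ (4 / 5 : ℝ) := by
    intro t y ht hK
    have htn : (t : ℝ) ≤ n := by exact_mod_cast ht
    have ht0 : (0 : ℝ) ≤ t := Nat.cast_nonneg t
    rcases le_total (t : ℝ) D with h | h
    · have h3 := h2 t y hK.1 hK.2.1
      have h4 : C2 * (t : ℝ) ≤ C2 * D := mul_le_mul_of_nonneg_left h hC2.le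
      have h5 : (|C1| + C2 * D) * 1 ≤ (|C1| + C2 * D) * (n : ℝ) ^ (4 / 5 : ℝ) :=
        mul_le_mul_of_nonneg_left hp (by positivity)
      have h6 := abs_nonneg C1
      linarith
    · have h3 : 4 ≤ dd v1 v2 * t := by
        rw [hD, div_le_iff₀ hd] at h
        linarith
      obtain ⟨h4, h5⟩ := abs_le.1 hK.2.2
      have h6 := hC1 t y (by nlinarith) (by nlinarith)
      have h7 : (t : ℝ) ^ (4 / 5 : ℝ) ≤ (n : ℝ) ^ (4 / 5 : ℝ) :=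
        Real.rpow_le_rpow ht0 htn (by norm_num)
      have h8 : C1 * (t : ℝ) ^ (4 / 5 : ℝ) ≤ |C1| * (n : ℝ) ^ (4 / 5 : ℝ) :=
        mul_le_mul (le_abs_self _) h7 (by positivity) (abs_nonneg _)
      have h9 : 0 ≤ C2 * D * (n : ℝ) ^ (4 / 5 : ℝ) := by positivity
      nlinarith
  have h := E_le (μ := μ) (s := s) (v1 := v1) (v2 := v2) (n := n) key
  nlinarith

/-- The maximum of the costs at time `t` is attained at the extreme points of the cone. -/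
theorem K0_extreme (S : Setup μ s v1 v2) {t : ℕ} {y : ℤ} (h : K0 v1 v2 t y) :
    ∃ y1 y2 : ℤ, K0 v1 v2 t y1 ∧ ¬ K0 v1 v2 t (y1 - 1) ∧ K0 v1 v2 t y2 ∧ ¬ K0 v1 v2 t (y2 + 1) ∧
      e μ s t y ≤ max (e μ s t y1) (e μ s t y2) := by
  obtain ⟨y1, h1, h1'⟩ := Int.exists_least_of_bdd (P := fun z => K0 v1 v2 t z)
    ⟨0, fun z hz => hz.1⟩ ⟨y, h⟩
  obtain ⟨y2, h2, h2'⟩ := Int.exists_greatest_of_bdd (P := fun z => K0 v1 v2 t z)
    ⟨(t : ℤ), fun z hz => hz.2.1⟩ ⟨y, h⟩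
  refine ⟨y1, y2, h1, fun h3 => ?_, h2, fun h3 => ?_, ?_⟩
  · have := h1' _ h3
    omega
  · have := h2' _ h3
    omega
  · exact e_le_max S.em h1.1 (h1' y h) (h2' y h) h2.2.1

end Pool.Agent.W_7d29a1_F
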