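import Pool.Agent.W_7d29a1_F.Cone3

/-!
The supremum `Bh`. TASK Cone4.
-/

namespace Pool.Agent.W_7d29a1_F

open MeasureTheory ProbabilityTheory Filter Topology

variable {μ : Measure ℝ} [IsProbabilityMeasure μ] {s v1 v2 : ℝ}

/-- The supremum in `Bh` is finite, `Bh` is nondecreasing on `n ≥ 1`, `E n ≤ Bh n`, and
`Bh n ≤ (n / m) ^ (7 / 8) Bh m` for `1 ≤ m ≤ n`. -/
theorem Bh_facts (S : Setup μ s v1 v2) :
    (∀ n : ℕ, 1 ≤ n → E μ s v1 v2 n ≤ Bh μ s v1 v2 n) ∧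
    (∀ m n : ℕ, 1 ≤ m → m ≤ n → Bh μ s v1 v2 m ≤ Bh μ s v1 v2 n) ∧
    (∀ m n : ℕ, 1 ≤ m → m ≤ n →
      Bh μ s v1 v2 n ≤ ((n : ℝ) / m) ^ (7 / 8 : ℝ) * Bh μ s v1 v2 m) ∧
    ∃ C : ℝ, ∀ n : ℕ, 1 ≤ n → Bh μ s v1 v2 n ≤ C * (n : ℝ) ^ (7 / 8 : ℝ) := by
  obtain ⟨C, hC⟩ := E_upper S
  have hE1 : ∀ n, 1 ≤ E μ s v1 v2 n := fun n => one_le_E S n
  -- the bound of the members of the set
  have key : ∀ n m : ℕ, 1 ≤ n → n ≤ m → ((n : ℝ) / m) ^ (7 / 8 : ℝ) * E μ s v1 v2 m ≤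
      |C| * (n : ℝ) ^ (7 / 8 : ℝ) := by
    intro n m hn hnm
    have hn1 : (1 : ℝ) ≤ n := by exact_mod_cast hn
    have hm1 : (1 : ℝ) ≤ m := by exact_mod_cast hn.trans hnm
    have h1 := hC m (hn.trans hnm)
    have h2 : E μ s v1 v2 m ≤ |C| * (m : ℝ) ^ (7 / 8 : ℝ) := by
      refine h1.trans ?_
      have h3 : (m : ℝ) ^ (4 / 5 : ℝ) ≤ (m : ℝ) ^ (7 / 8 : ℝ) :=
        Real.rpow_le_rpow_of_exponent_le hm1 (by norm_num)
      exact mul_le_mul (le_abs_self C) h3 (by positivity) (abs_nonneg C)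
    rw [Real.div_rpow (by positivity) (by positivity)]
    have hmp : 0 < (m : ℝ) ^ (7 / 8 : ℝ) := by positivity
    calc (n : ℝ) ^ (7 / 8 : ℝ) / (m : ℝ) ^ (7 / 8 : ℝ) * E μ s v1 v2 m
        ≤ (n : ℝ) ^ (7 / 8 : ℝ) / (m : ℝ) ^ (7 / 8 : ℝ) * (|C| * (m : ℝ) ^ (7 / 8 : ℝ)) :=
          mul_le_mul_of_nonneg_left h2 (by positivity)
      _ = |C| * (n : ℝ) ^ (7 / 8 : ℝ) := by field_simp
  have hb : ∀ n : ℕ, 1 ≤ n →
      BddAbove {r | ∃ m : ℕ, n ≤ m ∧ r = ((n : ℝ) / m) ^ (7 / 8 : ℝ) * E μ s v1 v2 m} := by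
    intro n hn
    refine ⟨|C| * (n : ℝ) ^ (7 / 8 : ℝ), ?_⟩
    rintro r ⟨m, hm, rfl⟩
    exact key n m hn hm
  have hle : ∀ n m : ℕ, 1 ≤ n → n ≤ m →
      ((n : ℝ) / m) ^ (7 / 8 : ℝ) * E μ s v1 v2 m ≤ Bh μ s v1 v2 n := by
    intro n m hn hm
    exact le_csSup (hb n hn) ⟨m, hm, rfl⟩
  have hsup : ∀ (n : ℕ) (c : ℝ),
      (∀ m : ℕ, n ≤ m → ((n : ℝ) / m) ^ (7 / 8 : ℝ) * E μ s v1 v2 m ≤ c) → Bh μ s v1 v2 n ≤ c := by
    intro n c h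
    refine csSup_le ⟨_, n, le_rfl, rfl⟩ ?_
    rintro r ⟨m, hm, rfl⟩
    exact h m hm
  have hE : ∀ n : ℕ, 1 ≤ n → E μ s v1 v2 n ≤ Bh μ s v1 v2 n := by
    intro n hn
    have h := hle n n hn le_rfl
    have hn0 : (n : ℝ) ≠ 0 := by
      have : (1 : ℝ) ≤ n := by exact_mod_cast hn
      positivity
    rwa [div_self hn0, Real.one_rpow, one_mul] at h
  refine ⟨hE, fun m n hm hmn => ?_, fun m n hm hmn => ?_, |C|, fun n hn => ?_⟩
  · have hm1 : (1 : ℝ) ≤ m := by exact_mod_cast hm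
    have hmn1 : (m : ℝ) ≤ n := by exact_mod_cast hmn
    refine hsup m _ fun k hk => ?_
    have hk1 : (m : ℝ) ≤ k := by exact_mod_cast hk
    have hEk := hE1 k
    rcases le_total n k with h | h
    · refine le_trans ?_ (hle n k (hm.trans hmn) h)
      refine mul_le_mul_of_nonneg_right ?_ (by linarith)
      exact Real.rpow_le_rpow (by positivity) (by gcongr) (by norm_num)
    · refine le_trans ?_ ((E_mono S h).trans (hE n (hm.trans hmn)))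
      have h1 : ((m : ℝ) / k) ^ (7 / 8 : ℝ) ≤ 1 :=
        Real.rpow_le_one (by positivity) (by rw [div_le_one (by linarith)]; exact hk1) (by norm_num)
      nlinarith
  · have hm1 : (1 : ℝ) ≤ m := by exact_mod_cast hm
    have hmn1 : (m : ℝ) ≤ n := by exact_mod_cast hmn
    refine hsup n _ fun k hk => ?_
    have hk1 : (n : ℝ) ≤ k := by exact_mod_cast hk
    have h1 := hle m k hm (hmn.trans hk)
    have h2 : ((n : ℝ) / k) ^ (7 / 8 : ℝ) = ((n : ℝ) / m) ^ (7 / 8 : ℝ) * ((m : ℝ) / k) ^ (7 / 8 : ℝ) := by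
      rw [← Real.mul_rpow (by positivity) (by positivity)]
      congr 1
      field_simp
    rw [h2, mul_assoc]
    exact mul_le_mul_of_nonneg_left h1 (by positivity)
  · exact hsup n _ fun k hk => key n k hn hk

end Pool.Agent.W_7d29a1_F
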