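import Pool.Agent.W_7d29a1_F.CoreA1

/-!
Partition functions `Zr`: dependence, measurability. TASK CoreA2.
-/

namespace Pool.Agent.W_7d29a1_F

open MeasureTheory ProbabilityTheory Filter Topology

/-- The partition function depends only on the sites of `R` in the cone. -/
theorem Zr_dep (R : Set Pt) (a : Pt) (n : ℕ) (y : ℤ) :
    DependsOn (fun η : Env => Zr R η a n y) (cone a n y ∩ R) := by
  induction n generalizing y with
  | zero =>
    intro η η' _
    rfl
  | succ n ih =>
    intro η η' h
    by_cases hy : 0 ≤ y ∧ y ≤ ((n + 1 : ℕ) : ℤ)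
    · have h1 : Zr R η a n y = Zr R η' a n y := by
        refine ih y ?_
        intro p hp
        refine h p ⟨?_, hp.2⟩
        obtain ⟨⟨c1, c2, c3, c4, c5, c6⟩, -⟩ := hp
        refine ⟨c1, ?_, c3, c4, c5, ?_⟩
        · push_cast
          omega
        · push_cast
          omega
      have h2 : Zr R η a n (y - 1) = Zr R η' a n (y - 1) := by
        refine ih (y - 1) ?_
        intro p hp
        refine h p ⟨?_, hp.2⟩
        obtain ⟨⟨c1, c2, c3, c4, c5, c6⟩, -⟩ := hp
        refine ⟨c1, ?_, c3, c4, ?_, ?_⟩
        · push_cast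
          omega
        · omega
        · push_cast
          omega
      have h3 : R.indicator (fun p => Real.exp (η p)) (a.1 + (n + 1), a.2 + y) =
          R.indicator (fun p => Real.exp (η' p)) (a.1 + (n + 1), a.2 + y) := by
        by_cases hR : ((a.1 + (n + 1), a.2 + y) : Pt) ∈ R
        · rw [Set.indicator_of_mem hR, Set.indicator_of_mem hR]
          rw [h (a.1 + (n + 1), a.2 + y) ⟨?_, hR⟩]
          obtain ⟨hy0, hy1⟩ := hy
          push_cast at hy1
          refine ⟨?_, ?_, ?_, ?_, ?_, ?_⟩
          · show a.1 < a.1 + ((n : ℤ) + 1)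
            omega
          · show a.1 + ((n : ℤ) + 1) ≤ a.1 + ((n + 1 : ℕ) : ℤ)
            push_cast
            omega
          · show a.2 ≤ a.2 + y
            omega
          · show a.2 + y - a.2 ≤ a.1 + ((n : ℤ) + 1) - a.1
            omega
          · show a.2 + y ≤ a.2 + y
            omega
          · show a.2 + y - (a.2 + y) ≤ a.1 + ((n + 1 : ℕ) : ℤ) - (a.1 + ((n : ℤ) + 1))
            push_cast
            omega
        · rw [Set.indicator_of_notMem hR, Set.indicator_of_notMem hR]
      show R.indicator (fun p => Real.exp (η p)) (a.1 + (n + 1), a.2 + y) *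
        (Zr R η a n y + Zr R η a n (y - 1)) =
        R.indicator (fun p => Real.exp (η' p)) (a.1 + (n + 1), a.2 + y) *
        (Zr R η' a n y + Zr R η' a n (y - 1))
      rw [h1, h2, h3]
    · show Zr R η a (n + 1) y = Zr R η' a (n + 1) y
      rw [Zr_eq_zero R η a hy, Zr_eq_zero R η' a hy]

theorem measurable_Zr (R : Set Pt) (a : Pt) (n : ℕ) (y : ℤ) :
    Measurable fun η : Env => Zr R η a n y := by
  induction n generalizing y with
  | zero => exact measurable_const
  | succ n ih =>
    have h3 : Measurable fun η : Env =>
        R.indicator (fun p => Real.exp (η p)) (a.1 + ((n : ℤ) + 1), a.2 + y) := by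
      by_cases hR : ((a.1 + ((n : ℤ) + 1), a.2 + y) : Pt) ∈ R
      · have e1 : (fun η : Env => R.indicator (fun p => Real.exp (η p)) (a.1 + ((n : ℤ) + 1), a.2 + y)) =
            fun η : Env => Real.exp (η (a.1 + ((n : ℤ) + 1), a.2 + y)) := by
          funext η
          exact Set.indicator_of_mem hR _
        rw [e1]
        exact Real.measurable_exp.comp (measurable_pi_apply _)
      · have e1 : (fun η : Env => R.indicator (fun p => Real.exp (η p)) (a.1 + ((n : ℤ) + 1), a.2 + y)) =
            fun _ : Env => (0 : ℝ) := by
          funext η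
          exact Set.indicator_of_notMem hR _
        rw [e1]
        exact measurable_const
    exact h3.mul ((ih y).add (ih (y - 1)))

end Pool.Agent.W_7d29a1_F
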