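import Pool.Agent.W_7d29a1_F.CoreA1

/-!
Partition functions `Zr`: total positivity. TASK CoreA3.
-/

namespace Pool.Agent.W_7d29a1_F

open MeasureTheory ProbabilityTheory Filter Topology

/-- Total positivity (`y`, `y'` are the end positions). Induction on `n`: with
`D (y, y') = Z(x, y) Z(x', y') - Z(x, y') Z(x', y)`, for `y < y'` the recursion gives
`D_(n+1) (y, y') = w w' (D(y, y') + D(y, y'-1) + D(y-1, y') + D(y-1, y'-1))`, all with `y ≤ y'-1`; for
`y = y'` it is `0`. -/
theorem Zr_tp2 (R : Set Pt) (η : Env) (t x x' : ℤ) (n : ℕ) (y y' : ℤ) (hx : x ≤ x') (hy : y ≤ y') :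
    Zr R η (t, x) n (y' - x) * Zr R η (t, x') n (y - x') ≤
      Zr R η (t, x) n (y - x) * Zr R η (t, x') n (y' - x') := by
  induction n generalizing y y' with
  | zero =>
    simp only [Zr]
    by_cases h1 : y' - x = 0
    · by_cases h2 : y - x' = 0
      · have h3 : y - x = 0 := by omega
        have h4 : y' - x' = 0 := by omega
        rw [if_pos h1, if_pos h2, if_pos h3, if_pos h4]
      · rw [if_neg h2, mul_zero]
        split_ifs <;> norm_num
    · rw [if_neg h1, zero_mul]
      split_ifs <;> norm_num
  | succ n ih =>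
    rcases hy.eq_or_lt with h | h
    · subst h
      exact le_rfl
    · have e : ∀ (z u : ℤ), Zr R η (t, z) (n + 1) (u - z) =
          R.indicator (fun p => Real.exp (η p)) (t + (n + 1), u) *
            (Zr R η (t, z) n (u - z) + Zr R η (t, z) n (u - 1 - z)) := by
        intro z u
        have h1 : ((t, z) : Pt).2 + (u - z) = u := by
          simp only
          ring
        have h2 : u - z - 1 = u - 1 - z := by ring
        rw [Zr, h1, h2]
      rw [e x y', e x' y, e x y, e x' y']
      have hw : ∀ u : ℤ, 0 ≤ R.indicator (fun p => Real.exp (η p)) (t + ((n : ℤ) + 1), u) := fun u =>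
        Set.indicator_nonneg (fun _ _ => (Real.exp_pos _).le) _
      have hww := mul_nonneg (hw y) (hw y')
      have d1 := ih y y' hy
      have d2 := ih y (y' - 1) (by omega)
      have d3 := ih (y - 1) y' (by omega)
      have d4 := ih (y - 1) (y' - 1) (by omega)
      have hs : 0 ≤ (Zr R η (t, x) n (y - x) + Zr R η (t, x) n (y - 1 - x)) *
          (Zr R η (t, x') n (y' - x') + Zr R η (t, x') n (y' - 1 - x')) -
          (Zr R η (t, x) n (y' - x) + Zr R η (t, x) n (y' - 1 - x)) *
          (Zr R η (t, x') n (y - x') + Zr R η (t, x') n (y - 1 - x')) := by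
        linarith
      have hm := mul_nonneg hww hs
      linarith

end Pool.Agent.W_7d29a1_F
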