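import Pool.Agent.W_7d29a1_F.Defs

/-!
Partition functions `Zr`: basic facts. TASK CoreA1.
-/

namespace Pool.Agent.W_7d29a1_F

open MeasureTheory ProbabilityTheory Filter Topology

private theorem CoreA1_zero (R : Set Pt) (η : Env) (a : Pt) (y : ℤ) :
    Zr R η a 0 y = if y = 0 then 1 else 0 := rfl

private theorem CoreA1_succ (R : Set Pt) (η : Env) (a : Pt) (n : ℕ) (y : ℤ) :
    Zr R η a (n + 1) y = R.indicator (fun p => Real.exp (η p)) (a.1 + (n + 1), a.2 + y) *
      (Zr R η a n y + Zr R η a n (y - 1)) := rfl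

private theorem CoreA1_ind_nonneg (R : Set Pt) (η : Env) (p : Pt) :
    0 ≤ R.indicator (fun p => Real.exp (η p)) p :=
  Set.indicator_nonneg (fun _ _ => (Real.exp_pos _).le) p

theorem Zr_nonneg (R : Set Pt) (η : Env) (a : Pt) (n : ℕ) (y : ℤ) : 0 ≤ Zr R η a n y := by
  induction n generalizing y with
  | zero =>
    rw [CoreA1_zero]
    split_ifs
    · exact zero_le_one
    · exact le_rfl
  | succ n ih =>
    rw [CoreA1_succ]
    exact mul_nonneg (CoreA1_ind_nonneg R η _) (add_nonneg (ih y) (ih (y - 1)))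

theorem Zr_eq_zero (R : Set Pt) (η : Env) (a : Pt) {n : ℕ} {y : ℤ} (h : ¬ (0 ≤ y ∧ y ≤ n)) :
    Zr R η a n y = 0 := by
  induction n generalizing y with
  | zero =>
    rw [CoreA1_zero, if_neg]
    intro h0
    apply h
    rw [h0]
    simp
  | succ n ih =>
    rw [CoreA1_succ, ih, ih, add_zero, mul_zero]
    · intro h'
      apply h
      push_cast
      omega
    · intro h'
      apply h
      push_cast
      omega

theorem Zr_pos (η : Env) (a : Pt) {n : ℕ} {y : ℤ} (h0 : 0 ≤ y) (h1 : y ≤ n) :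
    0 < Zr Set.univ η a n y := by
  induction n generalizing y with
  | zero =>
    have hy : y = 0 := by
      push_cast at h1
      omega
    rw [CoreA1_zero, if_pos hy]
    exact zero_lt_one
  | succ n ih =>
    rw [CoreA1_succ, Set.indicator_univ]
    refine mul_pos (Real.exp_pos _) ?_
    push_cast at h1
    by_cases hy : y ≤ n
    · exact add_pos_of_pos_of_nonneg (ih h0 hy) (Zr_nonneg _ _ _ _ _)
    · exact add_pos_of_nonneg_of_pos (Zr_nonneg _ _ _ _ _) (ih (by omega) (by omega))

theorem Zr_mono {R R' : Set Pt} (h : R ⊆ R') (η : Env) (a : Pt) (n : ℕ) (y : ℤ) :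
    Zr R η a n y ≤ Zr R' η a n y := by
  induction n generalizing y with
  | zero => rw [CoreA1_zero, CoreA1_zero]
  | succ n ih =>
    rw [CoreA1_succ, CoreA1_succ]
    refine mul_le_mul ?_ (add_le_add (ih y) (ih (y - 1)))
      (add_nonneg (Zr_nonneg _ _ _ _ _) (Zr_nonneg _ _ _ _ _)) (CoreA1_ind_nonneg _ _ _)
    exact Set.indicator_le_indicator_of_subset h (fun _ => (Real.exp_pos _).le) _

/-- Chapman-Kolmogorov (induction on `n`). -/
theorem Zr_add (R : Set Pt) (η : Env) (a : Pt) (m n : ℕ) (y : ℤ) :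
    Zr R η a (m + n) y =
      ∑ k ∈ Finset.Icc (0 : ℤ) m, Zr R η a m k * Zr R η (a.1 + m, a.2 + k) n (y - k) := by
  induction n generalizing y with
  | zero =>
    rw [Nat.add_zero]
    by_cases hy : y ∈ Finset.Icc (0 : ℤ) m
    · rw [Finset.sum_eq_single_of_mem y hy]
      · rw [CoreA1_zero, if_pos (sub_self y), mul_one]
      · intro k _ hk
        rw [CoreA1_zero, if_neg, mul_zero]
        intro h'
        exact hk (by omega)
    · rw [Finset.sum_eq_zero]
      · refine Zr_eq_zero R η a ?_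
        rwa [Finset.mem_Icc] at hy
      · intro k hk
        rw [CoreA1_zero, if_neg, mul_zero]
        intro h'
        apply hy
        have : y = k := by omega
        rw [this]
        exact hk
  | succ n ih =>
    rw [← Nat.add_assoc, CoreA1_succ, ih y, ih (y - 1), ← Finset.sum_add_distrib, Finset.mul_sum]
    refine Finset.sum_congr rfl fun k _ => ?_
    rw [CoreA1_succ]
    have e1 : a.1 + (((m + n : ℕ) : ℤ) + 1) = a.1 + (m : ℤ) + ((n : ℤ) + 1) := by
      push_cast
      ring
    have e2 : a.2 + y = a.2 + k + (y - k) := by ring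
    have e3 : y - 1 - k = y - k - 1 := by ring
    rw [e1, e3]
    rw [← e2]
    ring

/-- Shifts. -/
theorem Zr_sh (R : Set Pt) (η : Env) (a c : Pt) (n : ℕ) (y : ℤ) :
    Zr {p | p + c ∈ R} (sh c η) a n y = Zr R η (a + c) n y := by
  induction n generalizing y with
  | zero => rw [CoreA1_zero, CoreA1_zero]
  | succ n ih =>
    rw [CoreA1_succ, CoreA1_succ, ih y, ih (y - 1)]
    congr 1
    have e1 : ((a.1 + ((n : ℤ) + 1), a.2 + y) : Pt) + c =
        ((a + c).1 + ((n : ℤ) + 1), (a + c).2 + y) := by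
      refine Prod.ext ?_ ?_
      · simp only [Prod.fst_add]
        ring
      · simp only [Prod.snd_add]
        ring
    rw [← e1]
    by_cases hp : ((a.1 + ((n : ℤ) + 1), a.2 + y) : Pt) + c ∈ R
    · rw [Set.indicator_of_mem hp, Set.indicator_of_mem (s := {p : Pt | p + c ∈ R}) hp]
      rfl
    · rw [Set.indicator_of_notMem hp, Set.indicator_of_notMem (s := {p : Pt | p + c ∈ R}) hp]

theorem Zr_sh_univ (η : Env) (a c : Pt) (n : ℕ) (y : ℤ) :
    Zr Set.univ (sh c η) a n y = Zr Set.univ η (a + c) n y := by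
  have h := Zr_sh Set.univ η a c n y
  simpa using h

/-- The sites which can be used by the paths from `a` to `a + (n, y)`. -/
def cone (a : Pt) (n : ℕ) (y : ℤ) : Set Pt :=
  {p | a.1 < p.1 ∧ p.1 ≤ a.1 + n ∧ a.2 ≤ p.2 ∧ p.2 - a.2 ≤ p.1 - a.1 ∧ p.2 ≤ a.2 + y ∧
    a.2 + y - p.2 ≤ a.1 + n - p.1}

end Pool.Agent.W_7d29a1_F
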