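import Pool.Agent.W_7d29a1_F.CoreB

/-!
Functions of at most linear growth of finitely many sites: algebra. TASK CoreC1.
-/

namespace Pool.Agent.W_7d29a1_F

open MeasureTheory ProbabilityTheory Filter Topology

/-- Measurable functions of at most linear growth in finitely many sites. -/
def Sub (f : Env → ℝ) : Prop :=
  Measurable f ∧ ∃ (F : Finset Pt) (C : ℝ), 0 ≤ C ∧ ∀ η, |f η| ≤ C * (1 + ∑ p ∈ F, |η p|)

namespace Sub

variable {f g : Env → ℝ}

private theorem CoreC1_dom {h : Env → ℝ} (hm : Measurable h) (hf : Sub f) (hg : Sub g)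
    (H : ∀ η, |h η| ≤ |f η| + |g η|) : Sub h := by
  classical
  obtain ⟨-, F, C, hC, hF⟩ := hf
  obtain ⟨-, G, D, hD, hG⟩ := hg
  refine ⟨hm, F ∪ G, C + D, add_nonneg hC hD, fun η => ?_⟩
  have h1 : ∑ p ∈ F, |η p| ≤ ∑ p ∈ F ∪ G, |η p| :=
    Finset.sum_le_sum_of_subset_of_nonneg Finset.subset_union_left fun _ _ _ => abs_nonneg _
  have h2 : ∑ p ∈ G, |η p| ≤ ∑ p ∈ F ∪ G, |η p| :=
    Finset.sum_le_sum_of_subset_of_nonneg Finset.subset_union_right fun _ _ _ => abs_nonneg _
  have h3 : C * (1 + ∑ p ∈ F, |η p|) ≤ C * (1 + ∑ p ∈ F ∪ G, |η p|) :=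
    mul_le_mul_of_nonneg_left (by linarith) hC
  have h4 : D * (1 + ∑ p ∈ G, |η p|) ≤ D * (1 + ∑ p ∈ F ∪ G, |η p|) :=
    mul_le_mul_of_nonneg_left (by linarith) hD
  have h5 := H η
  have h6 := hF η
  have h7 := hG η
  linarith

theorem const (c : ℝ) : Sub fun _ => c := by
  refine ⟨measurable_const, ∅, |c|, abs_nonneg _, fun η => ?_⟩
  simp

theorem add (hf : Sub f) (hg : Sub g) : Sub fun η => f η + g η :=
  CoreC1_dom (hf.1.add hg.1) hf hg fun η => abs_add_le _ _

theorem neg (hf : Sub f) : Sub fun η => -f η :=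
  CoreC1_dom hf.1.neg hf (const 0) fun η => by simp

theorem sub (hf : Sub f) (hg : Sub g) : Sub fun η => f η - g η :=
  CoreC1_dom (hf.1.sub hg.1) hf hg fun η => abs_sub _ _

theorem const_mul (c : ℝ) (hf : Sub f) : Sub fun η => c * f η := by
  obtain ⟨hm, F, C, hC, hF⟩ := hf
  refine ⟨hm.const_mul c, F, |c| * C, mul_nonneg (abs_nonneg _) hC, fun η => ?_⟩
  rw [abs_mul, mul_assoc]
  exact mul_le_mul_of_nonneg_left (hF η) (abs_nonneg _)

theorem max (hf : Sub f) (hg : Sub g) : Sub fun η => Max.max (f η) (g η) :=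
  CoreC1_dom (hf.1.max hg.1) hf hg fun η =>
    (abs_max_le_max_abs_abs).trans (max_le_add_of_nonneg (abs_nonneg _) (abs_nonneg _))

theorem min (hf : Sub f) (hg : Sub g) : Sub fun η => Min.min (f η) (g η) :=
  CoreC1_dom (hf.1.min hg.1) hf hg fun η =>
    (abs_min_le_max_abs_abs).trans (max_le_add_of_nonneg (abs_nonneg _) (abs_nonneg _))

theorem abs (hf : Sub f) : Sub fun η => |f η| :=
  CoreC1_dom hf.1.abs hf (const 0) fun η => by simp

theorem sum {ι : Type*} (I : Finset ι) {f : ι → Env → ℝ} (hf : ∀ i ∈ I, Sub (f i)) :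
    Sub fun η => ∑ i ∈ I, f i η := by
  classical
  induction I using Finset.induction_on with
  | empty => simpa using const 0
  | insert a s ha ih =>
    have h1 := (hf a (Finset.mem_insert_self _ _)).add
      (ih fun i hi => hf i (Finset.mem_insert_of_mem hi))
    simpa [Finset.sum_insert ha] using h1

theorem sup' {ι : Type*} (I : Finset ι) (hI : I.Nonempty) {f : ι → Env → ℝ}
    (hf : ∀ i ∈ I, Sub (f i)) : Sub fun η => I.sup' hI fun i => f i η := by
  classical
  induction hI using Finset.Nonempty.cons_induction with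
  | singleton a => simpa using hf a (Finset.mem_singleton_self _)
  | cons a s ha hs ih =>
    have h1 := (hf a (Finset.mem_cons_self _ _)).max
      (ih fun i hi => hf i (Finset.mem_cons_of_mem hi))
    have h2 : (fun η => (Finset.cons a s ha).sup' (Finset.cons_nonempty ha) fun i => f i η) =
        fun η => Max.max (f a η) (s.sup' hs fun i => f i η) := by
      funext η
      exact Finset.sup'_cons hs _
    rw [h2]
    exact h1

/-- Domination from both sides. -/
theorem of_le {h : Env → ℝ} (hm : Measurable h) (hf : Sub f) (hg : Sub g) (h1 : ∀ η, f η ≤ h η)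
    (h2 : ∀ η, h η ≤ g η) : Sub h :=
  CoreC1_dom hm hf hg fun η =>
    (abs_le_max_abs_abs (h1 η) (h2 η)).trans (max_le_add_of_nonneg (abs_nonneg _) (abs_nonneg _))

theorem comp_sh (a : Pt) (hf : Sub f) : Sub fun η => f (sh a η) := by
  classical
  obtain ⟨hm, F, C, hC, hF⟩ := hf
  have hs : Measurable fun η : Env => sh a η :=
    measurable_pi_lambda _ fun p => measurable_pi_apply (p + a)
  refine ⟨hm.comp hs, F.image fun p => p + a, C, hC, fun η => ?_⟩
  have h1 := hF (sh a η)
  have h2 : ∑ p ∈ F.image (fun p => p + a), |η p| = ∑ p ∈ F, |sh a η p| := by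
    rw [Finset.sum_image fun x _ y _ hxy => add_right_cancel hxy]
    rfl
  rw [h2]
  exact h1

theorem coord (p : Pt) : Sub fun η => η p := by
  refine ⟨measurable_pi_apply p, {p}, 1, zero_le_one, fun η => ?_⟩
  simp

end Sub

end Pool.Agent.W_7d29a1_F
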