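import Pool.Agent.W_7d29a1_F.CoreC1

/-!
Functions of at most linear growth of finitely many sites: all exponential moments. TASK CoreC2.
-/

namespace Pool.Agent.W_7d29a1_F

open MeasureTheory ProbabilityTheory Filter Topology

namespace Sub

variable {f g : Env → ℝ}

variable {μ : Measure ℝ} [IsProbabilityMeasure μ]

private theorem CoreC2_prod (hμ : Pool.Agent.W_7d29a1_h47.EM μ) (F : Finset Pt) (b : ℝ) :
    Integrable (fun η : Env => ∏ i : F, Real.exp (b * |η i|)) (law μ) := by
  have h1 : Integrable (fun x : F → ℝ => ∏ i, Real.exp (b * |x i|))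
      (Measure.pi fun _ : F => μ) :=
    Integrable.fintype_prod (f := fun _ u => Real.exp (b * |u|)) fun _ => hμ b
  have h2 : (law μ).map F.restrict = Measure.pi fun _ : F => μ := by
    unfold law
    exact Measure.infinitePi_map_restrict (μ := fun _ : Pt => μ) (I := F)
  rw [← h2] at h1
  exact h1.comp_measurable (Finset.measurable_restrict F)

theorem exp_int (hμ : Pool.Agent.W_7d29a1_h47.EM μ) (hf : Sub f) :
    Integrable (fun η => Real.exp (f η)) (law μ) := by
  obtain ⟨hm, F, C, hC, hF⟩ := hf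
  refine ((CoreC2_prod hμ F C).const_mul (Real.exp C)).mono' hm.exp.aestronglyMeasurable
    (Eventually.of_forall fun η => ?_)
  rw [Real.norm_eq_abs, Real.abs_exp, ← Real.exp_sum, ← Real.exp_add, Real.exp_le_exp]
  have h1 : ∑ i : F, C * |η i| = C * ∑ p ∈ F, |η p| := by
    rw [← Finset.mul_sum, Finset.sum_coe_sort F fun p => |η p|]
  have h2 := (le_abs_self _).trans (hF η)
  rw [h1]
  linarith

private theorem CoreC2_abs_le (x : ℝ) : |x| ≤ Real.exp x + Real.exp (-x) := by
  rcases abs_cases x with h | h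
  · have h1 := Real.add_one_le_exp x
    have h2 := Real.exp_pos (-x)
    rw [h.1]
    linarith
  · have h1 := Real.add_one_le_exp (-x)
    have h2 := Real.exp_pos x
    rw [h.1]
    linarith

private theorem CoreC2_sq_le (x : ℝ) : x ^ 2 ≤ 4 * Real.exp x + 4 * Real.exp (-x) := by
  rcases abs_cases x with h | h
  · have h1 := Real.quadratic_le_exp_of_nonneg h.2
    have h2 := Real.exp_pos (-x)
    nlinarith [h.2]
  · have h1 := Real.quadratic_le_exp_of_nonneg (x := -x) (by linarith [h.2])
    have h2 := Real.exp_pos x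
    nlinarith [h.2]

theorem integrable (hμ : Pool.Agent.W_7d29a1_h47.EM μ) (hf : Sub f) : Integrable f (law μ) :=
  ((exp_int hμ hf).add (exp_int hμ hf.neg)).mono' hf.1.aestronglyMeasurable
    (Eventually.of_forall fun η => CoreC2_abs_le (f η))

theorem sq_integrable (hμ : Pool.Agent.W_7d29a1_h47.EM μ) (hf : Sub f) :
    Integrable (fun η => f η ^ 2) (law μ) := by
  refine (((exp_int hμ hf).const_mul 4).add ((exp_int hμ hf.neg).const_mul 4)).mono'
    (hf.1.pow_const 2).aestronglyMeasurable (Eventually.of_forall fun η => ?_)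
  rw [Real.norm_eq_abs, abs_of_nonneg (sq_nonneg _)]
  exact CoreC2_sq_le (f η)

theorem mul_integrable (hμ : Pool.Agent.W_7d29a1_h47.EM μ) (hf : Sub f) (hg : Sub g) :
    Integrable (fun η => f η * g η) (law μ) := by
  refine ((sq_integrable hμ hf).add (sq_integrable hμ hg)).mono'
    (hf.1.mul hg.1).aestronglyMeasurable (Eventually.of_forall fun η => ?_)
  rw [Real.norm_eq_abs]
  refine abs_le.2 ⟨?_, ?_⟩
  · show -(f η ^ 2 + g η ^ 2) ≤ f η * g η
    nlinarith [sq_nonneg (f η + g η), sq_nonneg (f η), sq_nonneg (g η)]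
  · show f η * g η ≤ f η ^ 2 + g η ^ 2
    nlinarith [sq_nonneg (f η - g η), sq_nonneg (f η), sq_nonneg (g η)]

/-- Jensen: `exp (∫ f) ≤ ∫ exp f`. -/
theorem exp_integral_le (hμ : Pool.Agent.W_7d29a1_h47.EM μ) (hf : Sub f) :
    Real.exp (∫ η, f η ∂(law μ)) ≤ ∫ η, Real.exp (f η) ∂(law μ) := by
  exact convexOn_exp.map_integral_le Real.continuous_exp.continuousOn isClosed_univ
    (Eventually.of_forall fun _ => Set.mem_univ _) (integrable hμ hf) (exp_int hμ hf)

end Sub

end Pool.Agent.W_7d29a1_F
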