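import Pool.Agent.W_7d29a1_F.CoreD2

/-!
Integrability of powers. TASK CoreD4 (the reversal inequality is not needed any more).
-/

namespace Pool.Agent.W_7d29a1_F

open MeasureTheory ProbabilityTheory Filter Topology

variable {μ : Measure ℝ} {s : ℝ} [IsProbabilityMeasure μ]

theorem WS_rpow_le_exp (η : Env) (a : Pt) (n : ℕ) (A : Finset ℤ) {θ : ℝ} (h0 : 0 ≤ θ) :
    WS μ s η a n A ^ θ ≤ Real.exp (θ * V μ s η a n) := by
  have h1 := Real.rpow_le_rpow (WS_nonneg (μ := μ) (s := s) η a n A) (WS_le_exp_V η a n A) h0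
  rwa [← Real.exp_mul, mul_comm] at h1

/-- Integrability of powers. -/
theorem WS_rpow_integrable (hμ : Pool.Agent.W_7d29a1_h47.EM μ) (a : Pt) (n : ℕ) (A : Finset ℤ)
    {θ : ℝ} (h0 : 0 ≤ θ) : Integrable (fun η => WS μ s η a n A ^ θ) (law μ) := by
  refine (((Sub_V (μ := μ) (s := s) a n).const_mul θ).exp_int hμ).mono'
    ((measurable_WS a n A).pow_const θ).aestronglyMeasurable
    (Filter.Eventually.of_forall fun η => ?_)
  rw [Real.norm_eq_abs, abs_of_nonneg (Real.rpow_nonneg (WS_nonneg _ _ _ _) _)]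
  exact WS_rpow_le_exp η a n A h0

end Pool.Agent.W_7d29a1_F
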