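import Pool.Agent.W_7d29a1_F.DdDefs
import Pool.Agent.W_7d29a1_f21.Ind

/-!
THEOREM F, section 6 without RG lemma: the predicate `Dec` (helper21).
-/

namespace Pool.Agent.W_7d29a1_F

open MeasureTheory ProbabilityTheory Filter Topology

noncomputable section

variable {μ : Measure ℝ} [IsProbabilityMeasure μ] {s : ℝ}

/-! ### Fractional moments for `law μ` -/

/-- TRAVELLER. -/
theorem trav_law {τ : Type*} (A : Set Pt) (κ : Finset τ) {F G : τ → Env → ℝ} {M : Env → ℝ}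
    {θ c : ℝ} (hθ : 0 < θ)
    (hW0 : ∀ x ∈ κ, ∀ g, 0 ≤ F x g) (hG0 : ∀ x ∈ κ, ∀ g, 0 ≤ G x g)
    (hWA : ∀ x ∈ κ, DependsOn (F x) A) (hGA : ∀ x ∈ κ, DependsOn (G x) Aᶜ)
    (hWi : ∀ x ∈ κ, Integrable (fun g => F x g ^ θ) (law μ))
    (hc : ∀ x ∈ κ, c ≤ ∫ g, F x g ^ θ ∂(law μ))
    (hi : Integrable (fun g => (∑ x ∈ κ, F x g * G x g) ^ θ) (law μ))
    (hM : ∀ g, ∃ x ∈ κ, M g = G x g) (hMi : Integrable (fun g => M g ^ θ) (law μ)) :
    c * ∫ g, M g ^ θ ∂(law μ) ≤ ∫ g, (∑ x ∈ κ, F x g * G x g) ^ θ ∂(law μ) :=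
  W_7d29a1_f21.trav (ι := Pt) (μ := μ) A κ hθ hW0 hG0 hWA hGA hWi hc hi hM hMi

/-- SUPERMULTIPLICATIVITY. -/
theorem supmul_law {τ : Type*} (A : Set Pt) (κ : Finset τ) {F G : τ → Env → ℝ}
    {θ c : ℝ} (hθ : 0 < θ) (hθ1 : θ ≤ 1)
    (hW0 : ∀ x ∈ κ, ∀ g, 0 ≤ F x g) (hG0 : ∀ x ∈ κ, ∀ g, 0 ≤ G x g)
    (hWA : ∀ x ∈ κ, DependsOn (F x) A) (hGA : ∀ x ∈ κ, DependsOn (G x) Aᶜ)
    (hGi : ∀ x ∈ κ, Integrable (fun g => G x g ^ θ) (law μ))
    (hc : ∀ x ∈ κ, c ≤ ∫ g, G x g ^ θ ∂(law μ))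
    (hi : Integrable (fun g => (∑ x ∈ κ, F x g * G x g) ^ θ) (law μ))
    (hWi : Integrable (fun g => (∑ x ∈ κ, F x g) ^ θ) (law μ)) :
    c * ∫ g, (∑ x ∈ κ, F x g) ^ θ ∂(law μ) ≤ ∫ g, (∑ x ∈ κ, F x g * G x g) ^ θ ∂(law μ) :=
  W_7d29a1_f21.supmul (ι := Pt) (μ := μ) A κ hθ hθ1 hW0 hG0 hWA hGA hGi hc hi hWi

/-- SUBMULTIPLICATIVITY. -/
theorem submul_law {τ : Type*} (A : Set Pt) (κ : Finset τ) {F G : τ → Env → ℝ} {M : Env → ℝ}
    {θ : ℝ} (hθ : 0 < θ) (hWm : ∀ x ∈ κ, Measurable (F x))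
    (hW0 : ∀ x ∈ κ, ∀ g, 0 ≤ F x g)
    (hWA : ∀ x ∈ κ, DependsOn (F x) A) (hMA : DependsOn M Aᶜ) (hMm : Measurable M)
    (hM0 : ∀ g, 0 ≤ M g) (hG0 : ∀ x ∈ κ, ∀ g, 0 ≤ G x g) (hGM : ∀ x ∈ κ, ∀ g, G x g ≤ M g)
    (hi : Integrable (fun g => (∑ x ∈ κ, F x g) ^ θ * M g ^ θ) (law μ)) :
    ∫ g, (∑ x ∈ κ, F x g * G x g) ^ θ ∂(law μ) ≤
      (∫ g, (∑ x ∈ κ, F x g) ^ θ ∂(law μ)) * ∫ g, M g ^ θ ∂(law μ) :=
  W_7d29a1_f21.submul (ι := Pt) (μ := μ) A κ hθ hWm hW0 hWA hMA hMm hM0 hG0 hGM hi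

/-! ### `WS`, `Fv` -/

theorem WS_dep (a : Pt) (n : ℕ) (A : Finset ℤ) :
    DependsOn (fun η : Env => WS μ s η a n A) (rows a.1 (a.1 + n)) := by
  intro η η' h
  unfold WS
  refine Finset.sum_congr rfl fun y _ => ?_
  refine W_dep (μ := μ) (s := s) a n y fun p hp => h p ?_
  exact ⟨hp.1, hp.2.1⟩

theorem WS_sh (η : Env) (a c : Pt) (n : ℕ) (A : Finset ℤ) :
    WS μ s (sh c η) a n A = WS μ s η (a + c) n A := by
  unfold WS
  exact Finset.sum_congr rfl fun y _ => W_sh η a c n y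

/-- Translation invariance. -/
theorem integral_WS (a : Pt) (n : ℕ) (A : Finset ℤ) (θ : ℝ) :
    ∫ η, WS μ s η a n A ^ θ ∂(law μ) = ∫ η, WS μ s η 0 n A ^ θ ∂(law μ) := by
  have h := W_7d29a1_f21.mp_integral (mp_sh (μ := μ) a) (F := fun η : Env => WS μ s η 0 n A ^ θ)
    ((measurable_WS 0 n A).pow_const θ).aestronglyMeasurable
  rw [← h]
  refine integral_congr_ae (Filter.Eventually.of_forall fun η => ?_)
  simp only [WS_sh, zero_add]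

theorem Fv_nonneg (η : Env) (a : Pt) (n : ℕ) (v : ℝ) : 0 ≤ Fv μ s η a n v := WS_nonneg _ _ _ _

theorem Fv_anti (η : Env) (a : Pt) (n : ℕ) {v v' : ℝ} (h : v ≤ v') :
    Fv μ s η a n v' ≤ Fv μ s η a n v := by
  unfold Fv
  refine WS_mono _ _ _ fun y hy => ?_
  rw [Finset.mem_filter] at hy ⊢
  refine ⟨hy.1, le_trans ?_ hy.2⟩
  exact mul_le_mul_of_nonneg_right h (Nat.cast_nonneg n)

theorem Fv_zero (η : Env) (a : Pt) {n : ℕ} (hn : 1 ≤ n) {v : ℝ} (h : 1 < v) :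
    Fv μ s η a n v = 0 := by
  unfold Fv WS
  have h0 : (Finset.Icc (0 : ℤ) n).filter (fun y : ℤ => v * n ≤ y) = ∅ := by
    refine Finset.filter_eq_empty_iff.2 fun y hy hv => ?_
    rw [Finset.mem_Icc] at hy
    have h1 : (y : ℝ) ≤ n := by exact_mod_cast hy.2
    have h2 : (1 : ℝ) ≤ n := by exact_mod_cast hn
    nlinarith
  rw [h0, Finset.sum_empty]

theorem Fv_rpow_integrable (hμ : Pool.Agent.W_7d29a1_h47.EM μ) (a : Pt) (n : ℕ) (v : ℝ) {θ : ℝ}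
    (h0 : 0 ≤ θ) : Integrable (fun η => Fv μ s η a n v ^ θ) (law μ) :=
  WS_rpow_integrable hμ a n _ h0

/-- Two steps. -/
theorem Fv_add_ge (η : Env) (M N : ℕ) (v : ℝ) :
    ∑ k ∈ (Finset.Icc (0 : ℤ) M).filter (fun k : ℤ => v * M ≤ k),
      W μ s η 0 M k * Fv μ s η ((M : ℤ), k) N v ≤ Fv μ s η 0 (M + N) v := by
  classical
  have e0 : ∀ k : ℤ, (((0 : Pt).1 + (M : ℤ), (0 : Pt).2 + k) : Pt) = ((M : ℤ), k) := fun k => by simp
  unfold Fv WS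
  simp only [W_add (μ := μ) (s := s) η 0 M N, e0]
  rw [Finset.sum_comm]
  refine (Finset.sum_le_sum fun k hk => ?_).trans
    (Finset.sum_le_sum_of_subset_of_nonneg (Finset.filter_subset _ _) fun k _ _ =>
      Finset.sum_nonneg fun y _ => mul_nonneg (W_nonneg _ _ _ _) (W_nonneg _ _ _ _))
  rw [Finset.mem_filter, Finset.mem_Icc] at hk
  rw [← Finset.mul_sum]
  refine mul_le_mul_of_nonneg_left ?_ (W_nonneg _ _ _ _)
  -- reindex y = k + y'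
  have hinj : Set.InjOn (fun y' : ℤ => k + y') ((Finset.Icc (0 : ℤ) N).filter
      (fun y : ℤ => v * N ≤ y) : Finset ℤ) := fun a _ b _ h => by simpa using h
  have h1 : ∑ y' ∈ (Finset.Icc (0 : ℤ) N).filter (fun y : ℤ => v * N ≤ y),
      W μ s η ((M : ℤ), k) N y' = ∑ y ∈ ((Finset.Icc (0 : ℤ) N).filter
        (fun y : ℤ => v * N ≤ y)).image (fun y' : ℤ => k + y'), W μ s η ((M : ℤ), k) N (y - k) := by
    rw [Finset.sum_image hinj]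
    exact Finset.sum_congr rfl fun y _ => by congr 1; ring
  rw [h1]
  refine Finset.sum_le_sum_of_subset_of_nonneg ?_ fun y _ _ => W_nonneg _ _ _ _
  intro y hy
  rw [Finset.mem_image] at hy
  obtain ⟨y', hy', rfl⟩ := hy
  rw [Finset.mem_filter, Finset.mem_Icc] at hy' ⊢
  refine ⟨⟨by omega, by push_cast; omega⟩, ?_⟩
  push_cast
  have h2 := hk.2
  have h3 := hy'.2
  linarith

/-- Superadditivity of `log E F_N(v) ^ θ`. -/
theorem Fv_super (hμ : Pool.Agent.W_7d29a1_h47.EM μ) {θ : ℝ} (hθ : 0 < θ) (hθ1 : θ ≤ 1) (v : ℝ)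
    (M N : ℕ) :
    (∫ η, Fv μ s η 0 M v ^ θ ∂(law μ)) * ∫ η, Fv μ s η 0 N v ^ θ ∂(law μ) ≤
      ∫ η, Fv μ s η 0 (M + N) v ^ θ ∂(law μ) := by
  classical
  set κ := (Finset.Icc (0 : ℤ) M).filter (fun k : ℤ => v * M ≤ k) with hκ
  have hWd : ∀ k : ℤ, DependsOn (fun η : Env => W μ s η 0 M k) (rows 0 M) := by
    intro k η η' h
    exact W_dep (μ := μ) (s := s) 0 M k fun p hp => h p ⟨by simpa using hp.1, by simpa using hp.2.1⟩
  have hFd : ∀ k : ℤ, DependsOn (fun η : Env => Fv μ s η ((M : ℤ), k) N v) (rows 0 M)ᶜ := by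
    intro k η η' h
    refine WS_dep (μ := μ) (s := s) ((M : ℤ), k) N _ fun p hp => h p ?_
    intro h2
    exact absurd h2.2 (not_le.2 hp.1)
  have hm : ∀ k : ℤ, Integrable (fun η => Fv μ s η ((M : ℤ), k) N v ^ θ) (law μ) := fun k =>
    Fv_rpow_integrable hμ _ _ _ hθ.le
  have hle : ∀ η : Env, (∑ k ∈ κ, W μ s η 0 M k * Fv μ s η ((M : ℤ), k) N v) ^ θ ≤
      Fv μ s η 0 (M + N) v ^ θ := fun η =>
    Real.rpow_le_rpow (Finset.sum_nonneg fun k _ => mul_nonneg (W_nonneg _ _ _ _) (Fv_nonneg _ _ _ _))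
      (Fv_add_ge η M N v) hθ.le
  have hmeas : Measurable fun η : Env => ∑ k ∈ κ, W μ s η 0 M k * Fv μ s η ((M : ℤ), k) N v :=
    Finset.measurable_sum _ fun k _ => (measurable_W 0 M k).mul (measurable_WS _ _ _)
  have hi : Integrable (fun η : Env =>
      (∑ k ∈ κ, W μ s η 0 M k * Fv μ s η ((M : ℤ), k) N v) ^ θ) (law μ) := by
    refine (Fv_rpow_integrable (s := s) hμ 0 (M + N) v hθ.le).mono' (hmeas.pow_const θ).aestronglyMeasurable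
      (Filter.Eventually.of_forall fun η => ?_)
    rw [Real.norm_eq_abs, abs_of_nonneg (Real.rpow_nonneg (Finset.sum_nonneg fun k _ =>
      mul_nonneg (W_nonneg _ _ _ _) (Fv_nonneg _ _ _ _)) _)]
    exact hle η
  have h1 := supmul_law (μ := μ) (rows 0 M) κ (F := fun k η => W μ s η 0 M k)
    (G := fun k η => Fv μ s η ((M : ℤ), k) N v) (θ := θ)
    (c := ∫ η, Fv μ s η 0 N v ^ θ ∂(law μ)) hθ hθ1 (fun k _ η => W_nonneg _ _ _ _)
    (fun k _ η => Fv_nonneg _ _ _ _) (fun k _ => hWd k) (fun k _ => hFd k) (fun k _ => hm k)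
    (fun k _ => (integral_WS (μ := μ) (s := s) ((M : ℤ), k) N _ θ).ge) hi
    (Fv_rpow_integrable hμ 0 M v hθ.le)
  rw [mul_comm]
  exact h1.trans (integral_mono hi (Fv_rpow_integrable hμ 0 (M + N) v hθ.le) hle)

theorem Fv_pow (hμ : Pool.Agent.W_7d29a1_h47.EM μ) {θ : ℝ} (hθ : 0 < θ) (hθ1 : θ ≤ 1) (v : ℝ)
    (N k : ℕ) (hk : 1 ≤ k) :
    (∫ η, Fv μ s η 0 N v ^ θ ∂(law μ)) ^ k ≤ ∫ η, Fv μ s η 0 (k * N) v ^ θ ∂(law μ) := by
  induction k with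
  | zero => omega
  | succ k ih =>
    rcases Nat.eq_zero_or_pos k with rfl | hk0
    · simp
    have h1 := ih hk0
    rw [pow_succ, add_mul, one_mul]
    refine le_trans ?_ (Fv_super hμ hθ hθ1 v (k * N) N)
    refine mul_le_mul_of_nonneg_right h1 (integral_nonneg fun η => Real.rpow_nonneg (Fv_nonneg _ _ _ _) _)

/-- Jensen: `E W ^ θ ≥ exp (- θ e)`. -/
theorem exp_neg_e_le (hμ : Pool.Agent.W_7d29a1_h47.EM μ) (a : Pt) {n : ℕ} {y : ℤ} (h0 : 0 ≤ y)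
    (h1 : y ≤ n) (θ : ℝ) :
    Real.exp (-(θ * e μ s n y)) ≤ ∫ η, W μ s η a n y ^ θ ∂(law μ) := by
  have hS : Sub fun η : Env => -θ * X μ s η a n y := (Sub_X (μ := μ) (s := s) a h0 h1).const_mul _
  have h := hS.exp_integral_le (μ := μ) hμ
  rw [integral_const_mul, integral_X] at h
  have e1 : -θ * e μ s n y = -(θ * e μ s n y) := by ring
  rw [e1] at h
  refine h.trans_eq (integral_congr_ae (Filter.Eventually.of_forall fun η => ?_))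
  simp only [X]
  rw [Real.rpow_def_of_pos (W_pos η a h0 h1)]
  congr 1
  ring

theorem W_rpow_integrable (hμ : Pool.Agent.W_7d29a1_h47.EM μ) (a : Pt) (n : ℕ) (y : ℤ) {θ : ℝ}
    (h0 : 0 ≤ θ) : Integrable (fun η => W μ s η a n y ^ θ) (law μ) := by
  have h := WS_rpow_integrable (μ := μ) (s := s) hμ a n {y} h0
  simpa [WS] using h

theorem W_le_Fv (η : Env) (a : Pt) {n : ℕ} {y : ℤ} (h0 : 0 ≤ y) (h1 : y ≤ n) {v : ℝ}
    (hv : v * n ≤ y) : W μ s η a n y ≤ Fv μ s η a n v := by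
  unfold Fv WS
  refine Finset.single_le_sum (f := fun y => W μ s η a n y) (fun y _ => W_nonneg _ _ _ _) ?_
  rw [Finset.mem_filter, Finset.mem_Icc]
  exact ⟨⟨h0, h1⟩, hv⟩

/-! ### `Dec` -/

theorem Dec.mono_g {θ v γ γ' : ℝ} (h : Dec μ s θ v γ) (hγ : γ' ≤ γ) : Dec μ s θ v γ' := by
  intro N hN
  refine (h N hN).trans (Real.exp_le_exp.2 ?_)
  have : (N : ℝ) * γ' ≤ N * γ := mul_le_mul_of_nonneg_left hγ (Nat.cast_nonneg N)
  linarith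

theorem Dec.mono_v (hμ : Pool.Agent.W_7d29a1_h47.EM μ) {θ v v' γ : ℝ} (hθ : 0 ≤ θ)
    (h : Dec μ s θ v γ) (hv : v ≤ v') : Dec μ s θ v' γ := by
  intro N hN
  refine le_trans ?_ (h N hN)
  exact integral_mono (Fv_rpow_integrable hμ _ _ _ hθ) (Fv_rpow_integrable hμ _ _ _ hθ)
    fun η => Real.rpow_le_rpow (Fv_nonneg _ _ _ _) (Fv_anti _ _ _ hv) hθ

theorem Dec.top {θ v γ : ℝ} (hθ : 0 < θ) (hv : 1 < v) : Dec μ s θ v γ := by
  intro N hN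
  have h : ∀ η : Env, Fv μ s η 0 N v ^ θ = 0 := fun η => by
    rw [Fv_zero η 0 hN hv, Real.zero_rpow hθ.ne']
  simp only [h, integral_zero]
  exact (Real.exp_pos _).le

/-- Power means: `∫ f ^ l ≤ (∫ f) ^ l`. -/
theorem integral_rpow_le {f : Env → ℝ} (hf0 : ∀ η, 0 ≤ f η) (hf : Integrable f (law μ)) {l : ℝ}
    (hl : 0 < l) (hl1 : l ≤ 1) (hfl : Integrable (fun η => f η ^ l) (law μ)) :
    ∫ η, f η ^ l ∂(law μ) ≤ (∫ η, f η ∂(law μ)) ^ l := by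
  have h := (Real.concaveOn_rpow hl.le hl1).le_map_integral
    ((Real.continuous_rpow_const hl.le).continuousOn) isClosed_Ici
    (Filter.Eventually.of_forall fun η => hf0 η) hf hfl
  exact h

theorem Dec.scale (hμ : Pool.Agent.W_7d29a1_h47.EM μ) {θ v γ l : ℝ} (hθ : 0 < θ) (hl : 0 < l)
    (hl1 : l ≤ 1) (h : Dec μ s θ v γ) : Dec μ s (l * θ) v (l * γ) := by
  intro N hN
  have h1 : ∀ η : Env, Fv μ s η 0 N v ^ (l * θ) = (Fv μ s η 0 N v ^ θ) ^ l := fun η => by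
    rw [← Real.rpow_mul (Fv_nonneg _ _ _ _), mul_comm]
  simp only [h1]
  have hi : Integrable (fun η : Env => (Fv μ s η 0 N v ^ θ) ^ l) (law μ) := by
    simp only [← h1]
    exact Fv_rpow_integrable hμ _ _ _ (by positivity)
  refine (integral_rpow_le (fun η => Real.rpow_nonneg (Fv_nonneg _ _ _ _) _)
    (Fv_rpow_integrable hμ _ _ _ hθ.le) hl hl1 hi).trans ?_
  refine (Real.rpow_le_rpow (integral_nonneg fun η => Real.rpow_nonneg (Fv_nonneg _ _ _ _) _)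
    (h N hN) hl.le).trans_eq ?_
  rw [← Real.exp_mul]
  congr 1
  ring

end

end Pool.Agent.W_7d29a1_F
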