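import Pool.Agent.W_7d29a1_F.DdA

/-!
THEOREM F: the cell lemma. TASK DdB.

Slabs of length `L'`, cells `C i = [i w, (i + 1) w)` at the levels `k L'`; `Psi θ (S + L') w y0 j` is the
fractional moment of the weight from a point `x0` at the time `- S` before the slab, whose displacements
`y0 + r`, `0 ≤ r < w`, lead to the cell `C 0`, to the cell `C j` at the end of the slab.
-/

namespace Pool.Agent.W_7d29a1_F

open MeasureTheory ProbabilityTheory Filter Topology

noncomputable section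

variable {μ : Measure ℝ} [IsProbabilityMeasure μ] {s : ℝ}

/-- The weight from the position `x` at time `t` to the cell `C i` at time `t + n` (positions, not
displacements). -/
def cw (μ : Measure ℝ) (s : ℝ) (η : Env) (t x : ℤ) (n w : ℕ) (i : ℤ) : ℝ :=
  WS μ s η (t, x) n (Finset.Ico (i * w - x) ((i + 1) * w - x))

/-- The maximum over the starting points in the cell `C i` of the weight to the cell `C i'`. -/
def cmax (μ : Measure ℝ) (s : ℝ) (η : Env) (t : ℤ) (n w : ℕ) (i i' : ℤ) : ℝ :=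
  ⨆ r : Fin w, cw μ s η t (i * w + r) n w i'

/-! ### Elementary facts -/

omit [IsProbabilityMeasure μ] in
private theorem DdB_cw_nonneg (η : Env) (t x : ℤ) (n w : ℕ) (i : ℤ) : 0 ≤ cw μ s η t x n w i :=
  WS_nonneg _ _ _ _

omit [IsProbabilityMeasure μ] in
private theorem DdB_cw_meas (t x : ℤ) (n w : ℕ) (i : ℤ) :
    Measurable fun η : Env => cw μ s η t x n w i :=
  measurable_WS _ _ _

private theorem DdB_cw_dep (t x : ℤ) (n w : ℕ) (i : ℤ) :
    DependsOn (fun η : Env => cw μ s η t x n w i) (rows t (t + n)) :=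
  WS_dep (t, x) n _

omit [IsProbabilityMeasure μ] in
private theorem DdB_cmax_mem (η : Env) (t : ℤ) (n : ℕ) {w : ℕ} (hw : 1 ≤ w) (i i' : ℤ) :
    ∃ r : Fin w, cmax μ s η t n w i i' = cw μ s η t (i * w + r) n w i' := by
  haveI : Nonempty (Fin w) := ⟨⟨0, hw⟩⟩
  obtain ⟨r, hr⟩ := exists_eq_ciSup_of_finite (f := fun r : Fin w => cw μ s η t (i * w + r) n w i')
  exact ⟨r, hr.symm⟩

omit [IsProbabilityMeasure μ] in
private theorem DdB_le_cmax (η : Env) (t : ℤ) (n : ℕ) {w : ℕ} (i i' : ℤ) (r : Fin w) :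
    cw μ s η t (i * w + r) n w i' ≤ cmax μ s η t n w i i' :=
  le_ciSup (f := fun r : Fin w => cw μ s η t (i * w + r) n w i') (Set.finite_range _).bddAbove r

omit [IsProbabilityMeasure μ] in
private theorem DdB_cmax_nonneg (η : Env) (t : ℤ) (n : ℕ) {w : ℕ} (hw : 1 ≤ w) (i i' : ℤ) :
    0 ≤ cmax μ s η t n w i i' := by
  obtain ⟨r, hr⟩ := DdB_cmax_mem (μ := μ) (s := s) η t n hw i i'
  rw [hr]
  exact DdB_cw_nonneg _ _ _ _ _ _

omit [IsProbabilityMeasure μ] in
private theorem DdB_cmax_meas (t : ℤ) (n w : ℕ) (i i' : ℤ) :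
    Measurable fun η : Env => cmax μ s η t n w i i' :=
  Measurable.iSup fun r : Fin w => DdB_cw_meas _ _ _ _ _

private theorem DdB_cmax_dep (t : ℤ) (n w : ℕ) (i i' : ℤ) :
    DependsOn (fun η : Env => cmax μ s η t n w i i') (rows t (t + n)) := by
  intro η η' h
  show cmax μ s η t n w i i' = cmax μ s η' t n w i i'
  unfold cmax
  refine iSup_congr fun r => ?_
  exact DdB_cw_dep (μ := μ) (s := s) t (i * w + r) n w i' h

private theorem DdB_cw_int (hμ : Pool.Agent.W_7d29a1_h47.EM μ) (t x : ℤ) (n w : ℕ) (i : ℤ) {θ : ℝ}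
    (h0 : 0 ≤ θ) : Integrable (fun η => cw μ s η t x n w i ^ θ) (law μ) :=
  WS_rpow_integrable hμ _ n _ h0

private theorem DdB_cmax_int (hμ : Pool.Agent.W_7d29a1_h47.EM μ) (t : ℤ) (n : ℕ) {w : ℕ}
    (hw : 1 ≤ w) (i i' : ℤ) {θ : ℝ} (h0 : 0 ≤ θ) :
    Integrable (fun η => cmax μ s η t n w i i' ^ θ) (law μ) := by
  have h1 : Integrable (fun η : Env => ∑ r : Fin w, cw μ s η t (i * w + r) n w i' ^ θ) (law μ) :=
    integrable_finset_sum _ fun r _ => DdB_cw_int hμ _ _ _ _ _ h0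
  refine h1.mono' ((DdB_cmax_meas t n w i i').pow_const θ).aestronglyMeasurable
    (Filter.Eventually.of_forall fun η => ?_)
  rw [Real.norm_eq_abs, abs_of_nonneg (Real.rpow_nonneg (DdB_cmax_nonneg _ _ _ hw _ _) _)]
  obtain ⟨r, hr⟩ := DdB_cmax_mem (μ := μ) (s := s) η t n hw i i'
  rw [hr]
  exact Finset.single_le_sum (f := fun r : Fin w => cw μ s η t (i * w + r) n w i' ^ θ)
    (fun r _ => Real.rpow_nonneg (DdB_cw_nonneg _ _ _ _ _ _) _) (Finset.mem_univ r)

/-- `E W ^ θ ≥ exp (- 1)` if `θ e ≤ 1`. -/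
private theorem DdB_W_ge (hμ : Pool.Agent.W_7d29a1_h47.EM μ) (a : Pt) {n : ℕ} {y : ℤ} (h0 : 0 ≤ y)
    (h1 : y ≤ n) {θ : ℝ} (hθ : θ * e μ s n y ≤ 1) :
    Real.exp (-1) ≤ ∫ η, W μ s η a n y ^ θ ∂(law μ) := by
  have hS : Sub fun η => (-θ) * X μ s η a n y := (Sub_X (μ := μ) (s := s) a h0 h1).const_mul (-θ)
  have h2 := hS.exp_integral_le hμ
  rw [integral_const_mul, integral_X] at h2
  have h3 : ∀ η : Env, Real.exp (-θ * X μ s η a n y) = W μ s η a n y ^ θ := by
    intro η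
    rw [Real.rpow_def_of_pos (W_pos η a h0 h1)]
    congr 1
    unfold X
    ring
  simp only [h3] at h2
  refine le_trans (Real.exp_le_exp.2 ?_) h2
  linarith

/-- Traveller: `trav_law` with `F r = W(x0 → i w + r)`, `x0 = (t - S, i w - y0)`, `G r = cw ..`;
`∑_r F r G r ≤ ` the weight of the displacements from `x0` into the cell `C i'`, whose fractional moment is
`Psi` (translation invariance). `E W ^ θ ≥ exp (- θ e) ≥ exp (-1)` (Jensen). -/
theorem cmax_le (hμ : Pool.Agent.W_7d29a1_h47.EM μ) {θ : ℝ} (hθ : 0 < θ) (hθ1 : θ ≤ 1) {w S n : ℕ}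
    (hw : 1 ≤ w) {y0 : ℤ} (h0 : ∀ r : ℤ, 0 ≤ r → r < w → 0 ≤ y0 + r ∧ y0 + r ≤ S ∧
      θ * e μ s S (y0 + r) ≤ 1) (t i i' : ℤ) :
    ∫ η, cmax μ s η t n w i i' ^ θ ∂(law μ) ≤ Real.exp 1 * Psi μ s θ (S + n) w y0 (i' - i) := by
  classical
  set x0 : Pt := (t - S, i * w - y0) with hx0
  set F : Fin w → Env → ℝ := fun r η => W μ s η x0 S (y0 + r) with hF
  set G : Fin w → Env → ℝ := fun r η => cw μ s η t (i * w + r) n w i' with hG
  set A : Set Pt := rows (t - S) t with hA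
  have hr0 : ∀ r : Fin w, 0 ≤ y0 + (r : ℤ) ∧ y0 + (r : ℤ) ≤ S ∧ θ * e μ s S (y0 + r) ≤ 1 := by
    intro r
    exact h0 r (by positivity) (by exact_mod_cast r.2)
  have hFd : ∀ r : Fin w, DependsOn (F r) A := by
    intro r η η' h
    refine W_dep (μ := μ) (s := s) x0 S _ fun p hp => h p ?_
    refine ⟨hp.1, ?_⟩
    have h2 := hp.2.1
    simp only [hx0] at h2
    omega
  have hGd : ∀ r : Fin w, DependsOn (G r) Aᶜ := by
    intro r η η' h
    refine DdB_cw_dep (μ := μ) (s := s) t (i * w + r) n w i' fun p hp => h p ?_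
    intro h2
    exact absurd h2.2 (not_le.2 hp.1)
  have hFi : ∀ r : Fin w, Integrable (fun η => F r η ^ θ) (law μ) := by
    intro r
    have h1 := WS_rpow_integrable (μ := μ) (s := s) hμ x0 S {y0 + (r : ℤ)} hθ.le
    simpa [WS] using h1
  -- the sum of the products is a part of the weight from `x0` to the cell
  have hsum : ∀ η : Env, ∑ r : Fin w, F r η * G r η ≤
      WS μ s η x0 (S + n) (Finset.Ico ((i' - i) * w + y0) ((i' - i + 1) * w + y0)) := by
    intro η
    have e1 : ∀ r : Fin w, F r η * G r η =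
        ∑ y ∈ Finset.Ico ((i' - i) * w + y0) ((i' - i + 1) * w + y0),
          W μ s η x0 S (y0 + r) * W μ s η (x0.1 + S, x0.2 + (y0 + r)) n (y - (y0 + r)) := by
      intro r
      simp only [hF, hG]
      unfold cw WS
      rw [Finset.mul_sum]
      have e2 : ((x0.1 + (S : ℤ), x0.2 + (y0 + (r : ℤ))) : Pt) = (t, i * w + r) := by
        refine Prod.ext ?_ ?_
        · show t - (S : ℤ) + S = t
          ring
        · show i * (w : ℤ) - y0 + (y0 + (r : ℤ)) = i * w + r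
          ring
      rw [e2]
      refine Finset.sum_nbij' (fun y => y + (y0 + r)) (fun y => y - (y0 + r)) ?_ ?_ ?_ ?_ ?_
      · intro y hy
        rw [Finset.mem_Ico] at hy ⊢
        constructor
        · have := hy.1
          linarith
        · have := hy.2
          linarith
      · intro y hy
        rw [Finset.mem_Ico] at hy ⊢
        constructor
        · have := hy.1
          linarith
        · have := hy.2
          linarith
      · intro y _
        show y + (y0 + (r : ℤ)) - (y0 + r) = y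
        ring
      · intro y _
        show y - (y0 + (r : ℤ)) + (y0 + r) = y
        ring
      · intro y _
        show _ = W μ s η x0 S (y0 + r) * W μ s η (t, i * w + r) n (y + (y0 + (r : ℤ)) - (y0 + r))
        rw [show y + (y0 + (r : ℤ)) - (y0 + r) = y by ring]
    simp only [e1]
    rw [Finset.sum_comm]
    unfold WS
    refine Finset.sum_le_sum fun y _ => ?_
    rw [W_add]
    have hinj : Set.InjOn (fun r : Fin w => y0 + (r : ℤ)) ((Finset.univ : Finset (Fin w)) : Set _) := by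
      intro a _ b _ h
      have h2 : (a : ℤ) = (b : ℤ) := by
        have : y0 + (a : ℤ) = y0 + (b : ℤ) := h
        linarith
      exact Fin.ext (by exact_mod_cast h2)
    rw [← Finset.sum_image (f := fun k : ℤ => W μ s η x0 S k *
      W μ s η (x0.1 + S, x0.2 + k) n (y - k)) hinj]
    refine Finset.sum_le_sum_of_subset_of_nonneg ?_ fun k _ _ =>
      mul_nonneg (W_nonneg _ _ _ _) (W_nonneg _ _ _ _)
    intro k hk
    rw [Finset.mem_image] at hk
    obtain ⟨r, -, rfl⟩ := hk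
    rw [Finset.mem_Icc]
    exact ⟨(hr0 r).1, (hr0 r).2.1⟩
  have hs0 : ∀ η : Env, 0 ≤ ∑ r : Fin w, F r η * G r η := fun η =>
    Finset.sum_nonneg fun r _ => mul_nonneg (W_nonneg _ _ _ _) (DdB_cw_nonneg _ _ _ _ _ _)
  have hle : ∀ η : Env, (∑ r : Fin w, F r η * G r η) ^ θ ≤
      WS μ s η x0 (S + n) (Finset.Ico ((i' - i) * w + y0) ((i' - i + 1) * w + y0)) ^ θ := fun η =>
    Real.rpow_le_rpow (hs0 η) (hsum η) hθ.le
  have hI := WS_rpow_integrable (μ := μ) (s := s) hμ x0 (S + n)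
    (Finset.Ico ((i' - i) * w + y0) ((i' - i + 1) * w + y0)) hθ.le
  have hmeas : Measurable fun η : Env => ∑ r : Fin w, F r η * G r η :=
    Finset.measurable_sum _ fun r _ => (measurable_W _ _ _).mul (DdB_cw_meas _ _ _ _ _)
  have hi : Integrable (fun η : Env => (∑ r : Fin w, F r η * G r η) ^ θ) (law μ) := by
    refine hI.mono' (hmeas.pow_const θ).aestronglyMeasurable
      (Filter.Eventually.of_forall fun η => ?_)
    rw [Real.norm_eq_abs, abs_of_nonneg (Real.rpow_nonneg (hs0 η) _)]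
    exact hle η
  have h1 := trav_law (μ := μ) A (Finset.univ : Finset (Fin w)) (F := F) (G := G)
    (M := fun η => cmax μ s η t n w i i') (θ := θ) (c := Real.exp (-1)) hθ
    (fun r _ η => W_nonneg _ _ _ _) (fun r _ η => DdB_cw_nonneg _ _ _ _ _ _)
    (fun r _ => hFd r) (fun r _ => hGd r) (fun r _ => hFi r)
    (fun r _ => DdB_W_ge hμ x0 (hr0 r).1 (hr0 r).2.1 (hr0 r).2.2) hi
    (fun η => by
      obtain ⟨r, hr⟩ := DdB_cmax_mem (μ := μ) (s := s) η t n hw i i'
      exact ⟨r, Finset.mem_univ r, hr⟩)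
    (DdB_cmax_int hμ t n hw i i' hθ.le)
  have h2 : Real.exp (-1) * ∫ η, cmax μ s η t n w i i' ^ θ ∂(law μ) ≤
      Psi μ s θ (S + n) w y0 (i' - i) := by
    refine h1.trans ((integral_mono hi hI hle).trans_eq ?_)
    rw [integral_WS]
    rfl
  have h3 : Real.exp 1 * (Real.exp (-1) * ∫ η, cmax μ s η t n w i i' ^ θ ∂(law μ)) ≤
      Real.exp 1 * Psi μ s θ (S + n) w y0 (i' - i) :=
    mul_le_mul_of_nonneg_left h2 (Real.exp_pos 1).le
  rw [← mul_assoc, ← Real.exp_add] at h3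
  simpa using h3

/-! ### One slab -/

private theorem DdB_sum_rpow {ι : Type*} (I : Finset ι) (f : ι → ℝ) (hf : ∀ i ∈ I, 0 ≤ f i) {θ : ℝ}
    (h0 : 0 < θ) (h1 : θ ≤ 1) : (∑ i ∈ I, f i) ^ θ ≤ ∑ i ∈ I, f i ^ θ := by
  classical
  induction I using Finset.induction_on with
  | empty => simp [Real.zero_rpow h0.ne']
  | insert a I ha ih =>
    rw [Finset.sum_insert ha, Finset.sum_insert ha]
    have h2 := ih fun i hi => hf i (Finset.mem_insert_of_mem hi)
    refine (Real.rpow_add_le_add_rpow (hf a (Finset.mem_insert_self a I))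
      (Finset.sum_nonneg fun i hi => hf i (Finset.mem_insert_of_mem hi)) h0.le h1).trans ?_
    linarith

private theorem DdB_cells (g : ℤ → ℝ) (M w : ℕ) (hw : 1 ≤ w) (hg : ∀ x : ℤ, (M : ℤ) < x → g x = 0) :
    ∑ x ∈ Finset.Icc (0 : ℤ) M, g x =
      ∑ i ∈ Finset.range (M + 1), ∑ r : Fin w, g ((i : ℤ) * w + (r : ℤ)) := by
  have h1 : ∀ K : ℕ, ∑ i ∈ Finset.range K, ∑ r : Fin w, g ((i : ℤ) * w + (r : ℤ)) =
      ∑ x ∈ Finset.range (K * w), g (x : ℤ) := by
    intro K
    induction K with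
    | zero => simp
    | succ K ih =>
      rw [Finset.sum_range_succ, ih, Nat.succ_mul, Finset.sum_range_add]
      congr 1
      rw [← Finset.sum_range (fun r : ℕ => g ((K : ℤ) * w + (r : ℤ)))]
      refine Finset.sum_congr rfl fun r _ => ?_
      congr 1
  rw [h1 (M + 1)]
  have h2 : ∑ x ∈ Finset.range ((M + 1) * w), g (x : ℤ) = ∑ x ∈ Finset.range (M + 1), g (x : ℤ) := by
    symm
    refine Finset.sum_subset ?_ ?_
    · intro x hx
      rw [Finset.mem_range] at hx ⊢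
      nlinarith
    · intro x _ hx
      rw [Finset.mem_range] at hx
      exact hg _ (by push_cast; omega)
  rw [h2]
  symm
  refine Finset.sum_nbij' (fun x : ℕ => (x : ℤ)) (fun x : ℤ => x.toNat) ?_ ?_ ?_ ?_ ?_
  · intro x hx
    rw [Finset.mem_range] at hx
    rw [Finset.mem_Icc]
    constructor
    · positivity
    · exact_mod_cast Nat.lt_succ_iff.1 hx
  · intro x hx
    rw [Finset.mem_Icc] at hx
    rw [Finset.mem_range]
    omega
  · intro x _
    simp
  · intro x hx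
    rw [Finset.mem_Icc] at hx
    exact Int.toNat_of_nonneg hx.1
  · intro x _
    rfl

omit [IsProbabilityMeasure μ] in
private theorem DdB_cw_add (η : Env) (M N w : ℕ) (hw : 1 ≤ w) (i' : ℤ) :
    cw μ s η 0 0 (M + N) w i' = ∑ i ∈ Finset.range (M + 1), ∑ r : Fin w,
      W μ s η 0 M ((i : ℤ) * w + (r : ℤ)) * cw μ s η M ((i : ℤ) * w + (r : ℤ)) N w i' := by
  have h1 : cw μ s η 0 0 (M + N) w i' = ∑ x ∈ Finset.Icc (0 : ℤ) M,
      W μ s η 0 M x * cw μ s η M x N w i' := by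
    have e0 : ∀ k : ℤ, (((0 : Pt).1 + (M : ℤ), (0 : Pt).2 + k) : Pt) = ((M : ℤ), k) :=
      fun k => by simp
    have e1 : cw μ s η 0 0 (M + N) w i' =
        ∑ y ∈ Finset.Ico (i' * w - 0) ((i' + 1) * w - 0), W μ s η 0 (M + N) y := rfl
    rw [e1]
    simp only [W_add (μ := μ) (s := s) η 0 M N, e0]
    rw [Finset.sum_comm]
    refine Finset.sum_congr rfl fun x _ => ?_
    unfold cw WS
    rw [Finset.mul_sum]
    refine Finset.sum_nbij' (fun y => y - x) (fun y => y + x) ?_ ?_ ?_ ?_ ?_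
    · intro y hy
      rw [Finset.mem_Ico] at hy ⊢
      constructor
      · have := hy.1
        linarith
      · have := hy.2
        linarith
    · intro y hy
      rw [Finset.mem_Ico] at hy ⊢
      constructor
      · have := hy.1
        linarith
      · have := hy.2
        linarith
    · intro y _
      show y - x + x = y
      ring
    · intro y _
      show y + x - x = y
      ring
    · intro y _
      rfl
  rw [h1]
  refine DdB_cells (fun x => W μ s η 0 M x * cw μ s η M x N w i') M w hw fun x hx => ?_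
  show W μ s η 0 M x * cw μ s η M x N w i' = 0
  rw [W_eq_zero η 0 (fun h => absurd h.2 (not_le.2 hx)), zero_mul]

omit [IsProbabilityMeasure μ] in
/-- A cell. -/
private theorem DdB_cell_sum (η : Env) (M w : ℕ) (i : ℤ) :
    cw μ s η 0 0 M w i = ∑ r : Fin w, W μ s η 0 M (i * w + (r : ℤ)) := by
  have e1 : cw μ s η 0 0 M w i =
      ∑ y ∈ Finset.Ico (i * w - 0) ((i + 1) * w - 0), W μ s η 0 M y := rfl
  rw [e1, ← Finset.sum_range (fun r : ℕ => W μ s η 0 M (i * w + (r : ℤ)))]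
  symm
  refine Finset.sum_nbij' (fun r : ℕ => i * w + (r : ℤ)) (fun y : ℤ => (y - i * w).toNat) ?_ ?_ ?_ ?_ ?_
  · intro r hr
    rw [Finset.mem_range] at hr
    rw [Finset.mem_Ico]
    have : (r : ℤ) < w := by exact_mod_cast hr
    constructor
    · linarith [Int.natCast_nonneg r]
    · linarith
  · intro y hy
    rw [Finset.mem_Ico] at hy
    rw [Finset.mem_range]
    have h1 := hy.1
    have h2 := hy.2
    have h3 : y - i * w < w := by linarith
    omega
  · intro r _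
    show (i * (w : ℤ) + r - i * w).toNat = r
    rw [add_sub_cancel_left]
    simp
  · intro y hy
    rw [Finset.mem_Ico] at hy
    show i * (w : ℤ) + ((y - i * w).toNat : ℤ) = y
    rw [Int.toNat_of_nonneg (by linarith [hy.1])]
    ring
  · intro r _
    rfl

omit [IsProbabilityMeasure μ] in
/-- No move to the left and no move by more than `n`. -/
private theorem DdB_cw_zero (η : Env) (t : ℤ) (n w : ℕ) (hw : 1 ≤ w) (i i' : ℤ) (r : Fin w)
    (h : i' < i ∨ i + n < i') : cw μ s η t (i * w + (r : ℤ)) n w i' = 0 := by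
  unfold cw WS
  refine Finset.sum_eq_zero fun y hy => W_eq_zero η _ fun h2 => ?_
  rw [Finset.mem_Ico] at hy
  have hr0 : (0 : ℤ) ≤ (r : ℤ) := by positivity
  have hr1 : (r : ℤ) < w := by exact_mod_cast r.2
  have hw1 : (1 : ℤ) ≤ w := by exact_mod_cast hw
  have hn : (0 : ℤ) ≤ n := by positivity
  rcases h with h | h
  · have h3 : (i' + 1) * (w : ℤ) ≤ i * w := mul_le_mul_of_nonneg_right (by omega) (by positivity)
    have := hy.2
    have := h2.1
    linarith
  · have h3 : (i + n + 1) * (w : ℤ) ≤ i' * w := mul_le_mul_of_nonneg_right (by omega) (by positivity)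
    have h4 : (n : ℤ) * 1 ≤ n * w := mul_le_mul_of_nonneg_left hw1 hn
    have := hy.1
    have := h2.2
    nlinarith

/-- `A k = ∑_i e^{σ i w} E (weight from 0 to the cell C i at time k L') ^ θ`. -/
def Ak (μ : Measure ℝ) (s θ σ : ℝ) (L' w k : ℕ) : ℝ :=
  ∑ i ∈ Finset.range (k * L' + 1), Real.exp (σ * (i * w)) *
    ∫ η, cw μ s η 0 0 (k * L') w i ^ θ ∂(law μ)

private theorem DdB_mul_int {f g : Env → ℝ} (hf0 : ∀ η, 0 ≤ f η) (hg0 : ∀ η, 0 ≤ g η) {θ : ℝ}
    (hfm : Measurable f) (hgm : Measurable g)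
    (hf : Integrable (fun η => f η ^ (2 * θ)) (law μ))
    (hg : Integrable (fun η => g η ^ (2 * θ)) (law μ)) :
    Integrable (fun η => f η ^ θ * g η ^ θ) (law μ) := by
  refine (hf.add hg).mono' ((hfm.pow_const θ).mul (hgm.pow_const θ)).aestronglyMeasurable
    (Filter.Eventually.of_forall fun η => ?_)
  have h1 : ∀ x : ℝ, 0 ≤ x → x ^ (2 * θ) = (x ^ θ) ^ 2 := by
    intro x hx
    rw [mul_comm, Real.rpow_mul hx]
    norm_cast
  rw [Real.norm_eq_abs, abs_of_nonneg (mul_nonneg (Real.rpow_nonneg (hf0 η) _)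
    (Real.rpow_nonneg (hg0 η) _))]
  show _ ≤ f η ^ (2 * θ) + g η ^ (2 * θ)
  rw [h1 _ (hf0 η), h1 _ (hg0 η)]
  nlinarith [sq_nonneg (f η ^ θ - g η ^ θ), sq_nonneg (f η ^ θ), sq_nonneg (g η ^ θ)]

/-- One step for one pair of cells. -/
private theorem DdB_step (hμ : Pool.Agent.W_7d29a1_h47.EM μ) {θ : ℝ} (hθ : 0 < θ) (hθ1 : θ ≤ 1)
    {w S N : ℕ} (hw : 1 ≤ w) {y0 : ℤ} (h0 : ∀ r : ℤ, 0 ≤ r → r < w → 0 ≤ y0 + r ∧
      y0 + r ≤ S ∧ θ * e μ s S (y0 + r) ≤ 1) (M : ℕ) (i i' : ℤ) :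
    Integrable (fun η : Env => (∑ r : Fin w, W μ s η 0 M (i * w + (r : ℤ)) *
      cw μ s η M (i * w + (r : ℤ)) N w i') ^ θ) (law μ) ∧
    ∫ η, (∑ r : Fin w, W μ s η 0 M (i * w + (r : ℤ)) *
      cw μ s η M (i * w + (r : ℤ)) N w i') ^ θ ∂(law μ) ≤
      (∫ η, cw μ s η 0 0 M w i ^ θ ∂(law μ)) *
        (Real.exp 1 * Psi μ s θ (S + N) w y0 (i' - i)) := by
  classical
  set F : Fin w → Env → ℝ := fun r η => W μ s η 0 M (i * w + (r : ℤ)) with hF
  set G : Fin w → Env → ℝ := fun r η => cw μ s η M (i * w + (r : ℤ)) N w i' with hG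
  have hFd : ∀ r : Fin w, DependsOn (F r) (rows 0 M) := by
    intro r η η' h
    exact W_dep (μ := μ) (s := s) 0 M _ fun p hp => h p ⟨by simpa using hp.1, by simpa using hp.2.1⟩
  have hMd : DependsOn (fun η : Env => cmax μ s η M N w i i') (rows 0 M)ᶜ := by
    intro η η' h
    refine DdB_cmax_dep (μ := μ) (s := s) M N w i i' fun p hp => h p ?_
    intro h2
    exact absurd h2.2 (not_le.2 hp.1)
  have hF0 : ∀ η : Env, 0 ≤ ∑ r : Fin w, F r η := fun η => Finset.sum_nonneg fun r _ => W_nonneg _ _ _ _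
  have hM0 : ∀ η : Env, 0 ≤ cmax μ s η M N w i i' := fun η => DdB_cmax_nonneg η M N hw i i'
  have hFm : Measurable fun η : Env => (∑ r : Fin w, F r η) ^ θ :=
    (Finset.measurable_sum _ fun r _ => measurable_W _ _ _).pow_const θ
  have hMm : Measurable fun η : Env => cmax μ s η M N w i i' ^ θ :=
    (DdB_cmax_meas (M : ℤ) N w i i').pow_const θ
  have hFi : Integrable (fun η : Env => (∑ r : Fin w, F r η) ^ θ) (law μ) := by
    have h := DdB_cw_int (s := s) hμ 0 0 M w i hθ.le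
    simp only [DdB_cell_sum] at h
    exact h
  have hMi : Integrable (fun η : Env => cmax μ s η M N w i i' ^ θ) (law μ) :=
    DdB_cmax_int hμ M N hw i i' hθ.le
  have hF2 : Integrable (fun η : Env => (∑ r : Fin w, F r η) ^ (2 * θ)) (law μ) := by
    have h := DdB_cw_int (s := s) hμ 0 0 M w i (θ := 2 * θ) (by positivity)
    simp only [DdB_cell_sum] at h
    exact h
  have hFm0 : Measurable fun η : Env => ∑ r : Fin w, F r η :=
    Finset.measurable_sum _ fun r _ => measurable_W _ _ _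
  have hFMi : Integrable (fun η : Env => (∑ r : Fin w, F r η) ^ θ * cmax μ s η M N w i i' ^ θ)
      (law μ) := DdB_mul_int hF0 hM0 hFm0 (DdB_cmax_meas (M : ℤ) N w i i') hF2
    (DdB_cmax_int hμ M N hw i i' (by positivity))
  have h1 := submul_law (μ := μ) (rows 0 M) (Finset.univ : Finset (Fin w)) (F := F) (G := G)
    (M := fun η => cmax μ s η M N w i i') (θ := θ) hθ (fun r _ => measurable_W _ _ _)
    (fun r _ η => W_nonneg _ _ _ _) (fun r _ => hFd r) hMd (DdB_cmax_meas (M : ℤ) N w i i') hM0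
    (fun r _ η => DdB_cw_nonneg _ _ _ _ _ _) (fun r _ η => DdB_le_cmax η M N i i' r) hFMi
  have hs0 : ∀ η : Env, 0 ≤ ∑ r : Fin w, F r η * G r η := fun η =>
    Finset.sum_nonneg fun r _ => mul_nonneg (W_nonneg _ _ _ _) (DdB_cw_nonneg _ _ _ _ _ _)
  refine ⟨?_, h1.trans ?_⟩
  · refine hFMi.mono' ((Finset.measurable_sum _ fun r _ =>
      (measurable_W _ _ _).mul (DdB_cw_meas _ _ _ _ _)).pow_const θ).aestronglyMeasurable
      (Filter.Eventually.of_forall fun η => ?_)
    rw [Real.norm_eq_abs, abs_of_nonneg (Real.rpow_nonneg (hs0 η) _),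
      ← Real.mul_rpow (hF0 η) (hM0 η)]
    refine Real.rpow_le_rpow (hs0 η) ?_ hθ.le
    rw [Finset.sum_mul]
    exact Finset.sum_le_sum fun r _ =>
      mul_le_mul_of_nonneg_left (DdB_le_cmax η M N i i' r) (W_nonneg _ _ _ _)
  · refine mul_le_mul ?_ (cmax_le hμ hθ hθ1 hw h0 M i i')
      (integral_nonneg fun η => Real.rpow_nonneg (hM0 η) _)
      (integral_nonneg fun η => Real.rpow_nonneg (DdB_cw_nonneg _ _ _ _ _ _) _)
    refine le_of_eq (integral_congr_ae (Filter.Eventually.of_forall fun η => ?_))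
    show (∑ r : Fin w, F r η) ^ θ = cw μ s η 0 0 M w i ^ θ
    rw [DdB_cell_sum]

/-- One slab: `(∑ a_i)^θ ≤ ∑ a_i^θ`, `submul_law`, `cmax_le`; the moves go from `C i` to `C (i + j)` with
`0 ≤ j ≤ L'` only. -/
theorem Ak_succ (hμ : Pool.Agent.W_7d29a1_h47.EM μ) {θ σ : ℝ} (hθ : 0 < θ) (hθ1 : θ ≤ 1)
    {w S L' : ℕ} (hw : 1 ≤ w) (hL : 1 ≤ L') {y0 : ℤ} (h0 : ∀ r : ℤ, 0 ≤ r → r < w → 0 ≤ y0 + r ∧
      y0 + r ≤ S ∧ θ * e μ s S (y0 + r) ≤ 1) (k : ℕ) :
    Ak μ s θ σ L' w (k + 1) ≤ Ak μ s θ σ L' w k * (Real.exp 1 *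
      ∑ j ∈ Finset.range (L' + 1), Real.exp (σ * (j * w)) * Psi μ s θ (S + L') w y0 j) := by
  classical
  set P : ℕ → ℝ := fun i => ∫ η, cw μ s η 0 0 (k * L') w i ^ θ ∂(law μ) with hP
  set Q : ℕ → ℝ := fun j => Real.exp 1 * Psi μ s θ (S + L') w y0 j with hQ
  have hP0 : ∀ i, 0 ≤ P i := fun i =>
    integral_nonneg fun η => Real.rpow_nonneg (DdB_cw_nonneg _ _ _ _ _ _) _
  have hQ0 : ∀ j, 0 ≤ Q j := fun j => mul_nonneg (Real.exp_pos 1).le
    (integral_nonneg fun η => Real.rpow_nonneg (WS_nonneg _ _ _ _) _)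
  have h1 : ∀ i' : ℕ, ∫ η, cw μ s η 0 0 ((k + 1) * L') w i' ^ θ ∂(law μ) ≤
      ∑ i ∈ Finset.range (k * L' + 1),
        if (i ≤ i' ∧ i' ≤ i + L') then P i * Q (i' - i) else 0 := by
    intro i'
    have hle : ∀ η : Env, cw μ s η 0 0 ((k + 1) * L') w i' ^ θ ≤
        ∑ i ∈ Finset.range (k * L' + 1),
          (∑ r : Fin w, W μ s η 0 (k * L') ((i : ℤ) * w + (r : ℤ)) *
            cw μ s η ((k * L' : ℕ) : ℤ) ((i : ℤ) * w + (r : ℤ)) L' w i') ^ θ := by
      intro η
      rw [Nat.succ_mul, DdB_cw_add η (k * L') L' w hw i']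
      exact DdB_sum_rpow _ _ (fun i _ => Finset.sum_nonneg fun r _ =>
        mul_nonneg (W_nonneg _ _ _ _) (DdB_cw_nonneg _ _ _ _ _ _)) hθ hθ1
    have hst := fun i : ℕ => DdB_step (s := s) hμ hθ hθ1 (w := w) (S := S) (N := L') hw h0
      (k * L') (i : ℤ) (i' : ℤ)
    refine (integral_mono (DdB_cw_int hμ _ _ _ _ _ hθ.le)
      (integrable_finset_sum _ fun i _ => (hst i).1) hle).trans ?_
    rw [integral_finset_sum _ fun i _ => (hst i).1]
    refine Finset.sum_le_sum fun i _ => ?_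
    split_ifs with hc
    · refine (hst i).2.trans_eq ?_
      simp only [hP, hQ]
      rw [Nat.cast_sub hc.1]
    · have hz : ∀ η : Env, (∑ r : Fin w, W μ s η 0 (k * L') ((i : ℤ) * w + (r : ℤ)) *
          cw μ s η ((k * L' : ℕ) : ℤ) ((i : ℤ) * w + (r : ℤ)) L' w i') ^ θ = 0 := by
        intro η
        rw [Finset.sum_eq_zero, Real.zero_rpow hθ.ne']
        intro r _
        rw [DdB_cw_zero η _ L' w hw i i' r (by omega), mul_zero]
      simp only [hz, integral_zero, le_refl]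
  have h2 : ∀ i ∈ Finset.range (k * L' + 1), ∑ i' ∈ Finset.range ((k + 1) * L' + 1),
      Real.exp (σ * (i' * w)) *
        (if (i ≤ i' ∧ i' ≤ i + L') then P i * Q (i' - i) else 0) ≤
      Real.exp (σ * (i * w)) * P i * ∑ j ∈ Finset.range (L' + 1), Real.exp (σ * (j * w)) * Q j := by
    intro i _
    simp only [mul_ite, mul_zero]
    rw [← Finset.sum_filter, Finset.mul_sum]
    set D := (Finset.range ((k + 1) * L' + 1)).filter (fun i' => i ≤ i' ∧ i' ≤ i + L') with hD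
    have hinj : Set.InjOn (fun i' : ℕ => i' - i) (D : Set ℕ) := by
      intro x hx y hy h
      have h1 := (Finset.mem_filter.1 hx).2.1
      have h2 := (Finset.mem_filter.1 hy).2.1
      have h3 : x - i = y - i := h
      omega
    have e1 : ∑ i' ∈ D, Real.exp (σ * (i' * w)) * (P i * Q (i' - i)) =
        ∑ i' ∈ D, (fun j : ℕ => Real.exp (σ * (i * w)) * P i *
          (Real.exp (σ * (j * w)) * Q j)) (i' - i) := by
      refine Finset.sum_congr rfl fun i' hi' => ?_
      have hi2 := (Finset.mem_filter.1 hi').2.1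
      have e3 : Real.exp (σ * (i' * w)) =
          Real.exp (σ * (i * w)) * Real.exp (σ * (((i' - i : ℕ) : ℝ) * w)) := by
        rw [← Real.exp_add]
        congr 1
        rw [Nat.cast_sub hi2]
        ring
      show _ = Real.exp (σ * (i * w)) * P i *
        (Real.exp (σ * (((i' - i : ℕ) : ℝ) * w)) * Q (i' - i))
      rw [e3]
      ring
    rw [e1, ← Finset.sum_image (f := fun j : ℕ => Real.exp (σ * (i * w)) * P i *
          (Real.exp (σ * (j * w)) * Q j)) hinj]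
    refine Finset.sum_le_sum_of_subset_of_nonneg ?_ fun j _ _ =>
      mul_nonneg (mul_nonneg (Real.exp_pos _).le (hP0 i)) (mul_nonneg (Real.exp_pos _).le (hQ0 j))
    intro j hj
    rw [Finset.mem_image] at hj
    obtain ⟨i', hi', rfl⟩ := hj
    have h3 := (Finset.mem_filter.1 hi').2
    rw [Finset.mem_range]
    omega
  unfold Ak
  calc ∑ i' ∈ Finset.range ((k + 1) * L' + 1), Real.exp (σ * (i' * w)) *
        ∫ η, cw μ s η 0 0 ((k + 1) * L') w i' ^ θ ∂(law μ)
      ≤ ∑ i' ∈ Finset.range ((k + 1) * L' + 1), Real.exp (σ * (i' * w)) *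
        ∑ i ∈ Finset.range (k * L' + 1),
          (if (i ≤ i' ∧ i' ≤ i + L') then P i * Q (i' - i) else 0) :=
        Finset.sum_le_sum fun i' _ => mul_le_mul_of_nonneg_left (h1 i') (Real.exp_pos _).le
    _ = ∑ i ∈ Finset.range (k * L' + 1), ∑ i' ∈ Finset.range ((k + 1) * L' + 1),
          Real.exp (σ * (i' * w)) *
            (if (i ≤ i' ∧ i' ≤ i + L') then P i * Q (i' - i) else 0) := by
        simp only [Finset.mul_sum]
        rw [Finset.sum_comm]
    _ ≤ ∑ i ∈ Finset.range (k * L' + 1), Real.exp (σ * (i * w)) * P i *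
          ∑ j ∈ Finset.range (L' + 1), Real.exp (σ * (j * w)) * Q j := Finset.sum_le_sum h2
    _ = _ := by
        rw [← Finset.sum_mul]
        congr 1
        rw [Finset.mul_sum]
        refine Finset.sum_congr rfl fun j _ => ?_
        simp only [hQ]
        ring

theorem Ak_zero {θ σ : ℝ} (hθ : 0 < θ) {w L' : ℕ} (hw : 1 ≤ w) : Ak μ s θ σ L' w 0 = 1 := by
  unfold Ak
  have h1 : ∀ η : Env, cw μ s η 0 0 (0 * L') w ((0 : ℕ) : ℤ) = 1 := by
    intro η
    rw [zero_mul]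
    unfold cw WS
    rw [Finset.sum_eq_single (0 : ℤ)]
    · unfold W WR
      simp [Zr]
    · intro y _ hy
      unfold W WR
      simp [Zr, hy]
    · intro h
      exfalso
      apply h
      rw [Finset.mem_Ico]
      push_cast
      constructor
      · linarith
      · have : (1 : ℤ) ≤ w := by exact_mod_cast hw
        linarith
  rw [show 0 * L' + 1 = 1 by simp, Finset.sum_range_one]
  simp only [h1, Real.one_rpow]
  simp

/-- `E F_(k L')(v) ^ θ ≤ e^{σ w - σ v k L'} A k` for `σ ≥ 0`. -/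
theorem Fv_le_Ak (hμ : Pool.Agent.W_7d29a1_h47.EM μ) {θ σ v : ℝ} (hθ : 0 < θ) (hθ1 : θ ≤ 1)
    (hσ : 0 ≤ σ) {w L' : ℕ} (hw : 1 ≤ w) (hL : 1 ≤ L') (k : ℕ) :
    ∫ η, Fv μ s η 0 (k * L') v ^ θ ∂(law μ) ≤
      Real.exp (σ * w - σ * v * (k * L')) * Ak μ s θ σ L' w k := by
  classical
  have h1 : ∀ η : Env, Fv μ s η 0 (k * L') v ^ θ ≤ ∑ i ∈ Finset.range (k * L' + 1),
      Real.exp (σ * w - σ * v * (k * L')) * (Real.exp (σ * (i * w)) *
        cw μ s η 0 0 (k * L') w i ^ θ) := by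
    intro η
    obtain ⟨M, hM⟩ : ∃ M : ℕ, M = k * L' := ⟨_, rfl⟩
    have hMr : (k : ℝ) * L' = (M : ℝ) := by
      rw [hM]
      push_cast
      ring
    rw [hMr, ← hM]
    set g : ℤ → ℝ := fun y => if v * M ≤ y then W μ s η 0 M y else 0 with hg
    have hg0 : ∀ y, 0 ≤ g y := by
      intro y
      simp only [hg]
      split_ifs
      · exact W_nonneg _ _ _ _
      · exact le_rfl
    have hgW : ∀ y, g y ≤ W μ s η 0 M y := by
      intro y
      simp only [hg]
      split_ifs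
      · exact le_rfl
      · exact W_nonneg _ _ _ _
    have e1 : Fv μ s η 0 M v =
        ∑ i ∈ Finset.range (M + 1), ∑ r : Fin w, g ((i : ℤ) * w + (r : ℤ)) := by
      rw [← DdB_cells g M w hw fun x hx => ?_]
      · unfold Fv WS
        rw [Finset.sum_filter]
      · refine le_antisymm ((hgW x).trans_eq ?_) (hg0 x)
        exact W_eq_zero η 0 (fun h => absurd h.2 (not_le.2 hx))
    rw [e1]
    refine (DdB_sum_rpow _ _ (fun i _ => Finset.sum_nonneg fun r _ => hg0 _) hθ hθ1).trans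
      (Finset.sum_le_sum fun i _ => ?_)
    rw [← mul_assoc, ← Real.exp_add]
    by_cases hc : v * M < (i + 1) * w
    · have h2 : ∑ r : Fin w, g ((i : ℤ) * w + (r : ℤ)) ≤ cw μ s η 0 0 M w i := by
        rw [DdB_cell_sum]
        exact Finset.sum_le_sum fun r _ => hgW _
      have h3 : (1 : ℝ) ≤ Real.exp (σ * w - σ * v * M + σ * (i * w)) := by
        rw [← Real.exp_zero]
        refine Real.exp_le_exp.2 ?_
        nlinarith
      have h4 : (∑ r : Fin w, g ((i : ℤ) * w + (r : ℤ))) ^ θ ≤ cw μ s η 0 0 M w i ^ θ :=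
        Real.rpow_le_rpow (Finset.sum_nonneg fun r _ => hg0 _) h2 hθ.le
      have h5 : 0 ≤ cw μ s η 0 0 M w i ^ θ := Real.rpow_nonneg (DdB_cw_nonneg _ _ _ _ _ _) _
      nlinarith
    · have h2 : ∑ r : Fin w, g ((i : ℤ) * w + (r : ℤ)) = 0 := by
        refine Finset.sum_eq_zero fun r _ => ?_
        simp only [hg]
        rw [if_neg]
        push_cast
        push_neg at hc ⊢
        have hr : ((r : ℕ) : ℝ) < w := by exact_mod_cast r.2
        nlinarith
      rw [h2, Real.zero_rpow hθ.ne']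
      exact mul_nonneg (Real.exp_pos _).le (Real.rpow_nonneg (DdB_cw_nonneg _ _ _ _ _ _) _)
  have hci : ∀ i : ℕ, Integrable (fun η : Env => cw μ s η 0 0 (k * L') w i ^ θ) (law μ) :=
    fun i => DdB_cw_int hμ _ _ _ _ _ hθ.le
  refine (integral_mono (Fv_rpow_integrable hμ _ _ _ hθ.le) (integrable_finset_sum _ fun i _ =>
    ((hci i).const_mul _).const_mul _) h1).trans_eq ?_
  rw [integral_finset_sum _ fun i _ => ((hci i).const_mul _).const_mul _]
  unfold Ak
  rw [Finset.mul_sum]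
  refine Finset.sum_congr rfl fun i _ => ?_
  rw [integral_const_mul, integral_const_mul]

private theorem DdB_lim {x y C : ℝ} (hy : 0 ≤ y) (h : ∀ n : ℕ, 1 ≤ n → x ^ n ≤ C * y ^ n) :
    x ≤ y := by
  by_contra hcon
  push_neg at hcon
  have hx : 0 < x := lt_of_le_of_lt hy hcon
  rcases hy.eq_or_lt with h0 | h0
  · have h1 := h 1 le_rfl
    rw [← h0] at h1
    simp at h1
    linarith
  · have h1 : 1 < x / y := (one_lt_div h0).2 hcon
    obtain ⟨n, hn⟩ := pow_unbounded_of_one_lt C h1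
    have h2 := h (n + 1) (by omega)
    have h3 : (x / y) ^ n ≤ (x / y) ^ (n + 1) := pow_le_pow_right₀ h1.le (by omega)
    have h4 : (x / y) ^ (n + 1) ≤ C := by
      rw [div_pow, div_le_iff₀ (pow_pos h0 _)]
      exact h2
    linarith

/-- CELL LEMMA. From `¬ Dec`: some `N` with `E F_N(v)^θ > e^{- N γ}`, so `E F_(k N)(v)^θ ≥ (..)^k`
(`Fv_pow`); with `k = L' n` compare with `Fv_le_Ak` for the number `N n` of slabs and let `n → ∞`. -/
theorem cell (hμ : Pool.Agent.W_7d29a1_h47.EM μ) {θ σ v γ : ℝ} (hθ : 0 < θ) (hθ1 : θ ≤ 1)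
    (hσ : 0 ≤ σ) {w S L' : ℕ} (hw : 1 ≤ w) (hL : 1 ≤ L') {y0 : ℤ}
    (h0 : ∀ r : ℤ, 0 ≤ r → r < w → 0 ≤ y0 + r ∧ y0 + r ≤ S ∧ θ * e μ s S (y0 + r) ≤ 1)
    (hD : ¬ Dec μ s θ v γ) :
    Real.exp (-(γ * L')) ≤ Real.exp 1 * ∑ j ∈ Finset.range (L' + 1),
      Real.exp (σ * (j * w - v * L')) * Psi μ s θ (S + L') w y0 j := by
  classical
  unfold Dec at hD
  push_neg at hD
  obtain ⟨N, hN, hD⟩ := hD
  set a : ℝ := ∫ η, Fv μ s η 0 N v ^ θ ∂(law μ) with ha
  obtain ⟨q, hq⟩ : ∃ q : ℝ, q = Real.exp 1 * ∑ j ∈ Finset.range (L' + 1),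
    Real.exp (σ * (j * w)) * Psi μ s θ (S + L') w y0 j := ⟨_, rfl⟩
  have hq0 : 0 ≤ q := hq ▸ mul_nonneg (Real.exp_pos 1).le (Finset.sum_nonneg fun j _ =>
    mul_nonneg (Real.exp_pos _).le (integral_nonneg fun η => Real.rpow_nonneg (WS_nonneg _ _ _ _) _))
  have hAk : ∀ k, Ak μ s θ σ L' w k ≤ q ^ k := by
    intro k
    induction k with
    | zero => rw [Ak_zero hθ hw, pow_zero]
    | succ k ih =>
      refine (Ak_succ hμ hθ hθ1 hw hL h0 k).trans ?_
      rw [pow_succ, ← hq]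
      exact mul_le_mul_of_nonneg_right ih hq0
  obtain ⟨u, hu⟩ : ∃ u : ℝ, u = Real.exp (-(σ * v * L')) * q := ⟨_, rfl⟩
  have hu0 : 0 ≤ u := hu ▸ mul_nonneg (Real.exp_pos _).le hq0
  have h1 : ∀ n : ℕ, 1 ≤ n → (a ^ L') ^ n ≤ Real.exp (σ * w) * (u ^ N) ^ n := by
    intro n hn
    have h2 := Fv_pow (s := s) hμ hθ hθ1 v N (L' * n) (Nat.mul_pos hL hn)
    rw [show L' * n * N = (N * n) * L' by ring] at h2
    have h3 := Fv_le_Ak (s := s) hμ hθ hθ1 hσ hw hL (v := v) (N * n)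
    rw [← pow_mul]
    refine (h2.trans h3).trans ?_
    refine (mul_le_mul_of_nonneg_left (hAk (N * n)) (Real.exp_pos _).le).trans_eq ?_
    have e4 : Real.exp (σ * w - σ * v * (((N * n : ℕ) : ℝ) * L')) =
        Real.exp (σ * w) * Real.exp (-(σ * v * L')) ^ (N * n) := by
      rw [← Real.exp_nat_mul, ← Real.exp_add]
      congr 1
      ring
    rw [hu, ← pow_mul, mul_pow, e4]
    ring
  have h4 : a ^ L' ≤ u ^ N := DdB_lim (pow_nonneg hu0 N) h1
  have h5 : Real.exp (-(γ * L')) ≤ u := by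
    by_contra hcon
    push_neg at hcon
    have h6 : u ^ N < Real.exp (-(γ * L')) ^ N := pow_lt_pow_left₀ hcon hu0 (by omega)
    have h7 : Real.exp (-(N * γ)) ^ L' < a ^ L' := pow_lt_pow_left₀ hD (Real.exp_pos _).le (by omega)
    have h8 : Real.exp (-(γ * L')) ^ N = Real.exp (-(N * γ)) ^ L' := by
      rw [← Real.exp_nat_mul, ← Real.exp_nat_mul]
      congr 1
      ring
    linarith
  refine h5.trans_eq ?_
  rw [hu, hq, ← mul_assoc, mul_comm (Real.exp (-(σ * v * L'))) (Real.exp 1), mul_assoc,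
    Finset.mul_sum]
  congr 1
  refine Finset.sum_congr rfl fun j _ => ?_
  rw [← mul_assoc, ← Real.exp_add]
  congr 2
  ring

end

end Pool.Agent.W_7d29a1_F
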