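import Pool.Agent.W_7d29a1_F.DdB

/-!
THEOREM F: the point near the edge. TASK DdC.

`L = Ls m0 i`, `θ = 1 / B L`, `w = ⌈U L⌉`, `S = K w` with `K = ⌈2 / (17 dd)⌉`,
`y0 = ⌊vc S⌋ - w / 2` (so that `K0 v1 v2 S (y0 + r)` for `0 ≤ r < w`, `K0_of_abs`), `L' = L - S`,
`x = v - U`, `γ = 1 / L`, `σ = 1 / (4 U L)` in the cell lemma `cell`. With `δ_j = (j w + y0) / L` and
`ρ_j = (δ_j - v) / U`: the term `j` is at most `exp (- 3 ρ_j / 4 + c0)` if `ρ_j > 0` (`hhigh`) and at most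
`e · exp (ρ_j / 4 + c0)` always (`UnitB.luck`), the spacing of the `ρ_j` is `w / (U L) ≥ 1`.
Then a `K0`-move of time `S` from the cell to `z = j w + 2 y0 + w - 1` (`supmul_law`).
-/

namespace Pool.Agent.W_7d29a1_F

open MeasureTheory ProbabilityTheory Filter Topology

noncomputable section

variable {μ : Measure ℝ} [IsProbabilityMeasure μ] {s v1 v2 : ℝ} {B : ℕ → ℝ}

private theorem DdC_V_zero (η : Env) : V μ s η (((0 : ℕ) : ℤ), (0 : ℤ)) 0 = 0 := by
  have h1 : WS μ s η (((0 : ℕ) : ℤ), (0 : ℤ)) 0 (Finset.Icc (0 : ℤ) ((0 : ℕ) : ℤ)) = 1 := by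
    unfold WS
    have h2 : Finset.Icc (0 : ℤ) ((0 : ℕ) : ℤ) = {0} := by simp
    rw [h2, Finset.sum_singleton]
    simp [W, WR, Zr]
  unfold V
  rw [h1, Real.log_one]

private theorem DdC_Mx (η : Env) (H : ℕ) : 0 ≤ Mx μ s η H := by
  have h1 : (((0, 0), 0) : (ℕ × ℤ) × ℕ) ∈ Box H := by simp [Box]
  have h2 := Finset.le_sup' (fun q : (ℕ × ℤ) × ℕ => V μ s η ((q.1.1 : ℤ), q.1.2) q.2) h1
  have h3 : V μ s η (((0 : ℕ) : ℤ), (0 : ℤ)) 0 ≤ Mx μ s η H := h2
  rwa [DdC_V_zero (μ := μ) (s := s) η] at h3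

private theorem DdC_V_le (η : Env) {n H : ℕ} (h : n ≤ H) : V μ s η 0 n ≤ Mx μ s η H := by
  have h1 : (((0, 0), n) : (ℕ × ℤ) × ℕ) ∈ Box H := by
    simp [Box]
    omega
  have h2 := Finset.le_sup' (fun q : (ℕ × ℤ) × ℕ => V μ s η ((q.1.1 : ℤ), q.1.2) q.2) h1
  exact h2

/-- `E e^{θ V_n} ≤ e` in the form needed for sums over cells. -/
theorem WS_rpow_le (U : UnitB μ s v1 v2 B) (hμ : Pool.Agent.W_7d29a1_h47.EM μ) {L n : ℕ}
    (hL : 1 ≤ L) (hn : n ≤ 8 * L) (A : Finset ℤ) :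
    ∫ η, WS μ s η 0 n A ^ (1 / B L) ∂(law μ) ≤ Real.exp 1 := by
  have hB : 0 < B L := zero_lt_one.trans_le (U.one_le L)
  refine le_trans ?_ (U.luck L hL)
  refine integral_mono (WS_rpow_integrable hμ 0 n A (by positivity)) ?_ fun η => ?_
  · have h1 := ((Sub_Mx (μ := μ) (s := s) (8 * L)).const_mul (2 / B L)).exp_int hμ
    refine h1.congr (Filter.Eventually.of_forall fun η => ?_)
    show Real.exp (2 / B L * Mx μ s η (8 * L)) = Real.exp (2 * Mx μ s η (8 * L) / B L)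
    congr 1
    ring
  · refine (WS_rpow_le_exp η 0 n A (by positivity)).trans (Real.exp_le_exp.2 ?_)
    have h1 := DdC_V_le (μ := μ) (s := s) η hn
    have h2 := DdC_Mx (μ := μ) (s := s) η (8 * L)
    rw [one_div, ← div_eq_inv_mul]
    exact div_le_div_of_nonneg_right (by linarith) hB.le

private theorem DdC_jensen (hμ : Pool.Agent.W_7d29a1_h47.EM μ) {θ : ℝ} {n : ℕ} {y : ℤ}
    (h0 : 0 ≤ y) (h1 : y ≤ n) (h : θ * e μ s n y ≤ 1) :
    Real.exp (-1) ≤ ∫ η, W μ s η 0 n y ^ θ ∂(law μ) := by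
  have h2 : ∀ η : Env, W μ s η 0 n y ^ θ = Real.exp (-θ * X μ s η 0 n y) := by
    intro η
    rw [Real.rpow_def_of_pos (W_pos η 0 h0 h1)]
    unfold X
    congr 1
    ring
  simp only [h2]
  refine le_trans ?_ (Sub.exp_integral_le hμ ((Sub_X (μ := μ) (s := s) 0 h0 h1).const_mul (-θ)))
  refine Real.exp_le_exp.2 ?_
  rw [integral_const_mul]
  unfold e at h
  linarith

private theorem DdC_W_WS (η : Env) (a : Pt) (n : ℕ) (y : ℤ) :
    W μ s η a n y = WS μ s η a n {y} := by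
  unfold WS
  rw [Finset.sum_singleton]

private theorem DdC_W_int (hμ : Pool.Agent.W_7d29a1_h47.EM μ) (a : Pt) (n : ℕ) (y : ℤ) {θ : ℝ}
    (h0 : 0 ≤ θ) : Integrable (fun η => W μ s η a n y ^ θ) (law μ) := by
  simp only [DdC_W_WS]
  exact WS_rpow_integrable hμ a n _ h0

/-- From the cell at time `n` to a fixed point at time `n + S`. -/
theorem cell_to_point (hμ : Pool.Agent.W_7d29a1_h47.EM μ) {θ : ℝ} (hθ : 0 < θ) (hθ1 : θ ≤ 1)
    {w S n : ℕ} (hw : 1 ≤ w) {y0 : ℤ} (h0 : ∀ r : ℤ, 0 ≤ r → r < w → 0 ≤ y0 + r ∧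
      y0 + r ≤ S ∧ θ * e μ s S (y0 + r) ≤ 1) (j : ℤ) :
    Real.exp (-1) * Psi μ s θ n w y0 j ≤
      ∫ η, W μ s η 0 (n + S) (j * w + 2 * y0 + w - 1) ^ θ ∂(law μ) := by
  classical
  set κ := Finset.Ico (j * w + y0) ((j + 1) * w + y0) with hκ
  set z := j * w + 2 * y0 + w - 1 with hz
  have hle : ∀ η : Env, ∑ k ∈ κ, W μ s η 0 n k * W μ s η ((n : ℤ), k) S (z - k) ≤
      W μ s η 0 (n + S) z := by
    intro η
    have e0 : ∀ k : ℤ, (((0 : Pt).1 + (n : ℤ), (0 : Pt).2 + k) : Pt) = ((n : ℤ), k) := fun k => by simp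
    rw [W_add (μ := μ) (s := s) η 0 n S z]
    simp only [e0]
    have h1 : ∑ k ∈ κ, W μ s η 0 n k * W μ s η ((n : ℤ), k) S (z - k) =
        ∑ k ∈ κ.filter (fun k => k ∈ Finset.Icc (0 : ℤ) n),
          W μ s η 0 n k * W μ s η ((n : ℤ), k) S (z - k) := by
      rw [Finset.sum_filter_of_ne]
      intro k _ hk
      by_contra hk'
      rw [Finset.mem_Icc] at hk'
      rw [W_eq_zero η 0 hk', zero_mul] at hk
      exact hk rfl
    rw [h1]
    refine Finset.sum_le_sum_of_subset_of_nonneg ?_ fun k _ _ =>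
      mul_nonneg (W_nonneg _ _ _ _) (W_nonneg _ _ _ _)
    intro k hk
    exact (Finset.mem_filter.1 hk).2
  have hmeas : Measurable fun η : Env => ∑ k ∈ κ, W μ s η 0 n k * W μ s η ((n : ℤ), k) S (z - k) :=
    Finset.measurable_sum _ fun k _ => (measurable_W 0 n k).mul (measurable_W _ _ _)
  have hnn : ∀ η : Env, 0 ≤ ∑ k ∈ κ, W μ s η 0 n k * W μ s η ((n : ℤ), k) S (z - k) := fun η =>
    Finset.sum_nonneg fun k _ => mul_nonneg (W_nonneg _ _ _ _) (W_nonneg _ _ _ _)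
  have hi : Integrable (fun η : Env =>
      (∑ k ∈ κ, W μ s η 0 n k * W μ s η ((n : ℤ), k) S (z - k)) ^ θ) (law μ) := by
    refine (DdC_W_int (s := s) hμ 0 (n + S) z hθ.le).mono' (hmeas.pow_const θ).aestronglyMeasurable
      (Filter.Eventually.of_forall fun η => ?_)
    rw [Real.norm_eq_abs, abs_of_nonneg (Real.rpow_nonneg (hnn η) _)]
    exact Real.rpow_le_rpow (hnn η) (hle η) hθ.le
  have hWd : ∀ k : ℤ, DependsOn (fun η : Env => W μ s η 0 n k) (rows 0 n) := by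
    intro k η η' h
    exact W_dep (μ := μ) (s := s) 0 n k fun p hp => h p ⟨by simpa using hp.1, by simpa using hp.2.1⟩
  have hGd : ∀ k : ℤ, DependsOn (fun η : Env => W μ s η ((n : ℤ), k) S (z - k)) (rows 0 n)ᶜ := by
    intro k η η' h
    refine W_dep (μ := μ) (s := s) ((n : ℤ), k) S (z - k) fun p hp => h p ?_
    intro h2
    exact absurd h2.2 (not_le.2 hp.1)
  have htr : ∀ k : ℤ, ∫ η, W μ s η ((n : ℤ), k) S (z - k) ^ θ ∂(law μ) =
      ∫ η, W μ s η 0 S (z - k) ^ θ ∂(law μ) := by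
    intro k
    simp only [DdC_W_WS]
    exact integral_WS _ _ _ _
  have h1 := supmul_law (μ := μ) (rows 0 n) κ (F := fun k η => W μ s η 0 n k)
    (G := fun k η => W μ s η ((n : ℤ), k) S (z - k)) (θ := θ)
    (c := Real.exp (-1)) hθ hθ1 (fun k _ η => W_nonneg _ _ _ _)
    (fun k _ η => W_nonneg _ _ _ _) (fun k _ => hWd k) (fun k _ => hGd k)
    (fun k _ => DdC_W_int hμ _ _ _ hθ.le) (fun k hk => by
      rw [htr k]
      rw [hκ, Finset.mem_Ico] at hk
      have h2 := h0 (z - k - y0) (by rw [hz]; linarith [hk.2]) (by rw [hz]; linarith [hk.1])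
      rw [show y0 + (z - k - y0) = z - k by ring] at h2
      exact DdC_jensen hμ h2.1 h2.2.1 h2.2.2) hi
    (WS_rpow_integrable (μ := μ) (s := s) hμ 0 n κ hθ.le)
  refine h1.trans (integral_mono hi (DdC_W_int (s := s) hμ 0 (n + S) z hθ.le) fun η => ?_)
  exact Real.rpow_le_rpow (hnn η) (hle η) hθ.le

/-- Geometric sums. -/
private theorem DdC_geom {x : ℝ} (h0 : 0 ≤ x) (h1 : x < 1) (N : ℕ) :
    ∑ j ∈ Finset.range N, x ^ j ≤ 1 / (1 - x) := by
  rw [le_div_iff₀ (by linarith)]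
  have h2 := geom_sum_mul_neg x N
  have h3 : 0 ≤ x ^ N := pow_nonneg h0 N
  linarith

/-- A sequence with spacing at least `1`. -/
private theorem DdC_sum {c r κ : ℝ} (hc : 0 < c) (hκ : 1 ≤ κ) (N : ℕ) :
    ∑ j ∈ Finset.range N, Real.exp (-(c * |r + j * κ|)) ≤ 2 / (1 - Real.exp (-c)) := by
  obtain ⟨m, hm1, hm2⟩ : ∃ m : ℕ, 0 ≤ r + m * κ ∧ ∀ i : ℕ, i < m → r + i * κ < 0 := by
    have hex : ∃ m : ℕ, 0 ≤ r + m * κ := by
      obtain ⟨m, hm⟩ := exists_nat_ge (-r)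
      refine ⟨m, ?_⟩
      have : (m : ℝ) * 1 ≤ m * κ := mul_le_mul_of_nonneg_left hκ (Nat.cast_nonneg m)
      linarith
    classical
    exact ⟨Nat.find hex, Nat.find_spec hex, fun i hi => not_le.1 (Nat.find_min hex hi)⟩
  set f : ℕ → ℝ := fun j => Real.exp (-(c * |r + j * κ|)) with hf
  have hx0 : 0 ≤ Real.exp (-c) := (Real.exp_pos _).le
  have hx1 : Real.exp (-c) < 1 := by
    rw [← Real.exp_zero]
    exact Real.exp_lt_exp.2 (by linarith)
  have hpow : ∀ j : ℕ, Real.exp (-c) ^ j = Real.exp (-(c * j)) := by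
    intro j
    rw [← Real.exp_nat_mul]
    congr 1
    ring
  have h1 : ∑ j ∈ Finset.range N, f j ≤ ∑ j ∈ Finset.range (m + N), f j :=
    Finset.sum_le_sum_of_subset_of_nonneg (Finset.range_mono (by omega)) fun j _ _ =>
      (Real.exp_pos _).le
  rw [Finset.sum_range_add] at h1
  have h2 : ∑ j ∈ Finset.range m, f j ≤ 1 / (1 - Real.exp (-c)) := by
    rw [← Finset.sum_range_reflect]
    refine le_trans (Finset.sum_le_sum fun j hj => ?_) (DdC_geom hx0 hx1 m)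
    have hj' := Finset.mem_range.1 hj
    rw [hf, hpow]
    refine Real.exp_le_exp.2 (neg_le_neg ?_)
    refine mul_le_mul_of_nonneg_left ?_ hc.le
    have h3 := hm2 (m - 1) (by omega)
    have h4 : ((m - 1 - j : ℕ) : ℝ) = ((m - 1 : ℕ) : ℝ) - j := by
      rw [Nat.cast_sub (by omega)]
    rw [h4]
    have h5 : (j : ℝ) * 1 ≤ j * κ := mul_le_mul_of_nonneg_left hκ (Nat.cast_nonneg j)
    have h6 : r + (((m - 1 : ℕ) : ℝ) - j) * κ ≤ -j := by
      have : r + (((m - 1 : ℕ) : ℝ) - j) * κ = r + ((m - 1 : ℕ) : ℝ) * κ - j * κ := by ring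
      rw [this]
      linarith
    exact le_trans (by linarith) (neg_le_abs _)
  have h3 : ∑ j ∈ Finset.range N, f (m + j) ≤ 1 / (1 - Real.exp (-c)) := by
    refine le_trans (Finset.sum_le_sum fun j _ => ?_) (DdC_geom hx0 hx1 N)
    rw [hf, hpow]
    refine Real.exp_le_exp.2 (neg_le_neg ?_)
    refine mul_le_mul_of_nonneg_left ?_ hc.le
    have h5 : (j : ℝ) * 1 ≤ j * κ := mul_le_mul_of_nonneg_left hκ (Nat.cast_nonneg j)
    refine le_trans ?_ (le_abs_self _)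
    push_cast
    have : r + ((m : ℝ) + j) * κ = r + m * κ + j * κ := by ring
    rw [this]
    linarith
  calc ∑ j ∈ Finset.range N, Real.exp (-(c * |r + j * κ|)) = ∑ j ∈ Finset.range N, f j := rfl
    _ ≤ 1 / (1 - Real.exp (-c)) + 1 / (1 - Real.exp (-c)) := by linarith
    _ = 2 / (1 - Real.exp (-c)) := by ring

/-- Numerical part: some term with bounded `ρ` is large. -/
private theorem DdC_pick {c0 : ℝ} : ∃ R1 q1 : ℝ, 0 ≤ R1 ∧ 0 < q1 ∧ ∀ (N : ℕ) (r κ : ℝ)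
    (ex P : ℕ → ℝ), 1 ≤ κ → (∀ j < N, ex j ≤ (r + j * κ) / 4 + c0) → (∀ j < N, 0 ≤ P j) →
    (∀ j < N, P j ≤ Real.exp 1) → (∀ j < N, 0 < r + j * κ → P j ≤ Real.exp (-(r + j * κ))) →
    Real.exp (-1) ≤ Real.exp 1 * ∑ j ∈ Finset.range N, Real.exp (ex j) * P j →
    ∃ j < N, |r + j * κ| ≤ R1 ∧ q1 ≤ P j := by
  set C3 : ℝ := 2 / (1 - Real.exp (-(1 / 8))) with hC3
  have hx1 : Real.exp (-(1 / 8)) < 1 := by
    rw [← Real.exp_zero]
    exact Real.exp_lt_exp.2 (by norm_num)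
  have hC30 : 0 < C3 := div_pos two_pos (by linarith)
  -- the level
  set ζ : ℝ := Real.exp (-2) / (2 * C3) with hζ
  have hζ0 : 0 < ζ := by positivity
  obtain ⟨R1, hR1⟩ : ∃ R1 : ℝ, 0 ≤ R1 ∧ Real.exp (1 + |c0|) * Real.exp (-(R1 / 8)) ≤ ζ := by
    refine ⟨8 * |Real.log (ζ / Real.exp (1 + |c0|))|, by positivity, ?_⟩
    have h1 : Real.exp (-(8 * |Real.log (ζ / Real.exp (1 + |c0|))| / 8)) ≤
        ζ / Real.exp (1 + |c0|) := by
      rw [mul_div_cancel_left₀ _ (by norm_num : (8 : ℝ) ≠ 0)]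
      calc Real.exp (-|Real.log (ζ / Real.exp (1 + |c0|))|)
          ≤ Real.exp (Real.log (ζ / Real.exp (1 + |c0|))) := Real.exp_le_exp.2 (neg_abs_le _)
        _ = ζ / Real.exp (1 + |c0|) := Real.exp_log (by positivity)
    calc Real.exp (1 + |c0|) * Real.exp (-(8 * |Real.log (ζ / Real.exp (1 + |c0|))| / 8))
        ≤ Real.exp (1 + |c0|) * (ζ / Real.exp (1 + |c0|)) :=
          mul_le_mul_of_nonneg_left h1 (Real.exp_pos _).le
      _ = ζ := by field_simp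
  set q1 : ℝ := ζ * Real.exp (-(|c0| + R1)) with hq1
  have hq10 : 0 < q1 := by positivity
  refine ⟨R1, q1, hR1.1, hq10, ?_⟩
  intro N r κ ex P hκ hex hP0 hPe hPh hsum
  by_contra hcon
  push Not at hcon
  have hc0 := le_abs_self c0
  have hterm : ∀ j < N, Real.exp (ex j) * P j ≤ ζ * Real.exp (-(1 / 8 * |r + j * κ|)) := by
    intro j hj
    obtain ⟨ρ, hρ⟩ : ∃ ρ : ℝ, ρ = r + j * κ := ⟨_, rfl⟩
    have h1 := hex j hj
    have h2 := hP0 j hj
    have h3 := hPe j hj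
    have h4 := hPh j hj
    have h5 := hcon j hj
    rw [← hρ] at h1 h4 h5 ⊢
    have hexp : Real.exp (ex j) ≤ Real.exp (ρ / 4 + |c0|) := Real.exp_le_exp.2 (by linarith)
    rcases le_or_gt |ρ| R1 with hR | hR
    · have h6 := (h5 hR).le
      calc Real.exp (ex j) * P j ≤ Real.exp (ρ / 4 + |c0|) * q1 :=
            mul_le_mul hexp h6 h2 (Real.exp_pos _).le
        _ = ζ * Real.exp (ρ / 4 - R1) := by
            rw [hq1, mul_comm, mul_assoc, ← Real.exp_add]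
            congr 2
            ring
        _ ≤ ζ * Real.exp (-(1 / 8 * |ρ|)) := by
            refine mul_le_mul_of_nonneg_left (Real.exp_le_exp.2 ?_) hζ0.le
            have h7 := le_abs_self ρ
            have h8 := abs_nonneg ρ
            linarith
    · have h6 : Real.exp (ex j) * P j ≤ Real.exp (1 + |c0|) * Real.exp (-(1 / 4 * |ρ|)) := by
        rw [← Real.exp_add]
        rcases le_or_gt ρ 0 with hρ0 | hρ0
        · calc Real.exp (ex j) * P j ≤ Real.exp (ρ / 4 + |c0|) * Real.exp 1 :=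
                mul_le_mul hexp h3 h2 (Real.exp_pos _).le
            _ = Real.exp (1 + |c0| + -(1 / 4 * |ρ|)) := by
                rw [← Real.exp_add, abs_of_nonpos hρ0]
                congr 1
                ring
        · calc Real.exp (ex j) * P j ≤ Real.exp (ρ / 4 + |c0|) * Real.exp (-ρ) :=
                mul_le_mul hexp (h4 hρ0) h2 (Real.exp_pos _).le
            _ ≤ Real.exp (1 + |c0| + -(1 / 4 * |ρ|)) := by
                rw [← Real.exp_add, abs_of_pos hρ0]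
                exact Real.exp_le_exp.2 (by linarith)
      refine h6.trans ?_
      calc Real.exp (1 + |c0|) * Real.exp (-(1 / 4 * |ρ|))
          = Real.exp (1 + |c0|) * Real.exp (-(|ρ| / 8)) * Real.exp (-(1 / 8 * |ρ|)) := by
            have h7 : Real.exp (-(1 / 4 * |ρ|)) = Real.exp (-(|ρ| / 8)) * Real.exp (-(1 / 8 * |ρ|)) := by
              rw [← Real.exp_add]
              congr 1
              ring
            rw [h7, mul_assoc]
        _ ≤ Real.exp (1 + |c0|) * Real.exp (-(R1 / 8)) * Real.exp (-(1 / 8 * |ρ|)) := by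
            refine mul_le_mul_of_nonneg_right ?_ (Real.exp_pos _).le
            exact mul_le_mul_of_nonneg_left (Real.exp_le_exp.2 (by linarith)) (Real.exp_pos _).le
        _ ≤ ζ * Real.exp (-(1 / 8 * |ρ|)) :=
            mul_le_mul_of_nonneg_right hR1.2 (Real.exp_pos _).le
  have h1 : ∑ j ∈ Finset.range N, Real.exp (ex j) * P j ≤ ζ * C3 := by
    refine le_trans (Finset.sum_le_sum fun j hj => hterm j (Finset.mem_range.1 hj)) ?_
    rw [← Finset.mul_sum]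
    exact mul_le_mul_of_nonneg_left (DdC_sum (by norm_num) hκ N) hζ0.le
  have h2 : ζ * C3 = Real.exp (-2) / 2 := by
    rw [hζ]
    field_simp
  have h3 : Real.exp 1 * ∑ j ∈ Finset.range N, Real.exp (ex j) * P j ≤ Real.exp (-1) / 2 := by
    calc Real.exp 1 * ∑ j ∈ Finset.range N, Real.exp (ex j) * P j
        ≤ Real.exp 1 * (Real.exp (-2) / 2) := by
          refine mul_le_mul_of_nonneg_left ?_ (Real.exp_pos _).le
          rw [← h2]
          exact h1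
      _ = Real.exp (-1) / 2 := by
          rw [mul_div_assoc', ← Real.exp_add]
          norm_num
  have h4 : 0 < Real.exp (-1) := Real.exp_pos _
  linarith

/-- The weight of a cell is at most `Fv`. -/
private theorem DdC_WS_le_Fv (η : Env) {n : ℕ} {a b : ℤ} {x : ℝ} (h : x * n ≤ a) :
    WS μ s η 0 n (Finset.Ico a b) ≤ Fv μ s η 0 n x := by
  classical
  unfold Fv
  have h1 : WS μ s η 0 n (Finset.Ico a b) =
      WS μ s η 0 n ((Finset.Ico a b).filter fun y => y ∈ Finset.Icc (0 : ℤ) n) := by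
    unfold WS
    rw [Finset.sum_filter_of_ne]
    intro y _ hy
    by_contra hy'
    rw [Finset.mem_Icc] at hy'
    exact hy (W_eq_zero η 0 hy')
  rw [h1]
  refine WS_mono _ _ _ fun y hy => ?_
  rw [Finset.mem_filter, Finset.mem_Ico] at hy
  rw [Finset.mem_filter]
  refine ⟨hy.2, h.trans ?_⟩
  exact_mod_cast hy.1.1

/-- THE POINT NEAR THE EDGE. The constants `R`, `q`, `u0`, `L1` depend on `v1`, `v2` only. -/
theorem edge_point (S : Setup μ s v1 v2) (UB : UnitB μ s v1 v2 B) :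
    ∃ R q u0 L1 : ℝ, 0 ≤ R ∧ 0 < q ∧ 0 < u0 ∧ ∀ (L : ℕ) (v U : ℝ), 1 ≤ L → v2 ≤ v →
      v ≤ v2 + dd v1 v2 → 0 < U → U ≤ u0 → L1 ≤ U * L →
      (¬ Dec μ s (1 / B L) (v - U) (1 / L)) →
      (∀ x : ℝ, v < x → Dec μ s (1 / B L) x ((x - v) / (U * L))) →
      ∃ (T : ℕ) (z : ℤ), L ≤ T ∧ T ≤ 2 * L ∧ 0 ≤ z ∧ z ≤ T ∧ |(z : ℝ) - v * T| ≤ R * U * T ∧
        q ≤ ∫ η, W μ s η 0 T z ^ (1 / B L) ∂(law μ) := by
  obtain ⟨d, hd⟩ : ∃ d : ℝ, d = dd v1 v2 := ⟨_, rfl⟩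
  have hd0 : 0 < d := hd ▸ S.dpos
  obtain ⟨K, hK⟩ : ∃ K : ℕ, 2 ≤ 17 * d * K := by
    obtain ⟨K, hK⟩ := exists_nat_ge (2 / (17 * d))
    refine ⟨K, ?_⟩
    rwa [div_le_iff₀ (by positivity), mul_comm] at hK
  have hK1 : 1 ≤ K := by
    rcases Nat.eq_zero_or_pos K with h | h
    · rw [h] at hK
      norm_num at hK
    · exact h
  have hKr : (1 : ℝ) ≤ K := by exact_mod_cast hK1
  obtain ⟨C, hC⟩ : ∃ C : ℝ, C = 21 * d * K + 2 := ⟨_, rfl⟩
  have hC0 : 2 ≤ C := by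
    rw [hC]
    have : 0 ≤ 21 * d * K := by positivity
    linarith
  obtain ⟨R1, q1, hR1, hq1, hpick⟩ := DdC_pick (c0 := 1 / 4 + C / 2)
  refine ⟨R1 + 2 * C + 2, Real.exp (-1) * q1, 1 / (4 * K), 1, by positivity, by positivity,
    by positivity, ?_⟩
  intro L v U hL hv2 hv hU0 hUu hUL hnD hD
  have hLr : (1 : ℝ) ≤ L := by exact_mod_cast hL
  have hL0 : (0 : ℝ) < L := by linarith
  have hUL0 : 0 < U * L := by positivity
  -- w
  obtain ⟨w, hw⟩ : ∃ w : ℕ, w = ⌈U * L⌉₊ := ⟨_, rfl⟩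
  have hw1 : U * L ≤ w := hw ▸ Nat.le_ceil _
  have hw2 : (w : ℝ) ≤ 2 * (U * L) := by
    have := Nat.ceil_lt_add_one hUL0.le
    rw [← hw] at this
    linarith
  have hwr : (1 : ℝ) ≤ w := hUL.trans hw1
  have hwn : 1 ≤ w := by exact_mod_cast hwr
  -- S0
  obtain ⟨S0, hS0⟩ : ∃ S0 : ℕ, S0 = K * w := ⟨_, rfl⟩
  have hS0r : (S0 : ℝ) = K * w := by rw [hS0]; push_cast; ring
  have hS0L : 2 * (S0 : ℝ) ≤ L := by
    rw [hS0r]
    have h1 : (K : ℝ) * w ≤ K * (2 * (U * L)) := mul_le_mul_of_nonneg_left hw2 (by positivity)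
    have h2 : U * (4 * K) ≤ 1 := by
      rwa [le_div_iff₀ (by positivity)] at hUu
    have h3 : U * (4 * K) * L ≤ 1 * L := mul_le_mul_of_nonneg_right h2 hL0.le
    linarith
  have hS0L' : 2 * S0 ≤ L := by exact_mod_cast hS0L
  -- y0
  obtain ⟨c, hc⟩ : ∃ c : ℝ, c = vc v1 v2 := ⟨_, rfl⟩
  obtain ⟨y0, hy0⟩ : ∃ y0 : ℤ, y0 = ⌊c * S0⌋ - (w : ℤ) / 2 := ⟨_, rfl⟩
  have hfl1 : ((⌊c * S0⌋ : ℤ) : ℝ) ≤ c * S0 := Int.floor_le _
  have hfl2 : c * S0 < ((⌊c * S0⌋ : ℤ) : ℝ) + 1 := Int.lt_floor_add_one _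
  have hdiv1 : (((w : ℤ) / 2 : ℤ) : ℝ) ≤ w / 2 := by
    have h1 : 2 * ((w : ℤ) / 2) ≤ w := by omega
    have h2 : (2 : ℝ) * (((w : ℤ) / 2 : ℤ) : ℝ) ≤ w := by exact_mod_cast h1
    linarith
  have hdiv2 : (w : ℝ) / 2 - 1 / 2 ≤ (((w : ℤ) / 2 : ℤ) : ℝ) := by
    have h1 : (w : ℤ) ≤ 2 * ((w : ℤ) / 2) + 1 := by omega
    have h2 : (w : ℝ) ≤ (2 : ℝ) * (((w : ℤ) / 2 : ℤ) : ℝ) + 1 := by exact_mod_cast h1
    linarith
  have hy1 : (y0 : ℝ) ≤ c * S0 - w / 2 + 1 / 2 := by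
    rw [hy0]; push_cast; linarith
  have hy2 : c * S0 - 1 - w / 2 ≤ (y0 : ℝ) := by
    rw [hy0]; push_cast; linarith
  have hB : 0 < B L := zero_lt_one.trans_le (UB.one_le L)
  obtain ⟨θ, hθ⟩ : ∃ θ : ℝ, θ = 1 / B L := ⟨_, rfl⟩
  have hθ0 : 0 < θ := by rw [hθ]; positivity
  have hθ1 : θ ≤ 1 := by
    rw [hθ, div_le_one hB]
    exact UB.one_le L
  have hdKw : 2 * (w : ℝ) ≤ 17 * d * S0 := by
    rw [hS0r]
    have := mul_le_mul_of_nonneg_right hK (by linarith : (0 : ℝ) ≤ w)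
    linarith
  have h0 : ∀ r : ℤ, 0 ≤ r → r < w → 0 ≤ y0 + r ∧ y0 + r ≤ S0 ∧ θ * e μ s S0 (y0 + r) ≤ 1 := by
    intro r hr0 hrw
    have hr0' : (0 : ℝ) ≤ r := by exact_mod_cast hr0
    have hrw' : (r : ℝ) + 1 ≤ w := by exact_mod_cast hrw
    have hK0 : K0 v1 v2 S0 (y0 + r) := by
      refine K0_of_abs S ?_
      rw [← hc, ← hd, abs_le]
      push_cast
      constructor
      · linarith
      · linarith
    refine ⟨hK0.1, hK0.2.1, ?_⟩
    have h1 := UB.move L S0 (y0 + r) hK0 (by omega)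
    rw [hθ, one_div, ← div_eq_inv_mul, div_le_one hB]
    exact h1
  -- the cell lemma
  obtain ⟨L', hL'⟩ : ∃ L' : ℕ, L' = L - S0 := ⟨_, rfl⟩
  have hL'L : S0 + L' = L := by omega
  have hL'1 : 1 ≤ L' := by omega
  have hL'r : (L' : ℝ) = L - S0 := by
    have : (S0 : ℝ) + L' = L := by exact_mod_cast hL'L
    linarith
  obtain ⟨σ, hσ⟩ : ∃ σ : ℝ, σ = 1 / (4 * (U * L)) := ⟨_, rfl⟩
  have hσ0 : 0 ≤ σ := by rw [hσ]; positivity
  rw [← hθ] at hnD
  have hcell := cell (μ := μ) (s := s) S.em hθ0 hθ1 hσ0 hwn hL'1 h0 hnD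
  rw [hL'L] at hcell
  have hlow : Real.exp (-1) ≤ Real.exp (-(1 / (L : ℝ) * L')) := by
    refine Real.exp_le_exp.2 (neg_le_neg ?_)
    rw [one_div, ← div_eq_inv_mul, div_le_one hL0]
    rw [hL'r]
    have : (0 : ℝ) ≤ S0 := Nat.cast_nonneg _
    linarith
  obtain ⟨κ, hκ⟩ : ∃ κ : ℝ, κ = w / (U * L) := ⟨_, rfl⟩
  have hκ1 : 1 ≤ κ := by rw [hκ, le_div_iff₀ hUL0]; linarith
  obtain ⟨r0, hr0⟩ : ∃ r0 : ℝ, r0 = (y0 - v * L) / (U * L) := ⟨_, rfl⟩
  have hρ : ∀ j : ℕ, (r0 + j * κ) * (U * L) = j * w + y0 - v * L := by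
    intro j
    rw [hr0, hκ]
    field_simp
    ring
  have hvc : v - c ≤ 21 * d := by
    rw [hc, hd]
    unfold vc
    rw [← hd]
    have h1 : v2 - v1 = 40 * d := by
      rw [hd]; unfold dd; ring
    rw [← hd] at hv
    linarith
  have hvc0 : 0 ≤ v - c := by
    rw [hc]
    unfold vc
    have := S.v12
    linarith
  have hS00 : (0 : ℝ) ≤ S0 := Nat.cast_nonneg _
  have hdS : 21 * d * (S0 : ℝ) = 21 * d * K * w := by rw [hS0r]; ring
  have hyv : v * S0 - y0 ≤ C * w := by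
    have h1 : (v - c) * S0 ≤ 21 * d * S0 := mul_le_mul_of_nonneg_right hvc hS00
    have h2 : C * w = 21 * d * K * w + 2 * w := by rw [hC]; ring
    rw [h2, ← hdS]
    have : v * S0 = (v - c) * S0 + c * S0 := by ring
    linarith
  obtain ⟨j, hj, hjR, hjq⟩ := hpick (L' + 1) r0 κ
    (fun j => σ * (((j : ℕ) : ℤ) * w - (v - U) * L')) (fun j => Psi μ s θ L w y0 ((j : ℕ) : ℤ)) hκ1
    (by
      intro j _
      show σ * ((((j : ℕ) : ℤ) : ℝ) * w - (v - U) * L') ≤ _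
      have h1 : (((j : ℕ) : ℤ) : ℝ) * w - (v - U) * L' ≤ (r0 + j * κ) * (U * L) + U * L + C * w := by
        rw [hρ j, hL'r]
        push_cast
        have h2 : 0 ≤ U * S0 := by positivity
        linarith
      have h3 : C * w ≤ C * (2 * (U * L)) := mul_le_mul_of_nonneg_left hw2 (by linarith)
      calc σ * ((((j : ℕ) : ℤ) : ℝ) * w - (v - U) * L')
          ≤ σ * ((r0 + j * κ) * (U * L) + U * L + C * (2 * (U * L))) :=
            mul_le_mul_of_nonneg_left (by linarith) hσ0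
        _ = (r0 + j * κ) / 4 + (1 / 4 + C / 2) := by
            rw [hσ]
            field_simp
            ring)
    (fun j _ => integral_nonneg fun η => Real.rpow_nonneg (WS_nonneg _ _ _ _) _)
    (fun j _ => by
      show ∫ η, WS μ s η 0 L _ ^ θ ∂(law μ) ≤ Real.exp 1
      rw [hθ]
      exact WS_rpow_le UB S.em hL (by omega) _)
    (by
      intro j _ hjp
      obtain ⟨x, hx⟩ : ∃ x : ℝ, x = (j * w + y0) / L := ⟨_, rfl⟩
      have hxL : x * L = j * w + y0 := by rw [hx]; field_simp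
      have h1 : (x - v) / (U * L) * L = r0 + j * κ := by
        have h2 := hρ j
        have h3 : (r0 + j * κ) * (U * L) = (x - v) * L := by rw [h2, ← hxL]; ring
        field_simp
        have h4 : (r0 + j * κ) * U * L = (x - v) * L := by rw [← h3]; ring
        have h5 := mul_right_cancel₀ hL0.ne' h4
        linarith
      have hxv : v < x := by
        have h2 : 0 < (r0 + j * κ) * (U * L) := by positivity
        rw [hρ j] at h2
        have h3 : v * L < x * L := by rw [hxL]; linarith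
        exact lt_of_mul_lt_mul_right h3 hL0.le
      have h2 := hD x hxv L hL
      rw [← hθ] at h2
      have h3 : (L : ℝ) * ((x - v) / (U * L)) = r0 + j * κ := by rw [mul_comm]; exact h1
      rw [h3] at h2
      refine le_trans ?_ h2
      refine integral_mono (WS_rpow_integrable S.em _ _ _ hθ0.le)
        (Fv_rpow_integrable S.em _ _ _ hθ0.le) fun η => ?_
      refine Real.rpow_le_rpow (WS_nonneg _ _ _ _) (DdC_WS_le_Fv η ?_) hθ0.le
      rw [hxL]
      push_cast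
      exact le_rfl)
    (by
      refine hlow.trans (hcell.trans (le_of_eq ?_))
      congr 1)
  have hpt := cell_to_point (μ := μ) (s := s) S.em hθ0 hθ1 (n := L) hwn h0 ((j : ℕ) : ℤ)
  obtain ⟨z, hz⟩ : ∃ z : ℤ, z = ((j : ℕ) : ℤ) * w + 2 * y0 + w - 1 := ⟨_, rfl⟩
  rw [← hz] at hpt
  have hq : Real.exp (-1) * q1 ≤ ∫ η, W μ s η 0 (L + S0) z ^ θ ∂(law μ) :=
    (mul_le_mul_of_nonneg_left hjq (Real.exp_pos _).le).trans hpt
  have hzT : 0 ≤ z ∧ z ≤ ((L + S0 : ℕ) : ℤ) := by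
    by_contra hcon
    have h1 : ∀ η : Env, W μ s η 0 (L + S0) z ^ θ = 0 := by
      intro η
      rw [W_eq_zero η 0 hcon, Real.zero_rpow hθ0.ne']
    simp only [h1, integral_zero] at hq
    have : 0 < Real.exp (-1) * q1 := by positivity
    linarith
  refine ⟨L + S0, z, by omega, by omega, hzT.1, hzT.2, ?_, by rw [← hθ]; exact hq⟩
  have hzr : (z : ℝ) - v * ((L + S0 : ℕ) : ℝ) = (r0 + j * κ) * (U * L) + (y0 + w - 1 - v * S0) := by
    rw [hρ j, hz]
    push_cast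
    ring
  have hb1 : |(r0 + j * κ) * (U * L)| ≤ R1 * (U * L) := by
    rw [abs_mul, abs_of_pos hUL0]
    exact mul_le_mul_of_nonneg_right hjR hUL0.le
  have hb2 : |(y0 : ℝ) + w - 1 - v * S0| ≤ C * w + w := by
    rw [abs_le]
    constructor
    · linarith
    · have h1 : 0 ≤ (v - c) * S0 := mul_nonneg hvc0 hS00
      have h2 : v * S0 = (v - c) * S0 + c * S0 := by ring
      have h3 : 0 ≤ C * w := by positivity
      linarith
  have hT : U * L ≤ U * ((L + S0 : ℕ) : ℝ) := by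
    refine mul_le_mul_of_nonneg_left ?_ hU0.le
    push_cast
    linarith
  rw [hzr]
  refine (abs_add_le _ _).trans ?_
  calc |(r0 + j * κ) * (U * L)| + |(y0 : ℝ) + w - 1 - v * S0| ≤ R1 * (U * L) + (C * w + w) :=
        add_le_add hb1 hb2
    _ ≤ R1 * (U * L) + (C * (2 * (U * L)) + 2 * (U * L)) := by
        have : C * w ≤ C * (2 * (U * L)) := mul_le_mul_of_nonneg_left hw2 (by linarith)
        linarith
    _ = (R1 + 2 * C + 2) * (U * L) := by ring
    _ ≤ (R1 + 2 * C + 2) * (U * ((L + S0 : ℕ) : ℝ)) := mul_le_mul_of_nonneg_left hT (by positivity)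
    _ = (R1 + 2 * C + 2) * U * ((L + S0 : ℕ) : ℝ) := by ring

end

end Pool.Agent.W_7d29a1_F
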