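import Pool.Agent.W_7d29a1_F.DdC
import Pool.Agent.W_7d29a1_f21.Win

/-!
THEOREM F: existence of the window data `WdD`. TASK DdD (helper21).
-/

namespace Pool.Agent.W_7d29a1_F

open MeasureTheory ProbabilityTheory Filter Topology

noncomputable section

variable {μ : Measure ℝ} [IsProbabilityMeasure μ] {s v1 v2 : ℝ} {B : ℕ → ℝ}

/-- No decay to the left of `v2`. -/
theorem not_Dec_low (S : Setup μ s v1 v2) {θ v γ : ℝ} (hθ : 0 < θ) (hθ1 : θ ≤ 1) (hv : v ≤ v2)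
    (hγ : 0 < γ) : ¬ Dec μ s θ v γ := by
  intro hD
  have hμ := S.em
  have hD2 : Dec μ s θ v2 γ := hD.mono_v hμ hθ.le hv
  obtain ⟨C', hC'0, hC'⟩ := e_le_linear (μ := μ) hμ s
  have h12 := S.v12
  have h2 := S.v2lt
  have h1 := S.v1pos
  have h0 : 0 < 1 - v2 := by linarith
  set δ : ℝ := min ((v2 - v1) / 4) (γ * (1 - v2) / (4 * C')) with hδ
  have hδ0 : 0 < δ := lt_min (by linarith) (by positivity)
  have hδ1 : δ ≤ (v2 - v1) / 4 := min_le_left _ _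
  have hδ2 : δ ≤ γ * (1 - v2) / (4 * C') := min_le_right _ _
  have hδ3 : C' * (δ / (1 - v2)) ≤ γ / 4 := by
    rw [le_div_iff₀ (by positivity)] at hδ2
    rw [← mul_div_assoc, div_le_iff₀ h0]
    linarith
  obtain ⟨C, hC⟩ := apriori (μ := μ) S (w1 := v1 + (v2 - v1) / 4) (w2 := v2 - δ) (by linarith)
    (by linarith)
  set D : ℝ := C' * (1 / (1 - v2) + 1) with hDdef
  -- the limit
  have hlim : Tendsto (fun n : ℕ => |C| * (n : ℝ) ^ (-(1 / 5) : ℝ) + D / n) atTop (𝓝 0) := by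
    have t1 : Tendsto (fun n : ℕ => (n : ℝ) ^ (-(1 / 5) : ℝ)) atTop (𝓝 0) :=
      (tendsto_rpow_neg_atTop (by norm_num)).comp tendsto_natCast_atTop_atTop
    have t2 : Tendsto (fun n : ℕ => D / (n : ℝ)) atTop (𝓝 0) :=
      tendsto_const_div_atTop_nhds_zero_nat D
    simpa using (t1.const_mul |C|).add t2
  have hev : ∀ᶠ n : ℕ in atTop, |C| * (n : ℝ) ^ (-(1 / 5) : ℝ) + D / n < γ / 2 :=
    hlim.eventually (gt_mem_nhds (by positivity))
  have hev2 : ∀ᶠ n : ℕ in atTop, (4 / (v2 - v1)) ≤ (n : ℝ) :=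
    tendsto_natCast_atTop_atTop.eventually_ge_atTop _
  obtain ⟨n, hn, hn2, hn1⟩ := (hev.and (hev2.and (eventually_ge_atTop 1))).exists
  have hnR : (1 : ℝ) ≤ n := by exact_mod_cast hn1
  have hn4 : 4 ≤ (v2 - v1) * n := by
    rw [div_le_iff₀ (by linarith)] at hn2
    linarith
  set y : ℤ := ⌊(v2 - δ) * n⌋ with hy
  have hyle : (y : ℝ) ≤ (v2 - δ) * n := Int.floor_le _
  have hygt : (v2 - δ) * n < y + 1 := Int.lt_floor_add_one _
  have hy1 : (v1 + (v2 - v1) / 4) * n ≤ y := by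
    have h3 := mul_le_mul_of_nonneg_right hδ1 (by linarith : (0 : ℝ) ≤ n)
    linarith
  have hyR0 : (0 : ℝ) ≤ y := by
    refine le_trans ?_ hy1
    have : 0 < v1 + (v2 - v1) / 4 := by linarith
    positivity
  have hy0 : 0 ≤ y := by exact_mod_cast hyR0
  have hyn : y ≤ n := by
    have : (y : ℝ) ≤ n := by
      have h3 : (v2 - δ) * n ≤ 1 * n := mul_le_mul_of_nonneg_right (by linarith) (by linarith)
      linarith
    exact_mod_cast this
  have he1 := hC n y hy1 hyle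
  set k : ℕ := ⌈(δ * n + 1) / (1 - v2)⌉₊ with hk
  have hk1 : (δ * n + 1) / (1 - v2) ≤ k := Nat.le_ceil _
  have hk2 : (k : ℝ) < (δ * n + 1) / (1 - v2) + 1 := Nat.ceil_lt_add_one (by positivity)
  rw [div_le_iff₀ h0] at hk1
  have he2 : e μ s k (k : ℤ) ≤ C' * k := hC' k k (by positivity) le_rfl
  have he3 : e μ s (n + k) (y + k) ≤ e μ s n y + e μ s k (k : ℤ) :=
    e_add_le hμ hy0 hyn (by positivity) le_rfl
  have hN : 1 ≤ n + k := by omega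
  have hdir : v2 * ((n + k : ℕ) : ℝ) ≤ ((y + k : ℤ) : ℝ) := by
    push_cast
    linarith
  have hJ := exp_neg_e_le (μ := μ) (s := s) hμ 0 (n := n + k) (y := y + k) (by omega)
    (by push_cast; omega) θ
  have hWF : ∫ η, W μ s η 0 (n + k) (y + k) ^ θ ∂(law μ) ≤
      ∫ η, Fv μ s η 0 (n + k) v2 ^ θ ∂(law μ) :=
    integral_mono (W_rpow_integrable hμ _ _ _ hθ.le) (Fv_rpow_integrable hμ _ _ _ hθ.le)
      fun η => Real.rpow_le_rpow (W_nonneg _ _ _ _)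
        (W_le_Fv η 0 (by omega) (by push_cast; omega) hdir) hθ.le
  have hfin := (hJ.trans hWF).trans (hD2 (n + k) hN)
  rw [Real.exp_le_exp] at hfin
  -- (n + k) γ ≤ θ e ≤ |C| n^{4/5} + C' k
  have hk0 : (0 : ℝ) ≤ k := Nat.cast_nonneg k
  have h5 : (n : ℝ) ^ (4 / 5 : ℝ) = n * (n : ℝ) ^ (-(1 / 5) : ℝ) := by
    nth_rewrite 2 [← Real.rpow_one (n : ℝ)]
    rw [← Real.rpow_add (by linarith)]
    norm_num
  have h6 : e μ s (n + k) (y + k) ≤ |C| * (n * (n : ℝ) ^ (-(1 / 5) : ℝ)) + C' * k := by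
    rw [← h5]
    have h7 : C * (n : ℝ) ^ (4 / 5 : ℝ) ≤ |C| * (n : ℝ) ^ (4 / 5 : ℝ) :=
      mul_le_mul_of_nonneg_right (le_abs_self C) (by positivity)
    linarith
  have h7 : 0 ≤ |C| * (n * (n : ℝ) ^ (-(1 / 5) : ℝ)) + C' * k := by positivity
  have h8 : θ * e μ s (n + k) (y + k) ≤ |C| * (n * (n : ℝ) ^ (-(1 / 5) : ℝ)) + C' * k := by
    calc θ * e μ s (n + k) (y + k) ≤ θ * (|C| * (n * (n : ℝ) ^ (-(1 / 5) : ℝ)) + C' * k) :=
          mul_le_mul_of_nonneg_left h6 hθ.le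
      _ ≤ 1 * (|C| * (n * (n : ℝ) ^ (-(1 / 5) : ℝ)) + C' * k) := mul_le_mul_of_nonneg_right hθ1 h7
      _ = _ := one_mul _
  have h9 : ((n + k : ℕ) : ℝ) * γ ≤ |C| * (n * (n : ℝ) ^ (-(1 / 5) : ℝ)) + C' * k := by linarith
  push_cast at h9
  have h10 : C' * (k : ℝ) ≤ n * (γ / 4) + D := by
    have h11 : C' * (k : ℝ) ≤ C' * ((δ * n + 1) / (1 - v2) + 1) :=
      mul_le_mul_of_nonneg_left hk2.le hC'0.le
    have h12 : C' * ((δ * n + 1) / (1 - v2) + 1) = (C' * (δ / (1 - v2))) * n + D := by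
      rw [hDdef]
      field_simp
      ring
    have h13 : (C' * (δ / (1 - v2))) * n ≤ γ / 4 * n := mul_le_mul_of_nonneg_right hδ3 (by linarith)
    linarith
  have h11 : n * (|C| * (n : ℝ) ^ (-(1 / 5) : ℝ) + D / n) < n * (γ / 2) :=
    mul_lt_mul_of_pos_left hn (by linarith)
  have h12 : n * (|C| * (n : ℝ) ^ (-(1 / 5) : ℝ) + D / n) =
      |C| * (n * (n : ℝ) ^ (-(1 / 5) : ℝ)) + D := by
    field_simp
  have h13 : 0 ≤ (k : ℝ) * γ := by positivity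
  have h14 : 0 ≤ (n : ℝ) * γ := by positivity
  linarith

lemma Ls_pos (m0 i : ℕ) : 1 ≤ Ls m0 i := Nat.one_le_two_pow

lemma Ls_succ (m0 i : ℕ) : Ls m0 (i + 1) = 2 ^ 16 * Ls m0 i := by
  unfold Ls
  rw [← pow_add]
  congr 1
  ring

/-- At large scales there is decay at `v2 + dd`. -/
theorem Dec_far (S : Setup μ s v1 v2) (U : UnitB μ s v1 v2 B) :
    ∀ᶠ L : ℕ in atTop, Dec μ s (1 / B L) (v2 + dd v1 v2) (1 / L) := by
  obtain ⟨c, C, hc, hfar⟩ := far (μ := μ) S S.dpos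
  obtain ⟨c', hc', hlow⟩ := U.lower
  obtain ⟨C', hup⟩ := U.upper
  -- B L → ∞
  have t1 : Tendsto (fun L : ℕ => c' * Real.log L) atTop atTop :=
    (Real.tendsto_log_atTop.comp tendsto_natCast_atTop_atTop).const_mul_atTop hc'
  have e1 : ∀ᶠ L : ℕ in atTop, 2 * |C| / c ≤ c' * Real.log L := t1.eventually_ge_atTop _
  -- C' L^(7/8) ≤ c L / 2
  have t2 : Tendsto (fun L : ℕ => (L : ℝ) ^ (1 / 8 : ℝ)) atTop atTop :=
    (tendsto_rpow_atTop (by norm_num)).comp tendsto_natCast_atTop_atTop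
  have e2 : ∀ᶠ L : ℕ in atTop, 2 * |C'| / c ≤ (L : ℝ) ^ (1 / 8 : ℝ) := t2.eventually_ge_atTop _
  filter_upwards [e1, e2, eventually_ge_atTop 1] with L h1 h2 hL
  have hLR : (1 : ℝ) ≤ L := by exact_mod_cast hL
  have hB1 := U.one_le L
  have hB0 : 0 < B L := by linarith
  have hθ0 : 0 < 1 / B L := by positivity
  have hθ1 : 1 / B L ≤ 1 := by rw [div_le_one hB0]; exact hB1
  intro N hN
  refine (hfar N (1 / B L) hθ0 hθ1).trans (Real.exp_le_exp.2 ?_)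
  have hN0 : (0 : ℝ) < N := by exact_mod_cast hN
  -- |C| θ ≤ c / 2
  have h3 : C * (1 / B L) ≤ c / 2 := by
    have h4 : 2 * |C| / c ≤ B L := h1.trans (hlow L hL)
    rw [div_le_iff₀ hc] at h4
    have h5 : C * (1 / B L) ≤ |C| * (1 / B L) := mul_le_mul_of_nonneg_right (le_abs_self C) hθ0.le
    refine h5.trans ?_
    rw [mul_one_div, div_le_div_iff₀ hB0 (by norm_num)]
    linarith
  -- 1 / L ≤ c θ / 2
  have h4 : 1 / (L : ℝ) ≤ c / 2 * (1 / B L) := by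
    have h5 := hup L hL
    have h6 : (L : ℝ) = (L : ℝ) ^ (7 / 8 : ℝ) * (L : ℝ) ^ (1 / 8 : ℝ) := by
      rw [← Real.rpow_add (by linarith)]
      norm_num
    have h7 : B L ≤ c / 2 * L := by
      have h8 : C' * (L : ℝ) ^ (7 / 8 : ℝ) ≤ |C'| * (L : ℝ) ^ (7 / 8 : ℝ) :=
        mul_le_mul_of_nonneg_right (le_abs_self C') (by positivity)
      rw [div_le_iff₀ hc] at h2
      have h9 : (0 : ℝ) < (L : ℝ) ^ (7 / 8 : ℝ) := by positivity
      have h10 := mul_le_mul_of_nonneg_right h2 h9.le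
      have h11 : c / 2 * (L : ℝ) = c / 2 * ((L : ℝ) ^ (7 / 8 : ℝ) * (L : ℝ) ^ (1 / 8 : ℝ)) := by
        rw [← h6]
      rw [h11]
      linarith
    rw [mul_one_div, div_le_div_iff₀ (by linarith) hB0]
    linarith
  have h5 : -c * (1 / B L) * N + C * (1 / B L) ^ 2 * N = -(N * (c * (1 / B L) - (C * (1 / B L)) * (1 / B L))) := by
    ring
  rw [h5, neg_le_neg_iff]
  refine mul_le_mul_of_nonneg_left ?_ hN0.le
  have h6 : (C * (1 / B L)) * (1 / B L) ≤ c / 2 * (1 / B L) := mul_le_mul_of_nonneg_right h3 hθ0.le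
  linarith

theorem wdD_exists (S : Setup μ s v1 v2) (U : UnitB μ s v1 v2 B) :
    ∃ (m0 i0 : ℕ) (v Uw Us : ℕ → ℝ) (T : ℕ → ℕ) (z : ℕ → ℤ) (R q : ℝ),
      WdD μ s v1 v2 B m0 i0 v Uw Us T z R q := by
  obtain ⟨Lf, hLf⟩ := eventually_atTop.1 (Dec_far S U)
  obtain ⟨m0, hm0⟩ : ∃ m0 : ℕ, Lf ≤ 2 ^ (16 * m0) := by
    refine ⟨Lf, ?_⟩
    calc Lf ≤ 2 ^ Lf := Nat.lt_two_pow_self.le
      _ ≤ 2 ^ (16 * Lf) := Nat.pow_le_pow_right (by norm_num) (by omega)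
  have hLfi : ∀ i, Lf ≤ Ls m0 i := fun i =>
    hm0.trans (Nat.pow_le_pow_right (by norm_num) (by omega))
  have hLpos : ∀ i, (0 : ℝ) < (Ls m0 i : ℝ) := fun i => by exact_mod_cast Ls_pos m0 i
  have hB0 : ∀ n, 0 < B n := fun n => by linarith [U.one_le n]
  have hθ0 : ∀ i, 0 < 1 / B (Ls m0 i) := fun i => by have := hB0 (Ls m0 i); positivity
  have hθ1 : ∀ i, 1 / B (Ls m0 i) ≤ 1 := fun i => by
    rw [div_le_one (hB0 _)]; exact U.one_le _
  have hfls : Summable fun i : ℕ => 1 / ((i : ℝ) + 1) ^ 2 := by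
    have h := (summable_nat_add_iff 1).2 (Real.summable_one_div_nat_pow.2 (by norm_num : 1 < 2))
    simpa using h
  obtain ⟨v, Uw, hanti, hv2, hv1, hfl, hUs, hlow, hhigh⟩ := W_7d29a1_f21.win
    (D := fun i x γ => Dec μ s (1 / B (Ls m0 i)) x γ) (v2 := v2) (L := fun i => (Ls m0 i : ℝ))
    (lam := fun i => B (Ls m0 i) / B (Ls m0 (i + 1))) (fl := fun i : ℕ => 1 / ((i : ℝ) + 1) ^ 2)
    (mu := 4) le_rfl hLpos S.v2lt.le (fun i v γ γ' h hD => hD.mono_g h)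
    (fun i v v' γ h hD => hD.mono_v S.em (hθ0 i).le h)
    (fun i v γ _ hD => by
      have hle : B (Ls m0 i) / B (Ls m0 (i + 1)) ≤ 1 := by
        rw [div_le_one (hB0 _)]
        refine U.mono ?_
        rw [Ls_succ]
        omega
      have h := hD.scale S.em (hθ0 i) (div_pos (hB0 (Ls m0 i)) (hB0 (Ls m0 (i + 1)))) hle
      have e : B (Ls m0 i) / B (Ls m0 (i + 1)) * (1 / B (Ls m0 i)) = 1 / B (Ls m0 (i + 1)) := by
        have h1 := (hB0 (Ls m0 i)).ne'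
        have h2 := (hB0 (Ls m0 (i + 1))).ne'
        field_simp
      rwa [e] at h)
    (fun i => by
      have h := U.grow (Ls m0 i) (Ls m0 (i + 1)) (Ls_pos _ _) (by rw [Ls_succ]; omega)
      have e1 : ((Ls m0 (i + 1) : ℕ) : ℝ) = 2 ^ 16 * (Ls m0 i : ℝ) := by
        rw [Ls_succ]; push_cast; ring
      have e2 : (((Ls m0 (i + 1) : ℕ) : ℝ) / (Ls m0 i : ℝ)) ^ (7 / 8 : ℝ) = 2 ^ 14 := by
        rw [e1, mul_div_assoc, div_self (hLpos i).ne', mul_one, ← Real.rpow_natCast,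
          ← Real.rpow_mul (by norm_num)]
        norm_num
      rw [e2] at h
      rw [e1, div_mul_eq_mul_div, le_div_iff₀ (hB0 _)]
      have h2 := hLpos i
      have h3 := mul_le_mul_of_nonneg_left h h2.le
      linarith)
    (fun i x γ h1 h2 => not_Dec_low S (hθ0 i) (hθ1 i) h1 h2)
    (fun i x γ h => Dec.top (hθ0 i) h)
    (fun i => by positivity) hfls
  have hU0 : ∀ i, 0 < Uw i := fun i => lt_of_lt_of_le (by positivity) (hfl i)
  obtain ⟨Us, hUss, hUUs, hUsw⟩ := W_7d29a1_f21.ustar (v := v) (U := Uw) (v2 := v2)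
    (r := (2 : ℝ) ^ (-(1 / 4 : ℝ))) (by positivity)
    (Real.rpow_lt_one_of_one_lt_of_neg (by norm_num) (by norm_num)) hanti hv2
    (fun i => (hU0 i).le) hUs
  have hvle : ∀ i, v i ≤ v2 + dd v1 v2 := by
    intro i
    by_contra h
    exact hlow i _ (not_le.1 h) (hLf (Ls m0 i) (hLfi i))
  obtain ⟨R, q, u0, L1, hR, hq, hu0, hedge⟩ := edge_point (μ := μ) S U
  have ev1 : ∀ᶠ i in atTop, Uw i < u0 := hUs.tendsto_atTop_zero.eventually (gt_mem_nhds hu0)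
  have ev2 : ∀ᶠ i : ℕ in atTop, L1 ≤ Uw i * (Ls m0 i : ℝ) := by
    have e1 : ∀ᶠ i : ℕ in atTop, L1 ≤ (i : ℝ) := tendsto_natCast_atTop_atTop.eventually_ge_atTop _
    filter_upwards [e1] with i hi
    refine hi.trans ?_
    have h1 : (i : ℝ) * ((i : ℝ) + 1) ^ 2 ≤ (Ls m0 i : ℝ) := by
      have h2 : (i : ℝ) + 1 ≤ 2 ^ i := by exact_mod_cast Nat.lt_two_pow_self
      have h3 : (i : ℝ) * ((i : ℝ) + 1) ^ 2 ≤ (2 ^ i) ^ 3 := by
        have h4 : (i : ℝ) ≤ 2 ^ i := by linarith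
        calc (i : ℝ) * ((i : ℝ) + 1) ^ 2 ≤ 2 ^ i * (2 ^ i) ^ 2 :=
              mul_le_mul h4 (pow_le_pow_left₀ (by positivity) h2 2) (by positivity) (by positivity)
          _ = (2 ^ i) ^ 3 := by ring
      refine h3.trans ?_
      unfold Ls
      push_cast
      rw [← pow_mul]
      exact pow_le_pow_right₀ (by norm_num) (by omega)
    have h2 : 1 / ((i : ℝ) + 1) ^ 2 * (Ls m0 i : ℝ) ≤ Uw i * (Ls m0 i : ℝ) :=
      mul_le_mul_of_nonneg_right (hfl i) (hLpos i).le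
    refine le_trans ?_ h2
    rw [one_div, inv_mul_eq_div, le_div_iff₀ (by positivity)]
    exact h1
  obtain ⟨i0, hi0⟩ := eventually_atTop.1 (ev1.and ev2)
  have hex : ∀ i, i0 ≤ i → ∃ (T : ℕ) (z : ℤ), Ls m0 i ≤ T ∧ T ≤ 2 * Ls m0 i ∧ 0 ≤ z ∧ z ≤ T ∧
      |(z : ℝ) - v i * T| ≤ R * Uw i * T ∧
      q ≤ ∫ η, W μ s η 0 T z ^ (1 / B (Ls m0 i)) ∂(law μ) := fun i hi =>
    hedge (Ls m0 i) (v i) (Uw i) (Ls_pos _ _) (hv2 i) (hvle i) (hU0 i) (hi0 i hi).1.le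
      (hi0 i hi).2 (hlow i _ (by linarith [hU0 i])) (fun x hx => hhigh i x hx)
  choose! T z hT using hex
  exact ⟨m0, i0, v, Uw, Us, T, z, R, q, ⟨hanti, hv2, hvle, hfl, hUUs, hUss, hUsw,
    fun i N hN x hx => hhigh i x hx N hN, hR, hq, fun i hi => (hT i hi).1,
    fun i hi => (hT i hi).2.1, fun i hi => (hT i hi).2.2.1, fun i hi => (hT i hi).2.2.2.1,
    fun i hi => (hT i hi).2.2.2.2.1, fun i hi => (hT i hi).2.2.2.2.2⟩⟩

end

end Pool.Agent.W_7d29a1_F
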