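import Pool.Agent.W_7d29a1_F.Iface

/-!
THEOREM F, sections 3 and 6 by the predicate `Dec` (head: helper21): definitions.
-/

namespace Pool.Agent.W_7d29a1_F

open MeasureTheory ProbabilityTheory Filter Topology

noncomputable section

/-- Exponential decay at ALL lengths: `E F_N(v) ^ θ ≤ exp (- N γ)` for all `N ≥ 1`. -/
def Dec (μ : Measure ℝ) (s θ v γ : ℝ) : Prop :=
  ∀ N : ℕ, 1 ≤ N → ∫ η, Fv μ s η 0 N v ^ θ ∂(law μ) ≤ Real.exp (-(N * γ))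

/-- The scales `L i = 2 ^ (16 (i + m0))`. -/
def Ls (m0 i : ℕ) : ℕ := 2 ^ (16 * (i + m0))

/-- The window data: edge directions `v i`, relative widths `U i`, `Us i`, and the point `(T i, z i)` near the
edge which has a fractional moment bounded below (`θ_i = 1 / B (Ls m0 i)`). -/
structure WdD (μ : Measure ℝ) (s v1 v2 : ℝ) (B : ℕ → ℝ) (m0 i0 : ℕ) (v U Us : ℕ → ℝ) (T : ℕ → ℕ)
    (z : ℕ → ℤ) (R q : ℝ) : Prop where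
  anti : Antitone v
  v2le : ∀ i, v2 ≤ v i
  vle : ∀ i, v i ≤ v2 + dd v1 v2
  Uge : ∀ i : ℕ, 1 / ((i : ℝ) + 1) ^ 2 ≤ U i
  UUs : ∀ i, U i ≤ Us i
  Usum : Summable Us
  Usw : ∀ i p, p ≤ i →
    ((2 : ℝ) ^ (-(1 / 4 : ℝ))) ^ p * (U (i - p) + (v (i - p) - v i)) ≤ 2 * Us i
  high : ∀ i, ∀ N : ℕ, 1 ≤ N → ∀ x : ℝ, v i < x →
    ∫ η, Fv μ s η 0 N x ^ (1 / B (Ls m0 i)) ∂(law μ) ≤
      Real.exp (-(N * ((x - v i) / (U i * Ls m0 i))))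
  R0 : 0 ≤ R
  q0 : 0 < q
  Tge : ∀ i ≥ i0, Ls m0 i ≤ T i
  Tle : ∀ i ≥ i0, T i ≤ 2 * Ls m0 i
  z0 : ∀ i ≥ i0, 0 ≤ z i
  zT : ∀ i ≥ i0, z i ≤ T i
  dir : ∀ i ≥ i0, |(z i : ℝ) - v i * T i| ≤ R * U i * T i
  pt : ∀ i ≥ i0, q ≤ ∫ η, W μ s η 0 (T i) (z i) ^ (1 / B (Ls m0 i)) ∂(law μ)

/-- The fractional moment of the weight of the displacements `(n, y)`, `j w + y0 ≤ y < (j + 1) w + y0`. -/
def Psi (μ : Measure ℝ) (s θ : ℝ) (n w : ℕ) (y0 : ℤ) (j : ℤ) : ℝ :=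
  ∫ η, WS μ s η 0 n (Finset.Ico (j * w + y0) ((j + 1) * w + y0)) ^ θ ∂(law μ)

end

end Pool.Agent.W_7d29a1_F
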