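import Pool.Agent.W_7d29a1_h47.SiteG
import Pool.Agent.W_7d29a1_h47.Defs

/-!
THEOREM F: the free energy of the directed polymer in dimension `1 + 1` is differentiable in the force.
Definitions. The paper proof is row 602 of the table `proofs`, with the shortcuts of board message
45848 (sections 4, 5, 8 are not needed).

Coordinates: sites are `(time, position) : ℤ × ℤ`, the steps are `(1, 0)` and `(1, 1)` (so there is no
parity); every displacement `(n, y)` with `0 ≤ y ≤ n` can be made.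
-/

namespace Pool.Agent.W_7d29a1_F

open MeasureTheory ProbabilityTheory Filter Topology

noncomputable section

/-- Sites: `(time, position)`. -/
abbrev Pt := ℤ × ℤ

/-- Environments. -/
abbrev Env := Pt → ℝ

/-- The law of the environment: independent sites with law `μ`. -/
def law (μ : Measure ℝ) : Measure Env := Measure.infinitePi fun _ => μ

instance (μ : Measure ℝ) [IsProbabilityMeasure μ] : IsProbabilityMeasure (law μ) := by
  unfold law
  infer_instance

/-- The environment seen from the site `a`. -/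
def sh (a : Pt) (η : Env) : Env := fun p => η (p + a)

/-- The partition function of the paths with `n` steps (`(1, 0)` or `(1, 1)`) from `a` to `a + (n, y)`
all of whose sites except the first one are in `R`; the weight of a path is the exponential of the sum
of `η` over its sites except the first one. -/
def Zr (R : Set Pt) (η : Env) (a : Pt) : ℕ → ℤ → ℝ
  | 0, y => if y = 0 then 1 else 0
  | n + 1, y => R.indicator (fun p => Real.exp (η p)) (a.1 + (n + 1), a.2 + y) *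
      (Zr R η a n y + Zr R η a n (y - 1))

/-- The free energy with the weight `exp (s y)` of the end point `(n, y)`. -/
def lam (μ : Measure ℝ) (s : ℝ) : ℝ := Pool.Agent.W_7d29a1_h47.Lam μ (s / 2) + s / 2

/-- The normalised weight `Z exp (- L)`, `L (n, y) = n lam - s y`, of the paths in `R`. -/
def WR (μ : Measure ℝ) (s : ℝ) (R : Set Pt) (η : Env) (a : Pt) (n : ℕ) (y : ℤ) : ℝ :=
  Real.exp (s * y - n * lam μ s) * Zr R η a n y

/-- The normalised point to point weight from `a` to `a + (n, y)`. -/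
def W (μ : Measure ℝ) (s : ℝ) (η : Env) (a : Pt) (n : ℕ) (y : ℤ) : ℝ := WR μ s Set.univ η a n y

/-- The cost `X = - log W`. -/
def X (μ : Measure ℝ) (s : ℝ) (η : Env) (a : Pt) (n : ℕ) (y : ℤ) : ℝ := -Real.log (W μ s η a n y)

/-- The mean cost of the displacement `(n, y)`. -/
def e (μ : Measure ℝ) (s : ℝ) (n : ℕ) (y : ℤ) : ℝ := ∫ η, X μ s η 0 n y ∂(law μ)

/-- The weight of the displacements `(n, y)`, `y ∈ A`. -/
def WS (μ : Measure ℝ) (s : ℝ) (η : Env) (a : Pt) (n : ℕ) (A : Finset ℤ) : ℝ :=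
  ∑ y ∈ A, W μ s η a n y

/-- The luck `V_n(a)`: the logarithm of the point to level weight. -/
def V (μ : Measure ℝ) (s : ℝ) (η : Env) (a : Pt) (n : ℕ) : ℝ :=
  Real.log (WS μ s η a n (Finset.Icc (0 : ℤ) n))

/-- The weight `F_n(v)` of the displacements `(n, y)` with `v n ≤ y`. -/
def Fv (μ : Measure ℝ) (s : ℝ) (η : Env) (a : Pt) (n : ℕ) (v : ℝ) : ℝ :=
  WS μ s η a n ((Finset.Icc (0 : ℤ) n).filter fun y => v * n ≤ y)

/-- The starts and lengths `((t, x), j)` with `0 ≤ t`, `|x| ≤ H`, `t + j ≤ H`. -/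
def Box (H : ℕ) : Finset ((ℕ × ℤ) × ℕ) :=
  ((Finset.range (H + 1) ×ˢ Finset.Icc (-(H : ℤ)) H) ×ˢ Finset.range (H + 1)).filter
    fun q => q.1.1 + q.2 ≤ H

lemma Box_nonempty (H : ℕ) : (Box H).Nonempty := by
  refine ⟨((0, 0), 0), ?_⟩
  simp [Box]

/-- The largest luck in the box of size `H`. -/
def Mx (μ : Measure ℝ) (s : ℝ) (η : Env) (H : ℕ) : ℝ :=
  (Box H).sup' (Box_nonempty H) fun q => V μ s η ((q.1.1 : ℤ), q.1.2) q.2

/-- The assumption which is to be refuted: `v1 < v2` are the left and the right derivative of `lam` at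
`s`. -/
structure Setup (μ : Measure ℝ) (s v1 v2 : ℝ) : Prop where
  em : Pool.Agent.W_7d29a1_h47.EM μ
  nd : Pool.Agent.W_7d29a1_h47.Nondeg μ
  v1pos : 0 < v1
  v12 : v1 < v2
  v2lt : v2 < 1
  hl : HasDerivWithinAt (lam μ) v1 (Set.Iic s) s
  hr : HasDerivWithinAt (lam μ) v2 (Set.Ici s) s

/-- The unit of length of directions: `v2 - v1 = 40 d`. -/
def dd (v1 v2 : ℝ) : ℝ := (v2 - v1) / 40

/-- The centre of the cone. -/
def vc (v1 v2 : ℝ) : ℝ := (v1 + v2) / 2

/-- The cone `K0`: directions at distance at most `17 d` from the centre (the edges `v1`, `v2` are at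
distance `20 d`), with slack `4`. -/
def K0 (v1 v2 : ℝ) (n : ℕ) (y : ℤ) : Prop :=
  0 ≤ y ∧ y ≤ n ∧ |(y : ℝ) - vc v1 v2 * n| ≤ 17 * dd v1 v2 * n + 4

/-- The largest mean cost of a displacement in the cone `K0` of time at most `n`, plus `1`. -/
def E (μ : Measure ℝ) (s v1 v2 : ℝ) (n : ℕ) : ℝ :=
  1 + sSup {r | ∃ (t : ℕ) (y : ℤ), t ≤ n ∧ K0 v1 v2 t y ∧ r = e μ s t y}

/-- `sup_{m ≥ n} (n / m) ^ (7 / 8) E m`. -/
def Bh (μ : Measure ℝ) (s v1 v2 : ℝ) (n : ℕ) : ℝ :=
  sSup {r | ∃ m : ℕ, n ≤ m ∧ r = ((n : ℝ) / m) ^ (7 / 8 : ℝ) * E μ s v1 v2 m}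

/-- The properties of the unit `B`. -/
structure UnitB (μ : Measure ℝ) (s v1 v2 : ℝ) (B : ℕ → ℝ) : Prop where
  one_le : ∀ n, 1 ≤ B n
  mono : Monotone B
  grow : ∀ m n : ℕ, 1 ≤ m → m ≤ n → B n ≤ ((n : ℝ) / m) ^ (7 / 8 : ℝ) * B m
  luck : ∀ n : ℕ, 1 ≤ n → ∫ η, Real.exp (2 * Mx μ s η (8 * n) / B n) ∂(law μ) ≤ Real.exp 1
  move : ∀ (n t : ℕ) (y : ℤ), K0 v1 v2 t y → t ≤ 8 * n → e μ s t y ≤ B n
  upper : ∃ C : ℝ, ∀ n : ℕ, 1 ≤ n → B n ≤ C * (n : ℝ) ^ (7 / 8 : ℝ)
  lower : ∃ c : ℝ, 0 < c ∧ ∀ n : ℕ, 1 ≤ n → c * Real.log n ≤ B n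
  unit : ∃ Q : ℝ, ∀ n : ℕ, 1 ≤ n → B n ≤ Q * Bh μ s v1 v2 n

end

end Pool.Agent.W_7d29a1_F
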