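import Pool.Agent.W_7d29a1_F.GrC

/-! Section 9, GrD: the crossing inequality for the mean costs. -/

namespace Pool.Agent.W_7d29a1_F

open MeasureTheory ProbabilityTheory Filter Topology

variable {μ : Measure ℝ} [IsProbabilityMeasure μ] {s v1 v2 : ℝ} {B : ℕ → ℝ}

theorem measurableSet_BadJ (T : ℕ) (z : ℤ) (r c : ℝ) (h J : ℕ) :
    MeasurableSet (BadJ μ s T z r c h J) := by
  have h1 : BadJ μ s T z r c h J = ⋂ j ∈ Finset.range J,
      {η | WR μ s (tube T z r) (sh (aj h j) η) 0 T z < c} := by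
    ext η
    simp [BadJ]
  rw [h1]
  exact Finset.measurableSet_biInter _ fun j _ => measurableSet_lt
    ((measurable_WR (tube T z r) 0 T z).comp (mp_sh (μ := μ) (aj h j)).measurable)
    measurable_const

private theorem GrD_exp_int (S : Setup μ s v1 v2) (T : ℕ) :
    Integrable (fun η => Real.exp (2 * Mx μ s η (8 * T) / B T)) (law μ) := by
  have h1 := ((Sub_Mx (μ := μ) (s := s) (8 * T)).const_mul (2 / B T)).exp_int S.em
  refine h1.congr (Eventually.of_forall fun η => ?_)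
  show Real.exp (2 / B T * Mx μ s η (8 * T)) = Real.exp (2 * Mx μ s η (8 * T) / B T)
  congr 1
  ring

/-- `2 Mx / B ≤ exp (2 Mx / B) - 1`. -/
theorem int_Mx_le (S : Setup μ s v1 v2) (U : UnitB μ s v1 v2 B) {T : ℕ} (hT : 1 ≤ T) :
    ∫ η, Mx μ s η (8 * T) ∂(law μ) ≤ B T := by
  have hB : 0 < B T := lt_of_lt_of_le zero_lt_one (U.one_le T)
  have hM : Integrable (fun η => Mx μ s η (8 * T)) (law μ) := (Sub_Mx _).integrable S.em
  have hE := GrD_exp_int (B := B) S T
  have h1 : ∫ η, 2 * Mx μ s η (8 * T) / B T ∂(law μ) ≤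
      ∫ η, (Real.exp (2 * Mx μ s η (8 * T) / B T) - 1) ∂(law μ) := by
    refine integral_mono ((hM.const_mul 2).div_const _) (hE.sub (integrable_const _)) fun η => ?_
    have h2 := Real.add_one_le_exp (2 * Mx μ s η (8 * T) / B T)
    show 2 * Mx μ s η (8 * T) / B T ≤ Real.exp (2 * Mx μ s η (8 * T) / B T) - 1
    linarith
  rw [integral_div, integral_const_mul, integral_sub hE (integrable_const _), integral_const,
    probReal_univ, one_smul, div_le_iff₀ hB] at h1
  have h3 := U.luck T hT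
  have h4 := Real.exp_one_lt_d9
  have h5 : (∫ η, Real.exp (2 * Mx μ s η (8 * T) / B T) ∂(law μ) - 1) * B T ≤ 2 * B T :=
    mul_le_mul_of_nonneg_right (by linarith) hB.le
  linarith

/-- With `u = 2 Mx / B`: `1_Q u ≤ (δ u ^ 2 + 1_Q / δ) / 2` and `u ^ 2 ≤ 2 exp u`. -/
theorem int_Mx_bad (S : Setup μ s v1 v2) (U : UnitB μ s v1 v2 B) {T : ℕ} (hT : 1 ≤ T) {Q : Set Env}
    (hQ : MeasurableSet Q) {δ : ℝ} (hδ : 0 < δ) (hP : (law μ).real Q ≤ δ ^ 2) :
    ∫ η in Q, Mx μ s η (8 * T) ∂(law μ) ≤ 2 * δ * B T := by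
  have hB : 0 < B T := lt_of_lt_of_le zero_lt_one (U.one_le T)
  have hM : Integrable (fun η => Mx μ s η (8 * T)) (law μ) := (Sub_Mx _).integrable S.em
  have hE := GrD_exp_int (B := B) S T
  have hpt : ∀ η : Env, Q.indicator (fun η => Mx μ s η (8 * T)) η ≤
      B T / 2 * (δ * Real.exp (2 * Mx μ s η (8 * T) / B T)) +
        B T / 4 * (1 / δ) * Q.indicator (fun _ => (1 : ℝ)) η := by
    intro η
    have hM0 : 0 ≤ Mx μ s η (8 * T) := Gr_Mx_nonneg η _
    obtain ⟨u, hu⟩ : ∃ u : ℝ, u = 2 * Mx μ s η (8 * T) / B T := ⟨_, rfl⟩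
    have hu0 : 0 ≤ u := by
      rw [hu]
      positivity
    have hMu : Mx μ s η (8 * T) = B T / 2 * u := by
      rw [hu]
      field_simp
    have hq := Real.quadratic_le_exp_of_nonneg hu0
    rw [← hu]
    by_cases hη : η ∈ Q
    · rw [Set.indicator_of_mem hη, Set.indicator_of_mem hη, hMu]
      have h1 : u ≤ δ * Real.exp u + 1 / 2 * (1 / δ) := by
        have h2 : u ≤ δ * (u ^ 2 / 2) + 1 / 2 * (1 / δ) := by
          have h3 : δ * (u ^ 2 / 2) + 1 / 2 * (1 / δ) - u = (δ * u - 1) ^ 2 / (2 * δ) := by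
            field_simp
            ring
          have h4 : 0 ≤ (δ * u - 1) ^ 2 / (2 * δ) := by positivity
          linarith
        have h5 : δ * (u ^ 2 / 2) ≤ δ * Real.exp u :=
          mul_le_mul_of_nonneg_left (by linarith) hδ.le
        linarith
      have h6 : B T / 2 * u ≤ B T / 2 * (δ * Real.exp u + 1 / 2 * (1 / δ)) :=
        mul_le_mul_of_nonneg_left h1 (by linarith)
      linarith
    · rw [Set.indicator_of_notMem hη, Set.indicator_of_notMem hη, mul_zero, add_zero]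
      have := Real.exp_pos u
      positivity
  have hI1 : Integrable (fun η => B T / 2 * (δ * Real.exp (2 * Mx μ s η (8 * T) / B T)))
      (law μ) := (hE.const_mul δ).const_mul _
  have hI2 : Integrable (fun η => B T / 4 * (1 / δ) * Q.indicator (fun _ => (1 : ℝ)) η)
      (law μ) := ((integrable_const (1 : ℝ)).indicator hQ).const_mul _
  rw [← integral_indicator hQ]
  refine (integral_mono (hM.indicator hQ) (hI1.add hI2) hpt).trans ?_
  have h7 : ∫ η, (B T / 2 * (δ * Real.exp (2 * Mx μ s η (8 * T) / B T)) +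
      B T / 4 * (1 / δ) * Q.indicator (fun _ => (1 : ℝ)) η) ∂(law μ) =
      B T / 2 * (δ * ∫ η, Real.exp (2 * Mx μ s η (8 * T) / B T) ∂(law μ)) +
        B T / 4 * (1 / δ) * (law μ).real Q := by
    rw [integral_add hI1 hI2, integral_const_mul, integral_const_mul, integral_const_mul,
      integral_indicator_const _ hQ, smul_eq_mul, mul_one]
  refine (le_of_eq h7).trans ?_
  have h8 := U.luck T hT
  have h9 := Real.exp_one_lt_d9
  have h10 : B T / 2 * (δ * ∫ η, Real.exp (2 * Mx μ s η (8 * T) / B T) ∂(law μ)) ≤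
      B T / 2 * (δ * 3) :=
    mul_le_mul_of_nonneg_left (mul_le_mul_of_nonneg_left (by linarith) hδ.le) (by linarith)
  have h11 : B T / 4 * (1 / δ) * (law μ).real Q ≤ B T / 4 * (1 / δ) * δ ^ 2 :=
    mul_le_mul_of_nonneg_left hP (by positivity)
  have h12 : B T / 4 * (1 / δ) * δ ^ 2 = B T / 4 * δ := by
    field_simp
  have h13 : 0 ≤ B T * δ := by positivity
  rw [h12] at h11
  nlinarith

/-- On the good event `cross_pt`, on `Q = BadJ` nothing. -/
theorem cross_int (S : Setup μ s v1 v2) {T : ℕ} {z : ℤ} {r : ℝ} {h J t : ℕ} {y : ℤ} {ρ K : ℕ}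
    {xs ys : ℕ → ℤ} (G : Geo v1 v2 T z r h J t y ρ K xs ys) (hy : 0 ≤ y ∧ y ≤ t) {c : ℝ}
    (hc : 0 < c) (hc1 : c ≤ 1) :
    K * e μ s t y ≤ ∑ k ∈ Finset.range (K + 1), e μ s (t - ρ) (ys k - xs k) - Real.log c +
      2 * ∫ η, Mx μ s η (8 * T) ∂(law μ) +
      (K + 1) * ∫ η in BadJ μ s T z r c h J, Mx μ s η (8 * T) ∂(law μ) +
      ∑ k ∈ Finset.range K, ∫ η in BadJ μ s T z r c h J, X μ s η (xk ρ xs k) t y ∂(law μ) := by
  obtain ⟨Q, hQdef⟩ : ∃ Q : Set Env, Q = BadJ μ s T z r c h J := ⟨_, rfl⟩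
  have hQ : MeasurableSet Q := by
    rw [hQdef]
    exact measurableSet_BadJ T z r c h J
  rw [← hQdef]
  have hM : Integrable (fun η => Mx μ s η (8 * T)) (law μ) := (Sub_Mx _).integrable S.em
  have hX : ∀ k, Integrable (fun η => X μ s η (xk ρ xs k) t y) (law μ) := fun k =>
    (Sub_X _ hy.1 hy.2).integrable S.em
  have hX' : ∀ k ∈ Finset.range (K + 1),
      Integrable (fun η => X μ s η (xk ρ xs k) (t - ρ) (ys k - xs k)) (law μ) := by
    intro k hk
    obtain ⟨h1, h2, -⟩ := G.cone k (Nat.lt_succ_iff.1 (Finset.mem_range.1 hk))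
    exact (Sub_X _ h1 h2).integrable S.em
  have hlow : ∀ (η : Env), ∀ k ∈ Finset.range (K + 1),
      -Mx μ s η (8 * T) ≤ X μ s η (xk ρ xs k) (t - ρ) (ys k - xs k) := by
    intro η k hk
    have hk' := Nat.lt_succ_iff.1 (Finset.mem_range.1 hk)
    obtain ⟨h1, h2, -⟩ := G.cone k hk'
    have h3 := neg_X_le_V (μ := μ) (s := s) η (xk ρ xs k) h1 h2
    have h4 : k * ρ ≤ K * ρ := Nat.mul_le_mul_right ρ hk'
    have h5 := G.KT
    have h6 := G.xbd k hk'
    have h7 := Gr_V_le_Mx (μ := μ) (s := s) η (H := 8 * T) (m := k * ρ) (n := t - ρ) (x := xs k)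
      (by omega) (by push_cast; omega)
    have h8 : xk ρ xs k = (((k * ρ : ℕ) : ℤ), xs k) := by
      unfold xk
      push_cast
      rfl
    rw [h8] at h3 ⊢
    linarith
  have hlog : 0 ≤ -Real.log c := neg_nonneg.2 (Real.log_nonpos hc.le hc1)
  have hpt : ∀ η : Env, ∑ k ∈ Finset.range K, X μ s η (xk ρ xs k) t y ≤
      ∑ k ∈ Finset.range (K + 1), X μ s η (xk ρ xs k) (t - ρ) (ys k - xs k) +
        (-Real.log c + (2 * Mx μ s η (8 * T) +
        ((K + 1) * Q.indicator (fun η => Mx μ s η (8 * T)) η +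
        ∑ k ∈ Finset.range K, Q.indicator (fun η => X μ s η (xk ρ xs k) t y) η))) := by
    intro η
    by_cases hη : η ∈ Q
    · have h1 := Finset.sum_le_sum (hlow η)
      rw [Finset.sum_const, Finset.card_range, nsmul_eq_mul] at h1
      have h2 : ∀ k ∈ Finset.range K, Q.indicator (fun η => X μ s η (xk ρ xs k) t y) η =
          X μ s η (xk ρ xs k) t y := fun k _ => Set.indicator_of_mem hη _
      rw [Finset.sum_congr rfl h2, Set.indicator_of_mem hη]
      have h3 : 0 ≤ Mx μ s η (8 * T) := Gr_Mx_nonneg η _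
      push_cast at h1
      nlinarith
    · have h2 : ∀ k ∈ Finset.range K, Q.indicator (fun η => X μ s η (xk ρ xs k) t y) η =
          0 := fun k _ => Set.indicator_of_notMem hη _
      rw [Finset.sum_congr rfl h2, Set.indicator_of_notMem hη, Finset.sum_const_zero]
      rw [hQdef] at hη
      have h4 : ∃ j, j < J ∧ c ≤ WR μ s (tube T z r) (sh (aj h j) η) 0 T z := by
        by_contra hcon
        push Not at hcon
        exact hη fun j hj => hcon j hj
      obtain ⟨j, hj, hjc⟩ := h4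
      have h5 := cross_pt G hy hc hj hjc
      linarith
  have hI1 : Integrable (fun η => ∑ k ∈ Finset.range K, X μ s η (xk ρ xs k) t y) (law μ) :=
    integrable_finsetSum _ fun k _ => hX k
  have hI2 : Integrable (fun η => ∑ k ∈ Finset.range (K + 1),
      X μ s η (xk ρ xs k) (t - ρ) (ys k - xs k)) (law μ) := integrable_finsetSum _ hX'
  have hI3 : Integrable (fun η => ∑ k ∈ Finset.range K,
      Q.indicator (fun η => X μ s η (xk ρ xs k) t y) η) (law μ) :=
    integrable_finsetSum _ fun k _ => (hX k).indicator hQ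
  have hI4 : Integrable (fun η => ((K : ℝ) + 1) * Q.indicator (fun η => Mx μ s η (8 * T)) η)
      (law μ) := (hM.indicator hQ).const_mul _
  have hI5 : Integrable (fun η => 2 * Mx μ s η (8 * T)) (law μ) := hM.const_mul 2
  have hI6 : Integrable (fun η => ((K : ℝ) + 1) * Q.indicator (fun η => Mx μ s η (8 * T)) η +
      ∑ k ∈ Finset.range K, Q.indicator (fun η => X μ s η (xk ρ xs k) t y) η) (law μ) :=
    hI4.add hI3
  have hI7 : Integrable (fun η => 2 * Mx μ s η (8 * T) +
      (((K : ℝ) + 1) * Q.indicator (fun η => Mx μ s η (8 * T)) η +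
      ∑ k ∈ Finset.range K, Q.indicator (fun η => X μ s η (xk ρ xs k) t y) η)) (law μ) :=
    hI5.add hI6
  have hI8 : Integrable (fun η => -Real.log c + (2 * Mx μ s η (8 * T) +
      (((K : ℝ) + 1) * Q.indicator (fun η => Mx μ s η (8 * T)) η +
      ∑ k ∈ Finset.range K, Q.indicator (fun η => X μ s η (xk ρ xs k) t y) η))) (law μ) :=
    (integrable_const _).add hI7
  have h6 := integral_mono hI1 (hI2.add hI8) hpt
  have e1 : ∫ η, ∑ k ∈ Finset.range K, X μ s η (xk ρ xs k) t y ∂(law μ) = K * e μ s t y := by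
    rw [integral_finsetSum _ fun k _ => hX k, Finset.sum_congr rfl fun k _ =>
      integral_X (μ := μ) (s := s) (xk ρ xs k) t y, Finset.sum_const, Finset.card_range,
      nsmul_eq_mul]
  have e2 : ∫ η, ∑ k ∈ Finset.range (K + 1), X μ s η (xk ρ xs k) (t - ρ) (ys k - xs k) ∂(law μ) =
      ∑ k ∈ Finset.range (K + 1), e μ s (t - ρ) (ys k - xs k) := by
    rw [integral_finsetSum _ hX', Finset.sum_congr rfl fun k _ =>
      integral_X (μ := μ) (s := s) (xk ρ xs k) (t - ρ) (ys k - xs k)]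
  have e3 : ∫ η, ∑ k ∈ Finset.range K, Q.indicator (fun η => X μ s η (xk ρ xs k) t y) η ∂(law μ) =
      ∑ k ∈ Finset.range K, ∫ η in Q, X μ s η (xk ρ xs k) t y ∂(law μ) := by
    rw [integral_finsetSum _ fun k _ => (hX k).indicator hQ]
    exact Finset.sum_congr rfl fun k _ => integral_indicator hQ
  have e4 : ∫ η, ((K : ℝ) + 1) * Q.indicator (fun η => Mx μ s η (8 * T)) η ∂(law μ) =
      (K + 1) * ∫ η in Q, Mx μ s η (8 * T) ∂(law μ) := by
    rw [integral_const_mul, integral_indicator hQ]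
  have e5 : ∫ η, (∑ k ∈ Finset.range (K + 1), X μ s η (xk ρ xs k) (t - ρ) (ys k - xs k) +
      (-Real.log c + (2 * Mx μ s η (8 * T) +
      (((K : ℝ) + 1) * Q.indicator (fun η => Mx μ s η (8 * T)) η +
      ∑ k ∈ Finset.range K, Q.indicator (fun η => X μ s η (xk ρ xs k) t y) η)))) ∂(law μ) =
      ∑ k ∈ Finset.range (K + 1), e μ s (t - ρ) (ys k - xs k) +
      (-Real.log c + (2 * ∫ η, Mx μ s η (8 * T) ∂(law μ) +
      (((K : ℝ) + 1) * ∫ η in Q, Mx μ s η (8 * T) ∂(law μ) +
      ∑ k ∈ Finset.range K, ∫ η in Q, X μ s η (xk ρ xs k) t y ∂(law μ)))) := by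
    rw [integral_add hI2 hI8, integral_add (integrable_const _) hI7, integral_add hI5 hI6,
      integral_add hI4 hI3, e2, e3, e4, integral_const_mul, integral_const, probReal_univ, one_smul]
  have h7 : K * e μ s t y ≤ ∑ k ∈ Finset.range (K + 1), e μ s (t - ρ) (ys k - xs k) +
      (-Real.log c + (2 * ∫ η, Mx μ s η (8 * T) ∂(law μ) +
      (((K : ℝ) + 1) * ∫ η in Q, Mx μ s η (8 * T) ∂(law μ) +
      ∑ k ∈ Finset.range K, ∫ η in Q, X μ s η (xk ρ xs k) t y ∂(law μ)))) := by
    rw [← e1, ← e5]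
    exact h6
  linarith

end Pool.Agent.W_7d29a1_F
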