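import Pool.Agent.W_7d29a1_F.GrC

/-! Section 9, GrE: the bad event, the fallback chain. helper17. -/

namespace Pool.Agent.W_7d29a1_F

open MeasureTheory ProbabilityTheory Filter Topology

variable {μ : Measure ℝ} [IsProbabilityMeasure μ] {s v1 v2 : ℝ} {B : ℕ → ℝ}

set_option linter.unusedSectionVars false

/-- The translate `j` of the tube is bad. -/
private def GrE_E (μ : Measure ℝ) (s : ℝ) (T : ℕ) (z : ℤ) (r c : ℝ) (h : ℕ) (j : ℕ) : Set Env :=
  {η | WR μ s (tube T z r) (sh (aj h j) η) 0 T z < c}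

/-- The sites of the translate `j` of the tube. -/
private def GrE_A (T : ℕ) (z : ℤ) (r : ℝ) (h : ℕ) (j : ℕ) : Set Pt :=
  {p | |(p.2 : ℝ) - j * h - z / T * p.1| ≤ r}

private lemma GrE_meas (T : ℕ) (z : ℤ) (r c : ℝ) (h j : ℕ) :
    MeasurableSet (GrE_E μ s T z r c h j) := by
  have h1 : Measurable fun η : Env => WR μ s (tube T z r) (sh (aj h j) η) 0 T z :=
    (measurable_WR (tube T z r) 0 T z).comp (mp_sh (μ := μ) (aj h j)).measurable
  exact measurableSet_lt h1 measurable_const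

private lemma GrE_dep (T : ℕ) (z : ℤ) (r c : ℝ) (h j : ℕ) (η η' : Env)
    (H : ∀ p ∈ GrE_A T z r h j, η p = η' p) :
    η ∈ GrE_E μ s T z r c h j ↔ η' ∈ GrE_E μ s T z r c h j := by
  have h1 : WR μ s (tube T z r) (sh (aj h j) η) 0 T z =
      WR μ s (tube T z r) (sh (aj h j) η') 0 T z := by
    refine WR_dep (tube T z r) 0 T z fun p hp => ?_
    refine H _ ?_
    have h2 : p ∈ tube T z r := hp.2
    simp only [tube, Set.mem_ofPred_eq] at h2
    simp only [GrE_A, aj, Set.mem_ofPred_eq, Prod.fst_add, Prod.snd_add, add_zero]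
    push_cast
    have h3 : (p.2 : ℝ) + (j : ℝ) * (h : ℝ) - j * h - z / T * p.1 = p.2 - z / T * p.1 := by ring
    rw [h3]
    exact h2
  simp only [GrE_E, Set.mem_ofPred_eq, h1]

private lemma GrE_disj {T : ℕ} {z : ℤ} {r : ℝ} {h : ℕ} (hr : 0 ≤ r) (hh : 2 * r + 1 ≤ h) {i j : ℕ}
    (hij : i ≠ j) : Disjoint (GrE_A T z r h i) (GrE_A T z r h j) := by
  have key : ∀ i j : ℕ, i < j → Disjoint (GrE_A T z r h i) (GrE_A T z r h j) := by
    intro i j hij
    rw [Set.disjoint_left]
    intro p hp hq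
    simp only [GrE_A, Set.mem_ofPred_eq, abs_le] at hp hq
    have h1 : (i : ℝ) + 1 ≤ j := by exact_mod_cast hij
    have h2 : (0 : ℝ) ≤ h := by linarith
    nlinarith [hp.1, hp.2, hq.1, hq.2, mul_le_mul_of_nonneg_right h1 h2]
  rcases lt_or_gt_of_ne hij with h1 | h1
  · exact key i j h1
  · exact (key j i h1).symm

private lemma GrE_prob {T : ℕ} {z : ℤ} {r c p : ℝ}
    (hp : p ≤ (law μ).real {η | c ≤ WR μ s (tube T z r) η 0 T z}) (h j : ℕ) :
    (law μ).real (GrE_E μ s T z r c h j) ≤ 1 - p := by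
  have hm : MeasurableSet {η : Env | c ≤ WR μ s (tube T z r) η 0 T z} :=
    measurableSet_le measurable_const (measurable_WR (tube T z r) 0 T z)
  have h1 : GrE_E μ s T z r c h j =
      {η | sh (aj h j) η ∈ {η : Env | c ≤ WR μ s (tube T z r) η 0 T z}ᶜ} := by
    ext η
    simp only [GrE_E, Set.mem_ofPred_eq, Set.mem_compl_iff, not_le]
  rw [h1, real_sh (aj h j) hm.compl, probReal_compl_eq_one_sub hm]
  linarith

private lemma GrE_BadJ (T : ℕ) (z : ℤ) (r c : ℝ) (h J : ℕ) :
    BadJ μ s T z r c h J = {η | ∀ j ∈ Finset.range J, η ∈ GrE_E μ s T z r c h j} := by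
  ext η
  simp only [BadJ, GrE_E, Set.mem_ofPred_eq, Finset.mem_range]

private lemma GrE_measI (T : ℕ) (z : ℤ) (r c : ℝ) (h : ℕ) (I : Finset ℕ) :
    MeasurableSet {η : Env | ∀ j ∈ I, η ∈ GrE_E μ s T z r c h j} := by
  have : {η : Env | ∀ j ∈ I, η ∈ GrE_E μ s T z r c h j} = ⋂ j ∈ I, GrE_E μ s T z r c h j := by
    ext η
    simp
  rw [this]
  exact Finset.measurableSet_biInter I fun j _ => GrE_meas T z r c h j

private lemma GrE_probI {T : ℕ} {z : ℤ} {r c p : ℝ} (hr : 0 ≤ r)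
    (hp : p ≤ (law μ).real {η | c ≤ WR μ s (tube T z r) η 0 T z}) {h : ℕ} (hh : 2 * r + 1 ≤ h)
    (I : Finset ℕ) :
    (law μ).real {η : Env | ∀ j ∈ I, η ∈ GrE_E μ s T z r c h j} ≤ (1 - p) ^ I.card := by
  rw [indep_events I (fun j => GrE_E μ s T z r c h j) (fun j => GrE_A T z r h j)
    (fun j _ => GrE_meas T z r c h j) (fun j _ => GrE_dep T z r c h j)
    (fun i _ j _ hij => GrE_disj hr hh hij), ← Finset.prod_const]
  exact Finset.prod_le_prod (fun _ _ => measureReal_nonneg) fun j _ => GrE_prob hp h j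

private lemma GrE_p1 {T : ℕ} {z : ℤ} {r c p : ℝ}
    (hp : p ≤ (law μ).real {η | c ≤ WR μ s (tube T z r) η 0 T z}) : p ≤ 1 :=
  hp.trans measureReal_le_one

/-- A function of the sites of a set `A` whose slanted coordinates `p.2 - (z / T) p.1` are in an interval of
length `r` is independent of all but at most two of the tubes (the slanted coordinates of the tube `j` are in
`[j h - r, j h + r]`, and `h ≥ 2 r + 1`). -/
theorem bad_indep {T : ℕ} {z : ℤ} {r c p : ℝ} (hr : 0 ≤ r) (hp0 : 0 ≤ p)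
    (hp : p ≤ (law μ).real {η | c ≤ WR μ s (tube T z r) η 0 T z}) {h J : ℕ} (hh : 2 * r + 1 ≤ h)
    {f : Env → ℝ} (hf : Measurable f) (hf0 : ∀ η, 0 ≤ f η) (hfi : Integrable f (law μ)) {A : Set Pt}
    (hA : DependsOn f A) {σ : ℝ} (hAσ : ∀ p ∈ A, σ ≤ (p.2 : ℝ) - z / T * p.1 ∧
      (p.2 : ℝ) - z / T * p.1 ≤ σ + r) :
    ∫ η in BadJ μ s T z r c h J, f η ∂(law μ) ≤ (∫ η, f η ∂(law μ)) * (1 - p) ^ (J - 2) := by
  classical
  have hp1 : p ≤ 1 := GrE_p1 hp
  -- the tubes which are far from `A`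
  let P : ℕ → Prop := fun j => σ - r ≤ (j : ℝ) * h ∧ (j : ℝ) * h ≤ σ + 2 * r
  let I : Finset ℕ := (Finset.range J).filter fun j => ¬ P j
  have hh0 : (0 : ℝ) < h := by linarith
  have hcard : J - 2 ≤ I.card := by
    have h1 : ((Finset.range J).filter P).card + I.card = J := by
      have := Finset.card_filter_add_card_filter_not (s := Finset.range J) P
      rw [Finset.card_range] at this
      exact this
    have h2 : ((Finset.range J).filter P).card ≤ 2 := by
      rcases Finset.eq_empty_or_nonempty ((Finset.range J).filter P) with h0 | hne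
      · rw [h0]; simp
      · let m := ((Finset.range J).filter P).min' hne
        have hm : m ∈ (Finset.range J).filter P := Finset.min'_mem _ hne
        have h3 : (Finset.range J).filter P ⊆ {m, m + 1} := by
          intro j hj
          have hmj : m ≤ j := Finset.min'_le _ _ hj
          have h4 : P m := (Finset.mem_filter.mp hm).2
          have h5 : P j := (Finset.mem_filter.mp hj).2
          have h6 : j < m + 2 := by
            by_contra hc
            push Not at hc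
            have h7 : (m : ℝ) + 2 ≤ j := by exact_mod_cast hc
            have h8 := mul_le_mul_of_nonneg_right h7 hh0.le
            nlinarith [h4.1, h5.2]
          rw [Finset.mem_insert, Finset.mem_singleton]
          omega
        calc ((Finset.range J).filter P).card ≤ ({m, m + 1} : Finset ℕ).card :=
              Finset.card_le_card h3
          _ ≤ 2 := Finset.card_le_two
    omega
  let Q : Set Env := {η | ∀ j ∈ I, η ∈ GrE_E μ s T z r c h j}
  have hQ : MeasurableSet Q := GrE_measI T z r c h I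
  have hsub : BadJ μ s T z r c h J ⊆ Q := by
    rw [GrE_BadJ]
    intro η hη j hj
    exact hη j (Finset.mem_filter.mp hj).1
  have hBm : MeasurableSet (BadJ μ s T z r c h J) := by
    rw [GrE_BadJ]
    exact GrE_measI T z r c h (Finset.range J)
  -- the union of the far tubes
  let D : Set Pt := {q | ∃ j ∈ I, q ∈ GrE_A T z r h j}
  have hdis : Disjoint A D := by
    rw [Set.disjoint_left]
    rintro q hq ⟨j, hj, hqj⟩
    have h1 := hAσ q hq
    simp only [GrE_A, Set.mem_ofPred_eq, abs_le] at hqj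
    refine (Finset.mem_filter.mp hj).2 ⟨?_, ?_⟩
    · linarith [hqj.1, hqj.2, h1.1, h1.2]
    · linarith [hqj.1, hqj.2, h1.1, h1.2]
  have hgd : DependsOn (Q.indicator fun _ => (1 : ℝ)) D := by
    intro η η' hηη
    have h1 : η ∈ Q ↔ η' ∈ Q := by
      constructor
      · intro h2 j hj
        exact (GrE_dep T z r c h j η η' fun q hq => hηη q ⟨j, hj, hq⟩).mp (h2 j hj)
      · intro h2 j hj
        exact (GrE_dep T z r c h j η η' fun q hq => hηη q ⟨j, hj, hq⟩).mpr (h2 j hj)
    by_cases h2 : η ∈ Q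
    · rw [Set.indicator_of_mem h2, Set.indicator_of_mem (h1.mp h2)]
    · rw [Set.indicator_of_notMem h2, Set.indicator_of_notMem fun h3 => h2 (h1.mpr h3)]
  have hgm : Measurable (Q.indicator fun _ => (1 : ℝ)) := measurable_const.indicator hQ
  have h1 : ∫ η in BadJ μ s T z r c h J, f η ∂(law μ) ≤
      ∫ η, f η * Q.indicator (fun _ => (1 : ℝ)) η ∂(law μ) := by
    rw [← integral_indicator hBm]
    refine integral_mono (hfi.indicator hBm) ?_ fun η => ?_
    · have h2 : (fun η => f η * Q.indicator (fun _ => (1 : ℝ)) η) = Q.indicator f := by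
        funext η
        by_cases h2 : η ∈ Q
        · rw [Set.indicator_of_mem h2, Set.indicator_of_mem h2, mul_one]
        · rw [Set.indicator_of_notMem h2, Set.indicator_of_notMem h2, mul_zero]
      rw [h2]
      exact hfi.indicator hQ
    · by_cases h2 : η ∈ BadJ μ s T z r c h J
      · simp only [Set.indicator_of_mem h2, Set.indicator_of_mem (hsub h2), mul_one]
        exact le_rfl
      · simp only [Set.indicator_of_notMem h2]
        exact mul_nonneg (hf0 η) (Set.indicator_nonneg (fun _ _ => zero_le_one) _)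
  have h2 : ∫ η, f η * Q.indicator (fun _ => (1 : ℝ)) η ∂(law μ) =
      (∫ η, f η ∂(law μ)) * (law μ).real Q := by
    rw [integral_indep hf hgm hA hgd hdis]
    congr 1
    rw [integral_indicator hQ, setIntegral_const]
    simp
  have h3 : (law μ).real Q ≤ (1 - p) ^ (J - 2) :=
    (GrE_probI hr hp hh I).trans (pow_le_pow_of_le_one (by linarith) (by linarith) hcard)
  rw [h2] at h1
  exact h1.trans (mul_le_mul_of_nonneg_left h3 (integral_nonneg hf0))

theorem prob_bad {T : ℕ} {z : ℤ} {r c p : ℝ} (hr : 0 ≤ r) (hp0 : 0 ≤ p)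
    (hp : p ≤ (law μ).real {η | c ≤ WR μ s (tube T z r) η 0 T z}) {h J : ℕ} (hh : 2 * r + 1 ≤ h) :
    (law μ).real (BadJ μ s T z r c h J) ≤ (1 - p) ^ J := by
  rw [GrE_BadJ]
  have := GrE_probI hr hp hh (Finset.range J)
  rwa [Finset.card_range] at this

/-- `E X⁺ ≤ e + E X⁻`, `X⁻ ≤ Mx`. -/
theorem int_Xpos_le (S : Setup μ s v1 v2) (U : UnitB μ s v1 v2 B) {T : ℕ} (hT : 1 ≤ T) {t : ℕ} {y : ℤ}
    (hK : K0 v1 v2 t y) (ht : t ≤ 8 * T) (a : Pt) :
    ∫ η, max (X μ s η a t y) 0 ∂(law μ) ≤ 2 * B T := by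
  have hX : Sub fun η => X μ s η 0 t y := Sub_X 0 hK.1 hK.2.1
  have hXi : Integrable (fun η => X μ s η 0 t y) (law μ) := Sub.integrable S.em hX
  have hM : Sub fun η => Mx μ s η (8 * T) := Sub_Mx (8 * T)
  have hMi : Integrable (fun η => Mx μ s η (8 * T)) (law μ) := Sub.integrable S.em hM
  have hB : 1 ≤ B T := U.one_le T
  have hB0 : (0 : ℝ) < B T := by linarith
  have h0 : ∫ η, max (X μ s η a t y) 0 ∂(law μ) = ∫ η, max (X μ s η 0 t y) 0 ∂(law μ) := by
    have h1 : ∫ η, (fun η => max (X μ s η 0 t y) 0) (sh a η) ∂(law μ) =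
        ∫ η, max (X μ s η 0 t y) 0 ∂(law μ) := by
      have hm : AEStronglyMeasurable (fun η => max (X μ s η 0 t y) 0) (Measure.map (sh a) (law μ)) :=
        (hX.1.max measurable_const).aestronglyMeasurable
      rw [← integral_map (mp_sh (μ := μ) a).measurable.aemeasurable hm, (mp_sh (μ := μ) a).map_eq]
    rw [← h1]
    refine integral_congr_ae (Eventually.of_forall fun η => ?_)
    simp only [X_sh, zero_add]
  rw [h0]
  have hpt : ∀ η, max (X μ s η 0 t y) 0 ≤ X μ s η 0 t y + Mx μ s η (8 * T) := by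
    intro η
    have h1 : V μ s η (((0 : ℕ) : ℤ), (0 : ℤ)) t ≤ Mx μ s η (8 * T) :=
      Gr_V_le_Mx η (by omega) (by simp)
    have h2 := neg_X_le_V (μ := μ) (s := s) η (0 : Pt) hK.1 hK.2.1
    have h3 : V μ s η (0 : Pt) t = V μ s η (((0 : ℕ) : ℤ), (0 : ℤ)) t := rfl
    have h4 : 0 ≤ Mx μ s η (8 * T) := Gr_Mx_nonneg η _
    refine max_le (by linarith) (by linarith)
  have hle : ∫ η, Mx μ s η (8 * T) ∂(law μ) ≤ B T := by
    have hE : Integrable (fun η => Real.exp (2 * Mx μ s η (8 * T) / B T)) (law μ) := by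
      have h5 : Sub fun η => (2 / B T) * Mx μ s η (8 * T) := Sub.const_mul _ hM
      have h6 := Sub.exp_int S.em h5
      refine h6.congr (Eventually.of_forall fun η => ?_)
      simp only
      congr 1
      ring
    have h1 : ∀ η, Mx μ s η (8 * T) ≤
        B T / 2 * (Real.exp (2 * Mx μ s η (8 * T) / B T) - 1) := by
      intro η
      have h2 := Real.add_one_le_exp (2 * Mx μ s η (8 * T) / B T)
      have h3 : 2 * Mx μ s η (8 * T) / B T ≤ Real.exp (2 * Mx μ s η (8 * T) / B T) - 1 := by linarith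
      have h4 := mul_le_mul_of_nonneg_left h3 (by linarith : (0 : ℝ) ≤ B T / 2)
      have h5 : B T / 2 * (2 * Mx μ s η (8 * T) / B T) = Mx μ s η (8 * T) := by
        field_simp
      linarith
    have h2 : ∫ η, Mx μ s η (8 * T) ∂(law μ) ≤
        ∫ η, B T / 2 * (Real.exp (2 * Mx μ s η (8 * T) / B T) - 1) ∂(law μ) :=
      integral_mono hMi ((hE.sub (integrable_const 1)).const_mul _) h1
    rw [integral_const_mul, integral_sub hE (integrable_const 1)] at h2
    have h3 := U.luck T hT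
    have h4 : Real.exp 1 ≤ 3 := by linarith [Real.exp_one_lt_d9]
    simp only [integral_const, probReal_univ, smul_eq_mul, mul_one] at h2
    nlinarith [h2, h3, h4]
  calc ∫ η, max (X μ s η 0 t y) 0 ∂(law μ) ≤
        ∫ η, (X μ s η 0 t y + Mx μ s η (8 * T)) ∂(law μ) :=
        integral_mono (Sub.integrable S.em (Sub.max hX (Sub.const 0))) (hXi.add hMi) hpt
    _ = e μ s t y + ∫ η, Mx μ s η (8 * T) ∂(law μ) := integral_add hXi hMi
    _ ≤ B T + B T := add_le_add (U.move T t y hK ht) hle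
    _ = 2 * B T := by ring

/-- Cutting a displacement in pieces. -/
private lemma GrE_chain {t : ℕ} (x : ℕ → ℤ) (hx0 : x 0 = 0)
    (hx : ∀ i j : ℕ, i ≤ j → j ≤ t → 0 ≤ x j - x i ∧ x j - x i ≤ j - i) (τ : ℕ → ℕ) (hτ0 : τ 0 = 0)
    (hτ : ∀ k, τ k ≤ τ (k + 1)) (hτt : ∀ k, τ k ≤ t) (a : Pt) (η : Env) (k : ℕ) :
    X μ s η a (τ k) (x (τ k)) ≤ ∑ i ∈ Finset.range k,
      max (X μ s η (a.1 + τ i, a.2 + x (τ i)) (τ (i + 1) - τ i) (x (τ (i + 1)) - x (τ i))) 0 := by
  induction k with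
  | zero =>
    rw [hτ0, hx0, Finset.sum_range_zero]
    simp [X, W, WR, Zr]
  | succ k ih =>
    rw [Finset.sum_range_succ]
    have h1 := hx 0 (τ k) (Nat.zero_le _) (hτt k)
    have h2 := hx (τ k) (τ (k + 1)) (hτ k) (hτt (k + 1))
    rw [hx0] at h1
    have h3 := X_add_le (μ := μ) (s := s) η a (m := τ k) (n := τ (k + 1) - τ k) (k := x (τ k))
      (y := x (τ (k + 1)) - x (τ k)) (by linarith [h1.1]) (by push_cast at h1; linarith [h1.2]) h2.1
      (by rw [Nat.cast_sub (hτ k)]; exact h2.2)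
    have h4 : τ k + (τ (k + 1) - τ k) = τ (k + 1) := by have := hτ k; omega
    have h5 : x (τ k) + (x (τ (k + 1)) - x (τ k)) = x (τ (k + 1)) := by ring
    rw [h4, h5] at h3
    refine h3.trans (add_le_add ih (le_max_left _ _))

/-- The fallback chain: `(t, y)` is cut (`K0_cut`) in pieces of time `⌊r⌋`, `bad_indep` for `max X 0` of each
piece. -/
theorem fallback (S : Setup μ s v1 v2) (U : UnitB μ s v1 v2 B) {T : ℕ} (hT : 1 ≤ T) {z : ℤ}
    (hz : 0 ≤ z ∧ z ≤ T) {r c p : ℝ} (hr : 1 ≤ r) (hp0 : 0 ≤ p)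
    (hp : p ≤ (law μ).real {η | c ≤ WR μ s (tube T z r) η 0 T z}) {h J : ℕ} (hh : 2 * r + 1 ≤ h)
    {t : ℕ} {y : ℤ} (hK : K0 v1 v2 t y) (ht : t ≤ 8 * T) (htr : 4 * r ≤ 3 * t) (a : Pt) :
    ∫ η in BadJ μ s T z r c h J, X μ s η a t y ∂(law μ) ≤
      (2 * t / r + 1) * (2 * B T) * (1 - p) ^ (J - 2) := by
  have hp1 : p ≤ 1 := GrE_p1 hp
  have hr0 : 0 < r := by linarith
  have hBm : MeasurableSet (BadJ μ s T z r c h J) := by
    rw [GrE_BadJ]
    exact GrE_measI T z r c h (Finset.range J)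
  obtain ⟨x, hx0, hxt, hx, hxK⟩ := K0_cut hK S
  obtain ⟨m, hm⟩ : ∃ m : ℕ, m = ⌊r⌋₊ := ⟨_, rfl⟩
  have hmr : (m : ℝ) ≤ r := by rw [hm]; exact Nat.floor_le hr0.le
  have hm1 : 1 ≤ m := by rw [hm]; exact (Nat.one_le_floor_iff r).mpr hr
  have hrm : r < m + 1 := by rw [hm]; exact Nat.lt_floor_add_one r
  have hm0 : (1 : ℝ) ≤ m := by exact_mod_cast hm1
  have hmt : 4 * m ≤ 3 * t := by
    have h1 : (4 : ℝ) * m ≤ 3 * t := by linarith
    exact_mod_cast h1
  let τ : ℕ → ℕ := fun k => min (k * m) t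
  have hτ0 : τ 0 = 0 := by simp [τ]
  have hτ : ∀ k, τ k ≤ τ (k + 1) := fun k =>
    min_le_min_right t (Nat.mul_le_mul_right m (Nat.le_succ k))
  have hτt : ∀ k, τ k ≤ t := fun k => min_le_right _ _
  have hτm : ∀ k, τ (k + 1) - τ k ≤ m := by
    intro k
    have h1 : (k + 1) * m = k * m + m := by ring
    simp only [τ, h1]
    omega
  obtain ⟨N, hN⟩ : ∃ N : ℕ, N = t / m + 1 := ⟨_, rfl⟩
  have hτN : τ N = t := by
    have h1 : t < (t / m + 1) * m := by
      have := Nat.lt_div_mul_add (a := t) (b := m) (by omega)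
      calc t < t / m * m + m := this
        _ = (t / m + 1) * m := by ring
    simp only [τ, hN]
    omega
  have hNr : (N : ℝ) ≤ 2 * t / r + 1 := by
    rw [hN]
    push_cast
    have h1 : ((t / m : ℕ) : ℝ) ≤ (t : ℝ) / m := Nat.cast_div_le
    have h2 : (t : ℝ) / m ≤ 2 * t / r := by
      rw [div_le_div_iff₀ (by linarith) hr0]
      have h3 : (0 : ℝ) ≤ t := Nat.cast_nonneg t
      nlinarith
    linarith
  let f : ℕ → Env → ℝ := fun i η =>
    max (X μ s η (a.1 + τ i, a.2 + x (τ i)) (τ (i + 1) - τ i) (x (τ (i + 1)) - x (τ i))) 0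
  have hfK : ∀ i, K0 v1 v2 (τ (i + 1) - τ i) (x (τ (i + 1)) - x (τ i)) := by
    intro i
    refine hxK (τ i) (τ (i + 1)) (hτ i) (hτt (i + 1)) ?_
    have := hτm i
    omega
  have hfS : ∀ i, Sub (f i) := fun i =>
    Sub.max (Sub_X _ (hfK i).1 (hfK i).2.1) (Sub.const 0)
  have hfi : ∀ i, Integrable (f i) (law μ) := fun i => Sub.integrable S.em (hfS i)
  have hXi : Integrable (fun η => X μ s η a t y) (law μ) :=
    Sub.integrable S.em (Sub_X a hK.1 hK.2.1)
  have hpt : ∀ η, X μ s η a t y ≤ ∑ i ∈ Finset.range N, f i η := by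
    intro η
    have h1 := GrE_chain (μ := μ) (s := s) x hx0 hx τ hτ0 hτ hτt a η N
    rw [hτN, hxt] at h1
    exact h1
  have hTR : (0 : ℝ) < T := by exact_mod_cast hT
  have hzT0 : 0 ≤ (z : ℝ) / T := div_nonneg (by exact_mod_cast hz.1) hTR.le
  have hzT1 : (z : ℝ) / T ≤ 1 := by
    rw [div_le_one hTR]
    exact_mod_cast hz.2
  have hone : ∀ i, ∫ η in BadJ μ s T z r c h J, f i η ∂(law μ) ≤
      2 * B T * (1 - p) ^ (J - 2) := by
    intro i
    have hA : DependsOn (f i) (cone (a.1 + τ i, a.2 + x (τ i)) (τ (i + 1) - τ i)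
        (x (τ (i + 1)) - x (τ i))) := by
      intro η η' hηη
      have h1 := X_dep (μ := μ) (s := s) (a.1 + τ i, a.2 + x (τ i)) (τ (i + 1) - τ i)
        (x (τ (i + 1)) - x (τ i)) hηη
      simp only [f]
      simp only at h1
      rw [h1]
    obtain ⟨b, hb⟩ : ∃ b : Pt, b = (a.1 + τ i, a.2 + x (τ i)) := ⟨_, rfl⟩
    obtain ⟨n, hn⟩ : ∃ n : ℕ, n = τ (i + 1) - τ i := ⟨_, rfl⟩
    have hnr : (n : ℝ) ≤ r := by
      have h1 : (n : ℝ) ≤ m := by rw [hn]; exact_mod_cast hτm i
      linarith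
    have h1 := bad_indep (μ := μ) (s := s) (T := T) (z := z) (r := r) (c := c) (p := p) hr0.le hp0 hp
      (h := h) (J := J) hh (f := f i) (hfS i).1 (fun η => le_max_right _ _) (hfi i) hA
      (σ := (b.2 : ℝ) - z / T * b.1 - z / T * n) (by
        intro q hq
        rw [← hb, ← hn] at hq
        obtain ⟨h1, h2, h3, h4, -, -⟩ := hq
        have h1' : (b.1 : ℝ) ≤ q.1 := by exact_mod_cast h1.le
        have h2' : (q.1 : ℝ) ≤ b.1 + n := by exact_mod_cast h2
        have h3' : (b.2 : ℝ) ≤ q.2 := by exact_mod_cast h3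
        have h4' : (q.2 : ℝ) - b.2 ≤ q.1 - b.1 := by exact_mod_cast h4
        constructor
        · have h5 : z / T * (q.1 : ℝ) ≤ z / T * (b.1 + n) := mul_le_mul_of_nonneg_left h2' hzT0
          linarith
        · have h5 : (1 - (z : ℝ) / T) * ((q.1 : ℝ) - b.1) ≤ (1 - (z : ℝ) / T) * n :=
            mul_le_mul_of_nonneg_left (by linarith) (by linarith)
          nlinarith)
    refine h1.trans (mul_le_mul_of_nonneg_right ?_ (pow_nonneg (by linarith) _))
    exact int_Xpos_le S U hT (hfK i) (by have := hτt (i + 1); omega) _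
  calc ∫ η in BadJ μ s T z r c h J, X μ s η a t y ∂(law μ) ≤
        ∫ η in BadJ μ s T z r c h J, ∑ i ∈ Finset.range N, f i η ∂(law μ) :=
        integral_mono hXi.integrableOn (integrable_finsetSum _ fun i _ => (hfi i).integrableOn) hpt
    _ = ∑ i ∈ Finset.range N, ∫ η in BadJ μ s T z r c h J, f i η ∂(law μ) :=
        integral_finsetSum _ fun i _ => (hfi i).integrableOn
    _ ≤ ∑ _i ∈ Finset.range N, 2 * B T * (1 - p) ^ (J - 2) := Finset.sum_le_sum fun i _ => hone i
    _ = N * (2 * B T * (1 - p) ^ (J - 2)) := by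
        rw [Finset.sum_const, Finset.card_range, nsmul_eq_mul]
    _ ≤ (2 * t / r + 1) * (2 * B T * (1 - p) ^ (J - 2)) := by
        refine mul_le_mul_of_nonneg_right hNr ?_
        have := U.one_le T
        exact mul_nonneg (by linarith) (pow_nonneg (by linarith) _)
    _ = (2 * t / r + 1) * (2 * B T) * (1 - p) ^ (J - 2) := by ring

end Pool.Agent.W_7d29a1_F
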