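import Pool.Agent.W_7d29a1_F.GrDefs

/-! Section 9, GrG: the geometry of the crossing (deterministic). -/

namespace Pool.Agent.W_7d29a1_F

open MeasureTheory ProbabilityTheory Filter Topology

variable {μ : Measure ℝ} [IsProbabilityMeasure μ] {s v1 v2 : ℝ} {B : ℕ → ℝ}

set_option maxHeartbeats 2000000 in
/-- `ρ = ⌈t / 2⌉`, `xs k = X0 + ⌊v k ρ⌋`, `ys k = X0 + ⌊v (k - 1) ρ⌋ + y` with `v = z / T`,
`X0 = J h + ⌈r⌉ + 2`, `K = (T - (t - ρ)) / ρ`. -/
theorem geo_exists (S : Setup μ s v1 v2) : ∃ x0 : ℕ, ∀ x ≥ x0, ∀ (T : ℕ) (z : ℤ) (r : ℝ)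
    (h J t : ℕ) (y : ℤ), 0 ≤ z → z ≤ T → |(z : ℝ) - v2 * T| ≤ 2 * dd v1 v2 * T → 1 ≤ r → 1 ≤ J →
    (J : ℝ) * h + 2 * r + 8 ≤ dd v1 v2 * 2 ^ x → 8 * 2 ^ x ≤ T → 2 ^ x < t → t ≤ 2 ^ (x + 1) →
    K0 v1 v2 t y → ¬ K0 v1 v2 t (y + 1) →
    ∃ (ρ K : ℕ) (xs ys : ℕ → ℤ), Geo v1 v2 T z r h J t y ρ K xs ys ∧ t - ρ ≤ 2 ^ x ∧
      (T : ℝ) ≤ 2 * K * 2 ^ x := by
  have hd := S.dpos
  obtain ⟨x0, hx0⟩ := pow_unbounded_of_one_lt (100 / dd v1 v2) (show (1 : ℝ) < 2 by norm_num)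
  refine ⟨x0, ?_⟩
  intro x hx T z r h J t y hz0 hzT hzv hr hJ hw hT ht1 ht2 hK hK'
  obtain ⟨d, hdd⟩ : ∃ d : ℝ, d = dd v1 v2 := ⟨_, rfl⟩
  obtain ⟨m, hm⟩ : ∃ m : ℝ, m = vc v1 v2 := ⟨_, rfl⟩
  obtain ⟨P, hP⟩ : ∃ P : ℝ, P = (2 : ℝ) ^ x := ⟨_, rfl⟩
  have hv2 : v2 = m + 20 * d := by
    rw [hm, hdd]
    unfold vc dd
    ring
  have hv1 : v1 = m - 20 * d := by
    rw [hm, hdd]
    unfold vc dd
    ring
  have hv2lt := S.v2lt
  have hv1pos := S.v1pos
  rw [← hdd] at hd hzv hw hx0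
  rw [← hP] at hw ⊢
  have hdP : 100 ≤ d * P := by
    have h1 : (2 : ℝ) ^ x0 ≤ P := by
      rw [hP]
      exact pow_le_pow_right₀ (by norm_num) hx
    have h2 := hx0.trans_le h1
    rw [div_lt_iff₀ hd] at h2
    linarith
  have hP1 : 1 ≤ P := by
    rw [hP]
    exact one_le_pow₀ (by norm_num)
  have hd1 : 40 * d < 1 := by linarith
  have hTP : 8 * P ≤ T := by
    rw [hP]
    exact_mod_cast hT
  have hTpos : (0 : ℝ) < T := by linarith
  -- the direction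
  obtain ⟨v, hv⟩ : ∃ v : ℝ, v = (z : ℝ) / T := ⟨_, rfl⟩
  have hzvT : (z : ℝ) = v * T := by
    rw [hv]
    field_simp
  have hv0 : 0 ≤ v := by
    rw [hv]
    have : (0 : ℝ) ≤ z := by exact_mod_cast hz0
    positivity
  have hv1' : v ≤ 1 := by
    rw [hv, div_le_one hTpos]
    exact_mod_cast hzT
  have hvabs : |v - v2| ≤ 2 * d := by
    rw [hzvT] at hzv
    have h1 : |v * T - v2 * T| = |v - v2| * T := by
      rw [← sub_mul, abs_mul, abs_of_pos hTpos]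
    rw [h1] at hzv
    exact le_of_mul_le_mul_right hzv hTpos
  obtain ⟨hva, hvb⟩ := abs_le.1 hvabs
  -- the times
  set ρ : ℕ := (t + 1) / 2 with hρ
  have hpow : 2 ^ (x + 1) = 2 * 2 ^ x := by rw [pow_succ, mul_comm]
  have hρt : t ≤ 2 * ρ := by omega
  have hρle : ρ ≤ t := by
    have : 1 ≤ 2 ^ x := Nat.one_le_two_pow
    omega
  have hρP : ρ ≤ 2 ^ x := by omega
  have hn2 : t - ρ ≤ 2 ^ x := by omega
  have hnρ : t - ρ ≤ ρ := by omega
  have hnρ' : ρ ≤ (t - ρ) + 1 := by omega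
  have hρpos : 0 < ρ := by
    have : 1 ≤ 2 ^ x := Nat.one_le_two_pow
    omega
  obtain ⟨tR, htR⟩ : ∃ tR : ℝ, tR = (t : ℝ) := ⟨_, rfl⟩
  obtain ⟨ρR, hρR⟩ : ∃ ρR : ℝ, ρR = (ρ : ℝ) := ⟨_, rfl⟩
  obtain ⟨nR, hnR⟩ : ∃ nR : ℝ, nR = ((t - ρ : ℕ) : ℝ) := ⟨_, rfl⟩
  have e1 : nR = tR - ρR := by
    rw [hnR, htR, hρR, Nat.cast_sub hρle]
  have e2 : P < tR := by
    rw [hP, htR]
    exact_mod_cast ht1
  have e3 : tR ≤ 2 * P := by
    rw [hP, htR]
    have : (t : ℝ) ≤ ((2 ^ (x + 1) : ℕ) : ℝ) := by exact_mod_cast ht2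
    rw [hpow] at this
    push_cast at this
    exact this
  have e4 : tR ≤ 2 * ρR := by
    rw [htR, hρR]
    exact_mod_cast hρt
  have e5 : ρR ≤ P := by
    rw [hP, hρR]
    exact_mod_cast hρP
  have e6 : nR ≤ ρR := by
    rw [hnR, hρR]
    exact_mod_cast hnρ
  have e7 : ρR ≤ nR + 1 := by
    rw [hnR, hρR]
    exact_mod_cast hnρ'
  -- the height `y`
  obtain ⟨hy0, hyt, hyabs⟩ := hK
  rw [← hm, ← hdd, ← htR] at hyabs
  obtain ⟨hya, hyb⟩ := abs_le.1 hyabs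
  have hdt : 100 ≤ d * tR := hdP.trans (mul_le_mul_of_nonneg_left e2.le hd.le)
  have hylow : m * tR + 17 * d * tR + 3 ≤ y := by
    by_contra hcon
    rw [not_le] at hcon
    apply hK'
    have h1 : ((y + 1 : ℤ) : ℝ) ≤ tR := by
      push_cast
      have h2 : (m + 20 * d) * tR ≤ 1 * tR := mul_le_mul_of_nonneg_right (by linarith) (by linarith)
      clear * - h2 hcon hdt
      linarith
    refine ⟨by omega, ?_, ?_⟩
    · rw [htR] at h1
      exact_mod_cast h1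
    · rw [← hm, ← hdd, ← htR, abs_le]
      push_cast
      constructor <;> linarith
  -- the positions
  set X0 : ℤ := (J : ℤ) * h + (⌈r⌉₊ : ℤ) + 2 with hX0
  have hc1 : r ≤ (⌈r⌉₊ : ℝ) := Nat.le_ceil r
  have hc2 : ((⌈r⌉₊ : ℕ) : ℝ) < r + 1 := Nat.ceil_lt_add_one (by linarith)
  have hX0R : (X0 : ℝ) = (J : ℝ) * h + (⌈r⌉₊ : ℝ) + 2 := by
    rw [hX0]
    push_cast
    ring
  have hJh : (0 : ℝ) ≤ (J : ℝ) * h := by positivity
  set K : ℕ := (T - (t - ρ)) / ρ with hKdef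
  have hnT : t - ρ ≤ T := by
    have : 2 ^ x ≤ T := by omega
    omega
  have hKT : K * ρ + (t - ρ) ≤ T := by
    have := Nat.div_mul_le_self (T - (t - ρ)) ρ
    rw [← hKdef] at this
    omega
  have hKbig : T < (t - ρ) + ρ + K * ρ := by
    have h1 := Nat.div_add_mod (T - (t - ρ)) ρ
    have h2 := Nat.mod_lt (T - (t - ρ)) hρpos
    rw [← hKdef] at h1
    rw [mul_comm K ρ]
    omega
  have hKR : ∀ k ≤ K, (k : ℝ) * ρR ≤ T := by
    intro k hk
    have h1 : k * ρ ≤ K * ρ := Nat.mul_le_mul_right _ hk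
    have h2 : k * ρ ≤ T := by omega
    rw [hρR]
    exact_mod_cast h2
  refine ⟨ρ, K, fun k => X0 + ⌊v * ((k : ℝ) * ρR)⌋, fun k => X0 + ⌊v * (((k : ℝ) - 1) * ρR)⌋ + y,
    ⟨by linarith, ?_, hρt, hρle, hKT, ?_, ?_, ?_, ?_, ?_, ?_⟩, hn2, ?_⟩
  · have : (1 : ℝ) ≤ T := by linarith
    exact_mod_cast this
  · intro k _
    have : (((k + 1 : ℕ) : ℝ) - 1) = k := by
      push_cast
      ring
    rw [this]
  · -- right
    intro j hj k hk q hq
    rw [← hv, ← hρR] at hq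
    have h1 := (abs_le.1 hq).2
    have h2 := Int.sub_one_lt_floor (v * ((k : ℝ) * ρR))
    have h3 : (j : ℝ) * h ≤ (J : ℝ) * h := by
      have : (j : ℝ) ≤ J := by exact_mod_cast hj.le
      exact mul_le_mul_of_nonneg_right this (Nat.cast_nonneg _)
    have h4 : (q : ℝ) ≤ ((X0 + ⌊v * ((k : ℝ) * ρR)⌋ : ℤ) : ℝ) := by
      push_cast
      rw [hX0R]
      linarith
    exact_mod_cast h4
  · -- left
    intro j hj k hk q hq
    rw [← hv, ← hρR, ← htR] at hq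
    have h1 := (abs_le.1 hq).1
    have h2 := Int.floor_le (v * (((k : ℝ) - 1) * ρR))
    have h3 : (0 : ℝ) ≤ (j : ℝ) * h := by positivity
    have h4 : ((X0 + ⌊v * (((k : ℝ) - 1) * ρR)⌋ + y : ℤ) : ℝ) ≤ q := by
      push_cast
      rw [hX0R]
      have h5 : v * (k * ρR + (tR - ρR)) = v * (((k : ℝ) - 1) * ρR) + v * tR := by ring
      have h6 : (m + 18 * d) * tR ≤ v * tR := by
        apply mul_le_mul_of_nonneg_right _ (by linarith)
        linarith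
      have h7 : d * P ≤ d * tR := mul_le_mul_of_nonneg_left e2.le hd.le
      rw [h5] at h1
      have h8 : (m + 18 * d) * tR = m * tR + 17 * (d * tR) + d * tR := by ring
      have h9 : 17 * d * tR = 17 * (d * tR) := by ring
      rw [h8] at h6
      rw [h9] at hyb
      linarith
    exact_mod_cast h4
  · -- cone
    intro k hk
    apply K0_of_abs S
    rw [← hm, ← hdd, ← hnR]
    have h1 := Int.sub_one_lt_floor (v * ((k : ℝ) * ρR))
    have h2 := Int.floor_le (v * ((k : ℝ) * ρR))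
    have h3 := Int.sub_one_lt_floor (v * (((k : ℝ) - 1) * ρR))
    have h4 := Int.floor_le (v * (((k : ℝ) - 1) * ρR))
    have h5 : v * ((k : ℝ) * ρR) - v * (((k : ℝ) - 1) * ρR) = v * ρR := by ring
    have h6 : (m + 18 * d) * ρR ≤ v * ρR := by
      apply mul_le_mul_of_nonneg_right _ (by linarith)
      linarith
    have h7 : v * ρR ≤ (m + 22 * d) * ρR := by
      apply mul_le_mul_of_nonneg_right _ (by linarith)
      linarith
    have h8 : 50 ≤ d * ρR := by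
      have := mul_le_mul_of_nonneg_left e4 hd.le
      clear * - this hdt
      linarith
    have h9 : d ≤ 1 := by linarith
    have e8 : tR = nR + ρR := by linarith
    rw [e8] at hylow hyb
    rw [abs_le]
    push_cast
    have e6' : d * nR ≤ d * ρR := mul_le_mul_of_nonneg_left e6 hd.le
    have e7' : d * ρR ≤ d * (nR + 1) := mul_le_mul_of_nonneg_left e7 hd.le
    clear * - h1 h2 h3 h4 h5 h6 h7 h8 h9 hylow hyb e6' e7' e6 e7
    constructor
    · linarith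
    · linarith
  · -- box
    intro k hk
    have h1 := Int.floor_le (v * ((k : ℝ) * ρR))
    have h2 := hKR k hk
    have h3 : 0 ≤ (k : ℝ) * ρR := by
      rw [hρR]
      positivity
    have h4 : v * ((k : ℝ) * ρR) ≤ 1 * ((k : ℝ) * ρR) := mul_le_mul_of_nonneg_right hv1' h3
    have h5 : 0 ≤ ⌊v * ((k : ℝ) * ρR)⌋ := Int.floor_nonneg.2 (mul_nonneg hv0 h3)
    have h6 : 0 ≤ X0 := by positivity
    rw [abs_of_nonneg (by omega)]
    have h7 : d * P ≤ P := mul_le_of_le_one_left (by linarith) (by linarith)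
    have h8 : ((X0 + ⌊v * ((k : ℝ) * ρR)⌋ : ℤ) : ℝ) ≤ 4 * T := by
      push_cast
      rw [hX0R]
      linarith
    exact_mod_cast h8
  · -- the starts
    intro j hj
    have h3 : (j : ℝ) * h ≤ (J : ℝ) * h := by
      have : (j : ℝ) ≤ J := by exact_mod_cast hj.le
      exact mul_le_mul_of_nonneg_right this (Nat.cast_nonneg _)
    have h7 : d * P ≤ P := mul_le_of_le_one_left (by linarith) (by linarith)
    have h8 : (((j : ℤ) * h : ℤ) : ℝ) ≤ 4 * T := by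
      push_cast
      linarith
    exact_mod_cast h8
  · -- `T ≤ 2 K P`
    have h1 : (T : ℝ) ≤ tR + K * ρR := by
      have h2 : T ≤ t + K * ρ := by omega
      rw [htR, hρR]
      exact_mod_cast h2
    have h3 : (K : ℝ) * ρR ≤ K * P := mul_le_mul_of_nonneg_left e5 (Nat.cast_nonneg _)
    linarith

end Pool.Agent.W_7d29a1_F
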