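import Pool.Agent.W_7d29a1_F.GrA
import Pool.Agent.W_7d29a1_F.GrD
import Pool.Agent.W_7d29a1_F.GrE
import Pool.Agent.W_7d29a1_F.GrG

/-! Section 9: the growth inequality on one side. -/

namespace Pool.Agent.W_7d29a1_F

open MeasureTheory ProbabilityTheory Filter Topology

variable {μ : Measure ℝ} [IsProbabilityMeasure μ] {s v1 v2 : ℝ} {B : ℕ → ℝ}

/-- The numerical part of the growth inequality. -/
private theorem grow_num {K e E B C w r t nu : ℝ} (hK : 0 < K) (hB : 1 ≤ B) (hE0 : 0 ≤ E)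
    (hEB : E ≤ B) (hC : 0 ≤ C) (hw : 0 < w) (hw1 : w ≤ 1) (hr : 1 ≤ r)
    (hnu0 : 0 ≤ nu) (hKP : 1 / K ≤ nu) (hwnu : w ≤ nu) (htr : t * w ≤ 4 * r)
    (h : K * e ≤ (K + 1) * E + C * B + 2 * B + (K + 1) * (2 * w * B) +
      K * ((2 * t / r + 1) * (2 * B) * w ^ 2)) :
    e ≤ E + (C + 29) * nu * B := by
  have hB0 : 0 < B := by linarith
  have h1 : (2 * t / r + 1) * (2 * B) * w ^ 2 ≤ 18 * w * B := by
    have h2 : 2 * t / r * w ≤ 8 := by
      rw [div_mul_eq_mul_div, div_le_iff₀ (by linarith)]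
      linarith
    have h3 : (2 * t / r + 1) * w ≤ 9 := by linarith
    have h4 : 0 ≤ 2 * B * w := by positivity
    nlinarith
  have h5 : K * ((2 * t / r + 1) * (2 * B) * w ^ 2) ≤ K * (18 * w * B) :=
    mul_le_mul_of_nonneg_left h1 hK.le
  have h6 : K * e ≤ K * (E + 1 / K * (E + C * B + 2 * B + 2 * w * B) + 20 * w * B) := by
    have h7 : K * (E + 1 / K * (E + C * B + 2 * B + 2 * w * B) + 20 * w * B) =
        K * E + (E + C * B + 2 * B + 2 * w * B) + K * (20 * w * B) := by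
      field_simp
    rw [h7]
    linarith
  have h8 := le_of_mul_le_mul_left h6 hK
  have h9 : 0 ≤ E + C * B + 2 * B + 2 * w * B := by positivity
  have h10 : 1 / K * (E + C * B + 2 * B + 2 * w * B) ≤ nu * ((C + 5) * B) := by
    have h11 : E + C * B + 2 * B + 2 * w * B ≤ (C + 5) * B := by nlinarith
    exact mul_le_mul hKP h11 h9 hnu0
  have h12 : 20 * w * B ≤ 20 * nu * B := by nlinarith
  nlinarith [mul_nonneg hnu0 hB0.le]

set_option maxHeartbeats 2000000 in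
theorem grow (S : Setup μ s v1 v2) (U : UnitB μ s v1 v2 B) {A i1 : ℕ} {p C : ℝ} {T : ℕ → ℕ}
    {z : ℕ → ℤ} {w : ℕ → ℝ} (h : Tubes μ s v1 v2 B A i1 p C T z w) :
    ∃ (nu de : ℕ → ℝ) (l : ℕ → ℕ) (C' : ℝ) (x0 : ℕ), Gd nu de l C' ∧ ∀ x ≥ x0, ∀ (t : ℕ) (y : ℤ),
      2 ^ x < t → t ≤ 2 ^ (x + 1) → K0 v1 v2 t y → ¬ K0 v1 v2 t (y + 1) →
      e μ s t y ≤ E μ s v1 v2 (2 ^ x) - 1 + C' * nu (x + 1) * B (2 ^ (x + 1 + l (x + 1))) +
        de (x + 1) * E μ s v1 v2 (2 ^ (x + 1)) := by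
  have hd := S.dpos
  obtain ⟨d, hdd⟩ : ∃ d : ℝ, d = dd v1 v2 := ⟨_, rfl⟩
  rw [← hdd] at hd
  have hd1 : d ≤ 1 := by
    rw [hdd]
    unfold dd
    have := S.v1pos
    have := S.v2lt
    linarith
  obtain ⟨CJ, hCJ1, hCJ⟩ := grA_J h.p0
  -- the constant of the width
  obtain ⟨Cg, hCg⟩ : ∃ Cg : ℝ, Cg = (5 * (CJ + 8) + 20) / d := ⟨_, rfl⟩
  have hCgd : Cg * d = 5 * (CJ + 8) + 20 := by
    rw [hCg]
    field_simp
  have hCg2 : 2 ≤ Cg := by
    rw [hCg, le_div_iff₀ hd]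
    linarith
  obtain ⟨nu, l, lv, x1, hGd, hA⟩ := grA h Cg hCg2
  obtain ⟨x2, hG⟩ := geo_exists S
  refine ⟨nu, fun _ => 0, l, max (4 * A) (|C| + 29), max x1 x2, ⟨hGd.nu0, hGd.de0, hGd.nul, hGd.del,
    fun x => (hGd.hl x).trans (le_max_left _ _), hGd.sum⟩, ?_⟩
  intro x hx t y ht1 ht2 hK0 hK0'
  obtain ⟨a1, a2, a3, a4, a5, a6⟩ := hA x (le_trans (le_max_left _ _) hx)
  -- the data of the level
  obtain ⟨i, hi⟩ : ∃ i, i = lv x := ⟨_, rfl⟩
  rw [← hi] at a1 a2 a3 a4 a5 a6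
  obtain ⟨W, hW⟩ : ∃ W : ℝ, W = w i := ⟨_, rfl⟩
  obtain ⟨T', hT'⟩ : ∃ T' : ℕ, T' = T i := ⟨_, rfl⟩
  have hw1 := h.wle i a1
  have hw0 : 0 < w i := lt_of_lt_of_le (by positivity) (h.wge i a1)
  have hgood := h.good i a1
  have hz := h.z0 i a1
  have hdir := h.dir i a1
  rw [← hW] at a2 a6 hw1 hw0 hgood
  rw [← hT'] at a2 a3 a4 a5 a6 hgood hz hdir
  obtain ⟨L, hL⟩ : ∃ L : ℝ, L = Real.log (2 / W) := ⟨_, rfl⟩
  obtain ⟨r, hr⟩ : ∃ r : ℝ, r = W * T' := ⟨_, rfl⟩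
  rw [← hL, ← hr] at a2
  rw [← hr] at a6 hgood
  have hL2 : 1 / 2 ≤ L := by
    rw [hL]
    have h3 : (2 : ℝ) ≤ 2 / W := by
      rw [le_div_iff₀ hw0]
      linarith
    have h4 := Real.log_le_log (by norm_num) h3
    linarith [Real.log_two_gt_d9]
  obtain ⟨P, hP⟩ : ∃ P : ℝ, P = (2 : ℝ) ^ x := ⟨_, rfl⟩
  have hPpos : 0 < P := by
    rw [hP]
    positivity
  -- the spacing and the number of the tubes
  obtain ⟨hh, hhdef⟩ : ∃ hh : ℕ, hh = ⌈2 * r⌉₊ + 1 := ⟨_, rfl⟩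
  obtain ⟨J, hJdef⟩ : ∃ J : ℕ, J = ⌈CJ * L⌉₊ + 3 := ⟨_, rfl⟩
  have hh1 : 2 * r + 1 ≤ hh := by
    have := Nat.le_ceil (2 * r)
    rw [hhdef]
    push_cast
    linarith
  have hh2 : (hh : ℝ) ≤ 2 * r + 2 := by
    have := (Nat.ceil_lt_add_one (show 0 ≤ 2 * r by linarith)).le
    rw [hhdef]
    push_cast
    linarith
  have hJ1 : CJ * L ≤ J := by
    have := Nat.le_ceil (CJ * L)
    rw [hJdef]
    push_cast
    linarith
  have hJ2 : (J : ℝ) ≤ CJ * L + 4 := by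
    have := (Nat.ceil_lt_add_one (show 0 ≤ CJ * L by positivity)).le
    rw [hJdef]
    push_cast
    linarith
  have hJ3 : 3 ≤ J := by omega
  have hJL : (J : ℝ) ≤ (CJ + 8) * L := by
    clear * - hJ2 hL2
    linarith
  have hwidth : (J : ℝ) * hh + 2 * r + 8 ≤ d * P := by
    have h1 : (J : ℝ) * hh ≤ (CJ + 8) * L * (4 * r) :=
      mul_le_mul hJL (by linarith) (Nat.cast_nonneg _) (by positivity)
    have h2 : 2 * r + 8 ≤ 20 * (L * r) := by
      have h20 := mul_le_mul_of_nonneg_right hL2 (by linarith : (0 : ℝ) ≤ r)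
      clear * - h20 a6
      linarith
    have h3 : d * (Cg * L * r) ≤ d * P := by
      apply mul_le_mul_of_nonneg_left _ hd.le
      rw [hP]
      exact a2
    have h4 : d * (Cg * L * r) = (5 * (CJ + 8) + 20) * (L * r) := by
      calc d * (Cg * L * r) = Cg * d * (L * r) := by ring
        _ = _ := by rw [hCgd]
    have h5 : 0 ≤ (CJ + 8) * (L * r) := by positivity
    have h6 : (J : ℝ) * hh ≤ 4 * ((CJ + 8) * (L * r)) := by linarith
    linarith
  -- the geometry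
  have hdir' : |(z i : ℝ) - v2 * T'| ≤ 2 * dd v1 v2 * T' := hdir
  obtain ⟨ρ, K, xs, ys, G, hn, hTK⟩ := hG x (le_trans (le_max_right _ _) hx) T' (z i) r hh J t y
    hz.1 hz.2 hdir' a6 (by omega) (by rw [← hdd, ← hP]; exact hwidth) a3 ht1 ht2 hK0 hK0'
  rw [← hP] at hTK
  have hTP : 8 * P ≤ T' := by
    rw [hP]
    exact_mod_cast a3
  have hTpos : (0 : ℝ) < T' := by linarith
  have hKpos : (0 : ℝ) < K := by
    by_contra hcon
    have : (K : ℝ) = 0 := le_antisymm (not_lt.1 hcon) (Nat.cast_nonneg _)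
    rw [this] at hTK
    linarith
  -- probabilities
  have hp0 := h.p0
  have hp1 : p ≤ 1 := hgood.trans measureReal_le_one
  obtain ⟨c, hc⟩ : ∃ c : ℝ, c = Real.exp (-(|C| * B T')) := ⟨_, rfl⟩
  have hB1 : 1 ≤ B T' := U.one_le _
  have hc0 : 0 < c := by
    rw [hc]
    exact Real.exp_pos _
  have hc1 : c ≤ 1 := by
    rw [hc]
    apply Real.exp_le_one_iff.2
    have : 0 ≤ |C| * B T' := by positivity
    linarith
  have hpc : p ≤ (law μ).real {η | c ≤ WR μ s (tube T' (z i) r) η 0 T' (z i)} := by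
    refine hgood.trans (measureReal_mono ?_ (measure_ne_top _ _))
    intro η hη
    have hη' : Real.exp (-(C * B T')) ≤ WR μ s (tube T' (z i) r) η 0 T' (z i) := hη
    show c ≤ WR μ s (tube T' (z i) r) η 0 T' (z i)
    refine le_trans ?_ hη'
    rw [hc]
    apply Real.exp_le_exp.2
    have : C * B T' ≤ |C| * B T' := mul_le_mul_of_nonneg_right (le_abs_self C) (by linarith)
    linarith
  have hq : (1 - p) ^ (J - 2) ≤ W ^ 2 := hCJ W hw0 hw1 J (by rw [← hL]; exact hJ1) hJ3 hp1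
  have hqJ : (law μ).real (BadJ μ s T' (z i) r c hh J) ≤ W ^ 2 := by
    refine (prob_bad (by linarith) hp0.le hpc hh1).trans (le_trans ?_ hq)
    exact pow_le_pow_of_le_one (by linarith) (by linarith) (by omega)
  -- the inequality
  have hyt : 0 ≤ y ∧ y ≤ t := ⟨hK0.1, hK0.2.1⟩
  have hmain := cross_int S G hyt hc0 hc1
  have hM1 := int_Mx_le S U G.T1
  have hM2 := int_Mx_bad S U G.T1 (measurableSet_BadJ T' (z i) r c hh J) hw0 hqJ
  have ht2P : (t : ℝ) ≤ 2 * P := by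
    have : (t : ℝ) ≤ ((2 ^ (x + 1) : ℕ) : ℝ) := by exact_mod_cast ht2
    rw [pow_succ] at this
    push_cast at this
    rw [hP]
    linarith
  have htP : P < t := by
    rw [hP]
    exact_mod_cast ht1
  have ht8 : t ≤ 8 * T' := by
    have h1 : (t : ℝ) ≤ 8 * T' := by linarith
    exact_mod_cast h1
  have hrP : 4 * r ≤ 3 * (t : ℝ) := by
    have h1 : 3 * (2 * r + 1) ≤ (J : ℝ) * hh :=
      mul_le_mul (by exact_mod_cast hJ3) hh1 (by linarith) (Nat.cast_nonneg _)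
    have h2 : d * P ≤ 1 * P := mul_le_mul_of_nonneg_right hd1 hPpos.le
    clear * - h1 h2 hwidth htP a6
    linarith
  have hfb : ∀ k ∈ Finset.range K, ∫ η in BadJ μ s T' (z i) r c hh J,
      X μ s η (xk ρ xs k) t y ∂(law μ) ≤ (2 * t / r + 1) * (2 * B T') * W ^ 2 := by
    intro k _
    refine (fallback S U G.T1 hz a6 hp0.le hpc hh1 hK0 ht8 hrP (xk ρ xs k)).trans ?_
    apply mul_le_mul_of_nonneg_left hq
    have : 0 < r := by linarith
    positivity
  have hcone : ∀ k ∈ Finset.range (K + 1), e μ s (t - ρ) (ys k - xs k) ≤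
      E μ s v1 v2 (2 ^ x) - 1 := by
    intro k hk
    rw [Finset.mem_range] at hk
    exact e_le_E S (G.cone k (by omega)) hn
  have hEB : E μ s v1 v2 (2 ^ x) - 1 ≤ B T' := by
    have := E_le (μ := μ) (s := s) (v1 := v1) (v2 := v2) (n := 2 ^ x) (c := B T') fun t' y' ht' hK' =>
      U.move T' t' y' hK' (by omega)
    linarith
  have hE0 : 0 ≤ E μ s v1 v2 (2 ^ x) - 1 := by
    have := one_le_E S (2 ^ x)
    linarith
  have hsum1 := Finset.sum_le_sum hcone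
  have hsum2 := Finset.sum_le_sum hfb
  rw [Finset.sum_const, Finset.card_range, nsmul_eq_mul] at hsum1 hsum2
  push_cast at hsum1
  have hlogc : -Real.log c = |C| * B T' := by
    rw [hc, Real.log_exp]
    ring
  have hfin : (K : ℝ) * e μ s t y ≤ (K + 1) * (E μ s v1 v2 (2 ^ x) - 1) + |C| * B T' + 2 * B T' +
      (K + 1) * (2 * W * B T') + K * ((2 * t / r + 1) * (2 * B T') * W ^ 2) := by
    have h1 : ((K : ℝ) + 1) * ∫ η in BadJ μ s T' (z i) r c hh J, Mx μ s η (8 * T') ∂(law μ) ≤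
        (K + 1) * (2 * W * B T') := mul_le_mul_of_nonneg_left hM2 (by linarith)
    linarith
  have hnu := hGd.nu0 (x + 1)
  have hnu4 : 2 * P / T' ≤ nu (x + 1) := by
    have : (2 : ℝ) ^ (x + 1) = 2 * P := by
      rw [hP, pow_succ]
      ring
    rw [← this]
    exact a4
  have hKnu : 1 / (K : ℝ) ≤ nu (x + 1) := by
    refine le_trans ?_ hnu4
    rw [div_le_div_iff₀ hKpos hTpos]
    linarith
  have hWnu : W ≤ nu (x + 1) := by
    refine le_trans ?_ hnu4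
    rw [le_div_iff₀ hTpos, ← hr]
    have h1 : r ≤ d * P := by
      have : 0 ≤ (J : ℝ) * hh := by positivity
      linarith
    have h2 : d * P ≤ 1 * P := mul_le_mul_of_nonneg_right hd1 hPpos.le
    clear * - h1 h2 hPpos
    linarith
  have htr : (t : ℝ) * W ≤ 4 * r := by
    rw [hr]
    have h1 : (t : ℝ) ≤ 4 * T' := by linarith
    have h2 := mul_le_mul_of_nonneg_right h1 hw0.le
    clear * - h2
    linarith
  have hnum := grow_num hKpos hB1 hE0 hEB (abs_nonneg C) hw0 hw1 a6 hnu hKnu hWnu htr hfin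
  have hBmono : B T' ≤ B (2 ^ (x + 1 + l (x + 1))) := U.mono a5
  have hB2 : 0 ≤ B (2 ^ (x + 1 + l (x + 1))) := by
    have := U.one_le (2 ^ (x + 1 + l (x + 1)))
    linarith
  have h13 : (|C| + 29) * nu (x + 1) * B T' ≤
      max (4 * (A : ℝ)) (|C| + 29) * nu (x + 1) * B (2 ^ (x + 1 + l (x + 1))) := by
    apply mul_le_mul _ hBmono (by linarith)
    · have : 0 ≤ |C| + 29 := by positivity
      exact mul_nonneg (this.trans (le_max_right _ _)) hnu
    · exact mul_le_mul_of_nonneg_right (le_max_right _ _) hnu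
  simp only [zero_mul, add_zero]
  linarith

end Pool.Agent.W_7d29a1_F
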