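import Pool.Agent.W_7d29a1_F.Iface

/-! Section 1: `E(n) ≥ c log n` (helper21's proof by the inequality of arithmetic and geometric means). -/

namespace Pool.Agent.W_7d29a1_F

open MeasureTheory ProbabilityTheory Filter Topology

variable {μ : Measure ℝ} [IsProbabilityMeasure μ] {s v1 v2 : ℝ}

private theorem Plant_amgm {ι : Type*} (A : Finset ι) (hA : A.Nonempty) (w : ι → ℝ)
    (hw : ∀ i ∈ A, 0 < w i) :
    Real.log A.card + (∑ i ∈ A, Real.log (w i)) / A.card ≤ Real.log (∑ i ∈ A, w i) := by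
  have hc : (0 : ℝ) < A.card := by exact_mod_cast hA.card_pos
  have h1 := strictConcaveOn_log_Ioi.concaveOn.le_map_sum (t := A) (w := fun _ => 1 / (A.card : ℝ))
    (p := w) (fun _ _ => by positivity) (by
      rw [Finset.sum_const, nsmul_eq_mul]
      field_simp) (fun i hi => hw i hi)
  simp only [smul_eq_mul, ← Finset.mul_sum] at h1
  have h2 : 0 < ∑ i ∈ A, w i := Finset.sum_pos hw hA
  rw [Real.log_mul (by positivity) h2.ne', one_div, Real.log_inv] at h1
  rw [div_eq_inv_mul]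
  linarith

theorem log_le_E (S : Setup μ s v1 v2) : ∃ c : ℝ, 0 < c ∧ ∀ n : ℕ, 1 ≤ n →
    c * Real.log n ≤ E μ s v1 v2 n := by
  classical
  obtain ⟨a, ha⟩ : ∃ a : ℝ, a = 17 * dd v1 v2 := ⟨_, rfl⟩
  have ha0 : 0 < a := by
    have := S.dpos
    rw [ha]
    linarith
  have hb : 0 < 1 + |Real.log a| := by positivity
  refine ⟨1 / (1 + |Real.log a|), by positivity, fun n hn => ?_⟩
  have hn0 : (0 : ℝ) < n := by exact_mod_cast hn
  have hE1 : 1 ≤ E μ s v1 v2 n := one_le_E S n
  rw [one_div, inv_mul_le_iff₀ hb]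
  have hlog : Real.log n = Real.log (a * n) - Real.log a := by
    rw [Real.log_mul ha0.ne' hn0.ne']
    ring
  have hE2 : |Real.log a| ≤ |Real.log a| * E μ s v1 v2 n := le_mul_of_one_le_right (abs_nonneg _) hE1
  have hneg : -Real.log a ≤ |Real.log a| := neg_le_abs _
  by_cases han : a * n < 1
  · have h1 : Real.log (a * n) ≤ 0 := Real.log_nonpos (by positivity) han.le
    rw [hlog]
    nlinarith
  have han' : 1 ≤ a * n := not_lt.1 han
  obtain ⟨A, hA⟩ : ∃ A : Finset ℤ, A = Finset.Icc ⌈vc v1 v2 * n - a * n⌉ ⌊vc v1 v2 * n + a * n⌋ :=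
    ⟨_, rfl⟩
  have hK : ∀ y ∈ A, K0 v1 v2 n y := by
    intro y hy
    rw [hA, Finset.mem_Icc] at hy
    refine K0_of_abs S ?_
    rw [← ha, abs_le]
    have h1 := Int.ceil_le.1 hy.1
    have h2 := Int.le_floor.1 hy.2
    constructor <;> linarith
  have hcard : a * n ≤ A.card := by
    rw [hA, Int.card_Icc]
    have h1 : vc v1 v2 * n + a * n < ⌊vc v1 v2 * n + a * n⌋ + 1 := Int.lt_floor_add_one _
    have h2 : (⌈vc v1 v2 * n - a * n⌉ : ℝ) < vc v1 v2 * n - a * n + 1 := Int.ceil_lt_add_one _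
    have h3 : ((⌊vc v1 v2 * n + a * n⌋ + 1 - ⌈vc v1 v2 * n - a * n⌉ : ℤ) : ℝ) ≤
        (((⌊vc v1 v2 * n + a * n⌋ + 1 - ⌈vc v1 v2 * n - a * n⌉).toNat : ℕ) : ℝ) := by
      have := Int.self_le_toNat (⌊vc v1 v2 * n + a * n⌋ + 1 - ⌈vc v1 v2 * n - a * n⌉)
      exact_mod_cast this
    push_cast at h3
    linarith
  have hcard0 : (0 : ℝ) < A.card := lt_of_lt_of_le (by positivity) hcard
  have hne : A.Nonempty := by
    rw [← Finset.card_pos]
    exact_mod_cast hcard0
  -- the pointwise inequality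
  have hpt : ∀ η : Env, Real.log A.card - (∑ y ∈ A, X μ s η 0 n y) / A.card ≤ V μ s η 0 n := by
    intro η
    have hw : ∀ y ∈ A, 0 < W μ s η 0 n y := fun y hy => W_pos η 0 (hK y hy).1 (hK y hy).2.1
    have h1 := Plant_amgm A hne (fun y => W μ s η 0 n y) hw
    have h2 : ∑ y ∈ A, Real.log (W μ s η 0 n y) = -∑ y ∈ A, X μ s η 0 n y := by
      rw [← Finset.sum_neg_distrib]
      refine Finset.sum_congr rfl fun y _ => ?_
      unfold X
      ring
    rw [h2, neg_div] at h1
    have h3 : Real.log (∑ y ∈ A, W μ s η 0 n y) ≤ V μ s η 0 n := by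
      have h4 := WS_le_exp_V (μ := μ) (s := s) η 0 n A
      have h5 : 0 < ∑ y ∈ A, W μ s η 0 n y := Finset.sum_pos hw hne
      unfold WS at h4
      rw [← Real.log_exp (V μ s η 0 n)]
      exact Real.log_le_log h5 h4
    linarith
  have hiX : ∀ y ∈ A, Integrable (fun η => X μ s η 0 n y) (law μ) := fun y hy =>
    (Sub_X 0 (hK y hy).1 (hK y hy).2.1).integrable S.em
  have hiS : Integrable (fun η => ∑ y ∈ A, X μ s η 0 n y) (law μ) :=
    integrable_finset_sum A hiX
  have hint : ∫ η, (Real.log A.card - (∑ y ∈ A, X μ s η 0 n y) / A.card) ∂(law μ) ≤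
      ∫ η, V μ s η 0 n ∂(law μ) :=
    integral_mono ((integrable_const (Real.log A.card)).sub (hiS.div_const _))
      ((Sub_V 0 n).integrable S.em) hpt
  have h6 : ∫ η, (Real.log A.card - (∑ y ∈ A, X μ s η 0 n y) / A.card) ∂(law μ) =
      Real.log A.card - (∑ y ∈ A, e μ s n y) / A.card := by
    rw [integral_sub (integrable_const _) (hiS.div_const _), integral_div,
      integral_finset_sum A hiX, integral_const]
    simp only [probReal_univ, one_smul]
    rfl
  rw [h6] at hint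
  have h7 := integral_V_nonpos S.em s n
  have h8 : ∑ y ∈ A, e μ s n y ≤ A.card * (E μ s v1 v2 n - 1) := by
    have := Finset.sum_le_card_nsmul A (fun y => e μ s n y) (E μ s v1 v2 n - 1) fun y hy =>
      e_le_E S (hK y hy) le_rfl
    rwa [nsmul_eq_mul] at this
  have h9 : (∑ y ∈ A, e μ s n y) / A.card ≤ E μ s v1 v2 n - 1 := by
    rw [div_le_iff₀ hcard0]
    linarith
  have h10 : Real.log (a * n) ≤ Real.log A.card := Real.log_le_log (by positivity) hcard
  rw [hlog]
  nlinarith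

end Pool.Agent.W_7d29a1_F
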