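import Pool.Agent.W_7d29a1_F.TbLevelA

/-!
Tubes: Paley-Zygmund. TASK TbPZ (helper59).
-/

namespace Pool.Agent.W_7d29a1_F

open MeasureTheory ProbabilityTheory Filter Topology

variable {μ : Measure ℝ} [IsProbabilityMeasure μ] {s v1 v2 : ℝ} {B : ℕ → ℝ}

private theorem TbPZ_WR_le (Rg : Set Pt) (η : Env) (T : ℕ) (z : ℤ) :
    WR μ s Rg η 0 T z ≤ Real.exp (V μ s η 0 T) := by
  refine (WR_le_W Rg η 0 T z).trans ?_
  have h2 := WS_le_exp_V (μ := μ) (s := s) η 0 T {z}
  simpa [WS] using h2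

private theorem TbPZ_int (hμ : Pool.Agent.W_7d29a1_h47.EM μ) (Rg : Set Pt) (T : ℕ) (z : ℤ) {θ : ℝ}
    (hθ : 0 ≤ θ) : Integrable (fun η => WR μ s Rg η 0 T z ^ θ) (law μ) := by
  refine (((Sub_V (μ := μ) (s := s) 0 T).const_mul θ).exp_int (μ := μ) hμ).mono'
    ((measurable_WR Rg 0 T z).pow_const θ).aestronglyMeasurable
    (Filter.Eventually.of_forall fun η => ?_)
  rw [Real.norm_eq_abs, abs_of_nonneg (Real.rpow_nonneg (WR_nonneg _ _ _ _ _) _)]
  refine (Real.rpow_le_rpow (WR_nonneg _ _ _ _ _) (TbPZ_WR_le Rg η T z) hθ).trans (le_of_eq ?_)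
  rw [← Real.exp_mul, mul_comm]

/-- Proof: `Y = WR ^ θ`, `θ = 1 / B L`; `∫ Y ^ 2 ≤ ∫ exp (2 Mx (8 L) / B L) ≤ e` (`WR ≤ W ≤ exp V (0, T)`,
`V_le_Mx`, `U.luck`); `Y 1_{Y ≥ q / 4} ≤ l / 2 Y ^ 2 + 1_{Y ≥ q / 4} / (2 l)` with `l = q / (4 e)`; on
`Y ≥ q / 4` one has `WR ≥ (q / 4) ^ (B L) ≥ exp (- C B T)`. -/
theorem pz (hμ : Pool.Agent.W_7d29a1_h47.EM μ) (U : UnitB μ s v1 v2 B) {L T : ℕ} (hL : 1 ≤ L)
    (hLT : L ≤ T) (hT : T ≤ 2 * L) {z : ℤ} (Rg : Set Pt) {q : ℝ} (hq : 0 < q)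
    (h : q / 2 ≤ ∫ η, WR μ s Rg η 0 T z ^ (1 / B L) ∂(law μ)) :
    q ^ 2 / (16 * Real.exp 1) ≤ (law μ).real
      {η | Real.exp (-(max 0 (Real.log (4 / q)) * B T)) ≤ WR μ s Rg η 0 T z} := by
  have hB : 1 ≤ B L := U.one_le L
  have hB0 : 0 < B L := by linarith
  have hθ0 : 0 < 1 / B L := by positivity
  have he : 0 < Real.exp 1 := Real.exp_pos 1
  set Y : Env → ℝ := fun η => WR μ s Rg η 0 T z ^ (1 / B L) with hY
  have hY0 : ∀ η, 0 ≤ Y η := fun η => Real.rpow_nonneg (WR_nonneg _ _ _ _ _) _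
  have hYm : Measurable Y := (measurable_WR Rg 0 T z).pow_const _
  have hYi : Integrable Y (law μ) := TbPZ_int hμ Rg T z hθ0.le
  have hY2 : ∀ η, Y η ^ 2 = WR μ s Rg η 0 T z ^ (2 * (1 / B L)) := by
    intro η
    rw [hY, ← Real.rpow_natCast, ← Real.rpow_mul (WR_nonneg _ _ _ _ _)]
    congr 1
    push_cast
    ring
  have hY2i : Integrable (fun η => Y η ^ 2) (law μ) := by
    refine (TbPZ_int (μ := μ) (s := s) hμ Rg T z (θ := 2 * (1 / B L)) (by positivity)).congr
      (Filter.Eventually.of_forall fun η => ?_)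
    exact (hY2 η).symm
  have hY2e : ∫ η, Y η ^ 2 ∂(law μ) ≤ Real.exp 1 := by
    refine le_trans ?_ (U.luck L hL)
    refine integral_mono_of_nonneg (Filter.Eventually.of_forall fun η => sq_nonneg _) ?_
      (Filter.Eventually.of_forall fun η => ?_)
    · have h1 := ((Sub_Mx (μ := μ) (s := s) (8 * L)).const_mul (2 / B L)).exp_int (μ := μ) hμ
      refine h1.congr (Filter.Eventually.of_forall fun η => ?_)
      simp only
      congr 1
      ring
    · simp only
      rw [hY2 η]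
      have h2 : V μ s η 0 T ≤ Mx μ s η (8 * L) :=
        V_le_Mx (μ := μ) (s := s) η (H := 8 * L) (t := 0) (n := T) (x := 0) (by simp) (by omega)
      refine (Real.rpow_le_rpow (WR_nonneg _ _ _ _ _) (TbPZ_WR_le Rg η T z)
        (by positivity)).trans ?_
      rw [← Real.exp_mul]
      apply Real.exp_le_exp.2
      have h3 := mul_le_mul_of_nonneg_left h2 (show 0 ≤ 2 * (1 / B L) by positivity)
      calc V μ s η 0 T * (2 * (1 / B L)) = 2 * (1 / B L) * V μ s η 0 T := by ring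
        _ ≤ 2 * (1 / B L) * Mx μ s η (8 * L) := h3
        _ = 2 * Mx μ s η (8 * L) / B L := by ring
  set A : Set Env := {η | q / 4 ≤ Y η} with hA
  have hAm : MeasurableSet A := measurableSet_le measurable_const hYm
  set l : ℝ := q / (4 * Real.exp 1) with hl
  have hl0 : 0 < l := by positivity
  have hpt : ∀ η, Y η ≤ q / 4 + l / 2 * Y η ^ 2 + A.indicator (fun _ => 1 / (2 * l)) η := by
    intro η
    by_cases hη : η ∈ A
    · rw [Set.indicator_of_mem hη]
      have h1 : 0 ≤ (l * Y η - 1) ^ 2 := sq_nonneg _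
      have h2 : Y η ≤ l / 2 * Y η ^ 2 + 1 / (2 * l) := by
        have h3 : l / 2 * Y η ^ 2 + 1 / (2 * l) - Y η = (l * Y η - 1) ^ 2 / (2 * l) := by
          field_simp
          ring
        have h4 : 0 ≤ (l * Y η - 1) ^ 2 / (2 * l) := by positivity
        linarith
      linarith
    · rw [Set.indicator_of_notMem hη]
      have h1 : Y η < q / 4 := lt_of_not_ge hη
      have h2 : 0 ≤ l / 2 * Y η ^ 2 := by positivity
      linarith
  have hPA : q ^ 2 / (16 * Real.exp 1) ≤ (law μ).real A := by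
    have hi1 : Integrable (fun η => q / 4 + l / 2 * Y η ^ 2) (law μ) :=
      (integrable_const _).add (hY2i.const_mul _)
    have hi2 : Integrable (A.indicator fun _ => 1 / (2 * l)) (law μ) :=
      (integrable_const _).indicator hAm
    have h1 : ∫ η, Y η ∂(law μ) ≤ ∫ η, (q / 4 + l / 2 * Y η ^ 2 +
        A.indicator (fun _ => 1 / (2 * l)) η) ∂(law μ) :=
      integral_mono hYi (hi1.add hi2) hpt
    rw [integral_add hi1 hi2, integral_add (integrable_const _) (hY2i.const_mul _),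
      integral_const_mul, integral_indicator_const _ hAm] at h1
    simp only [integral_const, probReal_univ, smul_eq_mul, one_mul] at h1
    have h2 : q / 2 ≤ ∫ η, Y η ∂(law μ) := h
    have h3 : l / 2 * ∫ η, Y η ^ 2 ∂(law μ) ≤ l / 2 * Real.exp 1 :=
      mul_le_mul_of_nonneg_left hY2e (by positivity)
    have h4 : l / 2 * Real.exp 1 = q / 8 := by
      rw [hl]
      field_simp
      norm_num
    have h5 : q / 8 ≤ (law μ).real A * (1 / (2 * l)) := by linarith
    have h6 : q / 8 * (2 * l) ≤ (law μ).real A := by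
      have h7 := mul_le_mul_of_nonneg_right h5 (show 0 ≤ 2 * l by positivity)
      have h8 : (law μ).real A * (1 / (2 * l)) * (2 * l) = (law μ).real A := by
        field_simp
      linarith
    have h7 : q / 8 * (2 * l) = q ^ 2 / (16 * Real.exp 1) := by
      rw [hl]
      field_simp
      norm_num
    linarith
  refine hPA.trans (measureReal_mono ?_ (measure_ne_top _ _))
  intro η hη
  show Real.exp (-(max 0 (Real.log (4 / q)) * B T)) ≤ WR μ s Rg η 0 T z
  have h1 : q / 4 ≤ Y η := hη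
  have h2 : (q / 4) ^ (B L) ≤ Y η ^ (B L) := Real.rpow_le_rpow (by positivity) h1 hB0.le
  have h3 : Y η ^ (B L) = WR μ s Rg η 0 T z := by
    rw [hY]
    simp only
    rw [← Real.rpow_mul (WR_nonneg _ _ _ _ _), one_div, inv_mul_cancel₀ hB0.ne', Real.rpow_one]
  rw [h3] at h2
  refine le_trans ?_ h2
  rw [Real.rpow_def_of_pos (by positivity)]
  apply Real.exp_le_exp.2
  have h4 : Real.log (q / 4) = -Real.log (4 / q) := by
    rw [← Real.log_inv, inv_div]
  rw [h4]
  have h5 : Real.log (4 / q) ≤ max 0 (Real.log (4 / q)) := le_max_right _ _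
  have h6 : 0 ≤ max 0 (Real.log (4 / q)) := le_max_left _ _
  have h7 : B L ≤ B T := U.mono hLT
  have h8 : Real.log (4 / q) * B L ≤ max 0 (Real.log (4 / q)) * B L :=
    mul_le_mul_of_nonneg_right h5 hB0.le
  have h9 : max 0 (Real.log (4 / q)) * B L ≤ max 0 (Real.log (4 / q)) * B T :=
    mul_le_mul_of_nonneg_left h7 h6
  linarith

end Pool.Agent.W_7d29a1_F
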