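import Pool.Agent.W_7d29a1_F.TbLevelA

/-!
Tubes: the pointwise bound of `Pv` (helper50).
-/

namespace Pool.Agent.W_7d29a1_F

open MeasureTheory ProbabilityTheory Filter Topology Pool.Agent.W_7d29a1_f21

noncomputable section

variable {μ : Measure ℝ} {s v1 v2 : ℝ} {B : ℕ → ℝ}

theorem Vc_start {T : ℕ} {z : ℤ} {w wm : ℝ} {t t' : ℕ} {x x' : ℤ} (hwm : 0 ≤ wm)
    (h : Vc T z w wm t t' x x') : Yr T z t x ≤ w := by
  rcases h.2 with h1 | h1
  · exact (abs_le.1 h1).2
  · have h2 := (abs_le.1 h1).2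
    have h3 := h.1
    linarith

theorem Vc_incr {T : ℕ} {z : ℤ} {w wm : ℝ} {t t' : ℕ} {x x' : ℤ} (hwm : 0 ≤ wm)
    (h : Vc T z w wm t t' x x') (htt : t ≤ t') {b : ℝ} (hb : Yr T z t x ≤ w - b) :
    max wm (b - 2 * w) + z / T * ((t' - t : ℕ) : ℝ) ≤ ((x' - x : ℤ) : ℝ) := by
  have e1 : ((x' - x : ℤ) : ℝ) = (Yr T z t' x' - Yr T z t x) + z / T * ((t' - t : ℕ) : ℝ) := by
    unfold Yr
    rw [Nat.cast_sub htt]
    push_cast
    ring
  rw [e1]
  have h1 := h.1
  have h2 : b - 2 * w ≤ Yr T z t' x' - Yr T z t x := by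
    rcases h.2 with h3 | h3
    · have h4 := (abs_le.1 h3).1
      linarith
    · have h4 := (abs_le.1 h3).1
      linarith
  have h5 : max wm (b - 2 * w) ≤ Yr T z t' x' - Yr T z t x := max_le h1.le h2
  linarith

/-- The largest luck of the paths which start at the level `t'` in `[0, t']`. -/
def Me (μ : Measure ℝ) (s : ℝ) (η : Env) (t' n : ℕ) : ℝ :=
  (Finset.Icc (0 : ℤ) t').sup' (Finset.nonempty_Icc.2 (Nat.cast_nonneg t')) fun x' =>
    V μ s η ((t' : ℤ), x') n

/-- The largest weight `Wge` in a cell. -/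
def Cm (μ : Measure ℝ) (s : ℝ) (η : Env) (t a : ℤ) (l h : ℕ) (hh : 1 ≤ h) (g : ℝ) : ℝ :=
  (Finset.range h).sup' (Finset.nonempty_range_iff.2 (by omega))
    fun i => Wge μ s η (t, a + i) l g

theorem Wge_nonneg' (η : Env) (a : Pt) (n : ℕ) (g : ℝ) : 0 ≤ Wge μ s η a n g := WS_nonneg _ _ _ _

theorem Cm_nonneg (η : Env) (t a : ℤ) (l h : ℕ) (hh : 1 ≤ h) (g : ℝ) :
    0 ≤ Cm μ s η t a l h hh g := by
  have h1 := Finset.le_sup' (s := Finset.range h)
    (f := fun i : ℕ => Wge μ s η (t, a + i) l g) (b := 0) (Finset.mem_range.2 (by omega))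
  exact (Wge_nonneg' η _ l g).trans h1

theorem Wge_le_Cm (η : Env) (t a : ℤ) (l h : ℕ) (hh : 1 ≤ h) (g : ℝ) {i : ℕ} (hi : i < h) :
    Wge μ s η (t, a + i) l g ≤ Cm μ s η t a l h hh g :=
  Finset.le_sup' (s := Finset.range h)
    (f := fun i : ℕ => Wge μ s η (t, a + i) l g) (b := i) (Finset.mem_range.2 hi)

/-- The sum over the end points of the slab. -/
theorem sum_end_le (η : Env) (t x : ℤ) (l : ℕ) (g : ℝ) (I : Finset ℤ) :
    ∑ x' ∈ I, (if g ≤ ((x' - x : ℤ) : ℝ) then W μ s η (t, x) l (x' - x) else 0) ≤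
      Wge μ s η (t, x) l g := by
  classical
  have h1 : ∀ x' ∈ I, (if g ≤ ((x' - x : ℤ) : ℝ) then W μ s η (t, x) l (x' - x) else 0) =
      if x' - x ∈ (Finset.Icc (0 : ℤ) l).filter (fun y : ℤ => g ≤ y) then
        W μ s η (t, x) l (x' - x) else 0 := by
    intro x' _
    by_cases hadm : 0 ≤ x' - x ∧ x' - x ≤ (l : ℤ)
    · by_cases hg : g ≤ ((x' - x : ℤ) : ℝ)
      · rw [if_pos hg, if_pos]
        rw [Finset.mem_filter, Finset.mem_Icc]
        exact ⟨hadm, hg⟩
      · rw [if_neg hg, if_neg]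
        rw [Finset.mem_filter]
        exact fun h => hg h.2
    · rw [W_eq_zero _ _ hadm]
      simp
  rw [Finset.sum_congr rfl h1, ← Finset.sum_filter]
  unfold Wge WS
  have h2 : ∑ x' ∈ I.filter (fun x' => x' - x ∈ (Finset.Icc (0 : ℤ) l).filter (fun y : ℤ => g ≤ y)),
      W μ s η (t, x) l (x' - x) =
      ∑ y ∈ (I.filter (fun x' => x' - x ∈ (Finset.Icc (0 : ℤ) l).filter (fun y : ℤ => g ≤ y))).image
        (fun x' => x' - x), W μ s η (t, x) l y := by
    rw [Finset.sum_image]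
    intro a _ b _ hab
    simp only at hab
    omega
  rw [h2]
  refine Finset.sum_le_sum_of_subset_of_nonneg ?_ fun y _ _ => W_nonneg _ _ _ _
  intro y hy
  rw [Finset.mem_image] at hy
  obtain ⟨x', hx', rfl⟩ := hy
  exact (Finset.mem_filter.1 hx').2

/-- The pointwise bound. -/
theorem Pv_le (η : Env) {T : ℕ} {z : ℤ} {w wm : ℝ} (hwm : 0 ≤ wm) {t t' : ℕ}
    (htt : t ≤ t') {h : ℕ} (hh : 1 ≤ h) {xm : ℤ} (hxm : xm = ⌊w + z / T * t⌋) {N : ℕ}
    (hN : xm.toNat / h + 1 ≤ N) :
    Pv μ s η T z w wm t t' ≤ Real.exp (V μ s η 0 t) *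
      (∑ r ∈ Finset.range N, Cm μ s η t (xm - (r + 1) * h + 1) (t' - t) h hh
        (max wm (r * h - 2 * w) + z / T * ((t' - t : ℕ) : ℝ))) *
      Real.exp (Me μ s η t' (T - t')) := by
  classical
  set F : ℕ → ℝ := fun r => Cm μ s η t (xm - (r + 1) * h + 1) (t' - t) h hh
        (max wm (r * h - 2 * w) + z / T * ((t' - t : ℕ) : ℝ)) with hF
  have hF0 : ∀ r, 0 ≤ F r := fun r => Cm_nonneg _ _ _ _ _ _ _
  have hFs : 0 ≤ ∑ r ∈ Finset.range N, F r := Finset.sum_nonneg fun r _ => hF0 r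
  set EM : ℝ := Real.exp (Me μ s η t' (T - t')) with hEM
  have hEM0 : 0 ≤ EM := (Real.exp_pos _).le
  have hlast : ∀ x' ∈ Finset.Icc (0 : ℤ) t', W μ s η ((t' : ℤ), x') (T - t') (z - x') ≤ EM := by
    intro x' hx'
    have h1 : W μ s η ((t' : ℤ), x') (T - t') (z - x') ≤
        Real.exp (V μ s η ((t' : ℤ), x') (T - t')) := by
      have h2 := WS_le_exp_V (μ := μ) (s := s) η ((t' : ℤ), x') (T - t') {z - x'}
      simpa [WS] using h2
    refine h1.trans (Real.exp_le_exp.2 ?_)
    exact Finset.le_sup' (s := Finset.Icc (0 : ℤ) t')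
      (f := fun x' => V μ s η ((t' : ℤ), x') (T - t')) hx'
  have hx : ∀ x ∈ Finset.Icc (0 : ℤ) t,
      ∑ x' ∈ Finset.Icc (0 : ℤ) t', (if Vc T z w wm t t' x x' then
        W μ s η 0 t x * W μ s η ((t : ℤ), x) (t' - t) (x' - x) *
          W μ s η ((t' : ℤ), x') (T - t') (z - x') else 0) ≤
      W μ s η 0 t x * ((∑ r ∈ Finset.range N, F r) * EM) := by
    intro x hx0
    have hW0 : 0 ≤ W μ s η 0 t x := W_nonneg _ _ _ _
    by_cases hxx : x ≤ xm
    · -- the cell of x
      have hx00 : 0 ≤ x := (Finset.mem_Icc.1 hx0).1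
      have hhz : (0 : ℤ) < h := by exact_mod_cast hh
      set r : ℕ := (xm - x).toNat / h with hr
      have hrZ : ((r : ℕ) : ℤ) = (xm - x) / h := by
        rw [hr]
        push_cast
        rw [Int.toNat_of_nonneg (by omega)]
      have hrN : r < N := by
        have h1 : r ≤ xm.toNat / h := Nat.div_le_div_right (by omega)
        omega
      have hdm := Int.emod_add_mul_ediv (xm - x) h
      have hm0 := Int.emod_nonneg (xm - x) hhz.ne'
      have hm1 := Int.emod_lt_of_pos (xm - x) hhz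
      rw [← hrZ] at hdm
      -- the index in the cell
      obtain ⟨i, hi, hxi⟩ : ∃ i : ℕ, i < h ∧ x = xm - (r + 1) * h + 1 + i := by
        refine ⟨(x - (xm - (r + 1) * h + 1)).toNat, ?_, ?_⟩
        · have : 0 ≤ x - (xm - (r + 1) * h + 1) := by nlinarith
          zify
          rw [Int.toNat_of_nonneg this]
          nlinarith
        · have : 0 ≤ x - (xm - (r + 1) * h + 1) := by nlinarith
          rw [Int.toNat_of_nonneg this]
          ring
      have hYx : Yr T z t x ≤ w - r * h := by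
        unfold Yr
        have h2 : x ≤ xm - r * h := by nlinarith
        have h3 : (x : ℝ) ≤ (xm : ℝ) - r * h := by exact_mod_cast h2
        have h4 : (xm : ℝ) ≤ w + z / T * t := by
          rw [hxm]
          exact Int.floor_le _
        linarith
      set g : ℝ := max wm (r * h - 2 * w) + z / T * ((t' - t : ℕ) : ℝ) with hg
      have hterm : ∀ x' ∈ Finset.Icc (0 : ℤ) t', (if Vc T z w wm t t' x x' then
          W μ s η 0 t x * W μ s η ((t : ℤ), x) (t' - t) (x' - x) *
          W μ s η ((t' : ℤ), x') (T - t') (z - x') else 0) ≤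
          W μ s η 0 t x * ((if g ≤ ((x' - x : ℤ) : ℝ) then
            W μ s η ((t : ℤ), x) (t' - t) (x' - x) else 0) * EM) := by
        intro x' hx'
        have hW1 : 0 ≤ W μ s η ((t : ℤ), x) (t' - t) (x' - x) := W_nonneg _ _ _ _
        by_cases hV : Vc T z w wm t t' x x'
        · rw [if_pos hV, if_pos (Vc_incr hwm hV htt hYx), mul_assoc]
          exact mul_le_mul_of_nonneg_left (mul_le_mul_of_nonneg_left (hlast x' hx') hW1) hW0
        · rw [if_neg hV]
          refine mul_nonneg hW0 (mul_nonneg ?_ hEM0)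
          split_ifs
          · exact hW1
          · exact le_rfl
      refine (Finset.sum_le_sum hterm).trans ?_
      rw [← Finset.mul_sum, ← Finset.sum_mul]
      apply mul_le_mul_of_nonneg_left _ hW0
      apply mul_le_mul_of_nonneg_right _ hEM0
      refine (sum_end_le (μ := μ) (s := s) η t x (t' - t) g _).trans ?_
      have h5 : Wge μ s η ((t : ℤ), x) (t' - t) g ≤ F r := by
        have h6 := Wge_le_Cm (μ := μ) (s := s) η t (xm - (r + 1) * h + 1) (t' - t) h hh g hi
        rw [← hxi] at h6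
        exact h6
      exact h5.trans (Finset.single_le_sum (f := F) (fun r _ => hF0 r) (Finset.mem_range.2 hrN))
    · have hno : ∀ x' ∈ Finset.Icc (0 : ℤ) t', (if Vc T z w wm t t' x x' then
          W μ s η 0 t x * W μ s η ((t : ℤ), x) (t' - t) (x' - x) *
          W μ s η ((t' : ℤ), x') (T - t') (z - x') else 0) = 0 := by
        intro x' _
        rw [if_neg]
        intro hV
        apply hxx
        have h1 := Vc_start hwm hV
        unfold Yr at h1
        rw [hxm, Int.le_floor]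
        linarith
      rw [Finset.sum_eq_zero hno]
      exact mul_nonneg hW0 (mul_nonneg hFs hEM0)
  unfold Pv
  refine (Finset.sum_le_sum hx).trans ?_
  rw [← Finset.sum_mul, mul_assoc]
  apply mul_le_mul_of_nonneg_right _ (mul_nonneg hFs hEM0)
  rw [exp_V]
  rfl

end

end Pool.Agent.W_7d29a1_F
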