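import Pool.Agent.W_7d29a1_F.DdDefs
import Pool.Agent.W_7d29a1_F.TbLevelB
import Pool.Agent.W_7d29a1_f21.Exit
import Pool.Agent.W_7d29a1_f21.Num

/-!
THEOREM F, section 7: auxiliary lemmas for `tubes_pt`. (helper50)
-/

namespace Pool.Agent.W_7d29a1_F

open MeasureTheory ProbabilityTheory Filter Topology Pool.Agent.W_7d29a1_f21

variable {μ : Measure ℝ} [IsProbabilityMeasure μ] {s v1 v2 : ℝ} {B : ℕ → ℝ}

/-- The allowed increments are large. -/
theorem wm_ge {Us L : ℕ → ℝ} {L0 : ℝ} (hL : ∀ i, L i = L0 * 2 ^ (16 * i)) (hL0 : 1 ≤ L0)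
    (hfl : ∀ i : ℕ, 1 / ((i : ℝ) + 1) ^ 2 ≤ Us i) {CW : ℝ} (hCW : 0 ≤ CW) {i m : ℕ}
    (hm : (2 : ℝ) ^ m ≤ 4 * L i) : CW / 256 ≤ wm (CW * Us i * L i) m := by
  have h0 : 0 < (i : ℝ) + 1 := by positivity
  have hLi : 1 ≤ L i := by
    rw [hL]
    have : (1 : ℝ) ≤ 2 ^ (16 * i) := one_le_pow₀ (by norm_num)
    nlinarith
  set a : ℝ := Real.sqrt (L i) with ha
  have haa : a * a = L i := Real.mul_self_sqrt (by linarith)
  have ha1 : ((i : ℝ) + 1) ^ 2 ≤ a := by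
    have h1 : (2 : ℝ) ^ (8 * i) ≤ a := by
      apply Real.le_sqrt_of_sq_le
      rw [hL, ← pow_mul]
      have : (2 : ℝ) ^ (8 * i * 2) = 2 ^ (16 * i) := by
        congr 1
        ring
      rw [this]
      have : (0 : ℝ) ≤ 2 ^ (16 * i) := by positivity
      nlinarith
    have h2 : (i : ℝ) + 1 ≤ 2 ^ i := by exact_mod_cast Nat.lt_two_pow_self
    have h3 : ((i : ℝ) + 1) ^ 2 ≤ 2 ^ (8 * i) := by
      calc ((i : ℝ) + 1) ^ 2 ≤ (2 ^ i) ^ 2 := pow_le_pow_left₀ h0.le h2 2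
        _ = 2 ^ (i * 2) := (pow_mul _ _ _).symm
        _ ≤ 2 ^ (8 * i) := pow_le_pow_right₀ (by norm_num) (by omega)
    linarith
  have ha0 : 0 < a := lt_of_lt_of_le (by positivity) ha1
  have hx : (2 : ℝ) ^ ((m : ℝ) / 64) ≤ 2 * a := by
    have h3 : (2 : ℝ) ^ ((m : ℝ) / 64) = ((2 : ℝ) ^ m) ^ (1 / 64 : ℝ) := by
      rw [← Real.rpow_natCast, ← Real.rpow_mul (by norm_num)]
      congr 1
      ring
    rw [h3]
    calc ((2 : ℝ) ^ m) ^ (1 / 64 : ℝ) ≤ (4 * L i) ^ (1 / 64 : ℝ) :=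
          Real.rpow_le_rpow (by positivity) hm (by norm_num)
      _ ≤ (4 * L i) ^ (1 / 2 : ℝ) :=
          Real.rpow_le_rpow_of_exponent_le (by linarith) (by norm_num)
      _ = 2 * a := by
          rw [← Real.sqrt_eq_rpow, Real.sqrt_mul (by norm_num),
            show (4 : ℝ) = 2 ^ 2 by norm_num, Real.sqrt_sq (by norm_num)]
  have hx0 : 0 < (2 : ℝ) ^ ((m : ℝ) / 64) := by positivity
  have hUs : 1 ≤ Us i * a := by
    have h1 := hfl i
    rw [div_le_iff₀ (by positivity)] at h1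
    have h2 : 0 ≤ Us i := le_trans (by positivity) (hfl i)
    nlinarith
  unfold wm
  rw [Real.rpow_neg (by norm_num)]
  have h6 : CW * Us i * L i * ((2 : ℝ) ^ ((m : ℝ) / 64))⁻¹ / 128 =
      CW * Us i * L i / (128 * (2 : ℝ) ^ ((m : ℝ) / 64)) := by field_simp
  rw [h6, le_div_iff₀ (by positivity), ← haa]
  have h7 : CW * 1 ≤ CW * (Us i * a) := mul_le_mul_of_nonneg_left hUs hCW
  calc CW / 256 * (128 * (2 : ℝ) ^ ((m : ℝ) / 64)) ≤ CW / 256 * (128 * (2 * a)) := by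
        apply mul_le_mul_of_nonneg_left _ (by positivity)
        linarith
    _ = CW * 1 * a := by ring
    _ ≤ CW * (Us i * a) * a := mul_le_mul_of_nonneg_right h7 ha0.le
    _ = CW * Us i * (a * a) := by ring

/-- The cell of size `h` seen from far away in the cone. -/
theorem cell_choice (S : Setup μ s v1 v2) {h : ℕ} (hh : 1 ≤ h) :
    ∃ (S0 : ℕ) (k : ℤ), (∀ i : ℕ, i < h → K0 v1 v2 S0 (k + i)) ∧
      (S0 : ℝ) ≤ h / (17 * dd v1 v2) + 1 ∧
      ∀ vp : ℝ, vp ≤ v2 + dd v1 v2 → S0 * vp - k ≤ 21 / 17 * h + 1 := by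
  have h1 := S.v1pos
  have h2 := S.v12
  have h3 := S.v2lt
  set d : ℝ := dd v1 v2 with hd
  have hd0 : 0 < d := by
    rw [hd]
    unfold dd
    linarith
  have hd1 : d ≤ 1 / 40 := by
    rw [hd]
    unfold dd
    linarith
  have hvc : vc v1 v2 + 20 * d = v2 := by
    rw [hd]
    unfold dd vc
    ring
  have hvc0 : 0 < vc v1 v2 := by
    unfold vc
    linarith
  set S0 : ℕ := ⌈(h : ℝ) / (17 * d)⌉₊ with hS0
  have hS0a : (h : ℝ) / (17 * d) ≤ S0 := Nat.le_ceil _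
  have hS0b : (S0 : ℝ) ≤ h / (17 * d) + 1 := (Nat.ceil_lt_add_one (by positivity)).le
  have hS0c : (h : ℝ) ≤ 17 * d * S0 := by
    rw [div_le_iff₀ (by positivity)] at hS0a
    linarith
  have hS00 : (0 : ℝ) ≤ S0 := Nat.cast_nonneg _
  set k : ℤ := ⌈vc v1 v2 * S0⌉ with hk
  have hk1 : vc v1 v2 * S0 ≤ k := Int.le_ceil _
  have hk2 : (k : ℝ) < vc v1 v2 * S0 + 1 := Int.ceil_lt_add_one _
  refine ⟨S0, k, ?_, hS0b, ?_⟩
  · intro i hi
    have hi1 : (i : ℝ) + 1 ≤ h := by exact_mod_cast hi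
    have hi0 : (0 : ℝ) ≤ i := Nat.cast_nonneg _
    refine ⟨?_, ?_, ?_⟩
    · have : (0 : ℝ) ≤ k := le_trans (by positivity) hk1
      have : (0 : ℤ) ≤ k := by exact_mod_cast this
      positivity
    · have h5 : ((k + i : ℤ) : ℝ) < S0 := by
        push_cast
        have h6 : (vc v1 v2 + 17 * d) * S0 ≤ 1 * S0 :=
          mul_le_mul_of_nonneg_right (by linarith) hS00
        nlinarith
      have : k + i < (S0 : ℤ) := by exact_mod_cast h5
      exact this.le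
    · push_cast
      rw [abs_le]
      constructor
      · nlinarith
      · linarith
  · intro vp hvp
    have h5 : (S0 : ℝ) * vp - k ≤ S0 * (21 * d) := by
      have : (S0 : ℝ) * vp ≤ S0 * (v2 + d) := mul_le_mul_of_nonneg_left hvp hS00
      have h6 : vc v1 v2 = v2 - 20 * d := by linarith
      rw [h6] at hk1
      nlinarith
    have h6 : (S0 : ℝ) * (21 * d) ≤ (h / (17 * d) + 1) * (21 * d) :=
      mul_le_mul_of_nonneg_right hS0b (by positivity)
    have h7 : ((h : ℝ) / (17 * d) + 1) * (21 * d) = 21 / 17 * h + 21 * d := by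
      field_simp
    linarith

/-- The decay of `Wge`. -/
theorem dec_Wge (S : Setup μ s v1 v2) (U : UnitB μ s v1 v2 B) {m0 i0 : ℕ} {v Uw Us : ℕ → ℝ}
    {T : ℕ → ℕ} {z : ℕ → ℤ} {R q : ℝ} (h : WdD μ s v1 v2 B m0 i0 v Uw Us T z R q) {p i : ℕ}
    (hp : p ≤ i) {n : ℕ} (hn : 1 ≤ n) {g : ℝ} (hg : n * v p < g) :
    ∫ η, Wge μ s η 0 n g ^ (1 / B (Ls m0 i)) ∂(law μ) ≤
      Real.exp (-(B (Ls m0 p) / B (Ls m0 i) / (Uw p * Ls m0 p) * (g - n * v p))) := by
  have hn0 : (0 : ℝ) < n := by exact_mod_cast hn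
  have hBp : 0 < B (Ls m0 p) := lt_of_lt_of_le one_pos (U.one_le _)
  have hBi : 0 < B (Ls m0 i) := lt_of_lt_of_le one_pos (U.one_le _)
  have hmono : B (Ls m0 p) ≤ B (Ls m0 i) :=
    U.mono (Nat.pow_le_pow_right (by norm_num) (by omega))
  have hUp : 0 < Uw p := lt_of_lt_of_le (by positivity) (h.Uge p)
  have hLp : (0 : ℝ) < Ls m0 p := by
    unfold Ls
    positivity
  have hx : v p < g / n := by
    rw [lt_div_iff₀ hn0]
    linarith
  have h1 := h.high p n hn (g / n) hx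
  have hθp : 0 < 1 / B (Ls m0 p) := by positivity
  set l : ℝ := B (Ls m0 p) / B (Ls m0 i) with hl
  have hl0 : 0 < l := by positivity
  have hl1 : l ≤ 1 := by
    rw [hl, div_le_one hBi]
    exact hmono
  have h2 : ∀ η : Env, Wge μ s η 0 n g ^ (1 / B (Ls m0 i)) =
      (Fv μ s η 0 n (g / n) ^ (1 / B (Ls m0 p))) ^ l := fun η => by
    rw [Wge_eq_Fv η 0 hn g, ← Real.rpow_mul (Fv_nonneg _ _ _ _)]
    congr 1
    rw [hl]
    field_simp
  have hfl : Integrable (fun η : Env => (Fv μ s η 0 n (g / n) ^ (1 / B (Ls m0 p))) ^ l)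
      (law μ) := by
    have h3 : Integrable (fun η : Env => Fv μ s η 0 n (g / n) ^ (1 / B (Ls m0 i))) (law μ) :=
      Fv_rpow_integrable S.em _ _ _ (by positivity)
    refine h3.congr (Filter.Eventually.of_forall fun η => ?_)
    simp only
    rw [← h2, Wge_eq_Fv η 0 hn g]
  simp only [h2]
  refine (integral_rpow_le (fun η => Real.rpow_nonneg (Fv_nonneg _ _ _ _) _)
    (Fv_rpow_integrable S.em _ _ _ hθp.le) hl0 hl1 hfl).trans ?_
  refine (Real.rpow_le_rpow (integral_nonneg fun η => Real.rpow_nonneg (Fv_nonneg _ _ _ _) _)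
    h1 hl0.le).trans_eq ?_
  rw [← Real.exp_mul]
  congr 1
  field_simp

theorem Pv_nonneg (η : Env) (T : ℕ) (z : ℤ) (w wm : ℝ) (t t' : ℕ) :
    0 ≤ Pv μ s η T z w wm t t' := by
  classical
  unfold Pv
  refine Finset.sum_nonneg fun x _ => Finset.sum_nonneg fun x' _ => ?_
  split_ifs
  · exact mul_nonneg (mul_nonneg (W_nonneg _ _ _ _) (W_nonneg _ _ _ _)) (W_nonneg _ _ _ _)
  · exact le_rfl

theorem measurable_Pv (T : ℕ) (z : ℤ) (w wm : ℝ) (t t' : ℕ) :
    Measurable fun η : Env => Pv μ s η T z w wm t t' := by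
  classical
  unfold Pv
  refine Finset.measurable_sum _ fun x _ => Finset.measurable_sum _ fun x' _ => ?_
  split_ifs
  · exact ((measurable_W 0 t x).mul (measurable_W _ _ _)).mul (measurable_W _ _ _)
  · exact measurable_const

/-- A shifted sum of a function with support in `[0, l]`. -/
theorem shift_sum_le (x : ℤ) (l : ℕ) {f : ℤ → ℝ} (hf : ∀ k, 0 ≤ f k)
    (h0 : ∀ k : ℤ, ¬ (0 ≤ k ∧ k ≤ l) → f k = 0) (I : Finset ℤ) :
    ∑ x' ∈ I, f (x' - x) ≤ ∑ k ∈ Finset.Icc (0 : ℤ) l, f k := by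
  classical
  have h1 : ∑ x' ∈ I, f (x' - x) = ∑ k ∈ I.image (fun x' => x' - x), f k := by
    rw [Finset.sum_image]
    intro a _ b _ hab
    simp only at hab
    omega
  rw [h1]
  have h2 : ∑ k ∈ I.image (fun x' => x' - x), f k =
      ∑ k ∈ (I.image (fun x' => x' - x)).filter (fun k => k ∈ Finset.Icc (0 : ℤ) l), f k := by
    symm
    apply Finset.sum_filter_of_ne
    intro k _ hk
    by_contra hc
    apply hk
    apply h0
    rwa [Finset.mem_Icc] at hc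
  rw [h2]
  refine Finset.sum_le_sum_of_subset_of_nonneg ?_ fun y _ _ => hf y
  intro k hk
  exact (Finset.mem_filter.1 hk).2

/-- The violating paths have at most the weight of all paths. -/
theorem Pv_le_W (η : Env) {T : ℕ} (z : ℤ) (w wm : ℝ) {t t' : ℕ} (htt : t ≤ t') (ht' : t' ≤ T) :
    Pv μ s η T z w wm t t' ≤ W μ s η 0 T z := by
  classical
  have e1 : W μ s η 0 T z = ∑ x ∈ Finset.Icc (0 : ℤ) t,
      W μ s η 0 t x * W μ s η ((t : ℤ), x) (T - t) (z - x) := by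
    have h := W_add (μ := μ) (s := s) η 0 t (T - t) z
    rw [show t + (T - t) = T by omega] at h
    rw [h]
    refine Finset.sum_congr rfl fun x _ => ?_
    simp
  have e2 : ∀ x : ℤ, W μ s η ((t : ℤ), x) (T - t) (z - x) =
      ∑ k ∈ Finset.Icc (0 : ℤ) ((t' - t : ℕ) : ℤ), W μ s η ((t : ℤ), x) (t' - t) k *
        W μ s η ((t' : ℤ), x + k) (T - t') (z - x - k) := by
    intro x
    have h := W_add (μ := μ) (s := s) η ((t : ℤ), x) (t' - t) (T - t') (z - x)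
    rw [show (t' - t) + (T - t') = T - t by omega] at h
    rw [h]
    refine Finset.sum_congr rfl fun k _ => ?_
    have h3 : (t : ℤ) + ((t' - t : ℕ) : ℤ) = t' := by omega
    simp only [h3]
  rw [e1]
  unfold Pv
  refine Finset.sum_le_sum fun x _ => ?_
  rw [e2 x, Finset.mul_sum]
  have h4 := shift_sum_le x (t' - t) (f := fun k : ℤ => W μ s η 0 t x *
      (W μ s η ((t : ℤ), x) (t' - t) k * W μ s η ((t' : ℤ), x + k) (T - t') (z - x - k)))
    (fun k => mul_nonneg (W_nonneg _ _ _ _) (mul_nonneg (W_nonneg _ _ _ _) (W_nonneg _ _ _ _)))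
    (fun k hk => by rw [W_eq_zero _ _ hk]; ring) (Finset.Icc (0 : ℤ) t')
  refine le_trans (Finset.sum_le_sum fun x' _ => ?_) h4
  have h5 : x + (x' - x) = x' := by ring
  have h6 : z - x - (x' - x) = z - x' := by ring
  split_ifs
  · rw [h5, h6, mul_assoc]
  · exact mul_nonneg (W_nonneg _ _ _ _) (mul_nonneg (W_nonneg _ _ _ _) (W_nonneg _ _ _ _))

theorem Pv_rpow_integrable (hμ : Pool.Agent.W_7d29a1_h47.EM μ) {T : ℕ} (z : ℤ) (w wm : ℝ)
    {t t' : ℕ} (htt : t ≤ t') (ht' : t' ≤ T) {θ : ℝ} (h0 : 0 ≤ θ) :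
    Integrable (fun η : Env => Pv μ s η T z w wm t t' ^ θ) (law μ) := by
  refine (W_rpow_integrable (μ := μ) (s := s) hμ 0 T z h0).mono'
    ((measurable_Pv T z w wm t t').pow_const θ).aestronglyMeasurable
    (Filter.Eventually.of_forall fun η => ?_)
  rw [Real.norm_eq_abs, abs_of_nonneg (Real.rpow_nonneg (Pv_nonneg _ _ _ _ _ _ _) _)]
  exact Real.rpow_le_rpow (Pv_nonneg _ _ _ _ _ _ _) (Pv_le_W η z w wm htt ht') h0

theorem WR_rpow_integrable (hμ : Pool.Agent.W_7d29a1_h47.EM μ) (Rg : Set Pt) (T : ℕ) (z : ℤ)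
    {θ : ℝ} (h0 : 0 ≤ θ) : Integrable (fun η : Env => WR μ s Rg η 0 T z ^ θ) (law μ) := by
  refine (W_rpow_integrable (μ := μ) (s := s) hμ 0 T z h0).mono'
    ((measurable_WR Rg 0 T z).pow_const θ).aestronglyMeasurable
    (Filter.Eventually.of_forall fun η => ?_)
  rw [Real.norm_eq_abs, abs_of_nonneg (Real.rpow_nonneg (WR_nonneg _ _ _ _ _) _)]
  exact Real.rpow_le_rpow (WR_nonneg _ _ _ _ _) (WR_le_W _ _ _ _ _) h0

/-- If the sum over all dyadic intervals is small, the paths in the tube are not negligible. -/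
theorem tube_of_sum (hμ : Pool.Agent.W_7d29a1_h47.EM μ) {T M : ℕ} (hT0 : 0 < T) (hT : T ≤ 2 ^ M)
    {z : ℤ} {w : ℝ} {wf : ℕ → ℝ} (hwm : ∀ m, 0 ≤ wf m) (hsum : ∑ k ∈ Finset.Icc 1 M, wf k ≤ w)
    {θ : ℝ} (h0 : 0 < θ) (h1 : θ ≤ 1) {q : ℝ} (hq : q ≤ ∫ η, W μ s η 0 T z ^ θ ∂(law μ))
    {c : ℕ → ℝ}
    (hP : ∀ m ∈ Finset.Icc 1 M, ∀ j ∈ Finset.range (2 ^ m),
      ∫ η, Pv μ s η T z w (wf m) (dy T m j) (dy T m (j + 1)) ^ θ ∂(law μ) ≤ c m)
    (hc : ∑ m ∈ Finset.Icc 1 M, 2 ^ m * c m ≤ q / 2) :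
    q / 2 ≤ ∫ η, WR μ s (tube T z w) η 0 T z ^ θ ∂(law μ) := by
  have hpt : ∀ η : Env, W μ s η 0 T z ^ θ ≤ WR μ s (tube T z w) η 0 T z ^ θ +
      ∑ m ∈ Finset.Icc 1 M, ∑ j ∈ Finset.range (2 ^ m),
        Pv μ s η T z w (wf m) (dy T m j) (dy T m (j + 1)) ^ θ := by
    intro η
    have e1 := exit_sum (μ := μ) (s := s) hT0 hT (z := z) hwm hsum η
    have hs : 0 ≤ ∑ m ∈ Finset.Icc 1 M, ∑ j ∈ Finset.range (2 ^ m),
        Pv μ s η T z w (wf m) (dy T m j) (dy T m (j + 1)) :=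
      Finset.sum_nonneg fun m _ => Finset.sum_nonneg fun j _ => Pv_nonneg _ _ _ _ _ _ _
    refine (Real.rpow_le_rpow (W_nonneg _ _ _ _) e1 h0.le).trans ?_
    refine (Real.rpow_add_le_add_rpow (WR_nonneg _ _ _ _ _) hs h0.le h1).trans ?_
    apply add_le_add_right
    refine (sum_rpow_le _ (fun m _ => Finset.sum_nonneg fun j _ => Pv_nonneg _ _ _ _ _ _ _)
      h0 h1).trans ?_
    refine Finset.sum_le_sum fun m _ => ?_
    exact sum_rpow_le _ (fun j _ => Pv_nonneg _ _ _ _ _ _ _) h0 h1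
  have hiP : ∀ m ∈ Finset.Icc 1 M, ∀ j ∈ Finset.range (2 ^ m),
      Integrable (fun η : Env => Pv μ s η T z w (wf m) (dy T m j) (dy T m (j + 1)) ^ θ)
        (law μ) := by
    intro m _ j hj
    rw [Finset.mem_range] at hj
    exact Pv_rpow_integrable hμ z w _ (dy_mono T m (by omega)) (dy_le T m (by omega)) h0.le
  have hiS : Integrable (fun η : Env => ∑ m ∈ Finset.Icc 1 M, ∑ j ∈ Finset.range (2 ^ m),
        Pv μ s η T z w (wf m) (dy T m j) (dy T m (j + 1)) ^ θ) (law μ) :=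
    integrable_finsetSum _ fun m hm => integrable_finsetSum _ fun j hj => hiP m hm j hj
  have hiW := WR_rpow_integrable (μ := μ) (s := s) hμ (tube T z w) T z h0.le
  have e2 : ∫ η, W μ s η 0 T z ^ θ ∂(law μ) ≤
      ∫ η, WR μ s (tube T z w) η 0 T z ^ θ ∂(law μ) +
        ∑ m ∈ Finset.Icc 1 M, ∑ j ∈ Finset.range (2 ^ m),
          ∫ η, Pv μ s η T z w (wf m) (dy T m j) (dy T m (j + 1)) ^ θ ∂(law μ) := by
    refine (integral_mono (W_rpow_integrable (μ := μ) (s := s) hμ 0 T z h0.le)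
      (hiW.add hiS) hpt).trans_eq ?_
    rw [integral_add' hiW hiS, integral_finsetSum _ fun m hm =>
      integrable_finsetSum _ fun j hj => hiP m hm j hj]
    congr 1
    refine Finset.sum_congr rfl fun m hm => ?_
    exact integral_finsetSum _ fun j hj => hiP m hm j hj
  have e3 : ∑ m ∈ Finset.Icc 1 M, ∑ j ∈ Finset.range (2 ^ m),
          ∫ η, Pv μ s η T z w (wf m) (dy T m j) (dy T m (j + 1)) ^ θ ∂(law μ) ≤
      ∑ m ∈ Finset.Icc 1 M, 2 ^ m * c m := by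
    refine Finset.sum_le_sum fun m hm => ?_
    refine (Finset.sum_le_sum fun j hj => hP m hm j hj).trans_eq ?_
    rw [Finset.sum_const, Finset.card_range, nsmul_eq_mul]
    push_cast
    rfl
  linarith

end Pool.Agent.W_7d29a1_F
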