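import Pool.Agent.W_7d29a1_F.TbLevel
import Pool.Agent.W_7d29a1_F.TubeD0

/-!
THEOREM F, section 7: the paths in the tube have a fractional moment bounded below. (helper50)
-/

namespace Pool.Agent.W_7d29a1_F

open MeasureTheory ProbabilityTheory Filter Topology Pool.Agent.W_7d29a1_f21

variable {μ : Measure ℝ} [IsProbabilityMeasure μ] {s v1 v2 : ℝ} {B : ℕ → ℝ}

theorem Tb_Ls_eq (m0 i : ℕ) : (Ls m0 i : ℝ) = (2 : ℝ) ^ (16 * m0) * 2 ^ (16 * i) := by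
  unfold Ls
  push_cast
  rw [← pow_add]
  congr 1
  ring

theorem Tb_Ls_pos (m0 i : ℕ) : 1 ≤ Ls m0 i := Nat.one_le_two_pow

/-- One dyadic interval. -/
theorem level_small (S : Setup μ s v1 v2) (U : UnitB μ s v1 v2 B) {m0 i0 : ℕ} {v Uw Us : ℕ → ℝ}
    {T : ℕ → ℕ} {z : ℕ → ℤ} {R q : ℝ} (h : WdD μ s v1 v2 B m0 i0 v Uw Us T z R q) {CW : ℝ}
    (hC1 : 2 ^ 28 ≤ CW) (hC2 : 512 * (2 : ℝ) ^ (16 * m0) ≤ CW) (hC3 : 4096 * (R + 3) ≤ CW) {i : ℕ}
    (hi : i0 ≤ i) (hCU : CW * Us i ≤ dd v1 v2) {m j : ℕ} (hm : 1 ≤ m) (hmM : 2 ^ m ≤ 2 * T i)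
    (hj : j < 2 ^ m) :
    ∫ η, Pv μ s η (T i) (z i) (CW * Us i * Ls m0 i) (wm (CW * Us i * Ls m0 i) m) (dy (T i) m j)
      (dy (T i) m (j + 1)) ^ (1 / B (Ls m0 i)) ∂(law μ) ≤
      Real.exp 3 * 4116 * 2 ^ m * Real.exp (-(2 * (CW * (2 : ℝ) ^ (3 * (m : ℝ) / 32 - 26)))) := by
  have hd0 : 0 < dd v1 v2 := by
    have := S.v12
    unfold dd
    linarith
  have hCW0 : 0 < CW := by linarith
  have hU0 : ∀ i, 0 < Uw i := fun i => lt_of_lt_of_le (by positivity) (h.Uge i)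
  have hUs0 : ∀ i, 0 < Us i := fun i => (hU0 i).trans_le (h.UUs i)
  have hL1 : (1 : ℝ) ≤ Ls m0 i := by exact_mod_cast Tb_Ls_pos m0 i
  have hTL : (Ls m0 i : ℝ) ≤ T i := by exact_mod_cast h.Tge i hi
  have hTL2 : (T i : ℝ) ≤ 2 * Ls m0 i := by exact_mod_cast h.Tle i hi
  have hT0 : (0 : ℝ) < T i := by linarith
  have hTn : 0 < T i := by exact_mod_cast hT0
  have hBp : ∀ n, 0 < B n := fun n => lt_of_lt_of_le one_pos (U.one_le n)
  have hmR : (2 : ℝ) ^ m ≤ 2 * T i := by exact_mod_cast hmM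
  set W : ℝ := CW * Us i * Ls m0 i with hW
  have hW0 : 0 < W := mul_pos (mul_pos hCW0 (hUs0 i)) (by linarith)
  have hL0 : (1 : ℝ) ≤ 2 ^ (16 * m0) := one_le_pow₀ (by norm_num)
  have hwge : CW / 256 ≤ wm W m :=
    wm_ge (L := fun i => (Ls m0 i : ℝ)) (fun i => Tb_Ls_eq m0 i) hL0
      (fun i => (h.Uge i).trans (h.UUs i)) hCW0.le (by
        show (2 : ℝ) ^ m ≤ 4 * (Ls m0 i : ℝ)
        linarith)
  have hwm0 : 0 < wm W m := lt_of_lt_of_le (by positivity) hwge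
  have hw16 : 16 ≤ wm W m := by linarith
  set t : ℕ := dy (T i) m j with ht
  set t' : ℕ := dy (T i) m (j + 1) with ht'
  have htt : t ≤ t' := dy_mono _ _ (by omega)
  have ht'T : t' ≤ T i := dy_le _ _ (by omega)
  have hlen : (t' : ℝ) - t ≤ T i / 2 ^ m + 1 := by
    have h1 := dy_succ_le (T i) m j
    have h2 : ((dy (T i) m (j + 1) : ℕ) : ℝ) ≤ (dy (T i) m j : ℕ) + ((T i / 2 ^ m : ℕ) : ℝ) + 1 := by
      exact_mod_cast h1
    have h3 : ((T i / 2 ^ m : ℕ) : ℝ) ≤ (T i : ℝ) / 2 ^ m := by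
      have := Nat.cast_div_le (α := ℝ) (m := T i) (n := 2 ^ m)
      push_cast at this
      exact this
    linarith
  have hrhs : 0 ≤ Real.exp 3 * 4116 * 2 ^ m *
      Real.exp (-(2 * (CW * (2 : ℝ) ^ (3 * (m : ℝ) / 32 - 26)))) := by positivity
  by_cases hvoid : (t' : ℝ) - t ≤ wm W m
  · have h1 : ∀ η : Env, Pv μ s η (T i) (z i) W (wm W m) t t' ^ (1 / B (Ls m0 i)) = 0 := by
      intro η
      rw [Pv_void η (h.z0 i hi) W htt hvoid, Real.zero_rpow]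
      exact (one_div_pos.2 (hBp _)).ne'
    simp only [h1, integral_zero]
    exact hrhs
  push Not at hvoid
  have hTm : (2 : ℝ) ^ (16 * m0) ≤ T i / 2 ^ m := by
    by_contra hc
    push Not at hc
    linarith
  have hB : ∀ p i, p ≤ i → ((Ls m0 p : ℝ) / Ls m0 i) ^ (7 / 8 : ℝ) * B (Ls m0 i) ≤
      B (Ls m0 p) := by
    intro p i hp
    have h1 := U.grow (Ls m0 p) (Ls m0 i) (Tb_Ls_pos m0 p)
      (Nat.pow_le_pow_right (by norm_num) (by omega))
    have hLp : (0 : ℝ) < Ls m0 p := by exact_mod_cast Tb_Ls_pos m0 p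
    have hLi : (0 : ℝ) < Ls m0 i := by exact_mod_cast Tb_Ls_pos m0 i
    have h2 : ((Ls m0 p : ℝ) / Ls m0 i) ^ (7 / 8 : ℝ) * ((Ls m0 i : ℝ) / Ls m0 p) ^ (7 / 8 : ℝ) =
        1 := by
      rw [← Real.mul_rpow (by positivity) (by positivity)]
      have : (Ls m0 p : ℝ) / Ls m0 i * ((Ls m0 i : ℝ) / Ls m0 p) = 1 := by
        field_simp
      rw [this, Real.one_rpow]
    have h3 : 0 ≤ ((Ls m0 p : ℝ) / Ls m0 i) ^ (7 / 8 : ℝ) := by positivity
    calc ((Ls m0 p : ℝ) / Ls m0 i) ^ (7 / 8 : ℝ) * B (Ls m0 i)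
        ≤ ((Ls m0 p : ℝ) / Ls m0 i) ^ (7 / 8 : ℝ) *
          (((Ls m0 i : ℝ) / Ls m0 p) ^ (7 / 8 : ℝ) * B (Ls m0 p)) :=
          mul_le_mul_of_nonneg_left h1 h3
      _ = B (Ls m0 p) := by rw [← mul_assoc, h2, one_mul]
  obtain ⟨p, hpi, hLp, hl, hκ⟩ := num (L := fun i => (Ls m0 i : ℝ))
    (B := fun i => B (Ls m0 i)) (fun i => Tb_Ls_eq m0 i) hL0 h.anti hU0 h.UUs h.Usw
    (fun i => hBp _) hB h.R0 hC3 (i := i) (m := m) (T := T i) hTL hTL2 hm hTm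

  -- the cell
  set hc : ℕ := ⌊wm W m / 8⌋₊ with hhc
  have hc1 : (hc : ℝ) ≤ wm W m / 8 := Nat.floor_le (by positivity)
  have hc2 : wm W m / 8 < hc + 1 := Nat.lt_floor_add_one _
  have hc3 : wm W m / 16 ≤ hc := by linarith
  have hc0 : 1 ≤ hc := by
    have : (0 : ℝ) < hc := by linarith
    exact_mod_cast this
  obtain ⟨S0, k, hK0, hS0, hSv⟩ := cell_choice S hc0
  have hLpp : (0 : ℝ) < Ls m0 p := by exact_mod_cast Tb_Ls_pos m0 p
  set κ : ℝ := B (Ls m0 p) / B (Ls m0 i) / (Uw p * Ls m0 p) with hκd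
  have hκ0 : 0 < κ := div_pos (div_pos (hBp _) (hBp _)) (mul_pos (hU0 p) hLpp)
  have hκw : κ * (wm W m / 4) =
      B (Ls m0 p) / B (Ls m0 i) * (wm W m / (4 * (Uw p * Ls m0 p))) := by
    rw [hκd]
    have h1 : Uw p * Ls m0 p ≠ 0 := (mul_pos (hU0 p) hLpp).ne'
    field_simp
  have hκ1 : CW * (2 : ℝ) ^ (3 * (m : ℝ) / 32 - 26) ≤ κ * (wm W m / 4) := by
    rw [hκw]
    exact hκ
  have hκ2 : 2 ^ 28 * (2 : ℝ) ^ (-26 : ℝ) ≤ κ * (wm W m / 4) := by
    refine le_trans ?_ hκ1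
    apply mul_le_mul hC1 _ (by positivity) hCW0.le
    apply Real.rpow_le_rpow_of_exponent_le (by norm_num)
    have : (0 : ℝ) ≤ m := Nat.cast_nonneg _
    linarith
  have hκ3 : (4 : ℝ) ≤ κ * (wm W m / 4) := by
    refine le_trans (le_of_eq ?_) hκ2
    rw [Real.rpow_neg (by norm_num), show (26 : ℝ) = ((26 : ℕ) : ℝ) by norm_num,
      Real.rpow_natCast]
    norm_num
  have hκh : 1 ≤ κ * hc := by
    have : κ * (wm W m / 16) ≤ κ * hc := mul_le_mul_of_nonneg_left hc3 hκ0.le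
    linarith
  have hwW : wm W m ≤ W / 128 := by
    unfold wm
    have h1 : (2 : ℝ) ^ (-((m : ℝ) / 64)) ≤ 1 := by
      apply Real.rpow_le_one_of_one_le_of_nonpos (by norm_num)
      have : (0 : ℝ) ≤ m := Nat.cast_nonneg _
      linarith
    have : W * (2 : ℝ) ^ (-((m : ℝ) / 64)) ≤ W * 1 := mul_le_mul_of_nonneg_left h1 hW0.le
    linarith
  have hWd : W ≤ dd v1 v2 * Ls m0 i := mul_le_mul_of_nonneg_right hCU (by linarith)
  have hS08 : S0 ≤ 8 * Ls m0 i := by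
    have h1 : (hc : ℝ) / (17 * dd v1 v2) ≤ Ls m0 i := by
      rw [div_le_iff₀ (by positivity)]
      have : (0 : ℝ) ≤ dd v1 v2 * Ls m0 i := by positivity
      linarith
    have h2 : (S0 : ℝ) ≤ 8 * Ls m0 i := by linarith
    exact_mod_cast h2
  have hvp : v p ≤ v2 + dd v1 v2 := h.vle p
  have hloss : ((t' : ℝ) - t) * (v p - z i / T i) + S0 * v p - k < wm W m / 2 := by
    have hl0 : 0 < (t' : ℝ) - t := by linarith
    have h1 : R * Uw i + (v p - v i) ≤ wm W m / (4 * ((t' : ℝ) - t)) := by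
      apply hl _ hl0
      have : (0 : ℝ) ≤ T i / 2 ^ m := by positivity
      linarith
    have h2 : v p - z i / T i ≤ R * Uw i + (v p - v i) := by
      have h3 := (abs_le.1 (h.dir i hi)).1
      have h4 : v i - R * Uw i ≤ z i / T i := by
        rw [le_div_iff₀ hT0]
        linarith
      linarith
    have h3 : ((t' : ℝ) - t) * (v p - z i / T i) ≤ wm W m / 4 := by
      calc ((t' : ℝ) - t) * (v p - z i / T i)
          ≤ ((t' : ℝ) - t) * (wm W m / (4 * ((t' : ℝ) - t))) :=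
            mul_le_mul_of_nonneg_left (h2.trans h1) hl0.le
        _ = wm W m / 4 := by
            field_simp
    have h4 := hSv (v p) hvp
    linarith
  have hmain := level_bound S U (Tb_Ls_pos m0 i) hTn (h.Tle i hi) (h.z0 i hi) (h.zT i hi)
    (t := t) (t' := t') (by
      have : (t : ℝ) < t' := by linarith
      exact_mod_cast this) ht'T (w := W) (wm := wm W m) hW0.le hwm0.le hc0 hK0 hS08 hκ0
    (fun n hn g hg => dec_Wge S U h hpi hn hg) hloss hκh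
  refine hmain.trans ?_
  have hX0 : 0 < (2 : ℝ) ^ ((m : ℝ) / 64) := by positivity
  have hX : (2 : ℝ) ^ ((m : ℝ) / 64) ≤ 2 ^ m := by
    rw [← Real.rpow_natCast]
    apply Real.rpow_le_rpow_of_exponent_le (by norm_num)
    have : (0 : ℝ) ≤ m := Nat.cast_nonneg _
    linarith
  have h2m : (1 : ℝ) ≤ 2 ^ m := one_le_pow₀ (by norm_num)
  have hWw : W = 128 * (2 : ℝ) ^ ((m : ℝ) / 64) * wm W m := by
    unfold wm
    rw [Real.rpow_neg (by norm_num)]
    field_simp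
  have hcount : (2 * W + wm W m) / hc + 4 ≤ 4116 * 2 ^ m := by
    have hcp : (0 : ℝ) < hc := by linarith
    have h1 : (2 * W + wm W m) / hc ≤ 4112 * 2 ^ m := by
      rw [div_le_iff₀ hcp]
      have h2 : 2 * W + wm W m ≤ 257 * 2 ^ m * wm W m := by
        have h3 : 2 * W ≤ 256 * 2 ^ m * wm W m := by
          have h4 : 128 * (2 : ℝ) ^ ((m : ℝ) / 64) * wm W m ≤ 128 * 2 ^ m * wm W m :=
            mul_le_mul_of_nonneg_right (by linarith) hwm0.le
          linarith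
        have h5 : wm W m ≤ 2 ^ m * wm W m := le_mul_of_one_le_left hwm0.le h2m
        linarith
      have h3 : 257 * 2 ^ m * wm W m ≤ 257 * 2 ^ m * (16 * hc) :=
        mul_le_mul_of_nonneg_left (by linarith) (by positivity)
      linarith
    linarith
  have hexp : Real.exp (-(κ * (wm W m / 2))) ≤
      Real.exp (-(2 * (CW * (2 : ℝ) ^ (3 * (m : ℝ) / 32 - 26)))) := by
    apply Real.exp_le_exp.2
    linarith
  calc Real.exp 3 * ((2 * W + wm W m) / hc + 4) * Real.exp (-(κ * (wm W m / 2)))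
      ≤ Real.exp 3 * (4116 * 2 ^ m) *
        Real.exp (-(2 * (CW * (2 : ℝ) ^ (3 * (m : ℝ) / 32 - 26)))) := by
        apply mul_le_mul _ hexp (Real.exp_pos _).le (by positivity)
        exact mul_le_mul_of_nonneg_left hcount (Real.exp_pos _).le
    _ = _ := by ring

theorem tubes_pt (S : Setup μ s v1 v2) (U : UnitB μ s v1 v2 B) {m0 i0 : ℕ} {v Uw Us : ℕ → ℝ}
    {T : ℕ → ℕ} {z : ℕ → ℤ} {R q : ℝ} (h : WdD μ s v1 v2 B m0 i0 v Uw Us T z R q) :
    ∃ (CW : ℝ) (i3 : ℕ), 2 ≤ CW ∧ i0 ≤ i3 ∧ ∀ i ≥ i3,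
      R * Uw i ≤ dd v1 v2 ∧ CW * Us i ≤ dd v1 v2 ∧
      q / 2 ≤ ∫ η, WR μ s (tube (T i) (z i) (CW * Us i * Ls m0 i)) η 0 (T i) (z i) ^
        (1 / B (Ls m0 i)) ∂(law μ) := by
  have hd0 : 0 < dd v1 v2 := by
    have := S.v12
    unfold dd
    linarith
  have hU0 : ∀ i, 0 < Uw i := fun i => lt_of_lt_of_le (by positivity) (h.Uge i)
  have hUs0 : ∀ i, 0 < Us i := fun i => (hU0 i).trans_le (h.UUs i)
  have hR0 := h.R0
  obtain ⟨K, hK0, hK⟩ := sum_small (κ := 2) (C := Real.exp 3 * 4116) (ε := q / 2) (by norm_num)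
    (by positivity) (half_pos h.q0)
  have hL0 : (0 : ℝ) < 2 ^ (16 * m0) := by positivity
  set CW : ℝ := K + 2 ^ 28 + 512 * (2 : ℝ) ^ (16 * m0) + 4096 * (R + 3) with hCW
  have hC0 : K ≤ CW := by
    rw [hCW]
    linarith
  have hC1 : 2 ^ 28 ≤ CW := by
    rw [hCW]
    linarith
  have hC2 : 512 * (2 : ℝ) ^ (16 * m0) ≤ CW := by
    rw [hCW]
    linarith
  have hC3 : 4096 * (R + 3) ≤ CW := by
    rw [hCW]
    linarith
  have hlim : Tendsto (fun i => CW * Us i) atTop (𝓝 (CW * 0)) :=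
    h.Usum.tendsto_atTop_zero.const_mul CW
  rw [mul_zero] at hlim
  obtain ⟨n3, hn3⟩ := eventually_atTop.1 (hlim.eventually (gt_mem_nhds hd0))
  refine ⟨CW, max i0 n3, by linarith, le_max_left _ _, fun i hi => ?_⟩
  have hi0 : i0 ≤ i := (le_max_left _ _).trans hi
  have hCU : CW * Us i ≤ dd v1 v2 := (hn3 i ((le_max_right _ _).trans hi)).le
  refine ⟨?_, hCU, ?_⟩
  · have h1 : R * Uw i ≤ CW * Us i :=
      mul_le_mul (by linarith) (h.UUs i) (hU0 i).le (by linarith)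
    linarith
  have hTn : 0 < T i := lt_of_lt_of_le (Tb_Ls_pos m0 i) (h.Tge i hi0)
  have hW0 : 0 ≤ CW * Us i * Ls m0 i :=
    mul_nonneg (mul_nonneg (by linarith) (hUs0 i).le) (Nat.cast_nonneg _)
  have hB0 : 0 < B (Ls m0 i) := lt_of_lt_of_le one_pos (U.one_le _)
  refine tube_of_sum S.em (M := Nat.clog 2 (T i)) hTn (Nat.le_pow_clog (by norm_num) _)
    (fun m => wm_nonneg hW0 m) (sum_wm_le hW0 _) (by positivity)
    (by
      rw [div_le_one hB0]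
      exact U.one_le _) (h.pt i hi0)
    (c := fun m => Real.exp 3 * 4116 * 2 ^ m *
      Real.exp (-(2 * (CW * (2 : ℝ) ^ (3 * (m : ℝ) / 32 - 26))))) ?_ ?_
  · intro m hm j hj
    rw [Finset.mem_Icc] at hm
    rw [Finset.mem_range] at hj
    refine level_small S U h hC1 hC2 hC3 hi0 hCU hm.1 ?_ hj
    have h1 : 1 < T i := by
      by_contra hc
      have h2 : T i ≤ 1 := by omega
      have h3 : Nat.clog 2 (T i) = 0 := Nat.clog_of_right_le_one h2 2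
      omega
    have h4 := Nat.pow_pred_clog_lt_self (b := 2) (by norm_num) h1
    have h5 : 2 ^ m ≤ 2 ^ Nat.clog 2 (T i) := Nat.pow_le_pow_right (by norm_num) hm.2
    have h6 : 2 ^ Nat.clog 2 (T i) = 2 * 2 ^ (Nat.clog 2 (T i)).pred := by
      rw [← pow_succ', Nat.pred_eq_sub_one]
      congr 1
      omega
    omega
  · refine le_trans (le_of_eq ?_) (hK CW hC0 (Nat.clog 2 (T i)))
    refine Finset.sum_congr rfl fun m _ => ?_
    have : (4 : ℝ) ^ m = 2 ^ m * 2 ^ m := by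
      rw [← mul_pow]
      norm_num
    rw [this]
    ring

end Pool.Agent.W_7d29a1_F
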