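import Pool.Agent.W_7d29a1_F.DdDefs
import Pool.Agent.W_7d29a1_F.TubeD1
import Pool.Agent.W_7d29a1_F.TbPZ

/-!
THEOREM F, section 7: tubes from the window data. (helper50)
-/

namespace Pool.Agent.W_7d29a1_F

open MeasureTheory ProbabilityTheory Filter Topology

variable {μ : Measure ℝ} [IsProbabilityMeasure μ] {s v1 v2 : ℝ} {B : ℕ → ℝ}

theorem tubesD (S : Setup μ s v1 v2) (U : UnitB μ s v1 v2 B) {m0 i0 : ℕ} {v Uw Us : ℕ → ℝ}
    {T : ℕ → ℕ} {z : ℕ → ℤ} {R q : ℝ} (h : WdD μ s v1 v2 B m0 i0 v Uw Us T z R q) :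
    ∃ (i2 : ℕ) (p C : ℝ) (T : ℕ → ℕ) (z : ℕ → ℤ) (w : ℕ → ℝ),
      Tubes μ s v1 v2 B (2 ^ 16) i2 p C T z w := by
  obtain ⟨CW, i3, hC2, hi3, hmain⟩ := tubes_pt S U h
  have hCW0 : 0 < CW := by linarith
  have hd1 : dd v1 v2 ≤ 1 := by
    have h1 := S.v1pos
    have h3 := S.v2lt
    unfold dd
    linarith
  have hU0 : ∀ i, 0 < Uw i := fun i => lt_of_lt_of_le (by positivity) (h.Uge i)
  have hUs0 : ∀ i, 0 < Us i := fun i => (hU0 i).trans_le (h.UUs i)
  have hLpos : ∀ i, (0 : ℝ) < Ls m0 i := fun i => by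
    have := Tb_Ls_pos m0 i
    exact_mod_cast this
  set w : ℕ → ℝ := fun k => if k < m0 + i3 then 0 else
    CW * Us (k - m0) * Ls m0 (k - m0) / T (k - m0) with hw
  have hk0 : ∀ k, m0 + i3 ≤ k → i0 ≤ k - m0 := fun k hk => by omega
  have hLs : ∀ k, m0 + i3 ≤ k → Ls m0 (k - m0) = (2 ^ 16) ^ k := by
    intro k hk
    unfold Ls
    rw [← pow_mul, show k - m0 + m0 = k by omega]
  have hT1 : ∀ k, m0 + i3 ≤ k → (Ls m0 (k - m0) : ℝ) ≤ T (k - m0) := fun k hk => by
    exact_mod_cast h.Tge _ (hk0 k hk)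
  have hT2 : ∀ k, m0 + i3 ≤ k → (T (k - m0) : ℝ) ≤ 2 * Ls m0 (k - m0) := fun k hk => by
    exact_mod_cast h.Tle _ (hk0 k hk)
  have hT0 : ∀ k, m0 + i3 ≤ k → (0 : ℝ) < T (k - m0) := fun k hk =>
    (hLpos _).trans_le (hT1 k hk)
  have hwk : ∀ k, m0 + i3 ≤ k → w k = CW * Us (k - m0) * Ls m0 (k - m0) / T (k - m0) := by
    intro k hk
    rw [hw]
    simp only
    rw [if_neg (by omega)]
  have hwT : ∀ k, m0 + i3 ≤ k → w k * T (k - m0) = CW * Us (k - m0) * Ls m0 (k - m0) := by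
    intro k hk
    rw [hwk k hk, div_mul_cancel₀ _ (hT0 k hk).ne']
  have hCU0 : ∀ i, 0 < CW * Us i := fun i => mul_pos hCW0 (hUs0 i)
  have hwup : ∀ k, w k ≤ CW * Us (k - m0) := by
    intro k
    rcases lt_or_ge k (m0 + i3) with hk | hk
    · have : w k = 0 := by
        rw [hw]
        simp only
        rw [if_pos hk]
      rw [this]
      exact (hCU0 _).le
    · rw [hwk k hk, div_le_iff₀ (hT0 k hk)]
      exact mul_le_mul_of_nonneg_left (hT1 k hk) (hCU0 _).le
  have hwlo : ∀ k, m0 + i3 ≤ k → CW * Us (k - m0) / 2 ≤ w k := by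
    intro k hk
    rw [hwk k hk, le_div_iff₀ (hT0 k hk)]
    have h1 := mul_le_mul_of_nonneg_left (hT2 k hk) (hCU0 (k - m0)).le
    linarith
  have hw0 : ∀ k, 0 ≤ w k := by
    intro k
    rcases lt_or_ge k (m0 + i3) with hk | hk
    · have : w k = 0 := by
        rw [hw]
        simp only
        rw [if_pos hk]
      exact this.ge
    · have := hwlo k hk
      have := hCU0 (k - m0)
      linarith
  have hw1 : ∀ k, w k ≤ 1 := by
    intro k
    rcases lt_or_ge k (m0 + i3) with hk | hk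
    · have : w k = 0 := by
        rw [hw]
        simp only
        rw [if_pos hk]
      rw [this]
      exact zero_le_one
    · have h1 := hwup k
      have h2 := (hmain (k - m0) (by omega)).2.1
      linarith
  have hwge : ∀ k, m0 + i3 ≤ k → 1 / ((k : ℝ) + 1) ^ 2 ≤ w k := by
    intro k hk
    have h1 := hwlo k hk
    have h2 := (h.Uge (k - m0)).trans (h.UUs (k - m0))
    have h3 : 1 / ((k : ℝ) + 1) ^ 2 ≤ 1 / (((k - m0 : ℕ) : ℝ) + 1) ^ 2 := by
      have h4 : ((k - m0 : ℕ) : ℝ) ≤ k := by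
        exact_mod_cast Nat.sub_le k m0
      have h5 : (0 : ℝ) ≤ ((k - m0 : ℕ) : ℝ) := Nat.cast_nonneg _
      apply one_div_le_one_div_of_le (by positivity)
      apply pow_le_pow_left₀ (by positivity)
      linarith
    have h4 : Us (k - m0) ≤ CW * Us (k - m0) / 2 := by
      have := hUs0 (k - m0)
      nlinarith
    linarith
  have hsum : Summable w := by
    have h1 : Summable fun k => CW * Us (k - m0) := by
      rw [← summable_nat_add_iff m0]
      simp only [Nat.add_sub_cancel]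
      exact h.Usum.mul_left CW
    exact Summable.of_nonneg_of_le hw0 hwup h1
  refine ⟨m0 + i3, q ^ 2 / (16 * Real.exp 1), max 0 (Real.log (4 / q)), fun k => T (k - m0),
    fun k => z (k - m0), w, ?_⟩
  have hq0 := h.q0
  refine ⟨by norm_num, by positivity, ?_, ?_, ?_, ?_, hwge, fun k _ => hw1 k,
    hsum.tendsto_atTop_zero, ?_, ?_⟩
  · intro k hk
    rw [← hLs k hk]
    exact h.Tge _ (hk0 k hk)
  · intro k hk
    refine (h.Tle _ (hk0 k hk)).trans ?_
    rw [hLs k hk]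
    exact Nat.mul_le_mul_left _ (Nat.pow_le_pow_right (by norm_num) (by omega))
  · intro k hk
    exact ⟨h.z0 _ (hk0 k hk), h.zT _ (hk0 k hk)⟩
  · intro k hk
    have h1 := h.dir _ (hk0 k hk)
    have h2 := (hmain (k - m0) (by omega)).1
    have h3 := h.v2le (k - m0)
    have h4 := h.vle (k - m0)
    have h5 := hT0 k hk
    have h6 : (z (k - m0) : ℝ) - v2 * T (k - m0) = ((z (k - m0) : ℝ) - v (k - m0) * T (k - m0)) +
        (v (k - m0) - v2) * T (k - m0) := by ring
    rw [h6]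
    refine (abs_add_le _ _).trans ?_
    have h7 : |(v (k - m0) - v2) * (T (k - m0) : ℝ)| ≤ dd v1 v2 * T (k - m0) := by
      rw [abs_mul, abs_of_pos h5, abs_of_nonneg (by linarith)]
      exact mul_le_mul_of_nonneg_right (by linarith) h5.le
    have h8 : R * Uw (k - m0) * (T (k - m0) : ℝ) ≤ dd v1 v2 * T (k - m0) :=
      mul_le_mul_of_nonneg_right h2 h5.le
    linarith
  · intro ε hε
    obtain ⟨Ce, hCe⟩ := log_sum hw0 hsum hwge ε hε
    refine ⟨Ce, fun I hI => le_trans ?_ (hCe I hI)⟩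
    apply Finset.sum_le_sum_of_subset_of_nonneg
    · intro k hk
      rw [Finset.mem_Ico] at hk
      rw [Finset.mem_range]
      omega
    · intro k _ _
      rcases (hw0 k).eq_or_lt with h0 | h0
      · rw [← h0]
        simp
      · apply mul_nonneg h0.le
        apply Real.log_nonneg
        rw [le_div_iff₀ h0]
        linarith [hw1 k]
  · intro k hk
    have h1 := (hmain (k - m0) (by omega)).2.2
    have h2 := pz (μ := μ) (s := s) S.em U (Tb_Ls_pos m0 (k - m0)) (h.Tge _ (hk0 k hk))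
      (h.Tle _ (hk0 k hk)) (z := z (k - m0))
      (tube (T (k - m0)) (z (k - m0)) (CW * Us (k - m0) * Ls m0 (k - m0))) hq0 h1
    rw [hwT k hk]
    exact h2

end Pool.Agent.W_7d29a1_F
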