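import Pool.Agent.W_7d29a1_F.Luck

/-! The unit. TASK Unit. -/

namespace Pool.Agent.W_7d29a1_F

open MeasureTheory ProbabilityTheory Filter Topology

variable {μ : Measure ℝ} [IsProbabilityMeasure μ] {s v1 v2 : ℝ}

private lemma Unit_jensen (S : Setup μ s v1 v2) (H : ℕ) {θ : ℝ} (h0 : 0 ≤ θ) (h1 : θ ≤ 1) :
    ∫ η, Real.exp (θ * Mx μ s η H) ∂(law μ) ≤ (∫ η, Real.exp (Mx μ s η H) ∂(law μ)) ^ θ := by
  have hsub := Sub_Mx (μ := μ) (s := s) H
  have hi := hsub.exp_int (μ := μ) S.em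
  have hiθ := (hsub.const_mul θ).exp_int (μ := μ) S.em
  have hEq : ∀ η : Env, Real.exp (θ * Mx μ s η H) = (Real.exp (Mx μ s η H)) ^ θ := by
    intro η
    rw [mul_comm, Real.exp_mul]
  have hcont : ContinuousOn (fun x : ℝ => x ^ θ) (Set.Ici 0) := fun x _ =>
    (Real.continuousAt_rpow_const x θ (Or.inr h0)).continuousWithinAt
  have h := (Real.concaveOn_rpow h0 h1).le_map_integral hcont isClosed_Ici
    (μ := law μ) (f := fun η : Env => Real.exp (Mx μ s η H))
    (Eventually.of_forall fun η => (Real.exp_pos _).le) hi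
    (by
      refine hiθ.congr (Eventually.of_forall fun η => ?_)
      exact hEq η)
  calc ∫ η, Real.exp (θ * Mx μ s η H) ∂(law μ)
      = ∫ η, (Real.exp (Mx μ s η H)) ^ θ ∂(law μ) := integral_congr_ae
        (Eventually.of_forall fun η => hEq η)
    _ ≤ _ := h

/-- The one sided form: every large `Q` works. -/
private lemma Unit_one (S : Setup μ s v1 v2) :
    ∃ Q0 : ℝ, ∀ Q : ℝ, Q0 ≤ Q → UnitB μ s v1 v2 (fun n => Q * Bh μ s v1 v2 (max n 1)) := by
  obtain ⟨q, C2, n0, hq, hC2, hluck⟩ := luck S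
  obtain ⟨hEB, hBm, hBg, C, hC⟩ := Bh_facts S
  obtain ⟨c, hc, hlog⟩ := log_le_E S
  -- the largest logarithm of the exponential moments of the small boxes
  set K : ℝ := ∑ n ∈ Finset.range (n0 + 1),
    |Real.log (∫ η, Real.exp (Mx μ s η (8 * n)) ∂(law μ))| with hK
  have hK0 : 0 ≤ K := Finset.sum_nonneg fun _ _ => abs_nonneg _
  have hqC : 0 ≤ q * C2 := by positivity
  refine ⟨8 + 16 * (q * C2) + 2 * K, fun Q hQ => ?_⟩
  have hQ8 : 8 ≤ Q := by linarith
  have hQ0 : 0 < Q := by linarith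
  have hB1 : ∀ n : ℕ, 1 ≤ n → 1 ≤ Bh μ s v1 v2 n := fun n hn => (one_le_E S n).trans (hEB n hn)
  have hm1 : ∀ n : ℕ, 1 ≤ max n 1 := fun n => le_max_right _ _
  refine ⟨fun n => ?_, fun m n hmn => ?_, fun m n hm hmn => ?_, fun n hn => ?_, fun n t y hK ht => ?_,
    ⟨Q * C, fun n hn => ?_⟩, ⟨c, hc, fun n hn => ?_⟩, ⟨Q, fun n hn => ?_⟩⟩
  · have := hB1 _ (hm1 n)
    show 1 ≤ Q * Bh μ s v1 v2 (max n 1)
    nlinarith
  · show Q * Bh μ s v1 v2 (max m 1) ≤ Q * Bh μ s v1 v2 (max n 1)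
    exact mul_le_mul_of_nonneg_left (hBm _ _ (hm1 m) (max_le_max hmn le_rfl)) hQ0.le
  · show Q * Bh μ s v1 v2 (max n 1) ≤ _ * (Q * Bh μ s v1 v2 (max m 1))
    rw [max_eq_left hm, max_eq_left (hm.trans hmn)]
    have h := mul_le_mul_of_nonneg_left (hBg m n hm hmn) hQ0.le
    linarith
  · -- luck
    show ∫ η, Real.exp (2 * Mx μ s η (8 * n) / (Q * Bh μ s v1 v2 (max n 1))) ∂(law μ) ≤ Real.exp 1
    rw [max_eq_left hn]
    have hb1 := hB1 n hn
    set b := Bh μ s v1 v2 n with hb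
    have hb0 : 0 < b := by linarith
    have hQb : 0 < Q * b := mul_pos hQ0 hb0
    have hfun : ∀ η : Env, Real.exp (2 * Mx μ s η (8 * n) / (Q * b)) =
        Real.exp (2 / (Q * b) * Mx μ s η (8 * n)) := by
      intro η
      congr 1
      ring
    simp_rw [hfun]
    have hθ0 : 0 ≤ 2 / (Q * b) := by positivity
    by_cases h8 : n0 ≤ 8 * n
    · refine hluck (8 * n) h8 (2 / (Q * b)) hθ0 ?_
      have h1 : E μ s v1 v2 (C2 * (8 * n)) ≤ (C2 * 8 : ℕ) * b := by
        have h2 := E_mul S (C2 * 8) n (by omega)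
        have h3 := hEB n hn
        have h4 : (0 : ℝ) ≤ ((C2 * 8 : ℕ) : ℝ) := Nat.cast_nonneg _
        have h5 : C2 * (8 * n) = C2 * 8 * n := by ring
        rw [h5]
        exact h2.trans (mul_le_mul_of_nonneg_left h3 h4)
      rw [div_mul_eq_mul_div, div_le_one hQb]
      have h6 : q * E μ s v1 v2 (C2 * (8 * n)) ≤ q * ((C2 * 8 : ℕ) * b) :=
        mul_le_mul_of_nonneg_left h1 (by linarith)
      push_cast at h6
      have h7 : 16 * (q * C2) * b ≤ Q * b := mul_le_mul_of_nonneg_right (by linarith) hb0.le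
      linarith
    · have hle1 : 2 / (Q * b) ≤ 1 := by
        rw [div_le_one hQb]
        nlinarith
      refine (Unit_jensen S (8 * n) hθ0 hle1).trans ?_
      have hpos : 0 < ∫ η, Real.exp (Mx μ s η (8 * n)) ∂(law μ) :=
        integral_exp_pos ((Sub_Mx (μ := μ) (s := s) (8 * n)).exp_int (μ := μ) S.em)
      rw [Real.rpow_def_of_pos hpos]
      refine Real.exp_le_exp.mpr ?_
      have hmem : n ∈ Finset.range (n0 + 1) := Finset.mem_range.mpr (by omega)
      have hlk : |Real.log (∫ η, Real.exp (Mx μ s η (8 * n)) ∂(law μ))| ≤ K :=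
        Finset.single_le_sum (f := fun n : ℕ =>
          |Real.log (∫ η, Real.exp (Mx μ s η (8 * n)) ∂(law μ))|) (fun _ _ => abs_nonneg _) hmem
      have hlk' := (le_abs_self _).trans hlk
      have h1 : Real.log (∫ η, Real.exp (Mx μ s η (8 * n)) ∂(law μ)) * (2 / (Q * b)) ≤
          K * (2 / (Q * b)) := mul_le_mul_of_nonneg_right hlk' hθ0
      refine h1.trans ?_
      rw [mul_div_assoc', div_le_one hQb]
      nlinarith
  · -- move
    show e μ s t y ≤ Q * Bh μ s v1 v2 (max n 1)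
    have ht' : t ≤ 8 * max n 1 := ht.trans (Nat.mul_le_mul_left _ (le_max_left _ _))
    have h1 := e_le_E S hK ht'
    have h2 := E_mul S 8 (max n 1) (by norm_num)
    have h3 := hEB _ (hm1 n)
    have h4 := hB1 _ (hm1 n)
    push_cast at h2
    nlinarith
  · show Q * Bh μ s v1 v2 (max n 1) ≤ Q * C * (n : ℝ) ^ (7 / 8 : ℝ)
    rw [max_eq_left hn, mul_assoc]
    exact mul_le_mul_of_nonneg_left (hC n hn) hQ0.le
  · show c * Real.log n ≤ Q * Bh μ s v1 v2 (max n 1)
    rw [max_eq_left hn]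
    have h1 := hlog n hn
    have h2 := hEB n hn
    have h3 := hB1 n hn
    nlinarith
  · show Q * Bh μ s v1 v2 (max n 1) ≤ Q * Bh μ s v1 v2 n
    rw [max_eq_left hn]

/-- `B n = Q Bh (max n 1)` with a large `Q`: `luck` for `S` and for `S.mirror` (`E_mirror`; `Bh` is the
same for both), `Bh_facts`, `E_mul`. For the finitely many `n` with `8 n < n0` use
`E exp (θ M) ≤ (E exp M) ^ θ` and `Q` large. -/
theorem exists_unit (S : Setup μ s v1 v2) :
    ∃ B : ℕ → ℝ, UnitB μ s v1 v2 B ∧ UnitB μ (-s) (1 - v2) (1 - v1) B := by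
  obtain ⟨Q1, h1⟩ := Unit_one S
  obtain ⟨Q2, h2⟩ := Unit_one S.mirror
  have hB : ∀ n : ℕ, Bh μ (-s) (1 - v2) (1 - v1) n = Bh μ s v1 v2 n := by
    intro n
    unfold Bh
    simp only [E_mirror S]
  refine ⟨fun n => max Q1 Q2 * Bh μ s v1 v2 (max n 1), h1 _ (le_max_left _ _), ?_⟩
  have h := h2 (max Q1 Q2) (le_max_right _ _)
  have hf : (fun n => max Q1 Q2 * Bh μ (-s) (1 - v2) (1 - v1) (max n 1)) =
      fun n => max Q1 Q2 * Bh μ s v1 v2 (max n 1) := by
    funext n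
    rw [hB]
  rw [hf] at h
  exact h

end Pool.Agent.W_7d29a1_F
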