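import Pool.Agent.W_7d29a1_F.DdD
import Pool.Agent.W_7d29a1_F.Unit
import Pool.Agent.W_7d29a1_F.TubeD
import Pool.Agent.W_7d29a1_F.Grow
import Pool.Agent.W_7d29a1_F.Plant

/-! The contradiction. TASK FinalB. -/

namespace Pool.Agent.W_7d29a1_F

open MeasureTheory ProbabilityTheory Filter Topology

variable {μ : Measure ℝ} [IsProbabilityMeasure μ] {s v1 v2 : ℝ} {B : ℕ → ℝ}

/-- The growth inequality on one side. -/
theorem side (S : Setup μ s v1 v2) (U : UnitB μ s v1 v2 B) :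
    ∃ (nu de : ℕ → ℝ) (l : ℕ → ℕ) (C' : ℝ) (x0 : ℕ), Gd nu de l C' ∧ ∀ x ≥ x0, ∀ (t : ℕ) (y : ℤ),
      2 ^ x < t → t ≤ 2 ^ (x + 1) → K0 v1 v2 t y → ¬ K0 v1 v2 t (y + 1) →
      e μ s t y ≤ E μ s v1 v2 (2 ^ x) - 1 + C' * nu (x + 1) * B (2 ^ (x + 1 + l (x + 1))) +
        de (x + 1) * E μ s v1 v2 (2 ^ (x + 1)) := by
  obtain ⟨m0, i0, v, Uw, Us, T0, z0, R, q, hw⟩ := wdD_exists S U
  obtain ⟨i2, p, C, T, z, w, ht⟩ := tubesD S U hw
  exact grow S U ht

/-- The sequence `x ↦ E (2 ^ x)` is bounded by `C 2 ^ (7 x / 8)`. -/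
private theorem FinalB_bdd (S : Setup μ s v1 v2) :
    BddAbove (Set.range fun x : ℕ => (2 : ℝ) ^ (-((7 / 8 : ℝ) * (x : ℝ))) * E μ s v1 v2 (2 ^ x)) := by
  obtain ⟨C, hC⟩ := E_upper S
  refine ⟨C, ?_⟩
  rintro _ ⟨x, rfl⟩
  have h1 := hC (2 ^ x) Nat.one_le_two_pow
  have h0 : 0 ≤ C := by
    have h2 := hC 1 le_rfl
    have h3 := one_le_E S 1
    rw [Nat.cast_one, Real.one_rpow, mul_one] at h2
    linarith
  have h4 : (((2 ^ x : ℕ) : ℝ)) ^ (4 / 5 : ℝ) = (2 : ℝ) ^ ((4 / 5 : ℝ) * x) := by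
    push_cast
    rw [← Real.rpow_natCast, ← Real.rpow_mul two_pos.le]
    congr 1
    ring
  rw [h4] at h1
  show (2 : ℝ) ^ (-((7 / 8 : ℝ) * (x : ℝ))) * E μ s v1 v2 (2 ^ x) ≤ C
  calc (2 : ℝ) ^ (-((7 / 8 : ℝ) * (x : ℝ))) * E μ s v1 v2 (2 ^ x)
      ≤ (2 : ℝ) ^ (-((7 / 8 : ℝ) * (x : ℝ))) * (C * (2 : ℝ) ^ ((4 / 5 : ℝ) * x)) :=
        mul_le_mul_of_nonneg_left h1 (Real.rpow_pos_of_pos two_pos _).le
    _ = C * (2 : ℝ) ^ (-((7 / 8 : ℝ) * (x : ℝ)) + (4 / 5 : ℝ) * x) := by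
        rw [Real.rpow_add two_pos]
        ring
    _ ≤ C * 1 := by
        refine mul_le_mul_of_nonneg_left ?_ h0
        refine Real.rpow_le_one_of_one_le_of_nonpos (by norm_num) ?_
        have : (0 : ℝ) ≤ x := Nat.cast_nonneg x
        linarith
    _ = C := mul_one C

/-- The supremum `Bh` along the powers of two. -/
private theorem FinalB_Bh (S : Setup μ s v1 v2) (y : ℕ) :
    Bh μ s v1 v2 (2 ^ y) ≤ 2 * Bs (7 / 8) (fun x => E μ s v1 v2 (2 ^ x)) y := by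
  have hb := FinalB_bdd S
  have h1E := one_le_E S
  unfold Bh
  refine csSup_le ⟨_, 2 ^ y, le_rfl, rfl⟩ ?_
  rintro r ⟨m, hm, rfl⟩
  have hmpos : 0 < m := lt_of_lt_of_le (by positivity) hm
  obtain ⟨k, hk⟩ : ∃ k : ℕ, k = Nat.log 2 m := ⟨_, rfl⟩
  have hk1 : 2 ^ k ≤ m := by
    rw [hk]
    exact Nat.pow_log_le_self 2 hmpos.ne'
  have hk2 : m < 2 ^ (k + 1) := by
    rw [hk]
    exact Nat.lt_pow_succ_log_self (by norm_num) m
  have hyk : y ≤ k := by
    have h2 : 2 ^ y < 2 ^ (k + 1) := lt_of_le_of_lt hm hk2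
    have h3 := (Nat.pow_lt_pow_iff_right (by norm_num : 1 < 2)).1 h2
    omega
  obtain ⟨j, rfl⟩ : ∃ j, k = y + j := ⟨k - y, by omega⟩
  have hmR : (0 : ℝ) < m := by exact_mod_cast hmpos
  have h2 : E μ s v1 v2 m ≤ 2 * E μ s v1 v2 (2 ^ (y + j)) := by
    refine (E_mono S hk2.le).trans ?_
    rw [pow_succ, mul_comm]
    exact E_two_mul S _
  have h3 : (((2 ^ y : ℕ) : ℝ) / m) ^ (7 / 8 : ℝ) ≤ (2 : ℝ) ^ (-((7 / 8 : ℝ) * (j : ℝ))) := by
    have h4 : ((2 ^ y : ℕ) : ℝ) / m ≤ (2 : ℝ) ^ (-(j : ℝ)) := by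
      rw [div_le_iff₀ hmR, Real.rpow_neg two_pos.le, Real.rpow_natCast]
      have h5 : ((2 ^ (y + j) : ℕ) : ℝ) ≤ m := by exact_mod_cast hk1
      rw [le_inv_mul_iff₀ (by positivity)]
      push_cast at h5 ⊢
      rw [pow_add] at h5
      linarith
    have h5 : (2 : ℝ) ^ (-((7 / 8 : ℝ) * (j : ℝ))) = ((2 : ℝ) ^ (-(j : ℝ))) ^ (7 / 8 : ℝ) := by
      rw [← Real.rpow_mul two_pos.le]
      congr 1
      ring
    rw [h5]
    exact Real.rpow_le_rpow (by positivity) h4 (by norm_num)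
  have h6 : (2 : ℝ) ^ (-((7 / 8 : ℝ) * (j : ℝ))) * E μ s v1 v2 (2 ^ (y + j)) ≤
      Bs (7 / 8) (fun x => E μ s v1 v2 (2 ^ x)) y := by
    have h7 := le_Bs hb y j
    have h8 : (2 : ℝ) ^ (-((7 / 8 : ℝ) * (j : ℝ))) * E μ s v1 v2 (2 ^ (y + j)) ≤
        (2 : ℝ) ^ (-((7 / 8 : ℝ) * (j : ℝ))) * ((2 : ℝ) ^ ((7 / 8 : ℝ) * (j : ℝ)) *
          Bs (7 / 8) (fun x => E μ s v1 v2 (2 ^ x)) y) :=
      mul_le_mul_of_nonneg_left h7 (Real.rpow_pos_of_pos two_pos _).le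
    refine h8.trans (le_of_eq ?_)
    rw [← mul_assoc, ← Real.rpow_add two_pos]
    simp
  have h9 := h1E m
  calc (((2 ^ y : ℕ) : ℝ) / m) ^ (7 / 8 : ℝ) * E μ s v1 v2 m
      ≤ (2 : ℝ) ^ (-((7 / 8 : ℝ) * (j : ℝ))) * (2 * E μ s v1 v2 (2 ^ (y + j))) :=
        mul_le_mul h3 h2 (by linarith) (Real.rpow_pos_of_pos two_pos _).le
    _ = 2 * ((2 : ℝ) ^ (-((7 / 8 : ℝ) * (j : ℝ))) * E μ s v1 v2 (2 ^ (y + j))) := by ring
    _ ≤ _ := by linarith

/-- TASK FinalB. `exists_unit`, `side` for `S` and for `S.mirror` (`e_mirror` with `lam_neg`,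
`K0_mirror`, `E_mirror`): at the extreme points `y1`, `y2` of `K0_extreme` one has the two
inequalities, so for each `x` `E (2 ^ (x + 1)) - 1` is at most the larger of the two right sides (the
times `t ≤ 2 ^ x` are trivial, `e_le_E`; `E (2 ^ x)` on the right is `1 + ...`, `E_le`); for each `x`
take the data `nu`, `l`, `de` of the side with the larger right side (the sums are at most the sums
for both sides); `B (2 ^ y) ≤ Q Bh (2 ^ y) ≤ Q 2 Bs (7 / 8) (fun x => E (2 ^ x)) y`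
(`2 ^ (y + j) ≤ m < 2 ^ (y + j + 1)` in the supremum). Then
`boot` with `g = 7 / 8`, `hb` from `E_upper`, and `log_le_E`. -/
theorem no_setup (S : Setup μ s v1 v2) : False := by
  classical
  obtain ⟨B, U, U'⟩ := exists_unit S
  obtain ⟨nu1, de1, l1, C1, x1, hG1, hs1⟩ := side S U
  obtain ⟨nu2, de2, l2, C2, x2, hG2, hs2⟩ := side S.mirror U'
  obtain ⟨Q0, hQ0⟩ := U.unit
  have hb := FinalB_bdd S
  obtain ⟨EE, hEE⟩ : ∃ EE : ℕ → ℝ, EE = fun x => E μ s v1 v2 (2 ^ x) := ⟨_, rfl⟩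
  have hmono : Monotone EE := by
    rw [hEE]
    intro a b hab
    exact E_mono S (Nat.pow_le_pow_right (by norm_num) hab)
  have hone : ∀ x, 1 ≤ EE x := fun x => by
    rw [hEE]
    exact one_le_E S _
  have hb' : BddAbove (Set.range fun x : ℕ => (2 : ℝ) ^ (-((7 / 8 : ℝ) * (x : ℝ))) * EE x) := by
    rw [hEE]
    exact hb
  have hBs : ∀ y, 0 ≤ Bs (7 / 8) EE y := fun y => by
    have h1 := self_le_Bs hb' y
    have h2 := hone y
    linarith
  obtain ⟨Q, hQ⟩ : ∃ Q : ℝ, Q = |Q0| := ⟨_, rfl⟩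
  have hQnn : 0 ≤ Q := by rw [hQ]; exact abs_nonneg _
  have hBle : ∀ y : ℕ, B (2 ^ y) ≤ 2 * Q * Bs (7 / 8) EE y := by
    intro y
    have h1 := hQ0 (2 ^ y) Nat.one_le_two_pow
    have h2 := FinalB_Bh S y
    have h3 : 0 ≤ Bh μ s v1 v2 (2 ^ y) := by
      have h4 := (Bh_facts S).1 (2 ^ y) Nat.one_le_two_pow
      have h5 := one_le_E S (2 ^ y)
      linarith
    rw [← hEE] at h2
    calc B (2 ^ y) ≤ Q0 * Bh μ s v1 v2 (2 ^ y) := h1
      _ ≤ Q * Bh μ s v1 v2 (2 ^ y) := by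
          refine mul_le_mul_of_nonneg_right ?_ h3
          rw [hQ]
          exact le_abs_self _
      _ ≤ Q * (2 * Bs (7 / 8) EE y) := mul_le_mul_of_nonneg_left h2 hQnn
      _ = _ := by ring
  have hC1 : 0 ≤ C1 := le_trans (mul_nonneg (hG1.nu0 0) (by positivity)) (hG1.hl 0)
  have hC2 : 0 ≤ C2 := le_trans (mul_nonneg (hG2.nu0 0) (by positivity)) (hG2.hl 0)
  obtain ⟨C, hC⟩ : ∃ C : ℝ, C = (C1 + C2) * (1 + 2 * Q) := ⟨_, rfl⟩
  have hCC1 : C1 ≤ C := by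
    rw [hC]
    nlinarith
  have hCC2 : C2 ≤ C := by
    rw [hC]
    nlinarith
  have hCQ1 : C1 * (2 * Q) ≤ C := by
    rw [hC]
    nlinarith
  have hCQ2 : C2 * (2 * Q) ≤ C := by
    rw [hC]
    nlinarith
  -- the choice of the side
  obtain ⟨P, hP⟩ : ∃ P : ℕ → Prop, P = fun x => nu2 x * Bs (7 / 8) EE (x + l2 x) ≤
      nu1 x * Bs (7 / 8) EE (x + l1 x) := ⟨_, rfl⟩
  obtain ⟨nu, hnu⟩ : ∃ nu : ℕ → ℝ, nu = fun x => if P x then nu1 x else nu2 x := ⟨_, rfl⟩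
  obtain ⟨l, hl⟩ : ∃ l : ℕ → ℕ, l = fun x => if P x then l1 x else l2 x := ⟨_, rfl⟩
  obtain ⟨de, hde⟩ : ∃ de : ℕ → ℝ, de = fun x => de1 x + de2 x := ⟨_, rfl⟩
  have hnu0 : ∀ x, 0 ≤ nu x := by
    intro x
    rw [hnu]
    show 0 ≤ if P x then nu1 x else nu2 x
    split_ifs
    · exact hG1.nu0 x
    · exact hG2.nu0 x
  have hnule : ∀ x, nu x ≤ nu1 x + nu2 x := by
    intro x
    have h1 := hG1.nu0 x
    have h2 := hG2.nu0 x
    rw [hnu]
    show (if P x then nu1 x else nu2 x) ≤ _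
    split_ifs
    · linarith
    · linarith
  have hde0 : ∀ x, 0 ≤ de x := by
    intro x
    rw [hde]
    exact add_nonneg (hG1.de0 x) (hG2.de0 x)
  have hlC : ∀ x, nu x * 2 ^ l x ≤ C := by
    intro x
    rw [hnu, hl]
    show (if P x then nu1 x else nu2 x) * 2 ^ (if P x then l1 x else l2 x) ≤ C
    split_ifs
    · exact (hG1.hl x).trans hCC1
    · exact (hG2.hl x).trans hCC2
  have hbest1 : ∀ x, nu1 x * Bs (7 / 8) EE (x + l1 x) ≤ nu x * Bs (7 / 8) EE (x + l x) := by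
    intro x
    by_cases h : P x
    · have e1 : nu x = nu1 x := by rw [hnu]; exact if_pos h
      have e2 : l x = l1 x := by rw [hl]; exact if_pos h
      rw [e1, e2]
    · have e1 : nu x = nu2 x := by rw [hnu]; exact if_neg h
      have e2 : l x = l2 x := by rw [hl]; exact if_neg h
      rw [e1, e2]
      rw [hP] at h
      exact (not_le.1 h).le
  have hbest2 : ∀ x, nu2 x * Bs (7 / 8) EE (x + l2 x) ≤ nu x * Bs (7 / 8) EE (x + l x) := by
    intro x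
    by_cases h : P x
    · have e1 : nu x = nu1 x := by rw [hnu]; exact if_pos h
      have e2 : l x = l1 x := by rw [hl]; exact if_pos h
      rw [e1, e2]
      rw [hP] at h
      exact h
    · have e1 : nu x = nu2 x := by rw [hnu]; exact if_neg h
      have e2 : l x = l2 x := by rw [hl]; exact if_neg h
      rw [e1, e2]
  have hterm1 : ∀ x : ℕ, C1 * nu1 x * B (2 ^ (x + l1 x)) ≤ C * nu x * Bs (7 / 8) EE (x + l x) := by
    intro x
    have h1 := hBle (x + l1 x)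
    have h2 := hbest1 x
    have h3 : 0 ≤ nu1 x * Bs (7 / 8) EE (x + l1 x) := mul_nonneg (hG1.nu0 x) (hBs _)
    calc C1 * nu1 x * B (2 ^ (x + l1 x)) ≤ C1 * nu1 x * (2 * Q * Bs (7 / 8) EE (x + l1 x)) :=
          mul_le_mul_of_nonneg_left h1 (mul_nonneg hC1 (hG1.nu0 x))
      _ = C1 * (2 * Q) * (nu1 x * Bs (7 / 8) EE (x + l1 x)) := by ring
      _ ≤ C * (nu1 x * Bs (7 / 8) EE (x + l1 x)) := mul_le_mul_of_nonneg_right hCQ1 h3
      _ ≤ C * (nu x * Bs (7 / 8) EE (x + l x)) :=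
          mul_le_mul_of_nonneg_left h2 (hC1.trans hCC1)
      _ = _ := by ring
  have hterm2 : ∀ x : ℕ, C2 * nu2 x * B (2 ^ (x + l2 x)) ≤ C * nu x * Bs (7 / 8) EE (x + l x) := by
    intro x
    have h1 := hBle (x + l2 x)
    have h2 := hbest2 x
    have h3 : 0 ≤ nu2 x * Bs (7 / 8) EE (x + l2 x) := mul_nonneg (hG2.nu0 x) (hBs _)
    calc C2 * nu2 x * B (2 ^ (x + l2 x)) ≤ C2 * nu2 x * (2 * Q * Bs (7 / 8) EE (x + l2 x)) :=
          mul_le_mul_of_nonneg_left h1 (mul_nonneg hC2 (hG2.nu0 x))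
      _ = C2 * (2 * Q) * (nu2 x * Bs (7 / 8) EE (x + l2 x)) := by ring
      _ ≤ C * (nu2 x * Bs (7 / 8) EE (x + l2 x)) := mul_le_mul_of_nonneg_right hCQ2 h3
      _ ≤ C * (nu x * Bs (7 / 8) EE (x + l x)) :=
          mul_le_mul_of_nonneg_left h2 (hC1.trans hCC1)
      _ = _ := by ring
  have hneg := lam_neg S.em s
  have hrec : ∃ x0 : ℕ, ∀ x, x0 ≤ x → EE (x + 1) ≤ EE x + C * nu (x + 1) *
      Bs (7 / 8) EE (x + 1 + l (x + 1)) + de (x + 1) * EE (x + 1) := by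
    refine ⟨max x1 x2, fun x hx => ?_⟩
    have hx1 : x1 ≤ x := (le_max_left _ _).trans hx
    have hx2 : x2 ≤ x := (le_max_right _ _).trans hx
    have hE1 : EE (x + 1) = E μ s v1 v2 (2 ^ (x + 1)) := by rw [hEE]
    have hE0 : EE x = E μ s v1 v2 (2 ^ x) := by rw [hEE]
    have hT0 : 0 ≤ C * nu (x + 1) * Bs (7 / 8) EE (x + 1 + l (x + 1)) :=
      mul_nonneg (mul_nonneg (hC1.trans hCC1) (hnu0 _)) (hBs _)
    have hT1 : 0 ≤ de (x + 1) * EE (x + 1) :=
      mul_nonneg (hde0 _) (by have := hone (x + 1); linarith)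
    have key : E μ s v1 v2 (2 ^ (x + 1)) ≤ 1 + (EE x - 1 + C * nu (x + 1) *
        Bs (7 / 8) EE (x + 1 + l (x + 1)) + de (x + 1) * EE (x + 1)) := by
      refine E_le fun t y ht hK => ?_
      rcases le_or_gt t (2 ^ x) with h1 | h1
      · have h2 := e_le_E S hK h1
        rw [← hE0] at h2
        linarith
      · obtain ⟨y1, y2, hy1, hy1', hy2, hy2', hmax⟩ := K0_extreme S hK
        refine hmax.trans (max_le ?_ ?_)
        · have h3 := hs2 x hx2 t (t - y1) h1 ht (K0_mirror.2 hy1) (by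
            intro h4
            apply hy1'
            have h5 : (t : ℤ) - y1 + 1 = t - (y1 - 1) := by ring
            rw [h5] at h4
            exact K0_mirror.1 h4)
          rw [e_mirror hneg, E_mirror S, E_mirror S, ← hE0, ← hE1] at h3
          have h4 := hterm2 (x + 1)
          have h5 : de2 (x + 1) * EE (x + 1) ≤ de (x + 1) * EE (x + 1) := by
            refine mul_le_mul_of_nonneg_right ?_ (by have := hone (x + 1); linarith)
            rw [hde]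
            have := hG1.de0 (x + 1)
            show de2 (x + 1) ≤ de1 (x + 1) + de2 (x + 1)
            linarith
          linarith
        · have h3 := hs1 x hx1 t y2 h1 ht hy2 hy2'
          rw [← hE0, ← hE1] at h3
          have h4 := hterm1 (x + 1)
          have h5 : de1 (x + 1) * EE (x + 1) ≤ de (x + 1) * EE (x + 1) := by
            refine mul_le_mul_of_nonneg_right ?_ (by have := hone (x + 1); linarith)
            rw [hde]
            have := hG2.de0 (x + 1)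
            show de1 (x + 1) ≤ de1 (x + 1) + de2 (x + 1)
            linarith
          linarith
    rw [hE1]
    rw [hE1] at key
    linarith
  obtain ⟨c, hc, hlog⟩ := log_le_E S
  have hl2 : 0 < Real.log 2 := Real.log_pos (by norm_num)
  refine boot EE nu de l (7 / 8) C (c * Real.log 2) (by norm_num) (by norm_num) hmono
    (by have := hone 0; linarith) hb' hnu0 hde0 ?_ ?_ hlC ?_ hrec ⟨by positivity, ?_⟩
  · have h1 : Tendsto (fun x => nu1 x + nu2 x) atTop (𝓝 (0 + 0)) := hG1.nul.add hG2.nul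
    rw [add_zero] at h1
    exact squeeze_zero hnu0 hnule h1
  · have h1 : Tendsto (fun x => de1 x + de2 x) atTop (𝓝 (0 + 0)) := hG1.del.add hG2.del
    rw [add_zero] at h1
    rw [hde]
    exact h1
  · intro ε hε
    obtain ⟨K1, hK1⟩ := hG1.sum (ε / 2) (half_pos hε)
    obtain ⟨K2, hK2⟩ := hG2.sum (ε / 2) (half_pos hε)
    refine ⟨K1 + K2, fun X hX => ?_⟩
    have h1 := hK1 X hX
    have h2 := hK2 X hX
    have h3 : ∑ x ∈ Finset.range (X + 1), (nu x + de x) ≤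
        ∑ x ∈ Finset.range (X + 1), (nu1 x + de1 x) + ∑ x ∈ Finset.range (X + 1), (nu2 x + de2 x) := by
      rw [← Finset.sum_add_distrib]
      refine Finset.sum_le_sum fun x _ => ?_
      have h4 := hnule x
      have h5 : de x = de1 x + de2 x := by rw [hde]
      rw [h5]
      linarith
    linarith
  · intro x
    have h1 := hlog (2 ^ x) Nat.one_le_two_pow
    push_cast at h1
    rw [Real.log_pow] at h1
    rw [hEE]
    show c * Real.log 2 * (x : ℝ) ≤ E μ s v1 v2 (2 ^ x)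
    linarith

end Pool.Agent.W_7d29a1_F
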