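import Pool.Agent.W_7d29a1_F.GrDefs
import Pool.Agent.W_7d29a1_f16.Level2

/-! Section 9, GrA: the choice of the level (pure). helper16. -/

namespace Pool.Agent.W_7d29a1_F

open MeasureTheory ProbabilityTheory Filter Topology

variable {μ : Measure ℝ} {s v1 v2 : ℝ} {B : ℕ → ℝ}

theorem grA {A i1 : ℕ} {p C : ℝ} {T : ℕ → ℕ} {z : ℕ → ℤ} {w : ℕ → ℝ}
    (h : Tubes μ s v1 v2 B A i1 p C T z w) (Cg : ℝ) (hC : 2 ≤ Cg) :
    ∃ (nu : ℕ → ℝ) (l lv : ℕ → ℕ) (x0 : ℕ), Gd nu (fun _ => 0) l (4 * A) ∧ ∀ x ≥ x0,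
      i1 ≤ lv x ∧ Cg * Real.log (2 / w (lv x)) * (w (lv x) * T (lv x)) ≤ 2 ^ x ∧
      8 * 2 ^ x ≤ T (lv x) ∧ (2 : ℝ) ^ (x + 1) / T (lv x) ≤ nu (x + 1) ∧
      T (lv x) ≤ 2 ^ (x + 1 + l (x + 1)) ∧ 1 ≤ w (lv x) * T (lv x) := by
  have H : Pool.Agent.W_7d29a1_f16.Tb A i1 T w :=
    ⟨h.A2, h.Tge, h.Tle, h.wge, h.wle, h.wlim, h.wsum⟩
  obtain ⟨nu, l, lv, x0, h1, h2, h3, h4, h5⟩ := H.choice Cg hC
  refine ⟨nu, l, lv, x0, ⟨h1, fun _ => le_rfl, h2, tendsto_const_nhds, h3, ?_⟩, ?_⟩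
  · intro ε hε
    obtain ⟨Cε, hCε⟩ := h4 ε hε
    refine ⟨Cε, fun X hX => ?_⟩
    simpa using hCε X hX
  · intro x hx
    obtain ⟨a1, a2, a3, a4, a5, a6⟩ := h5 x hx
    refine ⟨a1, ?_, a3, a4, a5, a6⟩
    have : Pool.Agent.W_7d29a1_f16.ff T w Cg (lv x) =
        Cg * Real.log (2 / w (lv x)) * (w (lv x) * T (lv x)) := by
      unfold Pool.Agent.W_7d29a1_f16.ff
      ring
    rw [← this]
    exact a2

/-- The number of translates. -/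
theorem grA_J {p : ℝ} (hp : 0 < p) : ∃ CJ : ℝ, 1 ≤ CJ ∧ ∀ w : ℝ, 0 < w → w ≤ 1 → ∀ J : ℕ,
    CJ * Real.log (2 / w) ≤ J → 3 ≤ J → (p ≤ 1 → (1 - p) ^ (J - 2) ≤ w ^ 2) := by
  refine ⟨2 / p + 4, ?_, ?_⟩
  · have : 0 < 2 / p := by positivity
    linarith
  intro w hw hw1 J hJ hJ3 hp1
  have hL : 1 / 2 ≤ Real.log (2 / w) := by
    have h3 : (2 : ℝ) ≤ 2 / w := by
      rw [le_div_iff₀ hw]
      linarith
    have h4 := Real.log_le_log (by norm_num) h3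
    linarith [Real.log_two_gt_d9]
  have hlw : -Real.log w ≤ Real.log (2 / w) := by
    rw [Real.log_div (by norm_num) hw.ne']
    have := Real.log_nonneg (show (1 : ℝ) ≤ 2 by norm_num)
    linarith
  have hcast : ((J - 2 : ℕ) : ℝ) = (J : ℝ) - 2 := by
    rw [Nat.cast_sub (by omega)]
    norm_num
  have h1 : 1 - p ≤ Real.exp (-p) := by
    have := Real.add_one_le_exp (-p)
    linarith
  have h2 : (1 - p) ^ (J - 2) ≤ Real.exp (-p) ^ (J - 2) :=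
    pow_le_pow_left₀ (by linarith) h1 _
  refine h2.trans ?_
  rw [← Real.exp_nat_mul, hcast]
  have h5 : w ^ 2 = Real.exp (2 * Real.log w) := by
    rw [two_mul, Real.exp_add, Real.exp_log hw, pow_two]
  rw [h5]
  apply Real.exp_le_exp.2
  have h6 : p * ((2 / p + 4) * Real.log (2 / w)) ≤ p * J := mul_le_mul_of_nonneg_left hJ hp.le
  have h7 : p * ((2 / p + 4) * Real.log (2 / w)) = 2 * Real.log (2 / w) + 4 * p * Real.log (2 / w) := by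
    field_simp
  rw [h7] at h6
  have h8 : 2 * p ≤ 4 * p * Real.log (2 / w) := by nlinarith
  nlinarith

end Pool.Agent.W_7d29a1_F
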