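import Pool.Agent.W_7d29a1_F.GrDefs
import Pool.Agent.W_7d29a1_f17.Cross

/-! Section 9, GrB: the crossing inequality in the model (`F17.cross`). helper17. -/

namespace Pool.Agent.W_7d29a1_F

open MeasureTheory ProbabilityTheory Filter Topology

variable {μ : Measure ℝ} {s : ℝ}

/-- The weight of the paths in `R` from the site `b` to the site `c`. -/
private noncomputable def GrB_w (μ : Measure ℝ) (s : ℝ) (R : Set Pt) (η : Env) (b c : Pt) : ℝ :=
  if b.1 ≤ c.1 then WR μ s R η b (c.1 - b.1).toNat (c.2 - b.2) else 0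

private lemma GrB_w_nonneg (R : Set Pt) (η : Env) (b c : Pt) : 0 ≤ GrB_w μ s R η b c := by
  unfold GrB_w
  split_ifs
  · exact WR_nonneg R η b _ _
  · exact le_rfl

private lemma GrB_w_le (R : Set Pt) (η : Env) (b c : Pt) :
    GrB_w μ s R η b c ≤ GrB_w μ s Set.univ η b c := by
  unfold GrB_w
  split_ifs
  · exact WR_le_W R η b _ _
  · exact le_rfl

private lemma GrB_w_eq (R : Set Pt) (η : Env) {b c : Pt} {n : ℕ} (h : c.1 = b.1 + n) :
    GrB_w μ s R η b c = WR μ s R η b n (c.2 - b.2) := by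
  unfold GrB_w
  have h1 : b.1 ≤ c.1 := by omega
  have h2 : (c.1 - b.1).toNat = n := by omega
  rw [if_pos h1, h2]

private lemma GrB_WR_eq_zero (R : Set Pt) (η : Env) (b : Pt) {n : ℕ} {y : ℤ}
    (h : ¬ (0 ≤ y ∧ y ≤ n)) : WR μ s R η b n y = 0 := by
  unfold WR
  rw [Zr_eq_zero R η b h, mul_zero]

private lemma GrB_WR_not_mem (R : Set Pt) (η : Env) (b : Pt) {n : ℕ} {y : ℤ} (hn : 1 ≤ n)
    (h : ((b.1 + n, b.2 + y) : Pt) ∉ R) : WR μ s R η b n y = 0 := by
  obtain ⟨m, rfl⟩ : ∃ m, n = m + 1 := ⟨n - 1, by omega⟩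
  unfold WR
  have : Zr R η b (m + 1) y = 0 := by
    rw [Zr, Set.indicator_of_notMem, zero_mul]
    push_cast at h
    exact h
  rw [this, mul_zero]

/-- Chapman-Kolmogorov for a finite set of sites of one time. -/
private lemma GrB_ck (η : Env) (S : Finset Pt) (τ : ℤ) (hS : ∀ v ∈ S, v.1 = τ) (p u : Pt)
    (hτ : τ ≤ u.1) : ∑ v ∈ S, GrB_w μ s Set.univ η p v * GrB_w μ s Set.univ η v u ≤
      GrB_w μ s Set.univ η p u := by
  classical
  by_cases hp : p.1 ≤ τ
  · obtain ⟨m, hm⟩ : ∃ m : ℕ, τ = p.1 + m := ⟨(τ - p.1).toNat, by omega⟩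
    obtain ⟨n, hn⟩ : ∃ n : ℕ, u.1 = τ + n := ⟨(u.1 - τ).toNat, by omega⟩
    have hu : u.1 = p.1 + (m + n : ℕ) := by push_cast; omega
    rw [GrB_w_eq Set.univ η hu]
    have hadd := WR_add (μ := μ) (s := s) Set.univ η p m n (u.2 - p.2)
    rw [hadd]
    -- the terms of the left sum with `v` reachable from `p`
    have h1 : ∑ v ∈ S, GrB_w μ s Set.univ η p v * GrB_w μ s Set.univ η v u =
        ∑ v ∈ S.filter (fun v => v.2 - p.2 ∈ Finset.Icc (0 : ℤ) m),
          GrB_w μ s Set.univ η p v * GrB_w μ s Set.univ η v u := by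
      rw [Finset.sum_filter_of_ne]
      intro v hv hne
      by_contra hcon
      apply hne
      have hv1 : v.1 = p.1 + m := by rw [hS v hv, hm]
      rw [GrB_w_eq Set.univ η hv1, GrB_WR_eq_zero, zero_mul]
      intro h
      exact hcon (Finset.mem_Icc.mpr h)
    rw [h1]
    have h2 : ∑ v ∈ S.filter (fun v => v.2 - p.2 ∈ Finset.Icc (0 : ℤ) m),
          GrB_w μ s Set.univ η p v * GrB_w μ s Set.univ η v u =
        ∑ k ∈ (S.filter (fun v => v.2 - p.2 ∈ Finset.Icc (0 : ℤ) m)).image (fun v => v.2 - p.2),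
          WR μ s Set.univ η p m k * WR μ s Set.univ η (p.1 + m, p.2 + k) n (u.2 - p.2 - k) := by
      rw [Finset.sum_image]
      · apply Finset.sum_congr rfl
        intro v hv
        have hvS := (Finset.mem_filter.mp hv).1
        have hv1 : v.1 = p.1 + m := by rw [hS v hvS, hm]
        have hu1 : u.1 = v.1 + n := by rw [hS v hvS, hn]
        have e1 : ((p.1 + m, p.2 + (v.2 - p.2)) : Pt) = v := by
          ext
          · simp [hv1]
          · simp
        rw [GrB_w_eq Set.univ η hv1, GrB_w_eq Set.univ η hu1, e1]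
        congr 2
        ring
      · intro v hv v' hv' hvv
        have hvS := (Finset.mem_filter.mp (Finset.mem_coe.mp hv)).1
        have hvS' := (Finset.mem_filter.mp (Finset.mem_coe.mp hv')).1
        ext
        · rw [hS v hvS, hS v' hvS']
        · simpa using hvv
    rw [h2]
    apply Finset.sum_le_sum_of_subset_of_nonneg
    · intro k hk
      obtain ⟨v, hv, rfl⟩ := Finset.mem_image.mp hk
      exact (Finset.mem_filter.mp hv).2
    · intro k _ _
      exact mul_nonneg (WR_nonneg _ _ _ _ _) (WR_nonneg _ _ _ _ _)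
  · have h0 : ∑ v ∈ S, GrB_w μ s Set.univ η p v * GrB_w μ s Set.univ η v u = 0 := by
      apply Finset.sum_eq_zero
      intro v hv
      have : ¬ p.1 ≤ v.1 := by rw [hS v hv]; exact hp
      unfold GrB_w
      rw [if_neg this, zero_mul]
    rw [h0]
    exact GrB_w_nonneg _ _ _ _

/-- Decomposition of the weight inside `R` at the time `τ`. -/
private lemma GrB_dec (η : Env) (R : Set Pt) (b c : Pt) (hb : b ∈ R) (τ : ℤ) (h1 : b.1 ≤ τ)
    (h2 : τ ≤ c.1) (S : Finset Pt)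
    (hS : ∀ q : ℤ, b.2 ≤ q → q - b.2 ≤ τ - b.1 → ((τ, q) : Pt) ∈ R → ((τ, q) : Pt) ∈ S) :
    GrB_w μ s R η b c ≤ ∑ u ∈ S, GrB_w μ s R η b u * GrB_w μ s R η u c := by
  classical
  obtain ⟨m, hm⟩ : ∃ m : ℕ, τ = b.1 + m := ⟨(τ - b.1).toNat, by omega⟩
  obtain ⟨n, hn⟩ : ∃ n : ℕ, c.1 = τ + n := ⟨(c.1 - τ).toNat, by omega⟩
  have hc : c.1 = b.1 + (m + n : ℕ) := by push_cast; omega
  rw [GrB_w_eq R η hc, WR_add (μ := μ) (s := s) R η b m n (c.2 - b.2)]
  -- keep only the positions in R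
  have hR : ∀ k ∈ Finset.Icc (0 : ℤ) m, ((b.1 + m, b.2 + k) : Pt) ∉ R →
      WR μ s R η b m k * WR μ s R η (b.1 + m, b.2 + k) n (c.2 - b.2 - k) = 0 := by
    intro k hk hkR
    rcases Nat.eq_zero_or_pos m with h0 | h0
    · exfalso
      apply hkR
      subst h0
      have hk' := Finset.mem_Icc.mp hk
      have : k = 0 := by push_cast at hk'; omega
      subst this
      simpa using hb
    · rw [GrB_WR_not_mem R η b h0 hkR, zero_mul]
  have e1 : ∑ k ∈ Finset.Icc (0 : ℤ) m, WR μ s R η b m k *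
      WR μ s R η (b.1 + m, b.2 + k) n (c.2 - b.2 - k) =
      ∑ k ∈ (Finset.Icc (0 : ℤ) m).filter (fun k => ((b.1 + m, b.2 + k) : Pt) ∈ R),
        WR μ s R η b m k * WR μ s R η (b.1 + m, b.2 + k) n (c.2 - b.2 - k) := by
    rw [Finset.sum_filter_of_ne]
    intro k hk hne
    by_contra hcon
    exact hne (hR k hk hcon)
  rw [e1]
  have e2 : ∑ k ∈ (Finset.Icc (0 : ℤ) m).filter (fun k => ((b.1 + m, b.2 + k) : Pt) ∈ R),
        WR μ s R η b m k * WR μ s R η (b.1 + m, b.2 + k) n (c.2 - b.2 - k) =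
      ∑ u ∈ ((Finset.Icc (0 : ℤ) m).filter (fun k => ((b.1 + m, b.2 + k) : Pt) ∈ R)).image
        (fun k => ((b.1 + m, b.2 + k) : Pt)), GrB_w μ s R η b u * GrB_w μ s R η u c := by
    rw [Finset.sum_image]
    · apply Finset.sum_congr rfl
      intro k _
      have h3 : ((b.1 + m, b.2 + k) : Pt).1 = b.1 + m := rfl
      have h4 : c.1 = ((b.1 + m, b.2 + k) : Pt).1 + n := by simp only; omega
      rw [GrB_w_eq R η h3, GrB_w_eq R η h4]
      simp only
      congr 2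
      · ring
      · ring
    · intro k _ k' _ hkk
      simpa using hkk
  rw [e2]
  apply Finset.sum_le_sum_of_subset_of_nonneg
  · intro u hu
    obtain ⟨k, hk, rfl⟩ := Finset.mem_image.mp hu
    have hk' := Finset.mem_filter.mp hk
    have hk'' := Finset.mem_Icc.mp hk'.1
    rw [← hm]
    apply hS
    · omega
    · omega
    · rw [hm]; exact hk'.2
  · intro u _ _
    exact mul_nonneg (GrB_w_nonneg _ _ _ _) (GrB_w_nonneg _ _ _ _)

/-- `n` is `t - ρ` in the application. -/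
theorem cross_model (η : Env) (R : Set Pt) (a : Pt) (ha : a ∈ R) (T : ℕ) (z : ℤ) (K ρ n : ℕ)
    (hn : n ≤ ρ) (hT : K * ρ + n ≤ T) (xs ys : ℕ → ℤ)
    (hx : ∀ k ≤ K, ∀ q : ℤ, ((a.1 + k * ρ, q) : Pt) ∈ R → q ≤ xs k)
    (hy : ∀ k ≤ K, ∀ q : ℤ, ((a.1 + (k * ρ + n), q) : Pt) ∈ R → ys k ≤ q) :
    WR μ s R η a T z * ∏ k ∈ Finset.range (K + 1), W μ s η (a.1 + k * ρ, xs k) n (ys k - xs k) ≤
      W μ s η a n (ys 0 - a.2) *
        (∏ k ∈ Finset.range K, W μ s η (a.1 + k * ρ, xs k) (ρ + n) (ys (k + 1) - xs k)) *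
        W μ s η (a.1 + K * ρ, xs K) (T - K * ρ) (a.2 + z - xs K) := by
  classical
  -- the sites
  set x : ℕ → Pt := fun k => (a.1 + k * ρ, xs k) with hxd
  set y : ℕ → Pt := fun k => (a.1 + (k * ρ + n), ys k) with hyd
  set c : Pt := (a.1 + T, a.2 + z) with hc
  have hTz : ∀ k ≤ K, ((k:ℤ) * ρ + n ≤ T) := by
    intro k hk
    have h1 : k * ρ + n ≤ T := le_trans (Nat.add_le_add_right (Nat.mul_le_mul_right ρ hk) n) hT
    exact_mod_cast h1
  -- sites of `R` at a given time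
  set St : ℤ → Finset Pt := fun τ =>
    ((Finset.Icc a.2 (a.2 + (τ - a.1))).image (fun q => ((τ, q) : Pt))).filter (fun p => p ∈ R)
    with hSt
  have hSt1 : ∀ τ, ∀ v ∈ St τ, v.1 = τ := by
    intro τ v hv
    obtain ⟨q, _, rfl⟩ := Finset.mem_image.mp (Finset.mem_filter.mp hv).1
    rfl
  have hSt2 : ∀ τ, ∀ v ∈ St τ, v ∈ R := fun τ v hv => (Finset.mem_filter.mp hv).2
  have hSt3 : ∀ τ, ∀ v ∈ St τ, a.2 ≤ v.2 ∧ v.2 ≤ a.2 + (τ - a.1) := by
    intro τ v hv
    obtain ⟨q, hq, rfl⟩ := Finset.mem_image.mp (Finset.mem_filter.mp hv).1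
    exact Finset.mem_Icc.mp hq
  have hSt4 : ∀ (τ q : ℤ), a.2 ≤ q → q ≤ a.2 + (τ - a.1) → ((τ, q) : Pt) ∈ R → ((τ, q) : Pt) ∈ St τ := by
    intro τ q h1 h2 h3
    exact Finset.mem_filter.mpr ⟨Finset.mem_image.mpr ⟨q, Finset.mem_Icc.mpr ⟨h1, h2⟩, rfl⟩, h3⟩
  set Su : ℕ → Finset Pt := fun k => St (a.1 + k * ρ) with hSu
  set Sv : ℕ → Finset Pt := fun k => St (a.1 + ((k - 1 : ℕ) * ρ + n)) with hSv
  have hmain := F17.cross (GrB_w μ s Set.univ η) (GrB_w μ s R η)
    (fun b c => GrB_w_nonneg _ _ _ _) (fun b c => GrB_w_nonneg _ _ _ _)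
    (fun b c => GrB_w_le R η b c) a c K x y Su Sv ?_ ?_ ?_ ?_ ?_ ?_ ?_
  · -- translate
    have e0 : GrB_w μ s R η a c = WR μ s R η a T z := by
      rw [GrB_w_eq R η (show c.1 = a.1 + T from rfl)]
      simp [hc]
    have e1 : ∀ k, GrB_w μ s Set.univ η (x k) (y k) = W μ s η (a.1 + k * ρ, xs k) n (ys k - xs k) := by
      intro k
      rw [GrB_w_eq Set.univ η (show (y k).1 = (x k).1 + n by simp only [hxd, hyd]; ring)]
      rfl
    have e2 : GrB_w μ s Set.univ η a (y 0) = W μ s η a n (ys 0 - a.2) := by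
      rw [GrB_w_eq Set.univ η (show (y 0).1 = a.1 + n by simp only [hyd]; push_cast; ring)]
      rfl
    have e3 : ∀ k, GrB_w μ s Set.univ η (x k) (y (k+1)) =
        W μ s η (a.1 + k * ρ, xs k) (ρ + n) (ys (k + 1) - xs k) := by
      intro k
      rw [GrB_w_eq Set.univ η (show (y (k+1)).1 = (x k).1 + (ρ + n : ℕ) by
        simp only [hxd, hyd]; push_cast; ring)]
      rfl
    have e4 : GrB_w μ s Set.univ η (x K) c =
        W μ s η (a.1 + K * ρ, xs K) (T - K * ρ) (a.2 + z - xs K) := by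
      have hKT : K * ρ ≤ T := le_trans (Nat.le_add_right _ _) hT
      rw [GrB_w_eq Set.univ η (show c.1 = (x K).1 + (T - K * ρ : ℕ) by
        simp only [hxd, hc]; push_cast [Nat.cast_sub hKT]; ring)]
      rfl
    rw [e0, e2, e4] at hmain
    simp_rw [e1, e3] at hmain
    exact hmain
  · -- hdec0
    apply GrB_dec η R a c ha (a.1 + (0:ℕ) * ρ) (by simp) (by simp [hc])
    intro q h1 h2 h3
    apply hSt4 _ _ h1 _ h3
    linarith
  · -- hdec1
    intro k hk0 hkK v hv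
    have hv1 := hSt1 _ v hv
    have hv3 := hSt3 _ v hv
    have hkz : (((k - 1 : ℕ) : ℤ)) = (k : ℤ) - 1 := by omega
    have hnρ : (n : ℤ) ≤ ρ := by exact_mod_cast hn
    have h4 := hTz k hkK
    have h5 : (0:ℤ) ≤ n := by positivity
    apply GrB_dec η R v c (hSt2 _ v hv) (a.1 + k * ρ)
    · rw [hv1, hkz]; nlinarith
    · simp only [hc]; linarith
    · intro q h1 h2 h3
      apply hSt4 _ _ (by linarith [hv3.1]) _ h3
      rw [hv1] at h2
      linarith [hv3.2]
  · -- hdec2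
    intro k hkK u hu
    have hu1 := hSt1 _ u hu
    have hu3 := hSt3 _ u hu
    have h4 := hTz k hkK
    have h5 : (0:ℤ) ≤ n := by positivity
    apply GrB_dec η R u c (hSt2 _ u hu) (a.1 + ((k + 1 - 1 : ℕ) * ρ + n))
    · rw [hu1, Nat.add_sub_cancel]; linarith
    · simp only [hc, Nat.add_sub_cancel]; linarith
    · intro q h1 h2 h3
      apply hSt4 _ _ (by linarith [hu3.1]) _ h3
      rw [hu1] at h2
      linarith [hu3.2]
  · -- hswap
    intro k hkK u hu v hv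
    have hu1 := hSt1 _ u hu
    have hv1 := hSt1 _ v hv
    rw [Nat.add_sub_cancel] at hv1
    have hu' : u = (a.1 + k * ρ, u.2) := Prod.ext hu1 rfl
    have hv' : v = (a.1 + (k * ρ + n), v.2) := Prod.ext hv1 rfl
    have hux : u.2 ≤ xs k := hx k hkK u.2 (by rw [← hu']; exact hSt2 _ u hu)
    have hyv : ys k ≤ v.2 := hy k hkK v.2 (by rw [← hv']; exact hSt2 _ v hv)
    have htp := W_tp2 (μ := μ) (s := s) η (a.1 + k * ρ) u.2 (xs k) n (ys k) v.2 hux hyv
    rw [GrB_w_eq Set.univ η (show v.1 = u.1 + n by rw [hu1, hv1]; ring),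
      GrB_w_eq Set.univ η (show (y k).1 = (x k).1 + n by simp only [hxd, hyd]; ring),
      GrB_w_eq Set.univ η (show (y k).1 = u.1 + n by simp only [hyd]; rw [hu1]; ring),
      GrB_w_eq Set.univ η (show v.1 = (x k).1 + n by simp only [hxd]; rw [hv1]; ring)]
    have e1 : WR μ s Set.univ η u n (v.2 - u.2) = W μ s η (a.1 + k * ρ, u.2) n (v.2 - u.2) := by
      conv_lhs => rw [hu']
      rfl
    have e2 : WR μ s Set.univ η u n ((y k).2 - u.2) = W μ s η (a.1 + k * ρ, u.2) n (ys k - u.2) := by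
      conv_lhs => rw [hu']
      rfl
    rw [e1, e2]
    exact htp
  · -- hck1
    intro k hk0 hkK p u hu
    have hu1 := hSt1 _ u hu
    have hkz : (((k - 1 : ℕ) : ℤ)) = (k : ℤ) - 1 := by omega
    have hnρ : (n : ℤ) ≤ ρ := by exact_mod_cast hn
    apply GrB_ck η (Sv k) (a.1 + ((k - 1 : ℕ) * ρ + n)) (hSt1 _) p u
    rw [hu1, hkz]; nlinarith
  · -- hck2
    intro k hkK p
    have h5 : (0:ℤ) ≤ n := by positivity
    apply GrB_ck η (Su k) (a.1 + k * ρ) (hSt1 _) p (y k)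
    simp only [hyd]; linarith
  · -- hck3
    intro p
    have h4 := hTz K le_rfl
    apply GrB_ck η (Sv (K+1)) (a.1 + ((K + 1 - 1 : ℕ) * ρ + n)) (hSt1 _) p c
    simp only [hc, Nat.add_sub_cancel]; linarith

end Pool.Agent.W_7d29a1_F
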