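import Pool.Agent.W_7d29a1_F.GrB

/-! Section 9, GrC: the crossing inequality for the costs, pointwise on the good event. -/

namespace Pool.Agent.W_7d29a1_F

open MeasureTheory ProbabilityTheory Filter Topology

variable {μ : Measure ℝ} {s v1 v2 : ℝ}

private theorem GrC_V_le (η : Env) {H m n : ℕ} {x : ℤ} (h1 : m + n ≤ H) (h2 : |x| ≤ H) :
    V μ s η ((m : ℤ), x) n ≤ Mx μ s η H := by
  unfold Mx
  have h3 : ((m, x), n) ∈ Box H := by
    unfold Box
    rw [Finset.mem_filter, Finset.mem_product, Finset.mem_product, Finset.mem_range, Finset.mem_range, Finset.mem_Icc]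
    have h4 := abs_le.1 h2
    have h5 : m < H + 1 := by omega
    have h6 : n < H + 1 := by omega
    exact ⟨⟨⟨h5, h4⟩, h6⟩, h1⟩
  exact Finset.le_sup' (fun q : (ℕ × ℤ) × ℕ => V μ s η ((q.1.1 : ℤ), q.1.2) q.2) h3

theorem Gr_Mx_nonneg (η : Env) (H : ℕ) : 0 ≤ Mx μ s η H := by
  have h1 := GrC_V_le (μ := μ) (s := s) η (H := H) (m := 0) (n := 0) (x := 0) (by omega) (by simp)
  rwa [V_zero] at h1

theorem Gr_V_le_Mx (η : Env) {H m n : ℕ} {x : ℤ} (h1 : m + n ≤ H) (h2 : |x| ≤ H) :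
    V μ s η ((m : ℤ), x) n ≤ Mx μ s η H := by
  exact GrC_V_le η h1 h2

/-- `cross_model` with `a = aj h j`; the three factors on the right are positive, hence their displacements
are admissible (`W_eq_zero`) and `neg_X_le_V`, `Gr_V_le_Mx` apply. -/
theorem cross_pt {T : ℕ} {z : ℤ} {r : ℝ} {h J t : ℕ} {y : ℤ} {ρ K : ℕ} {xs ys : ℕ → ℤ}
    (G : Geo v1 v2 T z r h J t y ρ K xs ys) (hy : 0 ≤ y ∧ y ≤ t) {c : ℝ} (hc : 0 < c) {j : ℕ}
    (hj : j < J) {η : Env} (hη : c ≤ WR μ s (tube T z r) (sh (aj h j) η) 0 T z) :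
    ∑ k ∈ Finset.range K, X μ s η (xk ρ xs k) t y ≤
      ∑ k ∈ Finset.range (K + 1), X μ s η (xk ρ xs k) (t - ρ) (ys k - xs k) - Real.log c +
        2 * Mx μ s η (8 * T) := by
  obtain ⟨a, ha⟩ : ∃ a : Pt, a = aj h j := ⟨_, rfl⟩
  have ha1 : a.1 = 0 := by rw [ha]; rfl
  have ha2 : a.2 = (j : ℤ) * h := by rw [ha]; rfl
  obtain ⟨n, hn⟩ : ∃ n : ℕ, n = t - ρ := ⟨_, rfl⟩
  have hρ := G.ρle
  have hρt := G.ρt
  have hKT := G.KT
  have hT1 := G.T1
  have hnt : ρ + n = t := by omega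
  have hnr : (n : ℝ) = t - ρ := by
    have : (ρ : ℝ) + n = t := by exact_mod_cast hnt
    linarith
  obtain ⟨R, hR⟩ : ∃ R : Set Pt, R = {p | p - a ∈ tube T z r} := ⟨_, rfl⟩
  have hRt : {p : Pt | p + a ∈ R} = tube T z r := by
    ext p
    rw [hR]
    simp only [Set.mem_setOf_eq, add_sub_cancel_right]
  have hW : WR μ s (tube T z r) (sh (aj h j) η) 0 T z = WR μ s R η a T z := by
    rw [← hRt, ← ha, WR_sh, zero_add]
  rw [hW] at hη
  have haR : a ∈ R := by
    rw [hR]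
    simp only [Set.mem_setOf_eq, sub_self, tube, Prod.fst_zero, Prod.snd_zero, Int.cast_zero, mul_zero, abs_zero]
    exact G.r0
  have hx : ∀ k ≤ K, ∀ q : ℤ, ((a.1 + k * ρ, q) : Pt) ∈ R → q ≤ xs k := by
    intro k hk q hq
    rw [hR] at hq
    simp only [Set.mem_setOf_eq, tube, Prod.fst_sub, Prod.snd_sub, ha1, ha2] at hq
    refine G.right j hj k hk q ?_
    push_cast at hq
    have e1 : (0 : ℝ) + k * ρ - 0 = k * ρ := by ring
    rw [e1] at hq
    exact hq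
  have hy' : ∀ k ≤ K, ∀ q : ℤ, ((a.1 + (k * ρ + n), q) : Pt) ∈ R → ys k ≤ q := by
    intro k hk q hq
    rw [hR] at hq
    simp only [Set.mem_setOf_eq, tube, Prod.fst_sub, Prod.snd_sub, ha1, ha2] at hq
    refine G.left j hj k hk q ?_
    push_cast at hq
    have e1 : (0 : ℝ) + (k * ρ + n) - 0 = k * ρ + (t - ρ) := by rw [hnr]; ring
    rw [e1] at hq
    exact hq
  have hcr := cross_model (μ := μ) (s := s) η R a haR T z K ρ n (by omega) (by omega) xs ys hx hy'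
  have e2 : ∀ k : ℕ, ((a.1 + k * ρ, xs k) : Pt) = xk ρ xs k := by
    intro k
    unfold xk
    rw [ha1, zero_add]
  simp only [e2] at hcr
  have e3 : ∏ k ∈ Finset.range K, W μ s η (xk ρ xs k) (ρ + n) (ys (k + 1) - xs k) =
      ∏ k ∈ Finset.range K, W μ s η (xk ρ xs k) t y := by
    refine Finset.prod_congr rfl fun k hk => ?_
    rw [G.step k (Finset.mem_range.1 hk), add_sub_cancel_left, hnt]
  rw [e3] at hcr
  have hl : ∀ k ∈ Finset.range (K + 1), 0 < W μ s η (xk ρ xs k) n (ys k - xs k) := by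
    intro k hk
    have h1 := G.cone k (by
      have := Finset.mem_range.1 hk
      omega)
    rw [← hn] at h1
    exact W_pos η _ h1.1 h1.2.1
  have hm : ∀ k ∈ Finset.range K, 0 < W μ s η (xk ρ xs k) t y := fun k _ => W_pos η _ hy.1 hy.2
  have hP1 : 0 < ∏ k ∈ Finset.range (K + 1), W μ s η (xk ρ xs k) n (ys k - xs k) := Finset.prod_pos hl
  have hP2 : 0 < ∏ k ∈ Finset.range K, W μ s η (xk ρ xs k) t y := Finset.prod_pos hm
  have hL : 0 < c * ∏ k ∈ Finset.range (K + 1), W μ s η (xk ρ xs k) n (ys k - xs k) := mul_pos hc hP1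
  have hLR : c * ∏ k ∈ Finset.range (K + 1), W μ s η (xk ρ xs k) n (ys k - xs k) ≤
      W μ s η a n (ys 0 - a.2) * (∏ k ∈ Finset.range K, W μ s η (xk ρ xs k) t y) *
        W μ s η (xk ρ xs K) (T - K * ρ) (a.2 + z - xs K) :=
    (mul_le_mul_of_nonneg_right hη hP1.le).trans hcr
  have hpos := hL.trans_le hLR
  have hA : 0 ≤ ys 0 - a.2 ∧ ys 0 - a.2 ≤ n := by
    by_contra hcon
    rw [W_eq_zero η a hcon, zero_mul, zero_mul] at hpos
    exact lt_irrefl _ hpos
  have hB : 0 ≤ a.2 + z - xs K ∧ a.2 + z - xs K ≤ ((T - K * ρ : ℕ) : ℤ) := by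
    by_contra hcon
    rw [W_eq_zero η _ hcon, mul_zero] at hpos
    exact lt_irrefl _ hpos
  have hA' := W_pos (μ := μ) (s := s) η a hA.1 hA.2
  have hB' := W_pos (μ := μ) (s := s) η (xk ρ xs K) hB.1 hB.2
  have hlog := Real.log_le_log hL hLR
  rw [Real.log_mul hc.ne' hP1.ne', Real.log_mul (mul_pos hA' hP2).ne' hB'.ne', Real.log_mul hA'.ne' hP2.ne',
    Real.log_prod (fun k hk => (hl k hk).ne'), Real.log_prod (fun k hk => (hm k hk).ne')] at hlog
  have hVA := neg_X_le_V (μ := μ) (s := s) η a hA.1 hA.2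
  have hVB := neg_X_le_V (μ := μ) (s := s) η (xk ρ xs K) hB.1 hB.2
  have hMA : V μ s η a n ≤ Mx μ s η (8 * T) := by
    have h1 : a = (((0 : ℕ) : ℤ), (j : ℤ) * h) := by
      rw [ha]
      rfl
    rw [h1]
    have h2 := G.hbd j hj
    have h3 : (0 : ℤ) ≤ (j : ℤ) * h := by positivity
    refine GrC_V_le η (by omega) ?_
    rw [abs_of_nonneg h3]
    push_cast
    linarith
  have hMB : V μ s η (xk ρ xs K) (T - K * ρ) ≤ Mx μ s η (8 * T) := by
    have h1 : xk ρ xs K = (((K * ρ : ℕ) : ℤ), xs K) := by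
      unfold xk
      push_cast
      rfl
    rw [h1]
    have h2 := G.xbd K le_rfl
    refine GrC_V_le η (by omega) ?_
    push_cast
    have h3 : (0 : ℤ) ≤ T := by positivity
    linarith
  have hXA : X μ s η a n (ys 0 - a.2) = -Real.log (W μ s η a n (ys 0 - a.2)) := rfl
  have hXB : X μ s η (xk ρ xs K) (T - K * ρ) (a.2 + z - xs K) =
      -Real.log (W μ s η (xk ρ xs K) (T - K * ρ) (a.2 + z - xs K)) := rfl
  have hS1 : ∑ k ∈ Finset.range K, X μ s η (xk ρ xs k) t y =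
      -∑ k ∈ Finset.range K, Real.log (W μ s η (xk ρ xs k) t y) := by
    rw [← Finset.sum_neg_distrib]
    rfl
  have hS2 : ∑ k ∈ Finset.range (K + 1), X μ s η (xk ρ xs k) (t - ρ) (ys k - xs k) =
      -∑ k ∈ Finset.range (K + 1), Real.log (W μ s η (xk ρ xs k) n (ys k - xs k)) := by
    rw [← Finset.sum_neg_distrib, ← hn]
    rfl
  rw [hS1, hS2]
  linarith

end Pool.Agent.W_7d29a1_F
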