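import Pool.Agent.W_7d29a1_F.Iface

/-!
THEOREM F, section 9 (growth): definitions.
-/

namespace Pool.Agent.W_7d29a1_F

open MeasureTheory ProbabilityTheory Filter Topology

noncomputable section

/-- The start of the `j`-th translate of the tube. -/
def aj (h j : ℕ) : Pt := ((0 : ℤ), (j : ℤ) * h)

/-- All `J` translates of the tube are bad. -/
def BadJ (μ : Measure ℝ) (s : ℝ) (T : ℕ) (z : ℤ) (r c : ℝ) (h J : ℕ) : Set Env :=
  {η | ∀ j : ℕ, j < J → WR μ s (tube T z r) (sh (aj h j) η) 0 T z < c}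

/-- The start `x_k` of the `k`-th displacement which crosses the tubes. -/
def xk (ρ : ℕ) (xs : ℕ → ℤ) (k : ℕ) : Pt := ((k : ℤ) * ρ, xs k)

/-- The geometry of the crossing: `x_k = (k ρ, xs k)` is to the right of all tubes, `y_k = (k ρ + (t - ρ), ys k)`
is to the left of all tubes, `x_k → y_(k+1)` is the displacement `(t, y)` and `x_k → y_k` is in the cone. -/
structure Geo (v1 v2 : ℝ) (T : ℕ) (z : ℤ) (r : ℝ) (h J t : ℕ) (y : ℤ) (ρ K : ℕ) (xs ys : ℕ → ℤ) :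
    Prop where
  r0 : 0 ≤ r
  T1 : 1 ≤ T
  ρt : t ≤ 2 * ρ
  ρle : ρ ≤ t
  KT : K * ρ + (t - ρ) ≤ T
  step : ∀ k < K, ys (k + 1) = xs k + y
  right : ∀ j < J, ∀ k ≤ K, ∀ q : ℤ, |(q : ℝ) - j * h - z / T * (k * ρ)| ≤ r → q ≤ xs k
  left : ∀ j < J, ∀ k ≤ K, ∀ q : ℤ, |(q : ℝ) - j * h - z / T * (k * ρ + (t - ρ))| ≤ r → ys k ≤ q
  cone : ∀ k ≤ K, K0 v1 v2 (t - ρ) (ys k - xs k)
  xbd : ∀ k ≤ K, |xs k| ≤ 4 * T
  hbd : ∀ j < J, (j : ℤ) * h ≤ 4 * T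

end

end Pool.Agent.W_7d29a1_F
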