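import Mathlib

/-!
Theorem F (MP_7d29a1_pr), section 6: the smoothed widths `U*` and their weighted sums.
-/

namespace Pool.Agent.W_7d29a1_F

open Finset Filter Topology

/-- `U*_i = sum_(p <= i - i1) A^(-b p) (U_(i-p) + |τ_i - τ_(i-p)|)`. -/
noncomputable def Ust (A : ℕ) (b : ℝ) (U τ : ℕ → ℝ) (i1 i : ℕ) : ℝ :=
  ∑ p ∈ Finset.range (i - i1 + 1), (A : ℝ) ^ (-(b * (p : ℝ))) * (U (i - p) + |τ i - τ (i - p)|)

theorem summable_of_rec {x y : ℕ → ℝ} {r : ℝ} (hr1 : r < 1) (hr0 : 0 ≤ r) (hx : ∀ i, 0 ≤ x i)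
    (hy0 : ∀ i, 0 ≤ y i) (hy : Summable y) (h : ∀ i, x (i + 1) ≤ r * x i + y i) : Summable x := by
  apply summable_of_sum_range_le (c := (x 0 + ∑' i, y i) / (1 - r)) hx
  have hmain : ∀ n, ∑ i ∈ Finset.range (n + 1), x i ≤ (x 0 + ∑' i, y i) / (1 - r) := by
    intro n
    rw [le_div_iff₀ (by linarith)]
    have h1 : ∑ i ∈ Finset.range (n + 1), x i = ∑ i ∈ Finset.range n, x (i + 1) + x 0 :=
      Finset.sum_range_succ' _ _
    have h2 : ∑ i ∈ Finset.range n, x (i + 1) ≤ r * ∑ i ∈ Finset.range n, x i +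
        ∑ i ∈ Finset.range n, y i := by
      rw [Finset.mul_sum, ← Finset.sum_add_distrib]
      exact Finset.sum_le_sum (fun i _ => h i)
    have h3 : ∑ i ∈ Finset.range n, y i ≤ ∑' i, y i := hy.sum_le_tsum _ (fun i _ => hy0 i)
    have h4 : ∑ i ∈ Finset.range n, x i ≤ ∑ i ∈ Finset.range (n + 1), x i := by
      rw [Finset.sum_range_succ]
      linarith [hx n]
    have h5 := mul_le_mul_of_nonneg_left h4 hr0
    nlinarith
  intro n
  refine le_trans ?_ (hmain n)
  rw [Finset.sum_range_succ]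
  linarith [hx n]

theorem Ust_nonneg {A : ℕ} {b : ℝ} {U τ : ℕ → ℝ} (hU : ∀ i, 0 ≤ U i) (i1 i : ℕ) :
    0 ≤ Ust A b U τ i1 i :=
  Finset.sum_nonneg (fun p _ => mul_nonneg (Real.rpow_nonneg (Nat.cast_nonneg _) _)
    (add_nonneg (hU _) (abs_nonneg _)))

theorem le_Ust {A : ℕ} (hA : 1 ≤ A) {b : ℝ} {U τ : ℕ → ℝ} (hU : ∀ i, 0 ≤ U i) {i1 i p : ℕ}
    (hp : p ≤ i - i1) :
    U (i - p) + |τ i - τ (i - p)| ≤ (A : ℝ) ^ (b * (p : ℝ)) * Ust A b U τ i1 i := by
  have hA0 : (0 : ℝ) < A := by exact_mod_cast hA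
  have h1 : (A : ℝ) ^ (-(b * (p : ℝ))) * (U (i - p) + |τ i - τ (i - p)|) ≤ Ust A b U τ i1 i :=
    Finset.single_le_sum (f := fun p : ℕ => (A : ℝ) ^ (-(b * (p : ℝ))) *
      (U (i - p) + |τ i - τ (i - p)|))
      (fun q _ => mul_nonneg (Real.rpow_nonneg hA0.le _) (add_nonneg (hU _) (abs_nonneg _)))
      (Finset.mem_range.2 (by omega))
  have h2 : U (i - p) + |τ i - τ (i - p)| = (A : ℝ) ^ (b * (p : ℝ)) *
      ((A : ℝ) ^ (-(b * (p : ℝ))) * (U (i - p) + |τ i - τ (i - p)|)) := by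
    rw [← mul_assoc, ← Real.rpow_add hA0]
    simp
  rw [h2]
  exact mul_le_mul_of_nonneg_left h1 (Real.rpow_nonneg hA0.le _)

theorem U_le_Ust {A : ℕ} (hA : 1 ≤ A) {b : ℝ} {U τ : ℕ → ℝ} (hU : ∀ i, 0 ≤ U i) (i1 i : ℕ) :
    U i ≤ Ust A b U τ i1 i := by
  have h := le_Ust (b := b) (τ := τ) hA hU (i1 := i1) (i := i) (p := 0) (Nat.zero_le _)
  simpa using h

theorem Ust_summable {A : ℕ} (hA : 2 ≤ A) {b : ℝ} (hb : 0 < b) {U τ : ℕ → ℝ}
    (hU0 : ∀ i, 0 ≤ U i) (hU : Summable U) (hτ : Summable (fun i => |τ (i + 1) - τ i|)) (i1 : ℕ) :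
    Summable (Ust A b U τ i1) := by
  have hA0 : (0 : ℝ) < A := by
    have : 0 < A := by omega
    exact_mod_cast this
  have hA1 : (1 : ℝ) < A := by
    have : 1 < A := by omega
    exact_mod_cast this
  set r : ℝ := (A : ℝ) ^ (-b) with hr
  have hr0 : 0 < r := Real.rpow_pos_of_pos hA0 _
  have hr1 : r < 1 := Real.rpow_lt_one_of_one_lt_of_neg hA1 (by linarith)
  have hpow : ∀ p : ℕ, (A : ℝ) ^ (-(b * (p : ℝ))) = r ^ p := by
    intro p
    rw [hr, ← Real.rpow_natCast, ← Real.rpow_mul hA0.le]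
    congr 1
    ring
  set x : ℕ → ℝ := fun i => ∑ p ∈ Finset.range (i + 1), r ^ p * (U (i - p) + |τ i - τ (i - p)|)
    with hx
  have hx0 : ∀ i, 0 ≤ x i := fun i => Finset.sum_nonneg (fun p _ =>
    mul_nonneg (pow_nonneg hr0.le _) (add_nonneg (hU0 _) (abs_nonneg _)))
  have hle : ∀ i, Ust A b U τ i1 i ≤ x i := by
    intro i
    rw [hx]
    unfold Ust
    simp only [hpow]
    apply Finset.sum_le_sum_of_subset_of_nonneg
    · intro p hp
      have := Finset.mem_range.1 hp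
      exact Finset.mem_range.2 (by omega)
    · intro p _ _
      exact mul_nonneg (pow_nonneg hr0.le _) (add_nonneg (hU0 _) (abs_nonneg _))
  have hgeo : ∀ n : ℕ, ∑ k ∈ Finset.range n, r ^ k ≤ (1 - r)⁻¹ := by
    intro n
    have hs := (summable_geometric_of_lt_one hr0.le hr1).sum_le_tsum
      (Finset.range n) (fun q _ => by positivity)
    rwa [tsum_geometric_of_lt_one hr0.le hr1] at hs
  have hrec : ∀ i, x (i + 1) ≤ r * x i + (U (i + 1) + (1 - r)⁻¹ * |τ (i + 1) - τ i|) := by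
    intro i
    have h1 : x (i + 1) = ∑ p ∈ Finset.range (i + 1),
        r ^ (p + 1) * (U (i + 1 - (p + 1)) + |τ (i + 1) - τ (i + 1 - (p + 1))|) +
        r ^ 0 * (U (i + 1 - 0) + |τ (i + 1) - τ (i + 1 - 0)|) := by
      rw [hx]
      exact Finset.sum_range_succ' _ _
    rw [h1]
    have h2 : ∑ p ∈ Finset.range (i + 1),
        r ^ (p + 1) * (U (i + 1 - (p + 1)) + |τ (i + 1) - τ (i + 1 - (p + 1))|) ≤
        ∑ p ∈ Finset.range (i + 1), (r * (r ^ p * (U (i - p) + |τ i - τ (i - p)|)) +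
          r ^ p * (r * |τ (i + 1) - τ i|)) := by
      apply Finset.sum_le_sum
      intro p _
      have e : i + 1 - (p + 1) = i - p := by omega
      rw [e]
      have h3 : |τ (i + 1) - τ (i - p)| ≤ |τ (i + 1) - τ i| + |τ i - τ (i - p)| :=
        abs_sub_le _ _ _
      have h4 : 0 ≤ r ^ (p + 1) := pow_nonneg hr0.le _
      calc r ^ (p + 1) * (U (i - p) + |τ (i + 1) - τ (i - p)|)
          ≤ r ^ (p + 1) * (U (i - p) + (|τ (i + 1) - τ i| + |τ i - τ (i - p)|)) := by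
            apply mul_le_mul_of_nonneg_left _ h4
            linarith
        _ = _ := by ring
    rw [Finset.sum_add_distrib, ← Finset.mul_sum, ← Finset.sum_mul] at h2
    have h5 : (∑ p ∈ Finset.range (i + 1), r ^ p) * (r * |τ (i + 1) - τ i|) ≤
        (1 - r)⁻¹ * |τ (i + 1) - τ i| := by
      have h6 := hgeo (i + 1)
      have h7 : 0 ≤ |τ (i + 1) - τ i| := abs_nonneg _
      have h8 : r * |τ (i + 1) - τ i| ≤ |τ (i + 1) - τ i| := by nlinarith
      have h9 : 0 ≤ r * |τ (i + 1) - τ i| := by positivity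
      calc (∑ p ∈ Finset.range (i + 1), r ^ p) * (r * |τ (i + 1) - τ i|)
          ≤ (1 - r)⁻¹ * (r * |τ (i + 1) - τ i|) := mul_le_mul_of_nonneg_right h6 h9
        _ ≤ (1 - r)⁻¹ * |τ (i + 1) - τ i| := by
            apply mul_le_mul_of_nonneg_left h8
            have : 0 < 1 - r := by linarith
            positivity
    have h10 : r ^ 0 * (U (i + 1 - 0) + |τ (i + 1) - τ (i + 1 - 0)|) = U (i + 1) := by simp
    rw [h10]
    linarith
  have hsum : Summable x := by
    apply summable_of_rec hr1 hr0.le hx0 _ _ hrec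
    · intro i
      have : 0 < 1 - r := by linarith
      have h1 := hU0 (i + 1)
      positivity
    · apply Summable.add
      · exact (summable_nat_add_iff 1).2 hU
      · exact hτ.mul_left _
  exact Summable.of_nonneg_of_le (fun i => Ust_nonneg hU0 i1 i) hle hsum

/-- The weighted sums. -/
theorem log_sum {Us : ℕ → ℝ} (h0 : ∀ i, 0 ≤ Us i) (hs : Summable Us) {i1 : ℕ}
    (hlow : ∀ i : ℕ, i1 ≤ i → 1 / ((i : ℝ) + 1) ^ 2 ≤ Us i) :
    ∀ ε : ℝ, 0 < ε → ∃ Ce : ℝ, ∀ I : ℕ, 1 ≤ I →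
      ∑ i ∈ Finset.range (I + 1), Us i * Real.log (2 / Us i) ≤ ε * Real.log I + Ce := by
  intro ε hε
  have hl2 : 0 < Real.log 2 := Real.log_pos (by norm_num)
  -- tails
  obtain ⟨n0, hn0, hn1⟩ : ∃ n0 : ℕ, i1 ≤ n0 ∧ ∀ I : ℕ, ∑ i ∈ Finset.Ico n0 I, Us i ≤ ε / 2 := by
    have h1 : Tendsto (fun n => ∑ i ∈ Finset.range n, Us i) atTop (𝓝 (∑' i, Us i)) :=
      hs.hasSum.tendsto_sum_nat
    have h2 : ∀ᶠ n in atTop, (∑' i, Us i) - ε / 2 < ∑ i ∈ Finset.range n, Us i :=
      h1.eventually (lt_mem_nhds (by linarith))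
    obtain ⟨n0, hn0⟩ := eventually_atTop.1 (h2.and (eventually_ge_atTop i1))
    refine ⟨n0, (hn0 n0 le_rfl).2, fun I => ?_⟩
    rcases le_total n0 I with h | h
    · have h3 := Finset.sum_range_add_sum_Ico Us h
      have h4 : ∑ i ∈ Finset.range I, Us i ≤ ∑' i, Us i := hs.sum_le_tsum _ (fun i _ => h0 i)
      have h5 := (hn0 n0 le_rfl).1
      linarith
    · rw [Finset.Ico_eq_empty (by omega)]
      simp
      linarith
  set K : ℝ := ∑ i ∈ Finset.range n0, |Us i * Real.log (2 / Us i)| with hK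
  refine ⟨K + ε / 2 * (Real.log 2 + 2 * Real.log 2), fun I hI => ?_⟩
  have hIr : (1 : ℝ) ≤ I := by exact_mod_cast hI
  have hlogI : Real.log ((I : ℝ) + 1) ≤ Real.log I + Real.log 2 := by
    rw [← Real.log_mul (by linarith) (by norm_num)]
    apply Real.log_le_log (by linarith)
    linarith
  have hlogI0 : 0 ≤ Real.log (I : ℝ) := Real.log_nonneg hIr
  have hpart : ∑ i ∈ Finset.range (I + 1), Us i * Real.log (2 / Us i) ≤
      K + ∑ i ∈ Finset.Ico n0 (I + 1), Us i * Real.log (2 / Us i) := by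
    rcases le_total n0 (I + 1) with h | h
    · rw [← Finset.sum_range_add_sum_Ico _ h]
      have : ∑ i ∈ Finset.range n0, Us i * Real.log (2 / Us i) ≤ K :=
        Finset.sum_le_sum (fun i _ => le_abs_self _)
      linarith
    · rw [Finset.Ico_eq_empty (by omega), Finset.sum_empty, add_zero]
      calc ∑ i ∈ Finset.range (I + 1), Us i * Real.log (2 / Us i)
          ≤ ∑ i ∈ Finset.range (I + 1), |Us i * Real.log (2 / Us i)| :=
            Finset.sum_le_sum (fun i _ => le_abs_self _)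
        _ ≤ K := by
            apply Finset.sum_le_sum_of_subset_of_nonneg
            · intro i hi
              have := Finset.mem_range.1 hi
              exact Finset.mem_range.2 (by omega)
            · intro i _ _
              exact abs_nonneg _
  refine hpart.trans ?_
  have hterm : ∀ i ∈ Finset.Ico n0 (I + 1), Us i * Real.log (2 / Us i) ≤
      Us i * (Real.log 2 + 2 * Real.log ((I : ℝ) + 1)) := by
    intro i hi
    have hi' := Finset.mem_Ico.1 hi
    apply mul_le_mul_of_nonneg_left _ (h0 i)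
    have h1 := hlow i (by omega)
    have h2 : (0 : ℝ) < 1 / ((i : ℝ) + 1) ^ 2 := by positivity
    have h3 : 0 < Us i := lt_of_lt_of_le h2 h1
    have h4 : 2 / Us i ≤ 2 * ((I : ℝ) + 1) ^ 2 := by
      rw [div_le_iff₀ h3]
      have h5 : ((i : ℝ) + 1) ≤ (I : ℝ) + 1 := by
        have : i ≤ I := by omega
        have : (i : ℝ) ≤ I := by exact_mod_cast this
        linarith
      have h6 : ((i : ℝ) + 1) ^ 2 ≤ ((I : ℝ) + 1) ^ 2 :=
        pow_le_pow_left₀ (by positivity) h5 2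
      have h7 : 1 ≤ ((i : ℝ) + 1) ^ 2 * Us i := by
        have h8 := mul_le_mul_of_nonneg_left h1 (by positivity : (0 : ℝ) ≤ ((i : ℝ) + 1) ^ 2)
        rwa [mul_one_div_cancel (by positivity)] at h8
      nlinarith
    calc Real.log (2 / Us i) ≤ Real.log (2 * ((I : ℝ) + 1) ^ 2) :=
          Real.log_le_log (by positivity) h4
      _ = Real.log 2 + 2 * Real.log ((I : ℝ) + 1) := by
          rw [Real.log_mul (by norm_num) (by positivity), Real.log_pow]
          push_cast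
          ring
  have hsum2 := Finset.sum_le_sum hterm
  rw [← Finset.sum_mul] at hsum2
  have h9 := hn1 (I + 1)
  have h10 : 0 ≤ Real.log 2 + 2 * Real.log ((I : ℝ) + 1) := by
    have : 0 ≤ Real.log ((I : ℝ) + 1) := Real.log_nonneg (by linarith)
    linarith
  have h11 := mul_le_mul_of_nonneg_right h9 h10
  nlinarith

end Pool.Agent.W_7d29a1_F
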