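import Mathlib

/-!
Theorem F (MP_7d29a1_pr), section 6: the windows, as an abstract statement.

`φ L s` stands for `E F_L(s)^{θ_L}` (so `a_L(s) = -log φ L s`), `s` = direction minus `v2`.
-/

namespace Pool.Agent.W_7d29a1_F

open Finset Filter Topology

/-- The RG lemma of section 6 as a hypothesis: from the scale `L ≈ N / 2` to the scale `N`. -/
def RGHyp (φ : ℕ → ℝ → ℝ) (μ C k0 : ℝ) (N0 : ℕ) : Prop :=
  ∀ N : ℕ, N0 ≤ N → ∀ k : ℝ, k0 ≤ k → k ≤ Real.sqrt ((N : ℝ) / 2) → ∃ L : ℕ, (N : ℝ) / 2 ≤ L ∧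
    (L : ℝ) ≤ N / 2 * (1 + C / k) ∧
    ∀ t : ℝ, -1 ≤ t → (∀ s, t < s → φ L s ≤ Real.exp (-(k * (s - t)))) →
      ∀ s, t + C / k < s → φ N s ≤ Real.exp (-(μ * k * (s - t - C / k)))

/-- Several RG steps. -/
theorem rg_multi {φ : ℕ → ℝ → ℝ} {μ C k0 : ℝ} {N0 : ℕ} (h : RGHyp φ μ C k0 N0)
    (hμ : 1 < μ) (hC : 0 ≤ C) (hk0 : 0 < k0) : ∀ p : ℕ, ∀ N : ℕ, ∀ k : ℝ, k0 ≤ k →
    N0 * 2 ^ p ≤ N → μ ^ p * k ≤ Real.sqrt ((N : ℝ) / 2 ^ p) →
    ∃ L : ℕ, (N : ℝ) / 2 ^ p ≤ L ∧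
      (L : ℝ) ≤ N / 2 ^ p * Real.exp (C / k * ∑ q ∈ Finset.range p, (1 / μ) ^ q) ∧
      ∀ t : ℝ, -1 ≤ t → (∀ s, t < s → φ L s ≤ Real.exp (-(k * (s - t)))) →
        ∀ s, t + p * (C / k) < s → φ N s ≤ Real.exp (-(μ ^ p * k * (s - t - p * (C / k)))) := by
  intro p
  induction p with
  | zero =>
    intro N k _ _ _
    refine ⟨N, by simp, by simp, ?_⟩
    intro t _ ht s hs
    have := ht s (by simpa using hs)
    simpa using this
  | succ p ih =>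
    intro N k hk hN hsq
    have hk' : 0 < k := lt_of_lt_of_le hk0 hk
    have hμp : (1 : ℝ) ≤ μ ^ p := one_le_pow₀ hμ.le
    have hkk : k ≤ μ ^ p * k := by nlinarith
    have hN0 : N0 ≤ N := by
      refine le_trans ?_ hN
      exact Nat.le_mul_of_pos_right _ (by positivity)
    have hsq1 : μ ^ p * k ≤ Real.sqrt ((N : ℝ) / 2) := by
      calc μ ^ p * k ≤ μ ^ (p + 1) * k := by
            rw [pow_succ]
            nlinarith [mul_pos (lt_of_lt_of_le zero_lt_one hμp) hk']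
        _ ≤ Real.sqrt ((N : ℝ) / 2 ^ (p + 1)) := hsq
        _ ≤ Real.sqrt ((N : ℝ) / 2) := by
            apply Real.sqrt_le_sqrt
            apply div_le_div_of_nonneg_left (Nat.cast_nonneg _) two_pos
            rw [pow_succ]
            have : (1 : ℝ) ≤ 2 ^ p := one_le_pow₀ (by norm_num)
            linarith
    obtain ⟨L1, h1, h2, h3⟩ := h N hN0 (μ ^ p * k) (hk.trans hkk) hsq1
    have hL1 : N0 * 2 ^ p ≤ L1 := by
      have h4 : ((N0 * 2 ^ p : ℕ) : ℝ) ≤ (N : ℝ) / 2 := by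
        rw [le_div_iff₀ two_pos]
        have : ((N0 * 2 ^ (p + 1) : ℕ) : ℝ) ≤ N := by exact_mod_cast hN
        push_cast at this ⊢
        rw [pow_succ] at this
        linarith
      exact_mod_cast h4.trans h1
    have hdiv : (N : ℝ) / 2 ^ (p + 1) = (N : ℝ) / 2 / 2 ^ p := by
      rw [pow_succ]
      field_simp
    have hsq2 : μ ^ p * k ≤ Real.sqrt ((L1 : ℝ) / 2 ^ p) := by
      calc μ ^ p * k ≤ μ ^ (p + 1) * k := by
            rw [pow_succ]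
            nlinarith [mul_pos (lt_of_lt_of_le zero_lt_one hμp) hk']
        _ ≤ Real.sqrt ((N : ℝ) / 2 ^ (p + 1)) := hsq
        _ ≤ Real.sqrt ((L1 : ℝ) / 2 ^ p) := by
            apply Real.sqrt_le_sqrt
            rw [hdiv]
            exact div_le_div_of_nonneg_right h1 (by positivity)
    obtain ⟨L, h5, h6, h7⟩ := ih L1 k hk hL1 hsq2
    refine ⟨L, ?_, ?_, ?_⟩
    · rw [hdiv]
      exact (div_le_div_of_nonneg_right h1 (by positivity)).trans h5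
    · refine h6.trans ?_
      rw [Finset.sum_range_succ, mul_add, Real.exp_add, hdiv]
      have h8 : (1 : ℝ) + C / (μ ^ p * k) ≤ Real.exp (C / k * (1 / μ) ^ p) := by
        have h9 : C / k * (1 / μ) ^ p = C / (μ ^ p * k) := by
          rw [one_div, inv_pow]
          field_simp
        rw [h9]
        have := Real.add_one_le_exp (C / (μ ^ p * k))
        linarith
      have h10 : (L1 : ℝ) / 2 ^ p ≤ (N : ℝ) / 2 / 2 ^ p * Real.exp (C / k * (1 / μ) ^ p) := by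
        rw [div_le_iff₀ (by positivity)]
        refine h2.trans ?_
        have h11 : (N : ℝ) / 2 / 2 ^ p * Real.exp (C / k * (1 / μ) ^ p) * 2 ^ p =
            (N : ℝ) / 2 * Real.exp (C / k * (1 / μ) ^ p) := by
          field_simp
        rw [h11]
        exact mul_le_mul_of_nonneg_left h8 (by positivity)
      calc (L1 : ℝ) / 2 ^ p * Real.exp (C / k * ∑ q ∈ Finset.range p, (1 / μ) ^ q)
          ≤ ((N : ℝ) / 2 / 2 ^ p * Real.exp (C / k * (1 / μ) ^ p)) *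
              Real.exp (C / k * ∑ q ∈ Finset.range p, (1 / μ) ^ q) :=
            mul_le_mul_of_nonneg_right h10 (Real.exp_pos _).le
        _ = _ := by ring
    · intro t ht1 ht s hs
      have hpc : 0 ≤ (p : ℝ) * (C / k) := by positivity
      have h12 := h3 (t + p * (C / k)) (by linarith) (by
        intro s' hs'
        refine (h7 t ht1 ht s' hs').trans (le_of_eq ?_)
        congr 2
        ring)
      have h13 : C / (μ ^ p * k) ≤ C / k := div_le_div_of_nonneg_left hC hk' hkk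
      have h14 : t + p * (C / k) + C / (μ ^ p * k) < s := by
        push_cast at hs
        nlinarith
      refine (h12 s h14).trans ?_
      apply Real.exp_le_exp.2
      apply neg_le_neg
      have h15 : μ ^ (p + 1) * k = μ * (μ ^ p * k) := by
        rw [pow_succ]
        ring
      rw [h15]
      apply mul_le_mul_of_nonneg_left _ (by positivity)
      push_cast
      linarith

/-- From window `i` to window `i + 1`. -/
theorem window_step {φ : ℕ → ℝ → ℝ} {μ C k0 : ℝ} {N0 : ℕ} (h : RGHyp φ μ C k0 N0)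
    (hμ : 1 < μ) (hC : 0 ≤ C) (hk0 : 0 < k0) (j0 : ℕ) {i : ℕ}
    (hi : N0 ≤ (2 ^ (j0 + 2)) ^ i) {k : ℝ} (hk : k0 ≤ k)
    (hk1 : C / k * (μ / (μ - 1)) ≤ Real.log 2)
    (hk2 : μ ^ (j0 + 3) * k ≤ Real.sqrt ((2 ^ (j0 + 2)) ^ i : ℝ)) {τ : ℝ} (hτ : -1 ≤ τ)
    (H : ∀ L : ℕ, (2 ^ (j0 + 2)) ^ i ≤ L → L < (2 ^ (j0 + 2)) ^ (i + 1) → ∀ s, τ < s →
      φ L s ≤ Real.exp (-(k * (s - τ)))) :
    ∀ N : ℕ, (2 ^ (j0 + 2)) ^ (i + 1) ≤ N → N < (2 ^ (j0 + 2)) ^ (i + 2) → ∀ s,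
      τ + (j0 + 3) * (C / k) < s →
      φ N s ≤ Real.exp (-(μ ^ j0 * k * (s - τ - (j0 + 3) * (C / k)))) := by
  intro N hN1 hN2 s hs
  have hk' : 0 < k := lt_of_lt_of_le hk0 hk
  set A : ℕ := 2 ^ (j0 + 2) with hA
  have hA4 : 4 ≤ A := by
    rw [hA, pow_add]
    have : 1 ≤ 2 ^ j0 := Nat.one_le_two_pow
    omega
  have hAj : 2 ^ j0 ≤ A := Nat.pow_le_pow_right (by norm_num) (by omega)
  -- the number of steps
  obtain ⟨p, hp1, hp2, hp3, hp4⟩ : ∃ p : ℕ, j0 ≤ p ∧ p ≤ j0 + 3 ∧ 2 * N < 2 ^ p * A ^ (i + 1) ∧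
      2 ^ p * A ^ i ≤ N := by
    have hex : ∃ p, j0 ≤ p ∧ 2 * N < 2 ^ p * A ^ (i + 1) := by
      refine ⟨j0 + 3, by omega, ?_⟩
      have e : 2 ^ (j0 + 3) * A ^ (i + 1) = 2 * A ^ (i + 2) := by
        rw [pow_succ 2 (j0 + 2), ← hA]
        ring
      rw [e]
      omega
    classical
    obtain ⟨hf1, hf2⟩ := Nat.find_spec hex
    refine ⟨Nat.find hex, hf1, ?_, hf2, ?_⟩
    · apply Nat.find_min' hex
      refine ⟨by omega, ?_⟩
      have e : 2 ^ (j0 + 3) * A ^ (i + 1) = 2 * A ^ (i + 2) := by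
        rw [pow_succ 2 (j0 + 2), ← hA]
        ring
      rw [e]
      omega
    · rcases Nat.eq_or_lt_of_le hf1 with heq | hlt
      · rw [← heq]
        calc 2 ^ j0 * A ^ i ≤ A * A ^ i := Nat.mul_le_mul_right _ hAj
          _ = A ^ (i + 1) := by ring
          _ ≤ N := hN1
      · obtain ⟨q, hq⟩ : ∃ q, Nat.find hex = q + 1 := ⟨Nat.find hex - 1, by omega⟩
        have hmin := Nat.find_min hex (m := q) (by omega)
        rw [hq]
        have h1 : 2 ^ q * A ^ (i + 1) ≤ 2 * N := by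
          by_contra hcon
          exact hmin ⟨by omega, by omega⟩
        have h2 : 2 ^ q * A ^ i * 4 ≤ 2 ^ q * A ^ (i + 1) := by
          rw [pow_succ A i, ← mul_assoc]
          exact Nat.mul_le_mul_left _ hA4
        rw [pow_succ]
        nlinarith
  have hsqp : μ ^ p * k ≤ Real.sqrt ((N : ℝ) / 2 ^ p) := by
    calc μ ^ p * k ≤ μ ^ (j0 + 3) * k :=
          mul_le_mul_of_nonneg_right (pow_le_pow_right₀ hμ.le hp2) hk'.le
      _ ≤ Real.sqrt ((2 ^ (j0 + 2)) ^ i : ℝ) := hk2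
      _ ≤ Real.sqrt ((N : ℝ) / 2 ^ p) := by
          apply Real.sqrt_le_sqrt
          rw [le_div_iff₀ (by positivity)]
          have : ((2 ^ p * A ^ i : ℕ) : ℝ) ≤ N := by exact_mod_cast hp4
          rw [hA] at this
          push_cast at this
          linarith
  have hNp : N0 * 2 ^ p ≤ N := by
    refine le_trans ?_ hp4
    rw [mul_comm]
    exact Nat.mul_le_mul_left _ hi
  obtain ⟨L, h1, h2, h3⟩ := rg_multi h hμ hC hk0 p N k hk hNp hsqp
  have hL1 : A ^ i ≤ L := by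
    have : ((A ^ i : ℕ) : ℝ) ≤ (N : ℝ) / 2 ^ p := by
      rw [le_div_iff₀ (by positivity)]
      have : ((2 ^ p * A ^ i : ℕ) : ℝ) ≤ N := by exact_mod_cast hp4
      push_cast at this ⊢
      linarith
    exact_mod_cast this.trans h1
  have hgeo : ∑ q ∈ Finset.range p, (1 / μ) ^ q ≤ μ / (μ - 1) := by
    have hμ0 : 0 < μ := by linarith
    have hlt : 1 / μ < 1 := by
      rw [div_lt_one hμ0]
      exact hμ
    have hs := (summable_geometric_of_lt_one (r := 1 / μ) (by positivity) hlt).sum_le_tsum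
      (Finset.range p) (fun q _ => by positivity)
    rw [tsum_geometric_of_lt_one (by positivity) hlt] at hs
    refine hs.trans (le_of_eq ?_)
    have hμ1 : μ - 1 ≠ 0 := by linarith
    field_simp
  have hexp : Real.exp (C / k * ∑ q ∈ Finset.range p, (1 / μ) ^ q) ≤ 2 := by
    have h4 : C / k * ∑ q ∈ Finset.range p, (1 / μ) ^ q ≤ Real.log 2 :=
      (mul_le_mul_of_nonneg_left hgeo (by positivity)).trans hk1
    calc Real.exp (C / k * ∑ q ∈ Finset.range p, (1 / μ) ^ q) ≤ Real.exp (Real.log 2) :=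
          Real.exp_le_exp.2 h4
      _ = 2 := Real.exp_log two_pos
  have hL2 : L < A ^ (i + 1) := by
    have h5 : (L : ℝ) ≤ N / 2 ^ p * 2 := by
      refine h2.trans ?_
      exact mul_le_mul_of_nonneg_left hexp (by positivity)
    have h6 : (N : ℝ) / 2 ^ p * 2 < ((A ^ (i + 1) : ℕ) : ℝ) := by
      rw [div_mul_eq_mul_div, div_lt_iff₀ (by positivity)]
      have : ((2 * N : ℕ) : ℝ) < ((2 ^ p * A ^ (i + 1) : ℕ) : ℝ) := by exact_mod_cast hp3
      push_cast at this ⊢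
      linarith
    exact_mod_cast lt_of_le_of_lt h5 h6
  have hCk : 0 ≤ C / k := by positivity
  have hpc : (p : ℝ) * (C / k) ≤ (j0 + 3) * (C / k) := by
    apply mul_le_mul_of_nonneg_right _ hCk
    exact_mod_cast hp2
  have h7 := h3 τ hτ (H L hL1 hL2) s (by linarith)
  refine h7.trans ?_
  apply Real.exp_le_exp.2
  apply neg_le_neg
  have h8 : 0 ≤ s - τ - (j0 + 3) * (C / k) := by linarith
  calc μ ^ j0 * k * (s - τ - (j0 + 3) * (C / k))
      ≤ μ ^ p * k * (s - τ - (j0 + 3) * (C / k)) := by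
        apply mul_le_mul_of_nonneg_right _ h8
        exact mul_le_mul_of_nonneg_right (pow_le_pow_right₀ hμ.le hp1) hk'.le
    _ ≤ μ ^ p * k * (s - τ - p * (C / k)) := by
        apply mul_le_mul_of_nonneg_left _ (by positivity)
        linarith


/-- The hypothesis (RG) in the form used in the chain. -/
theorem rgHyp_of {G : ℕ → ℝ → ℝ} {μ : ℝ} (hμ : 1 < μ)
    (hRG : ∃ C0 : ℝ, ∀ C1 : ℝ, ∃ C' k0 : ℝ, ∀ (L N m : ℕ) (k t : ℝ), N + m = 2 * L → k0 ≤ k →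
      k ≤ Real.sqrt L → C0 * N / k ≤ m → (m : ℝ) ≤ C1 * N / k → -1 ≤ t →
      (∀ s, t < s → G L s ≤ Real.exp (-(k * (s - t)))) →
      ∀ s, t + C' / k ≤ s → G N s ≤ Real.exp (-(μ * k * (s - t - C' / k)))) :
    ∃ C k0 : ℝ, 0 ≤ C ∧ 0 < k0 ∧ RGHyp G μ C k0 1 := by
  obtain ⟨C0, hC0⟩ := hRG
  set C00 : ℝ := max C0 0 with hC00
  have hC00n : 0 ≤ C00 := le_max_right _ _
  obtain ⟨C', k0, h⟩ := hC0 (C00 + 2)
  refine ⟨max C' (C00 + 2), max k0 1, (by linarith : (0 : ℝ) ≤ C00 + 2).trans (le_max_right _ _),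
    lt_of_lt_of_le one_pos (le_max_right _ _), ?_⟩
  intro N hN k hk1 hk2
  have hk0 : k0 ≤ k := (le_max_left _ _).trans hk1
  have hk1' : 1 ≤ k := (le_max_right _ _).trans hk1
  have hk : 0 < k := by linarith
  have hNr : (1 : ℝ) ≤ N := by exact_mod_cast hN
  have hkN : k ≤ N := by
    have h1 : k ≤ Real.sqrt N := hk2.trans (Real.sqrt_le_sqrt (by linarith))
    have h2 : Real.sqrt N ≤ N := by
      rw [Real.sqrt_le_left (by linarith)]
      nlinarith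
    exact h1.trans h2
  have hNk : 1 ≤ (N : ℝ) / k := by
    rw [one_le_div hk]
    exact hkN
  set m0 : ℕ := ⌈C00 * N / k⌉₊ with hm0
  have hm0a : C00 * N / k ≤ m0 := Nat.le_ceil _
  have hm0b : (m0 : ℝ) < C00 * N / k + 1 := Nat.ceil_lt_add_one (by positivity)
  -- parity
  obtain ⟨m, L, hmL, hma, hmb⟩ : ∃ m L : ℕ, N + m = 2 * L ∧ m0 ≤ m ∧ m ≤ m0 + 1 := by
    rcases Nat.even_or_odd (N + m0) with he | ho
    · obtain ⟨r, hr⟩ := he
      exact ⟨m0, r, by omega, le_rfl, by omega⟩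
    · obtain ⟨r, hr⟩ := ho
      exact ⟨m0 + 1, r + 1, by omega, by omega, le_rfl⟩
  have hmar : (m0 : ℝ) ≤ m := by exact_mod_cast hma
  have hmbr : (m : ℝ) ≤ m0 + 1 := by exact_mod_cast hmb
  have hLr : (N : ℝ) + m = 2 * L := by exact_mod_cast hmL
  have hm1 : C0 * N / k ≤ m := by
    have h1 : C0 * N / k ≤ C00 * N / k := by
      apply div_le_div_of_nonneg_right _ hk.le
      exact mul_le_mul_of_nonneg_right (le_max_left _ _) (by linarith)
    linarith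
  have hm2 : (m : ℝ) ≤ (C00 + 2) * N / k := by
    have h1 : (C00 + 2) * N / k = C00 * N / k + 2 * (N / k) := by ring
    rw [h1]
    linarith
  refine ⟨L, ?_, ?_, ?_⟩
  · have : (0 : ℝ) ≤ m := Nat.cast_nonneg _
    linarith
  · have h1 : (N : ℝ) / 2 * (1 + (C00 + 2) / k) = (N + (C00 + 2) * N / k) / 2 := by
      field_simp
    have h2 : (N : ℝ) / 2 * (1 + (C00 + 2) / k) ≤ N / 2 * (1 + max C' (C00 + 2) / k) := by
      apply mul_le_mul_of_nonneg_left _ (by positivity)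
      have : (C00 + 2) / k ≤ max C' (C00 + 2) / k :=
        div_le_div_of_nonneg_right (le_max_right _ _) hk.le
      linarith
    refine le_trans ?_ h2
    rw [h1]
    linarith
  · intro t ht1 ht s hs
    have hkL : k ≤ Real.sqrt L := by
      refine hk2.trans (Real.sqrt_le_sqrt ?_)
      have : (0 : ℝ) ≤ m := Nat.cast_nonneg _
      linarith
    have hCk : C' / k ≤ max C' (C00 + 2) / k := div_le_div_of_nonneg_right (le_max_left _ _) hk.le
    have h1 := h L N m k t hmL hk0 hkL hm1 hm2 ht1 ht s (by linarith)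
    refine h1.trans ?_
    apply Real.exp_le_exp.2
    apply neg_le_neg
    apply mul_le_mul_of_nonneg_left _ (by positivity)
    linarith

/-- The tip of level `c1` of an antitone function. -/
noncomputable def tip (G : ℕ → ℝ → ℝ) (c1 : ℝ) (L : ℕ) : ℝ := sSup {s | Real.exp (-c1) ≤ G L s}

theorem tip_lt {G : ℕ → ℝ → ℝ} {c1 : ℝ} {L : ℕ} (hGa : Antitone (G L))
    (hne : {s | Real.exp (-c1) ≤ G L s}.Nonempty) {s : ℝ} (hs : s < tip G c1 L) :
    Real.exp (-c1) ≤ G L s := by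
  obtain ⟨s', h1, h2⟩ := exists_lt_of_lt_csSup hne hs
  exact le_trans h1 (hGa h2.le)

theorem lt_tip {G : ℕ → ℝ → ℝ} {c1 : ℝ} {L : ℕ}
    (hbdd : BddAbove {s | Real.exp (-c1) ≤ G L s}) {s : ℝ} (hs : tip G c1 L < s) :
    G L s < Real.exp (-c1) := by
  by_contra hcon
  have : s ≤ tip G c1 L := le_csSup hbdd (not_lt.1 hcon)
  linarith

theorem tip_bdd {G : ℕ → ℝ → ℝ} (c1 : ℝ) {L : ℕ} {B : ℝ} (hGa : Antitone (G L))
    (hB : G L B < Real.exp (-c1)) : ∀ s ∈ {s | Real.exp (-c1) ≤ G L s}, s ≤ B := by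
  intro s hs
  by_contra hcon
  have h1 : G L s ≤ G L B := hGa (not_le.1 hcon).le
  have h2 : Real.exp (-c1) ≤ G L s := hs
  linarith

/-- Data of one window: `τ` is the maximal tip, attained at `Lx`. -/
structure WinData (G : ℕ → ℝ → ℝ) (c1 : ℝ) (lo hi : ℕ) (τ : ℝ) (Lx : ℕ) : Prop where
  mem : lo ≤ Lx ∧ Lx < hi
  low : ∀ s, s < τ → Real.exp (-c1) ≤ G Lx s
  high : ∀ L, lo ≤ L → L < hi → ∀ s, τ < s → G L s < Real.exp (-c1)

theorem exists_winData {G : ℕ → ℝ → ℝ} (hGa : ∀ L, Antitone (G L)) {c1 a B : ℝ} {lo hi : ℕ}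
    (hlh : lo < hi) (ha : ∀ L, lo ≤ L → L < hi → Real.exp (-c1) ≤ G L a)
    (hB : ∀ L, lo ≤ L → L < hi → G L B < Real.exp (-c1)) :
    ∃ τ : ℝ, ∃ Lx : ℕ, WinData G c1 lo hi τ Lx ∧ a ≤ τ ∧ τ ≤ B := by
  obtain ⟨Lx, hLx, hmax⟩ := Finset.exists_max_image (Finset.Ico lo hi) (tip G c1)
    ⟨lo, Finset.mem_Ico.2 ⟨le_rfl, hlh⟩⟩
  have hLx' := Finset.mem_Ico.1 hLx
  have hbd : ∀ L, lo ≤ L → L < hi → ∀ s ∈ {s | Real.exp (-c1) ≤ G L s}, s ≤ B := fun L h1 h2 =>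
    tip_bdd c1 (hGa L) (hB L h1 h2)
  refine ⟨tip G c1 Lx, Lx, ⟨hLx', ?_, ?_⟩, ?_, ?_⟩
  · intro s hs
    exact tip_lt (hGa Lx) ⟨a, ha Lx hLx'.1 hLx'.2⟩ hs
  · intro L h1 h2 s hs
    have h3 := hmax L (Finset.mem_Ico.2 ⟨h1, h2⟩)
    exact lt_tip ⟨B, fun s hs => hbd L h1 h2 s hs⟩ (lt_of_le_of_lt h3 hs)
  · exact le_csSup ⟨B, fun s hs => hbd Lx hLx'.1 hLx'.2 s hs⟩ (ha Lx hLx'.1 hLx'.2)
  · exact csSup_le ⟨a, ha Lx hLx'.1 hLx'.2⟩ (hbd Lx hLx'.1 hLx'.2)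

/-- One step of the windows: the maximal tip and the width in the next window. -/
theorem win_next {G : ℕ → ℝ → ℝ} {μ C k0 : ℝ} {N0 : ℕ} (h : RGHyp G μ C k0 N0)
    (hμ : 1 < μ) (hC : 0 ≤ C) (hk0 : 0 < k0) (j0 : ℕ) {i : ℕ}
    (hi : N0 ≤ (2 ^ (j0 + 2)) ^ i) {c1 V : ℝ} (hc1 : 0 < c1) (hV : 0 < V) (hk : k0 ≤ c1 / V)
    (hk1 : C / (c1 / V) * (μ / (μ - 1)) ≤ Real.log 2)
    (hk2 : μ ^ (j0 + 3) * (c1 / V) ≤ Real.sqrt ((2 ^ (j0 + 2)) ^ i : ℝ)) {τ τ' : ℝ} (hτ : -1 ≤ τ)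
    {Lx' : ℕ}
    (hW' : WinData G c1 ((2 ^ (j0 + 2)) ^ (i + 1)) ((2 ^ (j0 + 2)) ^ (i + 2)) τ' Lx')
    (H : ∀ L : ℕ, (2 ^ (j0 + 2)) ^ i ≤ L → L < (2 ^ (j0 + 2)) ^ (i + 1) → ∀ s, τ < s →
      G L s ≤ Real.exp (-(c1 / V * (s - τ)))) :
    τ' ≤ τ + ((j0 + 3) * C / c1 + 1 / μ ^ j0) * V ∧
    ∀ V' : ℝ, τ - τ' + ((j0 + 3) * C / c1 + 1 / μ ^ j0) * V ≤ V' → V / μ ^ j0 ≤ V' →
      ∀ L : ℕ, (2 ^ (j0 + 2)) ^ (i + 1) ≤ L → L < (2 ^ (j0 + 2)) ^ (i + 2) → ∀ s, τ' < s →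
      G L s ≤ Real.exp (-(c1 / V' * (s - τ'))) := by
  have hstep := window_step h hμ hC hk0 j0 hi hk hk1 hk2 hτ H
  have hμ0 : 0 < μ := by linarith
  have hμj : 0 < μ ^ j0 := by positivity
  have hsh : ((j0 : ℝ) + 3) * (C / (c1 / V)) = (j0 + 3) * C / c1 * V := by
    field_simp
  rw [hsh] at hstep
  have hkV : 0 < c1 / V := by positivity
  constructor
  · by_contra hcon
    have hcon' := not_le.1 hcon
    obtain ⟨s, hs1, hs2⟩ := exists_between hcon'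
    have h1 := hW'.low s hs2
    have hpos : 0 ≤ 1 / μ ^ j0 * V := by positivity
    have h2 := hstep Lx' hW'.mem.1 hW'.mem.2 s (by
      have : ((j0 : ℝ) + 3) * C / c1 * V + 1 / μ ^ j0 * V =
        (((j0 : ℝ) + 3) * C / c1 + 1 / μ ^ j0) * V := by ring
      linarith)
    have h3 : c1 < μ ^ j0 * (c1 / V) * (s - τ - (j0 + 3) * C / c1 * V) := by
      have h4 : 1 / μ ^ j0 * V < s - τ - (j0 + 3) * C / c1 * V := by
        have : ((j0 : ℝ) + 3) * C / c1 * V + 1 / μ ^ j0 * V =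
          (((j0 : ℝ) + 3) * C / c1 + 1 / μ ^ j0) * V := by ring
        linarith
      have h5 : c1 = μ ^ j0 * (c1 / V) * (1 / μ ^ j0 * V) := by
        field_simp
      calc c1 = μ ^ j0 * (c1 / V) * (1 / μ ^ j0 * V) := h5
        _ < _ := mul_lt_mul_of_pos_left h4 (by positivity)
    have h6 : G Lx' s < Real.exp (-c1) :=
      lt_of_le_of_lt h2 (Real.exp_lt_exp.2 (neg_lt_neg h3))
    linarith
  · intro V' hV1 hV2 L hL1 hL2 s hs
    have hVj : 0 < V / μ ^ j0 := by positivity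
    have hV' : 0 < V' := lt_of_lt_of_le hVj hV2
    by_cases hc : s - τ' ≤ V'
    · refine (hW'.high L hL1 hL2 s hs).le.trans ?_
      apply Real.exp_le_exp.2
      apply neg_le_neg
      calc c1 / V' * (s - τ') ≤ c1 / V' * V' := mul_le_mul_of_nonneg_left hc (by positivity)
        _ = c1 := by field_simp
    · have hc' : V' < s - τ' := not_le.1 hc
      set r : ℝ := s - τ' - V' with hr
      have hr0 : 0 < r := by
        rw [hr]
        linarith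
      have hkap : (((j0 : ℝ) + 3) * C / c1 + 1 / μ ^ j0) * V =
          ((j0 : ℝ) + 3) * C / c1 * V + V / μ ^ j0 := by ring
      have h1 : V / μ ^ j0 + r ≤ s - τ - (j0 + 3) * C / c1 * V := by
        rw [hr]
        linarith
      have h2 := hstep L hL1 hL2 s (by linarith)
      refine h2.trans ?_
      apply Real.exp_le_exp.2
      apply neg_le_neg
      have h3 : c1 / V' * (s - τ') = c1 + c1 / V' * r := by
        have : s - τ' = V' + r := by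
          rw [hr]
          ring
        rw [this]
        field_simp
      have h4 : μ ^ j0 * (c1 / V) * (V / μ ^ j0 + r) = c1 + c1 / (V / μ ^ j0) * r := by
        field_simp
      have h5 : c1 / V' * r ≤ c1 / (V / μ ^ j0) * r := by
        apply mul_le_mul_of_nonneg_right _ hr0.le
        exact div_le_div_of_nonneg_left hc1.le hVj hV2
      calc c1 / V' * (s - τ') = c1 + c1 / V' * r := h3
        _ ≤ c1 + c1 / (V / μ ^ j0) * r := by linarith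
        _ = μ ^ j0 * (c1 / V) * (V / μ ^ j0 + r) := h4.symm
        _ ≤ μ ^ j0 * (c1 / V) * (s - τ - (j0 + 3) * C / c1 * V) :=
            mul_le_mul_of_nonneg_left h1 (by positivity)

/-- The recursion for the widths. -/
noncomputable def Vseq (κ ι : ℝ) (τ : ℕ → ℝ) (i0 : ℕ) : ℕ → ℝ
  | 0 => 4
  | n + 1 => (τ (i0 + n) - τ (i0 + n + 1) + κ * Vseq κ ι τ i0 n) + ι * Vseq κ ι τ i0 n +
      1 / ((i0 : ℝ) + n + 2) ^ 2

/-- Summability from the telescoping recursion. -/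
theorem Vseq_summable {κ ι d B : ℝ} {τ : ℕ → ℝ} {i0 : ℕ} (hκ : 0 ≤ κ) (hκι : κ + ι ≤ 1 / 2)
    (hV0 : ∀ n, 0 ≤ Vseq κ ι τ i0 n)
    (hlo : ∀ i, i0 ≤ i → -d ≤ τ i) (hup : ∀ i, i0 ≤ i → τ i ≤ B)
    (hinc : ∀ n, τ (i0 + n + 1) ≤ τ (i0 + n) + κ * Vseq κ ι τ i0 n) :
    Summable (Vseq κ ι τ i0) ∧ Summable (fun n => |τ (i0 + n + 1) - τ (i0 + n)|) := by
  have hf : Summable (fun n : ℕ => 1 / ((i0 : ℝ) + n + 2) ^ 2) := by
    have h1 : Summable (fun n : ℕ => 1 / ((n : ℝ)) ^ 2) :=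
      Real.summable_one_div_nat_pow.2 (by norm_num)
    have h2 := (summable_nat_add_iff (i0 + 2)).2 h1
    refine h2.congr ?_
    intro n
    push_cast
    congr 2
    ring
  set F : ℝ := ∑' n : ℕ, 1 / ((i0 : ℝ) + n + 2) ^ 2 with hF
  have hFn : ∀ n, ∑ k ∈ Finset.range n, 1 / ((i0 : ℝ) + k + 2) ^ 2 ≤ F := fun n =>
    hf.sum_le_tsum _ (fun k _ => by positivity)
  have hsum1 : ∀ n, ∑ k ∈ Finset.range (n + 1), Vseq κ ι τ i0 k ≤ 2 * (4 + (B + d) + F) := by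
    intro n
    have h1 : ∑ k ∈ Finset.range (n + 1), Vseq κ ι τ i0 k =
        ∑ k ∈ Finset.range n, Vseq κ ι τ i0 (k + 1) + 4 := by
      rw [Finset.sum_range_succ']
      rfl
    have h2 : ∑ k ∈ Finset.range n, Vseq κ ι τ i0 (k + 1) =
        (τ i0 - τ (i0 + n)) + (κ + ι) * ∑ k ∈ Finset.range n, Vseq κ ι τ i0 k +
          ∑ k ∈ Finset.range n, 1 / ((i0 : ℝ) + k + 2) ^ 2 := by
      have h3 : ∀ k ∈ Finset.range n, Vseq κ ι τ i0 (k + 1) =
          (τ (i0 + k) - τ (i0 + (k + 1))) + (κ + ι) * Vseq κ ι τ i0 k +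
            1 / ((i0 : ℝ) + k + 2) ^ 2 := by
        intro k _
        show (τ (i0 + k) - τ (i0 + k + 1) + κ * Vseq κ ι τ i0 k) + ι * Vseq κ ι τ i0 k +
          1 / ((i0 : ℝ) + k + 2) ^ 2 = _
        have e : i0 + (k + 1) = i0 + k + 1 := by omega
        rw [e]
        ring
      rw [Finset.sum_congr rfl h3, Finset.sum_add_distrib, Finset.sum_add_distrib,
        Finset.mul_sum, Finset.sum_range_sub' (fun k => τ (i0 + k))]
      simp
    have h4 : ∑ k ∈ Finset.range n, Vseq κ ι τ i0 k ≤ ∑ k ∈ Finset.range (n + 1), Vseq κ ι τ i0 k := by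
      rw [Finset.sum_range_succ]
      linarith [hV0 n]
    have h5 : 0 ≤ ∑ k ∈ Finset.range (n + 1), Vseq κ ι τ i0 k := Finset.sum_nonneg (fun k _ => hV0 k)
    have h6 : (κ + ι) * ∑ k ∈ Finset.range n, Vseq κ ι τ i0 k ≤
        1 / 2 * ∑ k ∈ Finset.range (n + 1), Vseq κ ι τ i0 k := by
      have h7 : 0 ≤ ∑ k ∈ Finset.range n, Vseq κ ι τ i0 k := Finset.sum_nonneg (fun k _ => hV0 k)
      nlinarith
    have h8 := hlo (i0 + n) (by omega)
    have h9 := hup i0 le_rfl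
    have h10 := hFn n
    linarith
  have hS : Summable (Vseq κ ι τ i0) := by
    apply summable_of_sum_range_le (c := 2 * (4 + (B + d) + F)) hV0
    intro n
    cases n with
    | zero =>
      have := hsum1 0
      have h1 : 0 ≤ ∑ k ∈ Finset.range (0 + 1), Vseq κ ι τ i0 k :=
        Finset.sum_nonneg (fun k _ => hV0 k)
      simp only [Finset.range_zero, Finset.sum_empty]
      linarith
    | succ n => exact hsum1 n
  refine ⟨hS, ?_⟩
  set SV : ℝ := ∑' n, Vseq κ ι τ i0 n with hSV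
  apply summable_of_sum_range_le (c := 2 * κ * SV + (B + d)) (fun n => abs_nonneg _)
  intro n
  have h1 : ∀ k ∈ Finset.range n, |τ (i0 + k + 1) - τ (i0 + k)| ≤
      2 * κ * Vseq κ ι τ i0 k + (τ (i0 + k) - τ (i0 + (k + 1))) := by
    intro k _
    have h2 := hinc k
    have h3 : 0 ≤ κ * Vseq κ ι τ i0 k := mul_nonneg hκ (hV0 k)
    have e : i0 + (k + 1) = i0 + k + 1 := by omega
    rw [e]
    rcases abs_cases (τ (i0 + k + 1) - τ (i0 + k)) with ⟨h4, _⟩ | ⟨h4, _⟩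
    · rw [h4]
      linarith
    · rw [h4]
      linarith
  refine (Finset.sum_le_sum h1).trans ?_
  rw [Finset.sum_add_distrib, ← Finset.mul_sum, Finset.sum_range_sub' (fun k => τ (i0 + k))]
  have h5 : ∑ k ∈ Finset.range n, Vseq κ ι τ i0 k ≤ SV := hS.sum_le_tsum _ (fun k _ => hV0 k)
  have h6 := mul_le_mul_of_nonneg_left h5 (by positivity : 0 ≤ 2 * κ)
  have h7 := hlo (i0 + n) (by omega)
  have h8 := hup i0 le_rfl
  simp only [add_zero]
  linarith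

/-- **The windows of section 6 of Theorem F.** -/
theorem windows (G : ℕ → ℝ → ℝ) (d μ : ℝ) (hd1 : d ≤ 1) (hμ : 1 < μ)
    (hGa : ∀ L, Antitone (G L)) (hGz : ∀ L s, 2 < s → G L s = 0)
    (hP : ∃ cP : ℝ, ∃ L0 : ℕ, ∀ L, L0 ≤ L → Real.exp (-cP) ≤ G L (-d))
    (hT : ∀ c : ℝ, ∃ L0 : ℕ, ∀ L, L0 ≤ L → G L d ≤ Real.exp (-c))
    (hRG : ∃ C0 : ℝ, ∀ C1 : ℝ, ∃ C' k0 : ℝ, ∀ (L N m : ℕ) (k t : ℝ), N + m = 2 * L → k0 ≤ k →
      k ≤ Real.sqrt L → C0 * N / k ≤ m → (m : ℝ) ≤ C1 * N / k → -1 ≤ t →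
      (∀ s, t < s → G L s ≤ Real.exp (-(k * (s - t)))) →
      ∀ s, t + C' / k ≤ s → G N s ≤ Real.exp (-(μ * k * (s - t - C' / k)))) :
    ∃ c1 : ℝ, 2 ≤ c1 ∧ ∃ A : ℕ, 2 ≤ A ∧ ∃ i1 : ℕ, ∃ U τ : ℕ → ℝ, ∃ Lx : ℕ → ℕ,
      (∀ i, 0 ≤ U i) ∧ Summable U ∧ Summable (fun i => |τ (i + 1) - τ i|) ∧
      ∀ i, i1 ≤ i → (A ^ i ≤ Lx i ∧ Lx i < A ^ (i + 1)) ∧
        (1 / ((i : ℝ) + 1) ^ 2 ≤ U i ∧ U i ≤ 2) ∧ (-d ≤ τ i ∧ τ i ≤ d) ∧
        (∀ s, s < τ i → Real.exp (-c1) ≤ G (Lx i) s) ∧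
        ∀ L : ℕ, A ^ i ≤ L → L < A ^ (i + 1) → ∀ s, τ i < s →
          G L s ≤ Real.exp (-(c1 * (s - τ i) / U i)) := by
  obtain ⟨C, k0, hC, hk0, hRGH⟩ := rgHyp_of hμ hRG
  obtain ⟨cP, L0, hP⟩ := hP
  have hμ0 : 0 < μ := by linarith
  have hμ1 : 0 < μ - 1 := by linarith
  have hl2 : 0 < Real.log 2 := Real.log_pos (by norm_num)
  -- j0
  obtain ⟨j0, hj0⟩ : ∃ j0 : ℕ, (8 : ℝ) ≤ μ ^ j0 := by
    obtain ⟨j0, hj0⟩ := pow_unbounded_of_one_lt (8 : ℝ) hμ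
    exact ⟨j0, hj0.le⟩
  -- c1
  obtain ⟨c1, hc2, hcP, hck, hcl, hcj⟩ : ∃ c1 : ℝ, 2 ≤ c1 ∧ cP ≤ c1 ∧ 8 * k0 ≤ c1 ∧
      8 * C * (μ / (μ - 1)) / Real.log 2 ≤ c1 ∧ 8 * ((j0 + 3) * C) ≤ c1 := by
    refine ⟨max 2 (max cP (max (8 * k0) (max (8 * C * (μ / (μ - 1)) / Real.log 2)
      (8 * ((j0 + 3) * C))))), ?_, ?_, ?_, ?_, ?_⟩
    · exact le_max_left _ _
    · exact (le_max_left _ _).trans (le_max_right _ _)
    · exact ((le_max_left _ _).trans (le_max_right _ _)).trans (le_max_right _ _)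
    · exact (((le_max_left _ _).trans (le_max_right _ _)).trans (le_max_right _ _)).trans
        (le_max_right _ _)
    · exact (((le_max_right _ _).trans (le_max_right _ _)).trans (le_max_right _ _)).trans
        (le_max_right _ _)
  have hc1 : 0 < c1 := by linarith
  set κ : ℝ := (j0 + 3) * C / c1 + 1 / μ ^ j0 with hκ
  set ι : ℝ := 1 / μ ^ j0 with hι
  have hι0 : 0 ≤ ι := by positivity
  have hι8 : ι ≤ 1 / 8 := by
    rw [hι]
    exact one_div_le_one_div_of_le (by norm_num) hj0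
  have hκ0 : 0 ≤ κ := by positivity
  have hκ8 : κ ≤ 1 / 4 := by
    have h1 : ((j0 : ℝ) + 3) * C / c1 ≤ 1 / 8 := by
      rw [div_le_iff₀ hc1]
      linarith
    rw [hκ]
    linarith
  set A : ℕ := 2 ^ (j0 + 2) with hA
  have hA4 : 4 ≤ A := by
    rw [hA, pow_add]
    have : 1 ≤ 2 ^ j0 := Nat.one_le_two_pow
    omega
  have hAr : (4 : ℝ) ≤ ((2 : ℝ) ^ (j0 + 2)) := by
    have : ((4 : ℕ) : ℝ) ≤ ((2 ^ (j0 + 2) : ℕ) : ℝ) := by exact_mod_cast hA4
    simpa using this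
  have hApow : ∀ i : ℕ, i < A ^ i := fun i =>
    lt_of_lt_of_le (Nat.lt_two_pow_self) (Nat.pow_le_pow_left (by omega) i)
  -- i0
  obtain ⟨i0, hi0a, hi0b⟩ : ∃ i0 : ℕ, L0 + 1 ≤ i0 ∧ ∀ i, i0 ≤ i →
      μ ^ (j0 + 3) * (c1 * ((i : ℝ) + 1) ^ 2) ≤ (2 : ℝ) ^ i := by
    have h1 : Tendsto (fun i : ℕ => μ ^ (j0 + 3) * (c1 * ((i : ℝ) + 1) ^ 2) / (2 : ℝ) ^ i) atTop
        (𝓝 0) := by
      have h2 : Tendsto (fun n : ℕ => (n : ℝ) ^ 2 / (2 : ℝ) ^ n) atTop (𝓝 0) :=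
        tendsto_pow_const_div_const_pow_of_one_lt 2 (by norm_num)
      have h3 := (tendsto_add_atTop_iff_nat 1).2 h2
      have h4 := h3.const_mul (2 * (μ ^ (j0 + 3) * c1))
      simp only [mul_zero] at h4
      refine h4.congr ?_
      intro i
      push_cast
      rw [pow_succ (2 : ℝ) i]
      field_simp
    have h5 : ∀ᶠ i : ℕ in atTop, μ ^ (j0 + 3) * (c1 * ((i : ℝ) + 1) ^ 2) / (2 : ℝ) ^ i < 1 :=
      h1.eventually (gt_mem_nhds one_pos)
    obtain ⟨i0, hi0⟩ := eventually_atTop.1 (h5.and (eventually_ge_atTop (L0 + 1)))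
    refine ⟨i0, (hi0 i0 le_rfl).2, fun i hi => ?_⟩
    have h6 := (hi0 i hi).1
    rw [div_lt_one (by positivity)] at h6
    exact h6.le
  have hL0A : ∀ i, i0 ≤ i → L0 ≤ A ^ i := fun i hi => by
    have := hApow i
    omega
  -- the tips
  have hex : ∀ i : ℕ, ∃ τ : ℝ, ∃ Lx : ℕ, i0 ≤ i →
      (WinData G c1 (A ^ i) (A ^ (i + 1)) τ Lx ∧ -d ≤ τ ∧ τ ≤ 5 / 2) := by
    intro i
    by_cases hi : i0 ≤ i
    · obtain ⟨τ, Lx, h1, h2, h3⟩ := exists_winData (G := G) hGa (c1 := c1) (a := -d) (B := 5 / 2)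
        (lo := A ^ i) (hi := A ^ (i + 1)) (Nat.pow_lt_pow_right (by omega) (by omega))
        (by
          intro L hL _
          refine le_trans ?_ (hP L ((hL0A i hi).trans hL))
          apply Real.exp_le_exp.2
          linarith)
        (by
          intro L _ _
          rw [hGz L (5 / 2) (by norm_num)]
          exact Real.exp_pos _)
      exact ⟨τ, Lx, fun _ => ⟨h1, h2, h3⟩⟩
    · exact ⟨0, 0, fun h => absurd h hi⟩
  choose τ Lx hτ using hex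
  -- the induction
  have hstep : ∀ n : ℕ, ((0 < Vseq κ ι τ i0 n ∧ Vseq κ ι τ i0 n ≤ 8 ∧
      1 / ((i0 : ℝ) + n + 1) ^ 2 ≤ Vseq κ ι τ i0 n) ∧
      ∀ L : ℕ, A ^ (i0 + n) ≤ L → L < A ^ (i0 + n + 1) → ∀ s, τ (i0 + n) < s →
        G L s ≤ Real.exp (-(c1 / Vseq κ ι τ i0 n * (s - τ (i0 + n))))) →
      (τ (i0 + n + 1) ≤ τ (i0 + n) + κ * Vseq κ ι τ i0 n) ∧
      ((0 < Vseq κ ι τ i0 (n + 1) ∧ Vseq κ ι τ i0 (n + 1) ≤ 8 ∧
      1 / ((i0 : ℝ) + (n + 1 : ℕ) + 1) ^ 2 ≤ Vseq κ ι τ i0 (n + 1)) ∧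
      ∀ L : ℕ, A ^ (i0 + (n + 1)) ≤ L → L < A ^ (i0 + (n + 1) + 1) → ∀ s, τ (i0 + (n + 1)) < s →
        G L s ≤ Real.exp (-(c1 / Vseq κ ι τ i0 (n + 1) * (s - τ (i0 + (n + 1)))))) := by
    rintro n ⟨⟨hV0, hV8, hVf⟩, H⟩
    have hk : k0 ≤ c1 / Vseq κ ι τ i0 n := by
      rw [le_div_iff₀ hV0]
      nlinarith
    have hk1 : C / (c1 / Vseq κ ι τ i0 n) * (μ / (μ - 1)) ≤ Real.log 2 := by
      have h1 : C / (c1 / Vseq κ ι τ i0 n) * (μ / (μ - 1)) =
          (C * (μ / (μ - 1)) / c1) * Vseq κ ι τ i0 n := by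
        field_simp
      rw [h1]
      have h2 : 0 ≤ C * (μ / (μ - 1)) / c1 := by positivity
      calc (C * (μ / (μ - 1)) / c1) * Vseq κ ι τ i0 n ≤ (C * (μ / (μ - 1)) / c1) * 8 :=
            mul_le_mul_of_nonneg_left hV8 h2
        _ = (8 * C * (μ / (μ - 1))) / c1 := by ring
        _ ≤ Real.log 2 := by
            rw [div_le_iff₀ hc1]
            rw [div_le_iff₀ hl2] at hcl
            linarith
    have hk2 : μ ^ (j0 + 3) * (c1 / Vseq κ ι τ i0 n) ≤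
        Real.sqrt ((2 ^ (j0 + 2)) ^ (i0 + n) : ℝ) := by
      have h1 : c1 / Vseq κ ι τ i0 n ≤ c1 * (((i0 + n : ℕ) : ℝ) + 1) ^ 2 := by
        rw [div_le_iff₀ hV0]
        have h2 : 1 ≤ (((i0 + n : ℕ) : ℝ) + 1) ^ 2 * Vseq κ ι τ i0 n := by
          have h3 : (0 : ℝ) < ((i0 : ℝ) + n + 1) ^ 2 := by positivity
          have h4 := mul_le_mul_of_nonneg_left hVf h3.le
          rw [mul_one_div_cancel h3.ne'] at h4
          push_cast
          exact h4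
        nlinarith
      have h5 := hi0b (i0 + n) (by omega)
      have h6 : (2 : ℝ) ^ (i0 + n) ≤ Real.sqrt ((2 ^ (j0 + 2)) ^ (i0 + n) : ℝ) := by
        apply Real.le_sqrt_of_sq_le
        rw [← pow_mul, mul_comm, pow_mul]
        apply pow_le_pow_left₀ (by norm_num)
        linarith
      calc μ ^ (j0 + 3) * (c1 / Vseq κ ι τ i0 n)
          ≤ μ ^ (j0 + 3) * (c1 * (((i0 + n : ℕ) : ℝ) + 1) ^ 2) :=
            mul_le_mul_of_nonneg_left h1 (by positivity)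
        _ ≤ (2 : ℝ) ^ (i0 + n) := h5
        _ ≤ _ := h6
    obtain ⟨hW, hlo, hup⟩ := hτ (i0 + n) (by omega)
    obtain ⟨hW', hlo', hup'⟩ := hτ (i0 + n + 1) (by omega)
    obtain ⟨hinc, hH⟩ := win_next hRGH hμ hC hk0 j0 (i := i0 + n)
      (Nat.one_le_pow _ _ (by positivity)) hc1 hV0 hk hk1 hk2 (by linarith) hW' H
    have hdef : Vseq κ ι τ i0 (n + 1) = (τ (i0 + n) - τ (i0 + n + 1) + κ * Vseq κ ι τ i0 n) +
        ι * Vseq κ ι τ i0 n + 1 / ((i0 : ℝ) + n + 2) ^ 2 := rfl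
    have hf0 : (0 : ℝ) < 1 / ((i0 : ℝ) + n + 2) ^ 2 := by positivity
    have hf1 : 1 / ((i0 : ℝ) + n + 2) ^ 2 ≤ 1 / 4 := by
      apply one_div_le_one_div_of_le (by norm_num)
      have h7 : (2 : ℝ) ≤ (i0 : ℝ) + n + 2 := by
        have h71 : (0 : ℝ) ≤ i0 := Nat.cast_nonneg _
        have h72 : (0 : ℝ) ≤ n := Nat.cast_nonneg _
        linarith
      nlinarith
    have hιV : 0 ≤ ι * Vseq κ ι τ i0 n := mul_nonneg hι0 hV0.le
    have hbr : 0 ≤ τ (i0 + n) - τ (i0 + n + 1) + κ * Vseq κ ι τ i0 n := by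
      have : ((j0 + 3) * C / c1 + 1 / μ ^ j0) * Vseq κ ι τ i0 n = κ * Vseq κ ι τ i0 n := rfl
      linarith
    have e1 : i0 + (n + 1) = i0 + n + 1 := by omega
    rw [e1]
    refine ⟨hinc, ⟨?_, ?_, ?_⟩, ?_⟩
    · rw [hdef]
      linarith
    · rw [hdef]
      have h8 : κ * Vseq κ ι τ i0 n ≤ 1 / 4 * 8 :=
        mul_le_mul hκ8 hV8 hV0.le (by norm_num)
      have h9 : ι * Vseq κ ι τ i0 n ≤ 1 / 8 * 8 :=
        mul_le_mul hι8 hV8 hV0.le (by norm_num)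
      linarith
    · rw [hdef]
      have h10 : 1 / ((i0 : ℝ) + ((n + 1 : ℕ) : ℝ) + 1) ^ 2 = 1 / ((i0 : ℝ) + n + 2) ^ 2 := by
        push_cast
        congr 2
        ring
      rw [h10]
      linarith
    · apply hH
      · rw [hdef]
        have : ((j0 + 3) * C / c1 + 1 / μ ^ j0) * Vseq κ ι τ i0 n = κ * Vseq κ ι τ i0 n := rfl
        linarith
      · rw [hdef]
        have : Vseq κ ι τ i0 n / μ ^ j0 = ι * Vseq κ ι τ i0 n := by
          rw [hι]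
          ring
        linarith
  have hmain : ∀ n : ℕ, (0 < Vseq κ ι τ i0 n ∧ Vseq κ ι τ i0 n ≤ 8 ∧
      1 / ((i0 : ℝ) + n + 1) ^ 2 ≤ Vseq κ ι τ i0 n) ∧
      ∀ L : ℕ, A ^ (i0 + n) ≤ L → L < A ^ (i0 + n + 1) → ∀ s, τ (i0 + n) < s →
        G L s ≤ Real.exp (-(c1 / Vseq κ ι τ i0 n * (s - τ (i0 + n)))) := by
    intro n
    induction n with
    | zero =>
      obtain ⟨hW, hlo, hup⟩ := hτ i0 le_rfl
      have hV : Vseq κ ι τ i0 0 = 4 := rfl
      rw [hV]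
      refine ⟨⟨by norm_num, by norm_num, ?_⟩, ?_⟩
      · have h1 : (1 : ℝ) ≤ ((i0 : ℝ) + (0 : ℕ) + 1) ^ 2 := by
          have : (0 : ℝ) ≤ i0 := Nat.cast_nonneg _
          push_cast
          nlinarith
        have h2 : 1 / ((i0 : ℝ) + (0 : ℕ) + 1) ^ 2 ≤ 1 := by
          rw [div_le_one (by linarith)]
          exact h1
        linarith
      · intro L hL1 hL2 s hs
        simp only [Nat.add_zero] at hL1 hL2 hs ⊢
        by_cases h2s : 2 < s
        · rw [hGz L s h2s]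
          exact (Real.exp_pos _).le
        · refine (hW.high L hL1 hL2 s hs).le.trans ?_
          apply Real.exp_le_exp.2
          apply neg_le_neg
          have h3 : s - τ i0 ≤ 4 := by linarith [not_lt.1 h2s]
          calc c1 / 4 * (s - τ i0) ≤ c1 / 4 * 4 := mul_le_mul_of_nonneg_left h3 (by positivity)
            _ = c1 := by ring
    | succ n ih => exact (hstep n ih).2
  have hinc : ∀ n, τ (i0 + n + 1) ≤ τ (i0 + n) + κ * Vseq κ ι τ i0 n := fun n =>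
    (hstep n (hmain n)).1
  have hV0 : ∀ n, 0 ≤ Vseq κ ι τ i0 n := fun n => (hmain n).1.1.le
  obtain ⟨hS1, hS2⟩ := Vseq_summable (d := d) (B := 5 / 2) hκ0 (by linarith) hV0
    (fun i hi => (hτ i hi).2.1) (fun i hi => (hτ i hi).2.2) hinc
  obtain ⟨L2, hL2⟩ := hT (c1 + 1)
  have hV2 : ∀ᶠ n in atTop, Vseq κ ι τ i0 n < 2 :=
    hS1.tendsto_atTop_zero.eventually (gt_mem_nhds two_pos)
  obtain ⟨n1, hn1⟩ := eventually_atTop.1 hV2
  refine ⟨c1, hc2, A, by omega, max (i0 + n1) L2, fun i => Vseq κ ι τ i0 (i - i0), τ, Lx,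
    fun i => hV0 _, ?_, ?_, ?_⟩
  · have h1 : Summable (fun n => Vseq κ ι τ i0 ((n + i0) - i0)) := by
      simpa using hS1
    exact (summable_nat_add_iff (f := fun i => Vseq κ ι τ i0 (i - i0)) i0).1 h1
  · have h1 : Summable (fun n => |τ (n + i0 + 1) - τ (n + i0)|) := by
      refine hS2.congr ?_
      intro n
      have e : i0 + n = n + i0 := by omega
      rw [e]
    exact (summable_nat_add_iff (f := fun i => |τ (i + 1) - τ i|) i0).1 h1
  · intro i hi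
    have hi1 : i0 + n1 ≤ i := (le_max_left _ _).trans hi
    have hi2 : L2 ≤ i := (le_max_right _ _).trans hi
    obtain ⟨n, rfl⟩ : ∃ n, i = i0 + n := ⟨i - i0, by omega⟩
    have hn : n1 ≤ n := by omega
    obtain ⟨hW, hlo, hup⟩ := hτ (i0 + n) (by omega)
    obtain ⟨⟨hVa, hVb, hVc⟩, hH⟩ := hmain n
    have e : i0 + n - i0 = n := by omega
    simp only [e]
    refine ⟨hW.mem, ⟨?_, (hn1 n hn).le⟩, ⟨hlo, ?_⟩, hW.low, ?_⟩
    · push_cast
      exact hVc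
    · by_contra hcon
      have h1 := hW.low d (not_le.1 hcon)
      have h2 := hL2 (Lx (i0 + n)) (by
        have := hApow (i0 + n)
        have := hW.mem.1
        omega)
      have h3 : Real.exp (-(c1 + 1)) < Real.exp (-c1) := Real.exp_lt_exp.2 (by linarith)
      linarith
    · intro L hL1 hL2' s hs
      refine (hH L hL1 hL2' s hs).trans (le_of_eq ?_)
      congr 2
      ring

end Pool.Agent.W_7d29a1_F
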