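import Pool.Agent.W_7d29a1_F.Cone
import Pool.Agent.W_7d29a1_F.Boot
import Pool.Agent.W_7d29a1_F.Wind
import Pool.Agent.W_7d29a1_F.Ust

/-!
THEOREM F: definitions for the interfaces of the sections.
-/

namespace Pool.Agent.W_7d29a1_F

open MeasureTheory ProbabilityTheory Filter Topology

noncomputable section

/-- `G L σ = E F_L(v2 + σ) ^ θ_L`, `θ_L = 1 / B L` (it is `exp (- a_L(σ))` in the paper). -/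
def G (μ : Measure ℝ) (s v2 : ℝ) (B : ℕ → ℝ) (L : ℕ) (σ : ℝ) : ℝ :=
  ∫ η, Fv μ s η 0 L (v2 + σ) ^ (1 / B L) ∂(law μ)

/-- The result of the lemma on windows: the profile of window `i` has edge `τ i` and width `U i`. -/
structure Wd (G : ℕ → ℝ → ℝ) (d c1 : ℝ) (A i1 : ℕ) (U τ : ℕ → ℝ) (Lx : ℕ → ℕ) : Prop where
  c1ge : 2 ≤ c1
  U0 : ∀ i, 0 ≤ U i
  A2 : 2 ≤ A
  Lge : ∀ i ≥ i1, A ^ i ≤ Lx i
  Llt : ∀ i ≥ i1, Lx i < A ^ (i + 1)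
  Uge : ∀ i ≥ i1, 1 / ((i : ℝ) + 1) ^ 2 ≤ U i
  Ule : ∀ i ≥ i1, U i ≤ 2
  Usum : Summable U
  τabs : ∀ i ≥ i1, |τ i| ≤ d
  τsum : Summable fun i => |τ (i + 1) - τ i|
  low : ∀ i ≥ i1, ∀ σ, σ < τ i → Real.exp (-c1) ≤ G (Lx i) σ
  high : ∀ i ≥ i1, ∀ L : ℕ, A ^ i ≤ L → L < A ^ (i + 1) → ∀ σ, τ i < σ →
    G L σ ≤ Real.exp (-(c1 * (σ - τ i) / U i))

/-- The tube around the segment from `0` to `(T, z)`. -/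
def tube (T : ℕ) (z : ℤ) (r : ℝ) : Set Pt := {p | |(p.2 : ℝ) - z / T * p.1| ≤ r}

/-- Cheap tubes near the right edge of the flat piece. -/
structure Tubes (μ : Measure ℝ) (s v1 v2 : ℝ) (B : ℕ → ℝ) (A i1 : ℕ) (p C : ℝ) (T : ℕ → ℕ)
    (z : ℕ → ℤ) (w : ℕ → ℝ) : Prop where
  A2 : 2 ≤ A
  p0 : 0 < p
  Tge : ∀ i ≥ i1, A ^ i ≤ T i
  Tle : ∀ i ≥ i1, T i ≤ 2 * A ^ (i + 1)
  z0 : ∀ i ≥ i1, 0 ≤ z i ∧ z i ≤ T i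
  dir : ∀ i ≥ i1, |(z i : ℝ) - v2 * T i| ≤ 2 * dd v1 v2 * T i
  wge : ∀ i ≥ i1, 1 / ((i : ℝ) + 1) ^ 2 ≤ w i
  wle : ∀ i ≥ i1, w i ≤ 1
  wlim : Tendsto w atTop (𝓝 0)
  wsum : ∀ ε : ℝ, 0 < ε → ∃ Cε : ℝ, ∀ I : ℕ, 1 ≤ I →
    ∑ i ∈ Finset.Ico i1 I, w i * Real.log (2 / w i) ≤ ε * Real.log I + Cε
  good : ∀ i ≥ i1, p ≤ (law μ).real {η | Real.exp (-(C * B (T i))) ≤
    WR μ s (tube (T i) (z i) (w i * T i)) η 0 (T i) (z i)}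

/-- The data of the growth inequality. -/
structure Gd (nu de : ℕ → ℝ) (l : ℕ → ℕ) (C : ℝ) : Prop where
  nu0 : ∀ x, 0 ≤ nu x
  de0 : ∀ x, 0 ≤ de x
  nul : Tendsto nu atTop (𝓝 0)
  del : Tendsto de atTop (𝓝 0)
  hl : ∀ x, nu x * 2 ^ l x ≤ C
  sum : ∀ ε : ℝ, 0 < ε → ∃ Cε : ℝ, ∀ X : ℕ, 1 ≤ X →
    ∑ x ∈ Finset.range (X + 1), (nu x + de x) ≤ ε * Real.log X + Cε

end

end Pool.Agent.W_7d29a1_F
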