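import Pool.Agent.W_7d29a1_F.LuckD

/-!
Section 2 (2b)(iii): restart at the first end level where a luck is at least `Y`.
-/

namespace Pool.Agent.W_7d29a1_F

open MeasureTheory ProbabilityTheory Filter Topology

noncomputable section

/-- The largest one step luck from the row `t`, `-H ≤ x ≤ 2 H` (at least `0`). -/
def Os (μ : Measure ℝ) (s : ℝ) (η : Env) (H : ℕ) (t : ℤ) : ℝ :=
  (Finset.Icc (-(H : ℤ)) (2 * H)).sup' ⟨0, by rw [Finset.mem_Icc]; omega⟩ fun x => max (V μ s η (t, x) 1) 0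

variable {μ : Measure ℝ} {s v1 v2 : ℝ}

/-- ` Fi ` for the largest luck. -/
def Hit (μ : Measure ℝ) (s : ℝ) (η : Env) (H : ℕ) (Y : ℝ) (q : (ℕ × ℤ) × ℕ) : Prop :=
  Fi (Box H) rB (fun q => Y ≤ V μ s η ((q.1.1 : ℤ), q.1.2) q.2) q

private theorem mem_Box {H : ℕ} {q : (ℕ × ℤ) × ℕ} :
    q ∈ Box H ↔ q.1.1 + q.2 ≤ H ∧ -(H : ℤ) ≤ q.1.2 ∧ q.1.2 ≤ H := by
  unfold Box
  rw [Finset.mem_filter, Finset.mem_product, Finset.mem_product, Finset.mem_range, Finset.mem_range, Finset.mem_Icc]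
  omega

private theorem V_le_Os (η : Env) {H : ℕ} {t x : ℤ} (h1 : -(H : ℤ) ≤ x) (h2 : x ≤ 2 * H) :
    V μ s η (t, x) 1 ≤ Os μ s η H t := by
  refine (le_max_left _ 0).trans ?_
  exact Finset.le_sup' (f := fun x => max (V μ s η (t, x) 1) 0) (Finset.mem_Icc.2 ⟨h1, h2⟩)

private theorem Os_nonneg (η : Env) (H : ℕ) (t : ℤ) : 0 ≤ Os μ s η H t := by
  refine (le_max_right (V μ s η (t, 0) 1) 0).trans ?_
  exact Finset.le_sup' (f := fun x => max (V μ s η (t, x) 1) 0) (Finset.mem_Icc.2 ⟨by omega, by omega⟩)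

private theorem V_le_Mx (η : Env) {H : ℕ} {q : (ℕ × ℤ) × ℕ} (hq : q ∈ Box H) :
    V μ s η ((q.1.1 : ℤ), q.1.2) q.2 ≤ Mx μ s η H :=
  Finset.le_sup' (f := fun q : (ℕ × ℤ) × ℕ => V μ s η ((q.1.1 : ℤ), q.1.2) q.2) hq

private theorem Mx_nonneg (η : Env) (H : ℕ) : 0 ≤ Mx μ s η H := by
  have h := V_le_Mx (μ := μ) (s := s) η (H := H) (q := ((0, 0), 0)) (mem_Box.2 ⟨by simp, by simp, by simp⟩)
  rwa [V_zero] at h

/-- Deterministic. PROOF. For all `q' = ((t, x), j) ∈ Box H`, `l` = the end level of `q`: `t + j < l`: `V < Y` (`rB_lt`);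
`t + j = l`: `j = 0`: `V_zero`; `j = i + 1`: `V_add_le` with `m = i`, `n = 1`; `l < t + j`: `l ≤ t`: it is one of the values in
`Mx (sh (l, 0) η)` or `Mx (sh (l, H) η)` (`V_sh`, `Finset.le_sup'`); `t < l`: `V_add_le` with `m = l - t`. -/
theorem Mx_le_of_Hit (η : Env) {H : ℕ} {Y : ℝ} (hY : 0 < Y) {q : (ℕ × ℤ) × ℕ} (hq : q ∈ Box H) (h : Hit μ s η H Y q) :
    1 ≤ q.1.1 + q.2 ∧ Mx μ s η H ≤ Y + Os μ s η H ((q.1.1 + q.2 : ℕ) - 1) +
      max (Mx μ s (sh (((q.1.1 + q.2 : ℕ) : ℤ), 0) η) H) (Mx μ s (sh (((q.1.1 + q.2 : ℕ) : ℤ), (H : ℤ)) η) H) := by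
  have hq' := mem_Box.1 hq
  obtain ⟨l, hl⟩ : ∃ l, l = q.1.1 + q.2 := ⟨_, rfl⟩
  have hl1 : 1 ≤ l := by
    by_contra hcon
    have h1 : q.2 = 0 := by omega
    have h2 := h.1
    have h3 : Y ≤ V μ s η ((q.1.1 : ℤ), q.1.2) q.2 := h2
    rw [h1, V_zero] at h3
    linarith
  rw [← hl]
  refine ⟨hl1, ?_⟩
  obtain ⟨O, hO⟩ : ∃ O, O = Os μ s η H ((l : ℤ) - 1) := ⟨_, rfl⟩
  obtain ⟨M', hM'⟩ : ∃ M', M' = max (Mx μ s (sh ((l : ℤ), 0) η) H) (Mx μ s (sh ((l : ℤ), (H : ℤ)) η) H) := ⟨_, rfl⟩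
  rw [← hO, ← hM']
  have hO0 : 0 ≤ O := by rw [hO]; exact Os_nonneg _ _ _
  have hM0 : 0 ≤ M' := by rw [hM']; exact (Mx_nonneg _ _).trans (le_max_left _ _)
  -- the lucks which end before the level `l`
  have hlow : ∀ q' ∈ Box H, q'.1.1 + q'.2 < l → V μ s η ((q'.1.1 : ℤ), q'.1.2) q'.2 < Y := by
    intro q' hq' hlt
    have h1 := h.2 q' hq' (rB_lt (by omega))
    exact not_le.1 h1
  -- the lucks which end at the level `l` or before
  have hA : ∀ (t : ℕ) (x : ℤ) (j : ℕ), ((t, x), j) ∈ Box H → t + j ≤ l → V μ s η ((t : ℤ), x) j ≤ Y + O := by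
    intro t x j hm hle
    have hm' := mem_Box.1 hm
    simp only at hm'
    rcases hle.lt_or_eq with h1 | h1
    · have h2 := hlow ((t, x), j) hm h1
      simp only at h2
      linarith
    · cases j with
      | zero =>
        rw [V_zero]
        linarith
      | succ i =>
        have h2 := hlow ((t, x), i) (mem_Box.2 ⟨by simp only; omega, hm'.2.1, hm'.2.2⟩) (by simp only; omega)
        simp only at h2
        have h3 := V_add_le (μ := μ) (s := s) η ((t : ℤ), x) i 1 (c := O) (fun k hk0 hk1 => by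
          rw [hO]
          have e1 : (((t : ℤ), x) : Pt).1 + (i : ℤ) = (l : ℤ) - 1 := by
            show (t : ℤ) + i = l - 1
            omega
          rw [e1]
          refine V_le_Os η ?_ ?_
          · show -(H : ℤ) ≤ x + k
            omega
          · show x + k ≤ 2 * (H : ℤ)
            omega)
        linarith
  -- the lucks which start at the level `l` or later
  have hB : ∀ (t : ℕ) (x : ℤ) (j : ℕ), l ≤ t → t + j ≤ H → -(H : ℤ) ≤ x → x ≤ 2 * H → V μ s η ((t : ℤ), x) j ≤ M' := by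
    intro t x j h1 h2 h3 h4
    rw [hM']
    rcases le_or_gt x (H : ℤ) with h5 | h5
    · refine le_trans ?_ (le_max_left _ _)
      have h6 := V_le_Mx (μ := μ) (s := s) (sh ((l : ℤ), 0) η) (H := H) (q := ((t - l, x), j))
        (mem_Box.2 ⟨by simp only; omega, h3, h5⟩)
      rw [V_sh] at h6
      have e1 : ((((t - l : ℕ) : ℤ), x) + ((l : ℤ), 0) : Pt) = ((t : ℤ), x) := by
        refine Prod.ext ?_ ?_
        · show ((t - l : ℕ) : ℤ) + l = t
          omega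
        · show x + 0 = x
          ring
      simp only at h6
      rwa [e1] at h6
    · refine le_trans ?_ (le_max_right _ _)
      have h6 := V_le_Mx (μ := μ) (s := s) (sh ((l : ℤ), (H : ℤ)) η) (H := H) (q := ((t - l, x - H), j))
        (mem_Box.2 ⟨by simp only; omega, by simp only; omega, by simp only; omega⟩)
      rw [V_sh] at h6
      have e1 : ((((t - l : ℕ) : ℤ), x - H) + ((l : ℤ), (H : ℤ)) : Pt) = ((t : ℤ), x) := by
        refine Prod.ext ?_ ?_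
        · show ((t - l : ℕ) : ℤ) + l = t
          omega
        · show x - H + H = x
          ring
      simp only at h6
      rwa [e1] at h6
  unfold Mx
  refine Finset.sup'_le _ _ fun q' hq' => ?_
  obtain ⟨⟨t, x⟩, j⟩ := q'
  have hm' := mem_Box.1 hq'
  simp only at hm' ⊢
  rcases le_or_gt (t + j) l with h1 | h1
  · have h2 := hA t x j hq' h1
    linarith
  · rcases le_or_gt l t with h2 | h2
    · have h3 := hB t x j h2 hm'.1 hm'.2.1 (by omega)
      linarith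
    · obtain ⟨m, hm⟩ : ∃ m, l = t + m := ⟨l - t, by omega⟩
      obtain ⟨n, hn⟩ : ∃ n, j = m + n := ⟨j - m, by omega⟩
      have h3 := hA t x m (mem_Box.2 ⟨by simp only; omega, hm'.2.1, hm'.2.2⟩) (by omega)
      have h4 := V_add_le (μ := μ) (s := s) η ((t : ℤ), x) m n (c := M') (fun k hk0 hk1 => by
        have e1 : (((t : ℤ), x) : Pt).1 + (m : ℤ) = ((l : ℕ) : ℤ) := by
          show (t : ℤ) + m = l
          omega
        rw [e1]
        refine hB l (x + k) n le_rfl (by omega) ?_ ?_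
        · show -(H : ℤ) ≤ x + k
          omega
        · show x + k ≤ 2 * (H : ℤ)
          omega)
      rw [hn]
      linarith

theorem Mx_lt_of_not (η : Env) {H : ℕ} {Y : ℝ} (h : ¬ ∃ q ∈ Box H, Y ≤ V μ s η ((q.1.1 : ℤ), q.1.2) q.2) :
    Mx μ s η H < Y := by
  unfold Mx
  rw [Finset.sup'_lt_iff]
  intro q hq
  by_contra hcon
  exact h ⟨q, hq, not_lt.1 hcon⟩

private theorem meas_V (a : Pt) (n : ℕ) (Y : ℝ) : MeasurableSet {η | Y ≤ V μ s η a n} :=
  measurableSet_le measurable_const (measurable_V _ _)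

private theorem meas_Hit {H : ℕ} {Y : ℝ} {q : (ℕ × ℤ) × ℕ} (hq : q ∈ Box H) : MeasurableSet {η | Hit μ s η H Y q} :=
  meas_Fi (Box H) rB (fun _ _ => meas_V _ _ Y) hq

private theorem Sub_Os (H : ℕ) (t : ℤ) : Sub fun η => Os μ s η H t := by
  unfold Os
  exact Sub.sup' _ _ fun x _ => (Sub_V _ _).max (Sub.const 0)

private theorem exists_Hit (η : Env) {H : ℕ} {Y : ℝ} (h : ∃ q ∈ Box H, Y ≤ V μ s η ((q.1.1 : ℤ), q.1.2) q.2) :
    ∃ q ∈ Box H, Hit μ s η H Y q := by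
  by_contra hcon
  push Not at hcon
  have h1 := sum_Fi (Box H) rB_inj (fun q : (ℕ × ℤ) × ℕ => Y ≤ V μ s η ((q.1.1 : ℤ), q.1.2) q.2)
  have h2 : ∑ i ∈ Box H, io (Hit μ s η H Y i) = 0 := Finset.sum_eq_zero fun q hq => io_not (hcon q hq)
  have h3 : ∑ i ∈ Box H, io (Fi (Box H) rB (fun q : (ℕ × ℤ) × ℕ => Y ≤ V μ s η ((q.1.1 : ℤ), q.1.2) q.2) i) = 0 := h2
  rw [io_of h, h3] at h1
  exact zero_ne_one h1

private theorem exp_Mx_le (η : Env) {H : ℕ} {Y θ : ℝ} (hY : 0 < Y) (hθ : 0 ≤ θ) :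
    Real.exp (θ * Mx μ s η H) ≤ Real.exp (θ * Y) * (1 + ∑ q ∈ Box H,
      (io (Hit μ s η H Y q) * Real.exp (θ * Os μ s η H ((q.1.1 + q.2 : ℕ) - 1))) *
        (Real.exp (θ * Mx μ s (sh (((q.1.1 + q.2 : ℕ) : ℤ), 0) η) H) +
          Real.exp (θ * Mx μ s (sh (((q.1.1 + q.2 : ℕ) : ℤ), (H : ℤ)) η) H))) := by
  have hnn : ∀ q ∈ Box H, 0 ≤ (io (Hit μ s η H Y q) * Real.exp (θ * Os μ s η H ((q.1.1 + q.2 : ℕ) - 1))) *
        (Real.exp (θ * Mx μ s (sh (((q.1.1 + q.2 : ℕ) : ℤ), 0) η) H) +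
          Real.exp (θ * Mx μ s (sh (((q.1.1 + q.2 : ℕ) : ℤ), (H : ℤ)) η) H)) := fun q _ => by
    have := io_nonneg (Hit μ s η H Y q)
    positivity
  by_cases h : ∃ q ∈ Box H, Y ≤ V μ s η ((q.1.1 : ℤ), q.1.2) q.2
  · obtain ⟨q, hq, hHit⟩ := exists_Hit η h
    have h1 := (Mx_le_of_Hit η hY hq hHit).2
    have h2 := Finset.single_le_sum hnn hq
    rw [io_of hHit, one_mul] at h2
    obtain ⟨O, hO⟩ : ∃ O, O = Os μ s η H ((q.1.1 + q.2 : ℕ) - 1) := ⟨_, rfl⟩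
    obtain ⟨m1, hm1⟩ : ∃ m, m = Mx μ s (sh (((q.1.1 + q.2 : ℕ) : ℤ), 0) η) H := ⟨_, rfl⟩
    obtain ⟨m2, hm2⟩ : ∃ m, m = Mx μ s (sh (((q.1.1 + q.2 : ℕ) : ℤ), (H : ℤ)) η) H := ⟨_, rfl⟩
    rw [← hO, ← hm1, ← hm2] at h1 h2
    have h3 : Real.exp (θ * Mx μ s η H) ≤ Real.exp (θ * Y) * (Real.exp (θ * O) * (Real.exp (θ * m1) + Real.exp (θ * m2))) := by
      have h4 : Real.exp (θ * max m1 m2) ≤ Real.exp (θ * m1) + Real.exp (θ * m2) := by
        rcases max_cases m1 m2 with ⟨e, -⟩ | ⟨e, -⟩ <;> rw [e]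
        · linarith [Real.exp_pos (θ * m2)]
        · linarith [Real.exp_pos (θ * m1)]
      have h5 : Real.exp (θ * Mx μ s η H) ≤ Real.exp (θ * Y) * (Real.exp (θ * O) * Real.exp (θ * max m1 m2)) := by
        rw [← Real.exp_add, ← Real.exp_add]
        refine Real.exp_le_exp.2 ?_
        have := mul_le_mul_of_nonneg_left h1 hθ
        linarith
      refine h5.trans ?_
      exact mul_le_mul_of_nonneg_left (mul_le_mul_of_nonneg_left h4 (Real.exp_pos _).le) (Real.exp_pos _).le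
    refine h3.trans (mul_le_mul_of_nonneg_left ?_ (Real.exp_pos _).le)
    linarith
  · have h1 := Mx_lt_of_not η h
    have h2 : Real.exp (θ * Mx μ s η H) ≤ Real.exp (θ * Y) := Real.exp_le_exp.2 (mul_le_mul_of_nonneg_left h1.le hθ)
    refine h2.trans ?_
    have h3 := Finset.sum_nonneg hnn
    have h4 := Real.exp_pos (θ * Y)
    nlinarith

variable [IsProbabilityMeasure μ]

omit [IsProbabilityMeasure μ] in
private theorem io_mul_int {p : Env → Prop} (hp : MeasurableSet {η | p η}) {g : Env → ℝ} (hg : Integrable g (law μ)) :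
    Integrable (fun η => io (p η) * g η) (law μ) := by
  refine hg.mono ((measurable_io hp).aestronglyMeasurable.mul hg.aestronglyMeasurable) (Filter.Eventually.of_forall fun η => ?_)
  rw [norm_mul, Real.norm_eq_abs, abs_of_nonneg (io_nonneg _)]
  have h1 := io_le_one (p η)
  have h2 := norm_nonneg (g η)
  nlinarith

/-- (iii). PROOF. `exp (θ Mx) ≤ exp (θ Y) (1 + ∑_q io (Hit q) exp (θ Os) (exp (θ Mx (sh (l, 0) η)) + exp (θ Mx (sh (l, H) η))))`
(`Mx_le_of_Hit`, `Mx_lt_of_not`, `sum_Fi`); integrate: `io (Hit q) exp (θ Os)` depends on `rows 0 l`, `Mx (sh (l, c) η)` on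
`rows l (l + H)`; `integral_indep`, `integral_exp_Mx_sh`; integrability: `Sub.exp_int` (products: `Sub.add`; the indicator is
bounded by `1`). -/
theorem restart (S : Setup μ s v1 v2) {H : ℕ} {Y θ : ℝ} (hY : 0 < Y) (hθ : 0 ≤ θ) :
    ∫ η, Real.exp (θ * Mx μ s η H) ∂(law μ) ≤ Real.exp (θ * Y) * (1 + 2 *
      (∫ η, ∑ q ∈ Box H, io (Hit μ s η H Y q) * Real.exp (θ * Os μ s η H ((q.1.1 + q.2 : ℕ) - 1)) ∂(law μ)) *
        ∫ η, Real.exp (θ * Mx μ s η H) ∂(law μ)) := by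
  have hEM := S.em
  obtain ⟨I, hI⟩ : ∃ I : ℝ, I = ∫ η, Real.exp (θ * Mx μ s η H) ∂(law μ) := ⟨_, rfl⟩
  obtain ⟨A, hA⟩ : ∃ A : (ℕ × ℤ) × ℕ → Env → ℝ, A = fun q η =>
    io (Hit μ s η H Y q) * Real.exp (θ * Os μ s η H ((q.1.1 + q.2 : ℕ) - 1)) := ⟨_, rfl⟩
  obtain ⟨Bq, hBq⟩ : ∃ Bq : (ℕ × ℤ) × ℕ → Env → ℝ, Bq = fun q η =>
    Real.exp (θ * Mx μ s (sh (((q.1.1 + q.2 : ℕ) : ℤ), 0) η) H) +
      Real.exp (θ * Mx μ s (sh (((q.1.1 + q.2 : ℕ) : ℤ), (H : ℤ)) η) H) := ⟨_, rfl⟩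
  have hSO : ∀ q : (ℕ × ℤ) × ℕ, Sub fun η => θ * Os μ s η H ((q.1.1 + q.2 : ℕ) - 1) := fun q => (Sub_Os H _).const_mul θ
  have hSM : ∀ a : Pt, Sub fun η => θ * Mx μ s (sh a η) H := fun a => ((Sub_Mx H).comp_sh a).const_mul θ
  have hAm : ∀ q ∈ Box H, Measurable (A q) := by
    intro q hq
    rw [hA]
    exact (measurable_io (meas_Hit hq)).mul (Real.measurable_exp.comp (hSO q).1)
  have hBm : ∀ q, Measurable (Bq q) := by
    intro q
    rw [hBq]
    exact (Real.measurable_exp.comp (hSM _).1).add (Real.measurable_exp.comp (hSM _).1)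
  have hAi : ∀ q ∈ Box H, Integrable (A q) (law μ) := by
    intro q hq
    rw [hA]
    exact io_mul_int (meas_Hit hq) ((hSO q).exp_int hEM)
  have hABi : ∀ q ∈ Box H, Integrable (fun η => A q η * Bq q η) (law μ) := by
    intro q hq
    have h1 := ((hSO q).add (hSM (((q.1.1 + q.2 : ℕ) : ℤ), 0))).exp_int hEM
    have h2 := ((hSO q).add (hSM (((q.1.1 + q.2 : ℕ) : ℤ), (H : ℤ)))).exp_int hEM
    have h3 := io_mul_int (meas_Hit (μ := μ) (s := s) (Y := Y) hq) (h1.add h2)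
    refine h3.congr (Filter.Eventually.of_forall fun η => ?_)
    rw [hA, hBq]
    simp only [Pi.add_apply, Real.exp_add]
    ring
  -- dependence
  have hAd : ∀ q ∈ Box H, DependsOn (A q) (rows 0 ((q.1.1 + q.2 : ℕ) : ℤ)) := by
    intro q hq
    have hd := dep_Fi (Box H) rB (p := fun q η => Y ≤ V μ s η ((q.1.1 : ℤ), q.1.2) q.2) hq
      (A := rows 0 ((q.1.1 + q.2 : ℕ) : ℤ)) (fun q' hq' hle η η' hη => by
        have h1 := rB_le hle
        have h2 : V μ s η ((q'.1.1 : ℤ), q'.1.2) q'.2 = V μ s η' ((q'.1.1 : ℤ), q'.1.2) q'.2 := by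
          refine V_dep_rows (μ := μ) (s := s) _ _ fun x hx => hη x (rows_mono ?_ ?_ hx)
          · exact Int.natCast_nonneg _
          · show (q'.1.1 : ℤ) + q'.2 ≤ ((q.1.1 + q.2 : ℕ) : ℤ)
            exact_mod_cast h1
        show Y ≤ _ ↔ Y ≤ _
        rw [h2])
    intro η η' hη
    have h1 : io (Hit μ s η H Y q) = io (Hit μ s η' H Y q) := hd hη
    rw [hA]
    show io (Hit μ s η H Y q) * _ = io (Hit μ s η' H Y q) * _
    by_cases hh : Hit μ s η' H Y q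
    · have h2 := (Mx_le_of_Hit η' hY hq hh).1
      have h3 : Os μ s η H ((q.1.1 + q.2 : ℕ) - 1) = Os μ s η' H ((q.1.1 + q.2 : ℕ) - 1) := by
        unfold Os
        refine Finset.sup'_congr _ rfl fun x _ => ?_
        have h4 : V μ s η ((((q.1.1 + q.2 : ℕ) : ℤ) - 1), x) 1 = V μ s η' ((((q.1.1 + q.2 : ℕ) : ℤ) - 1), x) 1 := by
          refine V_dep_rows (μ := μ) (s := s) _ _ fun x hx => hη x (rows_mono ?_ ?_ hx)
          · show (0 : ℤ) ≤ ((q.1.1 + q.2 : ℕ) : ℤ) - 1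
            omega
          · show ((q.1.1 + q.2 : ℕ) : ℤ) - 1 + ((1 : ℕ) : ℤ) ≤ ((q.1.1 + q.2 : ℕ) : ℤ)
            omega
        rw [h4]
      rw [h1, h3]
    · rw [h1, io_not hh, zero_mul, zero_mul]
  have hMd : ∀ (l : ℕ) (c : ℤ), DependsOn (fun η => Mx μ s (sh ((l : ℤ), c) η) H) (rows l (l + H)) := by
    intro l c η η' hη
    show Mx μ s (sh ((l : ℤ), c) η) H = Mx μ s (sh ((l : ℤ), c) η') H
    unfold Mx
    refine Finset.sup'_congr _ rfl fun q hq => ?_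
    have hq' := mem_Box.1 hq
    rw [V_sh, V_sh]
    refine V_dep_rows (μ := μ) (s := s) _ _ fun x hx => hη x (rows_mono ?_ ?_ hx)
    · show (l : ℤ) ≤ (q.1.1 : ℤ) + l
      omega
    · show (q.1.1 : ℤ) + l + q.2 ≤ l + H
      omega
  have hBd : ∀ q, DependsOn (Bq q) (rows ((q.1.1 + q.2 : ℕ) : ℤ) (((q.1.1 + q.2 : ℕ) : ℤ) + H)) := by
    intro q η η' hη
    have h1 := hMd (q.1.1 + q.2) 0 hη
    have h2 := hMd (q.1.1 + q.2) H hη
    simp only at h1 h2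
    rw [hBq]
    show Real.exp _ + Real.exp _ = Real.exp _ + Real.exp _
    rw [h1, h2]
  have hBI : ∀ q, ∫ η, Bq q η ∂(law μ) = 2 * I := by
    intro q
    rw [hBq]
    show ∫ η, (Real.exp _ + Real.exp _) ∂(law μ) = _
    rw [integral_add ((hSM _).exp_int hEM) ((hSM _).exp_int hEM), integral_exp_Mx_sh, integral_exp_Mx_sh, ← hI]
    ring
  have hind : ∀ q ∈ Box H, ∫ η, A q η * Bq q η ∂(law μ) = (∫ η, A q η ∂(law μ)) * (2 * I) := by
    intro q hq
    rw [integral_indep (hAm q hq) (hBm q) (hAd q hq) (hBd q) (rows_disj le_rfl), hBI]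
  have hsum : ∫ η, ∑ q ∈ Box H, A q η ∂(law μ) = ∑ q ∈ Box H, ∫ η, A q η ∂(law μ) := integral_finsetSum _ hAi
  have hgoal : ∫ η, ∑ q ∈ Box H, io (Hit μ s η H Y q) * Real.exp (θ * Os μ s η H ((q.1.1 + q.2 : ℕ) - 1)) ∂(law μ) =
      ∫ η, ∑ q ∈ Box H, A q η ∂(law μ) := by rw [hA]
  rw [hgoal, hsum]
  have hfin : ∫ η, Real.exp (θ * Y) * (1 + ∑ q ∈ Box H, A q η * Bq q η) ∂(law μ) =
      Real.exp (θ * Y) * (1 + 2 * (∑ q ∈ Box H, ∫ η, A q η ∂(law μ)) * I) := by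
    rw [integral_const_mul, integral_add (integrable_const _) (integrable_finsetSum _ hABi), integral_const, probReal_univ,
      one_smul, integral_finsetSum _ hABi, Finset.sum_congr rfl hind, ← Finset.sum_mul]
    ring
  rw [← hI, ← hfin, hI]
  refine integral_mono (((Sub_Mx H).const_mul θ).exp_int hEM) ?_ fun η => ?_
  · exact ((integrable_const _).add (integrable_finsetSum _ hABi)).const_mul _
  · have h1 := exp_Mx_le (μ := μ) (s := s) η (H := H) hY hθ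
    rw [hA, hBq]
    exact h1

private theorem rpow_le_aux {y p : ℝ} (hy : 0 ≤ y) (h0 : 0 ≤ p) (h1 : p ≤ 1) : y ^ p ≤ 1 + y := by
  rcases le_total y 1 with h | h
  · have := Real.rpow_le_one hy h h0
    linarith
  · have := Real.rpow_le_rpow_of_exponent_le h h1
    rw [Real.rpow_one] at this
    linarith

/-- The error of one step. PROOF. `A = 1 + #(..) ∫ exp (V 0 1)`; `O = max_(0 ≤ t ≤ H) Os t`:
`∑_q io (Hit q) exp (θ Os) ≤ io (∃ q, ..) exp (θ O) ≤ 15 io (∃ q, ..) + exp (2 θ O) / 60`, and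
`exp (2 θ O) = (exp O) ^ (2 θ) ≤ A ^ (2 θ) (1 + exp O / A)` (`Real.rpow`, `(x / A) ^ p ≤ 1 + x / A` for `0 ≤ p ≤ 1`),
`exp O ≤ 1 + ∑_(t, x) exp (V (t, x) 1)`, `∫ exp (V (t, x) 1) = ∫ exp (V 0 1)` (`integral_V_fun`). -/
theorem step_err (S : Setup μ s v1 v2) : ∃ A₀ : ℝ, 1 ≤ A₀ ∧ ∀ (H : ℕ), 1 ≤ H → ∀ Y θ : ℝ, 0 < Y → 0 ≤ θ → 2 * θ ≤ 1 →
    ∫ η, ∑ q ∈ Box H, io (Hit μ s η H Y q) * Real.exp (θ * Os μ s η H ((q.1.1 + q.2 : ℕ) - 1)) ∂(law μ) ≤
      15 * ∫ η, io (∃ q ∈ Box H, Y ≤ V μ s η ((q.1.1 : ℤ), q.1.2) q.2) ∂(law μ) +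
        (A₀ * (H : ℝ) ^ 2) ^ (2 * θ) / 30 := by
  have hEM := S.em
  obtain ⟨a1, ha1⟩ : ∃ a1 : ℝ, a1 = ∫ η, Real.exp (V μ s η 0 1) ∂(law μ) := ⟨_, rfl⟩
  have ha10 : 0 ≤ a1 := by rw [ha1]; exact integral_nonneg fun η => (Real.exp_pos _).le
  refine ⟨1 + 4 * a1, by linarith, fun H hH Y θ hY hθ hθ2 => ?_⟩
  have hHr : (1 : ℝ) ≤ H := by exact_mod_cast hH
  have hne : (Finset.range H).Nonempty := ⟨0, Finset.mem_range.2 hH⟩
  obtain ⟨O, hO⟩ : ∃ O : Env → ℝ, O = fun η => (Finset.range H).sup' hne fun t => Os μ s η H (t : ℤ) := ⟨_, rfl⟩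
  have hOS : Sub O := by
    rw [hO]
    exact Sub.sup' _ _ fun t _ => Sub_Os H _
  obtain ⟨A, hA⟩ : ∃ A : ℝ, A = (1 + 4 * a1) * (H : ℝ) ^ 2 := ⟨_, rfl⟩
  have hH2 : (1 : ℝ) ≤ (H : ℝ) ^ 2 := by nlinarith
  have hA1 : 1 ≤ A := by rw [hA]; nlinarith
  have hA0 : 0 < A := by linarith
  -- the exponential of `O`
  have hexpO : ∀ η, Real.exp (O η) ≤ 1 + ∑ t ∈ Finset.range H, ∑ x ∈ Finset.Icc (-(H : ℤ)) (2 * H),
      Real.exp (V μ s η ((t : ℤ), x) 1) := by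
    intro η
    obtain ⟨t, ht, hteq⟩ := Finset.exists_mem_eq_sup' hne fun t : ℕ => Os μ s η H (t : ℤ)
    have h1 : O η = Os μ s η H (t : ℤ) := by rw [hO]; exact hteq
    have hne2 : (Finset.Icc (-(H : ℤ)) (2 * H)).Nonempty := ⟨0, by rw [Finset.mem_Icc]; omega⟩
    obtain ⟨x, hx, hxeq⟩ := Finset.exists_mem_eq_sup' hne2 fun x : ℤ => max (V μ s η ((t : ℤ), x) 1) 0
    have h2 : Os μ s η H (t : ℤ) = max (V μ s η ((t : ℤ), x) 1) 0 := hxeq
    have h3 : Real.exp (V μ s η ((t : ℤ), x) 1) ≤ ∑ t ∈ Finset.range H, ∑ x ∈ Finset.Icc (-(H : ℤ)) (2 * H),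
        Real.exp (V μ s η ((t : ℤ), x) 1) := by
      have h4 : Real.exp (V μ s η ((t : ℤ), x) 1) ≤ ∑ x ∈ Finset.Icc (-(H : ℤ)) (2 * H), Real.exp (V μ s η ((t : ℤ), x) 1) :=
        Finset.single_le_sum (f := fun x : ℤ => Real.exp (V μ s η ((t : ℤ), x) 1)) (fun x _ => (Real.exp_pos _).le) hx
      refine h4.trans ?_
      exact Finset.single_le_sum (f := fun t : ℕ => ∑ x ∈ Finset.Icc (-(H : ℤ)) (2 * H),
        Real.exp (V μ s η ((t : ℤ), x) 1)) (fun t _ => Finset.sum_nonneg fun x _ => (Real.exp_pos _).le) ht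
    rw [h1, h2]
    rcases max_cases (V μ s η ((t : ℤ), x) 1) 0 with ⟨e, -⟩ | ⟨e, -⟩ <;> rw [e]
    · linarith
    · rw [Real.exp_zero]
      have := (Real.exp_pos (V μ s η ((t : ℤ), x) 1)).le
      linarith
  have hVi : ∀ (a : Pt), Integrable (fun η => Real.exp (V μ s η a 1)) (law μ) := fun a => (Sub_V a 1).exp_int hEM
  have hintO : ∫ η, Real.exp (O η) ∂(law μ) ≤ A := by
    have i1 : Integrable (fun η => ∑ t ∈ Finset.range H, ∑ x ∈ Finset.Icc (-(H : ℤ)) (2 * H),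
        Real.exp (V μ s η ((t : ℤ), x) 1)) (law μ) :=
      integrable_finsetSum _ fun t _ => integrable_finsetSum _ fun x _ => hVi _
    have h1 : ∫ η, Real.exp (O η) ∂(law μ) ≤ ∫ η, (1 + ∑ t ∈ Finset.range H, ∑ x ∈ Finset.Icc (-(H : ℤ)) (2 * H),
        Real.exp (V μ s η ((t : ℤ), x) 1)) ∂(law μ) :=
      integral_mono (hOS.exp_int hEM) ((integrable_const _).add i1) hexpO
    refine h1.trans ?_
    rw [integral_add (integrable_const _) i1, integral_const, probReal_univ, one_smul,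
      integral_finsetSum _ fun t _ => integrable_finsetSum _ fun x _ => hVi _]
    have h2 : ∀ t ∈ Finset.range H, ∫ η, ∑ x ∈ Finset.Icc (-(H : ℤ)) (2 * H), Real.exp (V μ s η ((t : ℤ), x) 1) ∂(law μ) ≤
        4 * H * a1 := by
      intro t _
      rw [integral_finsetSum _ fun x _ => hVi _]
      have h3 : ∀ x ∈ Finset.Icc (-(H : ℤ)) (2 * H), ∫ η, Real.exp (V μ s η ((t : ℤ), x) 1) ∂(law μ) = a1 := by
        intro x _
        rw [ha1]
        exact integral_V_fun Real.measurable_exp _ _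
      rw [Finset.sum_congr rfl h3, Finset.sum_const, Int.card_Icc, nsmul_eq_mul]
      have h4 : (((2 * (H : ℤ) + 1 - -(H : ℤ)).toNat : ℕ) : ℝ) ≤ 4 * H := by
        have e1 : (2 * (H : ℤ) + 1 - -(H : ℤ)).toNat = 3 * H + 1 := by omega
        rw [e1]
        push_cast
        linarith
      exact mul_le_mul_of_nonneg_right h4 ha10
    have h5 := Finset.sum_le_sum h2
    rw [Finset.sum_const, Finset.card_range, nsmul_eq_mul] at h5
    rw [hA]
    nlinarith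
  -- pointwise
  obtain ⟨J, hJ⟩ : ∃ J : Env → ℝ, J = fun η => io (∃ q ∈ Box H, Y ≤ V μ s η ((q.1.1 : ℤ), q.1.2) q.2) := ⟨_, rfl⟩
  have hJm : MeasurableSet {η | ∃ q ∈ Box H, Y ≤ V μ s η ((q.1.1 : ℤ), q.1.2) q.2} := by
    have e : {η | ∃ q ∈ Box H, Y ≤ V μ s η ((q.1.1 : ℤ), q.1.2) q.2} =
        ⋃ q ∈ Box H, {η | Y ≤ V μ s η ((q.1.1 : ℤ), q.1.2) q.2} := by
      ext η
      simp only [Set.mem_ofPred_eq, Set.mem_iUnion, exists_prop]
    rw [e]
    exact Finset.measurableSet_biUnion _ fun q _ => meas_V _ _ Y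
  have hJi : Integrable J (law μ) := by
    rw [hJ]
    have := io_mul_int (μ := μ) hJm (integrable_const (1 : ℝ))
    simpa using this
  have hpt : ∀ η, ∑ q ∈ Box H, io (Hit μ s η H Y q) * Real.exp (θ * Os μ s η H ((q.1.1 + q.2 : ℕ) - 1)) ≤
      15 * J η + A ^ (2 * θ) * (1 + Real.exp (O η) / A) / 60 := by
    intro η
    have h1 : ∑ q ∈ Box H, io (Hit μ s η H Y q) * Real.exp (θ * Os μ s η H ((q.1.1 + q.2 : ℕ) - 1)) ≤
        J η * Real.exp (θ * O η) := by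
      have h2 : ∀ q ∈ Box H, io (Hit μ s η H Y q) * Real.exp (θ * Os μ s η H ((q.1.1 + q.2 : ℕ) - 1)) ≤
          io (Hit μ s η H Y q) * Real.exp (θ * O η) := by
        intro q hq
        by_cases hh : Hit μ s η H Y q
        · refine mul_le_mul_of_nonneg_left (Real.exp_le_exp.2 (mul_le_mul_of_nonneg_left ?_ hθ)) (io_nonneg _)
          have h3 := (Mx_le_of_Hit η hY hq hh).1
          have h4 := (mem_Box.1 hq).1
          have h5 : q.1.1 + q.2 - 1 ∈ Finset.range H := Finset.mem_range.2 (by omega)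
          have h6 := Finset.le_sup' (f := fun t : ℕ => Os μ s η H (t : ℤ)) h5
          have e1 : (((q.1.1 + q.2 - 1 : ℕ) : ℤ)) = ((q.1.1 + q.2 : ℕ) : ℤ) - 1 := by omega
          simp only [e1] at h6
          rw [hO]
          exact h6
        · rw [io_not hh, zero_mul, zero_mul]
      refine (Finset.sum_le_sum h2).trans (le_of_eq ?_)
      rw [← Finset.sum_mul]
      congr 1
      rw [hJ]
      exact sum_Fi (Box H) rB_inj fun q : (ℕ × ℤ) × ℕ => Y ≤ V μ s η ((q.1.1 : ℤ), q.1.2) q.2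
    refine h1.trans ?_
    have hJ0 : 0 ≤ J η := by rw [hJ]; exact io_nonneg _
    have hJ1 : J η ≤ 1 := by rw [hJ]; exact io_le_one _
    obtain ⟨z, hz⟩ : ∃ z, z = Real.exp (θ * O η) := ⟨_, rfl⟩
    have hz2 : z ^ 2 ≤ A ^ (2 * θ) * (1 + Real.exp (O η) / A) := by
      have e1 : z ^ 2 = Real.exp (O η) ^ (2 * θ) := by
        rw [hz, ← Real.exp_nat_mul, ← Real.exp_mul]
        congr 1
        push_cast
        ring
      have e2 : Real.exp (O η) = A * (Real.exp (O η) / A) := by field_simp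
      have e3 : 0 ≤ Real.exp (O η) / A := by positivity
      rw [e1]
      conv_lhs => rw [e2]
      rw [Real.mul_rpow hA0.le e3]
      exact mul_le_mul_of_nonneg_left (rpow_le_aux e3 (by linarith) hθ2) (Real.rpow_nonneg hA0.le _)
    rw [← hz]
    have h7 : z ≤ 15 + z ^ 2 / 60 := by nlinarith [sq_nonneg (z - 30)]
    have h8 : J η * z ≤ J η * (15 + z ^ 2 / 60) := mul_le_mul_of_nonneg_left h7 hJ0
    have h9 : J η * (z ^ 2 / 60) ≤ z ^ 2 / 60 := by
      have : 0 ≤ z ^ 2 / 60 := by positivity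
      nlinarith
    linarith
  have hint1 : Integrable (fun η => 15 * J η) (law μ) := hJi.const_mul 15
  have hint2 : Integrable (fun η => A ^ (2 * θ) * (1 + Real.exp (O η) / A) / 60) (law μ) :=
    ((((integrable_const (1 : ℝ)).add ((hOS.exp_int hEM).div_const A)).const_mul _).div_const 60)
  have hmain : ∫ η, ∑ q ∈ Box H, io (Hit μ s η H Y q) * Real.exp (θ * Os μ s η H ((q.1.1 + q.2 : ℕ) - 1)) ∂(law μ) ≤
      ∫ η, (15 * J η + A ^ (2 * θ) * (1 + Real.exp (O η) / A) / 60) ∂(law μ) := by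
    refine integral_mono ?_ (hint1.add hint2) hpt
    refine integrable_finsetSum _ fun q hq => ?_
    exact io_mul_int (meas_Hit hq) (((Sub_Os H _).const_mul θ).exp_int hEM)
  refine hmain.trans ?_
  rw [integral_add hint1 hint2, integral_const_mul, integral_div, integral_const_mul,
    integral_add (integrable_const _) ((hOS.exp_int hEM).div_const A), integral_const, probReal_univ, one_smul, integral_div]
  have h1 : (∫ η, Real.exp (O η) ∂(law μ)) / A ≤ 1 := by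
    rw [div_le_one hA0]
    exact hintO
  have h2 : 0 ≤ A ^ (2 * θ) := Real.rpow_nonneg hA0.le _
  rw [hJ, ← hA]
  have h3 := mul_le_mul_of_nonneg_left h1 h2
  linarith

end

end Pool.Agent.W_7d29a1_F
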