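import Pool.Agent.W_7d29a1_F.Plant
import Pool.Agent.W_7d29a1_F.LuckE

/-! Section 2: exponential moments of the luck. -/

namespace Pool.Agent.W_7d29a1_F

open MeasureTheory ProbabilityTheory Filter Topology

variable {μ : Measure ℝ} [IsProbabilityMeasure μ] {s v1 v2 : ℝ}

theorem luck (S : Setup μ s v1 v2) : ∃ (q : ℝ) (C2 n0 : ℕ), 1 ≤ q ∧ 1 ≤ C2 ∧ ∀ H : ℕ, n0 ≤ H →
    ∀ θ : ℝ, 0 ≤ θ → θ * (q * E μ s v1 v2 (C2 * H)) ≤ 1 →
      ∫ η, Real.exp (θ * Mx μ s η H) ∂(law μ) ≤ Real.exp 1 := by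
  obtain ⟨Ca, hCa, ha⟩ := VT_hit S
  obtain ⟨Cb, hCb, hb⟩ := Mx_hit S
  obtain ⟨A₀, hA₀, herr⟩ := step_err S
  obtain ⟨c, hc, hlog⟩ := log_le_E S
  obtain ⟨C2, hC2⟩ : ∃ C2 : ℕ, C2 = max Ca Cb := ⟨_, rfl⟩
  have hC2a : Ca ≤ C2 := by rw [hC2]; exact le_max_left _ _
  have hC2b : Cb ≤ C2 := by rw [hC2]; exact le_max_right _ _
  have hC21 : 1 ≤ C2 := hCa.trans hC2a
  have hlA : 0 ≤ Real.log A₀ := Real.log_nonneg hA₀
  obtain ⟨q, hq⟩ : ∃ q : ℝ, q = 24000 + 2 * (Real.log A₀ + 2 / c) := ⟨_, rfl⟩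
  have h2c : 0 < 2 / c := by positivity
  have hq1 : 24000 ≤ q := by rw [hq]; linarith
  refine ⟨q, C2, 1, by linarith, hC21, fun H hH θ hθ hθq => ?_⟩
  obtain ⟨E0, hE0⟩ : ∃ E0 : ℝ, E0 = E μ s v1 v2 (C2 * H) := ⟨_, rfl⟩
  have hE1 : 1 ≤ E0 := by rw [hE0]; exact one_le_E S _
  have hEa : E μ s v1 v2 (Ca * H) ≤ E0 := by rw [hE0]; exact E_mono S (Nat.mul_le_mul_right H hC2a)
  have hEb : E μ s v1 v2 (Cb * H) ≤ E0 := by rw [hE0]; exact E_mono S (Nat.mul_le_mul_right H hC2b)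
  rw [← hE0] at hθq
  have hθE : θ * E0 * q ≤ 1 := by linarith
  have hθE0 : 0 ≤ θ * E0 := mul_nonneg hθ (by linarith)
  have hθ1 : θ ≤ θ * E0 := le_mul_of_one_le_right hθ hE1
  have hθE1 : θ * E0 * 24000 ≤ 1 := (mul_le_mul_of_nonneg_left hq1 hθE0).trans hθE
  obtain ⟨Y, hY⟩ : ∃ Y : ℝ, Y = 1200 * E0 := ⟨_, rfl⟩
  have hY0 : 0 < Y := by rw [hY]; linarith
  -- the probability of a hit
  have h1 := ha H hH Y hY0
  have h2 := hb H hH Y (by rw [hY]; linarith)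
  obtain ⟨P1, hP1⟩ : ∃ P1 : ℝ, P1 = ∫ η, io (∃ w ∈ Bw H, Y ≤ V μ s η ((w.1 : ℤ), w.2) (2 * H - w.1)) ∂(law μ) := ⟨_, rfl⟩
  obtain ⟨P2, hP2⟩ : ∃ P2 : ℝ, P2 = ∫ η, io (∃ q ∈ Box H, 2 * Y ≤ V μ s η ((q.1.1 : ℤ), q.1.2) q.2) ∂(law μ) := ⟨_, rfl⟩
  rw [← hP1] at h1 h2
  rw [← hP2] at h2
  have h3 : P1 ≤ 1 / 300 := by
    rw [hY] at h1
    nlinarith
  -- the error
  have h4 := herr H hH (2 * Y) θ (by linarith) hθ (by linarith)
  rw [← hP2] at h4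
  have hH' : (1 : ℝ) ≤ H := by exact_mod_cast hH
  have h5 : (A₀ * (H : ℝ) ^ 2) ^ (2 * θ) ≤ Real.exp 1 := by
    have hpos : 0 < A₀ * (H : ℝ) ^ 2 := by positivity
    rw [Real.rpow_def_of_pos hpos]
    refine Real.exp_le_exp.2 ?_
    have e1 : Real.log (A₀ * (H : ℝ) ^ 2) = Real.log A₀ + 2 * Real.log H := by
      rw [Real.log_mul (by linarith) (by positivity), Real.log_pow]
      push_cast
      ring
    have e2 : Real.log H ≤ Real.log ((C2 * H : ℕ) : ℝ) := by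
      refine Real.log_le_log (by linarith) ?_
      exact_mod_cast Nat.le_mul_of_pos_left H hC21
    have e3 : c * Real.log ((C2 * H : ℕ) : ℝ) ≤ E0 := by
      rw [hE0]
      exact hlog _ (Nat.mul_pos hC21 hH)
    have e4 : Real.log H ≤ E0 / c := by
      rw [le_div_iff₀ hc]
      nlinarith
    have e5 : Real.log A₀ + 2 * Real.log H ≤ (Real.log A₀ + 2 / c) * E0 := by
      have e6 : 2 / c * E0 = 2 * (E0 / c) := by ring
      have e7 := mul_le_mul_of_nonneg_left hE1 hlA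
      nlinarith
    rw [e1]
    have e8 : (Real.log A₀ + 2 * Real.log H) * (2 * θ) ≤ (Real.log A₀ + 2 / c) * E0 * (2 * θ) :=
      mul_le_mul_of_nonneg_right e5 (by linarith)
    have e9 : (Real.log A₀ + 2 / c) * E0 * (2 * θ) ≤ q * (θ * E0) := by
      rw [hq]
      nlinarith
    linarith
  have he1 : Real.exp 1 < 2.7182818286 := Real.exp_one_lt_d9
  have he2 : 2.7182818283 < Real.exp 1 := Real.exp_one_gt_d9
  obtain ⟨r, hr⟩ : ∃ r : ℝ, r = ∫ η, ∑ q ∈ Box H, io (Hit μ s η H (2 * Y) q) *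
      Real.exp (θ * Os μ s η H ((q.1.1 + q.2 : ℕ) - 1)) ∂(law μ) := ⟨_, rfl⟩
  have h6 : r ≤ 1 / 5 := by
    rw [← hr] at h4
    linarith
  have h7 := restart S (H := H) (Y := 2 * Y) (θ := θ) (by linarith) hθ
  rw [← hr] at h7
  obtain ⟨I, hI⟩ : ∃ I : ℝ, I = ∫ η, Real.exp (θ * Mx μ s η H) ∂(law μ) := ⟨_, rfl⟩
  rw [← hI] at h7 ⊢
  have hI0 : 0 ≤ I := by rw [hI]; exact integral_nonneg fun η => (Real.exp_pos _).le
  have h8 : Real.exp (θ * (2 * Y)) ≤ 10 / 9 := by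
    have e1 : θ * (2 * Y) ≤ 1 / 10 := by rw [hY]; linarith
    have e2 := Real.exp_bound_div_one_sub_of_interval (x := 1 / 10) (by norm_num) (by norm_num)
    calc Real.exp (θ * (2 * Y)) ≤ Real.exp (1 / 10) := Real.exp_le_exp.2 e1
      _ ≤ 1 / (1 - 1 / 10) := e2
      _ = 10 / 9 := by norm_num
  have h9 : I ≤ 10 / 9 * (1 + 2 * (1 / 5) * I) := by
    refine h7.trans (mul_le_mul h8 ?_ ?_ (by norm_num))
    · have := mul_le_mul_of_nonneg_right h6 hI0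
      linarith
    · have hr0 : 0 ≤ r := by
        rw [hr]
        exact integral_nonneg fun η => Finset.sum_nonneg fun q _ => mul_nonneg (io_nonneg _) (Real.exp_pos _).le
      have := mul_nonneg hr0 hI0
      linarith
  linarith

end Pool.Agent.W_7d29a1_F
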