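import Pool.Agent.W_7d29a1_F.LuckA

/-!
Section 2 (2a): the means of the positive and of the negative part of the luck.
-/

namespace Pool.Agent.W_7d29a1_F

open MeasureTheory ProbabilityTheory Filter Topology

variable {μ : Measure ℝ} [IsProbabilityMeasure μ] {s v1 v2 : ℝ}

/-- Distance between the two cones. -/
private theorem LuckB_disj (T n : ℕ) {k1 k2 : ℤ} (h : (n : ℤ) < k2 - k1) :
    Disjoint {p : Pt | (T : ℤ) < p.1 ∧ p.1 ≤ (T : ℤ) + n ∧ k1 ≤ p.2 ∧ p.2 - k1 ≤ p.1 - T}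
      {p : Pt | (T : ℤ) < p.1 ∧ p.1 ≤ (T : ℤ) + n ∧ k2 ≤ p.2 ∧ p.2 - k2 ≤ p.1 - T} := by
  rw [Set.disjoint_left]
  rintro p ⟨h1, h2, h3, h4⟩ ⟨h5, h6, h7, h8⟩
  omega

private theorem LuckB_Sub_io {p : Env → Prop} (h : MeasurableSet {η | p η}) : Sub fun η => io (p η) := by
  refine ⟨measurable_io h, ∅, 1, zero_le_one, fun η => ?_⟩
  rw [abs_of_nonneg (io_nonneg _), Finset.sum_empty, add_zero, mul_one]
  exact io_le_one _

private theorem LuckB_Sub_io_mul {p : Env → Prop} (h : MeasurableSet {η | p η}) {f : Env → ℝ} (hf : Sub f) :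
    Sub fun η => io (p η) * f η := by
  obtain ⟨hm, F, C, hC, hF⟩ := hf
  refine ⟨(measurable_io h).mul hm, F, C, hC, fun η => ?_⟩
  rw [abs_mul, abs_of_nonneg (io_nonneg _)]
  calc io (p η) * |f η| ≤ 1 * |f η| := mul_le_mul_of_nonneg_right (io_le_one _) (abs_nonneg _)
    _ = |f η| := one_mul _
    _ ≤ _ := hF η

/-- (2a). PROOF. `K` a natural number with `1 ≤ K * dd v1 v2`, `C1 = K + 1`, `T = K n`. `n = 0`: `V_zero`, `one_le_E`. `1 ≤ n`:
`k1 = ⌈vc T - 17 d T⌉`, `k2 = ⌊vc T + 17 d T⌋`, `K0_of_abs` (at time `T`), `n < k2 - k1`. With `ι = io (0 ≤ V (T, k1) n)`: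
`V 0 (T + n) ≥ ι (- X 0 T k1 + V (T, k1) n) + (1 - ι) (- X 0 T k2 + V (T, k2) n)` (`V_add_ge`). Integrate: the left side is
`≤ 0` (`integral_V_nonpos`); `ι` depends on the cone of `(T, k1)` after the row `T` (`V_dep`), `X 0 T k` on `rows 0 T`,
`V (T, k2) n` on the cone of `(T, k2)` (disjoint from the first one: `n < k2 - k1`): `integral_indep`; `e μ s T k ≤ E T - 1`
(`e_le_E`); `ι V = max V 0`; `∫ V 0 n ≥ - e μ s n y ≥ - E n` for `y` = the rounded `vc n` (`neg_X_le_V`, `integral_X`). Finally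
`max (-V) 0 = max V 0 - V`. -/
theorem V_pos_neg (S : Setup μ s v1 v2) : ∃ C1 : ℕ, 1 ≤ C1 ∧ ∀ n : ℕ,
    ∫ η, max (V μ s η 0 n) 0 ∂(law μ) ≤ 2 * E μ s v1 v2 (C1 * n) ∧
      ∫ η, max (-V μ s η 0 n) 0 ∂(law μ) ≤ 3 * E μ s v1 v2 (C1 * n) := by
  classical
  have hd := S.dpos
  obtain ⟨K, hK⟩ : ∃ K : ℕ, 1 ≤ K * dd v1 v2 := by
    obtain ⟨K, hK⟩ := exists_nat_ge (1 / dd v1 v2)
    refine ⟨K, ?_⟩
    rwa [div_le_iff₀ hd] at hK
  have hK1 : 1 ≤ K := by
    rcases Nat.eq_zero_or_pos K with h | h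
    · rw [h] at hK
      norm_num at hK
    · exact h
  have hEM := S.em
  refine ⟨K + 1, by omega, fun n => ?_⟩
  have hVi : ∀ (a : Pt) (m : ℕ), Integrable (fun η => V μ s η a m) (law μ) := fun a m =>
    Sub.integrable hEM (Sub_V a m)
  -- the mean of the luck
  have hvc0 : 0 < vc v1 v2 := by
    unfold vc
    linarith [S.v1pos, S.v12]
  have hvc1 : vc v1 v2 < 1 := by
    unfold vc
    linarith [S.v2lt, S.v12]
  have hVn : -(E μ s v1 v2 n - 1) ≤ ∫ η, V μ s η 0 n ∂(law μ) := by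
    obtain ⟨y, hy⟩ : ∃ y : ℤ, y = ⌊vc v1 v2 * n⌋ := ⟨_, rfl⟩
    have hn0 : (0 : ℝ) ≤ n := Nat.cast_nonneg n
    have hy1 : (y : ℝ) ≤ vc v1 v2 * n := by rw [hy]; exact Int.floor_le _
    have hy2 : vc v1 v2 * n < y + 1 := by rw [hy]; exact Int.lt_floor_add_one _
    have hKy : K0 v1 v2 n y := by
      refine ⟨?_, ?_, ?_⟩
      · rw [hy]
        exact Int.floor_nonneg.2 (mul_nonneg hvc0.le hn0)
      · have h1 : (y : ℝ) ≤ n := by nlinarith
        exact_mod_cast h1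
      · have h1 : 0 ≤ dd v1 v2 * n := mul_nonneg hd.le hn0
        rw [abs_le]
        constructor <;> linarith
    have h1 : ∀ η, -X μ s η 0 n y ≤ V μ s η 0 n := fun η => neg_X_le_V η 0 hKy.1 hKy.2.1
    have hXi : Integrable (fun η => X μ s η 0 n y) (law μ) :=
      Sub.integrable hEM (Sub_X 0 hKy.1 hKy.2.1)
    have h2 : ∫ η, -X μ s η 0 n y ∂(law μ) ≤ ∫ η, V μ s η 0 n ∂(law μ) :=
      integral_mono hXi.neg (hVi 0 n) h1
    rw [integral_neg, integral_X] at h2
    have h3 := e_le_E S hKy (le_refl n)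
    linarith
  have hE1 : ∀ m, 1 ≤ E μ s v1 v2 m := one_le_E S
  have hEn : E μ s v1 v2 n ≤ E μ s v1 v2 ((K + 1) * n) :=
    E_mono S (Nat.le_mul_of_pos_left n (by omega))
  -- the main inequality
  have hmain : ∫ η, max (V μ s η 0 n) 0 ∂(law μ) ≤ 2 * E μ s v1 v2 ((K + 1) * n) := by
    rcases Nat.eq_zero_or_pos n with hn | hn
    · have h1 : ∀ η, max (V μ s η 0 n) 0 = 0 := by
        intro η
        rw [hn, V_zero, max_self]
      simp only [h1, integral_zero]
      linarith [hE1 ((K + 1) * n)]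
    obtain ⟨T, hT⟩ : ∃ T : ℕ, T = K * n := ⟨_, rfl⟩
    have hn1 : (1 : ℝ) ≤ n := by exact_mod_cast hn
    have hTr : (T : ℝ) = K * n := by rw [hT]; push_cast; ring
    have hdT : (n : ℝ) ≤ dd v1 v2 * T := by
      rw [hTr]
      nlinarith
    obtain ⟨k1, hk1⟩ : ∃ k : ℤ, k = ⌈vc v1 v2 * T - 17 * dd v1 v2 * T⌉ := ⟨_, rfl⟩
    obtain ⟨k2, hk2⟩ : ∃ k : ℤ, k = ⌊vc v1 v2 * T + 17 * dd v1 v2 * T⌋ := ⟨_, rfl⟩
    have a1 : vc v1 v2 * T - 17 * dd v1 v2 * T ≤ k1 := by rw [hk1]; exact Int.le_ceil _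
    have a2 : (k1 : ℝ) < vc v1 v2 * T - 17 * dd v1 v2 * T + 1 := by rw [hk1]; exact Int.ceil_lt_add_one _
    have a3 : (k2 : ℝ) ≤ vc v1 v2 * T + 17 * dd v1 v2 * T := by rw [hk2]; exact Int.floor_le _
    have a4 : vc v1 v2 * T + 17 * dd v1 v2 * T < k2 + 1 := by rw [hk2]; exact Int.lt_floor_add_one _
    have hKk1 : K0 v1 v2 T k1 := by
      refine K0_of_abs S ?_
      rw [abs_le]
      constructor <;> linarith
    have hKk2 : K0 v1 v2 T k2 := by
      refine K0_of_abs S ?_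
      rw [abs_le]
      constructor <;> linarith
    have hgap : (n : ℤ) < k2 - k1 := by
      have h1 : (n : ℝ) < k2 - k1 := by linarith
      exact_mod_cast h1
    have hT1 : T ≤ (K + 1) * n := by
      rw [hT]
      exact Nat.mul_le_mul_right n (Nat.le_succ K)
    have hET : E μ s v1 v2 T ≤ E μ s v1 v2 ((K + 1) * n) := E_mono S hT1
    -- the indicator
    obtain ⟨ι, hι⟩ : ∃ ι : Env → ℝ, ι = fun η => io (0 ≤ V μ s η ((T : ℤ), k1) n) := ⟨_, rfl⟩
    have hιset : MeasurableSet {η : Env | 0 ≤ V μ s η ((T : ℤ), k1) n} :=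
      measurableSet_le measurable_const (measurable_V _ _)
    have hιm : Measurable ι := by
      rw [hι]
      exact measurable_io hιset
    have hι0 : ∀ η, 0 ≤ ι η := fun η => by rw [hι]; exact io_nonneg _
    have hι1 : ∀ η, ι η ≤ 1 := fun η => by rw [hι]; exact io_le_one _
    have hιS : Sub ι := by
      rw [hι]
      exact LuckB_Sub_io hιset
    have hιi : Integrable ι (law μ) := Sub.integrable hEM hιS
    let D1 : Set Pt := {p : Pt | (T : ℤ) < p.1 ∧ p.1 ≤ (T : ℤ) + n ∧ k1 ≤ p.2 ∧ p.2 - k1 ≤ p.1 - T}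
    let D2 : Set Pt := {p : Pt | (T : ℤ) < p.1 ∧ p.1 ≤ (T : ℤ) + n ∧ k2 ≤ p.2 ∧ p.2 - k2 ≤ p.1 - T}
    have hιD : DependsOn ι D1 := by
      intro η η' h
      have h1 : V μ s η ((T : ℤ), k1) n = V μ s η' ((T : ℤ), k1) n :=
        V_dep (μ := μ) (s := s) ((T : ℤ), k1) n fun p hp => h p hp
      rw [hι]
      simp only [h1]
    have hD12 : Disjoint D1 D2 := LuckB_disj T n hgap
    have hD1r : ∀ p ∈ D1, p ∉ rows 0 T := by
      intro p hp hp'
      have h1 := hp.1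
      have h2 := hp'.2
      omega
    -- products with the indicator
    have hprod : ∀ {f : Env → ℝ}, Sub f → Sub fun η => ι η * f η := by
      intro f hf
      rw [hι]
      exact LuckB_Sub_io_mul hιset hf
    have hX1 := Sub_X (μ := μ) (s := s) (0 : Pt) hKk1.1 hKk1.2.1
    have hX2 := Sub_X (μ := μ) (s := s) (0 : Pt) hKk2.1 hKk2.2.1
    have hV1 := Sub_V (μ := μ) (s := s) ((T : ℤ), k1) n
    have hV2 := Sub_V (μ := μ) (s := s) ((T : ℤ), k2) n
    have hVT := Sub_V (μ := μ) (s := s) (0 : Pt) (T + n)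
    have i1 : ∫ η, ι η * X μ s η 0 T k1 ∂(law μ) = (∫ η, ι η ∂(law μ)) * e μ s T k1 := by
      rw [integral_indep hιm hX1.1 hιD (X_dep_rows (0 : Pt) T k1) (by
        rw [Set.disjoint_left]
        intro p hp hp'
        refine hD1r p hp ?_
        have h1 := hp'.1
        have h2 := hp'.2
        simp only [Prod.fst_zero, zero_add] at h1 h2
        exact ⟨h1, h2⟩), integral_X]
    have i2 : ∫ η, ι η * X μ s η 0 T k2 ∂(law μ) = (∫ η, ι η ∂(law μ)) * e μ s T k2 := by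
      rw [integral_indep hιm hX2.1 hιD (X_dep_rows (0 : Pt) T k2) (by
        rw [Set.disjoint_left]
        intro p hp hp'
        refine hD1r p hp ?_
        have h1 := hp'.1
        have h2 := hp'.2
        simp only [Prod.fst_zero, zero_add] at h1 h2
        exact ⟨h1, h2⟩), integral_X]
    have i3 : ∫ η, ι η * V μ s η ((T : ℤ), k2) n ∂(law μ) =
        (∫ η, ι η ∂(law μ)) * ∫ η, V μ s η 0 n ∂(law μ) := by
      rw [integral_indep hιm hV2.1 hιD (V_dep (μ := μ) (s := s) ((T : ℤ), k2) n) hD12, integral_V]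
    have i4 : ∫ η, ι η * V μ s η ((T : ℤ), k1) n ∂(law μ) = ∫ η, max (V μ s η 0 n) 0 ∂(law μ) := by
      rw [← integral_V_fun (μ := μ) (s := s) (f := fun x => max x 0) (measurable_id.max measurable_const)
        ((T : ℤ), k1) n]
      refine integral_congr_ae (Filter.Eventually.of_forall fun η => ?_)
      simp only [hι]
      by_cases h : 0 ≤ V μ s η ((T : ℤ), k1) n
      · rw [io_of h, one_mul, max_eq_left h]
      · rw [io_not h, zero_mul, max_eq_right (not_le.1 h).le]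
    have i5 : ∫ η, X μ s η 0 T k2 ∂(law μ) = e μ s T k2 := integral_X _ _ _
    have i6 : ∫ η, V μ s η ((T : ℤ), k2) n ∂(law μ) = ∫ η, V μ s η 0 n ∂(law μ) := integral_V _ _
    -- the pointwise inequality
    have hpt : ∀ η, ι η * V μ s η ((T : ℤ), k1) n + V μ s η ((T : ℤ), k2) n +
        ι η * X μ s η 0 T k2 ≤
        V μ s η 0 (T + n) + ι η * X μ s η 0 T k1 + X μ s η 0 T k2 +
          ι η * V μ s η ((T : ℤ), k2) n := by
      intro η
      have b1 := V_add_ge (μ := μ) (s := s) η (0 : Pt) T n hKk1.1 hKk1.2.1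
      have b2 := V_add_ge (μ := μ) (s := s) η (0 : Pt) T n hKk2.1 hKk2.2.1
      simp only [Prod.fst_zero, Prod.snd_zero, zero_add] at b1 b2
      have c1 := mul_le_mul_of_nonneg_left b1 (hι0 η)
      have c2 := mul_le_mul_of_nonneg_left b2 (sub_nonneg.2 (hι1 η))
      linarith
    have hP0 : 0 ≤ ∫ η, ι η ∂(law μ) := integral_nonneg hι0
    have hP1 : ∫ η, ι η ∂(law μ) ≤ 1 := by
      have := integral_mono hιi (integrable_const (1 : ℝ)) hι1
      simpa using this
    have I1 := Sub.integrable hEM (hprod hV1)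
    have I2 := Sub.integrable hEM hV2
    have I3 := Sub.integrable hEM (hprod hX2)
    have I4 := Sub.integrable hEM hVT
    have I5 := Sub.integrable hEM (hprod hX1)
    have I6 := Sub.integrable hEM hX2
    have I7 := Sub.integrable hEM (hprod hV2)
    have J1 : Integrable (fun η => ι η * V μ s η ((T : ℤ), k1) n + V μ s η ((T : ℤ), k2) n) (law μ) :=
      I1.add I2
    have J2 : Integrable (fun η => V μ s η 0 (T + n) + ι η * X μ s η 0 T k1) (law μ) := I4.add I5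
    have J3 : Integrable (fun η => V μ s η 0 (T + n) + ι η * X μ s η 0 T k1 + X μ s η 0 T k2) (law μ) :=
      J2.add I6
    have hint := integral_mono (J1.add I3) (J3.add I7) hpt
    simp only [Pi.add_apply] at hint
    rw [integral_add J1 I3, integral_add I1 I2, integral_add J3 I7, integral_add J2 I6,
      integral_add I4 I5] at hint
    rw [i1, i2, i3, i4, i5, i6] at hint
    have hnp := integral_V_nonpos hEM s (T + n)
    have e1 := e_le_E S hKk1 (le_refl T)
    have e2 := e_le_E S hKk2 (le_refl T)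
    obtain ⟨P, hP⟩ : ∃ P : ℝ, P = ∫ η, ι η ∂(law μ) := ⟨_, rfl⟩
    rw [← hP] at hint hP0 hP1
    have f1 : P * e μ s T k1 ≤ P * (E μ s v1 v2 T - 1) := mul_le_mul_of_nonneg_left e1 hP0
    have f2 : (1 - P) * e μ s T k2 ≤ (1 - P) * (E μ s v1 v2 T - 1) :=
      mul_le_mul_of_nonneg_left e2 (by linarith)
    have f3 : (1 - P) * (-(E μ s v1 v2 n - 1)) ≤ (1 - P) * ∫ η, V μ s η 0 n ∂(law μ) :=
      mul_le_mul_of_nonneg_left hVn (by linarith)
    have f4 : 0 ≤ P * (E μ s v1 v2 n - 1) := mul_nonneg hP0 (by linarith [hE1 n])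
    linarith
  refine ⟨hmain, ?_⟩
  have hpt : ∀ η, max (-V μ s η 0 n) 0 = max (V μ s η 0 n) 0 - V μ s η 0 n := by
    intro η
    rcases le_total 0 (V μ s η 0 n) with h | h
    · rw [max_eq_right (by linarith), max_eq_left h, sub_self]
    · rw [max_eq_left (by linarith), max_eq_right h, zero_sub]
  simp only [hpt]
  have hmi : Integrable (fun η => max (V μ s η 0 n) 0) (law μ) :=
    Sub.integrable hEM (Sub.max (Sub_V 0 n) (Sub.const 0))
  rw [integral_sub hmi (hVi 0 n)]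
  linarith [hE1 n]

end Pool.Agent.W_7d29a1_F
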