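import Pool.Agent.W_7d29a1_F.LuckB

/-!
Section 2 (2b)(i): the largest luck up to the fixed time `2 H`.
-/

namespace Pool.Agent.W_7d29a1_F

open MeasureTheory ProbabilityTheory Filter Topology

/-- The starts `(t, x)`, `0 ≤ t ≤ H`, `|x| ≤ H`. -/
noncomputable def Bw (H : ℕ) : Finset (ℕ × ℤ) := Finset.range (H + 1) ×ˢ Finset.Icc (-(H : ℤ)) H

variable {μ : Measure ℝ} [IsProbabilityMeasure μ] {s v1 v2 : ℝ}

private theorem LuckC_Sub_io {p : Env → Prop} (h : MeasurableSet {η | p η}) : Sub fun η => io (p η) := by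
  refine ⟨measurable_io h, ∅, 1, zero_le_one, fun η => ?_⟩
  rw [abs_of_nonneg (io_nonneg _), Finset.sum_empty, add_zero, mul_one]
  exact io_le_one _

/-- (i). PROOF. `K` a natural number with `1 ≤ K * dd v1 v2`, `S₀ = K H`, `x₀ = (-S₀, -z₀)`, `z₀ = ⌊vc S₀⌋`: `K0 (S₀ + t) (x + z₀)` for
`(t, x) ∈ Bw H` (`K0_of_abs`). `p w η = (Y ≤ V η w (2 H - t))`, `ι w = io (Fi (Bw H) r (p · η) w)` with
`r w = toLex (H - t, Encodable.encode w)` (the LAST row first): `ι w` depends on `rows t (2 H)` (`dep_Fi`), `X x₀ w` on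
`rows (-S₀) t`. With `ι₀ = io (¬ ∃ w ∈ Bw H, p w η) = 1 - ∑ ι w` (`sum_Fi`), which depends on `rows 0 (2 H)`, and `w₀ = (0, 0)`:
`V x₀ (S₀ + 2 H) ≥ ∑_w ι w (- X x₀ w + V w (2 H - t)) + ι₀ (- X x₀ w₀ + V w₀ (2 H))` (`V_add_ge`), `ι w V w ≥ ι w Y`,
`ι₀ V w₀ ≥ - max (-V w₀) 0`; integrate: `0 ≥ - (E ((K + 1) H) - 1) + Y P - 3 E (C1 2 H)`. -/
theorem VT_hit (S : Setup μ s v1 v2) : ∃ C : ℕ, 1 ≤ C ∧ ∀ H : ℕ, 1 ≤ H → ∀ Y : ℝ, 0 < Y →
    Y * ∫ η, io (∃ w ∈ Bw H, Y ≤ V μ s η ((w.1 : ℤ), w.2) (2 * H - w.1)) ∂(law μ) ≤ 4 * E μ s v1 v2 (C * H) := by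
  classical
  obtain ⟨C1, hC1, hpn⟩ := V_pos_neg S
  have hd := S.dpos
  obtain ⟨K, hK⟩ : ∃ K : ℕ, 1 ≤ K * dd v1 v2 := by
    obtain ⟨K, hK⟩ := exists_nat_ge (1 / dd v1 v2)
    refine ⟨K, ?_⟩
    rwa [div_le_iff₀ hd] at hK
  refine ⟨max (K + 1) (2 * C1), (by omega : 1 ≤ K + 1).trans (le_max_left _ _), fun H hH Y hY => ?_⟩
  have hEM := S.em
  have hvc0 : 0 < vc v1 v2 := by
    unfold vc
    linarith [S.v1pos, S.v12]
  have hvc1 : vc v1 v2 < 1 := by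
    unfold vc
    linarith [S.v2lt, S.v12]
  obtain ⟨S₀, hS₀⟩ : ∃ S₀ : ℕ, S₀ = K * H := ⟨_, rfl⟩
  obtain ⟨z₀, hz₀⟩ : ∃ z₀ : ℤ, z₀ = ⌊vc v1 v2 * S₀⌋ := ⟨_, rfl⟩
  obtain ⟨x₀, hx₀⟩ : ∃ x₀ : Pt, x₀ = (-(S₀ : ℤ), -z₀) := ⟨_, rfl⟩
  have hz1 : (z₀ : ℝ) ≤ vc v1 v2 * S₀ := by rw [hz₀]; exact Int.floor_le _
  have hz2 : vc v1 v2 * S₀ < z₀ + 1 := by rw [hz₀]; exact Int.lt_floor_add_one _
  have hmem : ∀ w : ℕ × ℤ, w ∈ Bw H ↔ w.1 ≤ H ∧ -(H : ℤ) ≤ w.2 ∧ w.2 ≤ H := by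
    intro w
    unfold Bw
    rw [Finset.mem_product, Finset.mem_range, Finset.mem_Icc]
    omega
  -- the displacements from `x₀`
  have hK0 : ∀ w ∈ Bw H, K0 v1 v2 (S₀ + w.1) (w.2 + z₀) := by
    intro w hw
    obtain ⟨h1, h2, h3⟩ := (hmem w).1 hw
    refine K0_of_abs S ?_
    have h1' : (w.1 : ℝ) ≤ H := by exact_mod_cast h1
    have h2' : -(H : ℝ) ≤ w.2 := by exact_mod_cast h2
    have h3' : (w.2 : ℝ) ≤ H := by exact_mod_cast h3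
    have hH' : (1 : ℝ) ≤ H := by exact_mod_cast hH
    have e1 : (S₀ : ℝ) = K * H := by rw [hS₀]; push_cast; ring
    have e2 : (H : ℝ) ≤ dd v1 v2 * S₀ := by
      rw [e1]
      nlinarith
    have e3 : 0 ≤ vc v1 v2 * w.1 := by positivity
    have e4 : vc v1 v2 * w.1 ≤ w.1 := by
      have : (0 : ℝ) ≤ w.1 := Nat.cast_nonneg _
      nlinarith
    have e5 : 0 ≤ dd v1 v2 * w.1 := by positivity
    push_cast
    rw [abs_le]
    constructor <;> nlinarith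
  have hend : ∀ w ∈ Bw H, ∀ η : Env, -X μ s η x₀ (S₀ + w.1) (w.2 + z₀) + V μ s η ((w.1 : ℤ), w.2) (2 * H - w.1) ≤
      V μ s η x₀ (S₀ + 2 * H) := by
    intro w hw η
    have h1 := hK0 w hw
    have h2 := (hmem w).1 hw
    have h3 := V_add_ge (μ := μ) (s := s) η x₀ (S₀ + w.1) (2 * H - w.1) (k := w.2 + z₀) h1.1 h1.2.1
    have e1 : ((x₀.1 + ((S₀ + w.1 : ℕ) : ℤ), x₀.2 + (w.2 + z₀)) : Pt) = ((w.1 : ℤ), w.2) := by
      rw [hx₀]
      push_cast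
      refine Prod.ext ?_ ?_
      · show -(S₀ : ℤ) + (S₀ + w.1) = w.1
        ring
      · show -z₀ + (w.2 + z₀) = w.2
        ring
    have e2 : S₀ + w.1 + (2 * H - w.1) = S₀ + 2 * H := by omega
    rw [e1, e2] at h3
    exact h3
  obtain ⟨p, hp⟩ : ∃ p : ℕ × ℤ → Env → Prop, p = fun w η => Y ≤ V μ s η ((w.1 : ℤ), w.2) (2 * H - w.1) := ⟨_, rfl⟩
  obtain ⟨r, hr⟩ : ∃ r : ℕ × ℤ → ℕ ×ₗ ℕ, r = fun w => toLex (H - w.1, Encodable.encode w) := ⟨_, rfl⟩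
  have hrinj : Function.Injective r := by
    intro w w' h
    rw [hr] at h
    have h1 := congrArg (fun z => (ofLex z).2) h
    exact Encodable.encode_injective h1
  have hrle : ∀ w ∈ Bw H, ∀ w' ∈ Bw H, r w' ≤ r w → w.1 ≤ w'.1 := by
    intro w hw w' hw' h
    rw [hr] at h
    have h1 := (hmem w).1 hw
    have h2 := (hmem w').1 hw'
    have h3 : toLex (H - w'.1, Encodable.encode w') ≤ toLex (H - w.1, Encodable.encode w) := h
    rw [Prod.Lex.toLex_le_toLex] at h3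
    rcases h3 with h3 | h3
    · have h4 : H - w'.1 < H - w.1 := h3
      omega
    · have h4 : H - w'.1 = H - w.1 := h3.1
      omega
  have hpm : ∀ w, MeasurableSet {η | p w η} := by
    intro w
    rw [hp]
    exact measurableSet_le measurable_const (measurable_V _ _)
  obtain ⟨ι, hι⟩ : ∃ ι : ℕ × ℤ → Env → ℝ, ι = fun w η => io (Fi (Bw H) r (fun w => p w η) w) := ⟨_, rfl⟩
  have hιm : ∀ w ∈ Bw H, Sub (ι w) := by
    intro w hw
    rw [hι]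
    exact LuckC_Sub_io (meas_Fi (Bw H) r (fun w _ => hpm w) hw)
  have hι0 : ∀ w η, 0 ≤ ι w η := fun w η => by rw [hι]; exact io_nonneg _
  have hιsum : ∀ η, ∑ w ∈ Bw H, ι w η = io (∃ w ∈ Bw H, p w η) := by
    intro η
    rw [hι]
    exact sum_Fi (Bw H) hrinj fun w => p w η
  have hιp : ∀ w η, ι w η * Y ≤ ι w η * V μ s η ((w.1 : ℤ), w.2) (2 * H - w.1) := by
    intro w η
    by_cases h : Fi (Bw H) r (fun w => p w η) w
    · have h1 : p w η := h.1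
      rw [hp] at h1
      exact mul_le_mul_of_nonneg_left h1 (hι0 w η)
    · have h1 : ι w η = 0 := by
        rw [hι]
        exact io_not h
      rw [h1, zero_mul, zero_mul]
  have hpdep : ∀ w ∈ Bw H, ∀ a : ℤ, a ≤ w.1 → ∀ η η' : Env, (∀ x ∈ rows a (2 * H), η x = η' x) → (p w η ↔ p w η') := by
    intro w hw a ha η η' h
    have h1 := (hmem w).1 hw
    have h2 : V μ s η ((w.1 : ℤ), w.2) (2 * H - w.1) = V μ s η' ((w.1 : ℤ), w.2) (2 * H - w.1) := by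
      refine V_dep_rows (μ := μ) (s := s) _ _ fun x hx => h x (rows_mono ha ?_ hx)
      show (w.1 : ℤ) + ((2 * H - w.1 : ℕ) : ℤ) ≤ 2 * H
      omega
    rw [hp]
    show Y ≤ _ ↔ Y ≤ _
    rw [h2]
  have hιdep : ∀ w ∈ Bw H, DependsOn (ι w) (rows w.1 (2 * H)) := by
    intro w hw
    rw [hι]
    refine dep_Fi (Bw H) r hw fun w' hw' hle η η' h => hpdep w' hw' _ ?_ η η' h
    exact_mod_cast hrle w hw w' hw' hle
  -- the complement
  obtain ⟨ι₀, hι₀⟩ : ∃ ι₀ : Env → ℝ, ι₀ = fun η => 1 - io (∃ w ∈ Bw H, p w η) := ⟨_, rfl⟩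
  have hexm : MeasurableSet {η | ∃ w ∈ Bw H, p w η} := by
    have e : {η | ∃ w ∈ Bw H, p w η} = ⋃ w ∈ Bw H, {η | p w η} := by
      ext η
      simp only [Set.mem_ofPred_eq, Set.mem_iUnion, exists_prop]
    rw [e]
    exact Finset.measurableSet_biUnion _ fun w _ => hpm w
  have hι₀m : Sub ι₀ := by
    rw [hι₀]
    exact (Sub.const 1).sub (LuckC_Sub_io hexm)
  have hι₀0 : ∀ η, 0 ≤ ι₀ η := fun η => by
    rw [hι₀]
    have := io_le_one (∃ w ∈ Bw H, p w η)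
    show 0 ≤ 1 - _
    linarith
  have hι₀1 : ∀ η, ι₀ η ≤ 1 := fun η => by
    rw [hι₀]
    have := io_nonneg (∃ w ∈ Bw H, p w η)
    show 1 - _ ≤ (1 : ℝ)
    linarith
  have hι₀dep : DependsOn ι₀ (rows 0 (2 * H)) := by
    rw [hι₀]
    intro η η' h
    show 1 - io (∃ w ∈ Bw H, p w η) = 1 - io (∃ w ∈ Bw H, p w η')
    have e : (∃ w ∈ Bw H, p w η) ↔ ∃ w ∈ Bw H, p w η' :=
      exists_congr fun w => and_congr_right fun hw => hpdep w hw 0 (Int.natCast_nonneg _) η η' h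
    rw [propext e]
  have hw0 : ((0, 0) : ℕ × ℤ) ∈ Bw H := by
    rw [hmem]
    refine ⟨Nat.zero_le _, ?_, ?_⟩
    · show -(H : ℤ) ≤ 0
      omega
    · show (0 : ℤ) ≤ H
      omega
  -- the pointwise inequality
  have hpt : ∀ η : Env, Y * io (∃ w ∈ Bw H, p w η) ≤ V μ s η x₀ (S₀ + 2 * H) +
      (∑ w ∈ Bw H, ι w η * X μ s η x₀ (S₀ + w.1) (w.2 + z₀) + ι₀ η * X μ s η x₀ (S₀ + 0) (0 + z₀)) +
        max (-V μ s η (((0 : ℕ) : ℤ), 0) (2 * H - 0)) 0 := by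
    intro η
    obtain ⟨v, hv⟩ : ∃ v, v = V μ s η x₀ (S₀ + 2 * H) := ⟨_, rfl⟩
    have h1 : ∀ w ∈ Bw H, ι w η * Y ≤ ι w η * v + ι w η * X μ s η x₀ (S₀ + w.1) (w.2 + z₀) := by
      intro w hw
      have h2 := mul_le_mul_of_nonneg_left (hend w hw η) (hι0 w η)
      have h3 := hιp w η
      rw [← hv] at h2
      nlinarith
    have h2 := Finset.sum_le_sum h1
    rw [← Finset.sum_mul, Finset.sum_add_distrib, ← Finset.sum_mul, hιsum] at h2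
    have h3 := mul_le_mul_of_nonneg_left (hend (0, 0) hw0 η) (hι₀0 η)
    rw [← hv] at h3
    have h4 : -max (-V μ s η (((0 : ℕ) : ℤ), 0) (2 * H - 0)) 0 ≤ ι₀ η * V μ s η (((0 : ℕ) : ℤ), 0) (2 * H - 0) := by
      have h5 := le_max_left (-V μ s η (((0 : ℕ) : ℤ), 0) (2 * H - 0)) 0
      have h6 := le_max_right (-V μ s η (((0 : ℕ) : ℤ), 0) (2 * H - 0)) 0
      have h7 := hι₀0 η
      have h8 := hι₀1 η
      nlinarith
    have h5 : ι₀ η = 1 - io (∃ w ∈ Bw H, p w η) := by rw [hι₀]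
    have h6 : io (∃ w ∈ Bw H, p w η) * v + ι₀ η * v = v := by rw [h5]; ring
    rw [← hv]
    simp only at h3 h4 ⊢
    nlinarith
  -- integrals
  obtain ⟨E1, hE1⟩ : ∃ E1, E1 = E μ s v1 v2 ((K + 1) * H) := ⟨_, rfl⟩
  have heE : ∀ w ∈ Bw H, e μ s (S₀ + w.1) (w.2 + z₀) ≤ E1 - 1 := by
    intro w hw
    have h1 := (hmem w).1 hw
    rw [hE1]
    refine e_le_E S (hK0 w hw) ?_
    rw [hS₀, Nat.add_mul, one_mul]
    omega
  have hXs : ∀ w ∈ Bw H, Sub fun η => X μ s η x₀ (S₀ + w.1) (w.2 + z₀) := fun w hw =>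
    Sub_X x₀ (hK0 w hw).1 (hK0 w hw).2.1
  have hXdep : ∀ w ∈ Bw H, DependsOn (fun η => X μ s η x₀ (S₀ + w.1) (w.2 + z₀)) (rows (-(S₀ : ℤ)) w.1) := by
    intro w hw η η' h
    refine X_dep_rows (μ := μ) (s := s) x₀ (S₀ + w.1) (w.2 + z₀) fun x hx => h x (rows_mono ?_ ?_ hx)
    · rw [hx₀]
    · rw [hx₀]
      push_cast
      show -(S₀ : ℤ) + (S₀ + w.1) ≤ w.1
      omega
  have hind : ∀ w ∈ Bw H, ∫ η, ι w η * X μ s η x₀ (S₀ + w.1) (w.2 + z₀) ∂(law μ) =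
      (∫ η, ι w η ∂(law μ)) * e μ s (S₀ + w.1) (w.2 + z₀) := by
    intro w hw
    rw [← integral_X x₀]
    exact integral_indep (hιm w hw).1 (measurable_X _ _ _) (hιdep w hw) (hXdep w hw)
      (rows_disj (le_refl (w.1 : ℤ))).symm
  have hind0 : ∫ η, ι₀ η * X μ s η x₀ (S₀ + 0) (0 + z₀) ∂(law μ) =
      (∫ η, ι₀ η ∂(law μ)) * e μ s (S₀ + 0) (0 + z₀) := by
    rw [← integral_X x₀]
    refine integral_indep hι₀m.1 (measurable_X _ _ _) hι₀dep (hXdep (0, 0) hw0) ?_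
    exact (rows_disj (le_refl (0 : ℤ))).symm
  have hVs : Sub fun η => V μ s η x₀ (S₀ + 2 * H) := Sub_V _ _
  have hNs : Sub fun η => max (-V μ s η (((0 : ℕ) : ℤ), 0) (2 * H - 0)) 0 := (Sub_V _ _).neg.max (Sub.const 0)
  have hint : Y * ∫ η, io (∃ w ∈ Bw H, p w η) ∂(law μ) ≤ ∫ η, V μ s η x₀ (S₀ + 2 * H) ∂(law μ) +
      (∑ w ∈ Bw H, ∫ η, ι w η * X μ s η x₀ (S₀ + w.1) (w.2 + z₀) ∂(law μ) +
        ∫ η, ι₀ η * X μ s η x₀ (S₀ + 0) (0 + z₀) ∂(law μ)) +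
        ∫ η, max (-V μ s η (((0 : ℕ) : ℤ), 0) (2 * H - 0)) 0 ∂(law μ) := by
    have i1 : ∀ w ∈ Bw H, Integrable (fun η => ι w η * X μ s η x₀ (S₀ + w.1) (w.2 + z₀)) (law μ) := fun w hw =>
      Sub.mul_integrable hEM (hιm w hw) (hXs w hw)
    have i2 : Integrable (fun η => ι₀ η * X μ s η x₀ (S₀ + 0) (0 + z₀)) (law μ) :=
      Sub.mul_integrable hEM hι₀m (hXs (0, 0) hw0)
    have i3 : Integrable (fun η => ∑ w ∈ Bw H, ι w η * X μ s η x₀ (S₀ + w.1) (w.2 + z₀)) (law μ) :=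
      integrable_finsetSum _ i1
    have i4 : Integrable (fun η => ∑ w ∈ Bw H, ι w η * X μ s η x₀ (S₀ + w.1) (w.2 + z₀) +
        ι₀ η * X μ s η x₀ (S₀ + 0) (0 + z₀)) (law μ) := i3.add i2
    have i5 : Integrable (fun η => V μ s η x₀ (S₀ + 2 * H) + (∑ w ∈ Bw H, ι w η * X μ s η x₀ (S₀ + w.1) (w.2 + z₀) +
        ι₀ η * X μ s η x₀ (S₀ + 0) (0 + z₀))) (law μ) := (hVs.integrable hEM).add i4
    rw [← integral_finsetSum _ i1, ← integral_add i3 i2, ← integral_add (hVs.integrable hEM) i4,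
      ← integral_add i5 (hNs.integrable hEM), ← integral_const_mul]
    refine integral_mono ?_ ?_ fun η => ?_
    · exact ((LuckC_Sub_io hexm).integrable hEM).const_mul Y
    · exact i5.add (hNs.integrable hEM)
    · exact hpt η
  have hV0 : ∫ η, V μ s η x₀ (S₀ + 2 * H) ∂(law μ) ≤ 0 := by
    rw [integral_V]
    exact integral_V_nonpos hEM s _
  have hN0 : ∫ η, max (-V μ s η (((0 : ℕ) : ℤ), 0) (2 * H - 0)) 0 ∂(law μ) ≤ 3 * E μ s v1 v2 (2 * C1 * H) := by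
    have h1 := integral_V_fun (μ := μ) (s := s) (f := fun x => max (-x) 0) (by fun_prop) (((0 : ℕ) : ℤ), 0) (2 * H - 0)
    rw [h1]
    have h2 := (hpn (2 * H - 0)).2
    have e1 : C1 * (2 * H - 0) = 2 * C1 * H := by
      rw [Nat.sub_zero]
      ring
    rwa [e1] at h2
  have hsum : ∑ w ∈ Bw H, ∫ η, ι w η ∂(law μ) + ∫ η, ι₀ η ∂(law μ) = 1 := by
    rw [← integral_finsetSum _ fun w hw => (hιm w hw).integrable hEM,
      ← integral_add (integrable_finsetSum _ fun w hw => (hιm w hw).integrable hEM) (hι₀m.integrable hEM)]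
    have e1 : (fun η => ∑ w ∈ Bw H, ι w η + ι₀ η) = fun _ => (1 : ℝ) := by
      funext η
      rw [hιsum, hι₀]
      ring
    rw [e1, integral_const, probReal_univ, one_smul]
  have hE11 : 1 ≤ E1 := by rw [hE1]; exact one_le_E S _
  have hsum2 : ∑ w ∈ Bw H, ∫ η, ι w η * X μ s η x₀ (S₀ + w.1) (w.2 + z₀) ∂(law μ) +
      ∫ η, ι₀ η * X μ s η x₀ (S₀ + 0) (0 + z₀) ∂(law μ) ≤ E1 - 1 := by
    have h1 : ∑ w ∈ Bw H, ∫ η, ι w η * X μ s η x₀ (S₀ + w.1) (w.2 + z₀) ∂(law μ) ≤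
        ∑ w ∈ Bw H, (∫ η, ι w η ∂(law μ)) * (E1 - 1) := by
      refine Finset.sum_le_sum fun w hw => ?_
      rw [hind w hw]
      exact mul_le_mul_of_nonneg_left (heE w hw) (integral_nonneg fun η => hι0 w η)
    have h2 : ∫ η, ι₀ η * X μ s η x₀ (S₀ + 0) (0 + z₀) ∂(law μ) ≤ (∫ η, ι₀ η ∂(law μ)) * (E1 - 1) := by
      rw [hind0]
      exact mul_le_mul_of_nonneg_left (heE (0, 0) hw0) (integral_nonneg fun η => hι₀0 η)
    rw [← Finset.sum_mul] at h1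
    nlinarith
  have hEa : E1 ≤ E μ s v1 v2 (max (K + 1) (2 * C1) * H) := by
    rw [hE1]
    exact E_mono S (Nat.mul_le_mul_right H (le_max_left _ _))
  have hEb : E μ s v1 v2 (2 * C1 * H) ≤ E μ s v1 v2 (max (K + 1) (2 * C1) * H) :=
    E_mono S (Nat.mul_le_mul_right H (le_max_right _ _))
  rw [hp] at hint
  linarith

end Pool.Agent.W_7d29a1_F
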