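import Pool.Agent.W_7d29a1_F.LuckC

/-!
Section 2 (2b)(ii): the largest luck in the box.
-/

namespace Pool.Agent.W_7d29a1_F

open MeasureTheory ProbabilityTheory Filter Topology

variable {μ : Measure ℝ} [IsProbabilityMeasure μ] {s v1 v2 : ℝ}

/-- The order of `Box H` by the end level. -/
def rB (q : (ℕ × ℤ) × ℕ) : ℕ ×ₗ ℕ := toLex (q.1.1 + q.2, Encodable.encode q)

theorem rB_inj : Function.Injective rB := by
  intro q q' h
  have h1 := congrArg (fun z => (ofLex z).2) h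
  exact Encodable.encode_injective h1

theorem rB_le {q q' : (ℕ × ℤ) × ℕ} (h : rB q' ≤ rB q) : q'.1.1 + q'.2 ≤ q.1.1 + q.2 := by
  unfold rB at h
  rw [Prod.Lex.toLex_le_toLex] at h
  rcases h with h | h
  · exact h.le
  · exact h.1.le

theorem rB_lt {q q' : (ℕ × ℤ) × ℕ} (h : q'.1.1 + q'.2 < q.1.1 + q.2) : rB q' < rB q := by
  unfold rB
  rw [Prod.Lex.toLex_lt_toLex]
  exact Or.inl h

/-- (ii). PROOF. `C = 2 C1` of `V_pos_neg`. For `q = ((t, x), j) ∈ Box H` let `l = t + j` (`≤ H`), `ι q = io (Fi (Box H) rB (2 Y ≤ V · ) q)`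
(the FIRST end level): it depends on `rows 0 l` (`dep_Fi`, `rB_le`). `V (t, x) (2 H - t) ≥ V (t, x) j - R q`,
`R q = (∑_k W (t, x) j k max (- V (l, x + k) (2 H - l)) 0) / exp (V (t, x) j)` (`V_add_jensen`), so if `ι q = 1` and
`V (t, x) (2 H - t) < Y` then `Y ≤ R q`: `ι q ≤ ι q io (∃ w ∈ Bw H, Y ≤ ..) + ι q R q / Y`. Independence
(`integral_indep`, `ι q W / exp V` depends on `rows 0 l`): `∫ ι q R q ≤ P (ι q) 3 E (C1 (2 H - l)) ≤ P (ι q) Y / 2`
(`∑_k W = exp V`: `exp_V`; `integral_V_fun`). Sum over `q` (`sum_Fi` twice, `ι q` sum `≤ 1`). -/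
theorem Mx_hit (S : Setup μ s v1 v2) : ∃ C : ℕ, 1 ≤ C ∧ ∀ H : ℕ, 1 ≤ H → ∀ Y : ℝ, 6 * E μ s v1 v2 (C * H) ≤ Y →
    ∫ η, io (∃ q ∈ Box H, 2 * Y ≤ V μ s η ((q.1.1 : ℤ), q.1.2) q.2) ∂(law μ) ≤
      2 * ∫ η, io (∃ w ∈ Bw H, Y ≤ V μ s η ((w.1 : ℤ), w.2) (2 * H - w.1)) ∂(law μ) := by
  classical
  obtain ⟨C1, hC1, hpn⟩ := V_pos_neg S
  refine ⟨2 * C1, by omega, fun H hH Y hY => ?_⟩
  have hEM := S.em
  have hE1 := one_le_E S (2 * C1 * H)
  have hY0 : 0 < Y := by linarith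
  have hmem : ∀ q : (ℕ × ℤ) × ℕ, q ∈ Box H →
      q.1.1 ≤ H ∧ -(H : ℤ) ≤ q.1.2 ∧ q.1.2 ≤ H ∧ q.1.1 + q.2 ≤ H := by
    intro q hq
    unfold Box at hq
    rw [Finset.mem_filter, Finset.mem_product, Finset.mem_product, Finset.mem_range, Finset.mem_Icc,
      Finset.mem_range] at hq
    omega
  obtain ⟨p, hp⟩ : ∃ p : (ℕ × ℤ) × ℕ → Env → Prop, p = fun q η =>
    2 * Y ≤ V μ s η ((q.1.1 : ℤ), q.1.2) q.2 := ⟨_, rfl⟩
  obtain ⟨b, hb⟩ : ∃ b : Env → Prop, b = fun η =>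
    ∃ w ∈ Bw H, Y ≤ V μ s η ((w.1 : ℤ), w.2) (2 * H - w.1) := ⟨_, rfl⟩
  have hpm : ∀ q, MeasurableSet {η | p q η} := by
    intro q
    rw [hp]
    exact measurableSet_le measurable_const (measurable_V _ _)
  have hbm : MeasurableSet {η | b η} := by
    have e : {η | b η} = ⋃ w ∈ Bw H, {η | Y ≤ V μ s η ((w.1 : ℤ), w.2) (2 * H - w.1)} := by
      rw [hb]
      ext η
      simp only [Set.mem_ofPred_eq, Set.mem_iUnion, exists_prop]
    rw [e]
    exact Finset.measurableSet_biUnion _ fun w _ => measurableSet_le measurable_const (measurable_V _ _)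
  obtain ⟨ι, hι⟩ : ∃ ι : (ℕ × ℤ) × ℕ → Env → ℝ, ι = fun q η => io (Fi (Box H) rB (fun q => p q η) q) :=
    ⟨_, rfl⟩
  have hιm : ∀ q ∈ Box H, Measurable (ι q) := by
    intro q hq
    rw [hι]
    exact measurable_io (meas_Fi (Box H) rB (fun q _ => hpm q) hq)
  have hι0 : ∀ q η, 0 ≤ ι q η := fun q η => by rw [hι]; exact io_nonneg _
  have hι1 : ∀ q η, ι q η ≤ 1 := fun q η => by rw [hι]; exact io_le_one _
  have hιsum : ∀ η, ∑ q ∈ Box H, ι q η = io (∃ q ∈ Box H, p q η) := by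
    intro η
    rw [hι]
    exact sum_Fi (Box H) rB_inj fun q => p q η
  have hιdep : ∀ q ∈ Box H, DependsOn (ι q) (rows 0 ((q.1.1 : ℤ) + q.2)) := by
    intro q hq
    rw [hι]
    refine dep_Fi (Box H) rB hq fun q' hq' hle η η' h => ?_
    have h1 := rB_le hle
    have h2 : V μ s η ((q'.1.1 : ℤ), q'.1.2) q'.2 = V μ s η' ((q'.1.1 : ℤ), q'.1.2) q'.2 := by
      refine V_dep_rows (μ := μ) (s := s) _ _ fun x hx => h x (rows_mono (by simp) ?_ hx)
      show (q'.1.1 : ℤ) + q'.2 ≤ (q.1.1 : ℤ) + q.2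
      omega
    rw [hp]
    show 2 * Y ≤ _ ↔ 2 * Y ≤ _
    rw [h2]
  -- the kernel
  obtain ⟨g, hg⟩ : ∃ g : (ℕ × ℤ) × ℕ → ℤ → Env → ℝ, g = fun q k η => ι q η *
    (W μ s η ((q.1.1 : ℤ), q.1.2) q.2 k / Real.exp (V μ s η ((q.1.1 : ℤ), q.1.2) q.2)) := ⟨_, rfl⟩
  obtain ⟨nn, hnn⟩ : ∃ nn : (ℕ × ℤ) × ℕ → ℤ → Env → ℝ, nn = fun q k η =>
    max (-V μ s η ((q.1.1 : ℤ) + q.2, q.1.2 + k) (2 * H - (q.1.1 + q.2))) 0 := ⟨_, rfl⟩
  have hg0 : ∀ q k η, 0 ≤ g q k η := fun q k η => by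
    rw [hg]
    exact mul_nonneg (hι0 q η) (div_nonneg (W_nonneg _ _ _ _) (Real.exp_pos _).le)
  have hgm : ∀ q ∈ Box H, ∀ k, Measurable (g q k) := by
    intro q hq k
    rw [hg]
    exact (hιm q hq).mul ((measurable_W _ _ _).div (Real.measurable_exp.comp (measurable_V _ _)))
  have hgsum : ∀ q η, ∑ k ∈ Finset.Icc (0 : ℤ) q.2, g q k η = ι q η := by
    intro q η
    rw [hg]
    simp only
    rw [← Finset.mul_sum, ← Finset.sum_div]
    have h1 := exp_V (μ := μ) (s := s) η ((q.1.1 : ℤ), q.1.2) q.2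
    unfold WS at h1
    rw [← h1, div_self (Real.exp_pos _).ne', mul_one]
  have hg1 : ∀ q ∈ Box H, ∀ k ∈ Finset.Icc (0 : ℤ) q.2, ∀ η, g q k η ≤ 1 := by
    intro q _ k hk η
    have h1 := Finset.single_le_sum (f := fun k => g q k η) (fun k _ => hg0 q k η) hk
    exact h1.trans ((hgsum q η).le.trans (hι1 q η))
  have hn0 : ∀ q k η, 0 ≤ nn q k η := fun q k η => by rw [hnn]; exact le_max_right _ _
  have hnS : ∀ q k, Sub (nn q k) := fun q k => by
    rw [hnn]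
    exact (Sub_V _ _).neg.max (Sub.const 0)
  -- pointwise
  have hpt1 : ∀ q ∈ Box H, ∀ η, ι q η ≤ ι q η * io (b η) +
      1 / Y * ∑ k ∈ Finset.Icc (0 : ℤ) q.2, g q k η * nn q k η := by
    intro q hq η
    have hq' := hmem q hq
    have hs0 : 0 ≤ ∑ k ∈ Finset.Icc (0 : ℤ) q.2, g q k η * nn q k η :=
      Finset.sum_nonneg fun k _ => mul_nonneg (hg0 q k η) (hn0 q k η)
    by_cases hF : Fi (Box H) rB (fun q => p q η) q
    · have hι' : ι q η = 1 := by rw [hι]; exact io_of hF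
      by_cases hB : b η
      · rw [io_of hB, hι']
        have : 0 ≤ 1 / Y * ∑ k ∈ Finset.Icc (0 : ℤ) q.2, g q k η * nn q k η := by positivity
        linarith
      · rw [io_not hB, hι', mul_zero, zero_add]
        have h1 : 2 * Y ≤ V μ s η ((q.1.1 : ℤ), q.1.2) q.2 := by
          have := hF.1
          rw [hp] at this
          exact this
        have h2 : V μ s η ((q.1.1 : ℤ), q.1.2) (2 * H - q.1.1) < Y := by
          by_contra hcon
          refine hB ?_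
          rw [hb]
          refine ⟨q.1, ?_, not_lt.1 hcon⟩
          unfold Bw
          rw [Finset.mem_product, Finset.mem_range, Finset.mem_Icc]
          omega
        have h3 := V_add_jensen (μ := μ) (s := s) η ((q.1.1 : ℤ), q.1.2) q.2 (2 * H - (q.1.1 + q.2))
        rw [show q.2 + (2 * H - (q.1.1 + q.2)) = 2 * H - q.1.1 by omega] at h3
        have h4 : -((∑ k ∈ Finset.Icc (0 : ℤ) q.2, W μ s η ((q.1.1 : ℤ), q.1.2) q.2 k *
            V μ s η ((q.1.1 : ℤ) + q.2, q.1.2 + k) (2 * H - (q.1.1 + q.2))) /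
              Real.exp (V μ s η ((q.1.1 : ℤ), q.1.2) q.2)) ≤
            ∑ k ∈ Finset.Icc (0 : ℤ) q.2, g q k η * nn q k η := by
          rw [Finset.sum_div, ← Finset.sum_neg_distrib]
          refine Finset.sum_le_sum fun k _ => ?_
          rw [hg, hnn]
          simp only
          rw [hι', one_mul]
          have h5 : 0 ≤ W μ s η ((q.1.1 : ℤ), q.1.2) q.2 k /
            Real.exp (V μ s η ((q.1.1 : ℤ), q.1.2) q.2) := div_nonneg (W_nonneg _ _ _ _) (Real.exp_pos _).le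
          have h6 := mul_le_mul_of_nonneg_left
            (le_max_left (-V μ s η ((q.1.1 : ℤ) + q.2, q.1.2 + k) (2 * H - (q.1.1 + q.2))) 0) h5
          refine le_trans (le_of_eq ?_) h6
          ring
        have h5 : Y ≤ ∑ k ∈ Finset.Icc (0 : ℤ) q.2, g q k η * nn q k η := by
          have h3' : V μ s η ((q.1.1 : ℤ), q.1.2) q.2 + (∑ k ∈ Finset.Icc (0 : ℤ) q.2,
              W μ s η ((q.1.1 : ℤ), q.1.2) q.2 k *
                V μ s η ((q.1.1 : ℤ) + q.2, q.1.2 + k) (2 * H - (q.1.1 + q.2))) /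
              Real.exp (V μ s η ((q.1.1 : ℤ), q.1.2) q.2) ≤
              V μ s η ((q.1.1 : ℤ), q.1.2) (2 * H - q.1.1) := h3
          linarith
        rw [one_div, ← div_eq_inv_mul, one_le_div hY0]
        exact h5
    · have hι' : ι q η = 0 := by rw [hι]; exact io_not hF
      rw [hι', zero_mul, zero_add]
      positivity
  have hpt : ∀ η, io (∃ q ∈ Box H, p q η) ≤ io (b η) +
      1 / Y * ∑ q ∈ Box H, ∑ k ∈ Finset.Icc (0 : ℤ) q.2, g q k η * nn q k η := by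
    intro η
    have h1 := Finset.sum_le_sum fun q hq => hpt1 q hq η
    rw [Finset.sum_add_distrib, ← Finset.sum_mul, ← Finset.mul_sum, hιsum] at h1
    have h2 : io (∃ q ∈ Box H, p q η) * io (b η) ≤ 1 * io (b η) :=
      mul_le_mul_of_nonneg_right (io_le_one _) (io_nonneg _)
    linarith
  -- integrals
  have hgi : ∀ q ∈ Box H, ∀ k ∈ Finset.Icc (0 : ℤ) q.2, Integrable (g q k) (law μ) := by
    intro q hq k hk
    refine (integrable_const (1 : ℝ)).mono' (hgm q hq k).aestronglyMeasurable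
      (Filter.Eventually.of_forall fun η => ?_)
    rw [Real.norm_eq_abs, abs_of_nonneg (hg0 q k η)]
    exact hg1 q hq k hk η
  have hgni : ∀ q ∈ Box H, ∀ k ∈ Finset.Icc (0 : ℤ) q.2,
      Integrable (fun η => g q k η * nn q k η) (law μ) := by
    intro q hq k hk
    refine ((hnS q k).integrable hEM).mono' ((hgm q hq k).mul (hnS q k).1).aestronglyMeasurable
      (Filter.Eventually.of_forall fun η => ?_)
    rw [Real.norm_eq_abs, abs_of_nonneg (mul_nonneg (hg0 q k η) (hn0 q k η))]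
    exact mul_le_of_le_one_left (hn0 q k η) (hg1 q hq k hk η)
  have hιi : ∀ q ∈ Box H, Integrable (ι q) (law μ) := by
    intro q hq
    refine (integrable_const (1 : ℝ)).mono' (hιm q hq).aestronglyMeasurable
      (Filter.Eventually.of_forall fun η => ?_)
    rw [Real.norm_eq_abs, abs_of_nonneg (hι0 q η)]
    exact hι1 q η
  have hexm : MeasurableSet {η | ∃ q ∈ Box H, p q η} := by
    have e : {η | ∃ q ∈ Box H, p q η} = ⋃ q ∈ Box H, {η | p q η} := by
      ext η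
      simp only [Set.mem_ofPred_eq, Set.mem_iUnion, exists_prop]
    rw [e]
    exact Finset.measurableSet_biUnion _ fun q _ => hpm q
  have hio : ∀ {P : Env → Prop}, MeasurableSet {η | P η} → Integrable (fun η => io (P η)) (law μ) := by
    intro P hP
    refine (integrable_const (1 : ℝ)).mono' (measurable_io hP).aestronglyMeasurable
      (Filter.Eventually.of_forall fun η => ?_)
    rw [Real.norm_eq_abs, abs_of_nonneg (io_nonneg _)]
    exact io_le_one _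
  have hNk : ∀ q ∈ Box H, ∀ k : ℤ, ∫ η, nn q k η ∂(law μ) ≤ Y / 2 := by
    intro q _ k
    rw [hnn]
    simp only
    have h1 := integral_V_fun (μ := μ) (s := s) (f := fun x => max (-x) 0) (by fun_prop)
      ((q.1.1 : ℤ) + q.2, q.1.2 + k) (2 * H - (q.1.1 + q.2))
    rw [h1]
    have h2 := (hpn (2 * H - (q.1.1 + q.2))).2
    have h3 : E μ s v1 v2 (C1 * (2 * H - (q.1.1 + q.2))) ≤ E μ s v1 v2 (2 * C1 * H) := by
      refine E_mono S ?_
      calc C1 * (2 * H - (q.1.1 + q.2)) ≤ C1 * (2 * H) := Nat.mul_le_mul_left _ (Nat.sub_le _ _)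
        _ = 2 * C1 * H := by ring
    linarith
  have hprod : ∀ q ∈ Box H, ∀ k ∈ Finset.Icc (0 : ℤ) q.2,
      ∫ η, g q k η * nn q k η ∂(law μ) ≤ (∫ η, g q k η ∂(law μ)) * (Y / 2) := by
    intro q hq k hk
    have hgd : DependsOn (g q k) (rows 0 ((q.1.1 : ℤ) + q.2)) := by
      intro η η' h
      have h1 := hιdep q hq h
      have hsub : rows (q.1.1 : ℤ) ((q.1.1 : ℤ) + q.2) ⊆ rows 0 ((q.1.1 : ℤ) + q.2) :=
        rows_mono (by simp) le_rfl
      have h2 : W μ s η ((q.1.1 : ℤ), q.1.2) q.2 k = W μ s η' ((q.1.1 : ℤ), q.1.2) q.2 k :=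
        W_dep_rows (μ := μ) (s := s) _ _ _ fun x hx => h x (hsub hx)
      have h3 : V μ s η ((q.1.1 : ℤ), q.1.2) q.2 = V μ s η' ((q.1.1 : ℤ), q.1.2) q.2 :=
        V_dep_rows (μ := μ) (s := s) _ _ fun x hx => h x (hsub hx)
      rw [hg]
      show ι q η * _ = ι q η' * _
      rw [h1, h2, h3]
    have hnd : DependsOn (nn q k) (rows ((q.1.1 : ℤ) + q.2) (2 * H)) := by
      intro η η' h
      have hl := (hmem q (by assumption)).2.2.2
      have h3 : V μ s η ((q.1.1 : ℤ) + q.2, q.1.2 + k) (2 * H - (q.1.1 + q.2)) =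
          V μ s η' ((q.1.1 : ℤ) + q.2, q.1.2 + k) (2 * H - (q.1.1 + q.2)) := by
        refine V_dep_rows (μ := μ) (s := s) _ _ fun x hx => h x (rows_mono le_rfl ?_ hx)
        show (q.1.1 : ℤ) + q.2 + ((2 * H - (q.1.1 + q.2) : ℕ) : ℤ) ≤ 2 * H
        omega
      rw [hnn]
      show max (-_) 0 = max (-_) 0
      rw [h3]
    rw [integral_indep (hgm q hq k) (hnS q k).1 hgd hnd (rows_disj le_rfl)]
    exact mul_le_mul_of_nonneg_left (hNk q hq k) (integral_nonneg fun η => hg0 q k η)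
  have hint : ∫ η, io (∃ q ∈ Box H, p q η) ∂(law μ) ≤ ∫ η, io (b η) ∂(law μ) +
      1 / Y * ∑ q ∈ Box H, ∑ k ∈ Finset.Icc (0 : ℤ) q.2, ∫ η, g q k η * nn q k η ∂(law μ) := by
    have i1 : ∀ q ∈ Box H, Integrable (fun η => ∑ k ∈ Finset.Icc (0 : ℤ) q.2, g q k η * nn q k η)
        (law μ) := fun q hq => integrable_finsetSum _ (hgni q hq)
    have i2 : Integrable (fun η => ∑ q ∈ Box H, ∑ k ∈ Finset.Icc (0 : ℤ) q.2, g q k η * nn q k η)
        (law μ) := integrable_finsetSum _ i1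
    have e1 : ∑ q ∈ Box H, ∑ k ∈ Finset.Icc (0 : ℤ) q.2, ∫ η, g q k η * nn q k η ∂(law μ) =
        ∫ η, ∑ q ∈ Box H, ∑ k ∈ Finset.Icc (0 : ℤ) q.2, g q k η * nn q k η ∂(law μ) := by
      rw [integral_finsetSum _ i1]
      exact Finset.sum_congr rfl fun q hq => (integral_finsetSum _ (hgni q hq)).symm
    rw [e1, ← integral_const_mul, ← integral_add (hio hbm) (i2.const_mul _)]
    exact integral_mono (hio hexm) ((hio hbm).add (i2.const_mul _)) hpt
  have hsum : ∑ q ∈ Box H, ∑ k ∈ Finset.Icc (0 : ℤ) q.2, ∫ η, g q k η * nn q k η ∂(law μ) ≤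
      (∫ η, io (∃ q ∈ Box H, p q η) ∂(law μ)) * (Y / 2) := by
    have h1 : ∀ q ∈ Box H, ∑ k ∈ Finset.Icc (0 : ℤ) q.2, ∫ η, g q k η * nn q k η ∂(law μ) ≤
        (∫ η, ι q η ∂(law μ)) * (Y / 2) := by
      intro q hq
      refine (Finset.sum_le_sum (hprod q hq)).trans (le_of_eq ?_)
      rw [← Finset.sum_mul, ← integral_finsetSum _ (hgi q hq)]
      congr 2
      funext η
      exact hgsum q η
    refine (Finset.sum_le_sum h1).trans (le_of_eq ?_)
    rw [← Finset.sum_mul, ← integral_finsetSum _ hιi]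
    congr 2
    funext η
    exact hιsum η
  have h5 : 1 / Y * ∑ q ∈ Box H, ∑ k ∈ Finset.Icc (0 : ℤ) q.2, ∫ η, g q k η * nn q k η ∂(law μ) ≤
      (∫ η, io (∃ q ∈ Box H, p q η) ∂(law μ)) / 2 := by
    calc 1 / Y * ∑ q ∈ Box H, ∑ k ∈ Finset.Icc (0 : ℤ) q.2, ∫ η, g q k η * nn q k η ∂(law μ)
        ≤ 1 / Y * ((∫ η, io (∃ q ∈ Box H, p q η) ∂(law μ)) * (Y / 2)) :=
          mul_le_mul_of_nonneg_left hsum (by positivity)
      _ = (∫ η, io (∃ q ∈ Box H, p q η) ∂(law μ)) / 2 := by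
          field_simp
  have h6 : ∫ η, io (∃ q ∈ Box H, p q η) ∂(law μ) ≤ 2 * ∫ η, io (b η) ∂(law μ) := by linarith
  rw [hp, hb] at h6
  exact h6

end Pool.Agent.W_7d29a1_F
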