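import Pool.Agent.W_7d29a1_F.Final
import Pool.Agent.W_7d29a1_h47q.MainR

/-!
THEOREM F for the objects of the problem.
-/

namespace Pool.Agent.W_7d29a1_F

open MeasureTheory ProbabilityTheory Filter Topology
open Pool.Agent.W_7d29a1_h47 (LamN PC PC_LamN EM_of Nondeg_of map_toEnv tendsto_logZ log_endMGF
  lam_arg_max leg_isLUB endMGF forceP walk endP polE endMGF_pos energy den_eq Z_pos main_ld)

/-- The Legendre transform of a differentiable function is strictly convex. -/
theorem strictConvexOn_of_diff {L J : ℝ → ℝ} {m : ℝ} (hL : PC L m)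
    (hd : ∀ h, DifferentiableAt ℝ L h)
    (hJ : ∀ v, |v| < 1 → IsLUB (Set.range fun h => h * v - L h) (J v)) :
    StrictConvexOn ℝ (Set.Ioo (-1) 1) J := by
  refine ⟨convex_Ioo _ _, fun v hv w hw hvw a b ha hb hab => ?_⟩
  have hv1 : |v| < 1 := abs_lt.2 hv
  have hw1 : |w| < 1 := abs_lt.2 hw
  have hu : a * v + b * w ∈ Set.Ioo (-1 : ℝ) 1 := by
    have := (convex_Ioo (-1 : ℝ) 1) hv hw ha.le hb.le hab
    simpa [smul_eq_mul] using this
  have hu1 : |a * v + b * w| < 1 := abs_lt.2 hu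
  set u : ℝ := a * v + b * w with hudef
  obtain ⟨h, hh⟩ := Pool.Agent.W_7d29a1_h47.exists_max hL hu1
  have hJu : J u ≤ h * u - L h := (hJ u hu1).2 (by rintro _ ⟨h', rfl⟩; exact hh h')
  have hder : deriv L h = u := by
    have h1 : IsLocalMax (fun x => x * u - L x) h := by
      refine Eventually.of_forall fun x => hh x
    have h2 : HasDerivAt (fun x => x * u - L x) (1 * u - deriv L h) h :=
      ((hasDerivAt_id h).mul_const u).sub (hd h).hasDerivAt
    have h3 := h1.hasDerivAt_eq_zero h2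
    linarith
  have key : ∀ x : ℝ, |x| < 1 → x ≠ u → h * x - L h < J x := by
    intro x hx hxu
    rcases lt_or_eq_of_le ((hJ x hx).1 ⟨h, rfl⟩) with h1 | h1
    · exact h1
    · exfalso
      have h2 : IsLocalMax (fun y => y * x - L y) h := by
        refine Eventually.of_forall fun y => ?_
        have := (hJ x hx).1 ⟨y, rfl⟩
        simp only at h1 this ⊢
        linarith
      have h3 : HasDerivAt (fun y => y * x - L y) (1 * x - deriv L h) h :=
        ((hasDerivAt_id h).mul_const x).sub (hd h).hasDerivAt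
      have h4 := h2.hasDerivAt_eq_zero h3
      exact hxu (by linarith)
  have hvu : v ≠ u := by
    intro h1
    apply hvw
    have h2 : b * (w - v) = 0 := by
      have : a = 1 - b := by linarith
      rw [hudef, this] at h1
      linarith
    rcases mul_eq_zero.1 h2 with h3 | h3
    · linarith
    · linarith
  have hwu : w ≠ u := by
    intro h1
    apply hvw
    have h2 : a * (w - v) = 0 := by
      have : b = 1 - a := by linarith
      rw [hudef, this] at h1
      linarith
    rcases mul_eq_zero.1 h2 with h3 | h3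
    · linarith
    · linarith
  have h5 := key v hv1 hvu
  have h6 := key w hw1 hwu
  simp only [smul_eq_mul]
  change J u < _
  have h7 : h * u - L h = a * (h * v - L h) + b * (h * w - L h) := by
    have : L h = (a + b) * L h := by rw [hab, one_mul]
    rw [hudef]
    nlinarith
  nlinarith

/-- Chernoff bounds for the end point of the forced walk. -/
theorem one_sub_forceP_le2 (β h : ℝ) {t : ℝ} (ht : 0 < t) (a b : ℝ) (ω : ℕ × ℤ → ℝ) (n : ℕ) :
    1 - forceP β h ω n {s | a * n ≤ (walk s n : ℝ) ∧ (walk s n : ℝ) ≤ b * n} ≤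
      (Real.exp (-(t * b * n)) * endMGF β (h + t) ω n +
        Real.exp (t * a * n) * endMGF β (h - t) ω n) / endMGF β h ω n := by
  classical
  have hpos := endMGF_pos β h ω n
  have hD : 0 < ∑ s : Fin n → Bool, Real.exp (β * energy ω s) := by
    rw [den_eq]; exact Z_pos _ _ _ _ _
  obtain ⟨A, hA⟩ : ∃ A : Set (Fin n → Bool), A =
      {s | a * n ≤ (walk s n : ℝ) ∧ (walk s n : ℝ) ≤ b * n} := ⟨_, rfl⟩
  rw [← hA]
  have key : endMGF β h ω n - (polE β ω n fun s => if s ∈ A then
      Real.exp (h * (walk s n : ℝ)) else 0) ≤ Real.exp (-(t * b * n)) * endMGF β (h + t) ω n +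
        Real.exp (t * a * n) * endMGF β (h - t) ω n := by
    unfold endMGF polE
    rw [← sub_div, ← mul_div_assoc, ← mul_div_assoc, ← add_div, div_le_div_iff_of_pos_right hD,
      ← Finset.sum_sub_distrib, Finset.mul_sum, Finset.mul_sum, ← Finset.sum_add_distrib]
    refine Finset.sum_le_sum fun s _ => ?_
    have p1 : 0 < Real.exp (β * energy ω s) := Real.exp_pos _
    have p2 : 0 ≤ Real.exp (-(t * b * n)) * (Real.exp ((h + t) * (walk s n : ℝ)) *
        Real.exp (β * energy ω s)) := by positivity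
    have p3 : 0 ≤ Real.exp (t * a * n) * (Real.exp ((h - t) * (walk s n : ℝ)) *
        Real.exp (β * energy ω s)) := by positivity
    by_cases hs : s ∈ A
    · simp only [hs, if_true, sub_self]
      exact add_nonneg p2 p3
    · simp only [hs, if_false, zero_mul, sub_zero]
      have hs' : (walk s n : ℝ) < a * n ∨ b * n < (walk s n : ℝ) := by
        by_contra hcon
        push Not at hcon
        exact hs (by rw [hA]; exact hcon)
      rcases hs' with h1 | h1
      · have h2 : Real.exp (h * (walk s n : ℝ)) ≤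
            Real.exp (t * a * n) * Real.exp ((h - t) * (walk s n : ℝ)) := by
          rw [← Real.exp_add]
          refine Real.exp_le_exp.2 ?_
          nlinarith
        have h3 := mul_le_mul_of_nonneg_right h2 p1.le
        rw [mul_assoc] at h3
        linarith
      · have h2 : Real.exp (h * (walk s n : ℝ)) ≤
            Real.exp (-(t * b * n)) * Real.exp ((h + t) * (walk s n : ℝ)) := by
          rw [← Real.exp_add]
          refine Real.exp_le_exp.2 ?_
          nlinarith
        have h3 := mul_le_mul_of_nonneg_right h2 p1.le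
        rw [mul_assoc] at h3
        linarith
  have h2 : 1 - forceP β h ω n A = (endMGF β h ω n - (polE β ω n fun s => if s ∈ A then
      Real.exp (h * (walk s n : ℝ)) else 0)) / endMGF β h ω n := by
    unfold forceP
    rw [sub_div, div_self hpos.ne']
  rw [h2]
  exact div_le_div_of_nonneg_right key hpos.le

/-- The law of large numbers for the end point under the force `h`, with exponential rate, from the
differentiability of the free energy. -/
theorem lln_of_diff {Ω : Type*} [MeasurableSpace Ω] (P : Measure Ω) (ω : ℕ × ℤ → Ω → ℝ) {β : ℝ}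
    {lam : ℝ → ℝ} (hlim : ∀ h, ∀ᵐ x ∂P, Tendsto
      (fun n : ℕ => Real.log (endMGF β h (fun p => ω p x) n) / n) atTop (𝓝 (lam h))) {h : ℝ}
    (hd : DifferentiableAt ℝ lam h) {ε : ℝ} (hε : 0 < ε) :
    ∃ c : ℝ, 0 < c ∧ ∀ᵐ x ∂P, ∀ᶠ n : ℕ in atTop, 1 - Real.exp (-(c * n)) ≤
      forceP β h (fun p => ω p x) n {s | |(walk s n : ℝ) - deriv lam h * n| ≤ ε * n} := by
  obtain ⟨v, hv⟩ : ∃ v : ℝ, v = deriv lam h := ⟨_, rfl⟩
  have hd1 : HasDerivAt lam v h := by rw [hv]; exact hd.hasDerivAt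
  -- a small tilt
  have h1 : ∀ᶠ x in 𝓝 h, |lam x - lam h - (x - h) * v| ≤ ε / 4 * |x - h| := by
    have h2 := hasDerivAt_iff_isLittleO.1 hd1
    have h3 := h2.bound (show (0 : ℝ) < ε / 4 by linarith)
    simpa [smul_eq_mul] using h3
  obtain ⟨δ, hδ, hδ1⟩ := Metric.eventually_nhds_iff.1 h1
  obtain ⟨t, ht⟩ : ∃ t : ℝ, t = δ / 2 := ⟨_, rfl⟩
  have ht0 : 0 < t := by rw [ht]; linarith
  have htδ : t < δ := by rw [ht]; linarith
  have hp : lam (h + t) ≤ lam h + t * v + ε / 4 * t := by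
    have h2 := hδ1 (y := h + t) (by
      rw [Real.dist_eq, add_sub_cancel_left, abs_of_pos ht0]; exact htδ)
    rw [add_sub_cancel_left, abs_of_pos ht0] at h2
    linarith [(abs_le.1 h2).2]
  have hm : lam (h - t) ≤ lam h - t * v + ε / 4 * t := by
    have h2 := hδ1 (y := h - t) (by
      rw [Real.dist_eq, sub_sub_cancel_left, abs_neg, abs_of_pos ht0]; exact htδ)
    rw [sub_sub_cancel_left, abs_neg, abs_of_pos ht0] at h2
    linarith [(abs_le.1 h2).2]
  refine ⟨t * ε / 4, by positivity, ?_⟩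
  filter_upwards [hlim h, hlim (h + t), hlim (h - t)] with x hx hxp hxm
  have e0 : ∀ᶠ n : ℕ in atTop, lam h - t * ε / 16 <
      Real.log (endMGF β h (fun p => ω p x) n) / n :=
    hx.eventually_const_lt (by nlinarith)
  have e1 : ∀ᶠ n : ℕ in atTop, Real.log (endMGF β (h + t) (fun p => ω p x) n) / n <
      lam (h + t) + t * ε / 16 := hxp.eventually_lt_const (by nlinarith)
  have e2 : ∀ᶠ n : ℕ in atTop, Real.log (endMGF β (h - t) (fun p => ω p x) n) / n <
      lam (h - t) + t * ε / 16 := hxm.eventually_lt_const (by nlinarith)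
  have e3 : ∀ᶠ n : ℕ in atTop, Real.log 2 ≤ t * ε / 8 * n := by
    have h6 : Tendsto (fun n : ℕ => t * ε / 8 * (n : ℝ)) atTop atTop :=
      tendsto_natCast_atTop_atTop.const_mul_atTop (by positivity)
    exact h6.eventually_ge_atTop _
  filter_upwards [e0, e1, e2, e3, eventually_gt_atTop 0] with n h0 h1 h2 h3 hn
  have hn1 : (0 : ℝ) < n := by exact_mod_cast hn
  rw [lt_div_iff₀ hn1] at h0
  rw [div_lt_iff₀ hn1] at h1 h2
  have hset : {s : Fin n → Bool | |(walk s n : ℝ) - deriv lam h * n| ≤ ε * n} =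
      {s | (v - ε) * n ≤ (walk s n : ℝ) ∧ (walk s n : ℝ) ≤ (v + ε) * n} := by
    ext s
    simp only [Set.mem_setOf_eq, ← hv, abs_le]
    constructor
    · rintro ⟨q1, q2⟩
      constructor <;> nlinarith
    · rintro ⟨q1, q2⟩
      constructor <;> nlinarith
  rw [hset]
  have h4 := one_sub_forceP_le2 β h ht0 (v - ε) (v + ε) (fun p => ω p x) n
  have hpos := endMGF_pos β h (fun p => ω p x) n
  have hposp := endMGF_pos β (h + t) (fun p => ω p x) n
  have hposm := endMGF_pos β (h - t) (fun p => ω p x) n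
  have b1 : Real.exp (-(t * (v + ε) * n)) * endMGF β (h + t) (fun p => ω p x) n /
      endMGF β h (fun p => ω p x) n ≤ Real.exp (-(t * ε / 4 * n)) / 2 := by
    rw [le_div_iff₀ two_pos, ← Real.exp_log hposp, ← Real.exp_log hpos, ← Real.exp_add,
      ← Real.exp_sub]
    conv_lhs => rw [← Real.exp_log (two_pos : (0 : ℝ) < 2), ← Real.exp_add]
    refine Real.exp_le_exp.2 ?_
    have q : lam (h + t) * n ≤ (lam h + t * v + ε / 4 * t) * n :=
      mul_le_mul_of_nonneg_right hp hn1.le
    have r1 : t * ε * n ≥ 0 := by positivity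
    nlinarith
  have b2 : Real.exp (t * (v - ε) * n) * endMGF β (h - t) (fun p => ω p x) n /
      endMGF β h (fun p => ω p x) n ≤ Real.exp (-(t * ε / 4 * n)) / 2 := by
    rw [le_div_iff₀ two_pos, ← Real.exp_log hposm, ← Real.exp_log hpos, ← Real.exp_add,
      ← Real.exp_sub]
    conv_lhs => rw [← Real.exp_log (two_pos : (0 : ℝ) < 2), ← Real.exp_add]
    refine Real.exp_le_exp.2 ?_
    have q : lam (h - t) * n ≤ (lam h - t * v + ε / 4 * t) * n :=
      mul_le_mul_of_nonneg_right hm hn1.le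
    have r1 : t * ε * n ≥ 0 := by positivity
    nlinarith
  rw [add_div] at h4
  linarith

/-- The main theorem. -/
theorem main_F {Ω : Type*} [MeasurableSpace Ω] (P : Measure Ω) [IsProbabilityMeasure P]
    (ω : ℕ × ℤ → Ω → ℝ) (hmeas : ∀ p, Measurable (ω p)) (hindep : iIndepFun ω P)
    (hident : ∀ p q, IdentDistrib (ω p) (ω q) P P) (hnc : ¬ ∃ c : ℝ, ∀ᵐ x ∂P, ω (0, 0) x = c)
    (hexp : ∀ b : ℝ, Integrable (fun x => Real.exp (b * ω (0, 0) x)) P) {β : ℝ} (hβ : 0 < β) :
    ∃ lam J : ℝ → ℝ, StrictConvexOn ℝ Set.univ lam ∧ Differentiable ℝ lam ∧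
      (∀ h, lam (-h) = lam h) ∧ (∀ h, h ≠ 0 → 0 < lam h) ∧
      (∀ H : ℝ, ∃ c : ℝ, 0 < c ∧ ∀ h, |h| ≤ H → ∀ u : ℝ, 0 < u → u ≤ 1 →
        c * u ^ 100 ≤ lam (h + u) + lam (h - u) - 2 * lam h) ∧
      (∀ h, ∀ᵐ x ∂P, Tendsto (fun n : ℕ => Real.log (endMGF β h (fun p => ω p x) n) / n) atTop
        (𝓝 (lam h))) ∧
      (∀ h, ∀ ε : ℝ, 0 < ε → ∃ c : ℝ, 0 < c ∧ ∀ᵐ x ∂P, ∀ᶠ n : ℕ in atTop,
        1 - Real.exp (-(c * n)) ≤
          forceP β h (fun p => ω p x) n {s | |(walk s n : ℝ) - deriv lam h * n| ≤ ε * n}) ∧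
      (∀ v, |v| < 1 → IsLUB (Set.range fun h => h * v - lam h) (J v)) ∧
      (∀ v, |v| < 1 → ∀ y : ℕ → ℤ, (∀ n, (y n - n) % 2 = 0) →
        Tendsto (fun n : ℕ => (y n : ℝ) / n) atTop (𝓝 v) →
        ∀ᵐ x ∂P, Tendsto (fun n : ℕ => -Real.log (endP β (fun p => ω p x) n (y n)) / n) atTop
          (𝓝 (J v))) ∧
      StrictConvexOn ℝ (Set.Ioo (-1) 1) J ∧
      (∀ v, |v| < 1 → DifferentiableAt ℝ J v) ∧
      ∀ a : ℝ, a < 1 → ∃ C : ℝ, ∀ v w : ℝ, |v| ≤ a → |w| ≤ a →
        |deriv J v - deriv J w| ≤ C * |v - w| ^ (1 / 99 : ℝ) := by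
  obtain ⟨lam, J, h1, h2, h3, hpow, h4, h5, h6, h7, h8, h9⟩ :=
    main_ld P ω hmeas hindep hident hnc hexp hβ
  obtain ⟨μ, hμdef⟩ : ∃ μ : Measure ℝ, μ = P.map fun x => β * ω (0, 0) x := ⟨_, rfl⟩
  have hm0 : Measurable fun x => β * ω (0, 0) x := (hmeas _).const_mul β
  have hprob : IsProbabilityMeasure μ := by
    rw [hμdef]
    exact Measure.isProbabilityMeasure_map hm0.aemeasurable
  have hμ : Pool.Agent.W_7d29a1_h47.EM μ := by
    rw [hμdef]
    exact EM_of (hmeas _) hexp β
  have hnd : Pool.Agent.W_7d29a1_h47.Nondeg μ := by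
    rw [hμdef]
    exact Nondeg_of (hmeas _) hnc hβ
  have hmp := map_toEnv hmeas hindep hident β
  rw [← hμdef] at hmp
  have hid : lam = LamN μ := by
    funext h
    have g1 := hmp.quasiMeasurePreserving.ae (tendsto_logZ hμ h)
    have g2 := hmp.quasiMeasurePreserving.ae (tendsto_logZ hμ 0)
    obtain ⟨x, hx1, hx2, hx3⟩ := (g1.and (g2.and (h4 h))).exists
    refine tendsto_nhds_unique hx3 ((hx1.sub hx2).congr fun n => ?_)
    rw [log_endMGF, sub_div]
  have hd : Differentiable ℝ lam := by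
    intro h
    rw [hid]
    exact (differentiable_Lam hμ hnd h).sub_const _
  have hPC := PC_LamN hμ hnd
  rw [← hid] at hPC
  exact ⟨lam, J, h1, hd, h2, h3, hpow, h4, fun h ε hε => lln_of_diff P ω h4 (hd h) hε, h6, h7,
    strictConvexOn_of_diff hPC hd h6, h8, h9⟩

end Pool.Agent.W_7d29a1_F
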