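import Pool.Agent.W_7d29a1_F.Iface
import Pool.Agent.W_7d29a1_F.CoreD
import Pool.Agent.W_7d29a1_F.DdA
import Pool.Agent.W_7d29a1_f21.Ind

/-!
Tubes: the traveller. TASK TbCell.
-/

namespace Pool.Agent.W_7d29a1_F

open MeasureTheory ProbabilityTheory Filter Topology Pool.Agent.W_7d29a1_f21

noncomputable section

variable {μ : Measure ℝ} [IsProbabilityMeasure μ] {s v1 v2 : ℝ} {B : ℕ → ℝ}

/-- The weight of the displacements `(n, y)` with `g ≤ y`. -/
def Wge (μ : Measure ℝ) (s : ℝ) (η : Env) (a : Pt) (n : ℕ) (g : ℝ) : ℝ :=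
  WS μ s η a n ((Finset.Icc (0 : ℤ) n).filter fun y => g ≤ y)

theorem Wge_nonneg (η : Env) (a : Pt) (n : ℕ) (g : ℝ) : 0 ≤ Wge μ s η a n g :=
  WS_nonneg _ _ _ _

theorem measurable_Wge (a : Pt) (n : ℕ) (g : ℝ) : Measurable fun η : Env => Wge μ s η a n g :=
  measurable_WS _ _ _

/-- `Wge` depends on the rows `a.1 < t ≤ a.1 + n`. -/
theorem Wge_dep (a : Pt) (n : ℕ) (g : ℝ) :
    DependsOn (fun η : Env => Wge μ s η a n g) (rows a.1 (a.1 + n)) :=
  WS_dep (μ := μ) (s := s) a n _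

theorem integral_Wge (a : Pt) (n : ℕ) (g : ℝ) (θ : ℝ) :
    ∫ η, Wge μ s η a n g ^ θ ∂(law μ) = ∫ η, Wge μ s η 0 n g ^ θ ∂(law μ) :=
  integral_WS (μ := μ) (s := s) a n _ θ

theorem Wge_eq_Fv (η : Env) (a : Pt) {n : ℕ} (hn : 1 ≤ n) (g : ℝ) :
    Wge μ s η a n g = Fv μ s η a n (g / n) := by
  have h0 : (n : ℝ) ≠ 0 := by
    have h1 : (1 : ℝ) ≤ n := by exact_mod_cast hn
    linarith
  unfold Wge Fv
  rw [div_mul_cancel₀ _ h0]

private theorem TbCell_add (η : Env) {h S0 l : ℕ} {k : ℤ}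
    (hK : ∀ i : ℕ, i < h → 0 ≤ k + i ∧ k + i ≤ S0) (t a : ℤ) (g : ℝ) :
    ∑ i ∈ Finset.range h, W μ s η (t - S0, a - k) S0 (k + i) * Wge μ s η (t, a + i) l g ≤
      Wge μ s η (t - S0, a - k) (S0 + l) (g + k) := by
  classical
  unfold Wge WS
  simp only [W_add (μ := μ) (s := s) η (t - S0, a - k) S0 l]
  rw [Finset.sum_comm (s := (Finset.Icc (0 : ℤ) ((S0 + l : ℕ) : ℤ)).filter
    fun y : ℤ => g + (k : ℝ) ≤ (y : ℝ))]
  have hinj : Set.InjOn (fun i : ℕ => k + (i : ℤ)) (Finset.range h : Finset ℕ) :=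
    fun i _ j _ hij => by
      have h' : k + (i : ℤ) = k + (j : ℤ) := hij
      omega
  have hsub : (Finset.range h).image (fun i : ℕ => k + (i : ℤ)) ⊆ Finset.Icc (0 : ℤ) S0 := by
    intro x hx
    obtain ⟨i, hi, rfl⟩ := Finset.mem_image.1 hx
    exact Finset.mem_Icc.2 (hK i (Finset.mem_range.1 hi))
  refine le_trans ?_ (Finset.sum_le_sum_of_subset_of_nonneg hsub fun x _ _ =>
    Finset.sum_nonneg fun y _ => mul_nonneg (W_nonneg _ _ _ _) (W_nonneg _ _ _ _))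
  rw [Finset.sum_image hinj]
  refine Finset.sum_le_sum fun i hi => ?_
  have hKi := hK i (Finset.mem_range.1 hi)
  rw [← Finset.mul_sum]
  refine mul_le_mul_of_nonneg_left ?_ (W_nonneg _ _ _ _)
  have e0 : (((t - (S0 : ℤ), a - k) : Pt).1 + (S0 : ℤ), ((t - (S0 : ℤ), a - k) : Pt).2 +
      (k + (i : ℤ))) = ((t, a + i) : Pt) := by
    refine Prod.ext ?_ ?_
    · show t - (S0 : ℤ) + S0 = t
      ring
    · show a - k + (k + (i : ℤ)) = a + i
      ring
  have hinj2 : Set.InjOn (fun y' : ℤ => k + (i : ℤ) + y') ((Finset.Icc (0 : ℤ) l).filter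
      (fun y : ℤ => g ≤ (y : ℝ)) : Finset ℤ) := fun x _ y _ hxy => by simpa using hxy
  have h1 : ∑ y' ∈ (Finset.Icc (0 : ℤ) l).filter (fun y : ℤ => g ≤ (y : ℝ)),
      W μ s η (t, a + i) l y' = ∑ y ∈ ((Finset.Icc (0 : ℤ) l).filter
        (fun y : ℤ => g ≤ (y : ℝ))).image (fun y' : ℤ => k + (i : ℤ) + y'),
        W μ s η (t, a + i) l (y - (k + i)) := by
    rw [Finset.sum_image hinj2]
    exact Finset.sum_congr rfl fun y _ => by congr 1; ring
  rw [h1]
  simp only [e0]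
  refine Finset.sum_le_sum_of_subset_of_nonneg ?_ fun y _ _ => W_nonneg _ _ _ _
  intro y hy
  rw [Finset.mem_image] at hy
  obtain ⟨y', hy', rfl⟩ := hy
  rw [Finset.mem_filter, Finset.mem_Icc] at hy' ⊢
  refine ⟨⟨by omega, by push_cast; omega⟩, ?_⟩
  push_cast
  have h3 := hy'.2
  have h4 : (0 : ℝ) ≤ i := Nat.cast_nonneg i
  linarith

/-- The traveller: the starting points `(t, a + i)`, `i < h`, are reached in time `S0` from the point
`(t - S0, a - k)` by the displacements `(S0, k + i)` of the cone. Proof: `trav` (`f21/Ind.lean`) with the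
rows `t - S0 < . ≤ t`, `∫ W ^ θ ≥ exp (- θ e) ≥ exp (- 1)` (Jensen and `UnitB.move`), and
`∑ i, W (S0, k + i) * Wge (t, a + i) l g ≤ Wge (t - S0, a - k) (S0 + l) (g + k)` (`W_add`). -/
theorem cell_max (S : Setup μ s v1 v2) (U : UnitB μ s v1 v2 B) {L h S0 l : ℕ} (hh : 1 ≤ h)
    {k : ℤ} (hK : ∀ i : ℕ, i < h → K0 v1 v2 S0 (k + i)) (hS0 : S0 ≤ 8 * L) (t a : ℤ) (g : ℝ) :
    ∫ η, ((Finset.range h).sup' (Finset.nonempty_range_iff.2 (by omega))
        fun i => Wge μ s η (t, a + i) l g) ^ (1 / B L) ∂(law μ) ≤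
      Real.exp 1 * ∫ η, Wge μ s η 0 (S0 + l) (g + k) ^ (1 / B L) ∂(law μ) := by
  classical
  have hB : 1 ≤ B L := U.one_le L
  obtain ⟨θ, hθe⟩ : ∃ θ : ℝ, θ = 1 / B L := ⟨_, rfl⟩
  have hθ : 0 < θ := by
    rw [hθe]
    positivity
  rw [← hθe]
  have hne : (Finset.range h).Nonempty := Finset.nonempty_range_iff.2 (by omega)
  have hK' : ∀ i : ℕ, i < h → 0 ≤ k + i ∧ k + i ≤ S0 := fun i hi => ⟨(hK i hi).1, (hK i hi).2.1⟩
  obtain ⟨b, hb⟩ : ∃ b : Pt, b = (t - (S0 : ℤ), a - k) := ⟨_, rfl⟩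
  have hb1 : b.1 = t - S0 := by rw [hb]
  obtain ⟨M, hM⟩ : ∃ M : Env → ℝ, M = fun η => (Finset.range h).sup' hne
      fun i => Wge μ s η (t, a + i) l g := ⟨_, rfl⟩
  have hGi : ∀ i : ℕ, Integrable (fun η => Wge μ s η (t, a + i) l g ^ θ) (law μ) := fun i =>
    WS_rpow_integrable S.em _ _ _ hθ.le
  have hMex : ∀ η, ∃ i ∈ Finset.range h, M η = Wge μ s η (t, a + i) l g := by
    intro η
    obtain ⟨i, hi, h1⟩ := Finset.exists_mem_eq_sup' hne fun i : ℕ => Wge μ s η (t, a + i) l g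
    exact ⟨i, hi, by rw [hM]; exact h1⟩
  have hMm : Measurable M := by
    have h1 : M = (Finset.range h).sup' hne fun (i : ℕ) (η : Env) => Wge μ s η (t, a + i) l g := by
      rw [hM]
      funext η
      rw [Finset.sup'_apply]
    rw [h1]
    exact Finset.measurable_sup' hne fun i _ => measurable_Wge _ _ _
  have hM0 : ∀ η, 0 ≤ M η := by
    intro η
    obtain ⟨i, -, h1⟩ := hMex η
    rw [h1]
    exact Wge_nonneg _ _ _ _
  have hMi : Integrable (fun η => M η ^ θ) (law μ) := by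
    refine (integrable_finsetSum (Finset.range h) fun i _ => hGi i).mono'
      (hMm.pow_const θ).aestronglyMeasurable (Filter.Eventually.of_forall fun η => ?_)
    rw [Real.norm_eq_abs, abs_of_nonneg (Real.rpow_nonneg (hM0 η) _)]
    obtain ⟨i, hi, h1⟩ := hMex η
    rw [h1]
    exact Finset.single_le_sum (f := fun i : ℕ => Wge μ s η (t, a + i) l g ^ θ)
      (fun i _ => Real.rpow_nonneg (Wge_nonneg _ _ _ _) _) hi
  have hRi : Integrable (fun η => Wge μ s η b (S0 + l) (g + k) ^ θ) (law μ) :=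
    WS_rpow_integrable S.em _ _ _ hθ.le
  have hs0 : ∀ η : Env, 0 ≤ ∑ i ∈ Finset.range h, W μ s η b S0 (k + i) * Wge μ s η (t, a + i) l g :=
    fun η => Finset.sum_nonneg fun i _ => mul_nonneg (W_nonneg _ _ _ _) (Wge_nonneg _ _ _ _)
  have hle : ∀ η : Env, (∑ i ∈ Finset.range h, W μ s η b S0 (k + i) * Wge μ s η (t, a + i) l g) ^ θ ≤
      Wge μ s η b (S0 + l) (g + k) ^ θ := fun η =>
    Real.rpow_le_rpow (hs0 η) (by rw [hb]; exact TbCell_add η hK' t a g) hθ.le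
  have hsm : Measurable fun η : Env =>
      ∑ i ∈ Finset.range h, W μ s η b S0 (k + i) * Wge μ s η (t, a + i) l g :=
    Finset.measurable_sum _ fun i _ => (measurable_W _ _ _).mul (measurable_Wge _ _ _)
  have hi : Integrable (fun η : Env =>
      (∑ i ∈ Finset.range h, W μ s η b S0 (k + i) * Wge μ s η (t, a + i) l g) ^ θ) (law μ) := by
    refine hRi.mono' (hsm.pow_const θ).aestronglyMeasurable (Filter.Eventually.of_forall fun η => ?_)
    rw [Real.norm_eq_abs, abs_of_nonneg (Real.rpow_nonneg (hs0 η) _)]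
    exact hle η
  have hc : ∀ i ∈ Finset.range h, Real.exp (-1) ≤ ∫ η, W μ s η b S0 (k + i) ^ θ ∂(law μ) := by
    intro i hi'
    have hKi := hK i (Finset.mem_range.1 hi')
    refine le_trans ?_ (exp_neg_e_le (μ := μ) (s := s) S.em b hKi.1 hKi.2.1 θ)
    refine Real.exp_le_exp.2 ?_
    have h1 : e μ s S0 (k + i) ≤ B L := U.move L S0 (k + i) hKi hS0
    have h2 : θ * e μ s S0 (k + i) ≤ θ * B L := mul_le_mul_of_nonneg_left h1 hθ.le
    have h3 : θ * B L = 1 := by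
      rw [hθe]
      field_simp
    linarith
  have hFA : ∀ i ∈ Finset.range h, DependsOn (fun η : Env => W μ s η b S0 (k + i))
      (rows (t - S0) t) := by
    intro i _ η η' hη
    refine W_dep (μ := μ) (s := s) b S0 (k + i) fun p hp => hη p ?_
    obtain ⟨h1, h2, -⟩ := hp
    rw [hb1] at h1 h2
    refine ⟨h1, ?_⟩
    linarith
  have hGA : ∀ i ∈ Finset.range h, DependsOn (fun η : Env => Wge μ s η (t, a + i) l g)
      (rows (t - S0) t)ᶜ := by
    intro i _ η η' hη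
    refine Wge_dep (μ := μ) (s := s) (t, a + i) l g fun p hp => hη p ?_
    intro h2
    exact absurd h2.2 (not_le.2 hp.1)
  have h1 := trav_law (μ := μ) (rows (t - S0) t) (Finset.range h)
    (F := fun (i : ℕ) (η : Env) => W μ s η b S0 (k + i))
    (G := fun (i : ℕ) (η : Env) => Wge μ s η (t, a + i) l g) (M := M) (θ := θ) (c := Real.exp (-1)) hθ
    (fun i _ η => W_nonneg _ _ _ _) (fun i _ η => Wge_nonneg _ _ _ _) hFA hGA
    (fun i _ => W_rpow_integrable S.em _ _ _ hθ.le) hc hi hMex hMi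
  have h2 : Real.exp (-1) * ∫ η, M η ^ θ ∂(law μ) ≤
      ∫ η, Wge μ s η 0 (S0 + l) (g + k) ^ θ ∂(law μ) := by
    refine (h1.trans (integral_mono hi hRi hle)).trans_eq ?_
    exact integral_Wge b (S0 + l) (g + k) θ
  have h3 := mul_le_mul_of_nonneg_left h2 (Real.exp_pos 1).le
  rw [← mul_assoc, ← Real.exp_add, show (1 : ℝ) + -1 = 0 by norm_num, Real.exp_zero, one_mul, hM] at h3
  exact h3

end

end Pool.Agent.W_7d29a1_F
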