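import Pool.Agent.W_7d29a1_F.TbLevelB

/-!
Tubes: the fractional moment of the paths with a violated increment between two given times.
(helper50, helper59)
-/

namespace Pool.Agent.W_7d29a1_F

open MeasureTheory ProbabilityTheory Filter Topology Pool.Agent.W_7d29a1_f21

noncomputable section

variable {μ : Measure ℝ} [IsProbabilityMeasure μ] {s v1 v2 : ℝ} {B : ℕ → ℝ}

private theorem TbLevel_Wge_sub (η : Env) (a : Pt) (n : ℕ) (g : ℝ) :
    Wge μ s η a n g ≤ Real.exp (V μ s η a n) := WS_le_exp_V η a n _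

private theorem TbLevel_Cm_meas (t a : ℤ) (l h : ℕ) (hh : 1 ≤ h) (g : ℝ) :
    Measurable fun η : Env => Cm μ s η t a l h hh g := by
  have h1 := Finset.measurable_sup' (s := Finset.range h) (Finset.nonempty_range_iff.2 (by omega))
    (f := fun (i : ℕ) (η : Env) => Wge μ s η (t, a + i) l g)
    (fun i _ => measurable_Wge (μ := μ) (s := s) (t, a + i) l g)
  have h2 : (fun η : Env => Cm μ s η t a l h hh g) = (Finset.range h).sup'
      (Finset.nonempty_range_iff.2 (by omega))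
      (fun (i : ℕ) (η : Env) => Wge μ s η (t, a + i) l g) := by
    funext η
    rw [Finset.sup'_apply]
    rfl
  rw [h2]
  exact h1

private theorem TbLevel_Cm_dep (t a : ℤ) (l h : ℕ) (hh : 1 ≤ h) (g : ℝ) :
    DependsOn (fun η : Env => Cm μ s η t a l h hh g) (rows t (t + l)) := by
  intro η η' hd
  unfold Cm
  refine Finset.sup'_congr _ rfl fun i _ => ?_
  exact Wge_dep (μ := μ) (s := s) (t, a + i) l g hd

private theorem TbLevel_Cm_le (η : Env) (t a : ℤ) (l h : ℕ) (hh : 1 ≤ h) (g : ℝ) :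
    Cm μ s η t a l h hh g ≤ Real.exp ((Finset.range h).sup'
      (Finset.nonempty_range_iff.2 (by omega)) fun i => V μ s η (t, a + i) l) := by
  unfold Cm
  refine Finset.sup'_le _ _ fun i hi => ?_
  refine (TbLevel_Wge_sub η _ l g).trans (Real.exp_le_exp.2 ?_)
  exact Finset.le_sup' (fun i : ℕ => V μ s η (t, a + i) l) hi

private theorem TbLevel_supV_Sub (t a : ℤ) (l h : ℕ) (hh : 1 ≤ h) :
    Sub fun η => (Finset.range h).sup' (Finset.nonempty_range_iff.2 (by omega))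
      fun i => V μ s η (t, a + i) l :=
  Sub.sup' _ _ fun i _ => Sub_V (μ := μ) (s := s) (t, a + i) l

private theorem TbLevel_Me_Sub (t' n : ℕ) : Sub fun η => Me μ s η t' n := by
  unfold Me
  exact Sub.sup' _ _ fun x' _ => Sub_V (μ := μ) (s := s) ((t' : ℤ), x') n

private theorem TbLevel_Me_dep (t' n : ℕ) :
    DependsOn (fun η : Env => Me μ s η t' n) (rows (t' : ℤ) (t' + n)) := by
  intro η η' hd
  unfold Me
  refine Finset.sup'_congr _ rfl fun x' _ => ?_
  exact V_dep (μ := μ) (s := s) ((t' : ℤ), x') n fun p hp => hd p ⟨hp.1, hp.2.1⟩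

private theorem TbLevel_Me_le (η : Env) {t' n H : ℕ} (h : t' + n ≤ H) :
    Me μ s η t' n ≤ Mx μ s η H := by
  unfold Me
  refine Finset.sup'_le _ _ fun x' hx' => ?_
  rw [Finset.mem_Icc] at hx'
  refine V_le_Mx η ?_ h
  rw [abs_le]
  constructor <;> omega

/-- Three independent factors. -/
private theorem TbLevel_three (hμ : Pool.Agent.W_7d29a1_h47.EM μ) {P f1 f3 : Env → ℝ} {θ : ℝ}
    (hθ0 : 0 < θ) (hθ1 : θ ≤ 1) (hP : ∀ η, 0 ≤ P η) {N : ℕ} {C G : ℕ → Env → ℝ}
    (hC0 : ∀ r η, 0 ≤ C r η)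
    (hPle : ∀ η, P η ≤ Real.exp (f1 η) * (∑ r ∈ Finset.range N, C r η) * Real.exp (f3 η))
    (h1 : Sub f1) (h3 : Sub f3) (hCm : ∀ r, Measurable (C r)) (hG : ∀ r, Sub (G r))
    (hCG : ∀ r η, C r η ≤ Real.exp (G r η)) {t t' T : ℤ} (ht : t ≤ t')
    (d1 : DependsOn f1 (rows 0 t)) (d2 : ∀ r, DependsOn (C r) (rows t t'))
    (d3 : DependsOn f3 (rows t' T)) :
    ∫ η, P η ^ θ ∂(law μ) ≤ (∫ η, Real.exp (θ * f1 η) ∂(law μ)) *
      (∑ r ∈ Finset.range N, ∫ η, C r η ^ θ ∂(law μ)) * ∫ η, Real.exp (θ * f3 η) ∂(law μ) := by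
  have hCi : ∀ r, Integrable (fun η => C r η ^ θ) (law μ) := by
    intro r
    refine (((hG r).const_mul θ).exp_int (μ := μ) hμ).mono'
      ((hCm r).pow_const θ).aestronglyMeasurable (Filter.Eventually.of_forall fun η => ?_)
    rw [Real.norm_eq_abs, abs_of_nonneg (Real.rpow_nonneg (hC0 r η) _)]
    refine (Real.rpow_le_rpow (hC0 r η) (hCG r η) hθ0.le).trans (le_of_eq ?_)
    rw [← Real.exp_mul, mul_comm]
  have m1 : Measurable fun η => Real.exp (θ * f1 η) := (h1.1.const_mul θ).exp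
  have m3 : Measurable fun η => Real.exp (θ * f3 η) := (h3.1.const_mul θ).exp
  have m2 : Measurable fun η => ∑ r ∈ Finset.range N, C r η ^ θ :=
    Finset.measurable_sum _ fun r _ => (hCm r).pow_const θ
  have e1 : DependsOn (fun η => Real.exp (θ * f1 η)) (rows 0 t) := by
    intro η η' hd
    simp only
    rw [d1 hd]
  have e3 : DependsOn (fun η => Real.exp (θ * f3 η)) (rows t' T) := by
    intro η η' hd
    simp only
    rw [d3 hd]
  have e2 : DependsOn (fun η => ∑ r ∈ Finset.range N, C r η ^ θ) (rows t t') := by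
    intro η η' hd
    simp only
    refine Finset.sum_congr rfl fun r _ => ?_
    rw [d2 r hd]
  have e12 : DependsOn (fun η => Real.exp (θ * f1 η) * ∑ r ∈ Finset.range N, C r η ^ θ)
      (rows 0 t ∪ rows t t') := by
    intro η η' hd
    have g1 := e1 (x := η) (y := η') fun p hp => hd p (Or.inl hp)
    have g2 := e2 (x := η) (y := η') fun p hp => hd p (Or.inr hp)
    simp only at g1 g2 ⊢
    rw [g1, g2]
  have hdis1 : Disjoint (rows 0 t) (rows t t') := by
    rw [Set.disjoint_left]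
    rintro p ⟨-, hp1⟩ ⟨hp2, -⟩
    omega
  have hdis2 : Disjoint (rows 0 t ∪ rows t t') (rows t' T) := by
    rw [Set.disjoint_left]
    rintro p hp ⟨hp2, -⟩
    rcases hp with ⟨-, hp1⟩ | ⟨-, hp1⟩ <;> omega
  have hfac : ∫ η, Real.exp (θ * f1 η) * (∑ r ∈ Finset.range N, C r η ^ θ) *
      Real.exp (θ * f3 η) ∂(law μ) = (∫ η, Real.exp (θ * f1 η) ∂(law μ)) *
      (∑ r ∈ Finset.range N, ∫ η, C r η ^ θ ∂(law μ)) * ∫ η, Real.exp (θ * f3 η) ∂(law μ) := by
    rw [integral_indep (μ := μ) (f := fun η => Real.exp (θ * f1 η) * ∑ r ∈ Finset.range N, C r η ^ θ)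
      (g := fun η => Real.exp (θ * f3 η)) (m1.mul m2) m3 e12 e3 hdis2,
      integral_indep (μ := μ) (f := fun η => Real.exp (θ * f1 η))
      (g := fun η => ∑ r ∈ Finset.range N, C r η ^ θ) m1 m2 e1 e2 hdis1,
      integral_finsetSum _ fun r _ => hCi r]
  rw [← hfac]
  have hint : Integrable (fun η => Real.exp (θ * f1 η) * (∑ r ∈ Finset.range N, C r η ^ θ) *
      Real.exp (θ * f3 η)) (law μ) := by
    have hb : Integrable (fun η => ∑ r ∈ Finset.range N, Real.exp (θ * f1 η + θ * G r η + θ * f3 η))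
        (law μ) := by
      refine integrable_finsetSum _ fun r _ => ?_
      exact (((h1.const_mul θ).add ((hG r).const_mul θ)).add (h3.const_mul θ)).exp_int (μ := μ) hμ
    refine hb.mono' ((m1.mul m2).mul m3).aestronglyMeasurable (Filter.Eventually.of_forall fun η => ?_)
    have hs0 : 0 ≤ ∑ r ∈ Finset.range N, C r η ^ θ :=
      Finset.sum_nonneg fun r _ => Real.rpow_nonneg (hC0 r η) _
    rw [Real.norm_eq_abs, abs_of_nonneg (mul_nonneg (mul_nonneg (Real.exp_pos _).le hs0)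
      (Real.exp_pos _).le), Finset.mul_sum, Finset.sum_mul]
    refine Finset.sum_le_sum fun r _ => ?_
    rw [Real.exp_add, Real.exp_add]
    refine mul_le_mul_of_nonneg_right (mul_le_mul_of_nonneg_left ?_ (Real.exp_pos _).le)
      (Real.exp_pos _).le
    refine (Real.rpow_le_rpow (hC0 r η) (hCG r η) hθ0.le).trans (le_of_eq ?_)
    rw [← Real.exp_mul, mul_comm]
  refine integral_mono_of_nonneg (Filter.Eventually.of_forall fun η => Real.rpow_nonneg (hP η) _)
    hint (Filter.Eventually.of_forall fun η => ?_)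
  simp only
  have hs0 : 0 ≤ ∑ r ∈ Finset.range N, C r η := Finset.sum_nonneg fun r _ => hC0 r η
  calc P η ^ θ ≤ (Real.exp (f1 η) * (∑ r ∈ Finset.range N, C r η) * Real.exp (f3 η)) ^ θ :=
        Real.rpow_le_rpow (hP η) (hPle η) hθ0.le
    _ = Real.exp (θ * f1 η) * (∑ r ∈ Finset.range N, C r η) ^ θ * Real.exp (θ * f3 η) := by
        rw [Real.mul_rpow (mul_nonneg (Real.exp_pos _).le hs0) (Real.exp_pos _).le,
          Real.mul_rpow (Real.exp_pos _).le hs0, ← Real.exp_mul, ← Real.exp_mul,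
          mul_comm (f1 η), mul_comm (f3 η)]
    _ ≤ Real.exp (θ * f1 η) * (∑ r ∈ Finset.range N, C r η ^ θ) * Real.exp (θ * f3 η) := by
        refine mul_le_mul_of_nonneg_right (mul_le_mul_of_nonneg_left ?_ (Real.exp_pos _).le)
          (Real.exp_pos _).le
        exact sum_rpow_le _ (fun r _ => hC0 r η) hθ0 hθ1

private theorem TbLevel_Pv_nonneg (η : Env) (T : ℕ) (z : ℤ) (w wm : ℝ) (t t' : ℕ) :
    0 ≤ Pv μ s η T z w wm t t' := by
  unfold Pv
  refine Finset.sum_nonneg fun x _ => Finset.sum_nonneg fun x' _ => ?_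
  split_ifs
  · exact mul_nonneg (mul_nonneg (W_nonneg _ _ _ _) (W_nonneg _ _ _ _)) (W_nonneg _ _ _ _)
  · exact le_rfl

/-- The level bound. -/
theorem level_bound (S : Setup μ s v1 v2) (U : UnitB μ s v1 v2 B) {L T : ℕ} (hL : 1 ≤ L)
    (hT0 : 0 < T) (hT : T ≤ 2 * L) {z : ℤ} (hz0 : 0 ≤ z) (hz : z ≤ T) {t t' : ℕ} (htt : t < t')
    (ht' : t' ≤ T) {w wm : ℝ} (hw : 0 ≤ w) (hwm : 0 ≤ wm) {h S0 : ℕ} (hh : 1 ≤ h) {k : ℤ}
    (hK : ∀ i : ℕ, i < h → K0 v1 v2 S0 (k + i)) (hS0 : S0 ≤ 8 * L) {κ vp : ℝ} (hκ : 0 < κ)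
    (hdec : ∀ n : ℕ, 1 ≤ n → ∀ g : ℝ, n * vp < g →
      ∫ η, Wge μ s η 0 n g ^ (1 / B L) ∂(law μ) ≤ Real.exp (-(κ * (g - n * vp))))
    (hloss : ((t' : ℝ) - t) * (vp - z / T) + S0 * vp - k < wm / 2) (hκh : 1 ≤ κ * h) :
    ∫ η, Pv μ s η T z w wm t t' ^ (1 / B L) ∂(law μ) ≤
      Real.exp 3 * ((2 * w + wm) / h + 4) * Real.exp (-(κ * (wm / 2))) := by
  have hB : 1 ≤ B L := U.one_le L
  have hθ0 : 0 < 1 / B L := by positivity
  have hθ1 : 1 / B L ≤ 1 := by
    rw [div_le_one (by linarith)]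
    exact hB
  have hlR : ((t' - t : ℕ) : ℝ) = (t' : ℝ) - t := by
    rw [Nat.cast_sub htt.le]
  have hlZ : (t : ℤ) + ((t' - t : ℕ) : ℤ) = t' := by omega
  obtain ⟨xm, hxm⟩ : ∃ xm : ℤ, xm = ⌊w + (z : ℝ) / T * t⌋ := ⟨_, rfl⟩
  obtain ⟨N, hN⟩ : ∃ N : ℕ, N = xm.toNat / h + 1 := ⟨_, rfl⟩
  have key := TbLevel_three (μ := μ) S.em (P := fun η => Pv μ s η T z w wm t t')
    (f1 := fun η => V μ s η 0 t) (f3 := fun η => Me μ s η t' (T - t')) hθ0 hθ1
    (fun η => TbLevel_Pv_nonneg η T z w wm t t') (N := N)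
    (C := fun r η => Cm μ s η t (xm - (r + 1) * h + 1) (t' - t) h hh
        (max wm (r * h - 2 * w) + z / T * ((t' - t : ℕ) : ℝ)))
    (G := fun r η => (Finset.range h).sup' (Finset.nonempty_range_iff.2 (by omega))
      fun i => V μ s η (t, xm - (r + 1) * h + 1 + i) (t' - t))
    (fun r η => Cm_nonneg _ _ _ _ _ _ _)
    (fun η => Pv_le η hwm htt.le hh hxm (by omega))
    (Sub_V 0 t) (TbLevel_Me_Sub t' (T - t')) (fun r => TbLevel_Cm_meas _ _ _ _ _ _)
    (fun r => TbLevel_supV_Sub _ _ _ _ hh) (fun r η => TbLevel_Cm_le η _ _ _ _ _ _)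
    (t := (t : ℤ)) (t' := (t' : ℤ)) (T := (T : ℤ)) (by omega)
    (fun η η' hd => V_dep (μ := μ) (s := s) 0 t fun p hp =>
      hd p ⟨by simpa using hp.1, by simpa using hp.2.1⟩)
    (fun r => by
      have := TbLevel_Cm_dep (μ := μ) (s := s) (t : ℤ) (xm - (r + 1) * h + 1) (t' - t) h hh
        (max wm (r * h - 2 * w) + z / T * ((t' - t : ℕ) : ℝ))
      rwa [hlZ] at this)
    (by
      have := TbLevel_Me_dep (μ := μ) (s := s) t' (T - t')
      have h2 : (t' : ℤ) + ((T - t' : ℕ) : ℤ) = T := by omega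
      rwa [h2] at this)
  refine key.trans ?_
  have b1 : ∫ η, Real.exp (1 / B L * V μ s η 0 t) ∂(law μ) ≤ Real.exp 1 := by
    refine exp_le_e U S.em hL (Sub_V (μ := μ) (s := s) 0 t).1 fun η => ?_
    have := V_le_Mx (μ := μ) (s := s) η (H := 8 * L) (t := 0) (n := t) (x := 0) (by simp) (by omega)
    exact this
  have b3 : ∫ η, Real.exp (1 / B L * Me μ s η t' (T - t')) ∂(law μ) ≤ Real.exp 1 := by
    refine exp_le_e U S.em hL (TbLevel_Me_Sub (μ := μ) (s := s) t' (T - t')).1 fun η => ?_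
    exact TbLevel_Me_le η (by omega)
  have hT0' : (0 : ℝ) < T := by exact_mod_cast hT0
  have b2 : ∑ r ∈ Finset.range N, ∫ η, Cm μ s η t (xm - (r + 1) * h + 1) (t' - t) h hh
        (max wm (r * h - 2 * w) + z / T * ((t' - t : ℕ) : ℝ)) ^ (1 / B L) ∂(law μ) ≤
      Real.exp 1 * Real.exp (-(κ * (wm / 2))) * ((2 * w + wm) / h + 4) := by
    have hterm : ∀ r ∈ Finset.range N, ∫ η, Cm μ s η t (xm - (r + 1) * h + 1) (t' - t) h hh
        (max wm (r * h - 2 * w) + z / T * ((t' - t : ℕ) : ℝ)) ^ (1 / B L) ∂(law μ) ≤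
        Real.exp 1 * Real.exp (-(κ * (wm / 2))) *
          Real.exp (-(κ * max 0 ((r : ℝ) * h - (2 * w + wm)))) := by
      intro r _
      have c1 := cell_max (l := t' - t) S U hh hK hS0 (t : ℤ) (xm - (r + 1) * h + 1)
        (max wm (r * h - 2 * w) + z / T * ((t' - t : ℕ) : ℝ))
      refine (le_of_eq rfl).trans (c1.trans ?_)
      rw [mul_assoc]
      refine mul_le_mul_of_nonneg_left ?_ (Real.exp_pos _).le
      have hmx : wm ≤ max wm ((r : ℝ) * h - 2 * w) := le_max_left _ _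
      have hcast : ((S0 + (t' - t) : ℕ) : ℝ) = S0 + ((t' : ℝ) - t) := by
        rw [Nat.cast_add, hlR]
      have hlt : ((S0 + (t' - t) : ℕ) : ℝ) * vp <
          max wm ((r : ℝ) * h - 2 * w) + z / T * ((t' - t : ℕ) : ℝ) + k := by
        rw [hcast, hlR]
        nlinarith
      refine (hdec (S0 + (t' - t)) (by omega) _ hlt).trans ?_
      rw [← Real.exp_add]
      apply Real.exp_le_exp.2
      have hmax : max wm ((r : ℝ) * h - 2 * w) = wm + max 0 ((r : ℝ) * h - (2 * w + wm)) := by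
        rw [← max_add_add_left, add_zero]
        congr 1
        ring
      have hge : wm / 2 + max 0 ((r : ℝ) * h - (2 * w + wm)) ≤
          max wm ((r : ℝ) * h - 2 * w) + z / T * ((t' - t : ℕ) : ℝ) + k -
            ((S0 + (t' - t) : ℕ) : ℝ) * vp := by
        rw [hcast, hlR, hmax]
        nlinarith
      have := mul_le_mul_of_nonneg_left hge hκ.le
      linarith
    refine (Finset.sum_le_sum hterm).trans ?_
    rw [← Finset.mul_sum]
    refine mul_le_mul_of_nonneg_left ?_ (mul_pos (Real.exp_pos _) (Real.exp_pos _)).le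
    exact cell_sum (by exact_mod_cast hh) (by linarith) hκ hκh N
  have hE1 : (0 : ℝ) ≤ ∫ η, Real.exp (1 / B L * V μ s η 0 t) ∂(law μ) :=
    integral_nonneg fun η => (Real.exp_pos _).le
  have hE3 : (0 : ℝ) ≤ ∫ η, Real.exp (1 / B L * Me μ s η t' (T - t')) ∂(law μ) :=
    integral_nonneg fun η => (Real.exp_pos _).le
  have hR2 : 0 ≤ Real.exp 1 * Real.exp (-(κ * (wm / 2))) * ((2 * w + wm) / h + 4) := by
    have : 0 ≤ (2 * w + wm) / h := by positivity
    positivity
  calc _ ≤ Real.exp 1 * (Real.exp 1 * Real.exp (-(κ * (wm / 2))) * ((2 * w + wm) / h + 4)) *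
        Real.exp 1 := by
        refine mul_le_mul (mul_le_mul b1 b2 ?_ (Real.exp_pos _).le) b3 hE3
          (mul_nonneg (Real.exp_pos _).le hR2)
        refine Finset.sum_nonneg fun r _ => integral_nonneg fun η => ?_
        exact Real.rpow_nonneg (Cm_nonneg _ _ _ _ _ _ _) _
    _ = Real.exp 3 * ((2 * w + wm) / h + 4) * Real.exp (-(κ * (wm / 2))) := by
        have : Real.exp 3 = Real.exp 1 * Real.exp 1 * Real.exp 1 := by
          rw [← Real.exp_add, ← Real.exp_add]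
          norm_num
        rw [this]
        ring

end

end Pool.Agent.W_7d29a1_F
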