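import Pool.Agent.W_7d29a1_F.TbPath
import Pool.Agent.W_7d29a1_F.TbCell
import Pool.Agent.W_7d29a1_F.DdA

/-!
Tubes: auxiliary lemmas for the level bound (helper50).
-/

namespace Pool.Agent.W_7d29a1_F

open MeasureTheory ProbabilityTheory Filter Topology Pool.Agent.W_7d29a1_f21

noncomputable section

variable {μ : Measure ℝ} [IsProbabilityMeasure μ] {s v1 v2 : ℝ} {B : ℕ → ℝ}

/-- Subadditivity of powers, finite sums. -/
theorem sum_rpow_le {ι : Type*} (I : Finset ι) {f : ι → ℝ} (hf : ∀ i ∈ I, 0 ≤ f i) {θ : ℝ}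
    (h0 : 0 < θ) (h1 : θ ≤ 1) : (∑ i ∈ I, f i) ^ θ ≤ ∑ i ∈ I, f i ^ θ := by
  classical
  induction I using Finset.induction_on with
  | empty => simp [Real.zero_rpow h0.ne']
  | insert a I ha ih =>
    rw [Finset.sum_insert ha, Finset.sum_insert ha]
    have h2 : 0 ≤ f a := hf a (Finset.mem_insert_self _ _)
    have h3 : 0 ≤ ∑ i ∈ I, f i :=
      Finset.sum_nonneg fun i hi => hf i (Finset.mem_insert_of_mem hi)
    have h4 := ih fun i hi => hf i (Finset.mem_insert_of_mem hi)
    have h5 : (f a + ∑ i ∈ I, f i) ^ θ ≤ f a ^ θ + (∑ i ∈ I, f i) ^ θ :=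
      Real.rpow_add_le_add_rpow h2 h3 h0.le h1
    linarith

/-- The number of cells which matter, and a geometric tail. -/
theorem cell_sum {κ h a : ℝ} (hh : 0 < h) (ha : 0 ≤ a) (hκ : 0 < κ) (hκh : 1 ≤ κ * h) (N : ℕ) :
    ∑ r ∈ Finset.range N, Real.exp (-(κ * max 0 (r * h - a))) ≤ a / h + 4 := by
  set r0 : ℕ := ⌊a / h⌋₊ + 1 with hr0
  have hr0a : (r0 : ℝ) ≤ a / h + 1 := by
    rw [hr0]
    push_cast
    have := Nat.floor_le (div_nonneg ha hh.le)
    linarith
  have hr0b : a / h < r0 := by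
    rw [hr0]
    push_cast
    exact Nat.lt_floor_add_one _
  have hr0c : a < r0 * h := by
    rwa [div_lt_iff₀ hh] at hr0b
  have hsplit : ∑ r ∈ Finset.range N, Real.exp (-(κ * max 0 (r * h - a))) ≤
      ∑ r ∈ Finset.range (r0 + N), Real.exp (-(κ * max 0 (r * h - a))) := by
    apply Finset.sum_le_sum_of_subset_of_nonneg
    · intro r hr
      rw [Finset.mem_range] at hr ⊢
      omega
    · intro r _ _
      exact (Real.exp_pos _).le
  refine hsplit.trans ?_
  rw [Finset.sum_range_add]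
  have h1 : ∑ r ∈ Finset.range r0, Real.exp (-(κ * max 0 ((r : ℝ) * h - a))) ≤ r0 := by
    calc ∑ r ∈ Finset.range r0, Real.exp (-(κ * max 0 ((r : ℝ) * h - a)))
        ≤ ∑ r ∈ Finset.range r0, (1 : ℝ) := by
          apply Finset.sum_le_sum
          intro r _
          rw [Real.exp_le_one_iff]
          have : 0 ≤ κ * max 0 ((r : ℝ) * h - a) := mul_nonneg hκ.le (le_max_left _ _)
          linarith
      _ = r0 := by simp
  have h2 : ∑ r ∈ Finset.range N, Real.exp (-(κ * max 0 (((r0 + r : ℕ) : ℝ) * h - a))) ≤ 2 := by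
    have hq0 : (0 : ℝ) ≤ Real.exp (-1) := (Real.exp_pos _).le
    have hq1 : Real.exp (-1) < 1 := by
      rw [Real.exp_lt_one_iff]
      norm_num
    have hq2 : Real.exp (-1) ≤ 1 / 2 := by
      rw [Real.exp_neg, one_div]
      apply inv_anti₀ (by norm_num)
      have := Real.add_one_le_exp (1 : ℝ)
      linarith
    calc ∑ r ∈ Finset.range N, Real.exp (-(κ * max 0 (((r0 + r : ℕ) : ℝ) * h - a)))
        ≤ ∑ r ∈ Finset.range N, Real.exp (-1) ^ r := by
          apply Finset.sum_le_sum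
          intro r _
          rw [← Real.exp_nat_mul]
          apply Real.exp_le_exp.2
          have h3 : (r : ℝ) * h ≤ max 0 (((r0 + r : ℕ) : ℝ) * h - a) := by
            refine le_trans ?_ (le_max_right _ _)
            push_cast
            nlinarith
          have h4 : κ * ((r : ℝ) * h) ≤ κ * max 0 (((r0 + r : ℕ) : ℝ) * h - a) :=
            mul_le_mul_of_nonneg_left h3 hκ.le
          have h5 : (r : ℝ) ≤ κ * ((r : ℝ) * h) := by
            have : (0 : ℝ) ≤ r := Nat.cast_nonneg _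
            nlinarith
          linarith
      _ ≤ (1 - Real.exp (-1))⁻¹ := by
          have hs := (summable_geometric_of_lt_one hq0 hq1).sum_le_tsum
            (Finset.range N) (fun q _ => by positivity)
          rwa [tsum_geometric_of_lt_one hq0 hq1] at hs
      _ ≤ 2 := by
          rw [inv_le_comm₀ (by linarith) (by norm_num)]
          linarith
  push_cast at h2 ⊢
  linarith

/-- No violation in a short slab. -/
theorem Pv_void (η : Env) {T : ℕ} {z : ℤ} (hz : 0 ≤ z) (w : ℝ) {wm : ℝ} {t t' : ℕ} (ht : t ≤ t')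
    (h : (t' : ℝ) - t ≤ wm) : Pv μ s η T z w wm t t' = 0 := by
  classical
  unfold Pv
  refine Finset.sum_eq_zero fun x _ => Finset.sum_eq_zero fun x' _ => ?_
  split_ifs with hV
  · by_cases hadm : 0 ≤ x' - x ∧ x' - x ≤ ((t' - t : ℕ) : ℤ)
    · exfalso
      have h1 := hV.1
      unfold Yr at h1
      have h2 : (0 : ℝ) ≤ (z : ℝ) / T := div_nonneg (by exact_mod_cast hz) (Nat.cast_nonneg _)
      have h3 : (x' : ℝ) - x ≤ (t' : ℝ) - t := by
        have h4 := hadm.2
        have h5 : ((t' - t : ℕ) : ℤ) = (t' : ℤ) - t := by omega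
        rw [h5] at h4
        exact_mod_cast h4
      have h6 : (0 : ℝ) ≤ (t' : ℝ) - t := by
        have : (t : ℝ) ≤ t' := by exact_mod_cast ht
        linarith
      nlinarith
    · rw [W_eq_zero _ _ hadm]
      ring
  · rfl

/-- The luck in the box. -/
theorem V_le_Mx (η : Env) {H t n : ℕ} {x : ℤ} (hx : |x| ≤ H) (h : t + n ≤ H) :
    V μ s η ((t : ℤ), x) n ≤ Mx μ s η H := by
  unfold Mx
  refine Finset.le_sup' (s := Box H) (f := fun q : (ℕ × ℤ) × ℕ => V μ s η ((q.1.1 : ℤ), q.1.2) q.2)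
    (b := ((t, x), n)) ?_
  unfold Box
  rw [Finset.mem_filter, Finset.mem_product, Finset.mem_product, Finset.mem_range, Finset.mem_range,
    Finset.mem_Icc]
  have h1 := abs_le.1 hx
  refine ⟨⟨⟨by simp only; omega, h1.1, h1.2⟩, by simp only; omega⟩, h⟩

theorem Mx_nonneg (η : Env) (H : ℕ) : 0 ≤ Mx μ s η H := by
  have h := V_le_Mx (μ := μ) (s := s) η (H := H) (t := 0) (n := 0) (x := 0) (by simp) (by omega)
  rwa [V_zero] at h

/-- A functional below the luck of the box has fractional moment at most `e`. -/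
theorem exp_le_e (U : UnitB μ s v1 v2 B) (hμ : Pool.Agent.W_7d29a1_h47.EM μ) {L : ℕ} (hL : 1 ≤ L)
    {f : Env → ℝ} (hf : Measurable f) (h : ∀ η, f η ≤ Mx μ s η (8 * L)) :
    ∫ η, Real.exp (1 / B L * f η) ∂(law μ) ≤ Real.exp 1 := by
  refine le_trans ?_ (U.luck L hL)
  have hB : 1 ≤ B L := U.one_le L
  refine integral_mono_of_nonneg (Filter.Eventually.of_forall fun η => (Real.exp_pos _).le) ?_
    (Filter.Eventually.of_forall fun η => ?_)
  · have h1 := ((Sub_Mx (μ := μ) (s := s) (8 * L)).const_mul (2 / B L)).exp_int (μ := μ) hμ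
    refine h1.congr (Filter.Eventually.of_forall fun η => ?_)
    simp only
    congr 1
    ring
  · simp only
    apply Real.exp_le_exp.2
    have h2 := h η
    have h3 := Mx_nonneg (μ := μ) (s := s) η (8 * L)
    have h4 : 0 < 1 / B L := by positivity
    calc 1 / B L * f η ≤ 1 / B L * Mx μ s η (8 * L) := mul_le_mul_of_nonneg_left h2 h4.le
      _ ≤ 2 * (1 / B L * Mx μ s η (8 * L)) := by
          have : 0 ≤ 1 / B L * Mx μ s η (8 * L) := mul_nonneg h4.le h3
          linarith
      _ = 2 * Mx μ s η (8 * L) / B L := by ring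

end

end Pool.Agent.W_7d29a1_F
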