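import Pool.Agent.W_7d29a1_F.Iface
import Pool.Agent.W_7d29a1_F.CoreD
import Pool.Agent.W_7d29a1_f21.Exit
import Pool.Agent.W_7d29a1_h47.Path

/-!
Tubes, deterministic part: the paths which leave the tube. TASK TbPath.
-/

namespace Pool.Agent.W_7d29a1_F

open MeasureTheory ProbabilityTheory Filter Topology Pool.Agent.W_7d29a1_f21

noncomputable section

/-- The position relative to the segment from `0` to `(T, z)`. -/
def Yr (T : ℕ) (z : ℤ) (t : ℕ) (x : ℤ) : ℝ := (x : ℝ) - z / T * t

/-- A violated increment, one end of which is in the tube. -/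
def Vc (T : ℕ) (z : ℤ) (w wm : ℝ) (t t' : ℕ) (x x' : ℤ) : Prop :=
  wm < Yr T z t' x' - Yr T z t x ∧ (|Yr T z t x| ≤ w ∨ |Yr T z t' x'| ≤ w)

open Classical in
/-- The weight of the paths from `0` to `(T, z)` with a violated increment between the times `t` and
`t'`. -/
def Pv (μ : Measure ℝ) (s : ℝ) (η : Env) (T : ℕ) (z : ℤ) (w wm : ℝ) (t t' : ℕ) : ℝ :=
  ∑ x ∈ Finset.Icc (0 : ℤ) t, ∑ x' ∈ Finset.Icc (0 : ℤ) t', if Vc T z w wm t t' x x' then
    W μ s η 0 t x * W μ s η ((t : ℤ), x) (t' - t) (x' - x) *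
      W μ s η ((t' : ℤ), x') (T - t') (z - x') else 0

/-- The position of the path `s` at time `i`. -/
private def TbPath_q (s : ℕ → Bool) (i : ℕ) : ℤ := ∑ j ∈ Finset.range i, if s j then 1 else 0

/-- The weight of a path. -/
private def TbPath_pw (R : Set Pt) (η : Env) (a : Pt) (n : ℕ) (s : ℕ → Bool) : ℝ :=
  ∏ i ∈ Finset.range n,
    R.indicator (fun p => Real.exp (η p)) (a.1 + ((i : ℤ) + 1), a.2 + TbPath_q s (i + 1))

private lemma TbPath_q_zero (s : ℕ → Bool) : TbPath_q s 0 = 0 := by simp [TbPath_q]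

private lemma TbPath_q_succ (s : ℕ → Bool) (i : ℕ) :
    TbPath_q s (i + 1) = TbPath_q s i + if s i then 1 else 0 := by
  unfold TbPath_q
  rw [Finset.sum_range_succ]

private lemma TbPath_q_nonneg (s : ℕ → Bool) (i : ℕ) : 0 ≤ TbPath_q s i := by
  unfold TbPath_q
  refine Finset.sum_nonneg fun j _ => ?_
  split_ifs <;> norm_num

private lemma TbPath_q_le (s : ℕ → Bool) (i : ℕ) : TbPath_q s i ≤ i := by
  induction i with
  | zero => rw [TbPath_q_zero]; simp
  | succ i ih =>
    rw [TbPath_q_succ]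
    push_cast
    split_ifs <;> omega

private lemma TbPath_q_congr {s r : ℕ → Bool} {i : ℕ} (h : ∀ j < i, s j = r j) :
    TbPath_q s i = TbPath_q r i := by
  unfold TbPath_q
  exact Finset.sum_congr rfl fun j hj => by rw [h j (Finset.mem_range.1 hj)]

private lemma TbPath_q_add (s : ℕ → Bool) (i j : ℕ) :
    TbPath_q s (i + j) = TbPath_q s i + TbPath_q (Pool.Agent.W_7d29a1_h47.shf i s) j := by
  unfold TbPath_q
  rw [Finset.sum_range_add]
  rfl

private lemma TbPath_q_glue_le {a i : ℕ} (h : i ≤ a) (s r : ℕ → Bool) :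
    TbPath_q (Pool.Agent.W_7d29a1_h47.glue a s r) i = TbPath_q s i :=
  TbPath_q_congr fun _ hj => Pool.Agent.W_7d29a1_h47.glue_lt (hj.trans_le h) s r

private lemma TbPath_q_glue_add (a i : ℕ) (s r : ℕ → Bool) :
    TbPath_q (Pool.Agent.W_7d29a1_h47.glue a s r) (a + i) = TbPath_q s a + TbPath_q r i := by
  rw [TbPath_q_add, Pool.Agent.W_7d29a1_h47.shf_glue, TbPath_q_glue_le le_rfl]

private lemma TbPath_pw_nonneg (R : Set Pt) (η : Env) (a : Pt) (n : ℕ) (s : ℕ → Bool) :
    0 ≤ TbPath_pw R η a n s :=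
  Finset.prod_nonneg fun _ _ => Set.indicator_nonneg (fun _ _ => (Real.exp_pos _).le) _

private lemma TbPath_pw_glue (R : Set Pt) (η : Env) (a : Pt) (m n : ℕ) (s r : ℕ → Bool) :
    TbPath_pw R η a (m + n) (Pool.Agent.W_7d29a1_h47.glue m s r) =
      TbPath_pw R η a m s * TbPath_pw R η (a.1 + m, a.2 + TbPath_q s m) n r := by
  unfold TbPath_pw
  rw [Finset.prod_range_add]
  congr 1
  · refine Finset.prod_congr rfl fun i hi => ?_
    rw [TbPath_q_glue_le (by have := Finset.mem_range.1 hi; omega)]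
  · refine Finset.prod_congr rfl fun i _ => ?_
    rw [add_assoc m i 1, TbPath_q_glue_add]
    congr 2
    · push_cast
      ring
    · ring

/-- The two paths with one step. -/
private lemma TbPath_T1 (F : (ℕ → Bool) → ℝ) :
    ∑ r ∈ Pool.Agent.W_7d29a1_h47.T 1, F r = F (fun _ => false) + F (fun i => decide (i = 0)) := by
  classical
  have h1 : Pool.Agent.W_7d29a1_h47.T 1 =
      {(fun _ => false : ℕ → Bool), (fun i => decide (i = 0) : ℕ → Bool)} := by
    ext s
    rw [Pool.Agent.W_7d29a1_h47.mem_T, Finset.mem_insert, Finset.mem_singleton]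
    constructor
    · intro h
      cases h0 : s 0
      · left
        funext i
        rcases Nat.eq_zero_or_pos i with hi | hi
        · rw [hi, h0]
        · exact h i hi
      · right
        funext i
        rcases Nat.eq_zero_or_pos i with hi | hi
        · rw [hi, h0]
          simp
        · rw [h i hi]
          simp [hi.ne']
    · rintro (h | h) i hi
      · rw [h]
      · rw [h]
        simp only [decide_eq_false_iff_not]
        omega
  have h2 : (fun _ => false : ℕ → Bool) ≠ fun i => decide (i = 0) := by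
    intro h
    have := congrFun h 0
    simp at this
  rw [h1, Finset.sum_pair h2]

private lemma TbPath_Zr (R : Set Pt) (η : Env) (a : Pt) (n : ℕ) (y : ℤ) :
    Zr R η a n y = ∑ s ∈ Pool.Agent.W_7d29a1_h47.T n,
      if TbPath_q s n = y then TbPath_pw R η a n s else 0 := by
  induction n generalizing y with
  | zero =>
    rw [Pool.Agent.W_7d29a1_h47.T_zero, Finset.sum_singleton, TbPath_q_zero]
    show (if y = 0 then (1 : ℝ) else 0) = _
    by_cases hy : y = 0
    · rw [if_pos hy, if_pos hy.symm]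
      simp [TbPath_pw]
    · rw [if_neg hy, if_neg (Ne.symm hy)]
  | succ n ih =>
    show R.indicator (fun p => Real.exp (η p)) (a.1 + ((n : ℤ) + 1), a.2 + y) *
      (Zr R η a n y + Zr R η a n (y - 1)) = _
    rw [ih y, ih (y - 1), Pool.Agent.W_7d29a1_h47.sum_split, ← Finset.sum_add_distrib,
      Finset.mul_sum]
    refine Finset.sum_congr rfl fun s _ => ?_
    rw [TbPath_T1]
    have h1 : ∀ r : ℕ → Bool, TbPath_q (Pool.Agent.W_7d29a1_h47.glue n s r) (n + 1) =
        TbPath_q s n + if r 0 then 1 else 0 := by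
      intro r
      rw [TbPath_q_glue_add]
      congr 1
      unfold TbPath_q
      rw [Finset.sum_range_one]
    have h2 : ∀ r : ℕ → Bool, TbPath_pw R η a (n + 1) (Pool.Agent.W_7d29a1_h47.glue n s r) =
        TbPath_pw R η a n s * R.indicator (fun p => Real.exp (η p))
          (a.1 + ((n : ℤ) + 1), a.2 + (TbPath_q s n + if r 0 then 1 else 0)) := by
      intro r
      rw [TbPath_pw_glue]
      congr 1
      unfold TbPath_pw
      rw [Finset.prod_range_one]
      congr 2
      · push_cast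
        ring
      · rw [add_assoc]
        congr 1
        congr 1
        unfold TbPath_q
        rw [zero_add, Finset.sum_range_one]
    rw [h1, h1, h2, h2]
    simp only [decide_true, if_true, Bool.false_eq_true, if_false, add_zero]
    rw [mul_add]
    congr 1
    · by_cases h : TbPath_q s n = y
      · rw [if_pos h, if_pos h, h, mul_comm]
      · rw [if_neg h, if_neg h, mul_zero]
    · by_cases h : TbPath_q s n = y - 1
      · have h3 : TbPath_q s n + 1 = y := by omega
        rw [if_pos h, if_pos h3, h3, mul_comm]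
      · have h3 : ¬ TbPath_q s n + 1 = y := by omega
        rw [if_neg h, if_neg h3, mul_zero]

/-- Splitting at time `m`, with a function of the position at time `m` and of the future. -/
private lemma TbPath_split (R : Set Pt) (η : Env) (a : Pt) (m n : ℕ) (K : ℤ → (ℕ → Bool) → ℝ) :
    ∑ s ∈ Pool.Agent.W_7d29a1_h47.T (m + n), TbPath_pw R η a (m + n) s *
        K (TbPath_q s m) (Pool.Agent.W_7d29a1_h47.shf m s) =
      ∑ k ∈ Finset.Icc (0 : ℤ) m, Zr R η a m k * ∑ r ∈ Pool.Agent.W_7d29a1_h47.T n,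
        TbPath_pw R η (a.1 + m, a.2 + k) n r * K k r := by
  rw [Pool.Agent.W_7d29a1_h47.sum_split]
  have h1 : ∀ k ∈ Finset.Icc (0 : ℤ) m, (Zr R η a m k * ∑ r ∈ Pool.Agent.W_7d29a1_h47.T n,
        TbPath_pw R η (a.1 + m, a.2 + k) n r * K k r) =
      ∑ s ∈ Pool.Agent.W_7d29a1_h47.T m, if TbPath_q s m = k then TbPath_pw R η a m s *
        ∑ r ∈ Pool.Agent.W_7d29a1_h47.T n, TbPath_pw R η (a.1 + m, a.2 + k) n r * K k r else 0 := by
    intro k _
    rw [TbPath_Zr, Finset.sum_mul]
    refine Finset.sum_congr rfl fun s _ => ?_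
    by_cases h : TbPath_q s m = k
    · rw [if_pos h, if_pos h]
    · rw [if_neg h, if_neg h, zero_mul]
  rw [Finset.sum_congr rfl h1]
  conv_rhs => rw [Finset.sum_comm]
  refine Finset.sum_congr rfl fun s _ => ?_
  have h2 : (∑ k ∈ Finset.Icc (0 : ℤ) m, if TbPath_q s m = k then TbPath_pw R η a m s *
        ∑ r ∈ Pool.Agent.W_7d29a1_h47.T n, TbPath_pw R η (a.1 + m, a.2 + k) n r * K k r else 0) =
      TbPath_pw R η a m s * ∑ r ∈ Pool.Agent.W_7d29a1_h47.T n,
        TbPath_pw R η (a.1 + m, a.2 + TbPath_q s m) n r * K (TbPath_q s m) r := by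
    rw [Finset.sum_ite_eq (Finset.Icc (0 : ℤ) m) (TbPath_q s m) fun k => TbPath_pw R η a m s *
        ∑ r ∈ Pool.Agent.W_7d29a1_h47.T n, TbPath_pw R η (a.1 + m, a.2 + k) n r * K k r,
      if_pos (Finset.mem_Icc.2 ⟨TbPath_q_nonneg s m, TbPath_q_le s m⟩)]
  rw [h2, Finset.mul_sum]
  refine Finset.sum_congr rfl fun r _ => ?_
  rw [TbPath_pw_glue, TbPath_q_glue_le le_rfl, Pool.Agent.W_7d29a1_h47.shf_glue, mul_assoc]

open Classical in
/-- The weight of the paths with marked positions at two times. -/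
private lemma TbPath_two (η : Env) (t n2 n3 : ℕ) (z : ℤ) (P : ℤ → ℤ → Prop) :
    (∑ s ∈ Pool.Agent.W_7d29a1_h47.T (t + (n2 + n3)), TbPath_pw Set.univ η 0 (t + (n2 + n3)) s *
        (if TbPath_q s (t + (n2 + n3)) = z ∧ P (TbPath_q s t) (TbPath_q s (t + n2)) then 1 else 0)) ≤
      ∑ x ∈ Finset.Icc (0 : ℤ) t, ∑ x' ∈ Finset.Icc (0 : ℤ) (t + n2 : ℕ), if P x x' then
        Zr Set.univ η 0 t x * Zr Set.univ η ((t : ℤ), x) n2 (x' - x) *
          Zr Set.univ η (((t + n2 : ℕ) : ℤ), x') n3 (z - x') else 0 := by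
  have h1 := TbPath_split Set.univ η 0 t (n2 + n3) fun x r =>
    if x + TbPath_q r (n2 + n3) = z ∧ P x (x + TbPath_q r n2) then (1 : ℝ) else 0
  simp only [← TbPath_q_add] at h1
  rw [h1]
  refine Finset.sum_le_sum fun x hx => ?_
  rw [Finset.mem_Icc] at hx
  have e0 : (((0 : Pt).1 + (t : ℤ), (0 : Pt).2 + x) : Pt) = ((t : ℤ), x) := by
    refine Prod.ext ?_ ?_ <;> simp
  rw [e0]
  have h2 := TbPath_split Set.univ η ((t : ℤ), x) n2 n3 fun k r =>
    if x + (k + TbPath_q r n3) = z ∧ P x (x + k) then (1 : ℝ) else 0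
  simp only [← TbPath_q_add] at h2
  rw [h2]
  have h3 : ∀ k ∈ Finset.Icc (0 : ℤ) n2, (Zr Set.univ η ((t : ℤ), x) n2 k *
      ∑ r ∈ Pool.Agent.W_7d29a1_h47.T n3,
        TbPath_pw Set.univ η ((t : ℤ) + (n2 : ℤ), x + k) n3 r *
          (if x + (k + TbPath_q r n3) = z ∧ P x (x + k) then (1 : ℝ) else 0)) =
      if P x (x + k) then Zr Set.univ η ((t : ℤ), x) n2 ((x + k) - x) *
        Zr Set.univ η (((t + n2 : ℕ) : ℤ), x + k) n3 (z - (x + k)) else 0 := by
    intro k _
    by_cases hP : P x (x + k)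
    · rw [if_pos hP, TbPath_Zr Set.univ η (((t + n2 : ℕ) : ℤ), x + k)]
      rw [show x + k - x = k from by ring]
      congr 1
      refine Finset.sum_congr rfl fun r _ => ?_
      by_cases hr : TbPath_q r n3 = z - (x + k)
      · rw [if_pos hr, if_pos ⟨by omega, hP⟩, mul_one]
        push_cast
        rfl
      · rw [if_neg hr, if_neg fun h => hr (by omega), mul_zero]
    · rw [if_neg hP]
      rw [Finset.sum_eq_zero, mul_zero]
      intro r _
      rw [if_neg fun h => hP h.2, mul_zero]
  rw [Finset.sum_congr rfl h3, Finset.mul_sum]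
  have h4 : ∀ k ∈ Finset.Icc (0 : ℤ) n2, (Zr Set.univ η 0 t x *
      if P x (x + k) then Zr Set.univ η ((t : ℤ), x) n2 ((x + k) - x) *
        Zr Set.univ η (((t + n2 : ℕ) : ℤ), x + k) n3 (z - (x + k)) else 0) =
      (fun x' : ℤ => if P x x' then Zr Set.univ η 0 t x * Zr Set.univ η ((t : ℤ), x) n2 (x' - x) *
          Zr Set.univ η (((t + n2 : ℕ) : ℤ), x') n3 (z - x') else 0) (x + k) := by
    intro k _
    by_cases hP : P x (x + k)
    · simp only [if_pos hP]
      ring
    · simp only [if_neg hP]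
      ring
  have h5 := Finset.sum_image (s := Finset.Icc (0 : ℤ) n2) (g := fun k : ℤ => x + k)
    (f := fun x' : ℤ => if P x x' then Zr Set.univ η 0 t x * Zr Set.univ η ((t : ℤ), x) n2 (x' - x) *
          Zr Set.univ η (((t + n2 : ℕ) : ℤ), x') n3 (z - x') else 0)
    (fun a _ b _ h => by simpa using h)
  rw [Finset.sum_congr rfl h4, ← h5]
  refine Finset.sum_le_sum_of_subset_of_nonneg ?_ ?_
  · intro x' hx'
    obtain ⟨k, hk, rfl⟩ := Finset.mem_image.1 hx'
    rw [Finset.mem_Icc] at hk ⊢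
    push_cast
    constructor <;> omega
  · intro x' _ _
    split_ifs
    · exact mul_nonneg (mul_nonneg (Zr_nonneg _ _ _ _ _) (Zr_nonneg _ _ _ _ _))
        (Zr_nonneg _ _ _ _ _)
    · exact le_rfl

/-- The path weight of a path whose sites are all in `R`. -/
private lemma TbPath_pw_eq {R : Set Pt} {η : Env} {a : Pt} {n : ℕ} {s : ℕ → Bool}
    (h : ∀ i < n, (a.1 + ((i : ℤ) + 1), a.2 + TbPath_q s (i + 1)) ∈ R) :
    TbPath_pw R η a n s = TbPath_pw Set.univ η a n s := by
  unfold TbPath_pw
  refine Finset.prod_congr rfl fun i hi => ?_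
  rw [Set.indicator_of_mem (h i (Finset.mem_range.1 hi)), Set.indicator_of_mem (Set.mem_univ _)]

open Classical in
/-- The weight of the paths with a violation. -/
private lemma TbPath_Pv {μ : Measure ℝ} {s : ℝ} {T : ℕ} {z : ℤ} (η : Env) (w wm : ℝ) {t t' : ℕ}
    (h1 : t ≤ t') (h2 : t' ≤ T) :
    Real.exp (s * z - T * lam μ s) *
      (∑ r ∈ Pool.Agent.W_7d29a1_h47.T T, TbPath_pw Set.univ η 0 T r *
        (if TbPath_q r T = z ∧ Vc T z w wm t t' (TbPath_q r t) (TbPath_q r t') then 1 else 0)) ≤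
      Pv μ s η T z w wm t t' := by
  obtain ⟨n2, rfl⟩ := Nat.exists_eq_add_of_le h1
  obtain ⟨n3, hn3⟩ := Nat.exists_eq_add_of_le h2
  have hT : T = t + (n2 + n3) := by omega
  have h := TbPath_two η t n2 n3 z fun x x' => Vc T z w wm t (t + n2) x x'
  rw [← hT] at h
  refine (mul_le_mul_of_nonneg_left h (Real.exp_pos _).le).trans (le_of_eq ?_)
  unfold Pv
  rw [Finset.mul_sum]
  refine Finset.sum_congr rfl fun x _ => ?_
  rw [Finset.mul_sum]
  refine Finset.sum_congr rfl fun x' _ => ?_
  by_cases hV : Vc T z w wm t (t + n2) x x'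
  · rw [if_pos hV, if_pos hV]
    have e1 : t + n2 - t = n2 := by omega
    have e2 : T - (t + n2) = n3 := by omega
    rw [e1, e2]
    unfold W WR
    have e3 : Real.exp (s * z - T * lam μ s) = Real.exp (s * x - t * lam μ s) *
        Real.exp (s * ((x' - x : ℤ) : ℝ) - n2 * lam μ s) *
        Real.exp (s * ((z - x' : ℤ) : ℝ) - n3 * lam μ s) := by
      rw [← Real.exp_add, ← Real.exp_add, hT]
      congr 1
      push_cast
      ring
    rw [e3]
    ring
  · rw [if_neg hV, if_neg hV, mul_zero]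

/-- Proof. Paths: `s ∈ T n` (`W_7d29a1_h47/Path.lean`), position `∑ j < i, if s j then 1 else 0`;
`Zr R η a n y` is the sum over `s ∈ T n` with position `y` at time `n` of the product of
`R.indicator (exp ∘ η)` over the sites (induction on `n`, or `sum_split n 1`); a path with all sites
in the tube has the same weight in `WR` and `W`, every other path has by `exit` a violated dyadic
increment with one end in the tube; `sum_split` twice gives that the weight of the paths with the
positions `x` at time `t`, `x'` at time `t'` and `z` at time `T` is the product of the three `W`. -/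
theorem exit_sum {μ : Measure ℝ} {s : ℝ} {T M : ℕ} (hT0 : 0 < T) (hT : T ≤ 2 ^ M) {z : ℤ} {w : ℝ}
    {wm : ℕ → ℝ} (hwm : ∀ m, 0 ≤ wm m) (hsum : ∑ k ∈ Finset.Icc 1 M, wm k ≤ w) (η : Env) :
    W μ s η 0 T z ≤ WR μ s (tube T z w) η 0 T z +
      ∑ m ∈ Finset.Icc 1 M, ∑ j ∈ Finset.range (2 ^ m),
        Pv μ s η T z w (wm m) (dy T m j) (dy T m (j + 1)) := by
  classical
  have hT1 : (0 : ℝ) < T := by exact_mod_cast hT0
  -- the weights of the single paths
  have key : ∀ r ∈ Pool.Agent.W_7d29a1_h47.T T,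
      (if TbPath_q r T = z then TbPath_pw Set.univ η 0 T r else 0) ≤
      (if TbPath_q r T = z then TbPath_pw (tube T z w) η 0 T r else 0) +
        ∑ m ∈ Finset.Icc 1 M, ∑ j ∈ Finset.range (2 ^ m), TbPath_pw Set.univ η 0 T r *
          (if TbPath_q r T = z ∧ Vc T z w (wm m) (dy T m j) (dy T m (j + 1))
            (TbPath_q r (dy T m j)) (TbPath_q r (dy T m (j + 1))) then 1 else 0) := by
    intro r _
    have hnn : ∀ m ∈ Finset.Icc 1 M, 0 ≤ ∑ j ∈ Finset.range (2 ^ m), TbPath_pw Set.univ η 0 T r *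
          (if TbPath_q r T = z ∧ Vc T z w (wm m) (dy T m j) (dy T m (j + 1))
            (TbPath_q r (dy T m j)) (TbPath_q r (dy T m (j + 1))) then (1 : ℝ) else 0) := by
      intro m _
      refine Finset.sum_nonneg fun j _ => mul_nonneg (TbPath_pw_nonneg _ _ _ _ _) ?_
      split_ifs <;> norm_num
    by_cases hz : TbPath_q r T = z
    · rw [if_pos hz, if_pos hz]
      by_cases hin : ∀ i < T, ((0 : Pt).1 + ((i : ℤ) + 1), (0 : Pt).2 + TbPath_q r (i + 1)) ∈
          tube T z w
      · rw [TbPath_pw_eq hin]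
        linarith [Finset.sum_nonneg hnn]
      · push Not at hin
        obtain ⟨i, hi, hi2⟩ := hin
        have hex : w < |Yr T z (i + 1) (TbPath_q r (i + 1))| := by
          unfold tube at hi2
          simp only [Set.mem_ofPred_eq, not_le] at hi2
          unfold Yr
          have e1 : (((0 : Pt).1 + ((i : ℤ) + 1) : ℤ) : ℝ) = ((i + 1 : ℕ) : ℝ) := by
            simp
          have e2 : (((0 : Pt).2 + TbPath_q r (i + 1) : ℤ) : ℝ) = (TbPath_q r (i + 1) : ℝ) := by
            simp
          rw [e1, e2] at hi2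
          exact hi2
        obtain ⟨m, hm1, hm2, j, hj, hv1, hv2⟩ := exit hT
          (y := fun t => Yr T z t (TbPath_q r t)) hwm hsum
          (by simp [Yr, TbPath_q_zero])
          (by
            simp only [Yr, hz]
            field_simp
            ring)
          (t := i + 1) (by omega) hex
        have hone : TbPath_pw Set.univ η 0 T r ≤ ∑ m ∈ Finset.Icc 1 M,
            ∑ j ∈ Finset.range (2 ^ m), TbPath_pw Set.univ η 0 T r *
            (if TbPath_q r T = z ∧ Vc T z w (wm m) (dy T m j) (dy T m (j + 1))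
            (TbPath_q r (dy T m j)) (TbPath_q r (dy T m (j + 1))) then (1 : ℝ) else 0) := by
          refine le_trans ?_ (Finset.single_le_sum hnn (Finset.mem_Icc.2 ⟨hm1, hm2⟩))
          refine le_trans ?_ (Finset.single_le_sum (f := fun j => TbPath_pw Set.univ η 0 T r *
            (if TbPath_q r T = z ∧ Vc T z w (wm m) (dy T m j) (dy T m (j + 1))
            (TbPath_q r (dy T m j)) (TbPath_q r (dy T m (j + 1))) then (1 : ℝ) else 0))
            (fun j _ => ?_) (Finset.mem_range.2 hj))
          · have hV : TbPath_q r T = z ∧ Vc T z w (wm m) (dy T m j) (dy T m (j + 1))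
                (TbPath_q r (dy T m j)) (TbPath_q r (dy T m (j + 1))) := ⟨hz, hv1, hv2⟩
            simp only [if_pos hV, mul_one]
            exact le_rfl
          · refine mul_nonneg (TbPath_pw_nonneg _ _ _ _ _) ?_
            split_ifs <;> norm_num
        linarith [TbPath_pw_nonneg (tube T z w) η 0 T r]
    · rw [if_neg hz, if_neg hz]
      linarith [Finset.sum_nonneg hnn]
  have hsum2 := Finset.sum_le_sum key
  rw [Finset.sum_add_distrib, ← TbPath_Zr, ← TbPath_Zr, Finset.sum_comm] at hsum2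
  have hmul := mul_le_mul_of_nonneg_left hsum2 (Real.exp_pos (s * z - T * lam μ s)).le
  rw [mul_add] at hmul
  refine le_trans (le_of_eq ?_) (hmul.trans (add_le_add (le_of_eq ?_) ?_))
  · rfl
  · rfl
  · rw [Finset.mul_sum]
    refine Finset.sum_le_sum fun m _ => ?_
    rw [Finset.sum_comm, Finset.mul_sum]
    refine Finset.sum_le_sum fun j hj => ?_
    exact TbPath_Pv η w (wm m) (dy_mono T m (Nat.le_succ j))
      (dy_le T m (by have := Finset.mem_range.1 hj; omega))

end

end Pool.Agent.W_7d29a1_F
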