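import Pool.Agent.W_7d29a1_h47.SiteK
import Pool.Agent.W_7d29a1_h47q.LdC

/-!
Corollary (VL) of Theorem F: the inequality of Newman and Piza for the variance of the free energy.
-/

namespace Pool.Agent.W_7d29a1_F

open MeasureTheory ProbabilityTheory Finset
open Pool.Agent.W_7d29a1_h47

noncomputable section

variable {μ : Measure ℝ} [IsProbabilityMeasure μ]

open Classical in
/-- The indicator of `[q, ∞)`. -/
def VlA_ph (q u : ℝ) : ℝ := if q ≤ u then 1 else 0

lemma VlA_ph_meas (q : ℝ) : Measurable (VlA_ph q) := by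
  unfold VlA_ph
  exact Measurable.ite measurableSet_Ici measurable_const measurable_const

lemma VlA_ph_nonneg (q u : ℝ) : 0 ≤ VlA_ph q u := by
  unfold VlA_ph; split_ifs <;> norm_num

lemma VlA_ph_le (q u : ℝ) : VlA_ph q u ≤ 1 := by
  unfold VlA_ph; split_ifs <;> norm_num

/-- The mean of the indicator. -/
def VlA_m (μ : Measure ℝ) (q : ℝ) : ℝ := ∫ u, VlA_ph q u ∂μ

lemma VlA_ph_int (q : ℝ) : Integrable (VlA_ph q) μ := by
  refine Integrable.of_bound (C := 1) (VlA_ph_meas q).aestronglyMeasurable ?_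
  refine Filter.Eventually.of_forall fun u => ?_
  rw [Real.norm_eq_abs, abs_of_nonneg (VlA_ph_nonneg q u)]
  exact VlA_ph_le q u

lemma VlA_m_nonneg (q : ℝ) : 0 ≤ VlA_m μ q := integral_nonneg fun u => VlA_ph_nonneg q u

lemma VlA_m_le (q : ℝ) : VlA_m μ q ≤ 1 := by
  unfold VlA_m
  have h := integral_mono (μ := μ) (VlA_ph_int q) (integrable_const (1 : ℝ)) (fun u => VlA_ph_le q u)
  simpa using h

lemma VlA_m_eq (q : ℝ) : VlA_m μ q = μ.real (Set.Ici q) := by
  unfold VlA_m
  have h : (VlA_ph q) = Set.indicator (Set.Ici q) 1 := by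
    funext u
    by_cases hu : q ≤ u
    · rw [Set.indicator_of_mem (show u ∈ Set.Ici q from hu)]
      simp [VlA_ph, hu]
    · rw [Set.indicator_of_notMem (show u ∉ Set.Ici q from hu)]
      simp [VlA_ph, hu]
  rw [h, integral_indicator_one measurableSet_Ici]

/-- The constant of the one-site inequality. -/
def VlA_c (μ : Measure ℝ) (p q : ℝ) : ℝ :=
  VlA_m μ q * μ.real (Set.Iic p) * (1 - Real.exp (p - q)) / (Real.exp |q| * Mom μ 1)

lemma VlA_Mom_pos (hμ : EM μ) : 0 < Mom μ 1 := integral_exp_pos (hμ 1)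

lemma VlA_c_pos (hμ : EM μ) {p q : ℝ} (hpq : p < q) (hp : 0 < μ.real (Set.Iic p))
    (hq : 0 < μ.real (Set.Ici q)) : 0 < VlA_c μ p q := by
  unfold VlA_c
  rw [VlA_m_eq]
  have h1 : Real.exp (p - q) < 1 := by
    rw [Real.exp_lt_one_iff]; linarith
  have h2 := VlA_Mom_pos hμ
  have h3 : 0 < 1 - Real.exp (p - q) := by linarith
  positivity

lemma VlA_exp_bound {α ε q : ℝ} (hα : 0 ≤ α) (hε : 0 ≤ ε) (hpos : 0 < α + ε) (u : ℝ) :
    ε * Real.exp u / (α + ε * Real.exp u) ≤
      Real.exp (1 * |u|) * Real.exp |q| * (ε * Real.exp q / (α + ε * Real.exp q)) := by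
  have hu := Real.exp_pos u
  have hq := Real.exp_pos q
  have d1 : 0 < α + ε * Real.exp u := by
    rcases eq_or_lt_of_le hε with h | h
    · rw [← h] at hpos ⊢
      simpa using hpos
    · have := mul_pos h hu
      linarith
  have d2 : 0 < α + ε * Real.exp q := by
    rcases eq_or_lt_of_le hε with h | h
    · rw [← h] at hpos ⊢
      simpa using hpos
    · have := mul_pos h hq
      linarith
  rw [one_mul, ← Real.exp_add, ← mul_div_assoc, div_le_div_iff₀ d1 d2]
  have e1 : Real.exp u ≤ Real.exp (|u| + |q|) * Real.exp q := by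
    rw [← Real.exp_add]
    refine Real.exp_le_exp.2 ?_
    have := le_abs_self u
    have := neg_abs_le q
    linarith
  have e2 : (1 : ℝ) ≤ Real.exp (|u| + |q|) := Real.one_le_exp (by positivity)
  have e3 : 0 ≤ ε * Real.exp u * (ε * Real.exp q) := by positivity
  have e4 := mul_le_mul_of_nonneg_left e1 (mul_nonneg hε hα)
  have e5 := mul_le_mul_of_nonneg_right e2 e3
  nlinarith

lemma VlA_gap {α ε p q : ℝ} (hα : 0 ≤ α) (hε : 0 ≤ ε) (hpos : 0 < α + ε) :
    (1 - Real.exp (p - q)) * (ε * Real.exp q / (α + ε * Real.exp q)) ≤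
      Real.log (α + ε * Real.exp q) - Real.log (α + ε * Real.exp p) := by
  have hp := Real.exp_pos p
  have hq := Real.exp_pos q
  have d1 : 0 < α + ε * Real.exp p := by
    rcases eq_or_lt_of_le hε with h | h
    · rw [← h] at hpos ⊢
      simpa using hpos
    · have := mul_pos h hp
      linarith
  have d2 : 0 < α + ε * Real.exp q := by
    rcases eq_or_lt_of_le hε with h | h
    · rw [← h] at hpos ⊢
      simpa using hpos
    · have := mul_pos h hq
      linarith
  have h1 := Real.log_le_sub_one_of_pos (div_pos d1 d2)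
  rw [Real.log_div d1.ne' d2.ne'] at h1
  have h2 : (α + ε * Real.exp p) / (α + ε * Real.exp q) - 1 =
      -((1 - Real.exp (p - q)) * (ε * Real.exp q / (α + ε * Real.exp q))) := by
    rw [Real.exp_sub]
    field_simp
    ring
  rw [h2] at h1
  linarith

/-- The one-site inequality. -/
lemma VlA_one (hμ : EM μ) {α ε : ℝ} (hα : 0 ≤ α) (hε : 0 ≤ ε) (hpos : 0 < α + ε) {p q : ℝ}
    (hpq : p < q) (hint : Integrable (fun u => Real.log (α + ε * Real.exp u)) μ) :
    VlA_c μ p q * ∫ u, ε * Real.exp u / (α + ε * Real.exp u) ∂μ ≤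
      ∫ u, (VlA_ph q u - VlA_m μ q) * Real.log (α + ε * Real.exp u) ∂μ := by
  obtain ⟨f, hf⟩ : ∃ f : ℝ → ℝ, f = fun u => Real.log (α + ε * Real.exp u) := ⟨_, rfl⟩
  have hfu : ∀ u, f u = Real.log (α + ε * Real.exp u) := fun u => by rw [hf]
  have hden : ∀ u : ℝ, 0 < α + ε * Real.exp u := by
    intro u
    rcases eq_or_lt_of_le hε with h | h
    · rw [← h] at hpos ⊢
      simpa using hpos
    · have := mul_pos h (Real.exp_pos u)
      linarith
  have hmono : Monotone f := by
    intro u u' huu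
    rw [hfu, hfu]
    refine Real.log_le_log (hden u) ?_
    have := mul_le_mul_of_nonneg_left (Real.exp_le_exp.2 huu) hε
    linarith
  obtain ⟨m, hm⟩ : ∃ m : ℝ, m = VlA_m μ q := ⟨_, rfl⟩
  have hm0 : 0 ≤ m := by rw [hm]; exact VlA_m_nonneg q
  have hm1 : m ≤ 1 := by rw [hm]; exact VlA_m_le q
  have hfi : Integrable f μ := by rw [hf]; exact hint
  -- the pointwise inequality
  have hpt : ∀ u, m * (f q - f p) * Set.indicator (Set.Iic p) 1 u ≤
      (VlA_ph q u - m) * (f u - f q) := by
    intro u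
    by_cases hu : q ≤ u
    · have h1 : u ∉ Set.Iic p := by
        simp only [Set.mem_Iic, not_le]
        linarith
      rw [Set.indicator_of_notMem h1, mul_zero]
      have h2 : VlA_ph q u = 1 := by simp [VlA_ph, hu]
      rw [h2]
      exact mul_nonneg (by linarith) (by linarith [hmono hu])
    · have h2 : VlA_ph q u = 0 := by simp [VlA_ph, hu]
      rw [h2]
      have h3 := hmono (not_le.1 hu).le
      by_cases hu2 : u ≤ p
      · rw [Set.indicator_of_mem (show u ∈ Set.Iic p from hu2), Pi.one_apply, mul_one]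
        have h4 := hmono hu2
        nlinarith
      · rw [Set.indicator_of_notMem (show u ∉ Set.Iic p from hu2), mul_zero]
        nlinarith
  have hphi : Integrable (fun u => (VlA_ph q u - m) * f u) μ := by
    refine hfi.bdd_mul (c := 1) ((VlA_ph_meas q).sub measurable_const).aestronglyMeasurable ?_
    refine Filter.Eventually.of_forall fun u => ?_
    rw [Real.norm_eq_abs, abs_le]
    have := VlA_ph_nonneg q u
    have := VlA_ph_le q u
    constructor <;> linarith
  have hph0 : ∫ u, (VlA_ph q u - m) ∂μ = 0 := by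
    rw [integral_sub (VlA_ph_int q) (integrable_const m)]
    simp only [integral_const, probReal_univ, smul_eq_mul, one_mul]
    rw [hm]
    exact sub_self _
  have hphi2 : Integrable (fun u => (VlA_ph q u - m) * f q) μ :=
    ((VlA_ph_int q).sub (integrable_const m)).mul_const _
  have h1 : ∫ u, (VlA_ph q u - m) * (f u - f q) ∂μ = ∫ u, (VlA_ph q u - m) * f u ∂μ := by
    have e1 : ∀ u, (VlA_ph q u - m) * (f u - f q) = (VlA_ph q u - m) * f u -
        (VlA_ph q u - m) * f q := fun u => by ring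
    rw [integral_congr_ae (Filter.Eventually.of_forall e1), integral_sub hphi hphi2,
      integral_mul_const, hph0, zero_mul, sub_zero]
  have h2 : m * (f q - f p) * μ.real (Set.Iic p) ≤ ∫ u, (VlA_ph q u - m) * f u ∂μ := by
    rw [← h1]
    have h3 : ∫ u, m * (f q - f p) * Set.indicator (Set.Iic p) 1 u ∂μ =
        m * (f q - f p) * μ.real (Set.Iic p) := by
      rw [integral_const_mul, integral_indicator_one measurableSet_Iic]
    rw [← h3]
    refine integral_mono ?_ ?_ hpt
    · refine Integrable.const_mul ?_ _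
      exact (integrable_const (1 : ℝ)).indicator measurableSet_Iic
    · have e1 : (fun u => (VlA_ph q u - m) * (f u - f q)) = fun u => (VlA_ph q u - m) * f u -
          (VlA_ph q u - m) * f q := by
        funext u
        ring
      rw [e1]
      exact hphi.sub hphi2
  have h4 := VlA_gap (p := p) (q := q) hα hε hpos
  rw [← hfu, ← hfu] at h4
  obtain ⟨o, ho⟩ : ∃ o : ℝ, o = ε * Real.exp q / (α + ε * Real.exp q) := ⟨_, rfl⟩
  have ho0 : 0 ≤ o := by
    rw [ho]
    exact div_nonneg (mul_nonneg hε (Real.exp_pos q).le) (hden q).le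
  rw [← ho] at h4
  have h5 : ∫ u, ε * Real.exp u / (α + ε * Real.exp u) ∂μ ≤ Real.exp |q| * Mom μ 1 * o := by
    have h6 : ∫ u, Real.exp (1 * |u|) * Real.exp |q| * o ∂μ = Real.exp |q| * Mom μ 1 * o := by
      rw [integral_mul_const, integral_mul_const]
      unfold Mom
      ring
    rw [← h6]
    refine integral_mono_of_nonneg ?_ ?_ ?_
    · exact Filter.Eventually.of_forall fun u =>
        div_nonneg (mul_nonneg hε (Real.exp_pos u).le) (hden u).le
    · exact ((hμ 1).mul_const _).mul_const _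
    · refine Filter.Eventually.of_forall fun u => ?_
      simp only [ho]
      exact VlA_exp_bound hα hε hpos u
  have hM := VlA_Mom_pos hμ
  have hMq : 0 < Real.exp |q| * Mom μ 1 := by positivity
  have hpr : 0 ≤ μ.real (Set.Iic p) := measureReal_nonneg
  have hex : 0 ≤ 1 - Real.exp (p - q) := by
    have : Real.exp (p - q) ≤ 1 := by
      rw [Real.exp_le_one_iff]; linarith
    linarith
  have hfin : ∫ u, (VlA_ph q u - VlA_m μ q) * Real.log (α + ε * Real.exp u) ∂μ =
      ∫ u, (VlA_ph q u - m) * f u ∂μ := by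
    rw [hm, hf]
  rw [hfin]
  refine le_trans ?_ h2
  unfold VlA_c
  rw [← hm, div_mul_eq_mul_div, div_le_iff₀ hMq]
  calc m * μ.real (Set.Iic p) * (1 - Real.exp (p - q)) *
        ∫ u, ε * Real.exp u / (α + ε * Real.exp u) ∂μ
      ≤ m * μ.real (Set.Iic p) * (1 - Real.exp (p - q)) * (Real.exp |q| * Mom μ 1 * o) :=
        mul_le_mul_of_nonneg_left h5 (mul_nonneg (mul_nonneg hm0 hpr) hex)
    _ = m * μ.real (Set.Iic p) * (Real.exp |q| * Mom μ 1) * ((1 - Real.exp (p - q)) * o) := by ring
    _ ≤ m * μ.real (Set.Iic p) * (Real.exp |q| * Mom μ 1) * (f q - f p) :=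
        mul_le_mul_of_nonneg_left h4 (mul_nonneg (mul_nonneg hm0 hpr) hMq.le)
    _ = _ := by ring

/-- The expected occupation of the site `z`. -/
def VlOcc (μ : Measure ℝ) (h : ℝ) (n : ℕ) (z : ℕ × ℤ) : ℝ :=
  ∫ g, Av g h 0 0 n (fun s => vis z n s) ∂(law μ)

lemma VlA_vis_bd (z : ℕ × ℤ) (n : ℕ) (s : ℕ → Bool) : |vis z n s| ≤ 1 := by
  rw [abs_of_nonneg (SiteK_vis_nonneg z n s)]
  exact SiteK_vis_le z n s

lemma VlA_Av_meas (h : ℝ) (n : ℕ) (z : ℕ × ℤ) :
    Measurable fun g : Env => Av g h 0 0 n (fun s => vis z n s) :=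
  measurable_Av (F := fun _ s => vis z n s) fun s _ => measurable_const

lemma VlA_Av_int (h : ℝ) (n : ℕ) (z : ℕ × ℤ) :
    Integrable (fun g : Env => Av g h 0 0 n (fun s => vis z n s)) (law μ) := by
  refine Integrable.of_bound (C := 1) (VlA_Av_meas h n z).aestronglyMeasurable ?_
  refine Filter.Eventually.of_forall fun g => ?_
  rw [Real.norm_eq_abs]
  exact Av_abs_le fun s _ => VlA_vis_bd z n s

lemma VlOcc_nonneg (h : ℝ) (n : ℕ) (z : ℕ × ℤ) : 0 ≤ VlOcc μ h n z :=
  integral_nonneg fun _ => Av_nonneg fun s _ => SiteK_vis_nonneg z n s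

/-- The covariance of the free energy with the indicator at a site. -/
lemma VlA_site (hμ : EM μ) {p q : ℝ} (hpq : p < q) (h : ℝ) (n : ℕ) (z : ℕ × ℤ) :
    VlA_c μ p q * VlOcc μ h n z ≤
      ∫ g, (VlA_ph q (g z) - VlA_m μ q) * Real.log (Z g h 0 0 n) ∂(law μ) := by
  have hE := (EMom_logZ hμ h 0 0 n)
  have hi2 : Integrable (fun g : Env => (VlA_ph q (g z) - VlA_m μ q) * Real.log (Z g h 0 0 n))
      (law μ) := by
    refine hE.integrable.bdd_mul (c := 1) ?_ ?_
    · exact (((VlA_ph_meas q).comp (measurable_pi_apply z)).sub measurable_const).aestronglyMeasurable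
    · refine Filter.Eventually.of_forall fun g => ?_
      rw [Real.norm_eq_abs, abs_le]
      have h1 := VlA_ph_nonneg q (g z)
      have h2 := VlA_ph_le q (g z)
      have h3 := VlA_m_nonneg (μ := μ) q
      have h4 := VlA_m_le (μ := μ) q
      constructor <;> linarith
  unfold VlOcc
  rw [integral_update z (VlA_Av_int h n z), integral_update z hi2, ← integral_const_mul]
  have hA1 : Integrable (fun w : Env × ℝ => Av (Function.update w.1 z w.2) h 0 0 n
      (fun s => vis z n s)) ((law μ).prod μ) :=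
    (mp_update (μ := μ) z).integrable_comp_of_integrable (VlA_Av_int h n z)
  have hA2 : Integrable (fun w : Env × ℝ => (VlA_ph q ((Function.update w.1 z w.2) z) -
      VlA_m μ q) * Real.log (Z (Function.update w.1 z w.2) h 0 0 n)) ((law μ).prod μ) :=
    (mp_update (μ := μ) z).integrable_comp_of_integrable hi2
  have hA3 : Integrable (fun w : Env × ℝ => Real.log (Z (Function.update w.1 z w.2) h 0 0 n))
      ((law μ).prod μ) :=
    (mp_update (μ := μ) z).integrable_comp_of_integrable hE.integrable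
  have hA4 := hA3.prod_right_ae
  refine integral_mono_ae (hA1.integral_prod_left.const_mul _) hA2.integral_prod_left ?_
  filter_upwards [hA4] with g hg
  obtain ⟨α, hα⟩ : ∃ α : ℝ, α = ∑ s ∈ T n, wt (Function.update g z 0) h 0 0 n s *
      ((1 - vis z n s) * 1) := ⟨_, rfl⟩
  obtain ⟨ε, hε⟩ : ∃ ε : ℝ, ε = ∑ s ∈ T n, wt (Function.update g z 0) h 0 0 n s *
      (vis z n s * 1) := ⟨_, rfl⟩
  have hZ : ∀ u : ℝ, Z (Function.update g z u) h 0 0 n = α + ε * Real.exp u := by
    intro u
    have h1 := SiteK_sum g h z u n (fun _ => 1)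
    rw [← hα, ← hε] at h1
    rw [← h1]
    unfold Z
    simp
  have hα0 : 0 ≤ α := by
    rw [hα]
    refine Finset.sum_nonneg fun s _ => mul_nonneg (wt_pos _ _ _ _ _ _).le ?_
    have := SiteK_vis_le z n s
    linarith
  have hε0 : 0 ≤ ε := by
    rw [hε]
    refine Finset.sum_nonneg fun s _ => mul_nonneg (wt_pos _ _ _ _ _ _).le ?_
    have := SiteK_vis_nonneg z n s
    linarith
  have hpos : 0 < α + ε := by
    have h1 := Z_pos (Function.update g z 0) h 0 0 n
    rw [hZ 0, Real.exp_zero, mul_one] at h1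
    exact h1
  have hAv : ∀ u : ℝ, Av (Function.update g z u) h 0 0 n (fun s => vis z n s) =
      ε * Real.exp u / (α + ε * Real.exp u) := by
    intro u
    unfold Av
    rw [hZ u]
    congr 1
    have h1 := SiteK_sum g h z u n (fun s => vis z n s)
    rw [h1]
    have h2 : ∀ s, (1 - vis z n s) * vis z n s = 0 := by
      intro s
      have := SiteK_vis_mul z n s
      linarith
    have h3 : ∀ s, vis z n s * vis z n s = vis z n s * 1 := by
      intro s
      rw [SiteK_vis_mul, mul_one]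
    simp only [h2, h3, mul_zero, Finset.sum_const_zero, zero_add]
    rw [hε]
  simp only [hAv, hZ, Function.update_self] at hg ⊢
  exact VlA_one hμ hα0 hε0 hpos hpq hg

/-- The Newman-Piza inequality. -/
theorem var_ge_VlOcc (hμ : EM μ) (hnd : Nondeg μ) :
    ∃ c : ℝ, 0 < c ∧ ∀ (h : ℝ) (n : ℕ) (S : Finset (ℕ × ℤ)),
      c * ∑ z ∈ S, VlOcc μ h n z ^ 2 ≤
        ∫ g, (Real.log (Z g h 0 0 n) - a μ h n) ^ 2 ∂(law μ) := by
  obtain ⟨p, q, hpq, hp, hq⟩ := exists_gap hnd
  have hc := VlA_c_pos hμ hpq hp hq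
  obtain ⟨c, hcdef⟩ : ∃ c : ℝ, c = VlA_c μ p q := ⟨_, rfl⟩
  rw [← hcdef] at hc
  refine ⟨c ^ 2, by positivity, fun h n S => ?_⟩
  obtain ⟨m, hm⟩ : ∃ m : ℝ, m = VlA_m μ q := ⟨_, rfl⟩
  obtain ⟨ψ, hψ⟩ : ∃ ψ : ℕ × ℤ → Env → ℝ, ψ = fun z g => VlA_ph q (g z) - m := ⟨_, rfl⟩
  have hψm : ∀ z, Measurable (ψ z) := by
    intro z
    rw [hψ]
    exact ((VlA_ph_meas q).comp (measurable_pi_apply z)).sub measurable_const
  have hm0 : 0 ≤ m := by rw [hm]; exact VlA_m_nonneg q
  have hm1 : m ≤ 1 := by rw [hm]; exact VlA_m_le q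
  have hψb : ∀ z g, |ψ z g| ≤ 1 := by
    intro z g
    rw [hψ, abs_le]
    have h1 := VlA_ph_nonneg q (g z)
    have h2 := VlA_ph_le q (g z)
    constructor
    · show (-1 : ℝ) ≤ VlA_ph q (g z) - m
      linarith
    · show VlA_ph q (g z) - m ≤ 1
      linarith
  have hψP : ∀ z, PMom (law μ) (ψ z) := fun z => PMom.of_bounded (hψm z) (hψb z)
  have hψ0 : ∀ z, ∫ g, ψ z g ∂(law μ) = 0 := by
    intro z
    have h1 := integral_coord (μ := μ) z (f := fun u => VlA_ph q u - m)
      ((VlA_ph_meas q).sub measurable_const)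
    rw [hψ]
    show ∫ g : Env, (VlA_ph q (g z) - m) ∂(law μ) = 0
    rw [h1, integral_sub (VlA_ph_int q) (integrable_const m)]
    simp only [integral_const, probReal_univ, smul_eq_mul, one_mul]
    rw [hm]
    exact sub_self _
  -- orthogonality
  have hψo : ∀ z w, z ≠ w → ∫ g, ψ z g * ψ w g ∂(law μ) = 0 := by
    intro z w hzw
    rw [integral_mul_indep {z} (hψm z) (hψm w) ?_ ?_, hψ0 z, zero_mul]
    · intro g g' hg
      rw [hψ]
      simp only
      rw [hg z rfl]
    · intro g g' hg
      rw [hψ]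
      simp only
      rw [hg w (by simpa using hzw.symm)]
  obtain ⟨P, hP⟩ : ∃ P : ℕ × ℤ → ℝ, P = fun z => VlOcc μ h n z := ⟨_, rfl⟩
  have hP0 : ∀ z, 0 ≤ P z := fun z => by rw [hP]; exact VlOcc_nonneg h n z
  obtain ⟨G, hG⟩ : ∃ G : Env → ℝ, G = fun g => ∑ z ∈ S, P z * ψ z g := ⟨_, rfl⟩
  have hGP : PMom (law μ) G := by
    rw [hG]
    exact PMom.sum S fun z _ => (hψP z).const_mul (P z)
  obtain ⟨X, hX⟩ : ∃ X : Env → ℝ, X = fun g => Real.log (Z g h 0 0 n) - a μ h n := ⟨_, rfl⟩
  have hXE : PMom (law μ) X := by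
    rw [hX]
    exact ((EMom_logZ hμ h 0 0 n).sub (EMom.const _)).pmom
  have hXG : c * ∑ z ∈ S, P z ^ 2 ≤ ∫ g, X g * G g ∂(law μ) := by
    have e1 : ∀ g, X g * G g = ∑ z ∈ S, P z * (ψ z g * X g) := by
      intro g
      rw [hG]
      simp only
      rw [Finset.mul_sum]
      exact Finset.sum_congr rfl fun z _ => by ring
    rw [integral_congr_ae (Filter.Eventually.of_forall e1), integral_finsetSum, Finset.mul_sum]
    · refine Finset.sum_le_sum fun z _ => ?_
      rw [integral_const_mul]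
      have e2 : ∫ g, ψ z g * X g ∂(law μ) =
          ∫ g, (VlA_ph q (g z) - VlA_m μ q) * Real.log (Z g h 0 0 n) ∂(law μ) := by
        have i1 : Integrable (fun g => ψ z g * Real.log (Z g h 0 0 n)) (law μ) :=
          ((hψP z).mul (EMom_logZ hμ h 0 0 n).pmom).integrable
        have i2 : Integrable (fun g => ψ z g * a μ h n) (law μ) :=
          ((hψP z).integrable).mul_const _
        have e3 : ∀ g, ψ z g * X g = ψ z g * Real.log (Z g h 0 0 n) - ψ z g * a μ h n := by
          intro g
          rw [hX]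
          ring
        rw [integral_congr_ae (Filter.Eventually.of_forall e3), integral_sub i1 i2,
          integral_mul_const, hψ0 z, zero_mul, sub_zero, hψ, hm]
      rw [e2]
      have e4 := VlA_site hμ hpq h n z
      rw [← hcdef] at e4
      have e5 : VlOcc μ h n z = P z := by rw [hP]
      rw [e5] at e4
      have e6 := mul_le_mul_of_nonneg_left e4 (hP0 z)
      calc c * P z ^ 2 = P z * (c * P z) := by ring
        _ ≤ _ := e6
    · intro z _
      exact (((hψP z).mul hXE).const_mul (P z)).integrable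
  have hGG : ∫ g, G g ^ 2 ∂(law μ) ≤ ∑ z ∈ S, P z ^ 2 := by
    have e1 : ∀ g, G g ^ 2 = ∑ z ∈ S, ∑ w ∈ S, P z * P w * (ψ z g * ψ w g) := by
      intro g
      rw [sq, hG]
      simp only
      rw [Finset.sum_mul_sum]
      refine Finset.sum_congr rfl fun z _ => Finset.sum_congr rfl fun w _ => by ring
    rw [integral_congr_ae (Filter.Eventually.of_forall e1), integral_finsetSum]
    · refine Finset.sum_le_sum fun z hz => ?_
      rw [integral_finsetSum]
      · rw [Finset.sum_eq_single_of_mem z hz]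
        · rw [integral_const_mul]
          have e2 : ∫ g, ψ z g * ψ z g ∂(law μ) ≤ 1 := by
            have e3 : ∫ g : Env, ψ z g * ψ z g ∂(law μ) ≤ ∫ _ : Env, (1 : ℝ) ∂(law μ) := by
              refine integral_mono ((hψP z).mul (hψP z)).integrable (integrable_const _) fun g => ?_
              have e4 := abs_le.1 (hψb z g)
              show ψ z g * ψ z g ≤ 1
              nlinarith
            simpa using e3
          have e5 : 0 ≤ P z * P z := mul_nonneg (hP0 z) (hP0 z)
          nlinarith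
        · intro w _ hwz
          rw [integral_const_mul, hψo z w (Ne.symm hwz), mul_zero]
      · intro w _
        exact (((hψP z).mul (hψP w)).const_mul _).integrable
    · intro z _
      refine integrable_finsetSum _ fun w _ => ?_
      exact (((hψP z).mul (hψP w)).const_mul _).integrable
  have hsq : 0 ≤ ∫ g, (X g - c * G g) ^ 2 ∂(law μ) := integral_nonneg fun g => sq_nonneg _
  have hexp : ∫ g, (X g - c * G g) ^ 2 ∂(law μ) = (∫ g, X g ^ 2 ∂(law μ)) -
      2 * c * (∫ g, X g * G g ∂(law μ)) + c ^ 2 * ∫ g, G g ^ 2 ∂(law μ) := by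
    have i1 : Integrable (fun g => X g ^ 2) (law μ) := hXE.sq_integrable
    have i2 : Integrable (fun g => 2 * c * (X g * G g)) (law μ) :=
      ((hXE.mul hGP).integrable).const_mul _
    have i3 : Integrable (fun g => c ^ 2 * G g ^ 2) (law μ) := hGP.sq_integrable.const_mul _
    have e1 : ∀ g, (X g - c * G g) ^ 2 = X g ^ 2 - 2 * c * (X g * G g) + c ^ 2 * G g ^ 2 :=
      fun g => by ring
    rw [integral_congr_ae (Filter.Eventually.of_forall e1),
      integral_add (f := fun g => X g ^ 2 - 2 * c * (X g * G g)) (i1.sub i2) i3,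
      integral_sub i1 i2, integral_const_mul, integral_const_mul]
  rw [hexp] at hsq
  have hX2 : ∫ g, (Real.log (Z g h 0 0 n) - a μ h n) ^ 2 ∂(law μ) = ∫ g, X g ^ 2 ∂(law μ) := by
    rw [hX]
  rw [hX2]
  have hPP : ∑ z ∈ S, VlOcc μ h n z ^ 2 = ∑ z ∈ S, P z ^ 2 := by rw [hP]
  rw [hPP]
  have k1 := mul_le_mul_of_nonneg_left hXG (show 0 ≤ 2 * c by positivity)
  have k2 := mul_le_mul_of_nonneg_left hGG (show 0 ≤ c ^ 2 by positivity)
  nlinarith

end

end Pool.Agent.W_7d29a1_F
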