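import Pool.Agent.W_7d29a1_F.VlA

/-!
Corollary (VL) of Theorem F: localisation of the path at an intermediate time.
-/

namespace Pool.Agent.W_7d29a1_F

open MeasureTheory ProbabilityTheory Finset
open Pool.Agent.W_7d29a1_h47

noncomputable section

variable {μ : Measure ℝ} [IsProbabilityMeasure μ]

/-- The variance of the free energy. -/
def VlVar (μ : Measure ℝ) (h : ℝ) (n : ℕ) : ℝ :=
  ∫ g, (Real.log (Z g h 0 0 n) - a μ h n) ^ 2 ∂(law μ)

lemma VlVar_nonneg (h : ℝ) (n : ℕ) : 0 ≤ VlVar μ h n := integral_nonneg fun _ => sq_nonneg _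

/-- Passing through a point. -/
lemma VlB_through (g : Env) (h : ℝ) (t : ℕ) (x : ℤ) (i r : ℕ) (y : ℤ) :
    Real.exp (h * ((y : ℝ) - x)) * Zp g t x i y * Z g h (t + i) y r ≤ Z g h t x (i + r) := by
  rw [Z_split]
  unfold Zp
  rw [Finset.mul_sum, Finset.sum_mul]
  refine Finset.sum_le_sum fun s _ => ?_
  split_ifs with hy
  · unfold wt
    rw [← Real.exp_add, ← hy]
    refine le_of_eq ?_
    congr 2
    push_cast
    ring
  · rw [mul_zero, zero_mul]
    exact mul_nonneg (wt_pos _ _ _ _ _ _).le (Z_pos _ _ _ _ _).le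

lemma VlB_upper {g : Env} {h : ℝ} {x : ℤ} {i r : ℕ} {y : ℤ} (hy : Reach x i y) {A B : ℝ}
    (hA : Real.log (Z g h 0 x (i + r)) ≤ A) (hB : B ≤ Real.log (Zp g 0 x i y)) :
    Z g h i y r ≤ Real.exp (A - B - h * ((y : ℝ) - x)) := by
  have h1 := VlB_through g h 0 x i r y
  rw [zero_add] at h1
  have hp := Zp_pos g hy 0
  have hz := Z_pos g h i y r
  have h2 := Real.log_le_log (by positivity) h1
  rw [Real.log_mul (by positivity) hz.ne', Real.log_mul (Real.exp_pos _).ne' hp.ne',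
    Real.log_exp] at h2
  rw [← Real.exp_log hz]
  refine Real.exp_le_exp.2 ?_
  linarith

/-- The indicator that the walk is far from `v i` at time `i`. -/
def VlFar (v ε : ℝ) (i : ℕ) (s : ℕ → Bool) : ℝ := ind (ε * i ≤ |(pos s i : ℝ) - v * i|)

lemma VlFar_nonneg (v ε : ℝ) (i : ℕ) (s : ℕ → Bool) : 0 ≤ VlFar v ε i s := ind_nonneg _

lemma VlFar_le_one (v ε : ℝ) (i : ℕ) (s : ℕ → Bool) : VlFar v ε i s ≤ 1 := ind_le_one _

lemma VlFar_cut (v ε : ℝ) (i : ℕ) (s r : ℕ → Bool) : VlFar v ε i (glue i s r) = VlFar v ε i s := by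
  unfold VlFar
  rw [pos_glue_le le_rfl]

lemma VlFar_le_exp {v ε u : ℝ} (hu : 0 < u) (i : ℕ) (s : ℕ → Bool) :
    VlFar v ε i s ≤ Real.exp (u * ((pos s i : ℝ) - (v + ε) * i)) +
      Real.exp (-u * ((pos s i : ℝ) - (v - ε) * i)) := by
  unfold VlFar
  have p1 := Real.exp_pos (u * ((pos s i : ℝ) - (v + ε) * i))
  have p2 := Real.exp_pos (-u * ((pos s i : ℝ) - (v - ε) * i))
  by_cases hfar : ε * i ≤ |(pos s i : ℝ) - v * i|
  · rw [ind_true hfar]
    rcases le_abs.1 hfar with h1 | h1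
    · have h2 : 0 ≤ u * ((pos s i : ℝ) - (v + ε) * i) := by
        refine mul_nonneg hu.le ?_
        nlinarith
      have h3 := Real.one_le_exp h2
      linarith
    · have h2 : 0 ≤ -u * ((pos s i : ℝ) - (v - ε) * i) := by
        have h4 : 0 ≤ -((pos s i : ℝ) - (v - ε) * i) := by nlinarith
        have := mul_nonneg hu.le h4
        linarith
      have h3 := Real.one_le_exp h2
      linarith
  · rw [ind_false hfar]
    positivity

lemma VlB_wt_tilt (g : Env) (h u b : ℝ) (i : ℕ) (s : ℕ → Bool) :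
    wt g h 0 0 i s * Real.exp (u * ((pos s i : ℝ) - b * i)) =
      Real.exp (-(u * b * i)) * wt g (h + u) 0 0 i s := by
  unfold wt
  rw [← Real.exp_add, ← Real.exp_add]
  congr 1
  ring

/-- The deterministic estimate. -/
lemma VlB_det {g : Env} {h v ε u δ A L b : ℝ} {i r : ℕ} {y0 : ℤ} (hu : 0 < u)
    (hy0 : Reach 0 i y0)
    (hD : ∀ x : ℤ, |x| ≤ 2 * i → |Real.log (Z g h 0 x (i + r)) - A| ≤ δ * i)
    (hC : ∀ y : ℤ, |y| ≤ i → b ≤ Real.log (Zp g 0 (y - y0) i y))
    (hb : (L - δ) * i ≤ b + h * y0)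
    (hB1 : Real.log (Z g (h + u) 0 0 i) ≤ (L + u * v + δ) * i)
    (hB2 : Real.log (Z g (h - u) 0 0 i) ≤ (L - u * v + δ) * i) :
    Av g h 0 0 (i + r) (VlFar v ε i) ≤ 2 * Real.exp (-((u * ε - 4 * δ) * i)) := by
  have hy0' : |y0| ≤ i := (Reach_iff.1 hy0).1
  -- upper bound from time `i` on
  have hup : ∀ y : ℤ, |y| ≤ i → Z g h i y r ≤ Real.exp (A - L * i + 2 * δ * i) := by
    intro y hy
    have hr : Reach (y - y0) i y := by
      obtain ⟨s, hs, hs'⟩ := hy0
      exact ⟨s, hs, by omega⟩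
    have hx : |y - y0| ≤ 2 * (i : ℤ) := by
      have := abs_sub y y0
      omega
    have h1 := VlB_upper (g := g) (h := h) (r := r) hr (A := A + δ * i) (B := b) (by
      have := (abs_le.1 (hD _ hx)).2
      linarith) (hC y hy)
    refine h1.trans (Real.exp_le_exp.2 ?_)
    push_cast
    have : (y : ℝ) - (y - y0) = y0 := by ring
    rw [this]
    linarith
  have hlow : Real.exp (A - δ * i) ≤ Z g h 0 0 (i + r) := by
    have h1 := (abs_le.1 (hD 0 (by simp))).1
    rw [← Real.exp_log (Z_pos g h 0 0 (i + r))]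
    exact Real.exp_le_exp.2 (by linarith)
  unfold Av
  rw [div_le_iff₀ (Z_pos g h 0 0 (i + r))]
  have hnum : ∑ s ∈ T (i + r), wt g h 0 0 (i + r) s * VlFar v ε i s =
      ∑ s ∈ T i, wt g h 0 0 i s * VlFar v ε i s * Z g h i (pos s i) r := by
    rw [sum_split]
    refine Finset.sum_congr rfl fun s _ => ?_
    unfold Z
    rw [Finset.mul_sum]
    refine Finset.sum_congr rfl fun r' _ => ?_
    rw [wt_glue, VlFar_cut, zero_add, zero_add]
    ring
  have h1 : ∑ s ∈ T i, wt g h 0 0 i s * VlFar v ε i s * Z g h i (pos s i) r ≤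
      (∑ s ∈ T i, wt g h 0 0 i s * VlFar v ε i s) * Real.exp (A - L * i + 2 * δ * i) := by
    rw [Finset.sum_mul]
    refine Finset.sum_le_sum fun s _ => ?_
    exact mul_le_mul_of_nonneg_left (hup _ (pos_abs_le s i))
      (mul_nonneg (wt_pos _ _ _ _ _ _).le (VlFar_nonneg _ _ _ _))
  have h2 : ∑ s ∈ T i, wt g h 0 0 i s * VlFar v ε i s ≤
      Real.exp (-(u * (v + ε) * i)) * Z g (h + u) 0 0 i +
        Real.exp (-(-u * (v - ε) * i)) * Z g (h - u) 0 0 i := by
    unfold Z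
    rw [Finset.mul_sum, Finset.mul_sum, ← Finset.sum_add_distrib]
    refine Finset.sum_le_sum fun s _ => ?_
    refine (mul_le_mul_of_nonneg_left (VlFar_le_exp hu i s) (wt_pos _ _ _ _ _ _).le).trans ?_
    rw [mul_add, VlB_wt_tilt, VlB_wt_tilt g h (-u) (v - ε) i s, sub_eq_add_neg h u]
  have e1 : Z g (h + u) 0 0 i ≤ Real.exp ((L + u * v + δ) * i) := by
    rw [← Real.exp_log (Z_pos g (h + u) 0 0 i)]
    exact Real.exp_le_exp.2 hB1
  have e2 : Z g (h - u) 0 0 i ≤ Real.exp ((L - u * v + δ) * i) := by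
    rw [← Real.exp_log (Z_pos g (h - u) 0 0 i)]
    exact Real.exp_le_exp.2 hB2
  have h3 : Real.exp (-(u * (v + ε) * i)) * Z g (h + u) 0 0 i +
        Real.exp (-(-u * (v - ε) * i)) * Z g (h - u) 0 0 i ≤
      2 * Real.exp ((L - u * ε + δ) * i) := by
    have f1 := mul_le_mul_of_nonneg_left e1 (Real.exp_pos (-(u * (v + ε) * i))).le
    have f2 := mul_le_mul_of_nonneg_left e2 (Real.exp_pos (-(-u * (v - ε) * i))).le
    rw [← Real.exp_add] at f1 f2
    have g1 : -(u * (v + ε) * i) + (L + u * v + δ) * i = (L - u * ε + δ) * i := by ring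
    have g2 : -(-u * (v - ε) * i) + (L - u * v + δ) * i = (L - u * ε + δ) * i := by ring
    rw [g1] at f1
    rw [g2] at f2
    linarith
  rw [hnum]
  calc ∑ s ∈ T i, wt g h 0 0 i s * VlFar v ε i s * Z g h i (pos s i) r
      ≤ (∑ s ∈ T i, wt g h 0 0 i s * VlFar v ε i s) * Real.exp (A - L * i + 2 * δ * i) := h1
    _ ≤ (2 * Real.exp ((L - u * ε + δ) * i)) * Real.exp (A - L * i + 2 * δ * i) :=
        mul_le_mul_of_nonneg_right (h2.trans h3) (Real.exp_pos _).le
    _ = 2 * Real.exp (-((u * ε - 4 * δ) * i)) * Real.exp (A - δ * i) := by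
        rw [mul_assoc (2 : ℝ) (Real.exp ((L - u * ε + δ) * i)), ← Real.exp_add,
          mul_assoc (2 : ℝ) (Real.exp (-((u * ε - 4 * δ) * i))), ← Real.exp_add]
        congr 2
        ring
    _ ≤ 2 * Real.exp (-((u * ε - 4 * δ) * i)) * Z g h 0 0 (i + r) :=
        mul_le_mul_of_nonneg_left hlow (by positivity)

/-! ### Probabilities -/

lemma VlB_Zp_shift (g : Env) (t : ℕ) (x : ℤ) (n : ℕ) (y : ℤ) :
    Zp (shiftEnv t x g) 0 0 n (y - x) = Zp g t x n y := by
  unfold Zp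
  refine Finset.sum_congr rfl fun s _ => ?_
  rw [En_shiftEnv]
  by_cases h : x + pos s n = y
  · rw [if_pos h, if_pos (by omega), zero_add, zero_add]
  · rw [if_neg h, if_neg (by omega)]

lemma VlB_shift (x : ℤ) {F : Env → ℝ} (hF : Measurable F) (c : ℝ) :
    (law μ).real {g | c ≤ |F (shiftEnv 0 x g)|} = (law μ).real {g | c ≤ |F g|} := by
  have hs : MeasurableSet {g : Env | c ≤ |F g|} := measurableSet_le measurable_const hF.abs
  exact (mp_shiftEnv (μ := μ) 0 x).measureReal_preimage hs.nullMeasurableSet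

/-- Chebyshev. -/
lemma VlB_cheb (hμ : EM μ) (h : ℝ) (n : ℕ) {c : ℝ} (hc : 0 < c) :
    (law μ).real {g | c ≤ |Real.log (Z g h 0 0 n) - a μ h n|} ≤ VlVar μ h n / c ^ 2 := by
  obtain ⟨X, hX⟩ : ∃ X : Env → ℝ, X = fun g => Real.log (Z g h 0 0 n) - a μ h n := ⟨_, rfl⟩
  have hXE : PMom (law μ) X := by
    rw [hX]
    exact ((EMom_logZ hμ h 0 0 n).sub (EMom.const _)).pmom
  have h1 := mul_meas_ge_le_integral_of_nonneg (μ := law μ) (f := fun g => X g ^ 2)
    (Filter.Eventually.of_forall fun g => sq_nonneg _) hXE.sq_integrable (c ^ 2)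
  have h2 : {g | c ≤ |X g|} = {g | c ^ 2 ≤ X g ^ 2} := by
    ext g
    simp only [Set.mem_ofPred_eq]
    rw [← sq_abs (X g), sq_le_sq₀ hc.le (abs_nonneg _)]
  have h3 : {g | c ≤ |Real.log (Z g h 0 0 n) - a μ h n|} = {g | c ≤ |X g|} := by rw [hX]
  rw [h3, h2, le_div_iff₀ (by positivity), mul_comm]
  refine h1.trans (le_of_eq ?_)
  unfold VlVar
  rw [hX]

/-- The event (D). -/
lemma VlB_D (hμ : EM μ) (h : ℝ) (n i : ℕ) {c : ℝ} (hc : 0 < c) :
    (law μ).real (⋃ x ∈ Icc (-(2 * i : ℤ)) (2 * i), {g | c ≤ |Real.log (Z g h 0 x n) - a μ h n|}) ≤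
      (4 * i + 1) * (VlVar μ h n / c ^ 2) := by
  refine (measureReal_biUnion_finset_le _ _).trans ?_
  have h1 : ∀ x ∈ Icc (-(2 * i : ℤ)) (2 * i),
      (law μ).real {g | c ≤ |Real.log (Z g h 0 x n) - a μ h n|} ≤ VlVar μ h n / c ^ 2 := by
    intro x _
    have h2 := VlB_shift (μ := μ) x (F := fun g => Real.log (Z g h 0 0 n) - a μ h n)
      (by fun_prop) c
    simp only [Z_shiftEnv, zero_add] at h2
    rw [h2]
    exact VlB_cheb hμ h n hc
  refine (Finset.sum_le_sum h1).trans (le_of_eq ?_)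
  rw [Finset.sum_const, Int.card_Icc, nsmul_eq_mul]
  congr 1
  have : (2 * (i : ℤ) + 1 - -(2 * i)) = 4 * i + 1 := by ring
  rw [this]
  have h3 : ((4 * (i : ℤ) + 1).toNat : ℝ) = ((4 * i + 1 : ℕ) : ℝ) := by
    congr 1
  rw [h3]
  push_cast
  ring

/-- The event (C). -/
lemma VlB_C (hμ : EM μ) {i : ℕ} {y0 : ℤ} (hy : Reach 0 i y0) {θ δ : ℝ} (hθ : 0 < θ) (hθ1 : θ ≤ 1) :
    (law μ).real (⋃ y ∈ Icc (-(i : ℤ)) i,
      {g | δ * i ≤ |Real.log (Zp g 0 (y - y0) i y) - ap μ i y0|}) ≤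
      (2 * i + 1) * (2 * Real.exp (Cc μ * θ ^ 2 * i - θ * δ * i)) := by
  refine (measureReal_biUnion_finset_le _ _).trans ?_
  have h1 : ∀ y ∈ Icc (-(i : ℤ)) i,
      (law μ).real {g | δ * i ≤ |Real.log (Zp g 0 (y - y0) i y) - ap μ i y0|} ≤
        2 * Real.exp (Cc μ * θ ^ 2 * i - θ * δ * i) := by
    intro y _
    have h2 := VlB_shift (μ := μ) (y - y0) (F := fun g => Real.log (Zp g 0 0 i y0) - ap μ i y0)
      (by fun_prop) (δ * i)
    have h3 : ∀ g : Env, Zp (shiftEnv 0 (y - y0) g) 0 0 i y0 = Zp g 0 (y - y0) i y := by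
      intro g
      have := VlB_Zp_shift g 0 (y - y0) i y
      rw [show y - (y - y0) = y0 by ring] at this
      exact this
    simp only [h3] at h2
    rw [h2]
    exact dev_exp_Zp hμ hy hθ hθ1
  refine (Finset.sum_le_sum h1).trans (le_of_eq ?_)
  rw [Finset.sum_const, Int.card_Icc, nsmul_eq_mul]
  congr 1
  have : ((i : ℤ) + 1 - -i) = 2 * i + 1 := by ring
  rw [this]
  have h3 : ((2 * (i : ℤ) + 1).toNat : ℝ) = ((2 * i + 1 : ℕ) : ℝ) := by
    congr 1
  rw [h3]
  push_cast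
  ring

lemma VlB_Av_meas (h v ε : ℝ) (n i : ℕ) :
    Measurable fun g : Env => Av g h 0 0 n (VlFar v ε i) :=
  measurable_Av (F := fun _ s => VlFar v ε i s) fun s _ => measurable_const

/-- The mean estimate, for given parameters. -/
lemma VlB_mean (hμ : EM μ) {h v ε u δ L θ : ℝ} {i r : ℕ} {y0 : ℤ} (hu : 0 < u) (hδ : 0 < δ)
    (hθ : 0 < θ) (hθ1 : θ ≤ 1) (hi : 0 < i) (hy0 : Reach 0 i y0)
    (hb : (L - δ) * i ≤ ap μ i y0 - δ / 2 * i + h * y0)
    (hB1 : a μ (h + u) i + δ / 2 * i ≤ (L + u * v + δ) * i)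
    (hB2 : a μ (h - u) i + δ / 2 * i ≤ (L - u * v + δ) * i) :
    ∫ g, Av g h 0 0 (i + r) (VlFar v ε i) ∂(law μ) ≤
      2 * Real.exp (-((u * ε - 4 * δ) * i)) + (4 * i + 1) * (VlVar μ h (i + r) / (δ * i) ^ 2) +
      (2 * i + 1) * (2 * Real.exp (Cc μ * θ ^ 2 * i - θ * (δ / 2) * i)) +
      2 * (2 * Real.exp (Cc μ * θ ^ 2 * i - θ * (δ / 2) * i)) := by
  have hi0 : (0 : ℝ) < i := by exact_mod_cast hi
  have hδi : 0 < δ * i := by positivity
  obtain ⟨SD, hSD⟩ : ∃ S : Set Env, S = ⋃ x ∈ Icc (-(2 * i : ℤ)) (2 * i),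
    {g | δ * i ≤ |Real.log (Z g h 0 x (i + r)) - a μ h (i + r)|} := ⟨_, rfl⟩
  obtain ⟨SC, hSC⟩ : ∃ S : Set Env, S = ⋃ y ∈ Icc (-(i : ℤ)) i,
    {g | δ / 2 * i ≤ |Real.log (Zp g 0 (y - y0) i y) - ap μ i y0|} := ⟨_, rfl⟩
  obtain ⟨S1, hS1⟩ : ∃ S : Set Env, S =
    {g | δ / 2 * i ≤ |Real.log (Z g (h + u) 0 0 i) - a μ (h + u) i|} := ⟨_, rfl⟩
  obtain ⟨S2, hS2⟩ : ∃ S : Set Env, S =
    {g | δ / 2 * i ≤ |Real.log (Z g (h - u) 0 0 i) - a μ (h - u) i|} := ⟨_, rfl⟩
  have pD : (law μ).real SD ≤ (4 * i + 1) * (VlVar μ h (i + r) / (δ * i) ^ 2) := by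
    rw [hSD]
    exact VlB_D hμ h (i + r) i hδi
  have pC : (law μ).real SC ≤ (2 * i + 1) * (2 * Real.exp (Cc μ * θ ^ 2 * i - θ * (δ / 2) * i)) := by
    rw [hSC]
    exact VlB_C hμ hy0 hθ hθ1
  have p1 : (law μ).real S1 ≤ 2 * Real.exp (Cc μ * θ ^ 2 * i - θ * (δ / 2) * i) := by
    rw [hS1]
    exact Lim_dev hμ (h + u) i hθ hθ1
  have p2 : (law μ).real S2 ≤ 2 * Real.exp (Cc μ * θ ^ 2 * i - θ * (δ / 2) * i) := by
    rw [hS2]
    exact Lim_dev hμ (h - u) i hθ hθ1
  have mD : MeasurableSet SD := by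
    rw [hSD]
    refine Finset.measurableSet_biUnion _ fun x _ => ?_
    exact measurableSet_le measurable_const (by fun_prop)
  have mC : MeasurableSet SC := by
    rw [hSC]
    refine Finset.measurableSet_biUnion _ fun x _ => ?_
    exact measurableSet_le measurable_const (by fun_prop)
  have m1 : MeasurableSet S1 := by
    rw [hS1]
    exact measurableSet_le measurable_const (by fun_prop)
  have m2 : MeasurableSet S2 := by
    rw [hS2]
    exact measurableSet_le measurable_const (by fun_prop)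
  obtain ⟨S, hS⟩ : ∃ S : Set Env, S = SD ∪ SC ∪ S1 ∪ S2 := ⟨_, rfl⟩
  have mS : MeasurableSet S := by
    rw [hS]
    exact ((mD.union mC).union m1).union m2
  have pS : (law μ).real S ≤ (law μ).real SD + (law μ).real SC + (law μ).real S1 +
      (law μ).real S2 := by
    rw [hS]
    refine (measureReal_union_le _ _).trans ?_
    refine add_le_add ((measureReal_union_le _ _).trans ?_) le_rfl
    exact add_le_add (measureReal_union_le _ _) le_rfl
  have hpt : ∀ g : Env, Av g h 0 0 (i + r) (VlFar v ε i) ≤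
      2 * Real.exp (-((u * ε - 4 * δ) * i)) + Set.indicator S 1 g := by
    intro g
    by_cases hg : g ∈ S
    · rw [Set.indicator_of_mem hg, Pi.one_apply]
      have h1 : Av g h 0 0 (i + r) (VlFar v ε i) ≤ 1 := Av_le fun s _ => VlFar_le_one v ε i s
      have := Real.exp_pos (-((u * ε - 4 * δ) * i))
      linarith
    · rw [Set.indicator_of_notMem hg, add_zero]
      rw [hS] at hg
      simp only [Set.mem_union, not_or] at hg
      obtain ⟨⟨⟨gD, gC⟩, g1⟩, g2⟩ := hg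
      rw [hSD] at gD
      rw [hSC] at gC
      rw [hS1] at g1
      rw [hS2] at g2
      simp only [Set.mem_iUnion, not_exists, Set.mem_ofPred_eq, not_le] at gD gC g1 g2
      refine VlB_det (A := a μ h (i + r)) (L := L) (b := ap μ i y0 - δ / 2 * i) hu hy0 ?_ ?_ hb ?_ ?_
      · intro x hx
        refine (gD x ?_).le
        rw [Finset.mem_Icc]
        exact abs_le.1 hx
      · intro y hy
        have := gC y (by
          rw [Finset.mem_Icc]
          exact abs_le.1 hy)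
        have := (abs_lt.1 this).1
        linarith
      · have := (abs_lt.1 g1).2
        linarith
      · have := (abs_lt.1 g2).2
        linarith
  have hint : Integrable (fun g : Env => Av g h 0 0 (i + r) (VlFar v ε i)) (law μ) := by
    refine Integrable.of_bound (C := 1) (VlB_Av_meas h v ε (i + r) i).aestronglyMeasurable ?_
    refine Filter.Eventually.of_forall fun g => ?_
    rw [Real.norm_eq_abs]
    refine Av_abs_le fun s _ => ?_
    rw [abs_of_nonneg (VlFar_nonneg v ε i s)]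
    exact VlFar_le_one v ε i s
  have hSi : Integrable (Set.indicator S (1 : Env → ℝ)) (law μ) :=
    (integrable_const (1 : ℝ)).indicator mS
  have h1 : ∫ g, Av g h 0 0 (i + r) (VlFar v ε i) ∂(law μ) ≤
      ∫ g, (2 * Real.exp (-((u * ε - 4 * δ) * i)) + Set.indicator S 1 g) ∂(law μ) := by
    refine integral_mono hint ?_ hpt
    exact (integrable_const _).add hSi
  rw [integral_add (integrable_const _) hSi, integral_indicator_one mS] at h1
  simp only [integral_const, probReal_univ, smul_eq_mul, one_mul] at h1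
  linarith

end

end Pool.Agent.W_7d29a1_F
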