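import Pool.Agent.W_7d29a1_F.VlB

/-!
Corollary (VL) of Theorem F: the variance of the free energy is not of order `log n`.
-/

namespace Pool.Agent.W_7d29a1_F

open MeasureTheory ProbabilityTheory Finset Filter Topology
open Pool.Agent.W_7d29a1_h47

noncomputable section

variable {μ : Measure ℝ} [IsProbabilityMeasure μ]

/-- Admissible end points with direction `v`. -/
def VlY (v : ℝ) (n : ℕ) : ℤ := n - 2 * (⌊(1 - v) / 2 * n⌋₊ : ℤ)

lemma VlY_parity (v : ℝ) (n : ℕ) : (VlY v n - n) % 2 = 0 := by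
  unfold VlY
  omega

lemma VlY_tendsto {v : ℝ} (hv : v ≤ 1) : Tendsto (fun n : ℕ => (VlY v n : ℝ) / n) atTop (𝓝 v) := by
  have h1 : Tendsto (fun n : ℕ => ((⌊(1 - v) / 2 * (n : ℝ)⌋₊ : ℕ) : ℝ) / (n : ℝ)) atTop
      (𝓝 ((1 - v) / 2)) :=
    (tendsto_nat_floor_mul_div_atTop (R := ℝ) (a := (1 - v) / 2) (by linarith)).comp
      tendsto_natCast_atTop_atTop
  have h2 : Tendsto (fun n : ℕ => 1 - 2 * (((⌊(1 - v) / 2 * (n : ℝ)⌋₊ : ℕ) : ℝ) / (n : ℝ))) atTop
      (𝓝 v) := by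
    have h3 := (h1.const_mul 2).const_sub 1
    have h4 : 1 - 2 * ((1 - v) / 2) = v := by ring
    rwa [h4] at h3
  refine h2.congr' ?_
  filter_upwards [eventually_gt_atTop 0] with n hn
  have hn0 : (0 : ℝ) < n := by exact_mod_cast hn
  unfold VlY
  push_cast
  field_simp

lemma VlC_small {c : ℝ} (hc : 0 < c) (A B : ℝ) :
    Tendsto (fun i : ℕ => (A * i + B) * Real.exp (-(c * i))) atTop (𝓝 0) := by
  have h1 : Tendsto (fun x : ℝ => x ^ 1 * Real.exp (-c * x)) atTop (𝓝 0) := by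
    have h := Real.tendsto_pow_mul_exp_neg_atTop_nhds_zero 1
    have h2 : Tendsto (fun x : ℝ => c * x) atTop atTop := tendsto_id.const_mul_atTop hc
    have h3 := (h.comp h2).const_mul c⁻¹
    rw [mul_zero] at h3
    refine h3.congr fun x => ?_
    simp only [Function.comp_apply, pow_one]
    field_simp
  have h2 : Tendsto (fun x : ℝ => Real.exp (-c * x)) atTop (𝓝 0) := by
    refine Real.tendsto_exp_atBot.comp ?_
    have h2 : Tendsto (fun x : ℝ => c * x) atTop atTop := tendsto_id.const_mul_atTop hc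
    refine (tendsto_neg_atTop_atBot.comp h2).congr fun x => ?_
    simp only [Function.comp_apply]
    ring
  have h3 : Tendsto (fun x : ℝ => A * (x ^ 1 * Real.exp (-c * x)) + B * Real.exp (-c * x)) atTop
      (𝓝 (A * 0 + B * 0)) := (h1.const_mul A).add (h2.const_mul B)
  have h4 := h3.comp tendsto_natCast_atTop_atTop (α := ℕ)
  simp only [mul_zero, add_zero] at h4
  refine h4.congr fun i => ?_
  simp only [Function.comp_apply, pow_one, neg_mul]
  ring

/-- Localisation at time `i`, uniformly in the total length. -/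
theorem VlC_loc (hμ : EM μ) {h v : ℝ} (hv : |v| < 1) (hd : HasDerivAt (Lam μ) v h)
    (hs : SubG μ h v) {ε : ℝ} (hε : 0 < ε) :
    ∃ δ : ℝ, 0 < δ ∧ ∃ i0 : ℕ, ∀ i ≥ i0, ∀ r : ℕ,
      ∫ g, Av g h 0 0 (i + r) (VlFar v ε i) ∂(law μ) ≤
        1 / 4 + 5 * VlVar μ h (i + r) / (δ ^ 2 * i) := by
  have h1 : ∀ᶠ x in 𝓝 h, |Lam μ x - Lam μ h - (x - h) * v| ≤ ε / 16 * |x - h| := by
    have h2 := hasDerivAt_iff_isLittleO.1 hd
    have h3 := h2.bound (show (0 : ℝ) < ε / 16 by linarith)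
    simpa [smul_eq_mul] using h3
  obtain ⟨ρ, hρ, hρ1⟩ := Metric.eventually_nhds_iff.1 h1
  obtain ⟨u, hu⟩ : ∃ u : ℝ, u = ρ / 2 := ⟨_, rfl⟩
  have hu0 : 0 < u := by rw [hu]; linarith
  have huρ : u < ρ := by rw [hu]; linarith
  have hp : Lam μ (h + u) ≤ Lam μ h + u * v + ε / 16 * u := by
    have h2 := hρ1 (y := h + u) (by
      rw [Real.dist_eq, add_sub_cancel_left, abs_of_pos hu0]; exact huρ)
    rw [add_sub_cancel_left, abs_of_pos hu0] at h2
    linarith [(abs_le.1 h2).2]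
  have hm : Lam μ (h - u) ≤ Lam μ h - u * v + ε / 16 * u := by
    have h2 := hρ1 (y := h - u) (by
      rw [Real.dist_eq, sub_sub_cancel_left, abs_neg, abs_of_pos hu0]; exact huρ)
    rw [sub_sub_cancel_left, abs_neg, abs_of_pos hu0] at h2
    linarith [(abs_le.1 h2).2]
  obtain ⟨δ, hδ⟩ : ∃ δ : ℝ, δ = u * ε / 8 := ⟨_, rfl⟩
  have hδ0 : 0 < δ := by rw [hδ]; positivity
  have hC := Cc_nonneg μ
  obtain ⟨θ, hθ⟩ : ∃ θ : ℝ, θ = min 1 (δ / (4 * (Cc μ + 1))) := ⟨_, rfl⟩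
  have hθ0 : 0 < θ := by rw [hθ]; exact lt_min one_pos (by positivity)
  have hθ1 : θ ≤ 1 := by rw [hθ]; exact min_le_left _ _
  have hθ2 : Cc μ * θ ^ 2 ≤ θ * δ / 4 := by
    have h1 : θ ≤ δ / (4 * (Cc μ + 1)) := by rw [hθ]; exact min_le_right _ _
    have h2 : θ * (4 * (Cc μ + 1)) ≤ δ := by rwa [le_div_iff₀ (by positivity)] at h1
    have h3 := mul_le_mul_of_nonneg_left h2 hθ0.le
    have h4 := mul_pos hθ0 hθ0
    have h5 : θ * (θ * (4 * (Cc μ + 1))) = 4 * (Cc μ * θ ^ 2) + 4 * (θ * θ) := by ring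
    rw [h5] at h3
    linarith
  -- the admissible end points
  have hpar := VlY_parity v
  have hvy := VlY_tendsto (v := v) (abs_lt.1 hv).2.le
  have q1 := ap_lower hμ hv hs hpar hvy (show (0 : ℝ) < δ / 4 by linarith)
  have q2 := ev_reach hv hpar hvy
  have q3 : ∀ᶠ i : ℕ in atTop, h * v - δ / 4 < h * ((VlY v i : ℝ) / i) :=
    (hvy.const_mul h).eventually_const_lt (by linarith)
  have q4 : ∀ᶠ i : ℕ in atTop, (0 * (i : ℝ) + 2) * Real.exp (-(u * ε / 2 * i)) < 1 / 12 :=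
    (VlC_small (by positivity) 0 2).eventually_lt_const (by norm_num)
  have q5 : ∀ᶠ i : ℕ in atTop, (4 * (i : ℝ) + 2) * Real.exp (-(θ * δ / 4 * i)) < 1 / 12 :=
    (VlC_small (by positivity) 4 2).eventually_lt_const (by norm_num)
  have q6 : ∀ᶠ i : ℕ in atTop, (0 * (i : ℝ) + 4) * Real.exp (-(θ * δ / 4 * i)) < 1 / 12 :=
    (VlC_small (by positivity) 0 4).eventually_lt_const (by norm_num)
  obtain ⟨i0, hi0⟩ := eventually_atTop.1 (q1.and (q2.and (q3.and (q4.and (q5.and (q6.and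
    (eventually_gt_atTop 0)))))))
  refine ⟨δ, hδ0, i0, fun i hi r => ?_⟩
  obtain ⟨r1, r2, r3, r4, r5, r6, r7⟩ := hi0 i hi
  have hi' : (0 : ℝ) < i := by exact_mod_cast r7
  have hi1 : (1 : ℝ) ≤ i := by exact_mod_cast r7
  have r3' : (h * v - δ / 4) * i ≤ h * VlY v i := by
    have := mul_lt_mul_of_pos_right r3 hi'
    have e : h * ((VlY v i : ℝ) / i) * i = h * VlY v i := by
      field_simp
    rw [e] at this
    exact this.le
  have a1 := a_le_Lam hμ (h + u) i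
  have a2 := a_le_Lam hμ (h - u) i
  have p1 := mul_le_mul_of_nonneg_left hp hi'.le
  have p2 := mul_le_mul_of_nonneg_left hm hi'.le
  have k1 : (Lam μ h - δ) * i ≤ ap μ i (VlY v i) - δ / 2 * i + h * VlY v i := by
    have z1 : (i : ℝ) * (Lam μ h - h * v - δ / 4) + (h * v - δ / 4) * i =
        (Lam μ h - δ / 2) * i := by ring
    linarith
  have z2 : ε / 16 * u = δ / 2 := by rw [hδ]; ring
  rw [z2] at p1 p2
  have k2 : a μ (h + u) i + δ / 2 * i ≤ (Lam μ h + u * v + δ) * i := by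
    linarith
  have k3 : a μ (h - u) i + δ / 2 * i ≤ (Lam μ h - u * v + δ) * i := by
    linarith
  have main := VlB_mean (μ := μ) (h := h) (v := v) (ε := ε) (u := u) (δ := δ) (L := Lam μ h)
    (θ := θ) (r := r) hμ hu0 hδ0 hθ0 hθ1 r7 r2 k1 k2 k3
  refine main.trans ?_
  have e1 : 2 * Real.exp (-((u * ε - 4 * δ) * i)) ≤ 1 / 12 := by
    have : (u * ε - 4 * δ) * i = u * ε / 2 * i := by rw [hδ]; ring
    rw [this]
    linarith
  have e2 : Real.exp (Cc μ * θ ^ 2 * i - θ * (δ / 2) * i) ≤ Real.exp (-(θ * δ / 4 * i)) := by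
    refine Real.exp_le_exp.2 ?_
    have := mul_le_mul_of_nonneg_right hθ2 hi'.le
    linarith
  have e3 : (2 * (i : ℝ) + 1) * (2 * Real.exp (Cc μ * θ ^ 2 * i - θ * (δ / 2) * i)) ≤ 1 / 12 := by
    have := mul_le_mul_of_nonneg_left e2 (show (0 : ℝ) ≤ (2 * i + 1) * 2 by positivity)
    linarith
  have e4 : 2 * (2 * Real.exp (Cc μ * θ ^ 2 * i - θ * (δ / 2) * i)) ≤ 1 / 12 := by
    linarith
  have hV := VlVar_nonneg (μ := μ) h (i + r)
  have e5 : (4 * (i : ℝ) + 1) * (VlVar μ h (i + r) / (δ * i) ^ 2) ≤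
      5 * VlVar μ h (i + r) / (δ ^ 2 * i) := by
    rw [← mul_div_assoc, div_le_div_iff₀ (by positivity) (by positivity)]
    have e6 : (4 * (i : ℝ) + 1) ≤ 5 * i := by linarith
    calc (4 * (i : ℝ) + 1) * VlVar μ h (i + r) * (δ ^ 2 * i)
        ≤ (5 * i) * VlVar μ h (i + r) * (δ ^ 2 * i) := by gcongr
      _ = 5 * VlVar μ h (i + r) * (δ * i) ^ 2 := by ring
  linarith

/-- A lower bound for the harmonic sums. -/
lemma VlC_harm {M : ℕ} (hM : 1 ≤ M) (n : ℕ) (hn : M - 1 ≤ n) :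
    Real.log (n + 1) - Real.log M ≤ ∑ j ∈ Ico (M - 1) n, 1 / ((j : ℝ) + 1) := by
  induction n, hn using Nat.le_induction with
  | base =>
    have : ((M - 1 : ℕ) : ℝ) + 1 = M := by
      rw [Nat.cast_sub hM]
      push_cast
      ring
    rw [this]
    simp
  | succ n hn ih =>
    rw [Finset.sum_Ico_succ_top hn]
    have h1 : (0 : ℝ) < (n : ℝ) + 1 := by positivity
    have h2 : (0 : ℝ) < ((n + 1 : ℕ) : ℝ) + 1 := by positivity
    have h3 := Real.log_le_sub_one_of_pos (div_pos h2 h1)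
    rw [Real.log_div h2.ne' h1.ne'] at h3
    have h4 : (((n + 1 : ℕ) : ℝ) + 1) / ((n : ℝ) + 1) - 1 = 1 / ((n : ℝ) + 1) := by
      push_cast
      field_simp
      ring
    rw [h4] at h3
    linarith

/-- The sum of the squares of the occupations of one row. -/
lemma VlC_row {h v ε : ℝ} (hv : |v| < 1) (hε : 0 < ε) (hε1 : ε ≤ 1) {i n : ℕ}
    (hin : i < n) (hi1 : 1 ≤ ε * (i + 1))
    (hloc : ∫ g, Av g h 0 0 n (VlFar v ε (i + 1)) ∂(law μ) ≤ 1 / 2) :
    1 / (12 * ε) * (1 / ((i : ℝ) + 1)) ≤ ∑ y ∈ Icc (-(2 * n : ℤ)) (2 * n), VlOcc μ h n (i, y) ^ 2 := by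
  classical
  have hi0 : (0 : ℝ) < (i : ℝ) + 1 := by positivity
  have hn : ((i : ℝ) + 1) ≤ n := by exact_mod_cast hin
  obtain ⟨W, hW⟩ : ∃ W : Finset ℤ, W = Icc ⌈v * (i + 1) - ε * (i + 1)⌉ ⌊v * (i + 1) + ε * (i + 1)⌋ :=
    ⟨_, rfl⟩
  have hv' := abs_lt.1 hv
  have hsub : W ⊆ Icc (-(2 * n : ℤ)) (2 * n) := by
    rw [hW]
    intro y hy
    rw [Finset.mem_Icc] at hy ⊢
    have h1 : v * (i + 1) - ε * (i + 1) ≤ (y : ℝ) := Int.ceil_le.1 hy.1
    have h2 : (y : ℝ) ≤ v * (i + 1) + ε * (i + 1) := Int.le_floor.1 hy.2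
    constructor
    · have : (-(2 * n : ℤ) : ℝ) ≤ (y : ℝ) := by
        push_cast
        nlinarith
      exact_mod_cast this
    · have : (y : ℝ) ≤ ((2 * n : ℤ) : ℝ) := by
        push_cast
        nlinarith
      exact_mod_cast this
  have hcard : (W.card : ℝ) ≤ 3 * ε * (i + 1) := by
    rw [hW, Int.card_Icc]
    have h1 := Int.floor_le (v * (i + 1) + ε * (i + 1))
    have h2 := Int.le_ceil (v * ((i : ℝ) + 1) - ε * (i + 1))
    rcases le_or_gt 0 (⌊v * ((i : ℝ) + 1) + ε * (i + 1)⌋ + 1 - ⌈v * ((i : ℝ) + 1) - ε * (i + 1)⌉) with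
      h3 | h3
    · have h4 : (((⌊v * ((i : ℝ) + 1) + ε * (i + 1)⌋ + 1 -
          ⌈v * ((i : ℝ) + 1) - ε * (i + 1)⌉).toNat : ℤ) : ℝ) =
          ((⌊v * ((i : ℝ) + 1) + ε * (i + 1)⌋ + 1 - ⌈v * ((i : ℝ) + 1) - ε * (i + 1)⌉ : ℤ) : ℝ) := by
        rw [Int.toNat_of_nonneg h3]
      have h5 : (((⌊v * ((i : ℝ) + 1) + ε * (i + 1)⌋ + 1 -
          ⌈v * ((i : ℝ) + 1) - ε * (i + 1)⌉).toNat : ℕ) : ℝ) =
          ((⌊v * ((i : ℝ) + 1) + ε * (i + 1)⌋ + 1 - ⌈v * ((i : ℝ) + 1) - ε * (i + 1)⌉ : ℤ) : ℝ) := by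
        rw [← h4]
        push_cast
        rfl
      rw [h5]
      push_cast
      linarith
    · rw [Int.toNat_of_nonpos h3.le, Nat.cast_zero]
      positivity
  have hsum : 1 / 2 ≤ ∑ y ∈ W, VlOcc μ h n (i, y) := by
    have e1 : ∑ y ∈ W, VlOcc μ h n (i, y) =
        ∫ g, Av g h 0 0 n (fun s => ∑ y ∈ W, vis (i, y) n s) ∂(law μ) := by
      unfold VlOcc
      rw [← integral_finsetSum _ fun y _ => VlA_Av_int h n (i, y)]
      refine integral_congr_ae (Eventually.of_forall fun g => ?_)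
      simp only
      rw [Av_sum]
    have e2 : ∀ g : Env, 1 - Av g h 0 0 n (VlFar v ε (i + 1)) ≤
        Av g h 0 0 n (fun s => ∑ y ∈ W, vis (i, y) n s) := by
      intro g
      have e3 : 1 - Av g h 0 0 n (VlFar v ε (i + 1)) =
          Av g h 0 0 n (fun s => 1 - VlFar v ε (i + 1) s) := by
        rw [Av_sub, Av_const]
      rw [e3]
      refine Av_mono fun s _ => ?_
      unfold VlFar
      by_cases hf : ε * ((i + 1 : ℕ) : ℝ) ≤ |(pos s (i + 1) : ℝ) - v * ((i + 1 : ℕ) : ℝ)|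
      · rw [ind_true hf, sub_self]
        exact Finset.sum_nonneg fun y _ => SiteK_vis_nonneg _ _ _
      · rw [ind_false hf, sub_zero]
        have hf' := not_le.1 hf
        rw [abs_lt] at hf'
        push_cast at hf'
        have hmem : pos s (i + 1) ∈ W := by
          rw [hW, Finset.mem_Icc]
          constructor
          · rw [Int.ceil_le]
            linarith [hf'.1]
          · rw [Int.le_floor]
            linarith [hf'.2]
        have e4 : vis (i, pos s (i + 1)) n s = 1 := ind_true ⟨hin, rfl⟩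
        rw [← e4]
        exact Finset.single_le_sum (f := fun y => vis (i, y) n s)
          (fun y _ => SiteK_vis_nonneg _ _ _) hmem
    have i1 : Integrable (fun g : Env => Av g h 0 0 n (VlFar v ε (i + 1))) (law μ) := by
      refine Integrable.of_bound (C := 1) (VlB_Av_meas h v ε n (i + 1)).aestronglyMeasurable ?_
      refine Filter.Eventually.of_forall fun g => ?_
      rw [Real.norm_eq_abs]
      refine Av_abs_le fun s _ => ?_
      rw [abs_of_nonneg (VlFar_nonneg v ε (i + 1) s)]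
      exact VlFar_le_one v ε (i + 1) s
    have i2 : Integrable (fun g : Env => Av g h 0 0 n (fun s => ∑ y ∈ W, vis (i, y) n s))
        (law μ) := by
      have : (fun g : Env => Av g h 0 0 n (fun s => ∑ y ∈ W, vis (i, y) n s)) =
          fun g : Env => ∑ y ∈ W, Av g h 0 0 n (fun s => vis (i, y) n s) := by
        funext g
        rw [Av_sum]
      rw [this]
      exact integrable_finsetSum _ fun y _ => VlA_Av_int h n (i, y)
    have e5 := integral_mono (μ := law μ) ((integrable_const (1 : ℝ)).sub i1) i2 e2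
    have e6 : ∫ g : Env, (1 - Av g h 0 0 n (VlFar v ε (i + 1))) ∂(law μ) =
        1 - ∫ g : Env, Av g h 0 0 n (VlFar v ε (i + 1)) ∂(law μ) := by
      rw [integral_sub (integrable_const _) i1]
      simp
    rw [e1]
    have e7 : ∫ g : Env, (1 - Av g h 0 0 n (VlFar v ε (i + 1))) ∂(law μ) ≤
        ∫ g, Av g h 0 0 n (fun s => ∑ y ∈ W, vis (i, y) n s) ∂(law μ) := e5
    rw [e6] at e7
    linarith
  have hCS := sq_sum_le_card_mul_sum_sq (s := W) (f := fun y => VlOcc μ h n (i, y))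
  have hmono : ∑ y ∈ W, VlOcc μ h n (i, y) ^ 2 ≤
      ∑ y ∈ Icc (-(2 * n : ℤ)) (2 * n), VlOcc μ h n (i, y) ^ 2 :=
    Finset.sum_le_sum_of_subset_of_nonneg hsub fun _ _ _ => sq_nonneg _
  refine le_trans ?_ hmono
  obtain ⟨Q, hQ⟩ : ∃ Q : ℝ, Q = ∑ y ∈ W, VlOcc μ h n (i, y) ^ 2 := ⟨_, rfl⟩
  have hQ0 : 0 ≤ Q := by
    rw [hQ]
    exact Finset.sum_nonneg fun _ _ => sq_nonneg _
  rw [← hQ] at hCS ⊢
  have f1 : (1 / 4 : ℝ) ≤ (∑ y ∈ W, VlOcc μ h n (i, y)) ^ 2 := by nlinarith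
  have f2 : (1 / 4 : ℝ) ≤ 3 * ε * (i + 1) * Q :=
    (f1.trans hCS).trans (mul_le_mul_of_nonneg_right hcard hQ0)
  rw [div_mul_div_comm, one_mul, div_le_iff₀ (by positivity)]
  linarith

/-- Corollary (VL). -/
theorem VlC_var (hμ : EM μ) (hnd : Nondeg μ) {h v : ℝ} (hv : |v| < 1)
    (hd : HasDerivAt (Lam μ) v h) (hs : SubG μ h v) (K : ℝ) :
    ∀ᶠ n : ℕ in atTop, K * Real.log n ≤ VlVar μ h n := by
  obtain ⟨c, hc, hNP⟩ := var_ge_VlOcc hμ hnd
  obtain ⟨K', hK'⟩ : ∃ K' : ℝ, K' = max K 1 := ⟨_, rfl⟩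
  have hK1 : 1 ≤ K' := by rw [hK']; exact le_max_right _ _
  have hKK : K ≤ K' := by rw [hK']; exact le_max_left _ _
  have hK0 : 0 < K' := by linarith
  obtain ⟨ε, hε⟩ : ∃ ε : ℝ, ε = min 1 (c / (48 * K')) := ⟨_, rfl⟩
  have hε0 : 0 < ε := by rw [hε]; exact lt_min one_pos (by positivity)
  have hε1 : ε ≤ 1 := by rw [hε]; exact min_le_left _ _
  have hεc : 48 * K' * ε ≤ c := by
    have : ε ≤ c / (48 * K') := by rw [hε]; exact min_le_right _ _
    rw [le_div_iff₀ (by positivity)] at this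
    linarith
  obtain ⟨δ, hδ, i0, hloc⟩ := VlC_loc hμ hv hd hs hε0
  obtain ⟨A, hA⟩ : ∃ A : ℝ, A = i0 + 1 / ε + 4 := ⟨_, rfl⟩
  obtain ⟨B, hB⟩ : ∃ B : ℝ, B = 20 * K' / δ ^ 2 := ⟨_, rfl⟩
  have hB0 : 0 < B := by rw [hB]; positivity
  have t1 : ∀ᶠ n : ℕ in atTop, 2 * A ≤ Real.sqrt n := by
    have : Tendsto (fun n : ℕ => Real.sqrt (n : ℝ)) atTop atTop :=
      Real.tendsto_sqrt_atTop.comp tendsto_natCast_atTop_atTop
    exact this.eventually_ge_atTop _
  have t2 : ∀ᶠ n : ℕ in atTop, 2 * B * Real.log n ≤ Real.sqrt n := by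
    have h1 := (isLittleO_log_rpow_atTop (show (0 : ℝ) < 1 / 2 by norm_num)).bound
      (show (0 : ℝ) < 1 / (2 * B) by positivity)
    have h2 := tendsto_natCast_atTop_atTop (R := ℝ).eventually h1
    filter_upwards [h2, eventually_ge_atTop 1] with n hn hn1
    have hn' : (1 : ℝ) ≤ n := by exact_mod_cast hn1
    rw [Real.norm_eq_abs, Real.norm_eq_abs, abs_of_nonneg (Real.log_nonneg hn'),
      abs_of_nonneg (by positivity), ← Real.sqrt_eq_rpow] at hn
    rw [one_div, inv_mul_eq_div, le_div_iff₀ (by positivity)] at hn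
    linarith
  filter_upwards [t1, t2, eventually_ge_atTop 2] with n n1 n2 n3
  have hn2 : (2 : ℝ) ≤ n := by exact_mod_cast n3
  have hlog : 0 < Real.log n := Real.log_pos (by linarith)
  obtain ⟨V, hV⟩ : ∃ V : ℝ, V = VlVar μ h n := ⟨_, rfl⟩
  have hV0 : 0 ≤ V := by rw [hV]; exact VlVar_nonneg h n
  rw [← hV]
  by_contra hcon
  rw [not_le] at hcon
  have hVK : V < K' * Real.log n := lt_of_lt_of_le hcon (mul_le_mul_of_nonneg_right hKK hlog.le)
  obtain ⟨M, hM⟩ : ∃ M : ℕ, M = i0 + ⌈1 / ε⌉₊ + ⌈20 * V / δ ^ 2⌉₊ + 1 := ⟨_, rfl⟩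
  have hM1 : 1 ≤ M := by omega
  have hMle : (M : ℝ) ≤ Real.sqrt n := by
    have e1 := Nat.ceil_lt_add_one (show 0 ≤ 1 / ε by positivity)
    have e2 := Nat.ceil_lt_add_one (show 0 ≤ 20 * V / δ ^ 2 by positivity)
    have e3 : 20 * V / δ ^ 2 ≤ B * Real.log n := by
      rw [hB, div_mul_eq_mul_div]
      refine div_le_div_of_nonneg_right ?_ (by positivity)
      linarith
    have e4 : (M : ℝ) = i0 + ⌈1 / ε⌉₊ + ⌈20 * V / δ ^ 2⌉₊ + 1 := by
      rw [hM]
      push_cast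
      ring
    rw [e4]
    linarith
  have hM0 : (0 : ℝ) < M := by exact_mod_cast hM1
  have hlogM : Real.log M ≤ Real.log n / 2 := by
    have e1 := Real.log_le_log hM0 hMle
    rw [Real.log_sqrt (by linarith)] at e1
    exact e1
  have hMn : M - 1 ≤ n := by
    have e1 : Real.sqrt n ≤ n := by
      rw [Real.sqrt_le_left (by linarith)]
      nlinarith
    have e2 : (M : ℝ) ≤ n := hMle.trans e1
    have e3 : M ≤ n := by exact_mod_cast e2
    omega
  have hS := hNP h n (range n ×ˢ Icc (-(2 * n : ℤ)) (2 * n))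
  rw [Finset.sum_product] at hS
  have hrows : ∑ j ∈ Ico (M - 1) n, 1 / (12 * ε) * (1 / ((j : ℝ) + 1)) ≤
      ∑ j ∈ range n, ∑ y ∈ Icc (-(2 * n : ℤ)) (2 * n), VlOcc μ h n (j, y) ^ 2 := by
    have e0 : Ico (M - 1) n ⊆ range n := by
      intro j hj
      rw [Finset.mem_Ico] at hj
      rw [Finset.mem_range]
      exact hj.2
    refine le_trans (Finset.sum_le_sum fun j hj => ?_)
      (Finset.sum_le_sum_of_subset_of_nonneg e0 fun _ _ _ =>
        Finset.sum_nonneg fun _ _ => sq_nonneg _)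
    rw [Finset.mem_Ico] at hj
    have hjM : M ≤ j + 1 := by omega
    have hjM' : (M : ℝ) ≤ (j : ℝ) + 1 := by exact_mod_cast hjM
    have e4 : (M : ℝ) = i0 + ⌈1 / ε⌉₊ + ⌈20 * V / δ ^ 2⌉₊ + 1 := by
      rw [hM]
      push_cast
      ring
    have c1 := Nat.le_ceil (1 / ε)
    have c2 := Nat.le_ceil (20 * V / δ ^ 2)
    have c3 : (0 : ℝ) ≤ i0 := by positivity
    have c4 : (0 : ℝ) ≤ (⌈1 / ε⌉₊ : ℝ) := by positivity
    have c5 : (0 : ℝ) ≤ (⌈20 * V / δ ^ 2⌉₊ : ℝ) := by positivity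
    refine VlC_row hv hε0 hε1 hj.2 ?_ ?_
    · have e5 : 1 / ε ≤ (j : ℝ) + 1 := by linarith
      rw [div_le_iff₀ hε0] at e5
      linarith
    · have e6 := hloc (j + 1) (by omega) (n - (j + 1))
      have e7 : j + 1 + (n - (j + 1)) = n := by omega
      rw [e7, ← hV] at e6
      refine e6.trans ?_
      have e8 : 20 * V / δ ^ 2 ≤ (j : ℝ) + 1 := by linarith
      rw [div_le_iff₀ (by positivity)] at e8
      have e9 : 5 * V / (δ ^ 2 * ((j + 1 : ℕ) : ℝ)) ≤ 1 / 4 := by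
        rw [div_le_iff₀ (by positivity)]
        push_cast
        linarith
      linarith
  have hharm := VlC_harm hM1 n hMn
  have hlog1 : Real.log n ≤ Real.log ((n : ℝ) + 1) := Real.log_le_log (by linarith) (by linarith)
  rw [← Finset.mul_sum] at hrows
  have f1 : Real.log n / 2 ≤ ∑ j ∈ Ico (M - 1) n, 1 / ((j : ℝ) + 1) := by linarith
  have f2 := mul_le_mul_of_nonneg_left f1 (show (0 : ℝ) ≤ 1 / (12 * ε) by positivity)
  have f3 : c * (1 / (12 * ε) * (Real.log n / 2)) ≤ V := by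
    refine le_trans (mul_le_mul_of_nonneg_left (f2.trans hrows) hc.le) ?_
    rw [hV]
    exact hS
  have f4 : 2 * K' * Real.log n ≤ c * (1 / (12 * ε) * (Real.log n / 2)) := by
    have f5 : c * (1 / (12 * ε) * (Real.log n / 2)) = c * Real.log n / (24 * ε) := by
      field_simp
      ring
    rw [f5, le_div_iff₀ (by positivity)]
    have := mul_le_mul_of_nonneg_right hεc hlog.le
    nlinarith
  nlinarith

end

end Pool.Agent.W_7d29a1_F
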