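import Pool.Agent.W_7d29a1_F.VlD

/-!
Corollary of Theorem F: the law of large numbers for the whole path, with exponential rate.
-/

namespace Pool.Agent.W_7d29a1_F

open MeasureTheory ProbabilityTheory Finset Filter Topology
open Pool.Agent.W_7d29a1_h47

noncomputable section

variable {μ : Measure ℝ} [IsProbabilityMeasure μ]

/-- The exceptional set of environments for one time. -/
lemma VlE_bad (hμ : EM μ) {h v ε u δ L θ : ℝ} {i r : ℕ} {y0 : ℤ} (hu : 0 < u)
    (hθ : 0 < θ) (hθ1 : θ ≤ 1) (hi : 0 < i) (hy0 : Reach 0 i y0)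
    (hb : (L - δ) * i ≤ ap μ i y0 - δ / 2 * i + h * y0)
    (hB1 : a μ (h + u) i + δ / 2 * i ≤ (L + u * v + δ) * i)
    (hB2 : a μ (h - u) i + δ / 2 * i ≤ (L - u * v + δ) * i) :
    ∃ S : Set Env, (law μ).real S ≤
      (4 * i + 1) * (2 * Real.exp (Cc μ * θ ^ 2 * ((i + r : ℕ) : ℝ) - θ * δ * i)) +
      (2 * i + 1) * (2 * Real.exp (Cc μ * θ ^ 2 * i - θ * (δ / 2) * i)) +
      2 * (2 * Real.exp (Cc μ * θ ^ 2 * i - θ * (δ / 2) * i)) ∧
      ∀ g ∉ S, Av g h 0 0 (i + r) (VlFar v ε i) ≤ 2 * Real.exp (-((u * ε - 4 * δ) * i)) := by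
  have hi0 : (0 : ℝ) < i := by exact_mod_cast hi
  have hn0 : (0 : ℝ) < ((i + r : ℕ) : ℝ) := by
    have : 0 < i + r := by omega
    exact_mod_cast this
  obtain ⟨SD, hSD⟩ : ∃ S : Set Env, S = ⋃ x ∈ Icc (-(2 * i : ℤ)) (2 * i),
    {g | δ * i ≤ |Real.log (Z g h 0 x (i + r)) - a μ h (i + r)|} := ⟨_, rfl⟩
  obtain ⟨SC, hSC⟩ : ∃ S : Set Env, S = ⋃ y ∈ Icc (-(i : ℤ)) i,
    {g | δ / 2 * i ≤ |Real.log (Zp g 0 (y - y0) i y) - ap μ i y0|} := ⟨_, rfl⟩
  obtain ⟨S1, hS1⟩ : ∃ S : Set Env, S =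
    {g | δ / 2 * i ≤ |Real.log (Z g (h + u) 0 0 i) - a μ (h + u) i|} := ⟨_, rfl⟩
  obtain ⟨S2, hS2⟩ : ∃ S : Set Env, S =
    {g | δ / 2 * i ≤ |Real.log (Z g (h - u) 0 0 i) - a μ (h - u) i|} := ⟨_, rfl⟩
  have pD : (law μ).real SD ≤
      (4 * i + 1) * (2 * Real.exp (Cc μ * θ ^ 2 * ((i + r : ℕ) : ℝ) - θ * δ * i)) := by
    rw [hSD]
    refine (measureReal_biUnion_finset_le _ _).trans ?_
    have h1 : ∀ x ∈ Icc (-(2 * i : ℤ)) (2 * i),
        (law μ).real {g | δ * i ≤ |Real.log (Z g h 0 x (i + r)) - a μ h (i + r)|} ≤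
          2 * Real.exp (Cc μ * θ ^ 2 * ((i + r : ℕ) : ℝ) - θ * δ * i) := by
      intro x _
      have h2 := VlB_shift (μ := μ) x (F := fun g => Real.log (Z g h 0 0 (i + r)) - a μ h (i + r))
        (by fun_prop) (δ * i)
      simp only [Z_shiftEnv, zero_add] at h2
      rw [h2]
      have h3 := Lim_dev hμ h (i + r) hθ hθ1 (ε := δ * i / ((i + r : ℕ) : ℝ))
      have h4 : δ * i / ((i + r : ℕ) : ℝ) * ((i + r : ℕ) : ℝ) = δ * i := by
        field_simp
      have h5 : θ * (δ * i / ((i + r : ℕ) : ℝ)) * ((i + r : ℕ) : ℝ) = θ * δ * i := by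
        field_simp
      rw [h4, h5] at h3
      exact h3
    refine (Finset.sum_le_sum h1).trans (le_of_eq ?_)
    rw [Finset.sum_const, Int.card_Icc, nsmul_eq_mul]
    congr 1
    have : (2 * (i : ℤ) + 1 - -(2 * i)) = 4 * i + 1 := by ring
    rw [this]
    have h3 : ((4 * (i : ℤ) + 1).toNat : ℝ) = ((4 * i + 1 : ℕ) : ℝ) := by
      congr 1
    rw [h3]
    push_cast
    ring
  have pC : (law μ).real SC ≤
      (2 * i + 1) * (2 * Real.exp (Cc μ * θ ^ 2 * i - θ * (δ / 2) * i)) := by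
    rw [hSC]
    exact VlB_C hμ hy0 hθ hθ1
  have p1 : (law μ).real S1 ≤ 2 * Real.exp (Cc μ * θ ^ 2 * i - θ * (δ / 2) * i) := by
    rw [hS1]
    exact Lim_dev hμ (h + u) i hθ hθ1
  have p2 : (law μ).real S2 ≤ 2 * Real.exp (Cc μ * θ ^ 2 * i - θ * (δ / 2) * i) := by
    rw [hS2]
    exact Lim_dev hμ (h - u) i hθ hθ1
  refine ⟨SD ∪ SC ∪ S1 ∪ S2, ?_, ?_⟩
  · have pS : (law μ).real (SD ∪ SC ∪ S1 ∪ S2) ≤ (law μ).real SD + (law μ).real SC +
        (law μ).real S1 + (law μ).real S2 := by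
      refine (measureReal_union_le _ _).trans ?_
      refine add_le_add ((measureReal_union_le _ _).trans ?_) le_rfl
      exact add_le_add (measureReal_union_le _ _) le_rfl
    linarith
  · intro g hg
    simp only [Set.mem_union, not_or] at hg
    obtain ⟨⟨⟨gD, gC⟩, g1⟩, g2⟩ := hg
    rw [hSD] at gD
    rw [hSC] at gC
    rw [hS1] at g1
    rw [hS2] at g2
    simp only [Set.mem_iUnion, not_exists, Set.mem_ofPred_eq, not_le] at gD gC g1 g2
    refine VlB_det (A := a μ h (i + r)) (L := L) (b := ap μ i y0 - δ / 2 * i) hu hy0 ?_ ?_ hb ?_ ?_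
    · intro x hx
      refine (gD x ?_).le
      rw [Finset.mem_Icc]
      exact abs_le.1 hx
    · intro y hy
      have := gC y (by
        rw [Finset.mem_Icc]
        exact abs_le.1 hy)
      have := (abs_lt.1 this).1
      linarith
    · have := (abs_lt.1 g1).2
      linarith
    · have := (abs_lt.1 g2).2
      linarith

/-- The path stays close to the line of slope `v`. -/
def VlNear (v ε : ℝ) (n : ℕ) (s : ℕ → Bool) : Prop := ∀ i ≤ n, |(pos s i : ℝ) - v * i| ≤ ε * n

/-- The law of large numbers for the whole path. -/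
theorem VlE_lln (hμ : EM μ) {h v : ℝ} (hv : |v| < 1) (hd : HasDerivAt (Lam μ) v h)
    (hs : SubG μ h v) {ε : ℝ} (hε : 0 < ε) :
    ∃ c : ℝ, 0 < c ∧ ∀ᵐ g ∂(law μ), ∀ᶠ n : ℕ in atTop,
      1 - Real.exp (-(c * n)) ≤ Av g h 0 0 n (fun s => ind (VlNear v ε n s)) := by
  have h1 : ∀ᶠ x in 𝓝 h, |Lam μ x - Lam μ h - (x - h) * v| ≤ ε / 16 * |x - h| := by
    have h2 := hasDerivAt_iff_isLittleO.1 hd
    have h3 := h2.bound (show (0 : ℝ) < ε / 16 by linarith)
    simpa [smul_eq_mul] using h3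
  obtain ⟨ρ, hρ, hρ1⟩ := Metric.eventually_nhds_iff.1 h1
  obtain ⟨u, hu⟩ : ∃ u : ℝ, u = ρ / 2 := ⟨_, rfl⟩
  have hu0 : 0 < u := by rw [hu]; linarith
  have huρ : u < ρ := by rw [hu]; linarith
  have hp : Lam μ (h + u) ≤ Lam μ h + u * v + ε / 16 * u := by
    have h2 := hρ1 (y := h + u) (by
      rw [Real.dist_eq, add_sub_cancel_left, abs_of_pos hu0]; exact huρ)
    rw [add_sub_cancel_left, abs_of_pos hu0] at h2
    linarith [(abs_le.1 h2).2]
  have hm : Lam μ (h - u) ≤ Lam μ h - u * v + ε / 16 * u := by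
    have h2 := hρ1 (y := h - u) (by
      rw [Real.dist_eq, sub_sub_cancel_left, abs_neg, abs_of_pos hu0]; exact huρ)
    rw [sub_sub_cancel_left, abs_neg, abs_of_pos hu0] at h2
    linarith [(abs_le.1 h2).2]
  obtain ⟨δ, hδ⟩ : ∃ δ : ℝ, δ = u * ε / 8 := ⟨_, rfl⟩
  have hδ0 : 0 < δ := by rw [hδ]; positivity
  obtain ⟨η, hη⟩ : ∃ η : ℝ, η = min (ε / 2) 1 := ⟨_, rfl⟩
  have hη0 : 0 < η := by rw [hη]; exact lt_min (by positivity) one_pos
  have hη1 : η ≤ 1 := by rw [hη]; exact min_le_right _ _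
  have hηε : η ≤ ε / 2 := by rw [hη]; exact min_le_left _ _
  have hC := Cc_nonneg μ
  obtain ⟨θ, hθ⟩ : ∃ θ : ℝ, θ = min 1 (δ * η / (4 * (Cc μ + 1))) := ⟨_, rfl⟩
  have hθ0 : 0 < θ := by rw [hθ]; exact lt_min one_pos (by positivity)
  have hθ1 : θ ≤ 1 := by rw [hθ]; exact min_le_left _ _
  have hθ2 : Cc μ * θ ^ 2 ≤ θ * δ * η / 4 := by
    have h1 : θ ≤ δ * η / (4 * (Cc μ + 1)) := by rw [hθ]; exact min_le_right _ _
    have h2 : θ * (4 * (Cc μ + 1)) ≤ δ * η := by rwa [le_div_iff₀ (by positivity)] at h1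
    have h3 := mul_le_mul_of_nonneg_left h2 hθ0.le
    have h4 := mul_pos hθ0 hθ0
    have h5 : θ * (θ * (4 * (Cc μ + 1))) = 4 * (Cc μ * θ ^ 2) + 4 * (θ * θ) := by ring
    rw [h5] at h3
    linarith
  obtain ⟨κ, hκ⟩ : ∃ κ : ℝ, κ = θ * δ * η / 4 := ⟨_, rfl⟩
  have hκ0 : 0 < κ := by rw [hκ]; positivity
  obtain ⟨c1, hc1⟩ : ∃ c1 : ℝ, c1 = u * ε / 2 * η := ⟨_, rfl⟩
  have hc10 : 0 < c1 := by rw [hc1]; positivity
  -- the admissible end points
  have hpar := VlY_parity v
  have hvy := VlY_tendsto (v := v) (abs_lt.1 hv).2.le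
  have q1 := ap_lower hμ hv hs hpar hvy (show (0 : ℝ) < δ / 4 by linarith)
  have q2 := ev_reach hv hpar hvy
  have q3 : ∀ᶠ i : ℕ in atTop, h * v - δ / 4 < h * ((VlY v i : ℝ) / i) :=
    (hvy.const_mul h).eventually_const_lt (by linarith)
  obtain ⟨i0, hi0⟩ := eventually_atTop.1 (q1.and (q2.and (q3.and (eventually_gt_atTop 0))))
  -- the exceptional sets
  have key : ∀ n i : ℕ, i0 ≤ i → i ≤ n → η * n ≤ i → ∃ S : Set Env,
      (law μ).real S ≤ (12 * n + 8) * Real.exp (-(κ * n)) ∧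
      ∀ g ∉ S, Av g h 0 0 n (VlFar v ε i) ≤ 2 * Real.exp (-(c1 * n)) := by
    intro n i hi hin hηi
    obtain ⟨r1, r2, r3, r7⟩ := hi0 i hi
    have hi' : (0 : ℝ) < i := by exact_mod_cast r7
    have hin' : (i : ℝ) ≤ n := by exact_mod_cast hin
    have r3' : (h * v - δ / 4) * i ≤ h * VlY v i := by
      have := mul_lt_mul_of_pos_right r3 hi'
      have e : h * ((VlY v i : ℝ) / i) * i = h * VlY v i := by
        field_simp
      rw [e] at this
      exact this.le
    have a1 := a_le_Lam hμ (h + u) i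
    have a2 := a_le_Lam hμ (h - u) i
    have p1 := mul_le_mul_of_nonneg_left hp hi'.le
    have p2 := mul_le_mul_of_nonneg_left hm hi'.le
    have k1 : (Lam μ h - δ) * i ≤ ap μ i (VlY v i) - δ / 2 * i + h * VlY v i := by
      have z1 : (i : ℝ) * (Lam μ h - h * v - δ / 4) + (h * v - δ / 4) * i =
          (Lam μ h - δ / 2) * i := by ring
      linarith
    have z2 : ε / 16 * u = δ / 2 := by rw [hδ]; ring
    rw [z2] at p1 p2
    have k2 : a μ (h + u) i + δ / 2 * i ≤ (Lam μ h + u * v + δ) * i := by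
      linarith
    have k3 : a μ (h - u) i + δ / 2 * i ≤ (Lam μ h - u * v + δ) * i := by
      linarith
    obtain ⟨S, hS1, hS2⟩ := VlE_bad (μ := μ) (h := h) (v := v) (ε := ε) (u := u) (δ := δ)
      (L := Lam μ h) (θ := θ) (r := n - i) hμ hu0 hθ0 hθ1 r7 r2 k1 k2 k3
    have hni : i + (n - i) = n := by omega
    rw [hni] at hS1 hS2
    refine ⟨S, hS1.trans ?_, fun g hg => (hS2 g hg).trans ?_⟩
    · have hn' : (0 : ℝ) ≤ n := Nat.cast_nonneg n
      have e1 : Real.exp (Cc μ * θ ^ 2 * n - θ * δ * i) ≤ Real.exp (-(κ * n)) := by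
        refine Real.exp_le_exp.2 ?_
        have f1 := mul_le_mul_of_nonneg_right hθ2 hn'
        have f2 := mul_le_mul_of_nonneg_left hηi (show 0 ≤ θ * δ by positivity)
        have f3 := mul_nonneg (mul_pos (mul_pos hθ0 hδ0) hη0).le hn'
        rw [hκ]
        linarith
      have e2 : Real.exp (Cc μ * θ ^ 2 * i - θ * (δ / 2) * i) ≤ Real.exp (-(κ * n)) := by
        refine Real.exp_le_exp.2 ?_
        have f1 := mul_le_mul_of_nonneg_right hθ2 hi'.le
        have f2 := mul_le_mul_of_nonneg_left hηi (show 0 ≤ θ * δ / 4 by positivity)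
        have f3 : θ * δ * η / 4 * i ≤ θ * δ / 4 * i := by
          refine mul_le_mul_of_nonneg_right ?_ hi'.le
          have f4 := mul_le_mul_of_nonneg_left hη1 (mul_pos hθ0 hδ0).le
          linarith
        rw [hκ]
        linarith
      have e3 := mul_le_mul_of_nonneg_left e1 (show (0 : ℝ) ≤ (4 * i + 1) * 2 by positivity)
      have e4 := mul_le_mul_of_nonneg_left e2 (show (0 : ℝ) ≤ (2 * i + 1) * 2 + 4 by positivity)
      have e5 : ((4 * (i : ℝ) + 1) * 2 + ((2 * i + 1) * 2 + 4)) * Real.exp (-(κ * n)) ≤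
          (12 * n + 8) * Real.exp (-(κ * n)) := by
        refine mul_le_mul_of_nonneg_right ?_ (Real.exp_pos _).le
        linarith
      linarith
    · refine mul_le_mul_of_nonneg_left (Real.exp_le_exp.2 ?_) (by norm_num)
      have f1 := mul_le_mul_of_nonneg_left hηi (show 0 ≤ u * ε / 2 by positivity)
      have f2 : (u * ε - 4 * δ) * i = u * ε / 2 * i := by rw [hδ]; ring
      rw [f2, hc1]
      linarith
  -- one exceptional set for each `n`
  have key2 : ∃ S : ℕ → Set Env, ∀ n : ℕ, (i0 : ℝ) ≤ η * n →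
      (law μ).real (S n) ≤ (n + 1) * ((12 * n + 8) * Real.exp (-(κ * n))) ∧
      ∀ g ∉ S n, 1 - 2 * (n + 1) * Real.exp (-(c1 * n)) ≤
        Av g h 0 0 n (fun s => ind (VlNear v ε n s)) := by
    have : ∀ n : ℕ, ∃ S : Set Env, (i0 : ℝ) ≤ η * n →
        (law μ).real S ≤ (n + 1) * ((12 * n + 8) * Real.exp (-(κ * n))) ∧
        ∀ g ∉ S, 1 - 2 * (n + 1) * Real.exp (-(c1 * n)) ≤
          Av g h 0 0 n (fun s => ind (VlNear v ε n s)) := by
      intro n
      by_cases hn : (i0 : ℝ) ≤ η * n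
      swap
      · exact ⟨∅, fun h' => absurd h' hn⟩
      have hex : ∀ i : ℕ, ∃ S : Set Env, (i ≤ n → η * n ≤ i →
          (law μ).real S ≤ (12 * n + 8) * Real.exp (-(κ * n)) ∧
          ∀ g ∉ S, Av g h 0 0 n (VlFar v ε i) ≤ 2 * Real.exp (-(c1 * n))) := by
        intro i
        by_cases hc : i ≤ n ∧ η * n ≤ i
        · have hi0i : i0 ≤ i := by
            have : (i0 : ℝ) ≤ i := hn.trans hc.2
            exact_mod_cast this
          obtain ⟨S, hS⟩ := key n i hi0i hc.1 hc.2
          exact ⟨S, fun _ _ => hS⟩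
        · exact ⟨∅, fun h1 h2 => absurd ⟨h1, h2⟩ hc⟩
      choose S hS using hex
      classical
      refine ⟨⋃ i ∈ (range (n + 1)).filter (fun i : ℕ => η * n ≤ i), S i, fun _ => ⟨?_, ?_⟩⟩
      · refine (measureReal_biUnion_finset_le _ _).trans ?_
        have h1 : ∀ i ∈ (range (n + 1)).filter (fun i : ℕ => η * n ≤ i),
            (law μ).real (S i) ≤ (12 * n + 8) * Real.exp (-(κ * n)) := by
          intro i hi
          rw [Finset.mem_filter, Finset.mem_range] at hi
          exact (hS i (by omega) hi.2).1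
        refine (Finset.sum_le_sum h1).trans ?_
        rw [Finset.sum_const, nsmul_eq_mul]
        refine mul_le_mul_of_nonneg_right ?_ (by positivity)
        have h2 := Finset.card_filter_le (range (n + 1)) (fun i : ℕ => η * n ≤ i)
        rw [Finset.card_range] at h2
        exact_mod_cast h2
      · intro g hg
        have hg' : ∀ i : ℕ, i ≤ n → η * n ≤ i → g ∉ S i := by
          intro i h1 h2 h3
          apply hg
          simp only [Set.mem_iUnion]
          refine ⟨i, ?_, h3⟩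
          rw [Finset.mem_filter, Finset.mem_range]
          exact ⟨by omega, h2⟩
        have hpt : ∀ s ∈ T n, 1 - ∑ i ∈ (range (n + 1)).filter (fun i : ℕ => η * n ≤ i),
            VlFar v ε i s ≤ ind (VlNear v ε n s) := by
          intro s _
          by_cases hnear : VlNear v ε n s
          · rw [ind_true hnear]
            have : 0 ≤ ∑ i ∈ (range (n + 1)).filter (fun i : ℕ => η * n ≤ i), VlFar v ε i s :=
              Finset.sum_nonneg fun i _ => VlFar_nonneg v ε i s
            linarith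
          · rw [ind_false hnear]
            unfold VlNear at hnear
            push Not at hnear
            obtain ⟨i, hin, hfar⟩ := hnear
            have hin' : (i : ℝ) ≤ n := by exact_mod_cast hin
            have hbig : η * n ≤ i := by
              have h2 : |(pos s i : ℝ) - v * i| ≤ 2 * i := by
                have h3 : |(pos s i : ℝ)| ≤ i := by exact_mod_cast pos_abs_le s i
                have h4 : |v * (i : ℝ)| ≤ i := by
                  rw [abs_mul, Nat.abs_cast]
                  have : (0 : ℝ) ≤ i := Nat.cast_nonneg i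
                  nlinarith
                have := abs_sub (pos s i : ℝ) (v * i)
                linarith
              have h5 : ε * n < 2 * i := hfar.trans_le h2
              have h6 : η * n ≤ ε / 2 * n := mul_le_mul_of_nonneg_right hηε (Nat.cast_nonneg n)
              linarith
            have hmem : i ∈ (range (n + 1)).filter (fun i : ℕ => η * n ≤ i) := by
              rw [Finset.mem_filter, Finset.mem_range]
              exact ⟨by omega, hbig⟩
            have h7 : VlFar v ε i s = 1 := by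
              unfold VlFar
              refine ind_true ?_
              have : ε * i ≤ ε * n := mul_le_mul_of_nonneg_left hin' hε.le
              linarith
            have h8 := Finset.single_le_sum (f := fun i => VlFar v ε i s)
              (fun i _ => VlFar_nonneg v ε i s) hmem
            linarith
        have h1 := Av_mono (g := g) (h := h) (t := 0) (x := 0) hpt
        rw [Av_sub, Av_const, Av_sum] at h1
        have h2 : ∑ i ∈ (range (n + 1)).filter (fun i : ℕ => η * n ≤ i),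
            Av g h 0 0 n (fun s => VlFar v ε i s) ≤ 2 * (n + 1) * Real.exp (-(c1 * n)) := by
          have h3 : ∀ i ∈ (range (n + 1)).filter (fun i : ℕ => η * n ≤ i),
              Av g h 0 0 n (fun s => VlFar v ε i s) ≤ 2 * Real.exp (-(c1 * n)) := by
            intro i hi
            rw [Finset.mem_filter, Finset.mem_range] at hi
            exact (hS i (by omega) hi.2).2 g (hg' i (by omega) hi.2)
          refine (Finset.sum_le_sum h3).trans ?_
          rw [Finset.sum_const, nsmul_eq_mul]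
          have h2 := Finset.card_filter_le (range (n + 1)) (fun i : ℕ => η * n ≤ i)
          rw [Finset.card_range] at h2
          have h4 : ((((range (n + 1)).filter (fun i : ℕ => η * n ≤ i)).card : ℕ) : ℝ) ≤ n + 1 := by
            exact_mod_cast h2
          calc _ ≤ ((n : ℝ) + 1) * (2 * Real.exp (-(c1 * n))) :=
                mul_le_mul_of_nonneg_right h4 (by positivity)
            _ = _ := by ring
        linarith
    choose S hS using this
    exact ⟨S, hS⟩
  obtain ⟨S, hS⟩ := key2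
  refine ⟨c1 / 2, by positivity, ?_⟩
  -- Borel-Cantelli
  obtain ⟨n0, hn0⟩ := exists_nat_ge ((i0 : ℝ) / η)
  have hn0' : ∀ n : ℕ, n0 ≤ n → (i0 : ℝ) ≤ η * n := by
    intro n hn
    have h1 : (i0 : ℝ) / η ≤ n := hn0.trans (by exact_mod_cast hn)
    rw [div_le_iff₀ hη0] at h1
    linarith
  have hsummable : Summable fun n : ℕ => ((n : ℝ) + 1) * ((12 * n + 8) * Real.exp (-(κ * n))) := by
    have s2 := Real.summable_pow_mul_exp_neg_nat_mul 2 hκ0
    have s1 := Real.summable_pow_mul_exp_neg_nat_mul 1 hκ0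
    have s0 := Real.summable_pow_mul_exp_neg_nat_mul 0 hκ0
    refine (((s2.mul_left 12).add (s1.mul_left 20)).add (s0.mul_left 8)).congr fun n => ?_
    rw [show -κ * (n : ℝ) = -(κ * n) by ring]
    ring
  have hsum : (∑' n : ℕ, (law μ) (if n0 ≤ n then S n else ∅)) ≠ ⊤ := by
    refine ne_top_of_le_ne_top hsummable.tsum_ofReal_ne_top (ENNReal.tsum_le_tsum fun n => ?_)
    by_cases hn : n0 ≤ n
    · rw [if_pos hn, ← ofReal_measureReal]
      exact ENNReal.ofReal_le_ofReal (hS n (hn0' n hn)).1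
    · rw [if_neg hn, measure_empty]
      exact zero_le
  have hfin : ∀ᶠ n : ℕ in atTop, 2 * ((n : ℝ) + 1) * Real.exp (-(c1 * n)) ≤
      Real.exp (-(c1 / 2 * n)) := by
    have h2 := (VlC_small (c := c1 / 2) (by positivity) 2 2).eventually_lt_const
      (show (0 : ℝ) < 1 by norm_num)
    filter_upwards [h2] with n hn
    have e1 : Real.exp (-(c1 * n)) = Real.exp (-(c1 / 2 * n)) * Real.exp (-(c1 / 2 * n)) := by
      rw [← Real.exp_add]
      congr 1
      ring
    rw [e1]
    have e2 := Real.exp_pos (-(c1 / 2 * n))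
    calc 2 * ((n : ℝ) + 1) * (Real.exp (-(c1 / 2 * n)) * Real.exp (-(c1 / 2 * n)))
        = ((2 * n + 2) * Real.exp (-(c1 / 2 * n))) * Real.exp (-(c1 / 2 * n)) := by ring
      _ ≤ 1 * Real.exp (-(c1 / 2 * n)) := mul_le_mul_of_nonneg_right hn.le e2.le
      _ = _ := one_mul _
  filter_upwards [ae_eventually_notMem hsum] with g hg
  filter_upwards [hg, hfin, eventually_ge_atTop n0] with n h1 h2 h3
  rw [if_pos h3] at h1
  have h4 := (hS n (hn0' n h3)).2 g h1
  linarith

end

end Pool.Agent.W_7d29a1_F
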